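import Pool.Agent.LF.Tb
import Pool.Agent.LF.CH3

/-!
[LEAF2], row CH3': densities without smoothness in a chart of the sphere.
-/

set_option autoImplicit false

namespace Pool.Agent.LF

open MeasureTheory Set Metric Filter Topology Pool.Agent.MP_6cbfb8_an
open scoped ContDiff Real RealInnerProductSpace

/-- The extension operator in a chart, for every function on the sphere which vanishes off a small
ball. -/
theorem ch3g {m : ℕ} (x0 : E (m + 2)) (X : ℝ × E m → E (m + 2)) (p0 : ℝ × E m) {δ : ℝ}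
    (hδ : 0 < δ) (hX : ContDiff ℝ ∞ X) (hx0 : X p0 = x0) (h1 : ∀ p, ‖p - p0‖ ≤ δ → ‖X p‖ = 1)
    (hinj : ∀ p q, ‖p - p0‖ ≤ δ → ‖q - p0‖ ≤ δ → X p = X q → p = q)
    (him : ∀ p, ‖p - p0‖ ≤ δ → ∀ v, fderiv ℝ X p v = 0 → v = 0)
    (hnb : ∀ᶠ x in 𝓝 x0, ‖x‖ = 1 → ∃ p, ‖p - p0‖ < δ ∧ X p = x) (δ1 : ℝ) (hδ1 : 0 < δ1) :
    ∃ r : ℝ, 0 < r ∧ ∃ K : ℝ × E m → ℂ, ContDiff ℝ ∞ K ∧ HasCompactSupport K ∧
      (∀ p, K p ≠ 0 → ‖p - p0‖ < δ ∧ ‖p - p0‖ < δ1) ∧
      ∀ g : E (m + 2) → ℂ, (∀ x, ‖x‖ = 1 → r ≤ ‖x - x0‖ → g x = 0) →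
        ∀ ξ, extn g ξ = Tb X (fun p => g (X p) * K p) ((2 * π) • ξ) := by
  obtain ⟨J, hJ, hcv⟩ := cv X p0 hδ hX h1 hinj him
  obtain ⟨r0, hr0, hr0'⟩ := Metric.eventually_nhds_iff.1 hnb
  obtain ⟨δ2, hδ2⟩ : ∃ δ2, δ2 = min δ δ1 := ⟨_, rfl⟩
  have h2 : 0 < δ2 := by rw [hδ2]; exact lt_min hδ hδ1
  have h3 : δ2 ≤ δ := by rw [hδ2]; exact min_le_left _ _
  have h4 : δ2 ≤ δ1 := by rw [hδ2]; exact min_le_right _ _
  -- the radius
  obtain ⟨r1, hr1, hr1'⟩ : ∃ r1, 0 < r1 ∧ ∀ p, ‖p - p0‖ ≤ δ → ‖X p - x0‖ < r1 →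
      ‖p - p0‖ < δ2 / 3 := by
    rcases (closedBall p0 δ ∩ {p | δ2 / 3 ≤ ‖p - p0‖}).eq_empty_or_nonempty with he | hne
    · refine ⟨1, one_pos, fun p hp _ => ?_⟩
      by_contra h
      rw [not_lt] at h
      have : p ∈ closedBall p0 δ ∩ {p | δ2 / 3 ≤ ‖p - p0‖} :=
        ⟨by rw [mem_closedBall, dist_eq_norm]; exact hp, h⟩
      rw [he] at this
      exact this
    · have hK : IsCompact (closedBall p0 δ ∩ {p | δ2 / 3 ≤ ‖p - p0‖}) :=
        (isCompact_closedBall p0 δ).inter_right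
          (isClosed_le continuous_const (by fun_prop))
      obtain ⟨q, ⟨hq1, hq2⟩, hq3⟩ := hK.exists_isMinOn hne
        (f := fun p => ‖X p - x0‖) (by have := hX.continuous; fun_prop)
      rw [mem_closedBall, dist_eq_norm] at hq1
      simp only [mem_ofPred_eq] at hq2
      refine ⟨‖X q - x0‖, ?_, fun p hp hlt => ?_⟩
      · rw [norm_pos_iff, sub_ne_zero, ← hx0]
        intro h
        have h5 := hinj q p0 hq1 (by simp [hδ.le]) h
        rw [h5] at hq2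
        simp at hq2
        linarith
      · by_contra h
        rw [not_lt] at h
        have h6 := hq3 (a := p) ⟨by rw [mem_closedBall, dist_eq_norm]; exact hp, h⟩
        simp only [mem_ofPred_eq] at h6
        linarith
  -- the cut-off
  let f : ContDiffBump p0 := ⟨δ2 / 3, δ2 / 2, by linarith, by linarith⟩
  obtain ⟨K, hK⟩ : ∃ K : ℝ × E m → ℂ, K = fun p => ((f p * J p : ℝ) : ℂ) := ⟨_, rfl⟩
  have hK0 : ∀ p, δ2 / 2 < ‖p - p0‖ → K p = 0 := by
    intro p hp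
    have h5 : f p = 0 := f.zero_of_le_dist (by rw [dist_eq_norm]; exact hp.le)
    rw [hK]
    simp only
    rw [h5, zero_mul, Complex.ofReal_zero]
  have hKs : ContDiff ℝ ∞ K := by
    rw [contDiff_iff_contDiffAt]
    intro p
    rcases lt_or_ge ‖p - p0‖ δ with h | h
    · rw [hK]
      exact Complex.ofRealCLM.contDiff.contDiffAt.comp p (f.contDiffAt.mul (hJ p h))
    · have h5 : K =ᶠ[𝓝 p] fun _ => (0 : ℂ) := by
        have h6 : {q : ℝ × E m | δ2 / 2 < ‖q - p0‖} ∈ 𝓝 p :=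
          (isOpen_lt continuous_const (by fun_prop)).mem_nhds (by
            simp only [mem_ofPred_eq]
            linarith)
        filter_upwards [h6] with q hq using hK0 q hq
      exact contDiffAt_const.congr_of_eventuallyEq h5
  have hKc : HasCompactSupport K := by
    refine HasCompactSupport.intro (isCompact_closedBall p0 (δ2 / 2)) fun p hp => hK0 p ?_
    rw [Metric.mem_closedBall, dist_eq_norm, not_le] at hp
    exact hp
  refine ⟨min r0 r1, lt_min hr0 hr1, K, hKs, hKc, fun p hp => ?_, fun g hg0 ξ => ?_⟩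
  · have h5 : ‖p - p0‖ ≤ δ2 / 2 := by
      by_contra h
      exact hp (hK0 p (not_le.1 h))
    constructor <;> linarith
  · have h8 := hcv (fun x => g x *
      Complex.exp (((-(2 * π * inner ℝ x ξ) : ℝ) : ℂ) * Complex.I)) ?_
    · unfold extn Tb
      have h12 : ∀ p : ℝ × E m, p ∉ ball p0 δ → g (X p) * K p *
          Complex.exp (((-inner ℝ ((2 * π) • ξ) (X p) : ℝ) : ℂ) * Complex.I) = 0 := by
        intro p hp
        rw [mem_ball, dist_eq_norm, not_lt] at hp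
        rw [hK0 p (by linarith), mul_zero, zero_mul]
      rw [h8, ← setIntegral_eq_integral_of_forall_compl_eq_zero h12]
      refine setIntegral_congr_fun measurableSet_ball fun p hp => ?_
      rw [mem_ball, dist_eq_norm] at hp
      have e1 : (-inner ℝ ((2 * π) • ξ) (X p) : ℝ) = -(2 * π * inner ℝ (X p) ξ) := by
        rw [real_inner_smul_left, real_inner_comm]
      rw [e1]
      rcases eq_or_ne (g (X p)) 0 with h | h
      · rw [h]
        ring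
      · have h9 : ‖X p - x0‖ < min r0 r1 := by
          by_contra h'
          exact h (hg0 _ (h1 p hp.le) (not_lt.1 h'))
        have h10 := hr1' p hp.le (h9.trans_le (min_le_right _ _))
        have h11 : f p = 1 := f.one_of_mem_closedBall (by
          rw [Metric.mem_closedBall, dist_eq_norm]
          exact h10.le)
        rw [hK]
        simp only
        rw [h11, one_mul]
        ring
    · intro x hx hne
      have h9 : ‖x - x0‖ < min r0 r1 := by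
        by_contra h'
        exact hne (by rw [hg0 _ hx (not_lt.1 h'), zero_mul])
      exact hr0' (by rw [dist_eq_norm]; exact h9.trans_le (min_le_left _ _)) hx

/-- `min(C d, 2 K) ≤ (C + 2 K) d ^ s`. -/
theorem min_le_rpow {d s C K u : ℝ} (hd : 0 ≤ d) (hs : 0 < s) (hs1 : s ≤ 1) (hC : 0 ≤ C)
    (hK : 0 ≤ K) (h1 : u ≤ C * d) (h2 : u ≤ 2 * K) : u ≤ (C + 2 * K) * d ^ s := by
  rcases le_total d 1 with h | h
  · have h3 : d ≤ d ^ s := by
      rcases hd.eq_or_lt with h0 | h0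
      · rw [← h0, Real.zero_rpow hs.ne']
      · calc d = d ^ (1 : ℝ) := (Real.rpow_one d).symm
          _ ≤ d ^ s := Real.rpow_le_rpow_of_exponent_ge h0 h hs1
    have h4 : 0 ≤ d ^ s := Real.rpow_nonneg hd s
    nlinarith [mul_le_mul_of_nonneg_left h3 hC, mul_nonneg hK h4]
  · have h3 : 1 ≤ d ^ s := Real.one_le_rpow h hs.le
    nlinarith [mul_le_mul_of_nonneg_left h3 hK, mul_nonneg hC (zero_le_one.trans h3)]

/-- CH3 without smoothness. -/
theorem ch3h {m : ℕ} (φ : E (m + 2) → ℝ) (x0 : E (m + 2)) (X : ℝ × E m → E (m + 2))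
    (p0 : ℝ × E m) {δ : ℝ} (hδ : 0 < δ) (hX : ContDiff ℝ ∞ X) (A : ℕ → ℝ)
    (hA : ∀ j p, ‖iteratedFDeriv ℝ j X p‖ ≤ A j) (hx0 : X p0 = x0)
    (h1 : ∀ p, ‖p - p0‖ ≤ δ → ‖X p‖ = 1) (hφ : ∀ p, ‖p - p0‖ ≤ δ → φ (X p) = p.1)
    (hinj : ∀ p q, ‖p - p0‖ ≤ δ → ‖q - p0‖ ≤ δ → X p = X q → p = q)
    (him : ∀ p, ‖p - p0‖ ≤ δ → ∀ v, fderiv ℝ X p v = 0 → v = 0)
    (hnb : ∀ᶠ x in 𝓝 x0, ‖x‖ = 1 → ∃ p, ‖p - p0‖ < δ ∧ X p = x) (δ1 : ℝ) (hδ1 : 0 < δ1) :
    ∃ r : ℝ, 0 < r ∧ ∀ s M : ℝ, 0 < s → s ≤ 1 → ∃ B : ℝ, ∀ g : E (m + 2) → ℂ,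
      Measurable g → (∀ x, ‖g x‖ ≤ M) →
      (∀ x y, ‖x‖ = 1 → ‖y‖ = 1 → φ x = φ y → ‖g x - g y‖ ≤ M * ‖x - y‖ ^ s) →
      (∀ x, ‖x‖ = 1 → r ≤ ‖x - x0‖ → g x = 0) →
      ∃ b : ℝ × E m → ℂ, Measurable b ∧ (∀ q, ‖b q‖ ≤ B) ∧
        (∀ t z z', ‖b (t, z) - b (t, z')‖ ≤ B * ‖z - z'‖ ^ s) ∧
        (∀ p, δ1 ≤ ‖p - p0‖ → b p = 0) ∧ ∀ ξ, extn g ξ = Tb X b ((2 * π) • ξ) := by
  obtain ⟨r, hr, K, hKs, hKc, hK0, hext⟩ := ch3g x0 X p0 hδ hX hx0 h1 hinj him hnb δ1 hδ1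
  obtain ⟨C, hC⟩ := iter_bdd hKs hKc
  have hKb : ∀ p, ‖K p‖ ≤ |C 0| := fun p => by
    have := hC 0 p
    rw [norm_iteratedFDeriv_zero] at this
    exact this.trans (le_abs_self _)
  have hKl : ∀ p q, ‖K p - K q‖ ≤ |C 1| * ‖p - q‖ := by
    intro p q
    refine (convex_univ).norm_image_sub_le_of_norm_fderiv_le (𝕜 := ℝ) (f := K)
      (fun x _ => (hKs.differentiable (by simp)) x) (fun x _ => ?_) (mem_univ q) (mem_univ p)
    rw [← norm_iteratedFDeriv_one]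
    exact (hC 1 x).trans (le_abs_self _)
  have hXl : ∀ p q, ‖X p - X q‖ ≤ |A 1| * ‖p - q‖ := by
    intro p q
    refine (convex_univ).norm_image_sub_le_of_norm_fderiv_le (𝕜 := ℝ) (f := X)
      (fun x _ => (hX.differentiable (by simp)) x) (fun x _ => ?_) (mem_univ q) (mem_univ p)
    rw [← norm_iteratedFDeriv_one]
    exact (hA 1 x).trans (le_abs_self _)
  have hz : ∀ (t : ℝ) (z z' : E m), ‖((t, z) : ℝ × E m) - (t, z')‖ = ‖z - z'‖ := by
    intro t z z'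
    rw [Prod.mk_sub_mk, sub_self, Prod.norm_mk, norm_zero, max_eq_right (norm_nonneg _)]
  refine ⟨r, hr, fun s M hs hs1 => ⟨|M| * |C 0| + |M| * (|C 1| + 2 * |C 0|) +
    |M| * |A 1| ^ s * |C 0|, fun g hgm hgM hgH hg0 => ?_⟩⟩
  have hM : ∀ x, ‖g x‖ ≤ |M| := fun x => (hgM x).trans (le_abs_self _)
  have hA1s : 0 ≤ |A 1| ^ s := Real.rpow_nonneg (abs_nonneg _) s
  refine ⟨fun p => g (X p) * K p, ?_, fun q => ?_, fun t z z' => ?_, fun p hp => ?_,
    fun ξ => hext g hg0 ξ⟩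
  · exact (hgm.comp hX.continuous.measurable).mul hKs.continuous.measurable
  · rw [norm_mul]
    have h5 : ‖g (X q)‖ * ‖K q‖ ≤ |M| * |C 0| :=
      mul_le_mul (hM _) (hKb q) (norm_nonneg _) (abs_nonneg _)
    have h6 : 0 ≤ |M| * (|C 1| + 2 * |C 0|) := by positivity
    have h7 : 0 ≤ |M| * |A 1| ^ s * |C 0| := by positivity
    linarith
  · have hd : 0 ≤ ‖z - z'‖ := norm_nonneg _
    have hds : 0 ≤ ‖z - z'‖ ^ s := Real.rpow_nonneg hd s
    -- the cut-off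
    have h5 : ‖K (t, z) - K (t, z')‖ ≤ (|C 1| + 2 * |C 0|) * ‖z - z'‖ ^ s := by
      refine min_le_rpow hd hs hs1 (abs_nonneg _) (abs_nonneg _) ?_ ?_
      · rw [← hz t z z']
        exact hKl _ _
      · calc ‖K (t, z) - K (t, z')‖ ≤ ‖K (t, z)‖ + ‖K (t, z')‖ := norm_sub_le _ _
          _ ≤ 2 * |C 0| := by linarith [hKb (t, z), hKb (t, z')]
    have hpos1 : 0 ≤ |M| * |C 0| := by positivity
    have hpos3 : 0 ≤ |M| * |A 1| ^ s * |C 0| := by positivity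
    have hpos2 : 0 ≤ |M| * (|C 1| + 2 * |C 0|) := by positivity
    have hgK : ∀ x, ‖g x * (K (t, z) - K (t, z'))‖ ≤
        |M| * (|C 1| + 2 * |C 0|) * ‖z - z'‖ ^ s := by
      intro x
      rw [norm_mul, mul_assoc]
      exact mul_le_mul (hM _) h5 (norm_nonneg _) (abs_nonneg _)
    have hfin : |M| * (|C 1| + 2 * |C 0|) * ‖z - z'‖ ^ s ≤
        (|M| * |C 0| + |M| * (|C 1| + 2 * |C 0|) + |M| * |A 1| ^ s * |C 0|) *
          ‖z - z'‖ ^ s := by
      refine mul_le_mul_of_nonneg_right ?_ hds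
      linarith
    by_cases hz1 : K (t, z) = 0
    · have e : g (X (t, z)) * K (t, z) - g (X (t, z')) * K (t, z') =
          g (X (t, z')) * (K (t, z) - K (t, z')) := by
        rw [hz1]
        ring
      simp only
      rw [e]
      exact (hgK _).trans hfin
    by_cases hz2 : K (t, z') = 0
    · have e : g (X (t, z)) * K (t, z) - g (X (t, z')) * K (t, z') =
          g (X (t, z)) * (K (t, z) - K (t, z')) := by
        rw [hz2]
        ring
      simp only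
      rw [e]
      exact (hgK _).trans hfin
    have hb1 := (hK0 _ hz1).1.le
    have hb2 := (hK0 _ hz2).1.le
    have h6 : ‖g (X (t, z)) - g (X (t, z'))‖ ≤ |M| * |A 1| ^ s * ‖z - z'‖ ^ s := by
      have h7 := hgH (X (t, z)) (X (t, z')) (h1 _ hb1) (h1 _ hb2) (by rw [hφ _ hb1, hφ _ hb2])
      have h8 : ‖X (t, z) - X (t, z')‖ ^ s ≤ |A 1| ^ s * ‖z - z'‖ ^ s := by
        rw [← Real.mul_rpow (abs_nonneg _) hd, ← hz t z z']
        exact Real.rpow_le_rpow (norm_nonneg _) (hXl _ _) hs.le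
      calc ‖g (X (t, z)) - g (X (t, z'))‖ ≤ M * ‖X (t, z) - X (t, z')‖ ^ s := h7
        _ ≤ |M| * ‖X (t, z) - X (t, z')‖ ^ s :=
            mul_le_mul_of_nonneg_right (le_abs_self _) (Real.rpow_nonneg (norm_nonneg _) _)
        _ ≤ |M| * (|A 1| ^ s * ‖z - z'‖ ^ s) := mul_le_mul_of_nonneg_left h8 (abs_nonneg _)
        _ = _ := by ring
    have e : g (X (t, z)) * K (t, z) - g (X (t, z')) * K (t, z') =
        (g (X (t, z)) - g (X (t, z'))) * K (t, z) +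
          g (X (t, z')) * (K (t, z) - K (t, z')) := by ring
    simp only
    rw [e]
    refine (norm_add_le _ _).trans ?_
    have h9 : ‖(g (X (t, z)) - g (X (t, z'))) * K (t, z)‖ ≤
        |M| * |A 1| ^ s * ‖z - z'‖ ^ s * |C 0| := by
      rw [norm_mul]
      exact mul_le_mul h6 (hKb _) (norm_nonneg _) (by positivity)
    have h10 := hgK (X (t, z'))
    have h11 : 0 ≤ |M| * |C 0| * ‖z - z'‖ ^ s := by positivity
    calc ‖(g (X (t, z)) - g (X (t, z'))) * K (t, z)‖ +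
          ‖g (X (t, z')) * (K (t, z) - K (t, z'))‖
        ≤ |M| * |A 1| ^ s * ‖z - z'‖ ^ s * |C 0| +
          |M| * (|C 1| + 2 * |C 0|) * ‖z - z'‖ ^ s := add_le_add h9 h10
      _ ≤ _ := by linarith
  · have h5 : K p = 0 := by
      by_contra h
      exact absurd (hK0 p h).2 (not_lt.2 hp)
    simp only
    rw [h5, mul_zero]

end Pool.Agent.LF
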