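import Pool.Agent.MP_6cbfb8_an.Defs

/-!
Functions on the unit sphere with some regularity along the level sets of `φ` and none across them.
-/

namespace Pool.Agent.LF

open MeasureTheory Set Pool.Agent.MP_6cbfb8_an
open scoped ENNReal NNReal

/-- Measurable functions, bounded by `M`, with `|g x - g y| ≤ M |x - y| ^ s` whenever `x` and `y`
are points of the unit sphere with `φ x = φ y`. -/
def ClH {n : ℕ} (φ : E n → ℝ) (s M : ℝ) (g : E n → ℂ) : Prop :=
  Measurable g ∧ (∀ x, ‖g x‖ ≤ M) ∧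
    ∀ x y, ‖x‖ = 1 → ‖y‖ = 1 → φ x = φ y → ‖g x - g y‖ ≤ M * ‖x - y‖ ^ s

/-- Measurable functions, bounded by `V`, whose variation is at most `V` along every simple arc
`γ : [0, 1] → S` which is contained in a level set of `φ` and has the Lipschitz constant `1`. -/
def ClV {n : ℕ} (φ : E n → ℝ) (V : ℝ) (g : E n → ℂ) : Prop :=
  Measurable g ∧ (∀ x, ‖g x‖ ≤ V) ∧
    ∀ γ : ℝ → E n, LipschitzWith 1 γ → InjOn γ (Icc 0 1) →
      (∀ u ∈ Icc (0 : ℝ) 1, ‖γ u‖ = 1 ∧ φ (γ u) = φ (γ 0)) →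
      eVariationOn (fun u => g (γ u)) (Icc 0 1) ≤ ENNReal.ofReal V

end Pool.Agent.LF
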