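import Pool.Agent.LF2.Df
import Pool.Agent.LF.GP
import Pool.Agent.LF.ACT
import Pool.Agent.LF.NF

/-!
[LEAF2] the geometry of the chart.
-/

set_option autoImplicit false

namespace Pool.Agent.LF2

open MeasureTheory Set Metric Pool.Agent.MP_6cbfb8_an Pool.Agent.LF
open scoped ENNReal Real RealInnerProductSpace ContDiff

variable {m : ℕ}

/-- GEO. -/
theorem geo {X : ℝ × E m → E (m + 2)} {A : ℕ → ℝ} {p0 : ℝ × E m} {δ : ℝ}
    (hδ : 0 < δ) (hX : ContDiff ℝ ∞ X) (hA : ∀ j p, ‖iteratedFDeriv ℝ j X p‖ ≤ A j)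
    (h1 : ∀ p, ‖p - p0‖ ≤ δ → ‖X p‖ = 1)
    (him : ∀ v, fderiv ℝ X p0 v = 0 → v = 0)
    (hN : ∀ w : E (m + 2), w ≠ 0 → (∀ v : E m, ⟪w, fderiv ℝ X p0 (0, v)⟫ = 0) →
      ∀ v : E m, v ≠ 0 → ∃ u : ℝ × E m, ⟪w, fderiv ℝ (fderiv ℝ X) p0 (0, v) u⟫ ≠ 0) :
    ∃ c C δ1 : ℝ, δ1 ≤ δ ∧ Geo X p0 δ1 c C A := by
  have hi : Function.Injective (fderiv ℝ X p0) := by
    intro u v huv
    have h2 : fderiv ℝ X p0 (u - v) = 0 := by rw [map_sub, huv, sub_self]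
    exact sub_eq_zero.1 (him _ h2)
  have hN' : ∀ w, w ≠ 0 → Vw X w p0 = 0 → ∀ v : E m, v ≠ 0 → fderiv ℝ (Gw X w) p0 (0, v) ≠ 0 :=
    fun w hw hV v hv h0 => hv (asm_N X p0 hX w (hN w hw) hV v h0)
  obtain ⟨c1, C1, δ1, hc1, hC1, hδ1, hbl, hrect⟩ := G1.g_rect hX hi hN'
  obtain ⟨c2, hc2, C2, hC2, δ2, hδ2, hT⟩ := det_T hX ⟨δ, hδ, h1⟩ (G1.g_qnc hX hi hN')
    (G1.g_lines hX hi hN') (G1.g_frame hX hi ⟨δ, hδ, h1⟩)
  obtain ⟨c3, hc3, δ3, hδ3, hf⟩ := G1.g_frame hX hi ⟨δ, hδ, h1⟩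
  obtain ⟨C4, δ4, hC4, hδ4, ha⟩ := ACT.act hX hi hN'
  obtain ⟨c, hc, hcc1, hcc2, hcc3⟩ : ∃ c : ℝ, 0 < c ∧ c ≤ c1 ∧ c ≤ c2 ∧ c ≤ c3 :=
    ⟨min c1 (min c2 c3), lt_min hc1 (lt_min hc2 hc3), min_le_left _ _,
      (min_le_right _ _).trans (min_le_left _ _), (min_le_right _ _).trans (min_le_right _ _)⟩
  obtain ⟨C, hCC1, hCC2, hCC4⟩ : ∃ C : ℝ, C1 ≤ C ∧ C2 ≤ C ∧ C4 ≤ C :=
    ⟨max C1 (max C2 C4), le_max_left _ _, (le_max_left _ _).trans (le_max_right _ _),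
      (le_max_right _ _).trans (le_max_right _ _)⟩
  obtain ⟨d, hd, hdδ, hd4, hd1, hd2, hd3, hd5⟩ : ∃ d : ℝ, 0 < d ∧ d ≤ δ ∧ d ≤ 1 / 4 ∧ d ≤ δ1 ∧
      d ≤ δ2 ∧ d ≤ δ3 ∧ d ≤ δ4 := by
    refine ⟨min (min δ (1 / 4)) (min (min δ1 δ2) (min δ3 δ4)), ?_, ?_, ?_, ?_, ?_, ?_, ?_⟩
    · exact lt_min (lt_min hδ (by norm_num)) (lt_min (lt_min hδ1 hδ2) (lt_min hδ3 hδ4))
    · exact (min_le_left _ _).trans (min_le_left _ _)
    · exact (min_le_left _ _).trans (min_le_right _ _)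
    · exact (min_le_right _ _).trans ((min_le_left _ _).trans (min_le_left _ _))
    · exact (min_le_right _ _).trans ((min_le_left _ _).trans (min_le_right _ _))
    · exact (min_le_right _ _).trans ((min_le_right _ _).trans (min_le_left _ _))
    · exact (min_le_right _ _).trans ((min_le_right _ _).trans (min_le_right _ _))
  refine ⟨c, C, d, hdδ, hd, hd4, hc, hC1.trans hCC1, hX, hA, fun p hp => h1 p (hp.trans hdδ),
    fun p p' hp hp' => ⟨?_, ?_⟩, fun w θ p p' p'' hw1 hw2 hp hp' hp'' hV hV' hV'' h3 h4 => ?_,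
    fun w θ p p' hw1 hw2 hp hp' hV hV' h3 hne w1 y1 => ?_, fun p hp ξ => ?_,
    fun w hw1 hw2 θ M hθ hM κ _ pc hpc hnear => ?_⟩
  · exact (mul_le_mul_of_nonneg_right hcc1 (norm_nonneg _)).trans
      (hbl p p' (hp.trans hd1) (hp'.trans hd1)).1
  · exact (hbl p p' (hp.trans hd1) (hp'.trans hd1)).2.trans
      (mul_le_mul_of_nonneg_right hCC1 (norm_nonneg _))
  · have hθ : 0 ≤ θ := (norm_nonneg _).trans hV
    have m1 := mul_le_mul_of_nonneg_right hCC1 hθ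
    exact (mul_le_mul_of_nonneg_right hcc1 (by positivity)).trans
      (hrect w θ p p' p'' hw1 hw2 (hp.trans hd1) (hp'.trans hd1) (hp''.trans hd1) hV hV' hV''
        (m1.trans h3) (m1.trans h4))
  · have hθ : 0 ≤ θ := (norm_nonneg _).trans hV
    have m1 := mul_le_mul_of_nonneg_right hCC2 hθ
    exact (mul_le_mul_of_nonneg_right hcc2 (by positivity)).trans
      (hT p p' w θ (hp.trans hd2) (hp'.trans hd2) hw1 hw2 hV hV' (m1.trans h3) hne w1 y1)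
  · exact (mul_le_mul_of_nonneg_right hcc3 (norm_nonneg _)).trans (hf p (hp.trans hd3) ξ)
  · refine ha w hw1 hw2 θ M hθ hM κ pc (fun a => (hpc a).trans hd5) fun a => le_trans ?_ (hnear a)
    have : {a' | ‖pc a - pc a'‖ ≤ C4 * θ} ⊆ {a' | ‖pc a - pc a'‖ ≤ C * θ} := fun a' ha' =>
      le_trans ha' (mul_le_mul_of_nonneg_right hCC4 hθ.le)
    exact_mod_cast ncard_le_ncard this (toFinite _)

end Pool.Agent.LF2
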