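import Pool.Agent.GNP.Defs3

/-!
Functions of bounded variation on the line and their modulus of continuity in the mean.
-/

set_option autoImplicit false

namespace Pool.Agent.LF

open MeasureTheory Set Pool.Agent.MP_6cbfb8_an
open scoped ENNReal Real

/-- The sum over a progression is at most the variation. -/
theorem var_sum (f : ℝ → ℂ) (h : ℝ) (hh : 0 < h) (x : ℝ) :
    ∑' n : ℤ, ‖f (x + n * h + h) - f (x + n * h)‖ₑ ≤ eVariationOn f univ := by
  rw [ENNReal.tsum_eq_iSup_sum]
  refine iSup_le fun s => ?_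
  obtain ⟨N, hN⟩ : ∃ N : ℕ, ∀ n ∈ s, -(N : ℤ) ≤ n ∧ n < N := by
    obtain ⟨N, hN⟩ := exists_nat_gt (∑ n ∈ s, |(n : ℝ)|)
    refine ⟨N, fun n hn => ?_⟩
    have h1 : |(n : ℝ)| ≤ ∑ n ∈ s, |(n : ℝ)| :=
      Finset.single_le_sum (f := fun n : ℤ => |(n : ℝ)|) (fun _ _ => abs_nonneg _) hn
    have h2 : |(n : ℝ)| < N := h1.trans_lt hN
    rw [abs_lt] at h2
    have h3 : -(N : ℤ) < n := by exact_mod_cast h2.1
    have h4 : n < (N : ℤ) := by exact_mod_cast h2.2
    exact ⟨h3.le, h4⟩
  have h1 : ∑ n ∈ s, ‖f (x + n * h + h) - f (x + n * h)‖ₑ ≤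
      ∑ i ∈ Finset.range (2 * N), ‖f (x + ((i : ℤ) - N : ℤ) * h + h) -
        f (x + ((i : ℤ) - N : ℤ) * h)‖ₑ := by
    have h2 : s ⊆ (Finset.range (2 * N)).image fun i : ℕ => (i : ℤ) - N := by
      intro n hn
      obtain ⟨h3, h4⟩ := hN n hn
      rw [Finset.mem_image]
      refine ⟨(n + N).toNat, ?_, ?_⟩
      · rw [Finset.mem_range]
        omega
      · omega
    refine (Finset.sum_le_sum_of_subset h2).trans (le_of_eq ?_)
    rw [Finset.sum_image]
    intro i _ j _ hij
    simp only at hij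
    omega
  refine h1.trans ?_
  have h2 := eVariationOn.sum_le (f := f) (s := univ) (n := 2 * N)
    (u := fun i : ℕ => x + ((i : ℤ) - N : ℤ) * h) ?_ fun _ => mem_univ _
  · refine le_trans (le_of_eq ?_) h2
    refine Finset.sum_congr rfl fun i _ => ?_
    rw [edist_eq_enorm_sub]
    congr 3
    push_cast
    ring
  · refine monotone_nat_of_le_succ fun i => ?_
    push_cast
    nlinarith

/-- The `L¹`-modulus of continuity of a function of bounded variation. -/
theorem var_shift (f : ℝ → ℂ) (hf : Measurable f) (h : ℝ) (hh : 0 < h) :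
    ∫⁻ x, ‖f (x + h) - f x‖ₑ ≤ ENNReal.ofReal h * eVariationOn f univ := by
  have hm : Measurable fun x => ‖f (x + h) - f x‖ₑ :=
    ((hf.comp (measurable_id.add_const h)).sub hf).enorm
  have h1 : ∫⁻ x, ‖f (x + h) - f x‖ₑ ≤
      ∑' n : ℤ, ∫⁻ x in Ioc (n • h) ((n + 1) • h), ‖f (x + h) - f x‖ₑ := by
    calc ∫⁻ x, ‖f (x + h) - f x‖ₑ =
        ∫⁻ x in ⋃ n : ℤ, Ioc (n • h) ((n + 1) • h), ‖f (x + h) - f x‖ₑ := by
          rw [iUnion_Ioc_zsmul hh, Measure.restrict_univ]
      _ ≤ _ := lintegral_iUnion_le _ _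
  have h2 : ∀ n : ℤ, ∫⁻ x in Ioc (n • h) ((n + 1) • h), ‖f (x + h) - f x‖ₑ =
      ∫⁻ x in Ioc 0 h, ‖f (x + n * h + h) - f (x + n * h)‖ₑ := by
    intro n
    have h3 := (measurePreserving_add_right (volume : Measure ℝ) (n * h)).setLIntegral_comp_preimage
      (s := Ioc (n • h) ((n + 1) • h)) measurableSet_Ioc hm
    rw [← h3, Set.preimage_add_const_Ioc]
    have e1 : n • h - n * h = 0 := by rw [zsmul_eq_mul, sub_self]
    have e2 : (n + 1) • h - n * h = h := by
      rw [zsmul_eq_mul]
      push_cast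
      ring
    rw [e1, e2]
  refine h1.trans ?_
  simp_rw [h2]
  rw [← lintegral_tsum fun n => ?_]
  · calc ∫⁻ x in Ioc 0 h, ∑' n : ℤ, ‖f (x + n * h + h) - f (x + n * h)‖ₑ
        ≤ ∫⁻ _ in Ioc 0 h, eVariationOn f univ := lintegral_mono fun x => var_sum f h hh x
      _ = _ := by
          rw [setLIntegral_const, Real.volume_Ioc, sub_zero, mul_comm]
  · exact (((hf.comp (by fun_prop)).sub (hf.comp (by fun_prop))).enorm).aemeasurable

/-- The coordinate of `R^1`. -/
theorem var_pres : MeasurePreserving (fun u : ℝ => (EuclideanSpace.single 0 u : E 1)) := by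
  have h1 : (fun u : ℝ => (EuclideanSpace.single 0 u : E 1)) =
      (WithLp.toLp 2 : (Fin 1 → ℝ) → E 1) ∘ (MeasurableEquiv.funUnique (Fin 1) ℝ).symm := by
    funext u
    ext i
    fin_cases i
    simp [MeasurableEquiv.funUnique, uniqueElim]
  rw [h1]
  exact (PiLp.volume_preserving_toLp (Fin 1)).comp ((volume_preserving_funUnique (Fin 1) ℝ).symm _)

theorem var_dist (u v : ℝ) : dist (EuclideanSpace.single 0 u : E 1)
    (EuclideanSpace.single 0 v : E 1) = dist u v :=
  PiLp.dist_single_same 2 (fun _ => ℝ) 0 u v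

theorem var_emb : MeasurableEmbedding (fun u : ℝ => (EuclideanSpace.single 0 u : E 1)) :=
  (Isometry.of_dist_eq var_dist).isClosedEmbedding.measurableEmbedding

/-- A measurable function on `R^1` of variation at most `V`. -/
theorem bve_of_var {V : ℝ} (hV : 0 ≤ V) {a : E 1 → ℂ} (ha : Measurable a)
    (h : eVariationOn (fun u : ℝ => a (EuclideanSpace.single 0 u)) univ ≤ ENNReal.ofReal V) :
    Pool.Agent.GNP.BVE 1 1 (2 * V) a := by
  intro r hr
  set f : ℝ → ℂ := fun u => a (EuclideanSpace.single 0 u) with hf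
  have hfm : Measurable f := ha.comp var_pres.measurable
  have hin : ∀ u : ℝ, ∫⁻ y in Metric.closedBall (EuclideanSpace.single 0 u : E 1) r,
      ‖a (EuclideanSpace.single 0 u) - a y‖ₑ = ∫⁻ w in Icc (-r) r, ‖f u - f (u + w)‖ₑ := by
    intro u
    have h1 := var_pres.setLIntegral_comp_preimage_emb var_emb
      (fun y => ‖a (EuclideanSpace.single 0 u) - a y‖ₑ)
      (Metric.closedBall (EuclideanSpace.single 0 u : E 1) r)
    rw [← h1]
    have h2 : (fun v : ℝ => (EuclideanSpace.single 0 v : E 1)) ⁻¹'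
        Metric.closedBall (EuclideanSpace.single 0 u : E 1) r = Icc (u - r) (u + r) := by
      ext v
      simp only [mem_preimage, Metric.mem_closedBall, mem_Icc]
      rw [var_dist, Real.dist_eq, abs_le]
      constructor
      · rintro ⟨h3, h4⟩
        constructor <;> linarith
      · rintro ⟨h3, h4⟩
        constructor <;> linarith
    rw [h2]
    have h3 := (measurePreserving_add_left (volume : Measure ℝ) u).setLIntegral_comp_preimage
      (s := Icc (u - r) (u + r)) measurableSet_Icc
      (f := fun v => ‖f u - f v‖ₑ) ((measurable_const.sub hfm).enorm)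
    have h4 : (fun w => u + w) ⁻¹' Icc (u - r) (u + r) = Icc (-r) r := by
      ext v
      simp only [mem_preimage, mem_Icc]
      constructor
      · rintro ⟨h5, h6⟩
        constructor <;> linarith
      · rintro ⟨h5, h6⟩
        constructor <;> linarith
    rw [h4] at h3
    exact h3.symm
  have h1 := var_pres.lintegral_comp_emb var_emb (fun x : E 1 =>
    ∫⁻ y in Metric.closedBall x r, ‖a x - a y‖ₑ)
  rw [← h1]
  simp_rw [hin]
  rw [lintegral_lintegral_swap]
  · have h2 : ∀ w ∈ Icc (-r) r, ∫⁻ u, ‖f u - f (u + w)‖ₑ ≤ ENNReal.ofReal r * ENNReal.ofReal V := by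
      intro w hw
      rcases lt_trichotomy w 0 with h0 | h0 | h0
      · have h3 := var_shift f hfm (-w) (by linarith)
        have h4 : ∫⁻ u, ‖f u - f (u + w)‖ₑ = ∫⁻ u, ‖f (u + -w) - f u‖ₑ := by
          have h5 := (measurePreserving_add_right (volume : Measure ℝ) w).lintegral_comp
            (f := fun u => ‖f (u + -w) - f u‖ₑ)
            (((hfm.comp (measurable_id.add_const _)).sub hfm).enorm)
          rw [← h5]
          refine lintegral_congr fun u => ?_
          rw [show u + w + -w = u by ring]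
        rw [h4]
        refine h3.trans ?_
        gcongr
        linarith [hw.1]
      · subst h0
        simp
      · have h3 := var_shift f hfm w h0
        have h4 : ∫⁻ u, ‖f u - f (u + w)‖ₑ = ∫⁻ u, ‖f (u + w) - f u‖ₑ :=
          lintegral_congr fun u => by rw [← edist_eq_enorm_sub, ← edist_eq_enorm_sub, edist_comm]
        rw [h4]
        refine h3.trans ?_
        gcongr
        exact hw.2
    calc ∫⁻ w in Icc (-r) r, ∫⁻ u, ‖f u - f (u + w)‖ₑ
        ≤ ∫⁻ _ in Icc (-r) r, ENNReal.ofReal r * ENNReal.ofReal V :=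
          setLIntegral_mono' measurableSet_Icc h2
      _ = ENNReal.ofReal (2 * V * r ^ (((1 : ℕ) : ℝ) + 1)) := by
          rw [setLIntegral_const, Real.volume_Icc, ← ENNReal.ofReal_mul hr.le,
            ← ENNReal.ofReal_mul (by positivity)]
          congr 1
          have : r ^ (((1 : ℕ) : ℝ) + 1) = r ^ (2 : ℕ) := by
            rw [← Real.rpow_natCast]
            norm_num
          rw [this]
          ring
  · refine Measurable.aemeasurable ?_
    exact ((hfm.comp measurable_fst).sub (hfm.comp (measurable_fst.add measurable_snd))).enorm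

end Pool.Agent.LF
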