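import Pool.Agent.LF2.CHART
import Pool.Agent.LF2.GEO
import Pool.Agent.LF2.VAR

/-!
[LEAF2] the bounds in the chart, for the three classes of densities: Hoelder continuous along the
leaves, of bounded variation along the leaves in the mean, of bounded variation along the curves.
-/

set_option autoImplicit false

namespace Pool.Agent.LF2

open MeasureTheory Set Metric Pool.Agent.MP_6cbfb8_an Pool.Agent.LF
open scoped ENNReal Real RealInnerProductSpace ContDiff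

variable {m : ℕ} {X : ℝ × E m → E (m + 2)} {p0 : ℝ × E m} {δ c C : ℝ} {A : ℕ → ℝ}

/-- Scaling of the density. -/
theorem hoe_scale {b : ℝ × E m → ℂ} {β : ℝ} (hβ : 0 < β) {p : ℝ} (hp : 0 ≤ p) {C' : ℝ≥0∞}
    (h : ∫⁻ ξ, ‖Tb X (fun q => (β : ℂ)⁻¹ * b q) ξ‖ₑ ^ p ≤ C') :
    ∫⁻ ξ, ‖Tb X b ξ‖ₑ ^ p ≤ ENNReal.ofReal (β ^ p) * C' := by
  have hβc : (β : ℂ) ≠ 0 := by exact_mod_cast hβ.ne'
  have h5 : ∀ ξ, ‖Tb X b ξ‖ₑ ^ p =
      ENNReal.ofReal (β ^ p) * ‖Tb X (fun q => (β : ℂ)⁻¹ * b q) ξ‖ₑ ^ p := by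
    intro ξ
    have h6 : Tb X b ξ = (β : ℂ) * Tb X (fun q => (β : ℂ)⁻¹ * b q) ξ := by
      unfold Tb
      rw [← integral_const_mul]
      refine integral_congr_ae (Filter.Eventually.of_forall fun q => ?_)
      simp only
      rw [← mul_assoc, ← mul_assoc, mul_inv_cancel₀ hβc, one_mul]
    rw [h6, enorm_mul, ENNReal.mul_rpow_of_nonneg _ _ hp]
    congr 1
    rw [← ofReal_norm, Complex.norm_real, Real.norm_of_nonneg hβ.le,
      ENNReal.ofReal_rpow_of_pos hβ]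
  simp_rw [h5]
  rw [lintegral_const_mul' _ _ ENNReal.ofReal_ne_top]
  exact mul_le_mul_right h _

theorem hoe_inv {β : ℝ} (hβ : 0 < β) (z : ℂ) : ‖(β : ℂ)⁻¹ * z‖ = β⁻¹ * ‖z‖ := by
  rw [norm_mul, norm_inv, Complex.norm_real, Real.norm_of_nonneg hβ.le]

/-- The exponents. -/
theorem hoe_exp (m : ℕ) : 2 * ((m + 2 : ℕ) : ℝ) / (((m + 2 : ℕ) : ℝ) - 1) =
    2 * ((m : ℝ) + 2) / (m + 1) := by
  congr 1
  · push_cast
    ring
  · push_cast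
    ring

/-- Hoelder continuity along the leaves. -/
theorem hoe (hm : 1 ≤ m) (X : ℝ × E m → E (m + 2)) (A : ℕ → ℝ) (p0 : ℝ × E m) {δ : ℝ}
    (hδ : 0 < δ) (hX : ContDiff ℝ ∞ X) (hA : ∀ j p, ‖iteratedFDeriv ℝ j X p‖ ≤ A j)
    (h1 : ∀ p, ‖p - p0‖ ≤ δ → ‖X p‖ = 1)
    (him : ∀ v, fderiv ℝ X p0 v = 0 → v = 0)
    (hN : ∀ w : E (m + 2), w ≠ 0 → (∀ v : E m, ⟪w, fderiv ℝ X p0 (0, v)⟫ = 0) →
      ∀ v : E m, v ≠ 0 → ∃ u : ℝ × E m, ⟪w, fderiv ℝ (fderiv ℝ X) p0 (0, v) u⟫ ≠ 0) :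
    ∃ δ1 : ℝ, 0 < δ1 ∧ δ1 ≤ δ ∧ ∀ p s B : ℝ, 2 * ((m + 2 : ℕ) : ℝ) / (((m + 2 : ℕ) : ℝ) - 1) < p →
      4 / (1 + 2 * s) < p → 0 < s → s ≤ 1 → ∃ C : ℝ≥0∞, C ≠ ⊤ ∧
      ∀ b : ℝ × E m → ℂ, Measurable b → (∀ q, ‖b q‖ ≤ B) →
        (∀ t z z', ‖b (t, z) - b (t, z')‖ ≤ B * ‖z - z'‖ ^ s) →
        (∀ q, δ1 ≤ ‖q - p0‖ → b q = 0) → ∫⁻ ξ, ‖Tb X b ξ‖ₑ ^ p ≤ C := by
  obtain ⟨c, C, δg, hδg, hG⟩ := geo hδ hX hA h1 him hN
  have hδ0 := hG.hδ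
  refine ⟨δg / 4, by linarith, by linarith, fun p s B hp hps hs hs1 => ?_⟩
  rw [hoe_exp] at hp
  have hp0 : 0 ≤ p := by linarith [(chart_exp hm).1]
  obtain ⟨C', hC', H⟩ := chart_hoelder hm hG hp hps hs 1 zero_le_one
  obtain ⟨β, hβ1, hβB⟩ : ∃ β : ℝ, 1 ≤ β ∧ B ≤ β := ⟨max 1 B, le_max_left _ _, le_max_right _ _⟩
  have hβ : 0 < β := by linarith
  have hβi : β⁻¹ * B ≤ 1 := by
    rw [inv_mul_le_iff₀ hβ, mul_one]
    exact hβB
  refine ⟨ENNReal.ofReal (β ^ p) * ENNReal.ofReal C',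
    ENNReal.mul_ne_top ENNReal.ofReal_ne_top ENNReal.ofReal_ne_top, fun b hb hb1 hb2 hb3 => ?_⟩
  refine hoe_scale hβ hp0 (H _ (measurable_const.mul hb) (fun q => ?_) (fun q hq => ?_)
    fun t z z' => ?_)
  · rw [hoe_inv hβ]
    calc β⁻¹ * ‖b q‖ ≤ β⁻¹ * B := by gcongr; exact hb1 q
      _ ≤ 1 := hβi
  · rw [hb3 q hq.le, mul_zero]
  · rw [← mul_sub, hoe_inv hβ, one_mul]
    calc β⁻¹ * ‖b (t, z) - b (t, z')‖ ≤ β⁻¹ * (B * ‖z - z'‖ ^ s) := by gcongr; exact hb2 t z z'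
      _ = (β⁻¹ * B) * ‖z - z'‖ ^ s := by ring
      _ ≤ 1 * ‖z - z'‖ ^ s := by gcongr
      _ = _ := one_mul _

/-- Bounded variation along the leaves in the mean, densities bounded by `1`. -/
theorem bvm (hm : 1 ≤ m) (X : ℝ × E m → E (m + 2)) (A : ℕ → ℝ) (p0 : ℝ × E m) {δ : ℝ}
    (hδ : 0 < δ) (hX : ContDiff ℝ ∞ X) (hA : ∀ j p, ‖iteratedFDeriv ℝ j X p‖ ≤ A j)
    (h1 : ∀ p, ‖p - p0‖ ≤ δ → ‖X p‖ = 1)
    (him : ∀ v, fderiv ℝ X p0 v = 0 → v = 0)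
    (hN : ∀ w : E (m + 2), w ≠ 0 → (∀ v : E m, ⟪w, fderiv ℝ X p0 (0, v)⟫ = 0) →
      ∀ v : E m, v ≠ 0 → ∃ u : ℝ × E m, ⟪w, fderiv ℝ (fderiv ℝ X) p0 (0, v) u⟫ ≠ 0) :
    ∃ δ1 : ℝ, 0 < δ1 ∧ δ1 ≤ δ ∧ ∀ p V : ℝ, 2 * ((m + 2 : ℕ) : ℝ) / (((m + 2 : ℕ) : ℝ) - 1) < p →
      ∃ C : ℝ≥0∞, C ≠ ⊤ ∧ ∀ b : ℝ × E m → ℂ, Measurable b → (∀ q, ‖b q‖ ≤ 1) →
        (∀ t v, ‖v‖ ≤ 1 → ∫⁻ z, ‖b (t, z + v) - b (t, z)‖ₑ ≤ ENNReal.ofReal (V * ‖v‖)) →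
        (∀ q, δ1 ≤ ‖q - p0‖ → b q = 0) → ∫⁻ ξ, ‖Tb X b ξ‖ₑ ^ p ≤ C := by
  obtain ⟨c, C, δg, hδg, hG⟩ := geo hδ hX hA h1 him hN
  have hδ0 := hG.hδ
  have hδ4 := hG.hδ1
  refine ⟨δg / 4, by linarith, by linarith, fun p V hp => ?_⟩
  rw [hoe_exp] at hp
  obtain ⟨hq1, hq2, -⟩ := chart_exp hm
  set q : ℝ := 2 * ((m : ℝ) + 2) / (m + 1) with hq
  have hm0 : (1 : ℝ) ≤ m := by exact_mod_cast hm
  have hτ0 : 0 < (m : ℝ) / (m + 1) := by positivity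
  have hτ1 : (m : ℝ) / (m + 1) ≤ 1 := by
    rw [div_le_one (by linarith)]
    linarith
  obtain ⟨C', hC', H⟩ := chart hm hG hp (2 ^ (q - 1) * |V| * 1)
  refine ⟨ENNReal.ofReal C', ENNReal.ofReal_ne_top, fun b hb hb1 hb2 hb3 =>
    H b hb hb1 (fun p hp => hb3 p hp.le) fun v hv => ?_⟩
  have hzt : ∀ t : ℝ, t ∉ Icc (p0.1 - 1 / 2) (p0.1 + 1 / 2) → ∀ z : E m, b (t, z) = 0 := by
    intro t ht z
    refine hb3 _ ?_
    have h5 : ‖t - p0.1‖ ≤ ‖((t, z) : ℝ × E m) - p0‖ := by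
      have := norm_fst_le (((t, z) : ℝ × E m) - p0)
      simpa using this
    have h6 : 1 / 2 < ‖t - p0.1‖ := by
      rw [Real.norm_eq_abs]
      by_contra hcon
      push Not at hcon
      rw [abs_le] at hcon
      exact ht ⟨by linarith [hcon.1], by linarith [hcon.2]⟩
    linarith
  have hpt : ∀ t z, ‖b (t, z + v) - b (t, z)‖ₑ ^ q ≤
      ENNReal.ofReal (2 ^ (q - 1)) * ‖b (t, z + v) - b (t, z)‖ₑ := by
    intro t z
    have h5 : ‖b (t, z + v) - b (t, z)‖ₑ ≤ ENNReal.ofReal 2 := by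
      rw [← ofReal_norm]
      refine ENNReal.ofReal_le_ofReal ((norm_sub_le _ _).trans ?_)
      linarith [hb1 (t, z + v), hb1 (t, z)]
    have h6 := lp_pow h5 (p := q) (q := 1) zero_le_one (by linarith)
    rwa [ENNReal.rpow_one, ENNReal.ofReal_rpow_of_pos (by norm_num)] at h6
  have hmeas : Measurable fun p : ℝ × E m => ‖b (p.1, p.2 + v) - b p‖ₑ ^ q := by
    refine Measurable.pow_const (Measurable.enorm (Measurable.sub (hb.comp ?_) hb)) _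
    exact measurable_fst.prodMk (measurable_snd.add_const v)
  calc ∫⁻ p : ℝ × E m, ‖b (p.1, p.2 + v) - b p‖ₑ ^ q
      = ∫⁻ t : ℝ, ∫⁻ z : E m, ‖b (t, z + v) - b (t, z)‖ₑ ^ q := by
        rw [Measure.volume_eq_prod, lintegral_prod _ hmeas.aemeasurable]
    _ ≤ ∫⁻ t : ℝ, (Icc (p0.1 - 1 / 2) (p0.1 + 1 / 2)).indicator
          (fun _ => ENNReal.ofReal (2 ^ (q - 1)) * ENNReal.ofReal (|V| * ‖v‖)) t := by
        refine lintegral_mono fun t => ?_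
        by_cases ht : t ∈ Icc (p0.1 - 1 / 2) (p0.1 + 1 / 2)
        · rw [indicator_of_mem ht]
          refine (lintegral_mono fun z => hpt t z).trans ?_
          rw [lintegral_const_mul' _ _ ENNReal.ofReal_ne_top]
          refine mul_le_mul_right ((hb2 t v hv).trans (ENNReal.ofReal_le_ofReal ?_)) _
          exact mul_le_mul_of_nonneg_right (le_abs_self V) (norm_nonneg _)
        · rw [indicator_of_notMem ht]
          refine le_of_eq ?_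
          rw [lintegral_eq_zero_of_ae_eq_zero]
          refine Filter.Eventually.of_forall fun z => ?_
          simp only [Pi.zero_apply]
          rw [hzt t ht, hzt t ht, sub_zero, enorm_zero, ENNReal.zero_rpow_of_pos (by linarith)]
    _ = ENNReal.ofReal (2 ^ (q - 1) * |V| * 1 * ‖v‖) := by
        rw [lintegral_indicator measurableSet_Icc, setLIntegral_const, Real.volume_Icc,
          ← ENNReal.ofReal_mul (by positivity), ← ENNReal.ofReal_mul (by positivity)]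
        congr 1
        ring
    _ ≤ ENNReal.ofReal (2 ^ (q - 1) * |V| * 1 * ‖v‖ ^ ((m : ℝ) / (m + 1))) := by
        refine ENNReal.ofReal_le_ofReal (mul_le_mul_of_nonneg_left ?_ (by positivity))
        calc ‖v‖ = ‖v‖ ^ (1 : ℝ) := (Real.rpow_one _).symm
          _ ≤ ‖v‖ ^ ((m : ℝ) / (m + 1)) :=
            Real.rpow_le_rpow_of_exponent_ge' (norm_nonneg _) hv hτ0.le hτ1

/-- The translations of a function on `R^1` of bounded variation. -/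
theorem var_trans {V : ℝ} {a : E 1 → ℂ} (ha : Measurable a)
    (h : eVariationOn (fun u : ℝ => a (EuclideanSpace.single 0 u)) univ ≤ ENNReal.ofReal V)
    (v : E 1) : ∫⁻ z, ‖a (z + v) - a z‖ₑ ≤ ENNReal.ofReal (V * ‖v‖) := by
  obtain ⟨w, rfl⟩ : ∃ w : ℝ, v = EuclideanSpace.single 0 w := by
    refine ⟨v 0, ?_⟩
    ext i
    fin_cases i
    simp
  have hn : ‖(EuclideanSpace.single 0 w : E 1)‖ = |w| := by
    rw [PiLp.norm_single 2 (fun _ => ℝ) 0 w, Real.norm_eq_abs]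
  rw [hn]
  set f : ℝ → ℂ := fun u => a (EuclideanSpace.single 0 u) with hf
  have hfm : Measurable f := ha.comp var_pres.measurable
  have h1 := var_pres.lintegral_comp_emb var_emb
    (fun z : E 1 => ‖a (z + EuclideanSpace.single 0 w) - a z‖ₑ)
  rw [← h1]
  have h2 : ∀ u : ℝ, ‖a ((EuclideanSpace.single 0 u : E 1) + EuclideanSpace.single 0 w) -
      a (EuclideanSpace.single 0 u)‖ₑ = ‖f (u + w) - f u‖ₑ := by
    intro u
    rw [hf]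
    simp only
    congr 3
    ext i
    fin_cases i
    simp
  simp_rw [h2]
  rcases lt_trichotomy w 0 with h0 | h0 | h0
  · have h3 := var_shift f hfm (-w) (by linarith)
    have h4 : ∫⁻ u, ‖f (u + w) - f u‖ₑ = ∫⁻ u, ‖f (u + -w) - f u‖ₑ := by
      have h5 := (measurePreserving_add_right (volume : Measure ℝ) w).lintegral_comp
        (f := fun u => ‖f (u + -w) - f u‖ₑ)
        (((hfm.comp (measurable_id.add_const _)).sub hfm).enorm)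
      rw [← h5]
      refine lintegral_congr fun u => ?_
      rw [show u + w + -w = u by ring, ← edist_eq_enorm_sub, ← edist_eq_enorm_sub, edist_comm]
    rw [h4]
    refine h3.trans ((mul_le_mul_right h _).trans ?_)
    rw [← ENNReal.ofReal_mul (by linarith), abs_of_neg h0, mul_comm]
  · subst h0
    simp
  · refine (var_shift f hfm w h0).trans ((mul_le_mul_right h _).trans ?_)
    rw [← ENNReal.ofReal_mul h0.le, abs_of_pos h0, mul_comm]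

/-- `n = 3`, bounded variation along the curves. -/
theorem bv1 (X : ℝ × E 1 → E 3) (A : ℕ → ℝ) (p0 : ℝ × E 1) {δ : ℝ}
    (hδ : 0 < δ) (hX : ContDiff ℝ ∞ X) (hA : ∀ j p, ‖iteratedFDeriv ℝ j X p‖ ≤ A j)
    (h1 : ∀ p, ‖p - p0‖ ≤ δ → ‖X p‖ = 1)
    (him : ∀ v, fderiv ℝ X p0 v = 0 → v = 0)
    (hN : ∀ w : E 3, w ≠ 0 → (∀ v : E 1, ⟪w, fderiv ℝ X p0 (0, v)⟫ = 0) →
      ∀ v : E 1, v ≠ 0 → ∃ u : ℝ × E 1, ⟪w, fderiv ℝ (fderiv ℝ X) p0 (0, v) u⟫ ≠ 0) :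
    ∃ δ1 : ℝ, 0 < δ1 ∧ δ1 ≤ δ ∧ ∀ p B : ℝ, 3 < p → ∃ C : ℝ≥0∞, C ≠ ⊤ ∧
      ∀ b : ℝ × E 1 → ℂ, Measurable b → (∀ q, ‖b q‖ ≤ B) →
        (∀ t, eVariationOn (fun u : ℝ => b (t, EuclideanSpace.single 0 u)) univ ≤
          ENNReal.ofReal B) →
        (∀ q, δ1 ≤ ‖q - p0‖ → b q = 0) → ∫⁻ ξ, ‖Tb X b ξ‖ₑ ^ p ≤ C := by
  obtain ⟨δ1, hδ1, hδ2, H⟩ := bvm (m := 1) le_rfl X A p0 hδ hX hA h1 him hN
  refine ⟨δ1, hδ1, hδ2, fun p B hp => ?_⟩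
  obtain ⟨C, hC, H'⟩ := H p 1 (by norm_num; linarith)
  obtain ⟨β, hβ1, hβB⟩ : ∃ β : ℝ, 1 ≤ β ∧ B ≤ β := ⟨max 1 B, le_max_left _ _, le_max_right _ _⟩
  have hβ : 0 < β := by linarith
  have hβi : β⁻¹ * B ≤ 1 := by
    rw [inv_mul_le_iff₀ hβ, mul_one]
    exact hβB
  refine ⟨ENNReal.ofReal (β ^ p) * C, ENNReal.mul_ne_top ENNReal.ofReal_ne_top hC,
    fun b hb hb1 hb2 hb3 => ?_⟩
  refine hoe_scale hβ (by linarith) (H' _ (measurable_const.mul hb) (fun q => ?_)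
    (fun t v _ => ?_) fun q hq => ?_)
  · rw [hoe_inv hβ]
    calc β⁻¹ * ‖b q‖ ≤ β⁻¹ * B := by gcongr; exact hb1 q
      _ ≤ 1 := hβi
  · have hbt : Measurable fun z : E 1 => b (t, z) := hb.comp (by fun_prop)
    have h3 := var_trans hbt (hb2 t) v
    simp_rw [← mul_sub, enorm_mul]
    rw [lintegral_const_mul' _ _ (by simp)]
    have h4 : ‖((β : ℂ)⁻¹)‖ₑ = ENNReal.ofReal β⁻¹ := by
      rw [← ofReal_norm, norm_inv, Complex.norm_real, Real.norm_of_nonneg hβ.le]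
    rw [h4]
    refine (mul_le_mul_right h3 _).trans ?_
    rw [← ENNReal.ofReal_mul (by positivity)]
    refine ENNReal.ofReal_le_ofReal ?_
    calc β⁻¹ * (B * ‖v‖) = (β⁻¹ * B) * ‖v‖ := by ring
      _ ≤ 1 * ‖v‖ := by gcongr
  · rw [hb3 q hq, mul_zero]

end Pool.Agent.LF2
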