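import Pool.Agent.LF.ASM
import Pool.Agent.LF2.ClH
import Pool.Agent.LF2.CH3h
import Pool.Agent.LF2.HOE

/-!
Densities of the unit sphere of `R^n`, `n ≥ 3`, which are only measurable across the leaves of a
foliation in general position and Hoelder continuous along the leaves.
-/

set_option autoImplicit false

namespace Pool.Agent.LF2

open MeasureTheory Set Filter Topology Pool.Agent.MP_6cbfb8_an Pool.Agent.LF
open scoped ENNReal Real RealInnerProductSpace ContDiff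

/-- The full range of orders `s`, from the range `s ≤ 1`. -/
theorem clH_one {n : ℕ} {φ : E n → ℝ} {s M : ℝ} (hs : 1 ≤ s) {g : E n → ℂ} (h : ClH φ s M g) :
    ClH φ 1 (|M| * 2 ^ s) g := by
  obtain ⟨h1, h2, h3⟩ := h
  have h2s : (1 : ℝ) ≤ 2 ^ s := Real.one_le_rpow (by norm_num) (by linarith)
  have hM : 0 ≤ |M| := abs_nonneg M
  refine ⟨h1, fun x => ?_, fun x y hx hy hxy => ?_⟩
  · calc ‖g x‖ ≤ M := h2 x
      _ ≤ |M| * 1 := by rw [mul_one]; exact le_abs_self M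
      _ ≤ |M| * 2 ^ s := by gcongr
  · have h4 : ‖x - y‖ ≤ 2 := by
      calc ‖x - y‖ ≤ ‖x‖ + ‖y‖ := norm_sub_le x y
        _ = 2 := by rw [hx, hy]; norm_num
    have h5 : ‖x - y‖ ^ s ≤ 2 ^ s * ‖x - y‖ ^ (1 : ℝ) := by
      have h6 : ‖x - y‖ ^ s = 2 ^ s * (‖x - y‖ / 2) ^ s := by
        rw [← Real.mul_rpow (by norm_num) (by positivity)]
        congr 1
        ring
      rw [h6]
      refine mul_le_mul_of_nonneg_left ?_ (by positivity)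
      calc (‖x - y‖ / 2) ^ s ≤ (‖x - y‖ / 2) ^ (1 : ℝ) :=
            Real.rpow_le_rpow_of_exponent_ge' (by positivity) (by linarith) (by norm_num) hs
        _ ≤ ‖x - y‖ ^ (1 : ℝ) := by
            rw [Real.rpow_one, Real.rpow_one]
            linarith [norm_nonneg (x - y)]
    calc ‖g x - g y‖ ≤ M * ‖x - y‖ ^ s := h3 x y hx hy hxy
      _ ≤ |M| * ‖x - y‖ ^ s := by gcongr; exact le_abs_self M
      _ ≤ |M| * (2 ^ s * ‖x - y‖ ^ (1 : ℝ)) := by gcongr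
      _ = _ := by ring

/-- **The sphere, Hoelder continuity along the leaves.** -/
theorem leafH_at (n : ℕ) (hn : 3 ≤ n) (φ : E n → ℝ) (x0 : E n) (hx0 : ‖x0‖ = 1)
    (hφ : ∀ᶠ x in 𝓝 x0, ContDiffAt ℝ ∞ φ x) (hcyc : Cyc φ x0) :
    ∃ U : Set (E n), IsOpen U ∧ x0 ∈ U ∧ ∀ s p : ℝ, 0 < s → 2 * (n : ℝ) / (n - 1) < p →
      4 / (1 + 2 * s) < p → ∀ M : ℝ, ∃ C : ℝ≥0∞, C ≠ ⊤ ∧ ∀ g : E n → ℂ, ClH φ s M g →
        (∀ x, ‖x‖ = 1 → x ∉ U → g x = 0) → ∫⁻ ξ, ‖extn g ξ‖ₑ ^ p ≤ C := by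
  obtain ⟨m, rfl⟩ : ∃ m, n = m + 2 := ⟨n - 2, by omega⟩
  have hm : 1 ≤ m := by omega
  obtain ⟨X, A, p0, δ, hδ, hX, hA, hp0, h1, h2, hinj, him, hnb⟩ := ch1 hm φ x0 hx0 hφ hcyc
  have him0 : ∀ v, fderiv ℝ X p0 v = 0 → v = 0 := him p0 (by simpa using hδ.le)
  have hnear : ∀ᶠ q in 𝓝 p0, ‖q - p0‖ ≤ δ := by
    filter_upwards [Metric.closedBall_mem_nhds p0 hδ] with q hq
    rwa [Metric.mem_closedBall, dist_eq_norm] at hq
  have hN : ∀ w : E (m + 2), w ≠ 0 → (∀ v : E m, ⟪w, fderiv ℝ X p0 (0, v)⟫ = 0) →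
      ∀ v : E m, v ≠ 0 → ∃ u : ℝ × E m, ⟪w, fderiv ℝ (fderiv ℝ X) p0 (0, v) u⟫ ≠ 0 := by
    intro w hw hwV v hv
    refine cyc_N (Y := E m) (by rw [finrank_euclideanSpace_fin]) (X := X) (φ := φ) (p := p0)
      (hX.of_le (by norm_cast)).contDiffAt ?_ ?_ ?_ ?_ ?_ hw hwV hv
    · rw [hp0]
      exact hφ.self_of_nhds.of_le (by norm_cast)
    · exact hnear.mono h1
    · exact hnear.mono h2
    · intro a c hac
      have h3 : fderiv ℝ X p0 (a - c) = 0 := by rw [map_sub, hac, sub_self]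
      exact sub_eq_zero.1 (him0 _ h3)
    · rwa [hp0]
  obtain ⟨δ1, hδ1, -, hcore⟩ := hoe hm X A p0 hδ hX hA h1 him0 hN
  obtain ⟨r, hr, hch3⟩ := ch3h φ x0 X p0 hδ hX A hA hp0 h1 h2 hinj him hnb δ1 hδ1
  refine ⟨Metric.ball x0 r, Metric.isOpen_ball, Metric.mem_ball_self hr, ?_⟩
  have key : ∀ s p : ℝ, 0 < s → s ≤ 1 → 2 * ((m + 2 : ℕ) : ℝ) / (((m + 2 : ℕ) : ℝ) - 1) < p →
      4 / (1 + 2 * s) < p → ∀ M : ℝ, ∃ C : ℝ≥0∞, C ≠ ⊤ ∧ ∀ g : E (m + 2) → ℂ, ClH φ s M g →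
        (∀ x, ‖x‖ = 1 → x ∉ Metric.ball x0 r → g x = 0) → ∫⁻ ξ, ‖extn g ξ‖ₑ ^ p ≤ C := by
    intro s p hs hs1 hp hp2 M
    obtain ⟨B, hB⟩ := hch3 s M hs hs1
    obtain ⟨C, hC, H⟩ := hcore p s B hp hp2 hs hs1
    refine ⟨ENNReal.ofReal (((2 * π) ^ (m + 2))⁻¹) * C,
      ENNReal.mul_ne_top ENNReal.ofReal_ne_top hC, fun g hg hgU => ?_⟩
    obtain ⟨b, hb1, hb2, hb3, hb4, hb5⟩ := hB g hg.1 hg.2.1 hg.2.2 fun x hx hxr => by
      refine hgU x hx ?_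
      rw [Metric.mem_ball, dist_eq_norm, not_lt]
      exact hxr
    have h3 := asm_scale (2 * π) (by positivity) (fun η : E (m + 2) => ‖Tb X b η‖ₑ ^ p) univ
    rw [preimage_univ, Measure.restrict_univ] at h3
    simp_rw [hb5]
    rw [h3]
    exact mul_le_mul_right (H b hb1 hb2 hb3 hb4) _
  intro s p hs hp hp2 M
  rcases le_or_gt s 1 with hs1 | hs1
  · exact key s p hs hs1 hp hp2 M
  · have hm0 : (0 : ℝ) < m := by exact_mod_cast hm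
    have h4 : (2 : ℝ) < 2 * ((m + 2 : ℕ) : ℝ) / (((m + 2 : ℕ) : ℝ) - 1) := by
      rw [lt_div_iff₀ (by push_cast; linarith)]
      push_cast
      linarith
    have h5 : (4 : ℝ) / (1 + 2 * 1) < 2 := by norm_num
    obtain ⟨C, hC, H⟩ := key 1 p one_pos le_rfl hp (by linarith) (|M| * 2 ^ s)
    exact ⟨C, hC, fun g hg hgU => H g (clH_one hs1.le hg) hgU⟩

end Pool.Agent.LF2
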