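import Pool.Agent.LF2.CH3h
import Pool.Agent.LF2.ClH

/-!
[LEAF2] / [BV3]: functions of bounded variation along the leaves, in a chart of the sphere.
-/

set_option autoImplicit false

namespace Pool.Agent.LF2

open MeasureTheory Set Filter Topology Pool.Agent.MP_6cbfb8_an Pool.Agent.LF
open scoped ENNReal Real RealInnerProductSpace ContDiff

/-- The variation of a product. -/
theorem ch3v_mul (f g : ℝ → ℂ) (s : Set ℝ) {a b : ℝ≥0∞} (hf : ∀ x ∈ s, ‖f x‖ₑ ≤ a)
    (hg : ∀ x ∈ s, ‖g x‖ₑ ≤ b) :
    eVariationOn (fun x => f x * g x) s ≤ a * eVariationOn g s + b * eVariationOn f s := by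
  refine iSup_le fun p => ?_
  obtain ⟨n, u, hu, us⟩ := p
  simp only
  calc ∑ i ∈ Finset.range n, edist (f (u (i + 1)) * g (u (i + 1))) (f (u i) * g (u i))
      ≤ ∑ i ∈ Finset.range n, (a * edist (g (u (i + 1))) (g (u i)) +
          b * edist (f (u (i + 1))) (f (u i))) := by
        refine Finset.sum_le_sum fun i _ => ?_
        rw [edist_eq_enorm_sub, edist_eq_enorm_sub, edist_eq_enorm_sub]
        have e : f (u (i + 1)) * g (u (i + 1)) - f (u i) * g (u i) =
            f (u (i + 1)) * (g (u (i + 1)) - g (u i)) +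
              g (u i) * (f (u (i + 1)) - f (u i)) := by ring
        rw [e]
        refine (enorm_add_le _ _).trans ?_
        rw [enorm_mul, enorm_mul]
        gcongr
        · exact hf _ (us _)
        · exact hg _ (us _)
    _ = a * ∑ i ∈ Finset.range n, edist (g (u (i + 1))) (g (u i)) +
          b * ∑ i ∈ Finset.range n, edist (f (u (i + 1))) (f (u i)) := by
        rw [Finset.sum_add_distrib, Finset.mul_sum, Finset.mul_sum]
    _ ≤ _ := by
        gcongr
        · exact eVariationOn.sum_le hu us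
        · exact eVariationOn.sum_le hu us

/-- A function which vanishes off an interval. -/
theorem ch3v_clamp (f : ℝ → ℂ) {a b : ℝ} (hab : a ≤ b) (ha : ∀ u ≤ a, f u = 0)
    (hb : ∀ u, b ≤ u → f u = 0) : eVariationOn f univ ≤ eVariationOn f (Icc a b) := by
  have h1 : f = f ∘ fun u => max a (min b u) := by
    funext u
    simp only [Function.comp]
    rcases le_total u a with h | h
    · rw [min_eq_right (h.trans hab), max_eq_left h, ha u h, ha a le_rfl]
    · rcases le_total u b with h' | h'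
      · rw [min_eq_right h', max_eq_right h]
      · rw [min_eq_left h', max_eq_right hab, hb u h', hb b le_rfl]
  calc eVariationOn f univ = eVariationOn (f ∘ fun u => max a (min b u)) univ := by rw [← h1]
    _ ≤ _ := by
        refine eVariationOn.comp_le_of_monotoneOn f _ ?_ ?_
        · intro u _ v _ huv
          exact max_le_max le_rfl (min_le_min le_rfl huv)
        · intro u _
          exact ⟨le_max_left _ _, max_le hab (min_le_left _ _)⟩

/-- The variation of a Lipschitz function on an interval. -/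
theorem ch3v_lip (f : ℝ → ℂ) {a b L : ℝ} (hL : 0 ≤ L)
    (hf : ∀ u v, ‖f u - f v‖ ≤ L * |u - v|) :
    eVariationOn f (Icc a b) ≤ ENNReal.ofReal (L * (b - a)) := by
  refine iSup_le fun p => ?_
  obtain ⟨n, u, hu, us⟩ := p
  simp only
  calc ∑ i ∈ Finset.range n, edist (f (u (i + 1))) (f (u i))
      ≤ ∑ i ∈ Finset.range n, ENNReal.ofReal (L * (u (i + 1) - u i)) := by
        refine Finset.sum_le_sum fun i _ => ?_
        rw [edist_eq_enorm_sub, ← ofReal_norm]
        refine ENNReal.ofReal_le_ofReal ((hf _ _).trans (le_of_eq ?_))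
        rw [abs_of_nonneg (sub_nonneg.2 (hu (Nat.le_succ i)))]
    _ = ENNReal.ofReal (L * (u n - u 0)) := by
        rw [← ENNReal.ofReal_sum_of_nonneg fun i _ =>
          mul_nonneg hL (sub_nonneg.2 (hu (Nat.le_succ i))), ← Finset.mul_sum,
          Finset.sum_range_sub]
    _ ≤ _ := by
        refine ENNReal.ofReal_le_ofReal (mul_le_mul_of_nonneg_left ?_ hL)
        have h1 := (us n).2
        have h2 := (us 0).1
        linarith

/-- **CH3V.** -/
theorem ch3v (φ : E 3 → ℝ) (x0 : E 3) (X : ℝ × E 1 → E 3)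
    (p0 : ℝ × E 1) {δ : ℝ} (hδ : 0 < δ) (hX : ContDiff ℝ ∞ X) (A : ℕ → ℝ)
    (hA : ∀ j p, ‖iteratedFDeriv ℝ j X p‖ ≤ A j) (hx0 : X p0 = x0)
    (h1 : ∀ p, ‖p - p0‖ ≤ δ → ‖X p‖ = 1) (hφ : ∀ p, ‖p - p0‖ ≤ δ → φ (X p) = p.1)
    (hinj : ∀ p q, ‖p - p0‖ ≤ δ → ‖q - p0‖ ≤ δ → X p = X q → p = q)
    (him : ∀ p, ‖p - p0‖ ≤ δ → ∀ v, fderiv ℝ X p v = 0 → v = 0)
    (hnb : ∀ᶠ x in 𝓝 x0, ‖x‖ = 1 → ∃ p, ‖p - p0‖ < δ ∧ X p = x) (δ1 : ℝ) (hδ1 : 0 < δ1) :
    ∃ r : ℝ, 0 < r ∧ ∀ V : ℝ, ∃ B : ℝ, ∀ g : E 3 → ℂ, ClV φ V g →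
      (∀ x, ‖x‖ = 1 → r ≤ ‖x - x0‖ → g x = 0) →
      ∃ b : ℝ × E 1 → ℂ, Measurable b ∧ (∀ q, ‖b q‖ ≤ B) ∧
        (∀ t, eVariationOn (fun u : ℝ => b (t, EuclideanSpace.single 0 u)) univ ≤
          ENNReal.ofReal B) ∧
        (∀ p, δ1 ≤ ‖p - p0‖ → b p = 0) ∧ ∀ ξ, extn g ξ = Tb X b ((2 * π) • ξ) := by
  -- the size of the chart
  obtain ⟨δ2, hδ2⟩ : ∃ δ2, δ2 = min (min δ δ1) (1 / (2 * (|A 1| + 1))) := ⟨_, rfl⟩
  have hA1 : 0 < |A 1| + 1 := by positivity
  have h2 : 0 < δ2 := by
    rw [hδ2]
    exact lt_min (lt_min hδ hδ1) (by positivity)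
  have h3 : δ2 ≤ δ := by rw [hδ2]; exact (min_le_left _ _).trans (min_le_left _ _)
  have h4 : δ2 ≤ δ1 := by rw [hδ2]; exact (min_le_left _ _).trans (min_le_right _ _)
  have h5 : |A 1| * (2 * δ2) ≤ 1 := by
    have h6 : δ2 ≤ 1 / (2 * (|A 1| + 1)) := by rw [hδ2]; exact min_le_right _ _
    rw [le_div_iff₀ (by positivity)] at h6
    nlinarith [abs_nonneg (A 1)]
  obtain ⟨r, hr, K, hKs, hKc, hK0, hext⟩ := ch3g x0 X p0 hδ hX hx0 h1 hinj him hnb δ2 h2
  obtain ⟨C, hC⟩ := iter_bdd hKs hKc
  have hKb : ∀ p, ‖K p‖ ≤ |C 0| := fun p => by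
    have := hC 0 p
    rw [norm_iteratedFDeriv_zero] at this
    exact this.trans (le_abs_self _)
  have hKl : ∀ p q, ‖K p - K q‖ ≤ |C 1| * ‖p - q‖ := by
    intro p q
    refine (convex_univ).norm_image_sub_le_of_norm_fderiv_le (𝕜 := ℝ) (f := K)
      (fun x _ => (hKs.differentiable (by simp)) x) (fun x _ => ?_) (mem_univ q) (mem_univ p)
    rw [← norm_iteratedFDeriv_one]
    exact (hC 1 x).trans (le_abs_self _)
  have hXl : ∀ p q, ‖X p - X q‖ ≤ |A 1| * ‖p - q‖ := by
    intro p q
    refine (convex_univ).norm_image_sub_le_of_norm_fderiv_le (𝕜 := ℝ) (f := X)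
      (fun x _ => (hX.differentiable (by simp)) x) (fun x _ => ?_) (mem_univ q) (mem_univ p)
    rw [← norm_iteratedFDeriv_one]
    exact (hA 1 x).trans (le_abs_self _)
  have hz : ∀ (t u v : ℝ), ‖((t, EuclideanSpace.single 0 u) : ℝ × E 1) -
      (t, EuclideanSpace.single 0 v)‖ = |u - v| := by
    intro t u v
    rw [Prod.mk_sub_mk, sub_self, Prod.norm_mk, norm_zero, max_eq_right (norm_nonneg _),
      ← dist_eq_norm, EuclideanSpace.dist_single_same, Real.dist_eq]
  obtain ⟨u0, hu0⟩ : ∃ u0 : ℝ, u0 = p0.2 0 := ⟨_, rfl⟩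
  have hp02 : p0.2 = EuclideanSpace.single 0 u0 := by
    ext i
    fin_cases i
    simp [hu0]
  have hn : ∀ (t u : ℝ), ‖((t, EuclideanSpace.single 0 u) : ℝ × E 1) - p0‖ =
      max |t - p0.1| |u - u0| := by
    intro t u
    rw [Prod.norm_def, Prod.fst_sub, Prod.snd_sub, Real.norm_eq_abs, hp02,
      ← dist_eq_norm (EuclideanSpace.single 0 u), EuclideanSpace.dist_single_same, Real.dist_eq]
  refine ⟨r, hr, fun V => ⟨|V| * |C 0| + (|V| * (|C 1| * (2 * δ2)) + |C 0| * |V|),
    fun g hg hg0 => ?_⟩⟩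
  obtain ⟨hgm, hgV, hgv⟩ := hg
  have hM : ∀ x, ‖g x‖ ≤ |V| := fun x => (hgV x).trans (le_abs_self _)
  have hV0 : 0 ≤ V := (norm_nonneg _).trans (hgV 0)
  have hB1 : 0 ≤ |V| * |C 0| := by positivity
  have hB2 : 0 ≤ |V| * (|C 1| * (2 * δ2)) := by positivity
  have hB3 : 0 ≤ |C 0| * |V| := by positivity
  refine ⟨fun p => g (X p) * K p, (hgm.comp hX.continuous.measurable).mul
    hKs.continuous.measurable, fun q => ?_, fun t => ?_, fun p hp => ?_, fun ξ => hext g hg0 ξ⟩
  · rw [norm_mul]
    have h6 : ‖g (X q)‖ * ‖K q‖ ≤ |V| * |C 0| :=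
      mul_le_mul (hM _) (hKb q) (norm_nonneg _) (abs_nonneg _)
    linarith
  · have hoff : ∀ u, δ2 ≤ |u - u0| → g (X (t, EuclideanSpace.single 0 u)) *
        K (t, EuclideanSpace.single 0 u) = 0 := by
      intro u hu
      have h6 : K (t, EuclideanSpace.single 0 u) = 0 := by
        by_contra h
        have h7 := (hK0 _ h).2
        rw [hn] at h7
        exact absurd ((le_max_right _ _).trans_lt h7) (not_lt.2 hu)
      rw [h6, mul_zero]
    rcases le_or_gt |t - p0.1| δ2 with ht | ht
    · refine (ch3v_clamp _ (a := u0 - δ2) (b := u0 + δ2) (by linarith) ?_ ?_).trans ?_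
      · intro u hu
        refine hoff u ?_
        rw [abs_of_nonpos (by linarith)]
        linarith
      · intro u hu
        refine hoff u ?_
        rw [abs_of_nonneg (by linarith)]
        linarith
      refine (ch3v_mul (fun u => g (X (t, EuclideanSpace.single 0 u)))
        (fun u => K (t, EuclideanSpace.single 0 u)) _ (a := ENNReal.ofReal |V|)
        (b := ENNReal.ofReal |C 0|) ?_ ?_).trans ?_
      · intro u _
        rw [← ofReal_norm]
        exact ENNReal.ofReal_le_ofReal (hM _)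
      · intro u _
        rw [← ofReal_norm]
        exact ENNReal.ofReal_le_ofReal (hKb _)
      have h6 : eVariationOn (fun u => K (t, EuclideanSpace.single 0 u))
          (Icc (u0 - δ2) (u0 + δ2)) ≤ ENNReal.ofReal (|C 1| * (2 * δ2)) := by
        refine (ch3v_lip _ (abs_nonneg (C 1)) ?_).trans (le_of_eq ?_)
        · intro u v
          rw [← hz t u v]
          exact hKl _ _
        · congr 2
          ring
      have h7 : eVariationOn (fun u => g (X (t, EuclideanSpace.single 0 u)))
          (Icc (u0 - δ2) (u0 + δ2)) ≤ ENNReal.ofReal |V| := by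
        -- the arc
        set γ : ℝ → E 3 := fun s => X (t, EuclideanSpace.single 0 (u0 - δ2 + 2 * δ2 * s))
          with hγ
        have hin : ∀ s ∈ Icc (0 : ℝ) 1,
            ‖((t, EuclideanSpace.single 0 (u0 - δ2 + 2 * δ2 * s)) : ℝ × E 1) - p0‖ ≤ δ := by
          intro s hs
          rw [hn]
          refine max_le (ht.trans h3) (le_trans (abs_le.2 ⟨?_, ?_⟩) h3)
          · have : 0 ≤ 2 * δ2 * s := mul_nonneg (by linarith) hs.1
            linarith
          · have : 2 * δ2 * s ≤ 2 * δ2 * 1 := mul_le_mul_of_nonneg_left hs.2 (by linarith)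
            linarith
        have hγ1 : LipschitzWith 1 γ := by
          refine LipschitzWith.of_dist_le_mul fun s s' => ?_
          rw [dist_eq_norm, NNReal.coe_one, one_mul, Real.dist_eq]
          refine (hXl _ _).trans ?_
          rw [hz]
          have e : u0 - δ2 + 2 * δ2 * s - (u0 - δ2 + 2 * δ2 * s') = 2 * δ2 * (s - s') := by ring
          rw [e, abs_mul, abs_of_pos (by linarith : 0 < 2 * δ2), ← mul_assoc]
          calc |A 1| * (2 * δ2) * |s - s'| ≤ 1 * |s - s'| :=
                mul_le_mul_of_nonneg_right h5 (abs_nonneg _)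
            _ = _ := one_mul _
        have hγ2 : InjOn γ (Icc 0 1) := by
          intro s hs s' hs' h
          have h8 := hinj _ _ (hin s hs) (hin s' hs') h
          have h9 := hz t (u0 - δ2 + 2 * δ2 * s) (u0 - δ2 + 2 * δ2 * s')
          rw [h8, sub_self, norm_zero] at h9
          have h10 := abs_eq_zero.1 h9.symm
          have h11 : 2 * δ2 * (s - s') = 0 := by linarith
          rcases mul_eq_zero.1 h11 with h12 | h12
          · linarith
          · linarith
        have hγ3 : ∀ u ∈ Icc (0 : ℝ) 1, ‖γ u‖ = 1 ∧ φ (γ u) = φ (γ 0) := by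
          intro u hu
          refine ⟨h1 _ (hin u hu), ?_⟩
          rw [hγ]
          simp only
          rw [hφ _ (hin u hu), hφ _ (hin 0 ⟨le_rfl, zero_le_one⟩)]
        have h8 := hgv γ hγ1 hγ2 hγ3
        have h9 : (fun u => g (X (t, EuclideanSpace.single 0 u))) =
            (fun s => g (γ s)) ∘ fun u => (u - (u0 - δ2)) / (2 * δ2) := by
          funext u
          simp only [Function.comp, hγ]
          have e : u0 - δ2 + 2 * δ2 * ((u - (u0 - δ2)) / (2 * δ2)) = u := by
            field_simp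
            ring
          rw [e]
        rw [h9, abs_of_nonneg hV0]
        refine le_trans (eVariationOn.comp_le_of_monotoneOn (fun s => g (γ s)) _ ?_ ?_) h8
        · intro u _ v _ huv
          simp only
          gcongr
        · intro u hu
          constructor
          · exact div_nonneg (by linarith [hu.1]) (by linarith)
          · rw [div_le_one (by linarith)]
            linarith [hu.2]
      calc ENNReal.ofReal |V| * eVariationOn (fun u => K (t, EuclideanSpace.single 0 u))
            (Icc (u0 - δ2) (u0 + δ2)) + ENNReal.ofReal |C 0| *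
            eVariationOn (fun u => g (X (t, EuclideanSpace.single 0 u)))
            (Icc (u0 - δ2) (u0 + δ2)) ≤ ENNReal.ofReal |V| * ENNReal.ofReal (|C 1| * (2 * δ2)) +
            ENNReal.ofReal |C 0| * ENNReal.ofReal |V| := by gcongr
        _ = ENNReal.ofReal (|V| * (|C 1| * (2 * δ2)) + |C 0| * |V|) := by
            rw [← ENNReal.ofReal_mul (abs_nonneg _), ← ENNReal.ofReal_mul (abs_nonneg _),
              ← ENNReal.ofReal_add hB2 hB3]
        _ ≤ _ := ENNReal.ofReal_le_ofReal (by linarith)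
    · have h6 : (fun u : ℝ => g (X (t, EuclideanSpace.single 0 u)) *
          K (t, EuclideanSpace.single 0 u)) = fun _ => 0 := by
        funext u
        have h7 : K (t, EuclideanSpace.single 0 u) = 0 := by
          by_contra h
          have h8 := (hK0 _ h).2
          rw [hn] at h8
          exact absurd ((le_max_left _ _).trans_lt h8) (not_lt.2 ht.le)
        rw [h7, mul_zero]
      simp only
      rw [h6]
      rw [eVariationOn.constant_on]
      · exact bot_le
      · exact (Set.subsingleton_singleton (a := (0:ℂ))).anti (by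
          rintro x ⟨y, -, rfl⟩
          rfl)
  · have h6 : K p = 0 := by
      by_contra h
      exact absurd (hK0 p h).2 (not_lt.2 (h4.trans hp))
    simp only
    rw [h6, mul_zero]

end Pool.Agent.LF2
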