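import Pool.Agent.LF.ASM
import Pool.Agent.LF2.HOE
import Pool.Agent.LF2.CH3V

/-!
Densities of the unit sphere of `R^3` which are only measurable across the leaves of a foliation in
general position and of bounded variation along the leaves.
-/

set_option autoImplicit false

namespace Pool.Agent.LF2

open MeasureTheory Set Filter Topology Pool.Agent.MP_6cbfb8_an Pool.Agent.LF
open scoped ENNReal Real RealInnerProductSpace ContDiff

/-- **The sphere of `R^3`, bounded variation along the leaves.** -/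
theorem leafV_at (φ : E 3 → ℝ) (x0 : E 3) (hx0 : ‖x0‖ = 1)
    (hφ : ∀ᶠ x in 𝓝 x0, ContDiffAt ℝ ∞ φ x) (hcyc : Cyc φ x0) :
    ∃ U : Set (E 3), IsOpen U ∧ x0 ∈ U ∧ ∀ p : ℝ, 3 < p → ∀ V : ℝ, ∃ C : ℝ≥0∞, C ≠ ⊤ ∧
      ∀ g : E 3 → ℂ, ClV φ V g → (∀ x, ‖x‖ = 1 → x ∉ U → g x = 0) →
        ∫⁻ ξ, ‖extn g ξ‖ₑ ^ p ≤ C := by
  obtain ⟨X, A, p0, δ, hδ, hX, hA, hp0, h1, h2, hinj, him, hnb⟩ :=
    ch1 (m := 1) le_rfl φ x0 hx0 hφ hcyc
  have him0 : ∀ v, fderiv ℝ X p0 v = 0 → v = 0 := him p0 (by simpa using hδ.le)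
  have hnear : ∀ᶠ q in 𝓝 p0, ‖q - p0‖ ≤ δ := by
    filter_upwards [Metric.closedBall_mem_nhds p0 hδ] with q hq
    rwa [Metric.mem_closedBall, dist_eq_norm] at hq
  have hN : ∀ w : E 3, w ≠ 0 → (∀ v : E 1, ⟪w, fderiv ℝ X p0 (0, v)⟫ = 0) →
      ∀ v : E 1, v ≠ 0 → ∃ u : ℝ × E 1, ⟪w, fderiv ℝ (fderiv ℝ X) p0 (0, v) u⟫ ≠ 0 := by
    intro w hw hwV v hv
    refine cyc_N (Y := E 1) (by rw [finrank_euclideanSpace_fin]) (X := X) (φ := φ) (p := p0)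
      (hX.of_le (by norm_cast)).contDiffAt ?_ ?_ ?_ ?_ ?_ hw hwV hv
    · rw [hp0]
      exact hφ.self_of_nhds.of_le (by norm_cast)
    · exact hnear.mono h1
    · exact hnear.mono h2
    · intro a c hac
      have h3 : fderiv ℝ X p0 (a - c) = 0 := by rw [map_sub, hac, sub_self]
      exact sub_eq_zero.1 (him0 _ h3)
    · rwa [hp0]
  obtain ⟨δ1, hδ1, -, hcore⟩ := bv1 X A p0 hδ hX hA h1 him0 hN
  obtain ⟨r, hr, hch3⟩ := ch3v φ x0 X p0 hδ hX A hA hp0 h1 h2 hinj him hnb δ1 hδ1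
  refine ⟨Metric.ball x0 r, Metric.isOpen_ball, Metric.mem_ball_self hr, fun p hp V => ?_⟩
  obtain ⟨B, hB⟩ := hch3 V
  obtain ⟨C, hC, H⟩ := hcore p B hp
  refine ⟨ENNReal.ofReal (((2 * π) ^ 3)⁻¹) * C, ENNReal.mul_ne_top ENNReal.ofReal_ne_top hC,
    fun g hg hgU => ?_⟩
  obtain ⟨b, hb1, hb2, hb3, hb4, hb5⟩ := hB g hg fun x hx hxr => by
    refine hgU x hx ?_
    rw [Metric.mem_ball, dist_eq_norm, not_lt]
    exact hxr
  have h3 := asm_scale (2 * π) (by positivity) (fun η : E 3 => ‖Tb X b η‖ₑ ^ p) univ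
  rw [preimage_univ, Measure.restrict_univ] at h3
  simp_rw [hb5]
  rw [h3]
  exact mul_le_mul_right (H b hb1 hb2 hb3 hb4) _

end Pool.Agent.LF2
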