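import Mathlib

/-!
# Shifts of functions of bounded variation (helper11)

`bv_shift`: `∫ |f(u+h) - f(u)| du ≤ |h| Var f`.
-/

namespace Pool.Agent.LF2

open MeasureTheory Set
open scoped ENNReal NNReal

set_option maxHeartbeats 1000000

theorem bv_shift_aux (f : ℝ → ℂ) (V : ℝ≥0∞) (hV : eVariationOn f univ ≤ V) (hVt : V ≠ ∞)
    (h : ℝ) (hh : 0 ≤ h) (N : ℝ) :
    ∫⁻ u in Icc (-N) N, edist (f (u + h)) (f u) ≤ ENNReal.ofReal h * V := by
  set v : ℝ → ℝ≥0∞ := fun u => eVariationOn f (Iic u) with hv
  have hvV : ∀ u, v u ≤ V := fun u => (eVariationOn.mono f (subset_univ _)).trans hV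
  have hvmono : Monotone v := fun a b hab => eVariationOn.mono f (Iic_subset_Iic.2 hab)
  have hvm : Measurable v := hvmono.measurable
  have hpt : ∀ u, edist (f (u + h)) (f u) + v u ≤ v (u + h) := by
    intro u
    have h1 : edist (f (u + h)) (f u) ≤ eVariationOn f (Icc u (u + h)) :=
      eVariationOn.edist_le f ⟨by linarith, le_rfl⟩ ⟨le_rfl, by linarith⟩
    have h2 : eVariationOn f (Iic u) + eVariationOn f (Icc u (u + h)) ≤
        eVariationOn f (Iic u ∪ Icc u (u + h)) := by
      apply eVariationOn.add_le_union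
      intro x hx y hy
      exact le_trans hx hy.1
    have h3 : Iic u ∪ Icc u (u + h) = Iic (u + h) := by
      ext x
      simp only [mem_union, mem_Iic, mem_Icc]
      constructor
      · rintro (h | h)
        · linarith
        · exact h.2
      · intro hx
        rcases le_or_gt x u with h | h
        · exact Or.inl h
        · exact Or.inr ⟨h.le, hx⟩
    rw [h3] at h2
    calc edist (f (u + h)) (f u) + v u ≤ eVariationOn f (Icc u (u + h)) + v u := by gcongr
      _ = eVariationOn f (Iic u) + eVariationOn f (Icc u (u + h)) := by rw [add_comm]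
      _ ≤ v (u + h) := h2
  by_cases hN : 0 ≤ N
  · have hfin : ∫⁻ u in Icc (-N) N, v u ≠ ∞ := by
      apply ne_top_of_le_ne_top (b := ∫⁻ u in Icc (-N) N, V)
      · rw [setLIntegral_const]
        exact ENNReal.mul_ne_top hVt (by simp [Real.volume_Icc])
      · exact lintegral_mono fun u => hvV u
    have e1 : ∫⁻ u in Icc (-N) N, edist (f (u + h)) (f u) + v u =
        (∫⁻ u in Icc (-N) N, edist (f (u + h)) (f u)) + ∫⁻ u in Icc (-N) N, v u :=
      lintegral_add_right _ hvm
    have e2 : ∫⁻ u in Icc (-N) N, v (u + h) = ∫⁻ u in Icc (-N + h) (N + h), v u := by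
      have := (measurePreserving_add_right volume h).setLIntegral_comp_preimage
        (s := Icc (-N + h) (N + h)) measurableSet_Icc hvm
      rw [← this]
      congr 2
      ext x
      simp
    have e3 : ∫⁻ u in Icc (-N + h) (N + h), v u ≤
        (∫⁻ u in Icc (-N) N, v u) + ∫⁻ u in Icc N (N + h), v u := by
      refine (lintegral_mono_set ?_).trans (lintegral_union_le v (Icc (-N) N) (Icc N (N + h)))
      intro x hx
      rcases le_or_gt x N with h' | h'
      · exact Or.inl ⟨by linarith [hx.1], h'⟩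
      · exact Or.inr ⟨h'.le, hx.2⟩
    have e4 : ∫⁻ u in Icc N (N + h), v u ≤ ENNReal.ofReal h * V := by
      calc ∫⁻ u in Icc N (N + h), v u ≤ ∫⁻ u in Icc N (N + h), V := lintegral_mono fun u => hvV u
        _ = V * volume (Icc N (N + h)) := setLIntegral_const _ _
        _ = ENNReal.ofReal h * V := by rw [Real.volume_Icc, mul_comm]; congr 2; ring
    have e5 : (∫⁻ u in Icc (-N) N, edist (f (u + h)) (f u)) + ∫⁻ u in Icc (-N) N, v u ≤
        ENNReal.ofReal h * V + ∫⁻ u in Icc (-N) N, v u := by
      rw [← e1]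
      calc ∫⁻ u in Icc (-N) N, edist (f (u + h)) (f u) + v u ≤ ∫⁻ u in Icc (-N) N, v (u + h) :=
            lintegral_mono fun u => hpt u
        _ = ∫⁻ u in Icc (-N + h) (N + h), v u := e2
        _ ≤ _ := e3
        _ ≤ ENNReal.ofReal h * V + ∫⁻ u in Icc (-N) N, v u := by
            rw [add_comm]; gcongr
    exact (ENNReal.add_le_add_iff_right hfin).1 e5
  · have : Icc (-N) N = ∅ := by
      apply Icc_eq_empty
      intro h'; exact hN (by linarith)
    rw [this]; simp

/-- `∫ |f(u+h) - f(u)| du ≤ |h| Var f`. -/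
theorem bv_shift (f : ℝ → ℂ) (V : ℝ≥0∞) (hV : eVariationOn f univ ≤ V) (h : ℝ) :
    ∫⁻ u, edist (f (u + h)) (f u) ≤ ENNReal.ofReal |h| * V := by
  have key : ∀ h : ℝ, 0 ≤ h → ∫⁻ u, edist (f (u + h)) (f u) ≤ ENNReal.ofReal h * V := by
    intro h hh
    rcases hh.eq_or_lt with rfl | hpos
    · simp
    by_cases hVt : V = ∞
    · rw [hVt, ENNReal.mul_top (by simpa using hpos)]
      exact le_top
    have hU : (univ : Set ℝ) = ⋃ N : ℕ, Icc (-(N : ℝ)) N := by
      symm
      rw [eq_univ_iff_forall]
      intro x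
      obtain ⟨N, hN⟩ := exists_nat_ge |x|
      exact mem_iUnion.2 ⟨N, abs_le.1 hN⟩
    rw [← setLIntegral_univ, hU, setLIntegral_iUnion_of_directed]
    · exact iSup_le fun N => bv_shift_aux f V hV hVt h hh N
    · apply Monotone.directed_le
      intro a b hab
      apply Icc_subset_Icc <;> [skip; skip]
      · have : (a : ℝ) ≤ b := by exact_mod_cast hab
        linarith
      · exact_mod_cast hab
  rcases le_total 0 h with hh | hh
  · rw [abs_of_nonneg hh]; exact key h hh
  · rw [abs_of_nonpos hh]
    have h1 := key (-h) (by linarith)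
    have h2 : ∫⁻ u, edist (f (u + h)) (f u) = ∫⁻ u, edist (f (u + -h)) (f u) := by
      have := lintegral_add_right_eq_self (μ := (volume : Measure ℝ))
        (fun u => edist (f (u + h)) (f u)) (-h)
      rw [← this]
      apply lintegral_congr
      intro u
      rw [edist_comm]
      congr 2
      ring
    rw [h2]; exact h1

end Pool.Agent.LF2
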