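import Pool.Agent.LF2.Df
import Pool.Agent.LF.CORE2

/-!
[LEAF2] CASE 1: the sum over the windows.
-/

set_option autoImplicit false

namespace Pool.Agent.LF2

open MeasureTheory Set Metric Pool.Agent.MP_6cbfb8_an Pool.Agent.LF
open scoped ENNReal Real RealInnerProductSpace ContDiff

theorem c1_sq_sum {ι : Type*} (s : Finset ι) (f : ι → ℝ≥0∞) :
    (∑ i ∈ s, f i) ^ 2 ≤ s.card * ∑ i ∈ s, f i ^ 2 := by
  have h := ENNReal.rpow_sum_le_const_mul_sum_rpow s f (p := 2) (by norm_num)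
  have h1 : ((s.card : ℝ≥0∞)) ^ ((2 : ℝ) - 1) = s.card := by norm_num
  rw [h1] at h
  simpa only [ENNReal.rpow_two] using h

theorem c1_tb_meas {m n : ℕ} {X : ℝ × E m → E n} (hX : Continuous X) {b : ℝ × E m → ℂ}
    (hb : Integrable b) : Measurable (Tb X b) := by
  have h3 := lff_continuous 1 volume X hX.measurable b hb
  have h4 : Tb X b = lfT 1 volume X b := by
    funext ξ
    simp only [Tb, lfT, one_mul]
    refine integral_congr_ae (Filter.Eventually.of_forall fun p => ?_)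
    simp only
    rw [real_inner_comm]
  rw [h4]
  exact h3.measurable

variable {m : ℕ} {p0 : ℝ × E m}

/-- The window of `b` at `Q`. -/
noncomputable def wq (p0 : ℝ × E m) (Λ : ℝ) (M : ℕ) (b : ℝ × E m → ℂ) (Q : Fin m → ℕ)
    (p : ℝ × E m) : ℂ :=
  ((chi2 p0.2 (1 / Λ) M Q p.2 : ℝ) : ℂ) * b p

theorem wq_norm_le (Λ : ℝ) (M : ℕ) (b : ℝ × E m → ℂ) (Q : Fin m → ℕ) (p : ℝ × E m) :
    ‖wq p0 Λ M b Q p‖ ≤ ‖b p‖ := by
  unfold wq
  rw [norm_mul, Complex.norm_real, Real.norm_eq_abs, abs_of_nonneg (chi2_nonneg _ _ _ _ _)]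
  exact mul_le_of_le_one_left (norm_nonneg _) (chi2_le_one _ _ _ _ _)

theorem wq_meas (Λ : ℝ) (M : ℕ) {b : ℝ × E m → ℂ} (hb : Measurable b) (Q : Fin m → ℕ) :
    Measurable (wq p0 Λ M b Q) := by
  unfold wq
  have h2 : Measurable fun p : ℝ × E m => chi2 p0.2 (1 / Λ) M Q p.2 :=
    (contDiff_chi2 p0.2 (1 / Λ) M Q).continuous.measurable.comp measurable_snd
  exact (Complex.measurable_ofReal.comp h2).mul hb

/-- The square function of `b` is dominated by the square functions of its windows. -/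
theorem sq_windows {n : ℕ} {X : ℝ × E m → E n} (hX : Continuous X) {b : ℝ × E m → ℂ}
    (hb : Measurable b) {B0 δ r Λ : ℝ} (hr : 0 < r) (hΛ : 0 < Λ) (hrΛ : r ≤ 1 / Λ)
    (hB : ∀ p, ‖b p‖ ≤ B0) (hs : ∀ p, δ < ‖p - p0‖ → b p = 0) (ξ : E n) :
    Sq X p0 δ r b ξ ≤ ((2 * ⌈2 * (2 * √m)⌉₊ + 1) ^ m : ℕ) *
      ∑ Q ∈ gk m ⌈δ * Λ⌉₊, Sq X p0 δ r (wq p0 Λ ⌈δ * Λ⌉₊ b Q) ξ := by
  classical
  set M : ℕ := ⌈δ / r⌉₊ with hM
  set M1 : ℕ := ⌈δ * Λ⌉₊ with hM1
  have hΛi : 0 < 1 / Λ := by positivity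
  have hδM : δ ≤ 1 / Λ * M1 := by
    have h := Nat.le_ceil (δ * Λ)
    rw [one_div, inv_mul_eq_div, le_div_iff₀ hΛ]
    exact h
  have h1 : ∀ p, b p = ∑ Q ∈ gk m M1, wq p0 Λ M1 b Q p := by
    intro p
    unfold wq
    rw [← Finset.sum_mul, ← Complex.ofReal_sum]
    by_cases h : b p = 0
    · rw [h, mul_zero]
    · have h2 : ‖p - p0‖ ≤ δ := by
        by_contra h3
        exact h (hs p (not_le.1 h3))
      rw [sum_chi2 hΛi (((norm_snd_le (p - p0)).trans h2).trans hδM), Complex.ofReal_one, one_mul]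
  have hi : ∀ (c : ℕ × (Fin m → ℕ)) Q, Integrable (bcs p0 r M (wq p0 Λ M1 b Q) c) := by
    intro c Q
    refine (core_int (bcs_meas p0 r M (wq_meas Λ M1 hb Q) c) (B0 := B0) (δ := δ) (p0 := p0)
      ?_ ?_).1
    · exact fun p => ((bcs_norm_le p0 r M _ c p).trans (wq_norm_le Λ M1 b Q p)).trans (hB p)
    · intro p hp
      unfold bcs wq
      rw [hs p hp, mul_zero, mul_zero]
  have h2 : ∀ c : ℕ × (Fin m → ℕ), Tb X (bcs p0 r M b c) ξ =
      ∑ Q ∈ gk m M1, Tb X (bcs p0 r M (wq p0 Λ M1 b Q) c) ξ := by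
    intro c
    unfold Tb
    rw [← integral_finsetSum _ fun Q _ => Tb_integrable hX (hi c Q) ξ]
    refine integral_congr_ae (Filter.Eventually.of_forall fun p => ?_)
    simp only
    rw [← Finset.sum_mul]
    congr 1
    unfold bcs
    rw [← Finset.mul_sum, ← h1 p]
  have hone : ∀ c : ℕ × (Fin m → ℕ), ‖Tb X (bcs p0 r M b c) ξ‖ₑ ^ 2 ≤
      ((2 * ⌈2 * (2 * √m)⌉₊ + 1) ^ m : ℕ) *
        ∑ Q ∈ gk m M1, ‖Tb X (bcs p0 r M (wq p0 Λ M1 b Q) c) ξ‖ₑ ^ 2 := by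
    intro c
    set F : Finset (Fin m → ℕ) := (gk m M1).filter
      fun Q => ‖zc p0.2 r M c.2 - zc p0.2 (1 / Λ) M1 Q‖ ≤ 2 * √m / Λ with hF
    have h3 : ∀ Q ∈ gk m M1, Q ∉ F → Tb X (bcs p0 r M (wq p0 Λ M1 b Q) c) ξ = 0 := by
      intro Q hQ hQF
      have h4 : ∀ p, bcs p0 r M (wq p0 Λ M1 b Q) c p = 0 := by
        intro p
        by_contra h5
        apply hQF
        rw [hF, Finset.mem_filter]
        refine ⟨hQ, ?_⟩
        unfold bcs wq at h5
        have h6 : chi2 p0.2 r M c.2 p.2 ≠ 0 := by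
          intro h7
          apply h5
          rw [h7, mul_zero, Complex.ofReal_zero, zero_mul]
        have h7 : chi2 p0.2 (1 / Λ) M1 Q p.2 ≠ 0 := by
          intro h8
          apply h5
          rw [h8, Complex.ofReal_zero, zero_mul, mul_zero]
        have h8 := chi2_supp hr h6
        have h9 := chi2_supp hΛi h7
        calc ‖zc p0.2 r M c.2 - zc p0.2 (1 / Λ) M1 Q‖ =
              ‖(p.2 - zc p0.2 (1 / Λ) M1 Q) - (p.2 - zc p0.2 r M c.2)‖ := by
              congr 1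
              abel
          _ ≤ ‖p.2 - zc p0.2 (1 / Λ) M1 Q‖ + ‖p.2 - zc p0.2 r M c.2‖ := norm_sub_le _ _
          _ ≤ √m * (1 / Λ) + √m * (1 / Λ) := by
              refine add_le_add h9 (h8.trans ?_)
              gcongr
          _ = 2 * √m / Λ := by ring
      unfold Tb
      simp [h4]
    have h5 : ∑ Q ∈ gk m M1, Tb X (bcs p0 r M (wq p0 Λ M1 b Q) c) ξ =
        ∑ Q ∈ F, Tb X (bcs p0 r M (wq p0 Λ M1 b Q) c) ξ := by
      symm
      exact Finset.sum_subset (Finset.filter_subset _ _) h3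
    have h6 : F.card ≤ (2 * ⌈2 * (2 * √m)⌉₊ + 1) ^ m := by
      have h7 := card_zc hΛi p0.2 M1 (zc p0.2 r M c.2) (2 * √m / Λ) F
        (fun Q hQ => (Finset.mem_filter.1 hQ).2)
      have h8 : 2 * √m / Λ / (1 / Λ) = 2 * √m := by
        field_simp
      rwa [h8] at h7
    rw [h2 c, h5]
    calc ‖∑ Q ∈ F, Tb X (bcs p0 r M (wq p0 Λ M1 b Q) c) ξ‖ₑ ^ 2 ≤
        (∑ Q ∈ F, ‖Tb X (bcs p0 r M (wq p0 Λ M1 b Q) c) ξ‖ₑ) ^ 2 := by
          gcongr
          exact enorm_sum_le _ _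
      _ ≤ F.card * ∑ Q ∈ F, ‖Tb X (bcs p0 r M (wq p0 Λ M1 b Q) c) ξ‖ₑ ^ 2 := c1_sq_sum _ _
      _ ≤ _ := by
          gcongr
          exact Finset.filter_subset _ _
  unfold Sq
  rw [← hM]
  calc ∑ c : ↥(gi M ×ˢ gk m M), ‖Tb X (bcs p0 r M b c.1) ξ‖ₑ ^ 2 ≤
      ∑ c : ↥(gi M ×ˢ gk m M), (((2 * ⌈2 * (2 * √m)⌉₊ + 1) ^ m : ℕ) : ℝ≥0∞) *
        ∑ Q ∈ gk m M1, ‖Tb X (bcs p0 r M (wq p0 Λ M1 b Q) c.1) ξ‖ₑ ^ 2 :=
      Finset.sum_le_sum fun c _ => hone c.1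
    _ = _ := by
        rw [← Finset.mul_sum, Finset.sum_comm]

/-- The trivial bound of the square function. -/
theorem sq_triv {n : ℕ} {X : ℝ × E m → E n} {b : ℝ × E m → ℂ}
    (hb : Measurable b) {B0 δ r : ℝ}
    (hB : ∀ p, ‖b p‖ ≤ B0) (hs : ∀ p, δ < ‖p - p0‖ → b p = 0) (ξ : E n) :
    Sq X p0 δ r b ξ ≤ ((2 * ⌈δ / r⌉₊ + 1) ^ (m + 1) : ℕ) *
      ENNReal.ofReal ((B0 * volume.real (closedBall p0 δ)) ^ 2) := by
  unfold Sq
  set M : ℕ := ⌈δ / r⌉₊ with hM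
  have h1 : ∀ c : ↥(gi M ×ˢ gk m M), ‖Tb X (bcs p0 r M b c.1) ξ‖ₑ ^ 2 ≤
      ENNReal.ofReal ((B0 * volume.real (closedBall p0 δ)) ^ 2) := by
    intro c
    have h2 := core_int (bcs_meas p0 r M hb c.1) (B0 := B0) (δ := δ) (p0 := p0)
      (fun p => (bcs_norm_le p0 r M b c.1 p).trans (hB p)) (by
        intro p hp
        unfold bcs
        rw [hs p hp, mul_zero])
    have h3 := (Tb_norm_le X (bcs p0 r M b c.1) ξ).trans h2.2
    rw [← ofReal_norm, ← ENNReal.ofReal_pow (norm_nonneg _)]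
    exact ENNReal.ofReal_le_ofReal (pow_le_pow_left₀ (norm_nonneg _) h3 2)
  refine (Finset.sum_le_sum fun c _ => h1 c).trans (le_of_eq ?_)
  rw [Finset.sum_const, Finset.card_univ, Fintype.card_coe, Finset.card_product, card_gi, card_gk,
    ← pow_succ', nsmul_eq_mul]

theorem sq_meas {n : ℕ} {X : ℝ × E m → E n} (hX : Continuous X) {b : ℝ × E m → ℂ}
    (hb : Measurable b) {B0 δ r : ℝ}
    (hB : ∀ p, ‖b p‖ ≤ B0) (hs : ∀ p, δ < ‖p - p0‖ → b p = 0) :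
    Measurable fun ξ : E n => Sq X p0 δ r b ξ := by
  unfold Sq
  refine Finset.measurable_fun_sum _ fun c _ => ?_
  have h2 := core_int (bcs_meas p0 r ⌈δ / r⌉₊ hb c.1) (B0 := B0) (δ := δ) (p0 := p0)
      (fun p => (bcs_norm_le p0 r _ b c.1 p).trans (hB p)) (by
        intro p hp
        unfold bcs
        rw [hs p hp, mul_zero])
  exact (c1_tb_meas hX h2.1).enorm.pow_const 2

/-- An amplitude is bounded. -/
theorem amp_bdd {δ Λ : ℝ} {B : ℕ → ℝ} {b : ℝ × E m → ℂ} {h : ℝ × E m → ℝ} (hΛ : 0 < Λ)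
    (ha : Amp p0 δ B Λ b h) (p : ℝ × E m) :
    ‖b p‖ ≤ |B 0| * volume.real (closedBall (0 : E m) 1) := by
  have h1 := ha.bound p.1 0 p.2
  rw [norm_iteratedFDeriv_zero, pow_zero, mul_one] at h1
  have h2 : ∫ y in closedBall p.2 (1 / Λ), h (p.1, y) ≤
      volume.real (closedBall p.2 (1 / Λ)) := by
    calc ∫ y in closedBall p.2 (1 / Λ), h (p.1, y) ≤ ∫ _ in closedBall p.2 (1 / Λ), (1 : ℝ) := by
          refine integral_mono_of_nonneg (Filter.Eventually.of_forall fun _ => ha.h0 _) ?_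
            (Filter.Eventually.of_forall fun _ => ha.h1 _)
          exact integrableOn_const (isCompact_closedBall _ _).measure_lt_top.ne
      _ = _ := by rw [setIntegral_const, smul_eq_mul, mul_one]
  have h3 : volume.real (closedBall p.2 (1 / Λ)) =
      (1 / Λ) ^ m * volume.real (closedBall (0 : E m) 1) := by
    have h0 : (0 : ℝ) ≤ 1 / Λ := by positivity
    have h5 := Measure.addHaar_closedBall_mul (volume : Measure (E m)) p.2 h0 (s := 1)
      (by norm_num)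
    rw [mul_one, finrank_euclideanSpace, Fintype.card_fin] at h5
    rw [Measure.real, h5, ENNReal.toReal_mul, ENNReal.toReal_ofReal (by positivity),
      ← Measure.real]
  have h4 : 0 ≤ ∫ y in closedBall p.2 (1 / Λ), h (p.1, y) := integral_nonneg fun _ => ha.h0 _
  have h5 : Λ ^ m * ∫ y in closedBall p.2 (1 / Λ), h (p.1, y) ≤
      volume.real (closedBall (0 : E m) 1) := by
    calc Λ ^ m * ∫ y in closedBall p.2 (1 / Λ), h (p.1, y) ≤
          Λ ^ m * ((1 / Λ) ^ m * volume.real (closedBall (0 : E m) 1)) := by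
          rw [← h3]
          gcongr
      _ = (Λ * (1 / Λ)) ^ m * volume.real (closedBall (0 : E m) 1) := by
          rw [mul_pow]
          ring
      _ = _ := by rw [mul_one_div_cancel hΛ.ne', one_pow, one_mul]
  calc ‖b p‖ ≤ B 0 * (Λ ^ m * ∫ y in closedBall p.2 (1 / Λ), h (p.1, y)) := by
        refine le_trans (le_of_eq ?_) h1
        rfl
    _ ≤ |B 0| * (Λ ^ m * ∫ y in closedBall p.2 (1 / Λ), h (p.1, y)) := by
        have : 0 ≤ Λ ^ m * ∫ y in closedBall p.2 (1 / Λ), h (p.1, y) := by positivity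
        gcongr
        exact le_abs_self _
    _ ≤ _ := by gcongr

end Pool.Agent.LF2
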