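import Pool.Agent.LF.KAK1

/-!
The integral over one pair of intervals, off the diagonal, with a window.
-/

set_option autoImplicit false

namespace Pool.Agent.LF

open MeasureTheory Set Module Pool.Agent.MP_6cbfb8_an Pool.Agent.GNP
open scoped ENNReal NNReal Real RealInnerProductSpace ContDiff

/-- **One pair of intervals, off the diagonal, with a window.** -/
theorem kak1w {m : ℕ} {X : ℝ × E m → E (m + 2)} (hX : ContDiff ℝ ∞ X) {A : ℝ} (hA : 0 ≤ A)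
    (h2 : ∀ p, ‖fderiv ℝ (fderiv ℝ X) p‖ ≤ A)
    (h3 : ∀ p p', ‖fderiv ℝ (fderiv ℝ X) p - fderiv ℝ (fderiv ℝ X) p'‖ ≤ A * ‖p - p'‖)
    {p0 : ℝ × E m} {δ c C0 : ℝ} (hδ1 : δ ≤ 1 / 4) (hc : 0 < c) (hT : Trv X p0 δ c C0) :
    ∃ C : ℝ, 0 < C ∧ ∀ R Λ ρ : ℝ, 0 < R → 0 ≤ Λ → 0 < ρ → 2 * C0 * Λ ≤ R * ρ → ∀ t t' : ℝ,
      |t - p0.1| ≤ δ → |t' - p0.1| ≤ δ → ∀ Z : Set (E m), MeasurableSet Z →
      Z ⊆ Metric.closedBall p0.2 δ → ∀ g g' : ℝ → ℝ≥0∞, Measurable g → Measurable g' →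
      ∫⁻ ξ in {ξ : E (m + 2) | R / 2 ≤ ‖ξ‖ ∧ ‖ξ‖ ≤ 4 * R}, ∫⁻ z in Z,
        ∫⁻ z' in Metric.closedBall p0.2 δ, (kS X t t' ρ Λ).indicator 1 (ξ, z, z') *
          (g ⟪ξ, Xt X (t, z)⟫ * g' ⟪ξ, Xt X (t', z')⟫) ≤
        ENNReal.ofReal (C * (Λ / √R) ^ (2 * m) / ρ) *
          (volume Z * ((∫⁻ τ, g τ) * ∫⁻ τ, g' τ)) := by
  obtain ⟨C1, hC1⟩ := kak_pt m hA (c := c / 4 / 4) (by positivity)
  set B : Set (E m) := Metric.closedBall p0.2 δ with hB
  have hBm : MeasurableSet B := Metric.isClosed_closedBall.measurableSet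
  refine ⟨C1 + 1, by positivity, ?_⟩
  intro R Λ ρ hR0 hΛ0 hρ hC0 t t' ht ht' Z hZm hZB g g' hg hg'
  have hsR : 0 < √R := Real.sqrt_pos.2 hR0
  have hmem : ∀ s : ℝ, |s - p0.1| ≤ δ → ∀ z ∈ B, ‖((s, z) : ℝ × E m) - p0‖ ≤ δ := by
    intro s hs z hz
    rw [Prod.norm_def]
    refine max_le ?_ ?_
    · simpa using hs
    · rw [hB, mem_closedBall_iff_norm] at hz
      exact hz
  set Ann : Set (E (m + 2)) := {ξ | R / 2 ≤ ‖ξ‖ ∧ ‖ξ‖ ≤ 4 * R} with hAnn
  have hAm : MeasurableSet Ann := (measurableSet_le measurable_const measurable_norm).inter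
    (measurableSet_le measurable_norm measurable_const)
  by_cases hρ1 : ρ ≤ 1
  swap
  · have h0 : ∀ ξ, ∀ z ∈ Z, ∀ z' ∈ B, (kS X t t' ρ Λ).indicator 1 (ξ, z, z') *
        (g ⟪ξ, Xt X (t, z)⟫ * g' ⟪ξ, Xt X (t', z')⟫) = 0 := by
      intro ξ z hz z' hz'
      have h4 : (ξ, z, z') ∉ kS X t t' ρ Λ := by
        intro h5
        have h6 : ρ ≤ ‖((t, z) : ℝ × E m) - (t', z')‖ := h5.1
        have h7 := norm_sub_le_norm_sub_add_norm_sub ((t, z) : ℝ × E m) p0 (t', z')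
        have h8 := hmem t ht z (hZB hz)
        have h9 := hmem t' ht' z' hz'
        rw [norm_sub_rev] at h9
        linarith
      rw [indicator_of_notMem h4, zero_mul]
    have h4 : ∫⁻ ξ in Ann, ∫⁻ z in Z, ∫⁻ z' in B, (kS X t t' ρ Λ).indicator 1 (ξ, z, z') *
        (g ⟪ξ, Xt X (t, z)⟫ * g' ⟪ξ, Xt X (t', z')⟫) = ∫⁻ ξ in Ann, ∫⁻ z in Z, ∫⁻ z' in B, 0 :=
      lintegral_congr fun ξ => setLIntegral_congr_fun hZm fun z hz =>
        setLIntegral_congr_fun hBm fun z' hz' => h0 ξ z hz z' hz'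
    rw [h4]
    simp
  set f : E (m + 2) × E m × E m → ℝ≥0∞ := fun x => (kS X t t' ρ Λ).indicator 1 x *
    (g ⟪x.1, Xt X (t, x.2.1)⟫ * g' ⟪x.1, Xt X (t', x.2.2)⟫) with hf
  have hfm : Measurable f := by
    have c1 : Continuous fun x : E (m + 2) × E m × E m => ⟪x.1, Xt X (t, x.2.1)⟫ :=
      (kak_contXt hX).comp (g := fun x => ⟪x.1, Xt X x.2⟫)
        (f := fun x : E (m + 2) × E m × E m => (x.1, (t, x.2.1))) (by fun_prop)
    have c2 : Continuous fun x : E (m + 2) × E m × E m => ⟪x.1, Xt X (t', x.2.2)⟫ :=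
      (kak_contXt hX).comp (g := fun x => ⟪x.1, Xt X x.2⟫)
        (f := fun x : E (m + 2) × E m × E m => (x.1, (t', x.2.2))) (by fun_prop)
    exact ((measurable_const (a := (1 : ℝ≥0∞))).indicator (kS_meas hX t t' ρ Λ)).mul
      ((hg.comp c1.measurable).mul (hg'.comp c2.measurable))
  have hm2 : Measurable fun q : E (m + 2) × E m => ∫⁻ z' in B, f (q.1, q.2, z') := by
    have h4 : Measurable fun q : (E (m + 2) × E m) × E m => f (q.1.1, q.1.2, q.2) :=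
      hfm.comp (by fun_prop)
    exact h4.lintegral_prod_right'
  have hswap : ∫⁻ ξ in Ann, ∫⁻ z in Z, ∫⁻ z' in B, f (ξ, z, z') =
      ∫⁻ z in Z, ∫⁻ ξ in Ann, ∫⁻ z' in B, f (ξ, z, z') :=
    lintegral_lintegral_swap hm2.aemeasurable
  change ∫⁻ ξ in Ann, ∫⁻ z in Z, ∫⁻ z' in B, f (ξ, z, z') ≤ _
  rw [hswap]
  have hpt : ∀ z ∈ Z, ∫⁻ ξ in Ann, ∫⁻ z' in B, f (ξ, z, z') ≤
      C1 * ENNReal.ofReal (Λ ^ (2 * m) / (R ^ m * ρ)) * ((∫⁻ τ, g τ) * ∫⁻ τ, g' τ) := by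
    intro z hz
    set p : ℝ × E m := (t, z) with hp
    have hpδ : ‖p - p0‖ ≤ δ := hmem t ht z (hZB hz)
    set S : Set (E (m + 2) × E m) := {x | x.1 ∈ Ann ∧ x.2 ∈ B ∧ (x.1, z, x.2) ∈ kS X t t' ρ Λ}
      with hS
    have hSm : MeasurableSet S := by
      refine (measurable_fst hAm).inter ((measurable_snd hBm).inter ?_)
      have h4 : Measurable fun x : E (m + 2) × E m => (x.1, z, x.2) := by fun_prop
      exact h4 (kS_meas hX t t' ρ Λ)
    have hd : ∀ q, HasFDerivAt (fderiv ℝ X) (fderiv ℝ (fderiv ℝ X) q) q := fun q =>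
      (((hX.fderiv_right (m := 1) (by norm_cast)).differentiable (by norm_num)) q).hasFDerivAt
    have hmain := hC1 (fderiv ℝ X) (fderiv ℝ (fderiv ℝ X)) hd h2 h3 p t' ρ (2 * R) Λ hρ hρ1
      (by positivity) hΛ0 S hSm ?_ g g' hg hg'
    · have hR2 : ENNReal.ofReal (Λ ^ (2 * m) / ((2 * R) ^ m * ρ)) ≤
          ENNReal.ofReal (Λ ^ (2 * m) / (R ^ m * ρ)) := by
        refine ENNReal.ofReal_le_ofReal ?_
        gcongr
        linarith
      refine le_trans (le_of_eq ?_) (hmain.trans (by gcongr))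
      rw [← lintegral_indicator hAm]
      refine lintegral_congr fun ξ => ?_
      by_cases hξ : ξ ∈ Ann
      · rw [indicator_of_mem hξ, ← lintegral_indicator hBm]
        refine lintegral_congr fun z' => ?_
        by_cases hz' : z' ∈ B
        · rw [indicator_of_mem hz']
          by_cases hk : (ξ, z, z') ∈ kS X t t' ρ Λ
          · have hxS : (ξ, z') ∈ S := ⟨hξ, hz', hk⟩
            rw [indicator_of_mem hxS, hf]
            simp only
            rw [indicator_of_mem hk, Pi.one_apply, one_mul, kXt_eq, kXt_eq]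
          · have hxS : (ξ, z') ∉ S := fun h => hk h.2.2
            rw [indicator_of_notMem hxS, hf]
            simp only
            rw [indicator_of_notMem hk, zero_mul]
        · have hxS : (ξ, z') ∉ S := fun h => hz' h.2.1
          rw [indicator_of_notMem hz', indicator_of_notMem hxS]
      · rw [indicator_of_notMem hξ]
        have h4 : ∀ z', S.indicator (fun x => g (LB m (m + 2) x.1 (fderiv ℝ X p)).1 *
            g' (LB m (m + 2) x.1 (fderiv ℝ X (t', x.2))).1) (ξ, z') = 0 :=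
          fun z' => indicator_of_notMem (fun h => hξ h.1) _
        simp only [h4, lintegral_zero]
    · rintro ⟨ξ, z'⟩ ⟨hξ, hz', hk1, hk2, hk3, hk4⟩
      simp only at hξ hz' hk1 hk2 hk3 hk4 ⊢
      have hzz : ‖z' - z‖ ≤ ‖((t, z) : ℝ × E m) - (t', z')‖ := by
        rw [norm_sub_rev]
        exact norm_snd_le (((t, z) : ℝ × E m) - (t', z'))
      refine ⟨by linarith [hξ.2], hzz.trans hk2, ?_, ?_, ?_⟩
      · rw [← kVw_eq]; exact hk3
      · rw [← kVw_eq]; exact hk4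
      · have hP : ((t', p.2 + ρ • (ρ⁻¹ • (z' - p.2))) : ℝ × E m) = (t', z') := by
          rw [smul_smul, mul_inv_cancel₀ hρ.ne', one_smul, add_sub_cancel]
        have hr : 0 < ‖((t, z) : ℝ × E m) - (t', z')‖ := hρ.trans_le hk1
        have hne : ((t, z) : ℝ × E m) ≠ (t', z') := fun h => by
          rw [h, sub_self, norm_zero] at hr
          exact lt_irrefl _ hr
        have hw1 : ‖(2 * R)⁻¹ • ξ‖ = (2 * R)⁻¹ * ‖ξ‖ := by
          rw [norm_smul, Real.norm_of_nonneg (by positivity)]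
        have hw2 : 1 / 4 ≤ ‖(2 * R)⁻¹ • ξ‖ := by
          rw [hw1, ← div_eq_inv_mul, le_div_iff₀ (by positivity)]
          linarith [hξ.1]
        have hVs : ∀ q : ℝ × E m, ‖Vw X ξ q‖ ≤ Λ →
            ‖Vw X ((2 * R)⁻¹ • ξ) q‖ ≤ ‖(2 * R)⁻¹ • ξ‖ * (2 * Λ / R) := by
          intro q hq
          have h5 : ‖Vw X ((2 * R)⁻¹ • ξ) q‖ ≤ (2 * R)⁻¹ * Λ := by
            rw [Vw, map_smul, norm_smul, Real.norm_of_nonneg (by positivity), ← Vw]
            gcongr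
          have h6 : (2 * R)⁻¹ * Λ = 1 / 4 * (2 * Λ / R) := by field_simp; ring
          rw [h6] at h5
          refine h5.trans ?_
          gcongr
        have hθ : C0 * (2 * Λ / R) ≤ ‖((t, z) : ℝ × E m) - (t', z')‖ := by
          refine le_trans ?_ hk1
          rw [← mul_div_assoc, div_le_iff₀ hR0]
          linarith
        refine PH_low (by positivity) hρ _ hk1 hk2 fun w1 y1 => ?_
        have h8 := kTrv_low hX hc hT hpδ (hmem t' ht' z' hz') hw2 (hVs _ hk3) (hVs _ hk4) hθ hne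
          w1 y1
        rw [kGw_fderiv hX, kGw_eq, kGw_eq] at h8
        rw [hP]
        exact h8
  have h5 : (√R) ^ (2 * m) = R ^ m := by rw [pow_mul, Real.sq_sqrt hR0.le]
  have h6 : Λ ^ (2 * m) / (R ^ m * ρ) = (Λ / √R) ^ (2 * m) / ρ := by
    rw [div_pow, h5, div_div]
  calc ∫⁻ z in Z, ∫⁻ ξ in Ann, ∫⁻ z' in B, f (ξ, z, z')
      ≤ ∫⁻ _ in Z, C1 * ENNReal.ofReal (Λ ^ (2 * m) / (R ^ m * ρ)) *
        ((∫⁻ τ, g τ) * ∫⁻ τ, g' τ) := setLIntegral_mono' hZm hpt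
    _ = ENNReal.ofReal (C1 * ((Λ / √R) ^ (2 * m) / ρ)) *
        (volume Z * ((∫⁻ τ, g τ) * ∫⁻ τ, g' τ)) := by
        rw [setLIntegral_const, h6, ENNReal.ofReal_mul (by positivity), ENNReal.ofReal_coe_nnreal]
        ring
    _ ≤ ENNReal.ofReal ((C1 + 1) * (Λ / √R) ^ (2 * m) / ρ) *
        (volume Z * ((∫⁻ τ, g τ) * ∫⁻ τ, g' τ)) := by
        have h7 : (C1 : ℝ) * ((Λ / √R) ^ (2 * m) / ρ) ≤ (C1 + 1) * (Λ / √R) ^ (2 * m) / ρ := by
          rw [mul_div_assoc]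
          gcongr
          linarith
        gcongr

end Pool.Agent.LF
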