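import Pool.Agent.LF.KAK3
import Pool.Agent.LF2.KAKw
import Pool.Agent.LF2.KSw

/-!
The square function estimate with a window in the leaf variable.
-/

set_option autoImplicit false

namespace Pool.Agent.LF

open MeasureTheory Set Module Pool.Agent.MP_6cbfb8_an Pool.Agent.GNP
open scoped ENNReal NNReal Real RealInnerProductSpace ContDiff

/-- The near part. -/
theorem kak_near_w (m : ℕ) {cf : ℝ} (hcf : 0 < cf) : ∃ C : ℝ, 0 < C ∧
    ∀ (X : ℝ × E m → E (m + 2)), ContDiff ℝ ∞ X → ∀ (p0 : ℝ × E m) (δ : ℝ),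
      (∀ p, ‖p - p0‖ ≤ δ → ‖X p‖ = 1) →
      (∀ p, ‖p - p0‖ ≤ δ → ∀ ξ, cf * ‖ξ‖ ≤ |⟪ξ, X p⟫| + ‖Gw X ξ p‖) →
      ∀ (R Λ r0 : ℝ) (s s' : ℝ) (g g' : ℝ → ℝ≥0∞) (Z : Set (E m)), 0 < R → 0 ≤ Λ → 0 ≤ r0 →
      |s - p0.1| ≤ δ → MeasurableSet Z → Z ⊆ Metric.closedBall p0.2 δ →
      Measurable g → Measurable g' → (∀ τ, g' τ ≤ ENNReal.ofReal (1 / R)) →
      ∫⁻ ξ in {ξ : E (m + 2) | R / 2 ≤ ‖ξ‖ ∧ ‖ξ‖ ≤ 4 * R}, ∫⁻ z in Z, ∫⁻ z' in Z,
          {x : ℝ | x ≤ r0}.indicator 1 ‖((s, z) : ℝ × E m) - (s', z')‖ *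
          (kF X Z Λ s g ξ z * kF X Z Λ s' g' ξ z') ≤
        ENNReal.ofReal (C * (Λ ^ m * r0 ^ m)) * (volume Z * ∫⁻ τ, g τ) := by
  obtain ⟨C, hC, hone⟩ := kak_one m hcf
  set v : ℝ≥0∞ := volume (Metric.ball (0 : E m) 1) with hv
  have hv' : v ≠ ⊤ := measure_ball_lt_top.ne
  obtain ⟨c1, hc1, hCe⟩ : ∃ c1 : ℝ, 0 ≤ c1 ∧ C = ENNReal.ofReal c1 :=
    ⟨C.toReal, ENNReal.toReal_nonneg, (ENNReal.ofReal_toReal hC).symm⟩
  obtain ⟨v1, hv1, hve⟩ : ∃ v1 : ℝ, 0 ≤ v1 ∧ v = ENNReal.ofReal v1 :=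
    ⟨v.toReal, ENNReal.toReal_nonneg, (ENNReal.ofReal_toReal hv').symm⟩
  refine ⟨8 * c1 * v1 + 1, by positivity, ?_⟩
  intro X hX p0 δ hX1 hfr R Λ r0 s s' g g' B hR hΛ hr0 hs hBm hBs hg hg' hgs
  -- the integral in z'
  have h1 : ∀ ξ z, ∫⁻ z' in B, {x : ℝ | x ≤ r0}.indicator 1 ‖((s, z) : ℝ × E m) - (s', z')‖ *
      (kF X B Λ s g ξ z * kF X B Λ s' g' ξ z') ≤
      kF X B Λ s g ξ z * (ENNReal.ofReal (1 / R) * (ENNReal.ofReal (r0 ^ m) * v)) := by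
    intro ξ z
    have mB : Measurable fun z' : E m =>
        (Metric.closedBall z r0).indicator (1 : E m → ℝ≥0∞) z' :=
      measurable_one.indicator Metric.isClosed_closedBall.measurableSet
    calc ∫⁻ z' in B, {x : ℝ | x ≤ r0}.indicator 1 ‖((s, z) : ℝ × E m) - (s', z')‖ *
          (kF X B Λ s g ξ z * kF X B Λ s' g' ξ z')
        ≤ ∫⁻ z', kF X B Λ s g ξ z * (ENNReal.ofReal (1 / R) *
            (Metric.closedBall z r0).indicator 1 z') := by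
          refine (setLIntegral_le_lintegral _ _).trans (lintegral_mono fun z' => ?_)
          by_cases h2 : ‖((s, z) : ℝ × E m) - (s', z')‖ ≤ r0
          · have h3 : z' ∈ Metric.closedBall z r0 := by
              rw [mem_closedBall_iff_norm, ← norm_neg, neg_sub]
              refine le_trans ?_ h2
              rw [Prod.norm_def]
              exact le_max_right _ _
            rw [indicator_of_mem (show ‖((s, z) : ℝ × E m) - (s', z')‖ ∈ {x : ℝ | x ≤ r0} from h2),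
              indicator_of_mem h3, Pi.one_apply, Pi.one_apply, one_mul, mul_one]
            gcongr
            unfold kF
            refine (indicator_le_self _ _ _).trans (hgs _)
          · rw [indicator_of_notMem (show ‖((s, z) : ℝ × E m) - (s', z')‖ ∉ {x : ℝ | x ≤ r0}
              from h2), zero_mul]
            exact zero_le
      _ = _ := by
          rw [lintegral_const_mul _ (mB.const_mul _), lintegral_const_mul _ mB,
            lintegral_indicator_one Metric.isClosed_closedBall.measurableSet,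
            Measure.addHaar_closedBall _ _ hr0, finrank_euclideanSpace, Fintype.card_fin, ← hv]
  -- the integral in ξ
  have hFm := kF_meas hX hBm Λ s hg
  have h2 : ∫⁻ ξ in {ξ : E (m + 2) | R / 2 ≤ ‖ξ‖ ∧ ‖ξ‖ ≤ 4 * R}, ∫⁻ z in B, kF X B Λ s g ξ z ≤
      volume B * (C * ((∫⁻ τ, g τ) * (ENNReal.ofReal (Λ ^ m) * ENNReal.ofReal (8 * R)))) := by
    rw [lintegral_lintegral_swap hFm.aemeasurable]
    calc ∫⁻ z in B, ∫⁻ ξ in {ξ : E (m + 2) | R / 2 ≤ ‖ξ‖ ∧ ‖ξ‖ ≤ 4 * R}, kF X B Λ s g ξ z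
        ≤ ∫⁻ _z in B, (C * ((∫⁻ τ, g τ) *
            (ENNReal.ofReal (Λ ^ m) * ENNReal.ofReal (8 * R)))) := by
          refine setLIntegral_mono' hBm fun z hz => ?_
          have h3 : ‖((s, z) : ℝ × E m) - p0‖ ≤ δ := by
            rw [Prod.norm_def]
            refine max_le ?_ ?_
            · simpa using hs
            · have hz' := hBs hz
              rw [mem_closedBall_iff_norm] at hz'
              exact hz'
          have h4 := hone X (s, z) (hX1 _ h3) (hfr _ h3) R Λ g hR.le hΛ hg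
          refine le_trans (le_of_eq ?_) h4
          refine lintegral_congr fun ξ => ?_
          unfold kF
          by_cases h5 : ‖Vw X ξ (s, z)‖ ≤ Λ
          · rw [indicator_of_mem (show (ξ, z) ∈ {x : E (m + 2) × E m | x.2 ∈ B ∧
              ‖Vw X x.1 (s, x.2)‖ ≤ Λ} from ⟨hz, h5⟩), indicator_of_mem (show ξ ∈
              {ξ : E (m + 2) | ‖Vw X ξ (s, z)‖ ≤ Λ} from h5)]
          · rw [indicator_of_notMem (show (ξ, z) ∉ {x : E (m + 2) × E m | x.2 ∈ B ∧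
              ‖Vw X x.1 (s, x.2)‖ ≤ Λ} from fun h6 => h5 h6.2), indicator_of_notMem (show ξ ∉
              {ξ : E (m + 2) | ‖Vw X ξ (s, z)‖ ≤ Λ} from h5)]
      _ = _ := by
          rw [setLIntegral_const, mul_comm]
  calc _ ≤ ∫⁻ ξ in {ξ : E (m + 2) | R / 2 ≤ ‖ξ‖ ∧ ‖ξ‖ ≤ 4 * R}, ∫⁻ z in B,
        kF X B Λ s g ξ z * (ENNReal.ofReal (1 / R) * (ENNReal.ofReal (r0 ^ m) * v)) :=
        lintegral_mono fun ξ => lintegral_mono fun z => h1 ξ z
    _ = (∫⁻ ξ in {ξ : E (m + 2) | R / 2 ≤ ‖ξ‖ ∧ ‖ξ‖ ≤ 4 * R}, ∫⁻ z in B, kF X B Λ s g ξ z) *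
        (ENNReal.ofReal (1 / R) * (ENNReal.ofReal (r0 ^ m) * v)) := by
        have h3 : ∀ ξ, Measurable (kF X B Λ s g ξ) := fun ξ =>
          hFm.comp (f := fun z : E m => (ξ, z)) (Measurable.prodMk measurable_const measurable_id)
        have h4 : Measurable fun ξ => ∫⁻ z in B, kF X B Λ s g ξ z :=
          Measurable.lintegral_prod_right' (f := fun x : E (m + 2) × E m =>
            kF X B Λ s g x.1 x.2) hFm
        rw [← lintegral_mul_const _ h4]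
        refine lintegral_congr fun ξ => ?_
        rw [lintegral_mul_const _ (h3 ξ)]
    _ ≤ (volume B * (C * ((∫⁻ τ, g τ) * (ENNReal.ofReal (Λ ^ m) *
          ENNReal.ofReal (8 * R))))) * (ENNReal.ofReal (1 / R) * (ENNReal.ofReal (r0 ^ m) * v)) :=
        mul_le_mul' h2 le_rfl
    _ = (C * (ENNReal.ofReal (Λ ^ m) * (ENNReal.ofReal (8 * R) * (ENNReal.ofReal (1 / R) *
          (ENNReal.ofReal (r0 ^ m) * v))))) * (volume B * ∫⁻ τ, g τ) := by ring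
    _ ≤ _ := by
        refine mul_le_mul' ?_ le_rfl
        rw [hCe, hve]
        rw [← ENNReal.ofReal_mul (by positivity), ← ENNReal.ofReal_mul (by positivity),
          ← ENNReal.ofReal_mul (by positivity), ← ENNReal.ofReal_mul (by positivity),
          ← ENNReal.ofReal_mul hc1]
        apply ENNReal.ofReal_le_ofReal
        have e1 : c1 * (Λ ^ m * (8 * R * (1 / R * (r0 ^ m * v1)))) =
            (8 * c1 * v1) * (Λ ^ m * r0 ^ m) := by
          field_simp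
        rw [e1]
        exact mul_le_mul_of_nonneg_right (by linarith) (by positivity)

/-- **The square function estimate, with a window.** -/
theorem kak2w {m : ℕ} {X : ℝ × E m → E (m + 2)} (hX : ContDiff ℝ ∞ X) {A : ℝ} (hA : 0 ≤ A)
    (h2 : ∀ p, ‖fderiv ℝ (fderiv ℝ X) p‖ ≤ A)
    (h3 : ∀ p p', ‖fderiv ℝ (fderiv ℝ X) p - fderiv ℝ (fderiv ℝ X) p'‖ ≤ A * ‖p - p'‖)
    {p0 : ℝ × E m} {δ c C0 cf : ℝ} (hδ1 : δ ≤ 1 / 4) (hc : 0 < c) (hC0 : 0 < C0)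
    (hcf : 0 < cf) (hT : Trv X p0 δ c C0) (hX1 : ∀ p, ‖p - p0‖ ≤ δ → ‖X p‖ = 1)
    (hfr : ∀ p, ‖p - p0‖ ≤ δ → ∀ ξ, cf * ‖ξ‖ ≤ |⟪ξ, X p⟫| + ‖Gw X ξ p‖) :
    ∃ Ck : ℝ, 0 < Ck ∧ ∀ R : ℝ, 1 ≤ R → ∀ (Z : Set (E m)), MeasurableSet Z →
      Z ⊆ Metric.closedBall p0.2 δ → ∀ (ι : Type) [Fintype ι] (t : ι → ℝ)
      (g : ι → ℝ → ℝ≥0∞) (Λ : ℝ), √R ≤ Λ → (∀ i, |t i - p0.1| ≤ δ) →
      (∀ i j, i ≠ j → 1 / √R ≤ |t i - t j|) → (∀ i, Measurable (g i)) →
      (∀ i, ∫⁻ τ, g i τ ≤ ENNReal.ofReal (1 / √R)) → (∀ i τ, g i τ ≤ ENNReal.ofReal (1 / R)) →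
      ∫⁻ ξ in {ξ : E (m + 2) | R / 2 ≤ ‖ξ‖ ∧ ‖ξ‖ ≤ 4 * R},
        (∑ i, ∫⁻ z in Z,
          ({z | ‖Vw X ξ (t i, z)‖ ≤ Λ}.indicator fun z => g i ⟪ξ, Xt X (t i, z)⟫) z) ^ 2 ≤
        ENNReal.ofReal (Ck * (Λ / √R) ^ (2 * m + 1) * (1 + Real.log R)) *
          (volume Z * ∑ i, ∫⁻ τ, g i τ) := by
  obtain ⟨C1, hC1, hk1⟩ := kak1w hX hA h2 h3 hδ1 hc hT
  obtain ⟨Cn, hCn, hnear⟩ := kak_near_w m hcf
  obtain ⟨CL, hCL, hL⟩ := kak_L (a := 4 * C0) (by positivity)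
  refine ⟨(4 * C0 + 1) * (Cn * (2 * C0) ^ m) + CL * (C1 * (4 + 1 / (2 * C0))),
    by positivity, ?_⟩
  intro R hR B hBm hBs ι _ t g Λ hΛ ht hsep hg hgi hgs
  have hR0 : 0 < R := by linarith
  have hsR : 0 < √R := Real.sqrt_pos.2 hR0
  have hsR1 : 1 ≤ √R := Real.one_le_sqrt.2 hR
  have hRR : √R * √R = R := Real.mul_self_sqrt hR0.le
  have hΛ0 : 0 < Λ := hsR.trans_le hΛ
  set x : ℝ := Λ / √R with hx
  have hx1 : 1 ≤ x := by rwa [hx, one_le_div hsR]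
  have hx0 : 0 < x := by linarith
  have hlR : 0 ≤ Real.log R := Real.log_nonneg hR
  set Ann : Set (E (m + 2)) := {ξ | R / 2 ≤ ‖ξ‖ ∧ ‖ξ‖ ≤ 4 * R} with hAnn
  set r0 : ℝ := 2 * C0 * Λ / R with hr0
  have hr00 : 0 < r0 := by positivity
  have hdR : ∀ a : ℝ, a / R = a / √R / √R := fun a => by rw [div_div, hRR]
  have hr0x : r0 * √R = 2 * C0 * x := by
    rw [hr0, hx, hdR, div_mul_cancel₀ _ hsR.ne', mul_div_assoc]
  obtain ⟨L, hL1, hL2⟩ := hL R hR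
  -- the functions
  set F : ι → E (m + 2) → E m → ℝ≥0∞ := fun i => kF X B Λ (t i) (g i) with hF
  have hFB : ∀ i ξ z, F i ξ z ≠ 0 → z ∈ B := by
    intro i ξ z h1
    by_contra h4
    apply h1
    rw [hF]
    unfold kF
    exact indicator_of_notMem (fun h5 => h4 h5.1) _
  have hFeq : ∀ i ξ, ∫⁻ z in B, ({z | ‖Vw X ξ (t i, z)‖ ≤ Λ}.indicator
      fun z => g i ⟪ξ, Xt X (t i, z)⟫) z = ∫⁻ z in B, F i ξ z := by
    intro i ξ
    refine setLIntegral_congr_fun hBm fun z hz => ?_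
    simp only [hF]
    unfold kF
    by_cases h5 : ‖Vw X ξ (t i, z)‖ ≤ Λ
    · rw [indicator_of_mem (show (ξ, z) ∈ {x : E (m + 2) × E m | x.2 ∈ B ∧
        ‖Vw X x.1 (t i, x.2)‖ ≤ Λ} from ⟨hz, h5⟩), indicator_of_mem (show z ∈
        {z | ‖Vw X ξ (t i, z)‖ ≤ Λ} from h5)]
    · rw [indicator_of_notMem (show (ξ, z) ∉ {x : E (m + 2) × E m | x.2 ∈ B ∧
        ‖Vw X x.1 (t i, x.2)‖ ≤ Λ} from fun h6 => h5 h6.2), indicator_of_notMem (show z ∉
        {z | ‖Vw X ξ (t i, z)‖ ≤ Λ} from h5)]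
  simp only [hFeq]
  set D : ι → ι → E m → E m → ℝ := fun i j z z' => ‖((t i, z) : ℝ × E m) - (t j, z')‖ with hD
  have hD2 : 2 * δ ≤ 2 ^ L * r0 := by
    have h4 : R / (4 * C0) * r0 ≤ 2 ^ L * r0 := mul_le_mul_of_nonneg_right hL1 hr00.le
    refine le_trans ?_ h4
    have h5 : R / (4 * C0) * r0 = Λ / 2 := by
      rw [hr0]
      field_simp
      ring
    rw [h5]
    linarith
  -- the scales
  have hoff : ∀ i j, ∀ k < L, ∫⁻ ξ in Ann, ∫⁻ z in B, ∫⁻ z' in B,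
      {x : ℝ | 2 ^ k * r0 ≤ x ∧ x ≤ 2 * (2 ^ k * r0)}.indicator 1 (D i j z z') *
        (F i ξ z * F j ξ z') ≤
      ENNReal.ofReal (C1 * x ^ (2 * m) / (2 ^ k * r0) * (1 / √R)) *
        (volume B * ∫⁻ τ, g i τ) := by
    intro i j k _
    have hρ0 : 0 < 2 ^ k * r0 := by positivity
    have h4 := hk1 R Λ (2 ^ k * r0) hR0 hΛ0.le hρ0 (by
      have h5 : R * (2 ^ k * r0) = 2 ^ k * (2 * C0 * Λ) := by
        rw [hr0]
        field_simp
      rw [h5]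
      exact le_mul_of_one_le_left (by positivity) (one_le_pow₀ (by norm_num)))
      (t i) (t j) (ht i) (ht j) B hBm hBs (g i) (g j) (hg i) (hg j)
    refine le_trans (lintegral_mono fun ξ => ?_) (h4.trans ?_)
    · refine setLIntegral_mono' hBm fun z hz => ?_
      refine le_trans (setLIntegral_mono' hBm fun z' hz' => ?_) (lintegral_mono_set hBs)
      by_cases h5 : (ξ, z, z') ∈ kS X (t i) (t j) (2 ^ k * r0) Λ
      · rw [indicator_of_mem h5, Pi.one_apply, one_mul]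
        have h6 : {x : ℝ | 2 ^ k * r0 ≤ x ∧ x ≤ 2 * (2 ^ k * r0)}.indicator (1 : ℝ → ℝ≥0∞)
            (D i j z z') ≤ 1 := indicator_le_self _ _ _
        refine (mul_le_mul' h6 le_rfl).trans ?_
        rw [one_mul]
        simp only [hF]
        unfold kF
        exact mul_le_mul' (indicator_le_self _ _ _) (indicator_le_self _ _ _)
      · rw [indicator_of_notMem h5, zero_mul, nonpos_iff_eq_zero]
        by_cases h6 : D i j z z' ∈ {x : ℝ | 2 ^ k * r0 ≤ x ∧ x ≤ 2 * (2 ^ k * r0)}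
        · have h7 : ¬ (‖Vw X ξ (t i, z)‖ ≤ Λ ∧ ‖Vw X ξ (t j, z')‖ ≤ Λ) := fun h8 =>
            h5 ⟨h6.1, h6.2, h8.1, h8.2⟩
          simp only [hF]
          unfold kF
          rw [not_and_or] at h7
          rcases h7 with h7 | h7
          · rw [indicator_of_notMem (show (ξ, z) ∉ {x : E (m + 2) × E m | x.2 ∈ B ∧
              ‖Vw X x.1 (t i, x.2)‖ ≤ Λ} from fun h8 => h7 h8.2), zero_mul, mul_zero]
          · rw [indicator_of_notMem (show (ξ, z') ∉ {x : E (m + 2) × E m | x.2 ∈ B ∧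
              ‖Vw X x.1 (t j, x.2)‖ ≤ Λ} from fun h8 => h7 h8.2), mul_zero, mul_zero]
        · rw [indicator_of_notMem h6, zero_mul]
    · calc ENNReal.ofReal (C1 * x ^ (2 * m) / (2 ^ k * r0)) *
            (volume B * ((∫⁻ τ, g i τ) * ∫⁻ τ, g j τ))
          ≤ ENNReal.ofReal (C1 * x ^ (2 * m) / (2 ^ k * r0)) *
            (volume B * ((∫⁻ τ, g i τ) * ENNReal.ofReal (1 / √R))) := by
            gcongr
            exact hgi j
        _ = _ := by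
            rw [ENNReal.ofReal_mul (by positivity)]
            ring
  have hne : ∀ i j, ∫⁻ ξ in Ann, ∫⁻ z in B, ∫⁻ z' in B, {x : ℝ | x ≤ r0}.indicator 1 (D i j z z') *
      (F i ξ z * F j ξ z') ≤ ENNReal.ofReal (Cn * (Λ ^ m * r0 ^ m)) *
        (volume B * ∫⁻ τ, g i τ) := fun i j =>
    hnear X hX p0 δ hX1 hfr R Λ r0 (t i) (t j) (g i) (g j) B hR0 hΛ0.le hr00.le (ht i) hBm hBs
      (hg i) (hg j) (hgs j)
  have key := ks_sq_sum_w (volume.restrict Ann) (volume.restrict B) F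
    (fun i => kF_meas hX hBm Λ (t i) (hg i)) D (fun i j => by
      have : Continuous fun x : E m × E m => ‖((t i, x.1) : ℝ × E m) - (t j, x.2)‖ := by fun_prop
      exact this.measurable) t (h := 1 / √R) (by positivity) hsep (fun i j z z' => by
      simp only [hD]
      rw [Prod.norm_def]
      exact le_max_left _ _) r0 hr00 L (fun i j ξ z z' h4 h5 =>
        (kak_dist (ht i) (ht j) (hBs (hFB i ξ z h4)) (hBs (hFB j ξ z' h5))).trans hD2)
    (ENNReal.ofReal (Cn * (Λ ^ m * r0 ^ m)))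
    (fun k => ENNReal.ofReal (C1 * x ^ (2 * m) / (2 ^ k * r0) * (1 / √R)))
    (fun i => volume B * ∫⁻ τ, g i τ) hne hoff
  refine key.trans ?_
  rw [← Finset.sum_mul, ← add_mul, ← Finset.mul_sum]
  refine mul_le_mul' ?_ le_rfl
  -- the two sums
  have hs1 : ENNReal.ofReal (2 * r0 / (1 / √R) + 1) *
      ENNReal.ofReal (Cn * (Λ ^ m * r0 ^ m)) ≤
      ENNReal.ofReal ((4 * C0 + 1) * (Cn * (2 * C0) ^ m) * x ^ (2 * m + 1)) := by
    rw [← ENNReal.ofReal_mul (by positivity)]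
    apply ENNReal.ofReal_le_ofReal
    have e1 : 2 * r0 / (1 / √R) + 1 = 4 * C0 * x + 1 := by
      rw [div_div_eq_mul_div, div_one, mul_assoc, hr0x]
      ring
    have e2 : Λ ^ m * r0 ^ m = (2 * C0) ^ m * x ^ (2 * m) := by
      have e3 : Λ * r0 = 2 * C0 * (x * x) := by
        rw [hr0, hx, hdR]
        ring
      rw [← mul_pow, e3, mul_pow, ← sq, ← pow_mul]
    rw [e1, e2]
    have e4 : 4 * C0 * x + 1 ≤ (4 * C0 + 1) * x := by nlinarith
    calc (4 * C0 * x + 1) * (Cn * ((2 * C0) ^ m * x ^ (2 * m)))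
        = (4 * C0 * x + 1) * (Cn * (2 * C0) ^ m) * x ^ (2 * m) := by ring
      _ ≤ ((4 * C0 + 1) * x) * (Cn * (2 * C0) ^ m) * x ^ (2 * m) := by gcongr
      _ = _ := by ring
  have hs2 : ∀ k ∈ Finset.range L,
      ENNReal.ofReal (2 * (2 * (2 ^ k * r0)) / (1 / √R) + 1) *
        ENNReal.ofReal (C1 * x ^ (2 * m) / (2 ^ k * r0) * (1 / √R)) ≤
      ENNReal.ofReal (C1 * (4 + 1 / (2 * C0)) * x ^ (2 * m)) := by
    intro k _
    rw [← ENNReal.ofReal_mul (by positivity)]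
    apply ENNReal.ofReal_le_ofReal
    set y : ℝ := 2 ^ k * r0 * √R with hy
    have hy0 : 2 * C0 ≤ y := by
      rw [hy, mul_assoc, hr0x]
      have h4 : (1 : ℝ) ≤ 2 ^ k := one_le_pow₀ (by norm_num)
      nlinarith [mul_pos hC0 hx0]
    have hy1 : 0 < y := by linarith
    have e1 : 2 * (2 * (2 ^ k * r0)) / (1 / √R) + 1 = 4 * y + 1 := by
      rw [div_div_eq_mul_div, div_one, hy]
      ring
    have e2 : C1 * x ^ (2 * m) / (2 ^ k * r0) * (1 / √R) = C1 * x ^ (2 * m) / y := by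
      rw [div_mul_div_comm, mul_one, hy]
    rw [e1, e2]
    calc (4 * y + 1) * (C1 * x ^ (2 * m) / y)
        = C1 * (4 + 1 / y) * x ^ (2 * m) := by
          field_simp
      _ ≤ _ := by
          gcongr
  refine (add_le_add hs1 (Finset.sum_le_sum hs2)).trans ?_
  rw [Finset.sum_const, Finset.card_range, nsmul_eq_mul, ← ENNReal.ofReal_natCast,
    ← ENNReal.ofReal_mul (Nat.cast_nonneg _), ← ENNReal.ofReal_add (by positivity) (by positivity)]
  apply ENNReal.ofReal_le_ofReal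
  have e1 : x ^ (2 * m) ≤ x ^ (2 * m + 1) := pow_le_pow_right₀ hx1 (by omega)
  have e2 : 0 < x ^ (2 * m + 1) := by positivity
  have e3 : 0 < x ^ (2 * m) := by positivity
  have e4 : (L : ℝ) * (C1 * (4 + 1 / (2 * C0)) * x ^ (2 * m)) ≤
      CL * (1 + Real.log R) * (C1 * (4 + 1 / (2 * C0)) * x ^ (2 * m + 1)) := by
    gcongr
  have e5 : (4 * C0 + 1) * (Cn * (2 * C0) ^ m) * x ^ (2 * m + 1) ≤
      (4 * C0 + 1) * (Cn * (2 * C0) ^ m) * x ^ (2 * m + 1) * (1 + Real.log R) :=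
    le_mul_of_one_le_right (by positivity) (by linarith)
  calc _ ≤ (4 * C0 + 1) * (Cn * (2 * C0) ^ m) * x ^ (2 * m + 1) * (1 + Real.log R) +
        CL * (1 + Real.log R) * (C1 * (4 + 1 / (2 * C0)) * x ^ (2 * m + 1)) :=
        add_le_add e5 e4
    _ = _ := by ring

end Pool.Agent.LF
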