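import Pool.Agent.LF2.Df
import Pool.Agent.LF2.KAK2w
import Pool.Agent.LF2.COREBW

/-!
[LEAF2] The counting of KAK in a window, from the geometry of the chart.
-/

set_option autoImplicit false

namespace Pool.Agent.LF2

open MeasureTheory Set Metric Pool.Agent.MP_6cbfb8_an Pool.Agent.LF
open scoped ENNReal Real RealInnerProductSpace ContDiff

variable {m : ℕ} {X : ℝ × E m → E (m + 2)} {p0 : ℝ × E m} {δ c C : ℝ} {A : ℕ → ℝ}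

theorem lip_norm {F G : Type*} [NormedAddCommGroup F] [NormedSpace ℝ F] [NormedAddCommGroup G]
    [NormedSpace ℝ G] (f : F → G) (p : F) :
    ‖fderiv ℝ (fderiv ℝ f) p‖ = ‖iteratedFDeriv ℝ 2 f p‖ := by
  rw [← norm_iteratedFDeriv_fderiv, ← norm_iteratedFDeriv_fderiv, norm_iteratedFDeriv_zero]

/-- A bound of the second derivative makes the derivative Lipschitz. -/
theorem lip_fderiv {F G : Type*} [NormedAddCommGroup F] [NormedSpace ℝ F] [NormedAddCommGroup G]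
    [NormedSpace ℝ G] {f : F → G} (hf : ContDiff ℝ 2 f) {M : ℝ}
    (hM : ∀ p, ‖iteratedFDeriv ℝ 2 f p‖ ≤ M) (p p' : F) :
    ‖fderiv ℝ f p - fderiv ℝ f p'‖ ≤ M * ‖p - p'‖ :=
  (convex_univ (𝕜 := ℝ)).norm_image_sub_le_of_norm_fderiv_le (𝕜 := ℝ)
    (fun x _ => (hf.fderiv_right (m := 1) (by norm_cast)).differentiable (by simp) x)
    (fun x _ => (lip_norm f x).trans_le (hM x)) (mem_univ p') (mem_univ p)

/-- KAKw. -/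
theorem kakw (_hm : 1 ≤ m) (hG : Geo X p0 δ c C A) : ∃ Ck : ℝ, 0 < Ck ∧ ∀ R, 1 ≤ R →
    ∀ Z : Set (E m), MeasurableSet Z → Z ⊆ closedBall p0.2 δ →
    ∀ (ι : Type) [Fintype ι] (t : ι → ℝ) (g : ι → ℝ → ℝ≥0∞) (Λ : ℝ), √R ≤ Λ →
      (∀ i, |t i - p0.1| ≤ δ) → (∀ i j, i ≠ j → 1 / √R ≤ |t i - t j|) →
      (∀ i, Measurable (g i)) → (∀ i, ∫⁻ τ, g i τ ≤ ENNReal.ofReal (1 / √R)) →
      (∀ i τ, g i τ ≤ ENNReal.ofReal (1 / R)) →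
      ∫⁻ ξ in An (m + 2) R, (∑ i, ∫⁻ z in Z,
          ({z | ‖Vw X ξ (t i, z)‖ ≤ Λ}.indicator fun z => g i ⟪ξ, Xt X (t i, z)⟫) z) ^ 2 ≤
        ENNReal.ofReal (Ck * (Λ / √R) ^ (2 * m + 1) * (1 + Real.log R)) *
          (volume Z * ∑ i, ∫⁻ τ, g i τ) := by
  have hC1 := hG.hC
  have hX := hG.hX
  have h2 : ∀ p, ‖fderiv ℝ (fderiv ℝ X) p‖ ≤ A 2 := fun p => (lip_norm X p).trans_le (hG.hA 2 p)
  have h3 : ∀ p p', ‖fderiv ℝ (fderiv ℝ X) p - fderiv ℝ (fderiv ℝ X) p'‖ ≤ A 3 * ‖p - p'‖ := by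
    refine lip_fderiv (hX.fderiv_right (m := 2) (by norm_cast)) fun p => ?_
    rw [norm_iteratedFDeriv_fderiv]
    exact hG.hA 3 p
  have hA0 : 0 ≤ max (A 2) (A 3) :=
    le_max_of_le_left ((norm_nonneg (fderiv ℝ (fderiv ℝ X) 0)).trans (h2 0))
  have hT : Trv X p0 δ c C := by
    intro p p' w θ hp hp' hw1 hw2 hV hV' hd hne w1 y1
    exact hG.trv w θ p p' (by linarith) (by linarith) hp hp' hV hV' hd hne w1 y1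
  obtain ⟨Ck, hCk, hk⟩ := kak2w hX hA0 (fun p => (h2 p).trans (le_max_left _ _))
    (fun p p' => (h3 p p').trans (mul_le_mul_of_nonneg_right (le_max_right _ _) (norm_nonneg _)))
    hG.hδ1 hG.hc (by linarith) hG.hc hT hG.unit hG.frame
  exact ⟨Ck, hCk, fun R hR Z hZ hZs ι _ t g Λ h1 h2 h3 h4 h5 h6 =>
    hk R hR Z hZ hZs ι t g Λ h1 h2 h3 h4 h5 h6⟩

/-- COREB_w with the masses written as integrals. -/
theorem coreBw_gg (m n Mo : ℕ) (A C C2 Ck : ℝ) (hA : 0 ≤ A) (hC : 0 ≤ C) (hC2 : 0 ≤ C2)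
    (hCk : 0 ≤ Ck) : ∃ D : ℝ, 0 ≤ D ∧
    ∀ (V : E n → ℝ × E m → E m) (T : ℝ × E m → E n)
      (p0 : ℝ × E m) (δ R Λ0 e : ℝ) (Z : Set (E m)), MeasurableSet Z → Z ⊆ closedBall p0.2 δ →
      1 ≤ R → √R ≤ Λ0 → 0 ≤ e →
      (∀ ξ t z z', ‖V ξ (t, z) - V ξ (t, z')‖ ≤ A * ‖ξ‖ * ‖z - z'‖) →
      (∀ t, Continuous fun z => T (t, z)) →
      (∀ (ι : Type) [Fintype ι] (t : ι → ℝ) (g : ι → ℝ → ℝ≥0∞) (Λ : ℝ), √R ≤ Λ →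
        (∀ i, |t i - p0.1| ≤ δ) → (∀ i j, i ≠ j → 1 / √R ≤ |t i - t j|) →
        (∀ i, Measurable (g i)) → (∀ i, ∫⁻ τ, g i τ ≤ ENNReal.ofReal (1 / √R)) →
        (∀ i τ, g i τ ≤ ENNReal.ofReal (1 / R)) →
        ∫⁻ ξ in An n R, (∑ i, ∫⁻ z in Z,
            ({z | ‖V ξ (t i, z)‖ ≤ Λ}.indicator fun z => g i ⟪ξ, T (t i, z)⟫) z) ^ 2 ≤
          ENNReal.ofReal (Ck * (Λ / √R) ^ (2 * m + 1) * (1 + Real.log R)) *
            (volume Z * ∑ i, ∫⁻ τ, g i τ)) →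
      ∀ (κ ι : Type) [Fintype κ] [Fintype ι] (pr : κ → ι) (t : ι → ℝ)
        (zc : κ → E m) (GG : ι → ℝ → ℝ≥0∞) (f : κ → E n → ℂ),
        (∀ i, |t i - p0.1| ≤ δ) → (∀ i j, i ≠ j → 1 / √R ≤ |t i - t j|) →
        (∀ i, Measurable (GG i)) → (∀ i, ∫⁻ τ, GG i τ ≤ ENNReal.ofReal (C / √R)) →
        (∀ i τ, GG i τ ≤ ENNReal.ofReal (C / R)) →
        (∀ i z, ({c | pr c = i ∧ ‖z - zc c‖ ≤ C2 / √R} : Set κ).ncard ≤ Mo) →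
        (∀ c ξ, ‖ξ‖ ≤ 4 * R → ‖f c ξ‖ₑ ^ 2 ≤ ENNReal.ofReal (C * (1 / √R) ^ m) *
          ∫⁻ z in closedBall (zc c) (C2 / √R) ∩ Z, GG (pr c) ⟪ξ, T (t (pr c), z)⟫) →
        (∀ c ξ, R / 2 ≤ ‖ξ‖ → ‖ξ‖ ≤ 4 * R → Λ0 ≤ ‖V ξ (t (pr c), zc c)‖ → ‖f c ξ‖ ≤ e) →
        ∫⁻ ξ in An n R, (∑ c, ‖f c ξ‖ₑ ^ 2) ^ 2 ≤
          ENNReal.ofReal (D * (1 / R) ^ m * (Λ0 / √R) ^ (2 * m + 1) * (1 + Real.log R)) *
            (volume Z * ∑ i, ∫⁻ τ, GG i τ) +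
            2 * (Fintype.card κ * ENNReal.ofReal (e ^ 2)) ^ 2 * volume (An n R) := by
  obtain ⟨D, hD, h⟩ := coreBw m n Mo A C C2 Ck hA hC hC2 hCk
  refine ⟨D, hD, ?_⟩
  intro V T p0 δ R Λ0 e Z hZm _ hR hΛ he hVL hTc hkak κ ι _ _ pr t zc GG f ht htt hGm hG1 hG2 hov
    hdom hnsp
  have h1 : ∀ i, ∫⁻ τ, GG i τ ≠ ⊤ := fun i => ne_top_of_le_ne_top ENNReal.ofReal_ne_top (hG1 i)
  have h2 := h V T p0 δ R Λ0 e Z hZm hR hΛ he hVL hTc hkak κ ι pr t zc GG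
    (fun i => (∫⁻ τ, GG i τ).toReal) f ht htt hGm (fun i => (ENNReal.ofReal_toReal (h1 i)).ge)
    (fun i => ENNReal.toReal_le_of_le_ofReal (by positivity) (hG1 i)) hG2 hov hdom hnsp
  simp only [ENNReal.ofReal_toReal (h1 _)] at h2
  exact h2

end Pool.Agent.LF2
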