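import Pool.Agent.LF2.YOUNG

/-!
[LEAF2] row WIN: the windows of an amplitude.
-/

set_option autoImplicit false

namespace Pool.Agent.LF2

open MeasureTheory Set Metric Pool.Agent.MP_6cbfb8_an Pool.Agent.LF
open scoped ENNReal Real RealInnerProductSpace ContDiff

/-- The mass of `h` on the window `Q`. -/
noncomputable def wb {m : ℕ} (p0 : ℝ × E m) (δ Λ : ℝ) (h : ℝ × E m → ℝ) (Q : Fin m → ℕ)
    (t : ℝ) : ℝ :=
  Λ ^ m * ∫ y in closedBall (zc p0.2 (1 / Λ) ⌈δ * Λ⌉₊ Q) ((√m + 1) / Λ), h (t, y)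

/-- The constant of the volume of a window. -/
noncomputable def wv (m : ℕ) : ℝ := (√m + 1) ^ m * volume.real (closedBall (0 : E m) 1)

theorem wv_nonneg (m : ℕ) : 0 ≤ wv m := by unfold wv; positivity

theorem wv_vol {m : ℕ} {Λ : ℝ} (hΛ : 0 < Λ) (z : E m) :
    volume.real (closedBall z ((√m + 1) / Λ)) = (1 / Λ) ^ m * wv m := by
  have h0 : (0 : ℝ) ≤ (√m + 1) / Λ := by positivity
  have h5 := Measure.addHaar_closedBall_mul (volume : Measure (E m)) z h0 (s := 1) (by norm_num)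
  rw [mul_one, finrank_euclideanSpace, Fintype.card_fin] at h5
  rw [Measure.real, h5, ENNReal.toReal_mul, ENNReal.toReal_ofReal (by positivity), wv,
    ← Measure.real, div_pow, one_div, inv_pow]
  ring

variable {m : ℕ} {B : ℕ → ℝ} {p0 : ℝ × E m} {δ Λ : ℝ} {b : ℝ × E m → ℂ} {h : ℝ × E m → ℝ}

theorem wh_int (ha : Amp p0 δ B Λ b h) (t : ℝ) (z : E m) (r : ℝ) :
    IntegrableOn (fun y => h (t, y)) (closedBall z r) := by
  refine Measure.integrableOn_of_bounded (M := 1) measure_closedBall_lt_top.ne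
    (ha.hmeas.comp measurable_prodMk_left).aestronglyMeasurable
    (Filter.Eventually.of_forall fun y => ?_)
  rw [Real.norm_of_nonneg (ha.h0 _)]
  exact ha.h1 _

theorem wb_meas (ha : Amp p0 δ B Λ b h) (Q : Fin m → ℕ) : Measurable (wb p0 δ Λ h Q) := by
  unfold wb
  have h1 : StronglyMeasurable fun t : ℝ =>
      ∫ y, h (t, y) ∂(volume.restrict (closedBall (zc p0.2 (1 / Λ) ⌈δ * Λ⌉₊ Q) ((√m + 1) / Λ))) :=
    StronglyMeasurable.integral_prod_right' ha.hmeas.stronglyMeasurable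
  exact h1.measurable.const_mul _

theorem wb_nonneg (ha : Amp p0 δ B Λ b h) (hΛ : 0 < Λ) (Q : Fin m → ℕ) (t : ℝ) :
    0 ≤ wb p0 δ Λ h Q t :=
  mul_nonneg (by positivity) (integral_nonneg fun _ => ha.h0 _)

theorem wb_le (ha : Amp p0 δ B Λ b h) (hΛ : 0 < Λ) (Q : Fin m → ℕ) (t : ℝ) :
    wb p0 δ Λ h Q t ≤ wv m := by
  unfold wb
  have h3 : ∫ y in closedBall (zc p0.2 (1 / Λ) ⌈δ * Λ⌉₊ Q) ((√m + 1) / Λ), h (t, y) ≤
      ∫ _ in closedBall (zc p0.2 (1 / Λ) ⌈δ * Λ⌉₊ Q) ((√m + 1) / Λ), (1 : ℝ) := by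
    refine integral_mono_of_nonneg (Filter.Eventually.of_forall fun _ => ha.h0 _) ?_
      (Filter.Eventually.of_forall fun _ => ha.h1 _)
    exact integrableOn_const (isCompact_closedBall _ _).measure_lt_top.ne
  rw [setIntegral_const, smul_eq_mul, mul_one, wv_vol hΛ] at h3
  calc _ ≤ Λ ^ m * ((1 / Λ) ^ m * wv m) := by gcongr
    _ = wv m := by rw [← mul_assoc, ← mul_pow, mul_one_div_cancel hΛ.ne', one_pow, one_mul]

/-- The derivatives of the pieces. -/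
theorem wb_bound (ha : Amp p0 δ B Λ b h) (hΛ : 0 < Λ) {Bc : ℕ → ℝ} (hBc : ∀ j, 0 ≤ Bc j)
    (hc : ∀ (z0 : E m) (r : ℝ) (M : ℕ) (k : Fin m → ℕ), 0 < r →
      ∀ j z, ‖iteratedFDeriv ℝ j (chi2 z0 r M k) z‖ ≤ Bc j / r ^ j)
    (Q : Fin m → ℕ) (t : ℝ) (k : ℕ) (z : E m) :
    ‖iteratedFDeriv ℝ k
      (fun z => ((chi2 p0.2 (1 / Λ) ⌈δ * Λ⌉₊ Q z : ℝ) : ℂ) * b (t, z)) z‖ ≤
      wb p0 δ Λ h Q t * (∑ i ∈ Finset.range (k + 1), (k.choose i : ℝ) * Bc i * |B (k - i)|) *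
        Λ ^ k := by
  have hr : 0 < 1 / Λ := by positivity
  have hw := wb_nonneg ha hΛ Q t
  by_cases hz : ‖z - zc p0.2 (1 / Λ) ⌈δ * Λ⌉₊ Q‖ ≤ √m * (1 / Λ)
  · -- near the window
    have hf : ContDiff ℝ ∞ fun z => ((chi2 p0.2 (1 / Λ) ⌈δ * Λ⌉₊ Q z : ℝ) : ℂ) :=
      Complex.ofRealCLM.contDiff.comp (contDiff_chi2 _ _ _ _)
    refine (norm_iteratedFDeriv_mul_le hf (ha.smooth t) z
      (n := k) (by exact_mod_cast le_top)).trans ?_
    rw [Finset.mul_sum, Finset.sum_mul]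
    refine Finset.sum_le_sum fun i hi => ?_
    have hik : i ≤ k := by
      have := Finset.mem_range.1 hi
      omega
    have h1 : ‖iteratedFDeriv ℝ i (fun z => ((chi2 p0.2 (1 / Λ) ⌈δ * Λ⌉₊ Q z : ℝ) : ℂ)) z‖ ≤
        Bc i * Λ ^ i := by
      have h2 : (fun z => ((chi2 p0.2 (1 / Λ) ⌈δ * Λ⌉₊ Q z : ℝ) : ℂ)) =
          Complex.ofRealLI ∘ chi2 p0.2 (1 / Λ) ⌈δ * Λ⌉₊ Q := rfl
      rw [h2, LinearIsometry.norm_iteratedFDeriv_comp_left _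
        (contDiff_chi2 p0.2 (1 / Λ) ⌈δ * Λ⌉₊ Q).contDiffAt (by exact_mod_cast le_top)]
      refine (hc p0.2 (1 / Λ) ⌈δ * Λ⌉₊ Q hr i z).trans (le_of_eq ?_)
      rw [one_div, inv_pow, div_inv_eq_mul]
    have h3 : ‖iteratedFDeriv ℝ (k - i) (fun z => b (t, z)) z‖ ≤
        |B (k - i)| * Λ ^ (k - i) * wb p0 δ Λ h Q t := by
      refine (ha.bound t (k - i) z).trans ?_
      have h4 : Λ ^ m * ∫ y in closedBall z (1 / Λ), h (t, y) ≤ wb p0 δ Λ h Q t := by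
        unfold wb
        refine mul_le_mul_of_nonneg_left ?_ (by positivity)
        refine setIntegral_mono_set (wh_int ha t _ _)
          (Filter.Eventually.of_forall fun _ => ha.h0 _) (Filter.Eventually.of_forall ?_)
        intro y hy
        change y ∈ closedBall z (1 / Λ) at hy
        change y ∈ closedBall (zc p0.2 (1 / Λ) ⌈δ * Λ⌉₊ Q) ((√m + 1) / Λ)
        rw [mem_closedBall, dist_eq_norm] at hy ⊢
        calc ‖y - zc p0.2 (1 / Λ) ⌈δ * Λ⌉₊ Q‖ =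
              ‖(y - z) + (z - zc p0.2 (1 / Λ) ⌈δ * Λ⌉₊ Q)‖ := by congr 1; abel
          _ ≤ ‖y - z‖ + ‖z - zc p0.2 (1 / Λ) ⌈δ * Λ⌉₊ Q‖ := norm_add_le _ _
          _ ≤ 1 / Λ + √m * (1 / Λ) := add_le_add hy hz
          _ = (√m + 1) / Λ := by ring
      have h5 : 0 ≤ Λ ^ m * ∫ y in closedBall z (1 / Λ), h (t, y) :=
        mul_nonneg (by positivity) (integral_nonneg fun _ => ha.h0 _)
      calc B (k - i) * Λ ^ (k - i) * (Λ ^ m * ∫ y in closedBall z (1 / Λ), h (t, y))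
          ≤ |B (k - i)| * Λ ^ (k - i) * (Λ ^ m * ∫ y in closedBall z (1 / Λ), h (t, y)) := by
            gcongr
            exact le_abs_self _
        _ ≤ _ := by gcongr
    calc (k.choose i : ℝ) *
          ‖iteratedFDeriv ℝ i (fun z => ((chi2 p0.2 (1 / Λ) ⌈δ * Λ⌉₊ Q z : ℝ) : ℂ)) z‖ *
          ‖iteratedFDeriv ℝ (k - i) (fun z => b (t, z)) z‖
        ≤ (k.choose i : ℝ) * (Bc i * Λ ^ i) *
          (|B (k - i)| * Λ ^ (k - i) * wb p0 δ Λ h Q t) := by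
          have := hBc i
          gcongr
      _ = wb p0 δ Λ h Q t * ((k.choose i : ℝ) * Bc i * |B (k - i)|) *
          (Λ ^ i * Λ ^ (k - i)) := by ring
      _ = _ := by rw [← pow_add, Nat.add_sub_cancel' hik]
  · -- away from the window
    rw [not_le] at hz
    have h1 : (fun z => ((chi2 p0.2 (1 / Λ) ⌈δ * Λ⌉₊ Q z : ℝ) : ℂ) * b (t, z)) =ᶠ[nhds z]
        fun _ => 0 := by
      have h2 : ∀ᶠ y in nhds z, √m * (1 / Λ) < ‖y - zc p0.2 (1 / Λ) ⌈δ * Λ⌉₊ Q‖ :=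
        (isOpen_lt continuous_const (by fun_prop)).mem_nhds hz
      refine h2.mono fun y hy => ?_
      simp only
      rw [chi2_zero hr hy, Complex.ofReal_zero, zero_mul]
    rw [(h1.iteratedFDeriv ℝ k).eq_of_nhds]
    have h3 : iteratedFDeriv ℝ k (fun _ : E m => (0 : ℂ)) z = 0 := by
      rw [iteratedFDeriv_fun_zero]
      rfl
    rw [h3, norm_zero]
    have : 0 ≤ ∑ i ∈ Finset.range (k + 1), (k.choose i : ℝ) * Bc i * |B (k - i)| :=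
      Finset.sum_nonneg fun i _ => by
        have := hBc i
        positivity
    positivity

/-- The overlap of the windows. -/
theorem wb_overlap (hΛ : 0 < Λ) (y : E m) :
    ∑ Q ∈ gk m ⌈δ * Λ⌉₊, (closedBall (zc p0.2 (1 / Λ) ⌈δ * Λ⌉₊ Q) ((√m + 1) / Λ)).indicator
      (fun _ => (1 : ℝ≥0∞)) y ≤ (((2 * ⌈2 * (√m + 1)⌉₊ + 1) ^ m : ℕ) : ℝ≥0∞) := by
  classical
  have hr : 0 < 1 / Λ := by positivity
  have h1 : ∑ Q ∈ gk m ⌈δ * Λ⌉₊, (closedBall (zc p0.2 (1 / Λ) ⌈δ * Λ⌉₊ Q)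
      ((√m + 1) / Λ)).indicator (fun _ => (1 : ℝ≥0∞)) y =
      (((gk m ⌈δ * Λ⌉₊).filter fun Q =>
        y ∈ closedBall (zc p0.2 (1 / Λ) ⌈δ * Λ⌉₊ Q) ((√m + 1) / Λ)).card : ℝ≥0∞) := by
    rw [Finset.card_filter]
    push_cast
    refine Finset.sum_congr rfl fun Q _ => ?_
    by_cases hy : y ∈ closedBall (zc p0.2 (1 / Λ) ⌈δ * Λ⌉₊ Q) ((√m + 1) / Λ)
    · rw [indicator_of_mem hy, if_pos hy]
    · rw [indicator_of_notMem hy, if_neg hy]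
  rw [h1]
  have h2 := card_zc hr p0.2 ⌈δ * Λ⌉₊ y ((√m + 1) / Λ)
    ((gk m ⌈δ * Λ⌉₊).filter fun Q =>
      y ∈ closedBall (zc p0.2 (1 / Λ) ⌈δ * Λ⌉₊ Q) ((√m + 1) / Λ)) fun k hk => by
      have h3 := (Finset.mem_filter.1 hk).2
      rwa [mem_closedBall, dist_eq_norm] at h3
  have h4 : (√m + 1) / Λ / (1 / Λ) = √m + 1 := by field_simp
  rw [h4] at h2
  exact_mod_cast h2

/-- The sum of the squares of the masses. -/
theorem wb_sum (ha : Amp p0 δ B Λ b h) (hΛ : 0 < Λ) :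
    ∑ Q ∈ gk m ⌈δ * Λ⌉₊, ∫⁻ t, ENNReal.ofReal (wb p0 δ Λ h Q t ^ 2) ≤
      ENNReal.ofReal (wv m * ((2 * ⌈2 * (√m + 1)⌉₊ + 1) ^ m : ℕ) * Λ ^ m) *
        ∫⁻ p, ENNReal.ofReal (h p ^ 2) := by
  have hv := wv_nonneg m
  have hhm : Measurable fun p : ℝ × E m => ENNReal.ofReal (h p ^ 2) :=
    (ha.hmeas.pow_const 2).ennreal_ofReal
  have hht : ∀ t, Measurable fun y => ENNReal.ofReal (h (t, y)) := fun t =>
    (ha.hmeas.comp measurable_prodMk_left).ennreal_ofReal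
  have hht2 : ∀ t, Measurable fun y => ENNReal.ofReal (h (t, y) ^ 2) := fun t =>
    hhm.comp measurable_prodMk_left
  -- one window, one line
  have h1 : ∀ Q t, ENNReal.ofReal (wb p0 δ Λ h Q t ^ 2) ≤ ENNReal.ofReal (wv m * Λ ^ m) *
      ∫⁻ y in closedBall (zc p0.2 (1 / Λ) ⌈δ * Λ⌉₊ Q) ((√m + 1) / Λ),
        ENNReal.ofReal (h (t, y) ^ 2) := by
    intro Q t
    have e1 : ENNReal.ofReal (wb p0 δ Λ h Q t) = ENNReal.ofReal (Λ ^ m) *
        ∫⁻ y in closedBall (zc p0.2 (1 / Λ) ⌈δ * Λ⌉₊ Q) ((√m + 1) / Λ),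
          ENNReal.ofReal (h (t, y)) := by
      unfold wb
      rw [ENNReal.ofReal_mul (by positivity), ofReal_integral_eq_lintegral_ofReal
        (wh_int ha t _ _) (Filter.Eventually.of_forall fun _ => ha.h0 _)]
    have e2 := al_cs (volume.restrict (closedBall (zc p0.2 (1 / Λ) ⌈δ * Λ⌉₊ Q) ((√m + 1) / Λ)))
      (hht t).aemeasurable
    have e3 : volume (closedBall (zc p0.2 (1 / Λ) ⌈δ * Λ⌉₊ Q) ((√m + 1) / Λ)) =
        ENNReal.ofReal ((1 / Λ) ^ m * wv m) := by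
      rw [← wv_vol hΛ, Measure.real, ENNReal.ofReal_toReal measure_closedBall_lt_top.ne]
    rw [Measure.restrict_apply_univ, e3] at e2
    rw [ENNReal.ofReal_pow (wb_nonneg ha hΛ Q t), e1, mul_pow]
    calc ENNReal.ofReal (Λ ^ m) ^ 2 *
          (∫⁻ y in closedBall (zc p0.2 (1 / Λ) ⌈δ * Λ⌉₊ Q) ((√m + 1) / Λ),
            ENNReal.ofReal (h (t, y))) ^ 2
        ≤ ENNReal.ofReal (Λ ^ m) ^ 2 * (ENNReal.ofReal ((1 / Λ) ^ m * wv m) *
          ∫⁻ y in closedBall (zc p0.2 (1 / Λ) ⌈δ * Λ⌉₊ Q) ((√m + 1) / Λ),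
            ENNReal.ofReal (h (t, y)) ^ 2) := by gcongr
      _ = _ := by
          rw [← mul_assoc, ← ENNReal.ofReal_pow (by positivity),
            ← ENNReal.ofReal_mul (by positivity)]
          congr 1
          · congr 1
            have : Λ ^ m * (1 / Λ) ^ m = 1 := by
              rw [← mul_pow, mul_one_div_cancel hΛ.ne', one_pow]
            calc (Λ ^ m) ^ 2 * ((1 / Λ) ^ m * wv m) = Λ ^ m * (Λ ^ m * (1 / Λ) ^ m) * wv m := by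
                  ring
              _ = wv m * Λ ^ m := by rw [this]; ring
          · refine lintegral_congr fun y => ?_
            rw [ENNReal.ofReal_pow (ha.h0 _)]
  -- the sum for one line
  have h2 : ∀ t, ∑ Q ∈ gk m ⌈δ * Λ⌉₊,
      ∫⁻ y in closedBall (zc p0.2 (1 / Λ) ⌈δ * Λ⌉₊ Q) ((√m + 1) / Λ),
        ENNReal.ofReal (h (t, y) ^ 2) ≤
      (((2 * ⌈2 * (√m + 1)⌉₊ + 1) ^ m : ℕ) : ℝ≥0∞) * ∫⁻ y, ENNReal.ofReal (h (t, y) ^ 2) := by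
    intro t
    calc ∑ Q ∈ gk m ⌈δ * Λ⌉₊,
          ∫⁻ y in closedBall (zc p0.2 (1 / Λ) ⌈δ * Λ⌉₊ Q) ((√m + 1) / Λ),
            ENNReal.ofReal (h (t, y) ^ 2)
        = ∑ Q ∈ gk m ⌈δ * Λ⌉₊, ∫⁻ y,
          (closedBall (zc p0.2 (1 / Λ) ⌈δ * Λ⌉₊ Q) ((√m + 1) / Λ)).indicator
            (fun _ => (1 : ℝ≥0∞)) y * ENNReal.ofReal (h (t, y) ^ 2) := by
          refine Finset.sum_congr rfl fun Q _ => ?_
          rw [← lintegral_indicator measurableSet_closedBall]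
          refine lintegral_congr fun y => ?_
          by_cases hy : y ∈ closedBall (zc p0.2 (1 / Λ) ⌈δ * Λ⌉₊ Q) ((√m + 1) / Λ)
          · rw [indicator_of_mem hy, indicator_of_mem hy, one_mul]
          · rw [indicator_of_notMem hy, indicator_of_notMem hy, zero_mul]
      _ = ∫⁻ y, (∑ Q ∈ gk m ⌈δ * Λ⌉₊,
          (closedBall (zc p0.2 (1 / Λ) ⌈δ * Λ⌉₊ Q) ((√m + 1) / Λ)).indicator
            (fun _ => (1 : ℝ≥0∞)) y) * ENNReal.ofReal (h (t, y) ^ 2) := by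
          rw [← lintegral_finsetSum]
          · refine lintegral_congr fun y => ?_
            rw [Finset.sum_mul]
          · intro Q _
            exact (measurable_const.indicator measurableSet_closedBall).mul (hht2 t)
      _ ≤ ∫⁻ y, (((2 * ⌈2 * (√m + 1)⌉₊ + 1) ^ m : ℕ) : ℝ≥0∞) * ENNReal.ofReal (h (t, y) ^ 2) := by
          refine lintegral_mono fun y => ?_
          simp only
          gcongr
          exact wb_overlap hΛ y
      _ = _ := lintegral_const_mul _ (hht2 t)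
  have h3 : ∀ Q, Measurable fun t => ENNReal.ofReal (wb p0 δ Λ h Q t ^ 2) := fun Q =>
    ((wb_meas ha Q).pow_const 2).ennreal_ofReal
  rw [← lintegral_finsetSum _ fun Q _ => h3 Q]
  calc ∫⁻ t, ∑ Q ∈ gk m ⌈δ * Λ⌉₊, ENNReal.ofReal (wb p0 δ Λ h Q t ^ 2)
      ≤ ∫⁻ t, ENNReal.ofReal (wv m * ((2 * ⌈2 * (√m + 1)⌉₊ + 1) ^ m : ℕ) * Λ ^ m) *
        ∫⁻ y, ENNReal.ofReal (h (t, y) ^ 2) := by
        refine lintegral_mono fun t => ?_
        calc ∑ Q ∈ gk m ⌈δ * Λ⌉₊, ENNReal.ofReal (wb p0 δ Λ h Q t ^ 2)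
            ≤ ∑ Q ∈ gk m ⌈δ * Λ⌉₊, ENNReal.ofReal (wv m * Λ ^ m) *
              ∫⁻ y in closedBall (zc p0.2 (1 / Λ) ⌈δ * Λ⌉₊ Q) ((√m + 1) / Λ),
                ENNReal.ofReal (h (t, y) ^ 2) := Finset.sum_le_sum fun Q _ => h1 Q t
          _ = ENNReal.ofReal (wv m * Λ ^ m) * ∑ Q ∈ gk m ⌈δ * Λ⌉₊,
              ∫⁻ y in closedBall (zc p0.2 (1 / Λ) ⌈δ * Λ⌉₊ Q) ((√m + 1) / Λ),
                ENNReal.ofReal (h (t, y) ^ 2) := by rw [Finset.mul_sum]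
          _ ≤ ENNReal.ofReal (wv m * Λ ^ m) *
              ((((2 * ⌈2 * (√m + 1)⌉₊ + 1) ^ m : ℕ) : ℝ≥0∞) *
                ∫⁻ y, ENNReal.ofReal (h (t, y) ^ 2)) := by
              gcongr
              exact h2 t
          _ = _ := by
              rw [← mul_assoc, ← ENNReal.ofReal_natCast, ← ENNReal.ofReal_mul (by positivity)]
              congr 2
              ring
    _ = _ := by
        rw [lintegral_const_mul' _ _ ENNReal.ofReal_ne_top, Measure.volume_eq_prod,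
          lintegral_prod _ hhm.aemeasurable]

/-- WIN: the windows of an amplitude. -/
theorem win (m : ℕ) (B : ℕ → ℝ) : ∃ (B' : ℕ → ℝ) (C' : ℝ), 0 ≤ C' ∧
    ∀ (p0 : ℝ × E m) (δ Λ : ℝ) (b : ℝ × E m → ℂ) (h : ℝ × E m → ℝ), 0 < δ → 1 ≤ Λ →
      Amp p0 δ B Λ b h → ∃ β : (Fin m → ℕ) → ℝ → ℝ, (∀ Q, Measurable (β Q)) ∧
      (∀ Q t, 0 ≤ β Q t) ∧ (∀ Q t, β Q t ≤ C') ∧
      (∀ Q t k z, ‖iteratedFDeriv ℝ k
        (fun z => ((chi2 p0.2 (1 / Λ) ⌈δ * Λ⌉₊ Q z : ℝ) : ℂ) * b (t, z)) z‖ ≤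
        β Q t * B' k * Λ ^ k) ∧
      ∑ Q ∈ gk m ⌈δ * Λ⌉₊, ∫⁻ t, ENNReal.ofReal (β Q t ^ 2) ≤
        ENNReal.ofReal (C' * Λ ^ m) * ∫⁻ p, ENNReal.ofReal (h p ^ 2) := by
  obtain ⟨Bc, hBc, -, hc⟩ := caps_bounds m
  have hv := wv_nonneg m
  have h1 : (1 : ℝ) ≤ ((2 * ⌈2 * (√m + 1)⌉₊ + 1) ^ m : ℕ) := by
    exact_mod_cast Nat.one_le_pow _ _ (by omega)
  refine ⟨fun k => ∑ i ∈ Finset.range (k + 1), (k.choose i : ℝ) * Bc i * |B (k - i)|,
    wv m * ((2 * ⌈2 * (√m + 1)⌉₊ + 1) ^ m : ℕ), by positivity, ?_⟩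
  intro p0 δ Λ b h _ hΛ ha
  have hΛ0 : 0 < Λ := by linarith
  refine ⟨wb p0 δ Λ h, wb_meas ha, wb_nonneg ha hΛ0, fun Q t => ?_, fun Q t k z => ?_, ?_⟩
  · exact (wb_le ha hΛ0 Q t).trans (le_mul_of_one_le_right hv h1)
  · exact wb_bound ha hΛ0 hBc hc Q t k z
  · exact wb_sum ha hΛ0

end Pool.Agent.LF2
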