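import Pool.Agent.LF2.CASE1a
import Pool.Agent.LF2.CASE1b
import Pool.Agent.LF2.KAKG
import Pool.Agent.LF2.WIN

/-!
[LEAF2] CASE 1.
-/

set_option autoImplicit false

namespace Pool.Agent.LF2

open MeasureTheory Set Metric Pool.Agent.MP_6cbfb8_an Pool.Agent.LF
open scoped ENNReal Real RealInnerProductSpace ContDiff

variable {m : ℕ} {X : ℝ × E m → E (m + 2)} {p0 : ℝ × E m} {δ c C : ℝ} {A : ℕ → ℝ}

/-- CASE 1 (`Λ ≤ √R`): windows, DOM, KAK. -/
theorem case1 (hm : 1 ≤ m) (hG : Geo X p0 δ c C A) (B : ℕ → ℝ) {ε : ℝ} (hε : 0 < ε) (N : ℕ) :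
    ∃ C' : ℝ, 0 ≤ C' ∧ ∀ (R Λ : ℝ) (b : ℝ × E m → ℂ) (h : ℝ × E m → ℝ), 1 ≤ R → 1 ≤ Λ →
      Λ ≤ √R → Amp p0 (δ / 2) B Λ b h →
      ∫⁻ ξ in An (m + 2) R, Sq X p0 (δ / 2) (1 / √R) b ξ ^ 2 ≤
        ENNReal.ofReal (C' * R ^ ε * (Λ / R) ^ m) * (∫⁻ p, ENNReal.ofReal (h p ^ 2)) +
        ENNReal.ofReal (C' * (1 / R) ^ N) := by
  classical
  have hδ := hG.hδ
  have hδ4 := hG.hδ1
  have hXc : Continuous X := hG.hX.continuous
  have hm1 : (1 : ℝ) ≤ √m := by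
    rw [Real.one_le_sqrt]
    exact_mod_cast hm
  obtain ⟨B', Cβ, hCβ, hwin⟩ := win m B
  obtain ⟨C1, hC1, hone⟩ := one_win hm hG (kakw hm hG) B' Cβ hCβ hε (N + m)
  obtain ⟨Cv, hCv, hvol⟩ := core_vol (m + 2)
  set Nw : ℕ := (2 * ⌈2 * (2 * √m)⌉₊ + 1) ^ m with hNw
  set B0 : ℝ := |B 0| * volume.real (closedBall (0 : E m) 1) with hB0
  have hB00 : 0 ≤ B0 := by positivity
  set S : ℝ := B0 * volume.real (closedBall p0 (δ / 2)) with hS
  set R1 : ℝ := (4 * √m / δ) ^ 2 with hR1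
  have hR10 : 0 ≤ R1 := by positivity
  set C3 : ℝ := ((4 * √m + 3) ^ (m + 1) * S ^ 2) ^ 2 * (Cv * R1 ^ (m + 2)) with hC3
  have hC30 : 0 ≤ C3 := by positivity
  refine ⟨(Nw : ℝ) ^ 2 * 4 ^ m * C1 * Cβ + (Nw : ℝ) ^ 2 * 16 ^ m * C1 + C3 * R1 ^ N,
    by positivity, ?_⟩
  intro R Λ b h hR hΛ hΛR ha
  have hR0 : 0 < R := by linarith
  have hs : 0 < √R := Real.sqrt_pos.2 hR0
  have hsR : √R * √R = R := Real.mul_self_sqrt hR0.le
  have hΛ0 : 0 < Λ := by linarith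
  have hbB : ∀ p, ‖b p‖ ≤ B0 := fun p => amp_bdd hΛ0 ha p
  have hbs : ∀ p, δ / 2 < ‖p - p0‖ → b p = 0 := fun p hp => ha.supp p hp.le
  by_cases hr : 1 / √R ≤ δ / (4 * √m)
  swap
  · -- small `R`
    rw [not_le] at hr
    have h1 : √R < 4 * √m / δ := by
      rw [lt_div_iff₀ hδ]
      rw [div_lt_div_iff₀ (by positivity) hs] at hr
      linarith
    have h2 : R ≤ R1 := by
      rw [hR1, ← hsR, sq]
      gcongr
    have h3 : ((2 * ⌈δ / 2 / (1 / √R)⌉₊ + 1 : ℕ) : ℝ) ≤ 4 * √m + 3 := by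
      have h4 : (⌈δ / 2 / (1 / √R)⌉₊ : ℝ) < δ / 2 / (1 / √R) + 1 :=
        Nat.ceil_lt_add_one (by positivity)
      have h5 : δ / 2 / (1 / √R) ≤ 2 * √m := by
        rw [div_div_eq_mul_div, div_one]
        rw [lt_div_iff₀ hδ] at h1
        linarith
      push_cast
      linarith
    have h4 : ∀ ξ, Sq X p0 (δ / 2) (1 / √R) b ξ ≤
        ENNReal.ofReal ((4 * √m + 3) ^ (m + 1) * S ^ 2) := by
      intro ξ
      refine (sq_triv ha.meas hbB hbs ξ).trans ?_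
      rw [← ENNReal.ofReal_natCast, ← ENNReal.ofReal_mul (Nat.cast_nonneg _)]
      refine ENNReal.ofReal_le_ofReal ?_
      rw [Nat.cast_pow]
      gcongr
    calc ∫⁻ ξ in An (m + 2) R, Sq X p0 (δ / 2) (1 / √R) b ξ ^ 2 ≤
        ∫⁻ _ in An (m + 2) R, ENNReal.ofReal ((4 * √m + 3) ^ (m + 1) * S ^ 2) ^ 2 :=
          lintegral_mono fun ξ => by
            simp only
            gcongr
            exact h4 ξ
      _ = ENNReal.ofReal ((4 * √m + 3) ^ (m + 1) * S ^ 2) ^ 2 * volume (An (m + 2) R) := by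
          rw [setLIntegral_const]
      _ ≤ ENNReal.ofReal ((4 * √m + 3) ^ (m + 1) * S ^ 2) ^ 2 *
          ENNReal.ofReal (Cv * R ^ (m + 2)) := by
          gcongr
          exact hvol R hR
      _ = ENNReal.ofReal (((4 * √m + 3) ^ (m + 1) * S ^ 2) ^ 2 * (Cv * R ^ (m + 2))) := by
          rw [← ENNReal.ofReal_pow (by positivity), ← ENNReal.ofReal_mul (by positivity)]
      _ ≤ ENNReal.ofReal (C3 * R1 ^ N * (1 / R) ^ N) := by
          refine ENNReal.ofReal_le_ofReal ?_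
          have h5 : (1 : ℝ) ≤ R1 ^ N * (1 / R) ^ N := by
            rw [← mul_pow]
            refine one_le_pow₀ ?_
            rw [mul_one_div, one_le_div hR0]
            exact h2
          calc ((4 * √m + 3) ^ (m + 1) * S ^ 2) ^ 2 * (Cv * R ^ (m + 2)) ≤ C3 * 1 := by
                rw [mul_one, hC3]
                gcongr
            _ ≤ C3 * (R1 ^ N * (1 / R) ^ N) := by gcongr
            _ = _ := by ring
      _ ≤ _ := by
          refine le_add_left (ENNReal.ofReal_le_ofReal ?_)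
          have h5 : (0 : ℝ) ≤ (1 / R) ^ N := by positivity
          have h6 : 0 ≤ (Nw : ℝ) ^ 2 * 4 ^ m * C1 * Cβ + (Nw : ℝ) ^ 2 * 16 ^ m * C1 := by
            positivity
          nlinarith
  -- large `R`
  obtain ⟨β, hβm, hβ0, hβC, hβb, hβs⟩ := hwin p0 (δ / 2) Λ b h (by positivity) hΛ ha
  have hΛi : 0 < 1 / Λ := by positivity
  set M1 : ℕ := ⌈δ / 2 * Λ⌉₊ with hM1
  set w : (Fin m → ℕ) → ℝ × E m → ℂ := fun Q => wq p0 Λ M1 b Q with hw
  have hwo : ∀ Q, ∫⁻ ξ in An (m + 2) R, Sq X p0 (δ / 2) (1 / √R) (w Q) ξ ^ 2 ≤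
      ENNReal.ofReal (C1 * R ^ ε * (1 / R) ^ m * (1 / Λ) ^ m) *
        (∫⁻ t, ENNReal.ofReal (β Q t ^ 2)) + ENNReal.ofReal (C1 * (1 / R) ^ (N + m)) := by
    intro Q
    refine hone R Λ (w Q) (zc p0.2 (1 / Λ) M1 Q) (β Q) hR hr hΛ hΛR (wq_meas Λ M1 ha.meas Q)
      (hβm Q) (hβ0 Q) (hβC Q) ?_ ?_ ?_ ?_
    · intro t
      simp only [hw, wq]
      exact (Complex.ofRealCLM.contDiff.comp (contDiff_chi2 p0.2 (1 / Λ) M1 Q)).mul (ha.smooth t)
    · intro k t z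
      exact hβb Q t k z
    · intro p hp
      simp only [hw, wq]
      rw [hbs p hp, mul_zero]
    · intro t z hz
      simp only [hw, wq]
      rw [chi2_zero hΛi (by rwa [mul_one_div]), Complex.ofReal_zero, zero_mul]
  have hSm : ∀ Q, Measurable fun ξ => Sq X p0 (δ / 2) (1 / √R) (w Q) ξ := by
    intro Q
    refine sq_meas hXc (wq_meas Λ M1 ha.meas Q) (B0 := B0)
      (fun p => (wq_norm_le Λ M1 b Q p).trans (hbB p)) ?_
    intro p hp
    simp only [wq]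
    rw [hbs p hp, mul_zero]
  have hcard : ((gk m M1).card : ℝ) ≤ (4 * Λ) ^ m := by
    have h1 : (M1 : ℝ) < δ / 2 * Λ + 1 := Nat.ceil_lt_add_one (by positivity)
    rw [card_gk]
    push_cast
    refine pow_le_pow_left₀ (by positivity) ?_ m
    have h2 : δ / 2 * Λ ≤ 1 / 8 * Λ := by
      have : δ / 2 ≤ 1 / 8 := by linarith
      gcongr
    linarith
  have hrΛ : 1 / √R ≤ 1 / Λ := one_div_le_one_div_of_le hΛ0 hΛR
  set J : ℝ≥0∞ := ∫⁻ p, ENNReal.ofReal (h p ^ 2) with hJ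
  set a1 : ℝ := C1 * R ^ ε * (1 / R) ^ m * (1 / Λ) ^ m with ha1
  have hRε : 0 ≤ R ^ ε := Real.rpow_nonneg hR0.le _
  have ha10 : 0 ≤ a1 := by positivity
  set a2 : ℝ := C1 * (1 / R) ^ (N + m) with ha2
  have ha20 : 0 ≤ a2 := by positivity
  set n1 : ℝ := ((gk m M1).card : ℝ) with hn1
  have hn10 : 0 ≤ n1 := Nat.cast_nonneg _
  calc ∫⁻ ξ in An (m + 2) R, Sq X p0 (δ / 2) (1 / √R) b ξ ^ 2 ≤
      ∫⁻ ξ in An (m + 2) R, ((Nw : ℝ≥0∞) ^ 2 * (gk m M1).card) *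
        ∑ Q ∈ gk m M1, Sq X p0 (δ / 2) (1 / √R) (w Q) ξ ^ 2 := by
        refine lintegral_mono fun ξ => ?_
        simp only
        have h1 := sq_windows (δ := δ / 2) hXc ha.meas (by positivity) hΛ0 hrΛ hbB hbs ξ
        calc Sq X p0 (δ / 2) (1 / √R) b ξ ^ 2 ≤
            ((Nw : ℝ≥0∞) * ∑ Q ∈ gk m M1, Sq X p0 (δ / 2) (1 / √R) (w Q) ξ) ^ 2 := by
              gcongr
          _ = (Nw : ℝ≥0∞) ^ 2 * (∑ Q ∈ gk m M1, Sq X p0 (δ / 2) (1 / √R) (w Q) ξ) ^ 2 := by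
              rw [mul_pow]
          _ ≤ (Nw : ℝ≥0∞) ^ 2 * ((gk m M1).card *
              ∑ Q ∈ gk m M1, Sq X p0 (δ / 2) (1 / √R) (w Q) ξ ^ 2) := by
              gcongr
              exact c1_sq_sum _ _
          _ = _ := by rw [mul_assoc]
    _ = ((Nw : ℝ≥0∞) ^ 2 * (gk m M1).card) *
        ∑ Q ∈ gk m M1, ∫⁻ ξ in An (m + 2) R, Sq X p0 (δ / 2) (1 / √R) (w Q) ξ ^ 2 := by
        have h1 : (Nw : ℝ≥0∞) ^ 2 * (gk m M1).card ≠ ⊤ :=
          ENNReal.mul_ne_top (ENNReal.pow_ne_top (ENNReal.natCast_ne_top _))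
            (ENNReal.natCast_ne_top _)
        rw [lintegral_const_mul' _ _ h1, lintegral_finsetSum _ fun Q _ => (hSm Q).pow_const 2]
    _ ≤ ((Nw : ℝ≥0∞) ^ 2 * (gk m M1).card) *
        ∑ Q ∈ gk m M1, (ENNReal.ofReal a1 * (∫⁻ t, ENNReal.ofReal (β Q t ^ 2)) +
          ENNReal.ofReal a2) := by
        gcongr with Q hQ
        exact hwo Q
    _ = ((Nw : ℝ≥0∞) ^ 2 * (gk m M1).card) *
        (ENNReal.ofReal a1 * ∑ Q ∈ gk m M1, (∫⁻ t, ENNReal.ofReal (β Q t ^ 2)) +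
          (gk m M1).card * ENNReal.ofReal a2) := by
        rw [Finset.sum_add_distrib, Finset.sum_const, nsmul_eq_mul, ← Finset.mul_sum]
    _ ≤ ((Nw : ℝ≥0∞) ^ 2 * (gk m M1).card) *
        (ENNReal.ofReal a1 * (ENNReal.ofReal (Cβ * Λ ^ m) * J) +
          (gk m M1).card * ENNReal.ofReal a2) := by
        gcongr
    _ = ENNReal.ofReal ((Nw : ℝ) ^ 2 * n1 * a1 * (Cβ * Λ ^ m)) * J +
        ENNReal.ofReal ((Nw : ℝ) ^ 2 * n1 * (n1 * a2)) := by
        have e1 : ((gk m M1).card : ℝ≥0∞) = ENNReal.ofReal n1 := by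
          rw [hn1, ENNReal.ofReal_natCast]
        have e2 : (Nw : ℝ≥0∞) = ENNReal.ofReal (Nw : ℝ) := by rw [ENNReal.ofReal_natCast]
        rw [e1, e2, ← ENNReal.ofReal_pow (by positivity), ← ENNReal.ofReal_mul (by positivity),
          mul_add, ← mul_assoc (ENNReal.ofReal a1), ← ENNReal.ofReal_mul ha10, ← mul_assoc,
          ← ENNReal.ofReal_mul (by positivity), ← ENNReal.ofReal_mul hn10,
          ← ENNReal.ofReal_mul (by positivity)]
        congr 3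
        ring
    _ ≤ _ := by
        have hΛm : Λ ^ m * (1 / Λ) ^ m = 1 := by
          rw [← mul_pow, mul_one_div_cancel hΛ0.ne', one_pow]
        have hRN : 0 ≤ (1 / R) ^ N := by positivity
        refine add_le_add (mul_le_mul' (ENNReal.ofReal_le_ofReal ?_) le_rfl)
          (ENNReal.ofReal_le_ofReal ?_)
        · calc (Nw : ℝ) ^ 2 * n1 * a1 * (Cβ * Λ ^ m) ≤
              (Nw : ℝ) ^ 2 * (4 * Λ) ^ m * a1 * (Cβ * Λ ^ m) := by gcongr
            _ = (Nw : ℝ) ^ 2 * 4 ^ m * C1 * Cβ * R ^ ε * (Λ ^ m * (1 / R) ^ m) *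
                (Λ ^ m * (1 / Λ) ^ m) := by
                rw [ha1, mul_pow 4 Λ m]
                ring
            _ = (Nw : ℝ) ^ 2 * 4 ^ m * C1 * Cβ * R ^ ε * (Λ / R) ^ m := by
                rw [hΛm, mul_one, ← mul_pow, mul_one_div]
            _ ≤ _ := by
                gcongr
                have : 0 ≤ (Nw : ℝ) ^ 2 * 16 ^ m * C1 + C3 * R1 ^ N := by positivity
                linarith
        · calc (Nw : ℝ) ^ 2 * n1 * (n1 * a2) ≤
              (Nw : ℝ) ^ 2 * (4 * Λ) ^ m * ((4 * Λ) ^ m * a2) := by gcongr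
            _ = (Nw : ℝ) ^ 2 * 16 ^ m * C1 * ((Λ * Λ) ^ m * (1 / R) ^ (N + m)) := by
                rw [ha2, mul_pow 4 Λ m, mul_pow Λ Λ m, show (16 : ℝ) = 4 * 4 by norm_num,
                  mul_pow (4 : ℝ) 4 m]
                ring
            _ ≤ (Nw : ℝ) ^ 2 * 16 ^ m * C1 * (R ^ m * (1 / R) ^ (N + m)) := by
                gcongr
                calc Λ * Λ ≤ √R * √R := by gcongr
                  _ = R := hsR
            _ = (Nw : ℝ) ^ 2 * 16 ^ m * C1 * (1 / R) ^ N := by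
                have h1 : R ^ m * (1 / R) ^ (N + m) = (1 / R) ^ N := by
                  rw [pow_add, mul_comm, mul_assoc, ← mul_pow, one_div_mul_cancel hR0.ne',
                    one_pow, mul_one]
                rw [h1]
            _ ≤ _ := by
                gcongr
                have h2 : 0 ≤ (Nw : ℝ) ^ 2 * 4 ^ m * C1 * Cβ := by positivity
                have h3 : 0 ≤ C3 * R1 ^ N := by positivity
                linarith

end Pool.Agent.LF2
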