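import Pool.Agent.LF2.Df
import Pool.Agent.LF2.COREBW
import Pool.Agent.LEAF.DOMW
import Pool.Agent.LF.CORE2

/-!
[LEAF2] CASE 1: one window.
-/

set_option autoImplicit false

namespace Pool.Agent.LF2

open MeasureTheory Set Metric Pool.Agent.MP_6cbfb8_an Pool.Agent.LF
open scoped ENNReal Real RealInnerProductSpace ContDiff

theorem ow_num {m N N1 : ℕ} {ε σ R K : ℝ} (hε : 0 < ε) (hσ : 0 < σ)
    (hσε : σ * (2 * m + 1) ≤ ε / 2) (hN : 3 * (m : ℝ) + 4 + N ≤ σ * N1) (hR : 1 ≤ R)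
    (hK : K = R ^ σ) {Cκ Ce Cv n0 e v : ℝ}
    (_hCκ : 0 ≤ Cκ) (_hCe : 0 ≤ Ce) (hn00 : 0 ≤ n0)
    (he0 : 0 ≤ e) (hv0 : 0 ≤ v) (hn0 : n0 ≤ Cκ * R ^ (m + 1)) (he : e ≤ Ce * (K ^ N1)⁻¹)
    (hv : v ≤ Cv * R ^ (m + 2)) :
    K ^ (2 * m + 1) * (1 + Real.log R) ≤ (1 + 2 / ε) * R ^ ε ∧
      2 * (n0 * e ^ 2) ^ 2 * v ≤ 2 * Cκ ^ 2 * Ce ^ 4 * Cv * (1 / R) ^ N := by
  have hR0 : 0 < R := by linarith
  have hK1 : 1 ≤ K := by rw [hK]; exact Real.one_le_rpow hR hσ.le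
  have hK0 : 0 < K := by linarith
  have hRε1 : (1 : ℝ) ≤ R ^ (ε / 2) := Real.one_le_rpow hR (by positivity)
  have hlog0 : 0 ≤ Real.log R := Real.log_nonneg hR
  have hlog : 1 + Real.log R ≤ (1 + 2 / ε) * R ^ (ε / 2) := by
    have h1 := Real.log_le_rpow_div hR0.le (ε := ε / 2) (by positivity)
    have h2 : R ^ (ε / 2) / (ε / 2) = 2 / ε * R ^ (ε / 2) := by
      field_simp
    rw [h2] at h1
    nlinarith
  have hK4 : K ^ (2 * m + 1) ≤ R ^ (ε / 2) := by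
    rw [hK, ← Real.rpow_natCast (R ^ σ), ← Real.rpow_mul hR0.le]
    refine Real.rpow_le_rpow_of_exponent_le hR ?_
    push_cast
    exact hσε
  have hKN : (K ^ N1)⁻¹ ≤ (R ^ (3 * m + 4 + N))⁻¹ := by
    refine inv_anti₀ (by positivity) ?_
    rw [hK, ← Real.rpow_natCast (R ^ σ), ← Real.rpow_mul hR0.le, ← Real.rpow_natCast R]
    refine Real.rpow_le_rpow_of_exponent_le hR ?_
    push_cast
    exact hN
  have hKN0 : 0 ≤ (K ^ N1)⁻¹ := by positivity
  have hKN1 : (K ^ N1)⁻¹ ≤ 1 := inv_le_one_of_one_le₀ (one_le_pow₀ hK1)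
  refine ⟨?_, ?_⟩
  · calc K ^ (2 * m + 1) * (1 + Real.log R) ≤ R ^ (ε / 2) * ((1 + 2 / ε) * R ^ (ε / 2)) := by
          gcongr
      _ = (1 + 2 / ε) * (R ^ (ε / 2) * R ^ (ε / 2)) := by ring
      _ = _ := by rw [← Real.rpow_add hR0, add_halves]
  · have he4 : e ^ 4 ≤ Ce ^ 4 * (R ^ (3 * m + 4 + N))⁻¹ := by
      calc e ^ 4 ≤ (Ce * (K ^ N1)⁻¹) ^ 4 := by gcongr
        _ = Ce ^ 4 * ((K ^ N1)⁻¹ * (K ^ N1)⁻¹ * (K ^ N1)⁻¹ * (K ^ N1)⁻¹) := by ring
        _ ≤ Ce ^ 4 * (1 * 1 * 1 * (R ^ (3 * m + 4 + N))⁻¹) := by gcongr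
        _ = _ := by ring
    have hpow : R ^ (3 * m + 4) * (R ^ (3 * m + 4 + N))⁻¹ = (1 / R) ^ N := by
      rw [one_div, inv_pow, pow_add R (3 * m + 4) N]
      field_simp
    calc 2 * (n0 * e ^ 2) ^ 2 * v = 2 * n0 ^ 2 * e ^ 4 * v := by ring
      _ ≤ 2 * (Cκ * R ^ (m + 1)) ^ 2 * (Ce ^ 4 * (R ^ (3 * m + 4 + N))⁻¹) *
          (Cv * R ^ (m + 2)) := by gcongr
      _ = 2 * Cκ ^ 2 * Ce ^ 4 * Cv * (R ^ (3 * m + 4) * (R ^ (3 * m + 4 + N))⁻¹) := by ring
      _ = _ := by rw [hpow]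

/-- The intervals of the grid overlap at most five times. -/
theorem ow_overlap {t0 r : ℝ} (hr : 0 < r) (M : ℕ) {f : ℝ → ℝ≥0∞} (hf : Measurable f) :
    ∑ i : ↥(gi M), ∫⁻ t in closedBall (tc t0 r M i.1) r, f t ≤ 5 * ∫⁻ t, f t := by
  classical
  have h := corb_overlap (κ := ↥(gi M)) (ι := Unit) (volume : Measure ℝ) (fun _ => ())
    (fun i => closedBall (tc t0 r M i.1) r) univ (fun _ => f) 5
    (fun _ => measurableSet_closedBall) (fun _ => subset_univ _) MeasurableSet.univ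
    (fun _ => hf) ?_
  · simpa using h
  · intro _ z
    set Z : Finset ℕ := (Set.toFinset {i : ↥(gi M) | () = () ∧
      z ∈ closedBall (tc t0 r M i.1) r}).image Subtype.val with hZ
    have h2 : ({i : ↥(gi M) | () = () ∧ z ∈ closedBall (tc t0 r M i.1) r} : Set _).ncard =
        Z.card := by
      rw [Set.ncard_eq_toFinset_card', hZ, Finset.card_image_of_injective _
        Subtype.val_injective]
    refine (le_of_eq h2).trans ?_
    have h3 := card_tc hr t0 M z r Z ?_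
    · have h4 : r / r = 1 := div_self hr.ne'
      rw [h4] at h3
      have h5 : ⌈(2 : ℝ) * 1⌉₊ = 2 := by
        rw [mul_one]
        exact_mod_cast Nat.ceil_natCast (R := ℝ) 2
      rw [h5] at h3
      exact h3
    · intro k hk
      rw [hZ, Finset.mem_image] at hk
      obtain ⟨a, ha, rfl⟩ := hk
      have := (Set.mem_toFinset.1 ha).2
      rwa [mem_closedBall, Real.dist_eq] at this

variable {m : ℕ} {X : ℝ × E m → E (m + 2)} {p0 : ℝ × E m} {δ c C : ℝ} {A : ℕ → ℝ}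

/-- CASE 1 for one window. -/
theorem one_win (hm : 1 ≤ m) (hG : Geo X p0 δ c C A)
    (hkak0 : ∃ Ck : ℝ, 0 < Ck ∧ ∀ R, 1 ≤ R →
      ∀ Z : Set (E m), MeasurableSet Z → Z ⊆ closedBall p0.2 δ →
      ∀ (ι : Type) [Fintype ι] (t : ι → ℝ) (g : ι → ℝ → ℝ≥0∞) (Λ : ℝ), √R ≤ Λ →
        (∀ i, |t i - p0.1| ≤ δ) → (∀ i j, i ≠ j → 1 / √R ≤ |t i - t j|) →
        (∀ i, Measurable (g i)) → (∀ i, ∫⁻ τ, g i τ ≤ ENNReal.ofReal (1 / √R)) →
        (∀ i τ, g i τ ≤ ENNReal.ofReal (1 / R)) →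
        ∫⁻ ξ in An (m + 2) R, (∑ i, ∫⁻ z in Z,
            ({z | ‖Vw X ξ (t i, z)‖ ≤ Λ}.indicator fun z => g i ⟪ξ, Xt X (t i, z)⟫) z) ^ 2 ≤
          ENNReal.ofReal (Ck * (Λ / √R) ^ (2 * m + 1) * (1 + Real.log R)) *
            (volume Z * ∑ i, ∫⁻ τ, g i τ))
    (B : ℕ → ℝ) (Mβ : ℝ) (hMβ : 0 ≤ Mβ) {ε : ℝ} (hε : 0 < ε) (N : ℕ) :
    ∃ C' : ℝ, 0 ≤ C' ∧ ∀ (R Λ : ℝ) (w : ℝ × E m → ℂ) (zQ : E m) (β : ℝ → ℝ), 1 ≤ R →
      1 / √R ≤ δ / (4 * √m) → 1 ≤ Λ → Λ ≤ √R → Measurable w → Measurable β →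
      (∀ t, 0 ≤ β t) → (∀ t, β t ≤ Mβ) → (∀ t, ContDiff ℝ ∞ fun z => w (t, z)) →
      (∀ k t z, ‖iteratedFDeriv ℝ k (fun z => w (t, z)) z‖ ≤ β t * B k * Λ ^ k) →
      (∀ p, δ / 2 < ‖p - p0‖ → w p = 0) → (∀ t z, √m / Λ < ‖z - zQ‖ → w (t, z) = 0) →
      ∫⁻ ξ in An (m + 2) R, Sq X p0 (δ / 2) (1 / √R) w ξ ^ 2 ≤
        ENNReal.ofReal (C' * R ^ ε * (1 / R) ^ m * (1 / Λ) ^ m) *
          (∫⁻ t, ENNReal.ofReal (β t ^ 2)) + ENNReal.ofReal (C' * (1 / R) ^ N) := by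
  classical
  obtain ⟨Ck, hCk, hkak⟩ := hkak0
  have hδ := hG.hδ
  have hX := hG.hX
  have hA := hG.hA
  -- constants of the chart
  have hA0 : ∀ j, 0 ≤ A j := fun j => (norm_nonneg _).trans (hA j p0)
  have hXc : Continuous X := hX.continuous
  set ρ : ℝ := √m with hρ
  have hρ1 : 1 ≤ ρ := by
    rw [hρ, Real.one_le_sqrt]
    exact_mod_cast hm
  set δ1 : ℝ := δ / 2 with hδ1
  have hδ10 : 0 < δ1 := by positivity
  have hV2 : ∀ (ξ : E (m + 2)) (p p' : ℝ × E m), ‖Vw X ξ p - Vw X ξ p'‖ ≤ A 2 * ‖ξ‖ * ‖p - p'‖ :=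
    fun ξ p p' => lf_Vw_lip (hX.of_le (WithTop.coe_le_coe.2 (le_top : (2 : ℕ∞) ≤ ⊤))) (hA 2) ξ p p'
  have hXt : ∀ t : ℝ, Continuous fun z : E m => Xt X (t, z) := by
    intro t
    have h2 : Continuous (fderiv ℝ X) := hX.continuous_fderiv (by simp)
    unfold Xt
    have h3 : Continuous fun z : E m => fderiv ℝ X (t, z) := h2.comp (by fun_prop)
    exact h3.clm_apply continuous_const
  -- constants of the rows
  obtain ⟨Cw, hCw, hdomw⟩ := Pool.Agent.LEAF.dom_caps_win (m + 2) m B (A 2) ρ (hA0 2)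
  set Cd : ℝ := Cw * (1 + 4 * Mβ ^ 2) with hCd
  have hCd0 : 0 < Cd := by positivity
  have hCd1 : Cw ≤ Cd := by
    rw [hCd]
    have : 0 ≤ Cw * (4 * Mβ ^ 2) := by positivity
    linarith
  set Mo : ℕ := (2 * ⌈2 * ρ⌉₊ + 1) ^ m with hMo
  obtain ⟨Db, hDb, hcoreB⟩ := coreBw m (m + 2) Mo (A 2) Cd ρ Ck (hA0 2) hCd0.le (by positivity)
    hCk.le
  set σ : ℝ := ε / (2 * (2 * m + 1)) with hσd
  have hσ : 0 < σ := by positivity
  have hσε : σ * (2 * m + 1) ≤ ε / 2 := by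
    rw [hσd]
    apply le_of_eq
    field_simp
  set N1 : ℕ := ⌈(3 * (m : ℝ) + 4 + N) / σ⌉₊ with hNd
  have hN : 3 * (m : ℝ) + 4 + N ≤ σ * N1 := by
    have h2 : (3 * (m : ℝ) + 4 + N) / σ ≤ N1 := Nat.le_ceil _
    rw [div_le_iff₀ hσ] at h2
    linarith
  obtain ⟨Bd, hBd, hbcs⟩ := bcs_bound (m := m) N1 (fun k => Mβ * |B k|)
  set AN : ℝ := ∑ j ∈ Finset.range (N1 + 3), A j with hAN
  have hAN1 : ∀ j ≤ N1 + 2, ∀ p, ‖iteratedFDeriv ℝ j X p‖ ≤ AN := fun j hj p =>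
    (hA j p).trans (Finset.single_le_sum (fun j _ => hA0 j) (Finset.mem_range.2 (by omega)))
  obtain ⟨Cn, hCn, hnsp⟩ := nsp m (m + 2) N1 ρ AN 4 hρ1
  obtain ⟨Cv, hCv, hvol⟩ := core_vol (m + 2)
  set vB : ℝ := (volume (ball (0 : E m) 1)).toReal with hvB
  have hvB1 : volume (ball (0 : E m) 1) = ENNReal.ofReal vB :=
    (ENNReal.ofReal_toReal measure_ball_lt_top.ne).symm
  refine ⟨Db * (1 + 2 / ε) * (ρ ^ m * vB) * (5 * Cw) +
    2 * ((5 * δ1) ^ (m + 1)) ^ 2 * (Cn * Bd) ^ 4 * Cv, by positivity, ?_⟩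
  intro R Λ w zQ β hR hrδ hΛ hΛR hwm hβm hβ0 hβM hws hwB hw0 hwQ
  have hR0 : 0 < R := by linarith
  have hs : 0 < √R := Real.sqrt_pos.2 hR0
  have hs1 : 1 ≤ √R := Real.one_le_sqrt.2 hR
  have hsR : √R * √R = R := Real.mul_self_sqrt hR0.le
  set r : ℝ := 1 / √R with hr
  have hr0 : 0 < r := by positivity
  have hr1 : r ≤ 1 := by
    rw [hr, div_le_one hs]
    exact hs1
  have hρr : 2 * (ρ * r) ≤ δ1 := by
    rw [le_div_iff₀ (by positivity)] at hrδ
    rw [hδ1]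
    linarith
  have hrδ1 : r ≤ δ1 := by
    have : r ≤ ρ * r := le_mul_of_one_le_left hr0.le hρ1
    have h2 : 0 ≤ ρ * r := by positivity
    linarith
  set M : ℕ := ⌈δ1 / r⌉₊ with hM
  set K : ℝ := R ^ σ with hK
  have hK1 : 1 ≤ K := Real.one_le_rpow hR hσ.le
  have hK0 : 0 < K := by linarith
  set Λ0 : ℝ := K * √R with hΛ0
  have hΛ1 : √R ≤ Λ0 := le_mul_of_one_le_left hs.le hK1
  -- the density
  have hwB' : ∀ k t z, ‖iteratedFDeriv ℝ k (fun z => w (t, z)) z‖ ≤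
      Mβ * |B k| * (1 / r) ^ k := by
    intro k t z
    refine (hwB k t z).trans ?_
    have h2 : 1 / r = √R := by rw [hr, one_div_one_div]
    rw [h2]
    calc β t * B k * Λ ^ k ≤ β t * |B k| * Λ ^ k := by
          have := hβ0 t
          gcongr
          exact le_abs_self _
      _ ≤ Mβ * |B k| * √R ^ k := by
          have := hβM t
          gcongr
  have hwB0 : ∀ p, ‖w p‖ ≤ Mβ * |B 0| := by
    intro p
    have h2 := hwB' 0 p.1 p.2
    rwa [norm_iteratedFDeriv_zero, pow_zero, mul_one] at h2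
  -- the pieces
  set κ := ↥(gi M ×ˢ gk m M) with hκ
  set ι := ↥(gi M) with hι
  set pr : κ → ι := fun a => ⟨a.1.1, (Finset.mem_product.1 a.2).1⟩ with hpr
  set pc : κ → ℝ × E m := fun a => pcs p0 r M a.1 with hpc
  set bc : κ → ℝ × E m → ℂ := fun a => bcs p0 r M w a.1 with hbc
  set f : κ → E (m + 2) → ℂ := fun a => Tb X (bc a) with hf
  have hsupp : ∀ a, ∀ p, bc a p ≠ 0 → ‖p - pc a‖ ≤ ρ / √R ∧ w p ≠ 0 := by
    intro a p hp
    obtain ⟨h2, h3⟩ := bcs_supp hm hr0 hp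
    refine ⟨?_, h3⟩
    rw [div_eq_mul_one_div]
    exact h2
  have hwδ : ∀ p, w p ≠ 0 → ‖p - p0‖ ≤ δ1 := by
    intro p hp
    by_contra h2
    exact hp (hw0 p (not_le.1 h2))
  set e : ℝ := Cn * Bd * (K ^ N1)⁻¹ with he
  have he0 : 0 ≤ e := by positivity
  have hNSP : ∀ a ξ, R / 2 ≤ ‖ξ‖ → ‖ξ‖ ≤ 4 * R → Λ0 ≤ ‖Vw X ξ (pc a)‖ → ‖f a ξ‖ ≤ e := by
    intro a ξ _ hξ hV
    have h2 := hnsp X hX hAN1 (bc a) (pc a).1 (pc a).2 R Bd hR hBd
      (fun t => (bcs_smooth p0 r M hws a.1 t).of_le (by exact_mod_cast le_top)) ?_ ?_ ?_ (-1) ξ ?_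
    · have e1 : f a ξ = ∫ p, bc a p *
          Complex.exp ((((-1) * ⟪ξ, X p⟫ : ℝ) : ℂ) * Complex.I) := by
        simp only [hf, Tb, neg_one_mul]
      rw [e1]
      refine h2.trans ?_
      have h3 : K ≤ |(-1 : ℝ)| * ‖Vw X ξ ((pc a).1, (pc a).2)‖ / √R := by
        rw [abs_neg, abs_one, one_mul, le_div_iff₀ hs]
        exact hV
      have h4 : 1 / (1 + |(-1 : ℝ)| * ‖Vw X ξ ((pc a).1, (pc a).2)‖ / √R) ≤ 1 / K := by
        refine one_div_le_one_div_of_le hK0 ?_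
        linarith
      have h5 : 0 ≤ 1 / (1 + |(-1 : ℝ)| * ‖Vw X ξ ((pc a).1, (pc a).2)‖ / √R) := by positivity
      calc Cn * Bd * (1 / √R) ^ (m + 1) *
            (1 / (1 + |(-1 : ℝ)| * ‖Vw X ξ ((pc a).1, (pc a).2)‖ / √R)) ^ N1 ≤
            Cn * Bd * 1 * (1 / K) ^ N1 := by
            gcongr
            exact pow_le_one₀ (by positivity) hr1
        _ = e := by rw [he, one_div, inv_pow, mul_one]
    · intro t z ht
      by_contra h3
      obtain ⟨h4, -⟩ := hsupp a (t, z) h3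
      rw [Prod.norm_def] at h4
      exact absurd ((le_max_left _ _).trans h4) (not_le.2 ht)
    · intro t z hz
      by_contra h3
      obtain ⟨h4, -⟩ := hsupp a (t, z) h3
      rw [Prod.norm_def] at h4
      exact absurd ((le_max_right _ _).trans h4) (not_le.2 hz)
    · intro j hj t z
      have h3 := hbcs p0 r M w a.1 hr0 hr1 hws (fun t k z => hwB' k t z) j hj t z
      rwa [hr, one_div_one_div] at h3
    · rw [abs_neg, abs_one, one_mul]
      exact hξ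
  -- the window
  set Z : Set (E m) := closedBall zQ (ρ / Λ) ∩ closedBall p0.2 δ with hZ
  have hZm : MeasurableSet Z := measurableSet_closedBall.inter measurableSet_closedBall
  have hZv : volume Z ≤ ENNReal.ofReal (ρ ^ m * vB * (1 / Λ) ^ m) := by
    calc volume Z ≤ volume (closedBall zQ (ρ / Λ)) := measure_mono inter_subset_left
      _ = ENNReal.ofReal ((ρ / Λ) ^ m) * volume (ball (0 : E m) 1) := by
          rw [Measure.addHaar_closedBall _ _ (by positivity), finrank_euclideanSpace_fin]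
      _ = ENNReal.ofReal (ρ ^ m * vB * (1 / Λ) ^ m) := by
          rw [hvB1, ← ENNReal.ofReal_mul (by positivity)]
          congr 1
          rw [div_pow, div_pow, one_pow]
          ring
  -- domination
  have hGGex := fun i : ℕ => hdomw X hX (hA 2) w zQ Λ β Mβ (by linarith) hwm hβm hβ0 hβM hws
    (fun k t z => hwB k t z) hwQ R p0.1 p0.2 M i hR
  choose GG hGm hG1 hG2 hG3 using hGGex
  have hvolI : ∀ i : ℕ, volume (closedBall (tc p0.1 r M i) r) = ENNReal.ofReal (2 * r) := fun i =>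
    Real.volume_closedBall _ _
  have hm2 : ∀ i : ℕ, ∫⁻ t in closedBall (tc p0.1 r M i) r, ENNReal.ofReal (β t ^ 2) ≤
      ENNReal.ofReal (Mβ ^ 2 * (2 * r)) := by
    intro i
    calc ∫⁻ t in closedBall (tc p0.1 r M i) r, ENNReal.ofReal (β t ^ 2) ≤
          ∫⁻ _ in closedBall (tc p0.1 r M i) r, ENNReal.ofReal (Mβ ^ 2) := by
          refine lintegral_mono fun t => ENNReal.ofReal_le_ofReal ?_
          exact pow_le_pow_left₀ (hβ0 t) (hβM t) 2
      _ = _ := by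
          rw [setLIntegral_const, hvolI, ← ENNReal.ofReal_mul (by positivity)]
  have hm1 : ∀ i : ℕ, ∫⁻ t in closedBall (tc p0.1 r M i) r, ENNReal.ofReal (β t) ≤
      ENNReal.ofReal (Mβ * (2 * r)) := by
    intro i
    calc ∫⁻ t in closedBall (tc p0.1 r M i) r, ENNReal.ofReal (β t) ≤
          ∫⁻ _ in closedBall (tc p0.1 r M i) r, ENNReal.ofReal Mβ :=
          lintegral_mono fun t => ENNReal.ofReal_le_ofReal (hβM t)
      _ = _ := by
          rw [setLIntegral_const, hvolI, ← ENNReal.ofReal_mul (by positivity)]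
  set ν : ℕ → ℝ≥0∞ := fun i => ∫⁻ t in closedBall (tc p0.1 r M i) r, ENNReal.ofReal (β t ^ 2)
    with hν
  have hνt : ∀ i, ν i ≠ ⊤ := fun i => ne_top_of_le_ne_top ENNReal.ofReal_ne_top (hm2 i)
  set μ : ι → ℝ := fun i => Cw * (ν i.1).toReal with hμ
  have hμν : ∀ i, ENNReal.ofReal (μ i) = ENNReal.ofReal Cw * ν i.1 := by
    intro i
    simp only [hμ]
    rw [ENNReal.ofReal_mul hCw.le, ENNReal.ofReal_toReal (hνt i.1)]
  have hr2 : r * r = 1 / R := by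
    rw [hr, div_mul_div_comm, one_mul, hsR]
  have hstepB := hcoreB (Vw X) (Xt X) p0 δ R Λ0 e Z hZm hR hΛ1 he0 ?_ hXt
    (hkak R hR Z hZm inter_subset_right)
    κ ι pr (fun i => tc p0.1 r M i.1) (fun a => zc p0.2 r M a.1.2) (fun i => GG i.1) μ f ?_ ?_
    (fun i => hGm i.1) ?_ ?_ ?_ ?_ ?_ ?_
  rotate_left
  · intro ξ t z z'
    refine (hV2 ξ (t, z) (t, z')).trans (le_of_eq ?_)
    congr 1
    rw [Prod.norm_def]
    simp
  · intro i
    have h2 := core_tc (t0 := p0.1) hr0 hδ10.le i.2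
    refine h2.trans ?_
    linarith
  · intro i j hij
    rw [abs_tc_sub hr0]
    have h2 : (1 : ℝ) ≤ |((i.1 : ℕ) : ℝ) - (j.1 : ℕ)| := by
      have h3 : ((i.1 : ℕ) : ℤ) - (j.1 : ℕ) ≠ 0 := by
        intro h4
        apply hij
        apply Subtype.ext
        omega
      have h5 := Int.one_le_abs h3
      exact_mod_cast h5
    calc 1 / √R = r * 1 := by rw [mul_one]
      _ ≤ r * |((i.1 : ℕ) : ℝ) - (j.1 : ℕ)| := by gcongr
  · intro i
    rw [hμν]
    exact hG1 i.1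
  · intro i
    have h2 : (ν i.1).toReal ≤ Mβ ^ 2 * (2 * r) :=
      ENNReal.toReal_le_of_le_ofReal (by positivity) (hm2 i.1)
    calc μ i ≤ Cw * (Mβ ^ 2 * (2 * r)) := by
          simp only [hμ]
          gcongr
      _ = Cw * (2 * Mβ ^ 2) * r := by ring
      _ ≤ Cw * (1 + 4 * Mβ ^ 2) * r := by
          gcongr
          nlinarith [sq_nonneg Mβ]
      _ = Cd / √R := by rw [hCd, hr]; ring
  · intro i τ
    calc GG i.1 τ ≤ ENNReal.ofReal Cw *
          (∫⁻ t in closedBall (tc p0.1 r M i.1) r, ENNReal.ofReal (β t)) ^ 2 := hG2 i.1 τ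
      _ ≤ ENNReal.ofReal Cw * (ENNReal.ofReal (Mβ * (2 * r))) ^ 2 := by
          gcongr
          exact hm1 i.1
      _ = ENNReal.ofReal (Cw * (4 * Mβ ^ 2) * (r * r)) := by
          rw [← ENNReal.ofReal_pow (by positivity), ← ENNReal.ofReal_mul hCw.le]
          congr 1
          ring
      _ ≤ ENNReal.ofReal (Cd / R) := by
          refine ENNReal.ofReal_le_ofReal ?_
          rw [hr2, hCd]
          calc Cw * (4 * Mβ ^ 2) * (1 / R) ≤ Cw * (1 + 4 * Mβ ^ 2) * (1 / R) := by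
                gcongr
                linarith
            _ = _ := by ring
  · intro i z
    set Z1 : Finset (Fin m → ℕ) :=
      (Set.toFinset {a : κ | pr a = i ∧ ‖z - zc p0.2 r M a.1.2‖ ≤ ρ / √R}).image
        (fun a => a.1.2) with hZ1
    have h2 : ({a : κ | pr a = i ∧ ‖z - zc p0.2 r M a.1.2‖ ≤ ρ / √R} : Set κ).ncard =
        Z1.card := by
      rw [Set.ncard_eq_toFinset_card', hZ1, Finset.card_image_of_injOn]
      intro a ha a' ha' haa
      have h3 : pr a = i := (Set.mem_toFinset.1 ha).1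
      have h4 : pr a' = i := (Set.mem_toFinset.1 ha').1
      have h5 : a.1.1 = a'.1.1 := by
        have h6 : pr a = pr a' := h3.trans h4.symm
        exact congrArg (fun i : ι => i.1) h6
      exact Subtype.ext (Prod.ext h5 haa)
    rw [h2]
    have h3 := card_zc hr0 p0.2 M z (ρ / √R) Z1 ?_
    · have h4 : ρ / √R / r = ρ := by
        rw [hr]
        field_simp
      rwa [h4] at h3
    · intro k hk
      rw [hZ1, Finset.mem_image] at hk
      obtain ⟨a, ha, rfl⟩ := hk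
      exact (Set.mem_toFinset.1 ha).2
  · intro a ξ hξ
    by_cases hz : ∃ p, bc a p ≠ 0
    · obtain ⟨p, hp⟩ := hz
      obtain ⟨h2, h3⟩ := hsupp a p hp
      have h4 := hwδ p h3
      have h5 : closedBall (zc p0.2 r M a.1.2) (ρ / √R) ⊆ closedBall p0.2 δ := by
        intro z hz
        rw [mem_closedBall, dist_eq_norm] at hz ⊢
        have h6 : ‖p.2 - zc p0.2 r M a.1.2‖ ≤ ρ / √R := (norm_snd_le (p - pc a)).trans h2
        have h7 : ‖p.2 - p0.2‖ ≤ δ1 := (norm_snd_le (p - p0)).trans h4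
        have h8 : z - p0.2 = (z - zc p0.2 r M a.1.2) - (p.2 - zc p0.2 r M a.1.2) +
            (p.2 - p0.2) := by abel
        have h9 : ρ / √R = ρ * r := by rw [hr]; ring
        calc ‖z - p0.2‖ ≤ ‖z - zc p0.2 r M a.1.2‖ + ‖p.2 - zc p0.2 r M a.1.2‖ +
              ‖p.2 - p0.2‖ := by
              rw [h8]
              exact (norm_add_le _ _).trans (add_le_add_left (norm_sub_le _ _) _)
          _ ≤ ρ / √R + ρ / √R + δ1 := by gcongr
          _ ≤ δ := by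
              rw [h9]
              linarith
      have h10 : closedBall (zc p0.2 r M a.1.2) (ρ / √R) ∩ closedBall zQ (ρ / Λ) ⊆
          closedBall (zc p0.2 r M a.1.2) (ρ / √R) ∩ Z := fun z hz =>
        ⟨hz.1, hz.2, h5 hz.1⟩
      have h11 := hG3 a.1.1 a.1.2 ξ hξ
      refine le_trans ?_ (h11.trans ?_)
      · exact le_of_eq rfl
      · refine mul_le_mul' (ENNReal.ofReal_le_ofReal ?_) (lintegral_mono_set h10)
        gcongr
    · push Not at hz
      have h2 : f a ξ = 0 := by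
        simp only [hf, Tb]
        simp [hz]
      rw [h2]
      simp
  · intro a ξ hξ1 hξ2 hV
    exact hNSP a ξ hξ1 hξ2 hV
  -- assembly
  set An' : Set (E (m + 2)) := {ξ | R / 2 ≤ ‖ξ‖ ∧ ‖ξ‖ ≤ 4 * R} with hAn
  have hvf : volume An' ≠ ⊤ := ne_top_of_le_ne_top ENNReal.ofReal_ne_top (hvol R hR)
  set v : ℝ := volume.real An' with hv
  have hvv : volume An' = ENNReal.ofReal v := by
    rw [hv, measureReal_def, ENNReal.ofReal_toReal hvf]
  have hv1 : v ≤ Cv * R ^ (m + 2) := by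
    rw [hv, measureReal_def]
    exact ENNReal.toReal_le_of_le_ofReal (by positivity) (hvol R hR)
  have hv0 : 0 ≤ v := measureReal_nonneg
  set n0 : ℝ := ((Fintype.card κ : ℕ) : ℝ) with hn0
  have hn00 : 0 ≤ n0 := Nat.cast_nonneg _
  have hn01 : n0 ≤ (5 * δ1) ^ (m + 1) * R ^ (m + 1) := by
    have h2 := caps_card_le m hr0 hrδ1
    rw [hn0, Fintype.card_coe]
    refine h2.trans ?_
    rw [← mul_pow]
    refine pow_le_pow_left₀ (by positivity) ?_ _
    rw [mul_assoc]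
    gcongr
    rw [hr, div_div_eq_mul_div, div_one]
    gcongr
    calc √R = 1 * √R := (one_mul _).symm
      _ ≤ √R * √R := by gcongr
      _ = R := hsR
  have hΛs : Λ0 / √R = K := by
    rw [hΛ0]
    field_simp
  obtain ⟨hn1, hn2⟩ := ow_num (m := m) (N := N) (N1 := N1) (Cκ := (5 * δ1) ^ (m + 1))
    (Ce := Cn * Bd) (Cv := Cv) hε hσ hσε hN hR hK (by positivity) (by positivity) hn00 he0 hv0
    hn01 (le_of_eq he) hv1
  have hlog0 : 0 ≤ Real.log R := Real.log_nonneg hR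
  have hΛ0' : 0 < Λ := by linarith
  have hRε : 0 ≤ R ^ ε := Real.rpow_nonneg hR0.le _
  set I : ℝ≥0∞ := ∫⁻ t, ENNReal.ofReal (β t ^ 2) with hI
  have hsum : ∑ i, ENNReal.ofReal (μ i) ≤ ENNReal.ofReal (5 * Cw) * I := by
    have h2 := ow_overlap (t0 := p0.1) hr0 M (f := fun t => ENNReal.ofReal (β t ^ 2))
      (by fun_prop)
    calc ∑ i, ENNReal.ofReal (μ i) = ENNReal.ofReal Cw * ∑ i : ι, ν i.1 := by
          rw [Finset.mul_sum]
          exact Finset.sum_congr rfl fun i _ => hμν i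
      _ ≤ ENNReal.ofReal Cw * (5 * I) := by
          gcongr
      _ = ENNReal.ofReal (5 * Cw) * I := by
          rw [← mul_assoc, mul_comm 5 Cw, ENNReal.ofReal_mul hCw.le]
          norm_num
  calc ∫⁻ ξ in An (m + 2) R, Sq X p0 δ1 r w ξ ^ 2 =
      ∫⁻ ξ in An', (∑ a, ‖f a ξ‖ₑ ^ 2) ^ 2 := rfl
    _ ≤ _ := hstepB
    _ ≤ ENNReal.ofReal (Db * (1 / R) ^ m * K ^ (2 * m + 1) * (1 + Real.log R)) *
          (ENNReal.ofReal (ρ ^ m * vB * (1 / Λ) ^ m) * (ENNReal.ofReal (5 * Cw) * I)) +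
          ENNReal.ofReal (2 * (n0 * e ^ 2) ^ 2 * v) := by
        refine add_le_add ?_ (le_of_eq ?_)
        · rw [hΛs]
          gcongr
        · rw [hvv, ← ENNReal.ofReal_natCast, ← ENNReal.ofReal_mul (Nat.cast_nonneg _),
            ← ENNReal.ofReal_pow (by positivity),
            show (2 : ℝ≥0∞) = ENNReal.ofReal 2 by norm_num, ← ENNReal.ofReal_mul (by norm_num),
            ← ENNReal.ofReal_mul (by positivity)]
    _ = ENNReal.ofReal (Db * (1 / R) ^ m * K ^ (2 * m + 1) * (1 + Real.log R) *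
          (ρ ^ m * vB * (1 / Λ) ^ m) * (5 * Cw)) * I +
          ENNReal.ofReal (2 * (n0 * e ^ 2) ^ 2 * v) := by
        rw [← mul_assoc, ← mul_assoc, ← ENNReal.ofReal_mul (by positivity),
          ← ENNReal.ofReal_mul (by positivity)]
    _ ≤ _ := by
        refine add_le_add (mul_le_mul' (ENNReal.ofReal_le_ofReal ?_) le_rfl)
          (ENNReal.ofReal_le_ofReal ?_)
        · calc Db * (1 / R) ^ m * K ^ (2 * m + 1) * (1 + Real.log R) *
                (ρ ^ m * vB * (1 / Λ) ^ m) * (5 * Cw) =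
                Db * (ρ ^ m * vB) * (5 * Cw) * (1 / R) ^ m * (1 / Λ) ^ m *
                  (K ^ (2 * m + 1) * (1 + Real.log R)) := by ring
            _ ≤ Db * (ρ ^ m * vB) * (5 * Cw) * (1 / R) ^ m * (1 / Λ) ^ m *
                  ((1 + 2 / ε) * R ^ ε) := by gcongr
            _ = Db * (1 + 2 / ε) * (ρ ^ m * vB) * (5 * Cw) * R ^ ε * (1 / R) ^ m *
                  (1 / Λ) ^ m := by ring
            _ ≤ _ := by
                gcongr
                have : 0 ≤ 2 * ((5 * δ1) ^ (m + 1)) ^ 2 * (Cn * Bd) ^ 4 * Cv := by positivity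
                linarith
        · refine hn2.trans ?_
          gcongr
          have : 0 ≤ Db * (1 + 2 / ε) * (ρ ^ m * vB) * (5 * Cw) := by positivity
          linarith

end Pool.Agent.LF2
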