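import Pool.Agent.LF.CORE0

/-!
[LEAF2] definitions: the geometry of the chart, amplitudes at the scale `1 / Λ` along the leaves,
mollification along the leaves.
-/

set_option autoImplicit false

namespace Pool.Agent.LF2

open MeasureTheory Set Metric Pool.Agent.MP_6cbfb8_an Pool.Agent.LF
open scoped ENNReal Real RealInnerProductSpace ContDiff

/-- The geometry of the chart near `p0`. -/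
structure Geo {m : ℕ} (X : ℝ × E m → E (m + 2)) (p0 : ℝ × E m) (δ c C : ℝ) (A : ℕ → ℝ) :
    Prop where
  hδ : 0 < δ
  hδ1 : δ ≤ 1 / 4
  hc : 0 < c
  hC : 1 ≤ C
  hX : ContDiff ℝ ∞ X
  hA : ∀ j p, ‖iteratedFDeriv ℝ j X p‖ ≤ A j
  unit : ∀ p, ‖p - p0‖ ≤ δ → ‖X p‖ = 1
  bl : ∀ p p', ‖p - p0‖ ≤ δ → ‖p' - p0‖ ≤ δ →
    c * ‖p - p'‖ ≤ ‖X p - X p'‖ ∧ ‖X p - X p'‖ ≤ C * ‖p - p'‖
  rect : ∀ (w : E (m + 2)) (θ : ℝ) (p p' p'' : ℝ × E m), 1 / 4 ≤ ‖w‖ → ‖w‖ ≤ 8 →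
    ‖p - p0‖ ≤ δ → ‖p' - p0‖ ≤ δ → ‖p'' - p0‖ ≤ δ →
    ‖Vw X w p‖ ≤ θ → ‖Vw X w p'‖ ≤ θ → ‖Vw X w p''‖ ≤ θ →
    C * θ ≤ ‖p - p'‖ → C * θ ≤ ‖p - p''‖ →
    c * (‖p - p'‖ * ‖p - p''‖) ≤ |⟪X p - X p', X p - X p''⟫|
  trv : ∀ (w : E (m + 2)) (θ : ℝ) (p p' : ℝ × E m), 1 / 2 ≤ ‖w‖ → ‖w‖ ≤ 4 →
    ‖p - p0‖ ≤ δ → ‖p' - p0‖ ≤ δ → ‖Vw X w p‖ ≤ θ → ‖Vw X w p'‖ ≤ θ →
    C * θ ≤ ‖p - p'‖ → p ≠ p' → ∀ (w1 : E (m + 2)) (y1 : E m),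
    c * (‖w1‖ + ‖y1‖) ≤ ‖Gw X w1 p‖ +
      ‖(‖p - p'‖)⁻¹ • (Gw X w1 p' - Gw X w1 p) + fderiv ℝ (Gw X w) p' (0, y1)‖
  frame : ∀ p, ‖p - p0‖ ≤ δ → ∀ ξ : E (m + 2), c * ‖ξ‖ ≤ |⟪ξ, X p⟫| + ‖Gw X ξ p‖
  act : ∀ (w : E (m + 2)), 1 / 4 ≤ ‖w‖ → ‖w‖ ≤ 8 → ∀ θ M : ℝ, 0 < θ → 0 ≤ M →
    ∀ (κ : Type) [Fintype κ] (pc : κ → ℝ × E m), (∀ a, ‖pc a - p0‖ ≤ δ) →
    (∀ a, ({a' | ‖pc a - pc a'‖ ≤ C * θ}.ncard : ℝ) ≤ M) →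
    ({a | ‖Vw X w (pc a)‖ ≤ θ}.ncard : ℝ) ≤ (1 + 1 / θ) * M

/-- `b` is smooth along the leaves; its derivatives are dominated at the scale `1 / Λ` by the
averages of `h` along the leaves. -/
structure Amp {m : ℕ} (p0 : ℝ × E m) (δ : ℝ) (B : ℕ → ℝ) (Λ : ℝ) (b : ℝ × E m → ℂ)
    (h : ℝ × E m → ℝ) : Prop where
  meas : Measurable b
  smooth : ∀ t, ContDiff ℝ ∞ fun z => b (t, z)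
  supp : ∀ p, δ ≤ ‖p - p0‖ → b p = 0
  hmeas : Measurable h
  h0 : ∀ p, 0 ≤ h p
  h1 : ∀ p, h p ≤ 1
  bound : ∀ t k z, ‖iteratedFDeriv ℝ k (fun z => b (t, z)) z‖ ≤
    B k * Λ ^ k * (Λ ^ m * ∫ y in closedBall z (1 / Λ), h (t, y))

/-- The annulus of frequencies. -/
def An (n : ℕ) (R : ℝ) : Set (E n) := {ξ | R / 2 ≤ ‖ξ‖ ∧ ‖ξ‖ ≤ 4 * R}

/-- The dyadic shell of frequencies. -/
def Sh (n : ℕ) (R : ℝ) : Set (E n) := {ξ | R ≤ ‖ξ‖ ∧ ‖ξ‖ ≤ 2 * R}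

/-- The square function of the pieces of `b` on the caps of radius `r`. -/
noncomputable def Sq {m n : ℕ} (X : ℝ × E m → E n) (p0 : ℝ × E m) (δ r : ℝ) (b : ℝ × E m → ℂ)
    (ξ : E n) : ℝ≥0∞ :=
  ∑ c : ↥(gi ⌈δ / r⌉₊ ×ˢ gk m ⌈δ / r⌉₊), ‖Tb X (bcs p0 r ⌈δ / r⌉₊ b c.1) ξ‖ₑ ^ 2

/-- The kernel of the mollification. -/
noncomputable def kr (m : ℕ) : E m → ℝ :=
  (⟨1 / 2, 1, by norm_num, by norm_num⟩ : ContDiffBump (0 : E m)).normed volume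

/-- Mollification along the leaves at the scale `1 / Λ`. -/
noncomputable def mol {m : ℕ} (Λ : ℝ) (h : ℝ × E m → ℂ) (p : ℝ × E m) : ℂ :=
  ∫ y : E m, ((Λ ^ m * kr m (Λ • (p.2 - y)) : ℝ) : ℂ) * h (p.1, y)

end Pool.Agent.LF2
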