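import Pool.Agent.LF2.CVd
import Pool.Agent.LF2.Df
import Pool.Agent.MP_6cbfb8_an.SteinTomas

/-!
[LEAF2], row ST4: the Stein-Tomas inequality in a chart of the sphere, `L^2 → L^4` with a loss.
-/

set_option autoImplicit false

namespace Pool.Agent.LF2

open MeasureTheory Set Metric Filter Topology Pool.Agent.MP_6cbfb8_an Pool.Agent.LF
open scoped ENNReal Real RealInnerProductSpace ContDiff

/-! ### The inequality on the sphere for bounded functions -/

theorem st_scale {V : Type*} [NormedAddCommGroup V] [NormedSpace ℝ V]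
    [FiniteDimensional ℝ V] [MeasurableSpace V] [BorelSpace V] (μ : Measure V)
    [μ.IsAddHaarMeasure] (f : V → ℝ≥0∞) (c : ℝ) (hc : 0 < c) :
    ∫⁻ x, f x ∂μ = ENNReal.ofReal (c ^ Module.finrank ℝ V) * ∫⁻ x, f (c • x) ∂μ := by
  have hc0 : c ≠ 0 := hc.ne'
  have h := (Homeomorph.smulOfNeZero c hc0).measurableEmbedding.lintegral_map (μ := μ) f
  have h2 : Measure.map (Homeomorph.smulOfNeZero c hc0 : V → V) μ =
      ENNReal.ofReal |(c ^ Module.finrank ℝ V)⁻¹| • μ := Measure.map_addHaar_smul μ hc0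
  have h3 : ∫⁻ x, f (c • x) ∂μ = ∫⁻ x, f ((Homeomorph.smulOfNeZero c hc0 : V → V) x) ∂μ := rfl
  have hp : 0 < c ^ Module.finrank ℝ V := by positivity
  rw [h3, ← h, h2, lintegral_smul_measure, smul_eq_mul, ← mul_assoc,
    ← ENNReal.ofReal_mul hp.le, abs_of_pos (by positivity), mul_inv_cancel₀ hp.ne',
    ENNReal.ofReal_one, one_mul]

theorem st_extn_smul {n : ℕ} (l : ℝ) (g : E n → ℂ) (ξ : E n) :
    extn (fun x => (l : ℂ) * g x) ξ = (l : ℂ) * extn g ξ := by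
  unfold extn
  rw [← integral_const_mul]
  refine integral_congr_ae (Eventually.of_forall fun x => ?_)
  simp only
  ring

/-- Stein-Tomas for bounded functions (any bound). -/
theorem st_bdd (j : ℕ) (q : ℝ) (hq : 2 * ((j : ℝ) + 3) / (j + 1) < q) :
    ∃ C : ℝ≥0∞, C ≠ ⊤ ∧ ∀ g : E (j + 2) → ℂ, Measurable g → (∃ G, ∀ x, ‖g x‖ ≤ G) →
      ∫⁻ ξ, ‖extn g ξ‖ₑ ^ q ≤
        C * (∫⁻ x : S (j + 2), ‖g x‖ₑ ^ (2:ℝ) ∂(sm (j + 2))) ^ (q / 2) := by
  obtain ⟨C, hC, hST⟩ := stein_tomas j q hq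
  refine ⟨C, hC, fun g hg hG => ?_⟩
  obtain ⟨G, hG⟩ := hG
  have hq0 : 0 < q := lt_trans (by positivity) hq
  obtain ⟨l, hl⟩ : ∃ l : ℝ, l = 2 / (|G| + 1) := ⟨_, rfl⟩
  have hl0 : 0 < l := by rw [hl]; positivity
  have h1 := hST (fun x => (l : ℂ) * g x) (by fun_prop) (fun x => by
    rw [norm_mul, Complex.norm_real, Real.norm_eq_abs, abs_of_pos hl0, hl]
    have h2 : ‖g x‖ ≤ |G| + 1 := (hG x).trans (by linarith [le_abs_self G])
    rw [div_mul_eq_mul_div, div_le_iff₀ (by positivity)]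
    nlinarith)
  have hle : ‖(l : ℂ)‖ₑ = ENNReal.ofReal l := by
    rw [← ofReal_norm, Complex.norm_real, Real.norm_eq_abs, abs_of_pos hl0]
  have hl1 : ENNReal.ofReal l ≠ 0 := by
    rw [ne_eq, ENNReal.ofReal_eq_zero, not_le]
    exact hl0
  have e1 : ∫⁻ ξ, ‖extn (fun x => (l : ℂ) * g x) ξ‖ₑ ^ q =
      ENNReal.ofReal l ^ q * ∫⁻ ξ, ‖extn g ξ‖ₑ ^ q := by
    rw [← lintegral_const_mul' _ _ (ENNReal.rpow_ne_top_of_nonneg hq0.le ENNReal.ofReal_ne_top)]
    refine lintegral_congr fun ξ => ?_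
    rw [st_extn_smul, enorm_mul, hle, ENNReal.mul_rpow_of_nonneg _ _ hq0.le]
  have e2 : (∫⁻ x : S (j + 2), ‖(l : ℂ) * g x‖ₑ ^ (2:ℝ) ∂(sm (j + 2))) ^ (q / 2) =
      ENNReal.ofReal l ^ q * (∫⁻ x : S (j + 2), ‖g x‖ₑ ^ (2:ℝ) ∂(sm (j + 2))) ^ (q / 2) := by
    have e3 : ∫⁻ x : S (j + 2), ‖(l : ℂ) * g x‖ₑ ^ (2:ℝ) ∂(sm (j + 2)) =
        ENNReal.ofReal l ^ (2:ℝ) * ∫⁻ x : S (j + 2), ‖g x‖ₑ ^ (2:ℝ) ∂(sm (j + 2)) := by
      rw [← lintegral_const_mul' _ _
        (ENNReal.rpow_ne_top_of_nonneg (by norm_num) ENNReal.ofReal_ne_top)]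
      refine lintegral_congr fun x => ?_
      rw [enorm_mul, hle, ENNReal.mul_rpow_of_nonneg _ _ (by norm_num)]
    rw [e3, ENNReal.mul_rpow_of_nonneg _ _ (by positivity), ← ENNReal.rpow_mul]
    congr 2
    ring
  rw [e1, e2, mul_left_comm] at h1
  have h3 : ENNReal.ofReal l ^ q ≠ 0 := by
    rw [ne_eq, ENNReal.rpow_eq_zero_iff]
    rintro (⟨h, _⟩ | ⟨h, _⟩)
    · exact hl1 h
    · exact ENNReal.ofReal_ne_top h
  have h4 : ENNReal.ofReal l ^ q ≠ ⊤ :=
    ENNReal.rpow_ne_top_of_nonneg hq0.le ENNReal.ofReal_ne_top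
  exact (ENNReal.mul_le_mul_iff_right h3 h4).1 h1

/-! ### The chart -/

variable {m : ℕ} {X : ℝ × E m → E (m + 2)} {p0 : ℝ × E m} {δ c C : ℝ} {A : ℕ → ℝ}

/-- The derivative of the chart is bounded below. -/
theorem geo_fderiv (hG : Geo X p0 δ c C A) (p : ℝ × E m) (hp : ‖p - p0‖ ≤ δ) (v : ℝ × E m) :
    c * ‖v‖ ≤ ‖fderiv ℝ X p v‖ := by
  have hin : ∀ p, ‖p - p0‖ < δ → c * ‖v‖ ≤ ‖fderiv ℝ X p v‖ := by
    intro p hp
    have hd : HasFDerivAt X (fderiv ℝ X p) p :=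
      (hG.hX.differentiable (by simp) p).hasFDerivAt
    have hd' : HasDerivAt (fun t : ℝ => X (p + t • v)) (fderiv ℝ X p v) 0 := by
      have h1 : HasDerivAt (fun t : ℝ => p + t • v) v 0 := by
        simpa using ((hasDerivAt_id (0 : ℝ)).smul_const v).const_add p
      have h2 : HasFDerivAt X (fderiv ℝ X p) (p + (0 : ℝ) • v) := by simpa using hd
      exact h2.comp_hasDerivAt 0 h1
    have h3 := hd'.tendsto_slope_zero
    have h4 : Tendsto (fun t : ℝ => ‖t⁻¹ • (X (p + (0 + t) • v) - X (p + (0 : ℝ) • v))‖)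
        (𝓝[≠] 0) (𝓝 ‖fderiv ℝ X p v‖) := h3.norm
    refine ge_of_tendsto h4 ?_
    have h5 : ∀ᶠ t : ℝ in 𝓝 0, ‖p + t • v - p0‖ < δ := by
      have : ContinuousAt (fun t : ℝ => ‖p + t • v - p0‖) 0 := by fun_prop
      refine this.eventually_lt continuousAt_const ?_
      simpa using hp
    filter_upwards [nhdsWithin_le_nhds h5, self_mem_nhdsWithin] with t ht ht0
    have ht0' : t ≠ 0 := ht0
    have h6 := (hG.bl (p + t • v) p ht.le hp.le).1
    have e : p + t • v - p = t • v := by abel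
    rw [e, norm_smul] at h6
    rw [zero_add, zero_smul, add_zero, norm_smul, norm_inv, inv_mul_eq_div,
      le_div_iff₀ (norm_pos_iff.2 ht0')]
    linarith
  have hcl : p ∈ closure (ball p0 δ) := by
    rw [closure_ball p0 hG.hδ.ne', mem_closedBall, dist_eq_norm]
    exact hp
  have hcont : Continuous fun p => ‖fderiv ℝ X p v‖ := by
    have : Continuous (fderiv ℝ X) := hG.hX.continuous_fderiv (by simp)
    fun_prop
  have hset : IsClosed {p : ℝ × E m | c * ‖v‖ ≤ ‖fderiv ℝ X p v‖} :=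
    isClosed_le continuous_const hcont
  have hsub : ball p0 δ ⊆ {p : ℝ × E m | c * ‖v‖ ≤ ‖fderiv ℝ X p v‖} := fun p hp => by
    rw [mem_ball, dist_eq_norm] at hp
    exact hin p hp
  exact (closure_minimal hsub hset) hcl

theorem geo_orth (hG : Geo X p0 δ c C A) (p : ℝ × E m) (hp : ‖p - p0‖ ≤ δ) (v : ℝ × E m) :
    inner ℝ (X p) (fderiv ℝ X p v) = 0 := by
  have hin : ∀ p, ‖p - p0‖ < δ → inner ℝ (X p) (fderiv ℝ X p v) = 0 := by
    intro p hp
    have hd : HasFDerivAt X (fderiv ℝ X p) p :=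
      (hG.hX.differentiable (by simp) p).hasFDerivAt
    have h3 := hd.inner ℝ hd
    have h4 : (fun q => inner ℝ (X q) (X q)) =ᶠ[𝓝 p] fun _ => (1:ℝ) := by
      have : ∀ᶠ q in 𝓝 p, ‖q - p0‖ < δ :=
        (continuous_id.sub continuous_const).norm.continuousAt.eventually_lt
          continuousAt_const hp
      filter_upwards [this] with q hq
      rw [real_inner_self_eq_norm_sq, hG.unit q hq.le]; norm_num
    have h5 : HasFDerivAt (fun q => inner ℝ (X q) (X q)) (0 : (ℝ × E m) →L[ℝ] ℝ) p :=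
      (hasFDerivAt_const (1:ℝ) p).congr_of_eventuallyEq h4
    have h6 := h3.unique h5
    have h7 := congrArg (fun L : (ℝ × E m) →L[ℝ] ℝ => L v) h6
    simp only [ContinuousLinearMap.comp_apply, ContinuousLinearMap.prod_apply,
      fderivInnerCLM_apply, zero_apply] at h7
    rw [real_inner_comm (X p) (fderiv ℝ X p v)] at h7
    linarith
  have hcl : p ∈ closure (ball p0 δ) := by
    rw [closure_ball p0 hG.hδ.ne', mem_closedBall, dist_eq_norm]
    exact hp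
  have hcont : Continuous fun p => inner ℝ (X p) (fderiv ℝ X p v) := by
    have h1 : Continuous (fderiv ℝ X) := hG.hX.continuous_fderiv (by simp)
    have h2 : Continuous X := hG.hX.continuous
    fun_prop
  have hset : IsClosed {p : ℝ × E m | inner ℝ (X p) (fderiv ℝ X p v) = 0} :=
    isClosed_eq hcont continuous_const
  have hsub : ball p0 δ ⊆ {p : ℝ × E m | inner ℝ (X p) (fderiv ℝ X p v) = 0} :=
    fun p hp => by
      rw [mem_ball, dist_eq_norm] at hp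
      exact hin p hp
  exact (closure_minimal hsub hset) hcl

theorem geo_dt (hG : Geo X p0 δ c C A) (p : ℝ × E m) (hp : ‖p - p0‖ ≤ δ) : CV.dt X p ≠ 0 := by
  have hinj : Function.Injective ((CV.Lp X p : ℝ × (ℝ × E m) →ₗ[ℝ] E (m + 2)) ∘ₗ
    ((CV.ee m : E (m + 2) ≃L[ℝ] ℝ × (ℝ × E m)).toLinearEquiv :
      E (m + 2) →ₗ[ℝ] ℝ × (ℝ × E m))) := by
    rw [LinearMap.coe_comp]
    refine Function.Injective.comp ?_ (CV.ee m).toLinearEquiv.injective
    refine (injective_iff_map_eq_zero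
      (CV.Lp X p : ℝ × (ℝ × E m) →ₗ[ℝ] E (m + 2))).2 fun v hv => ?_
    have hv' : v.1 • X p + fderiv ℝ X p v.2 = 0 := by
      rw [← CV.Lp_apply]; exact hv
    have h8 : v.1 = 0 := by
      have := congrArg (fun z => inner ℝ (X p) z) hv'
      simp only [inner_add_right, inner_smul_right, geo_orth hG p hp, inner_zero_right,
        real_inner_self_eq_norm_sq, hG.unit p hp] at this
      linarith
    rw [h8, zero_smul, zero_add] at hv'
    have h9 := geo_fderiv hG p hp v.2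
    rw [hv', norm_zero] at h9
    have h10 : ‖v.2‖ = 0 := by
      have := hG.hc
      have h11 := norm_nonneg v.2
      nlinarith
    exact Prod.ext h8 (norm_eq_zero.1 h10)
  intro h0
  have h9 := LinearMap.bot_lt_ker_of_det_eq_zero h0
  rw [LinearMap.ker_eq_bot.2 hinj] at h9
  exact lt_irrefl _ h9

theorem geo_inj (hG : Geo X p0 δ c C A) (p q : ℝ × E m) (hp : ‖p - p0‖ ≤ δ)
    (hq : ‖q - p0‖ ≤ δ) (h : X p = X q) : p = q := by
  have h1 := (hG.bl p q hp hq).1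
  rw [h, sub_self, norm_zero] at h1
  have h2 : ‖p - q‖ = 0 := by
    have := hG.hc
    have h3 := norm_nonneg (p - q)
    nlinarith
  exact sub_eq_zero.1 (norm_eq_zero.1 h2)

/-- A density in the chart is a density on the sphere. -/
theorem geo_pull (hG : Geo X p0 δ c C A) : ∃ D : ℝ, 0 < D ∧ ∀ b : ℝ × E m → ℂ, Measurable b →
    (∃ M, ∀ p, ‖b p‖ ≤ M) → (∀ p, δ ≤ ‖p - p0‖ → b p = 0) →
    ∃ g : E (m + 2) → ℂ, Measurable g ∧ (∃ M, ∀ x, ‖g x‖ ≤ M) ∧
      (∀ ξ, extn g ξ = Tb X b ((2 * π) • ξ)) ∧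
      ∫⁻ x : S (m + 2), ‖g x‖ₑ ^ (2:ℝ) ∂(sm (m + 2)) ≤
        ENNReal.ofReal D * ∫⁻ p, ‖b p‖ₑ ^ 2 := by
  obtain ⟨κ, hκ, hcv⟩ := cv_dt X p0 hG.hX hG.unit (geo_inj hG)
  have hJc : Continuous fun p => κ * |CV.dt X p| := by
    have := (CV.dt_contDiff X hG.hX).continuous
    fun_prop
  obtain ⟨J, hJ⟩ : ∃ J : ℝ × E m → ℝ, J = fun p => κ * |CV.dt X p| := ⟨_, rfl⟩
  have hJc : Continuous J := by
    rw [hJ]
    exact hJc
  obtain ⟨j0, hj0, hj1⟩ : ∃ j0, 0 < j0 ∧ ∀ p, ‖p - p0‖ ≤ δ → j0 ≤ J p := by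
    obtain ⟨q, hq, hq'⟩ := (isCompact_closedBall p0 δ).exists_isMinOn
      ⟨p0, mem_closedBall_self hG.hδ.le⟩ hJc.continuousOn
    rw [mem_closedBall, dist_eq_norm] at hq
    refine ⟨J q, ?_, fun p hp => hq' (by
      rw [mem_closedBall, dist_eq_norm]
      exact hp)⟩
    rw [hJ]
    have := abs_pos.2 (geo_dt hG q hq)
    positivity
  refine ⟨j0⁻¹, by positivity, fun b hb hM hb0 => ?_⟩
  obtain ⟨M, hM⟩ := hM
  have hM0 : 0 ≤ M := (norm_nonneg _).trans (hM p0)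
  -- the embedding
  obtain ⟨ι, hι⟩ : ∃ ι : closedBall p0 δ → E (m + 2), ι = fun p : closedBall p0 δ => X p.1 := ⟨_, rfl⟩
  have hιc : Continuous ι := by
    rw [hι]
    exact hG.hX.continuous.comp continuous_subtype_val
  have hιi : Function.Injective ι := by
    intro p q h
    rw [hι] at h
    have hp := p.2
    have hq := q.2
    rw [mem_closedBall, dist_eq_norm] at hp hq
    exact Subtype.ext (geo_inj hG _ _ hp hq h)
  have hcomp : CompactSpace (closedBall p0 δ) :=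
    isCompact_iff_compactSpace.1 (isCompact_closedBall p0 δ)
  have hιm : MeasurableEmbedding ι := (hιc.isClosedEmbedding hιi).measurableEmbedding
  obtain ⟨a, ha⟩ : ∃ a : ℝ × E m → ℂ, a = fun p => b p * (((J p)⁻¹ : ℝ) : ℂ) := ⟨_, rfl⟩
  have ham : Measurable a := by
    rw [ha]
    exact hb.mul (Complex.measurable_ofReal.comp (hJc.measurable.inv))
  obtain ⟨g, hg⟩ : ∃ g : E (m + 2) → ℂ,
      g = Function.extend ι (fun p => a p) (fun _ => 0) := ⟨_, rfl⟩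
  have hgm : Measurable g := by
    rw [hg]
    exact hιm.measurable_extend (ham.comp measurable_subtype_coe) measurable_const
  have hgX : ∀ p, ‖p - p0‖ ≤ δ → g (X p) = a p := by
    intro p hp
    have hp' : p ∈ closedBall p0 δ := by
      rw [mem_closedBall, dist_eq_norm]
      exact hp
    have h1 := hιi.extend_apply (fun p : closedBall p0 δ => a p) (fun _ => (0:ℂ)) ⟨p, hp'⟩
    rw [hg]
    rw [hι] at h1 ⊢
    exact h1
  have hg0 : ∀ x, g x ≠ 0 → ∃ p, ‖p - p0‖ < δ ∧ X p = x := by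
    intro x hx
    by_cases h : ∃ p, ι p = x
    · obtain ⟨p, hp⟩ := h
      have hp2 := p.2
      rw [mem_closedBall, dist_eq_norm] at hp2
      refine ⟨p, ?_, by rw [← hp, hι]⟩
      by_contra h2
      apply hx
      have h3 : X p = x := by rw [← hp, hι]
      rw [← h3, hgX _ hp2, ha]
      simp only
      rw [hb0 _ (not_lt.1 h2), zero_mul]
    · exfalso
      apply hx
      rw [hg, Function.extend_apply' _ _ _ h]
  have haM : ∀ p, ‖p - p0‖ ≤ δ → ‖a p‖ ≤ M * j0⁻¹ := by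
    intro p hp
    rw [ha]
    simp only
    have h1 := hj1 p hp
    have h2 : 0 < J p := hj0.trans_le h1
    rw [norm_mul, Complex.norm_real, Real.norm_eq_abs, abs_of_pos (by positivity)]
    exact mul_le_mul (hM p) (inv_anti₀ hj0 h1) (by positivity) hM0
  have hgM : ∀ x, ‖g x‖ ≤ M * j0⁻¹ := by
    intro x
    by_cases hx : g x = 0
    · rw [hx, norm_zero]
      positivity
    · obtain ⟨p, hp, rfl⟩ := hg0 x hx
      rw [hgX p hp.le]
      exact haM p hp.le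
  refine ⟨g, hgm, ⟨_, hgM⟩, fun ξ => ?_, ?_⟩
  · -- the integral
    have h1 := hcv (fun x => g x *
      Complex.exp (((-(2 * π * inner ℝ x ξ) : ℝ) : ℂ) * Complex.I)) (fun x _ hne =>
        hg0 x (fun h => hne (by rw [h, zero_mul])))
    unfold extn Tb
    rw [h1]
    have h12 : ∀ p : ℝ × E m, p ∉ ball p0 δ → b p *
        Complex.exp (((-inner ℝ ((2 * π) • ξ) (X p) : ℝ) : ℂ) * Complex.I) = 0 := by
      intro p hp
      rw [mem_ball, dist_eq_norm, not_lt] at hp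
      rw [hb0 p hp, zero_mul]
    rw [← setIntegral_eq_integral_of_forall_compl_eq_zero h12]
    refine setIntegral_congr_fun measurableSet_ball fun p hp => ?_
    rw [mem_ball, dist_eq_norm] at hp
    have e1 : (-inner ℝ ((2 * π) • ξ) (X p) : ℝ) = -(2 * π * inner ℝ (X p) ξ) := by
      rw [real_inner_smul_left, real_inner_comm]
    have h2 : 0 < J p := hj0.trans_le (hj1 p hp.le)
    have e2 : (κ * |CV.dt X p| : ℝ) = J p := by rw [hJ]
    rw [e1, hgX p hp.le, ha, e2]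
    simp only
    have h3 : (((J p)⁻¹ : ℝ) : ℂ) * (J p : ℂ) = 1 := by
      rw [← Complex.ofReal_mul, inv_mul_cancel₀ h2.ne', Complex.ofReal_one]
    linear_combination (b p * Complex.exp (((-(2 * π * inner ℝ (X p) ξ) : ℝ) : ℂ) *
      Complex.I)) * h3
  · -- the norm
    have h1 := hcv (fun x => ((‖g x‖ ^ 2 : ℝ) : ℂ)) (fun x _ hne =>
      hg0 x (fun h => hne (by rw [h]; simp)))
    have h2 : ∫ x : S (m + 2), ‖g x‖ ^ 2 ∂(sm (m + 2)) =
        ∫ p in ball p0 δ, ‖b p‖ ^ 2 * (J p)⁻¹ := by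
      have e1 := integral_ofReal (𝕜 := ℂ) (f := fun x : S (m + 2) => ‖g x‖ ^ 2)
        (μ := sm (m + 2))
      have e2 := integral_ofReal (𝕜 := ℂ) (f := fun p : ℝ × E m => ‖b p‖ ^ 2 * (J p)⁻¹)
        (μ := (volume : Measure (ℝ × E m)).restrict (ball p0 δ))
      have e3 : ∫ p in ball p0 δ, ((‖g (X p)‖ ^ 2 : ℝ) : ℂ) * ((κ * |CV.dt X p| : ℝ) : ℂ) =
          ∫ p in ball p0 δ, ((‖b p‖ ^ 2 * (J p)⁻¹ : ℝ) : ℂ) := by
        refine setIntegral_congr_fun measurableSet_ball fun p hp => ?_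
        rw [mem_ball, dist_eq_norm] at hp
        have h2 : 0 < J p := hj0.trans_le (hj1 p hp.le)
        have e2 : (κ * |CV.dt X p| : ℝ) = J p := by rw [hJ]
        rw [e2, hgX p hp.le, ha]
        simp only
        rw [← Complex.ofReal_mul, norm_mul, Complex.norm_real, Real.norm_eq_abs,
          abs_of_pos (by positivity)]
        congr 1
        field_simp
      have h3 : ((∫ x : S (m + 2), ‖g x‖ ^ 2 ∂(sm (m + 2)) : ℝ) : ℂ) =
          ((∫ p in ball p0 δ, ‖b p‖ ^ 2 * (J p)⁻¹ : ℝ) : ℂ) := by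
        refine (Eq.symm e1).trans ?_
        refine h1.trans ?_
        exact e3.trans e2
      exact_mod_cast h3
    have hint : Integrable (fun x : S (m + 2) => ‖g x‖ ^ 2) (sm (m + 2)) := by
      refine Integrable.of_bound
        ((hgm.comp measurable_subtype_coe).norm.pow_const 2).aestronglyMeasurable
        ((M * j0⁻¹) ^ 2) (Eventually.of_forall fun x => ?_)
      rw [Real.norm_eq_abs, abs_of_nonneg (by positivity)]
      exact pow_le_pow_left₀ (norm_nonneg _) (hgM x) 2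
    have h4 : ∫⁻ x : S (m + 2), ‖g x‖ₑ ^ (2:ℝ) ∂(sm (m + 2)) =
        ENNReal.ofReal (∫ x : S (m + 2), ‖g x‖ ^ 2 ∂(sm (m + 2))) := by
      rw [ofReal_integral_eq_lintegral_ofReal hint (Eventually.of_forall fun x => by positivity)]
      refine lintegral_congr fun x => ?_
      rw [ENNReal.ofReal_pow (norm_nonneg _), ofReal_norm]
      norm_cast
    rw [h4, h2]
    have hmeas : AEStronglyMeasurable (fun p : ℝ × E m => ‖b p‖ ^ 2 * (J p)⁻¹)
        ((volume : Measure (ℝ × E m)).restrict (ball p0 δ)) :=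
      ((hb.norm.pow_const 2).mul hJc.measurable.inv).aestronglyMeasurable
    have hnn : ∀ᵐ p ∂((volume : Measure (ℝ × E m)).restrict (ball p0 δ)),
        0 ≤ ‖b p‖ ^ 2 * (J p)⁻¹ := by
      refine (ae_restrict_iff' measurableSet_ball).2 (Eventually.of_forall fun p hp => ?_)
      rw [mem_ball, dist_eq_norm] at hp
      have h2 : 0 < J p := hj0.trans_le (hj1 p hp.le)
      positivity
    rw [integral_eq_lintegral_of_nonneg_ae hnn hmeas]
    refine ENNReal.ofReal_toReal_le.trans ?_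
    rw [← lintegral_const_mul' _ _ ENNReal.ofReal_ne_top]
    refine (setLIntegral_mono' measurableSet_ball fun p hp => ?_).trans
      (setLIntegral_le_lintegral _ _)
    rw [mem_ball, dist_eq_norm] at hp
    have h2 : 0 < J p := hj0.trans_le (hj1 p hp.le)
    rw [mul_comm, ENNReal.ofReal_mul (by positivity), ENNReal.ofReal_pow (norm_nonneg _),
      ofReal_norm]
    gcongr
    exact hj1 p hp.le

/-! ### Hölder and the final form -/

/-- Hölder's inequality on a set, exponents `4 < q`. -/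
theorem hoelder4 {Y : Type*} [MeasurableSpace Y] (μ : Measure Y) (S0 : Set Y) (f : Y → ℝ≥0∞)
    (hf : Measurable f) (q : ℝ) (hq4 : 4 < q) :
    ∫⁻ x in S0, f x ^ (4 : ℝ) ∂μ ≤ (∫⁻ x, f x ^ q ∂μ) ^ (4 / q) * μ S0 ^ (1 - 4 / q) := by
  have hq0 : 0 < q := by linarith
  have hpq : (q / 4).HolderConjugate (1 / (1 - 4 / q)) := by
    rw [Real.holderConjugate_iff]
    have h1 : 4 / q < 1 := by rw [div_lt_one hq0]; exact hq4
    refine ⟨by linarith, ?_⟩
    have h2 : 1 - 4 / q ≠ 0 := by linarith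
    have h3 : q - 4 ≠ 0 := by linarith
    field_simp
    ring
  have h := ENNReal.lintegral_mul_le_Lp_mul_Lq (μ.restrict S0) hpq
    (f := fun x => f x ^ (4 : ℝ)) (g := fun _ => 1) (hf.pow_const _).aemeasurable
    measurable_const.aemeasurable
  have e1 : ∀ x, (f x ^ (4 : ℝ)) ^ (q / 4) = f x ^ q := by
    intro x
    rw [← ENNReal.rpow_mul]
    congr 1
    ring
  simp only [Pi.mul_apply, mul_one, ENNReal.one_rpow, e1, lintegral_const,
    Measure.restrict_apply MeasurableSet.univ, univ_inter, one_mul, one_div_one_div] at h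
  rw [one_div_div] at h
  refine h.trans ?_
  gcongr
  exact Measure.restrict_le_self

/-- ST4: Stein-Tomas in the chart, `L^2 → L^4`, with a loss. -/
theorem st4 (hm : 1 ≤ m) (hG : Geo X p0 δ c C A) {ε : ℝ} (hε : 0 < ε) :
    ∃ C' : ℝ, 0 ≤ C' ∧ ∀ (R : ℝ) (b : ℝ × E m → ℂ), 1 ≤ R → Measurable b →
      (∃ M, ∀ p, ‖b p‖ ≤ M) → (∀ p, δ ≤ ‖p - p0‖ → b p = 0) →
      ∫⁻ ξ in {ξ : E (m + 2) | ‖ξ‖ ≤ 4 * R}, ‖Tb X b ξ‖ₑ ^ 4 ≤
        ENNReal.ofReal (C' * R ^ ε) * (∫⁻ p, ‖b p‖ₑ ^ 2) ^ 2 := by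
  have hm1 : (1 : ℝ) ≤ m := by exact_mod_cast hm
  obtain ⟨q, hq⟩ : ∃ q : ℝ, q = 4 + 4 * ε / (m + 2) := ⟨_, rfl⟩
  have hq4 : 4 < q := by
    rw [hq]
    have : 0 < 4 * ε / ((m : ℝ) + 2) := by positivity
    linarith
  have hq0 : 0 < q := by linarith
  have hq1 : 2 * ((m : ℝ) + 3) / (m + 1) < q := by
    refine lt_of_le_of_lt ?_ hq4
    rw [div_le_iff₀ (by positivity)]
    linarith
  have hqe : ((m : ℝ) + 2) * (1 - 4 / q) ≤ ε := by
    have h1 : 1 - 4 / q = (q - 4) / q := by field_simp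
    have h2 : q - 4 = 4 * ε / (m + 2) := by rw [hq]; ring
    rw [h1, h2]
    rw [mul_div_assoc', div_le_iff₀ hq0]
    have h3 : ((m : ℝ) + 2) * (4 * ε / (m + 2)) = 4 * ε := by field_simp
    rw [h3]
    nlinarith
  have hq41 : 0 ≤ 1 - 4 / q := by
    have : 4 / q ≤ 1 := by rw [div_le_one hq0]; exact hq4.le
    linarith
  obtain ⟨C1, hC1, hST⟩ := st_bdd m q hq1
  obtain ⟨D, hD, hpull⟩ := geo_pull hG
  obtain ⟨v, hv⟩ : ∃ v : ℝ≥0∞, v = volume (closedBall (0 : E (m + 2)) 1) := ⟨_, rfl⟩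
  have hv1 : v ≠ ⊤ := by
    rw [hv]
    exact (isCompact_closedBall _ _).measure_lt_top.ne
  obtain ⟨C2, hC2⟩ : ∃ C2 : ℝ≥0∞, C2 =
      (ENNReal.ofReal ((2 * π) ^ (m + 2)) * C1) ^ (4 / q) * ENNReal.ofReal D ^ 2 *
        ((4 : ℝ≥0∞) ^ (m + 2) * v) ^ (1 - 4 / q) := ⟨_, rfl⟩
  have hC2t : C2 ≠ ⊤ := by
    rw [hC2]
    refine ENNReal.mul_ne_top (ENNReal.mul_ne_top ?_ ?_) ?_
    · exact ENNReal.rpow_ne_top_of_nonneg (by positivity)
        (ENNReal.mul_ne_top ENNReal.ofReal_ne_top hC1)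
    · exact ENNReal.pow_ne_top ENNReal.ofReal_ne_top
    · exact ENNReal.rpow_ne_top_of_nonneg hq41
        (ENNReal.mul_ne_top (ENNReal.pow_ne_top (by norm_num)) hv1)
  refine ⟨C2.toReal, ENNReal.toReal_nonneg, fun R b hR hb hM hb0 => ?_⟩
  obtain ⟨g, hgm, hgM, hext, hg2⟩ := hpull b hb hM hb0
  have hT : ∀ ξ, Tb X b ξ = extn g ((2 * π)⁻¹ • ξ) := by
    intro ξ
    rw [hext, smul_smul, mul_inv_cancel₀ (by positivity), one_smul]
  have hTm : Measurable fun ξ => ‖Tb X b ξ‖ₑ := by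
    have h1 : Measurable fun ξ => extn g ((2 * π)⁻¹ • ξ) :=
      (measurable_extn g hgm).comp (by fun_prop)
    have e : (fun ξ => ‖Tb X b ξ‖ₑ) = fun ξ => ‖extn g ((2 * π)⁻¹ • ξ)‖ₑ := by
      funext ξ
      rw [hT]
    rw [e]
    exact h1.enorm
  have h1 : ∫⁻ ξ, ‖Tb X b ξ‖ₑ ^ q ≤ ENNReal.ofReal ((2 * π) ^ (m + 2)) * C1 *
      (ENNReal.ofReal D * ∫⁻ p, ‖b p‖ₑ ^ 2) ^ (q / 2) := by
    have h2 := st_scale (volume : Measure (E (m + 2))) (fun ξ => ‖Tb X b ξ‖ₑ ^ q) (2 * π)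
      (by positivity)
    rw [h2, finrank_euclideanSpace_fin, mul_assoc]
    gcongr
    have e : ∫⁻ ξ, ‖Tb X b ((2 * π) • ξ)‖ₑ ^ q = ∫⁻ ξ, ‖extn g ξ‖ₑ ^ q :=
      lintegral_congr fun ξ => by rw [hext]
    rw [e]
    refine (hST g hgm hgM).trans ?_
    gcongr
  have h2 := hoelder4 (volume : Measure (E (m + 2))) {ξ : E (m + 2) | ‖ξ‖ ≤ 4 * R}
    (fun ξ => ‖Tb X b ξ‖ₑ) hTm q hq4
  have hvol : volume {ξ : E (m + 2) | ‖ξ‖ ≤ 4 * R} =
      ENNReal.ofReal ((4 * R) ^ (m + 2)) * v := by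
    have e : {ξ : E (m + 2) | ‖ξ‖ ≤ 4 * R} = closedBall (0 : E (m + 2)) (4 * R) := by
      ext ξ
      simp
    rw [e, hv, Measure.addHaar_closedBall _ _ (by positivity), finrank_euclideanSpace_fin,
      Measure.addHaar_closedBall_eq_addHaar_ball]
  have e4 : ∀ ξ, ‖Tb X b ξ‖ₑ ^ 4 = ‖Tb X b ξ‖ₑ ^ (4 : ℝ) := fun ξ => by norm_cast
  simp only [e4]
  refine h2.trans ?_
  have h3 : (∫⁻ ξ, ‖Tb X b ξ‖ₑ ^ q) ^ (4 / q) ≤
      (ENNReal.ofReal ((2 * π) ^ (m + 2)) * C1) ^ (4 / q) *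
        (ENNReal.ofReal D ^ 2 * (∫⁻ p, ‖b p‖ₑ ^ 2) ^ 2) := by
    refine (ENNReal.rpow_le_rpow h1 (by positivity)).trans (le_of_eq ?_)
    rw [ENNReal.mul_rpow_of_nonneg _ _ (by positivity), ← ENNReal.rpow_mul]
    have e : q / 2 * (4 / q) = ((2 : ℕ) : ℝ) := by
      push_cast
      field_simp
      norm_num
    rw [e, ENNReal.rpow_natCast, mul_pow (ENNReal.ofReal D)]
  have h4 : volume {ξ : E (m + 2) | ‖ξ‖ ≤ 4 * R} ^ (1 - 4 / q) ≤
      ((4 : ℝ≥0∞) ^ (m + 2) * v) ^ (1 - 4 / q) * ENNReal.ofReal (R ^ ε) := by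
    have hR0 : 0 < R := by linarith
    have e : volume {ξ : E (m + 2) | ‖ξ‖ ≤ 4 * R} =
        ((4 : ℝ≥0∞) ^ (m + 2) * v) * ENNReal.ofReal (R ^ (m + 2)) := by
      rw [hvol, mul_pow, ENNReal.ofReal_mul (by positivity), ENNReal.ofReal_pow (by norm_num)]
      simp only [ENNReal.ofReal_ofNat]
      ring
    rw [e, ENNReal.mul_rpow_of_nonneg _ _ hq41, ENNReal.ofReal_rpow_of_nonneg (by positivity) hq41]
    gcongr
    rw [← Real.rpow_natCast, ← Real.rpow_mul hR0.le]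
    refine Real.rpow_le_rpow_of_exponent_le hR ?_
    push_cast
    exact hqe
  refine (mul_le_mul' h3 h4).trans (le_of_eq ?_)
  rw [ENNReal.ofReal_mul ENNReal.toReal_nonneg, ENNReal.ofReal_toReal hC2t, hC2]
  ring

end Pool.Agent.LF2
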