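import Pool.Agent.LF2.SQN
import Pool.Agent.LF2.ST4
import Pool.Agent.LF.CASE2

/-!
LEAF2, the row CASE 2 (`√R ≤ Λ`): the active caps of radius `Λ / R`, Stein-Tomas on each cap.
-/

set_option autoImplicit false

namespace Pool.Agent.LF2

open MeasureTheory Set Metric Pool.Agent.MP_6cbfb8_an Pool.Agent.LF Pool.Agent.GNP
open scoped ENNReal Real RealInnerProductSpace ContDiff

theorem c2_Tb_cont {m n : ℕ} {X : ℝ × E m → E n} (hX : Continuous X) {b : ℝ × E m → ℂ}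
    (hb : Integrable b) : Continuous (Tb X b) := by
  unfold Tb
  refine continuous_of_dominated (bound := fun p => ‖b p‖) (fun ξ => ?_) (fun ξ => ?_) hb.norm ?_
  · exact (Tb_integrable hX hb ξ).aestronglyMeasurable
  · refine Filter.Eventually.of_forall fun p => ?_
    rw [norm_mul, Complex.norm_exp_ofReal_mul_I, mul_one]
  · refine Filter.Eventually.of_forall fun p => ?_
    fun_prop

/-- The number of all caps. -/
theorem c2_card (m : ℕ) {δ r : ℝ} (hδ1 : δ ≤ 1 / 4) (hδ : 0 < δ) (hr : 0 < r) (hr1 : r ≤ 1) :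
    ((Fintype.card ↥(gi ⌈δ / 2 / r⌉₊ ×ˢ gk m ⌈δ / 2 / r⌉₊) : ℕ) : ℝ) ≤ (4 / r) ^ (m + 1) := by
  have h1 : 1 ≤ 1 / r := by rwa [one_le_div hr]
  have h2 : (⌈δ / 2 / r⌉₊ : ℝ) < δ / 2 / r + 1 := Nat.ceil_lt_add_one (by positivity)
  have h3 : δ / 2 / r ≤ 1 / 8 * (1 / r) := by
    rw [div_eq_mul_one_div (δ / 2) r]
    exact mul_le_mul_of_nonneg_right (by linarith) (by positivity)
  have h4 : 4 / r = 4 * (1 / r) := by ring
  rw [Fintype.card_coe, Finset.card_product, card_gi, card_gk, ← pow_succ']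
  push_cast
  rw [h4]
  exact pow_le_pow_left₀ (by positivity) (by linarith) _

variable {m : ℕ} {X : ℝ × E m → E (m + 2)} {p0 : ℝ × E m} {δ c C : ℝ} {A : ℕ → ℝ}

/-- The number of the active caps. -/
theorem c2_count (hm : 1 ≤ m) (hG : Geo X p0 δ c C A) : ∃ D : ℝ, 0 ≤ D ∧
    ∀ (R r K : ℝ) (b : ℝ × E m → ℂ) (ξ : E (m + 2)), 0 < R → 0 < r → r ≤ 1 → 1 ≤ K →
      (∀ p, δ / 2 ≤ ‖p - p0‖ → b p = 0) → ξ ∈ An (m + 2) R →
      (({a : ↥(gi ⌈δ / 2 / r⌉₊ ×ˢ gk m ⌈δ / 2 / r⌉₊) |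
        (∃ p, bcs p0 r ⌈δ / 2 / r⌉₊ b a.1 p ≠ 0) ∧
        ‖Vw X ξ (pcs p0 r ⌈δ / 2 / r⌉₊ a.1)‖ ≤ K * r * R}.ncard : ℕ) : ℝ) ≤
        D * K ^ (m + 1) / r := by
  classical
  have hC1 : 1 ≤ C := hG.hC
  have hδ := hG.hδ
  refine ⟨2 * (7 * C) ^ (m + 1) + (8 * √m / δ) ^ (m + 1), by positivity, ?_⟩
  intro R r K b ξ hR hr hr1 hK hb hξ
  set M : ℕ := ⌈δ / 2 / r⌉₊ with hM
  have h1r : 1 ≤ 1 / r := by rwa [one_le_div hr]
  have hcard := c2_card m hG.hδ1 hδ hr hr1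
  rw [← hM] at hcard
  have hK1 : (1 : ℝ) ≤ K ^ (m + 1) := one_le_pow₀ hK
  have hgoal : ∀ a : ℝ, a / r = a * (1 / r) := fun a => by ring
  rw [hgoal]
  by_cases hcase : √m * r ≤ δ / 2
  · -- the centres of the pieces lie in the ball
    set κ' : Type := {a : ↥(gi M ×ˢ gk m M) // ∃ p, bcs p0 r M b a.1 p ≠ 0} with hκ'
    set pc : κ' → ℝ × E m := fun a => pcs p0 r M a.1.1 with hpc
    have hinj : Function.Injective fun a : κ' => (a.1.1 : ℕ × (Fin m → ℕ)) := fun a a' h =>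
      Subtype.ext (Subtype.ext h)
    have hpcδ : ∀ a, ‖pc a - p0‖ ≤ δ := by
      rintro ⟨a, p, hp⟩
      obtain ⟨h1, h2⟩ := bcs_supp hm hr hp
      have h3 : ‖p - p0‖ < δ / 2 := by
        by_contra h4
        exact h2 (hb p (not_lt.1 h4))
      have h4 : pcs p0 r M a.1 - p0 = (p - p0) - (p - pcs p0 r M a.1) := by abel
      show ‖pcs p0 r M a.1 - p0‖ ≤ δ
      rw [h4]
      exact (norm_sub_le _ _).trans (by linarith)
    set w : E (m + 2) := (1 / R) • ξ with hw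
    have hwn : ‖w‖ = 1 / R * ‖ξ‖ := by
      rw [hw, norm_smul, Real.norm_of_nonneg (by positivity)]
    have hw1 : 1 / 4 ≤ ‖w‖ := by
      rw [hwn]
      have := mul_le_mul_of_nonneg_left hξ.1 (show (0 : ℝ) ≤ 1 / R by positivity)
      have h5 : 1 / R * (R / 2) = 1 / 2 := by field_simp
      linarith
    have hw2 : ‖w‖ ≤ 8 := by
      rw [hwn]
      have := mul_le_mul_of_nonneg_left hξ.2 (show (0 : ℝ) ≤ 1 / R by positivity)
      have h5 : 1 / R * (4 * R) = 4 := by field_simp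
      linarith
    have hVw : ∀ p, Vw X w p = (1 / R) • Vw X ξ p := fun p => by
      unfold Vw
      rw [hw, map_smul]
    have hθ : 0 < K * r := by positivity
    have hCK : 1 ≤ C * K := by nlinarith
    have hD : r ≤ C * (K * r) := by
      have := mul_le_mul_of_nonneg_right hCK hr.le
      linarith
    have hsep : ∀ a, ({a' | ‖pc a - pc a'‖ ≤ C * (K * r)}.ncard : ℝ) ≤ (7 * (C * K)) ^ (m + 1) := by
      intro a
      set Z : Finset (ℕ × (Fin m → ℕ)) := (gi M ×ˢ gk m M).filter fun a' =>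
        |(pc a).1 - tc p0.1 r M a'.1| ≤ C * (K * r) ∧ ‖(pc a).2 - zc p0.2 r M a'.2‖ ≤ C * (K * r)
        with hZ
      have h1 : ({a' | ‖pc a - pc a'‖ ≤ C * (K * r)} : Set κ').ncard ≤ Z.card := by
        rw [← Set.ncard_image_of_injective _ hinj, ← Set.ncard_coe_finset Z]
        refine Set.ncard_le_ncard ?_ Z.finite_toSet
        rintro _ ⟨a', ha', rfl⟩
        rw [hZ, Finset.coe_filter]
        refine ⟨a'.1.2, ?_, ?_⟩
        · have := (norm_fst_le (pc a - pc a')).trans ha'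
          rwa [Real.norm_eq_abs] at this
        · exact (norm_snd_le (pc a - pc a')).trans ha'
      have h2 := card_caps hr p0.1 p0.2 M (pc a).1 (pc a).2 (C * (K * r)) Z
        fun c' hc' => (Finset.mem_filter.1 hc').2
      have h3 := caps_near_le hr hD (m + 1)
      have h4 : C * (K * r) / r = C * K := by field_simp
      rw [h4] at h3
      rw [h4] at h2
      calc (({a' | ‖pc a - pc a'‖ ≤ C * (K * r)} : Set κ').ncard : ℝ) ≤
            (((2 * ⌈2 * (C * K)⌉₊ + 1) ^ (m + 1) : ℕ) : ℝ) := by exact_mod_cast h1.trans h2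
        _ ≤ _ := h3
    have hact := hG.act w hw1 hw2 (K * r) ((7 * (C * K)) ^ (m + 1)) hθ (by positivity) κ' pc hpcδ
      hsep
    have himg : ({a : ↥(gi M ×ˢ gk m M) | (∃ p, bcs p0 r M b a.1 p ≠ 0) ∧
        ‖Vw X ξ (pcs p0 r M a.1)‖ ≤ K * r * R} : Set _).ncard =
        ({a : κ' | ‖Vw X w (pc a)‖ ≤ K * r} : Set κ').ncard := by
      rw [← Set.ncard_image_of_injective _ (Subtype.val_injective :
        Function.Injective (Subtype.val : κ' → ↥(gi M ×ˢ gk m M)))]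
      congr 1
      ext a
      have key : ∀ v : E m, ‖(1 / R) • v‖ ≤ K * r ↔ ‖v‖ ≤ K * r * R := by
        intro v
        rw [norm_smul, Real.norm_of_nonneg (by positivity), one_div, inv_mul_le_iff₀ hR,
          mul_comm R]
      constructor
      · rintro ⟨h1, h2⟩
        refine ⟨⟨a, h1⟩, ?_, rfl⟩
        show ‖Vw X w (pc ⟨a, h1⟩)‖ ≤ K * r
        rw [hVw, key]
        exact h2
      · rintro ⟨a', h1, rfl⟩
        refine ⟨a'.2, ?_⟩
        have h2 : ‖Vw X w (pc a')‖ ≤ K * r := h1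
        rw [hVw, key] at h2
        exact h2
    rw [himg]
    refine hact.trans ?_
    have h5 : 1 + 1 / (K * r) ≤ 2 * (1 / r) := by
      have : 1 / (K * r) ≤ 1 / r := one_div_le_one_div_of_le hr (by nlinarith)
      linarith
    calc (1 + 1 / (K * r)) * (7 * (C * K)) ^ (m + 1) ≤ 2 * (1 / r) * (7 * (C * K)) ^ (m + 1) := by
          gcongr
      _ = 2 * (7 * C) ^ (m + 1) * K ^ (m + 1) * (1 / r) := by
          rw [show 7 * (C * K) = 7 * C * K by ring, mul_pow (7 * C) K]; ring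
      _ ≤ _ := by
          gcongr
          exact le_add_of_nonneg_right (by positivity)
  · have h1 : 1 / r ≤ 2 * √m / δ := by
      rw [not_le] at hcase
      rw [div_le_div_iff₀ hr hδ]
      nlinarith
    have h2 : (({a : ↥(gi M ×ˢ gk m M) | (∃ p, bcs p0 r M b a.1 p ≠ 0) ∧
        ‖Vw X ξ (pcs p0 r M a.1)‖ ≤ K * r * R}.ncard : ℕ) : ℝ) ≤
        ((Fintype.card ↥(gi M ×ˢ gk m M) : ℕ) : ℝ) := by
      rw [← Nat.card_eq_fintype_card]
      exact_mod_cast Set.ncard_le_card _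
    refine (h2.trans hcard).trans ?_
    calc (4 / r) ^ (m + 1) ≤ (8 * √m / δ) ^ (m + 1) := by
          refine pow_le_pow_left₀ (by positivity) ?_ _
          calc 4 / r = 4 * (1 / r) := by ring
            _ ≤ 4 * (2 * √m / δ) := by gcongr
            _ = 8 * √m / δ := by ring
      _ = (8 * √m / δ) ^ (m + 1) * 1 * 1 := by ring
      _ ≤ (8 * √m / δ) ^ (m + 1) * K ^ (m + 1) * (1 / r) := by gcongr
      _ ≤ _ := by
          gcongr
          exact le_add_of_nonneg_left (by positivity)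

/-- The mass of a piece. -/
theorem c2_mass (m : ℕ) : ∃ D : ℝ, 0 ≤ D ∧ ∀ (p0 : ℝ × E m) (r B0 : ℝ) (M : ℕ)
    (b : ℝ × E m → ℂ) (a : ℕ × (Fin m → ℕ)), 1 ≤ m → 0 < r → (∀ p, ‖b p‖ ≤ B0) →
    ∫⁻ p, ‖bcs p0 r M b a p‖ₑ ^ 2 ≤ ENNReal.ofReal (D * B0 ^ 2 * r ^ (m + 1)) := by
  set v : ℝ := (volume : Measure (ℝ × E m)).real (ball 0 1) with hv
  refine ⟨√m ^ (m + 1) * v, by positivity, ?_⟩
  intro p0 r B0 M b a hm hr hb
  have hB0 : 0 ≤ B0 := (norm_nonneg _).trans (hb 0)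
  have hHaar : (volume : Measure (ℝ × E m)).IsAddHaarMeasure := by
    rw [Measure.volume_eq_prod]
    infer_instance
  set S : Set (ℝ × E m) := closedBall (pcs p0 r M a) (√m * r) with hS
  have h1 : ∀ p, ‖bcs p0 r M b a p‖ₑ ^ 2 ≤ S.indicator (fun _ => ENNReal.ofReal (B0 ^ 2)) p := by
    intro p
    by_cases h2 : bcs p0 r M b a p = 0
    · rw [h2]; simp
    · have h3 : p ∈ S := by
        rw [hS, mem_closedBall, dist_eq_norm]
        exact (bcs_supp hm hr h2).1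
      rw [indicator_of_mem h3, ← ofReal_norm, ← ENNReal.ofReal_pow (norm_nonneg _)]
      refine ENNReal.ofReal_le_ofReal (pow_le_pow_left₀ (norm_nonneg _) ?_ 2)
      exact (bcs_norm_le p0 r M b a p).trans (hb p)
  refine (lintegral_mono h1).trans ?_
  rw [lintegral_indicator measurableSet_closedBall, setLIntegral_const,
    Measure.addHaar_closedBall _ _ (by positivity), ← mul_assoc]
  have h4 : Module.finrank ℝ (ℝ × E m) = m + 1 := by
    rw [Module.finrank_prod, Module.finrank_self, finrank_euclideanSpace_fin, add_comm]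
  have h5 : (volume : Measure (ℝ × E m)) (ball 0 1) = ENNReal.ofReal v := by
    rw [hv, ofReal_measureReal measure_ball_lt_top.ne]
  rw [h4, h5, ← ENNReal.ofReal_mul (by positivity), ← ENNReal.ofReal_mul (by positivity)]
  refine ENNReal.ofReal_le_ofReal (le_of_eq ?_)
  rw [mul_pow]
  ring

/-- The squares of the pieces. -/
theorem c2_sum {m : ℕ} {p0 : ℝ × E m} {δ r : ℝ} (hr : 0 < r) {b : ℝ × E m → ℂ}
    (hbm : Measurable b) (hb : ∀ p, δ ≤ ‖p - p0‖ → b p = 0) :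
    ∑ a : ↥(gi ⌈δ / r⌉₊ ×ˢ gk m ⌈δ / r⌉₊), ∫⁻ p, ‖bcs p0 r ⌈δ / r⌉₊ b a.1 p‖ₑ ^ 2 ≤
      ∫⁻ p, ‖b p‖ₑ ^ 2 := by
  set M : ℕ := ⌈δ / r⌉₊ with hM
  have hδM : δ ≤ r * M := caps_le_ceil hr
  rw [← lintegral_finsetSum _ fun a _ => ((bcs_meas p0 r M hbm a.1).enorm.pow_const 2)]
  refine lintegral_mono fun p => ?_
  rw [Finset.sum_coe_sort (gi M ×ˢ gk m M) fun a => ‖bcs p0 r M b a p‖ₑ ^ 2]
  by_cases h0 : b p = 0
  · refine le_of_eq_of_le (Finset.sum_eq_zero fun a _ => ?_) (zero_le)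
    unfold bcs
    rw [h0, mul_zero]
    simp
  · have h4 : ‖p - p0‖ < δ := by
      by_contra h5
      exact h0 (hb _ (not_lt.1 h5))
    rw [Prod.norm_def] at h4
    have h5 := sum_chi (t0 := p0.1) (z0 := p0.2) hr (M := M)
      (((le_max_left _ _).trans h4.le).trans hδM) (((le_max_right _ _).trans h4.le).trans hδM)
    have h6 : ∀ a : ℕ × (Fin m → ℕ), ‖bcs p0 r M b a p‖ₑ ^ 2 ≤
        ENNReal.ofReal (chi1 p0.1 r M a.1 p.1 * chi2 p0.2 r M a.2 p.2) * ‖b p‖ₑ ^ 2 := by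
      intro a
      have h7 := abs_chi_le p0 r M a p
      have h8 : 0 ≤ chi1 p0.1 r M a.1 p.1 * chi2 p0.2 r M a.2 p.2 :=
        mul_nonneg (chi1_nonneg _ _ _ _ _) (chi2_nonneg _ _ _ _ _)
      set x : ℝ := chi1 p0.1 r M a.1 p.1 * chi2 p0.2 r M a.2 p.2 with hx
      unfold bcs
      rw [← hx, enorm_mul, mul_pow]
      refine mul_le_mul_left ?_ _
      rw [← ofReal_norm, Complex.norm_real, Real.norm_of_nonneg h8, ← ENNReal.ofReal_pow h8]
      refine ENNReal.ofReal_le_ofReal ?_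
      rw [abs_of_nonneg h8] at h7
      nlinarith
    refine (Finset.sum_le_sum fun a _ => h6 a).trans ?_
    rw [← Finset.sum_mul, ← ENNReal.ofReal_sum_of_nonneg fun a _ =>
      mul_nonneg (chi1_nonneg _ _ _ _ _) (chi2_nonneg _ _ _ _ _), h5]
    simp

/-- CASE 2 (`√R ≤ Λ`) from the conclusion of ST4: active caps, ST4 on the caps. -/
theorem case2_of (hm : 1 ≤ m) (hG : Geo X p0 δ c C A)
    (hst : ∀ ε : ℝ, 0 < ε → ∃ C' : ℝ, 0 ≤ C' ∧ ∀ (R : ℝ) (b : ℝ × E m → ℂ), 1 ≤ R →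
      Measurable b → (∃ M, ∀ p, ‖b p‖ ≤ M) → (∀ p, δ ≤ ‖p - p0‖ → b p = 0) →
      ∫⁻ ξ in {ξ : E (m + 2) | ‖ξ‖ ≤ 4 * R}, ‖Tb X b ξ‖ₑ ^ 4 ≤
        ENNReal.ofReal (C' * R ^ ε) * (∫⁻ p, ‖b p‖ₑ ^ 2) ^ 2)
    (B : ℕ → ℝ) {ε : ℝ} (hε : 0 < ε) (N : ℕ) :
    ∃ C' : ℝ, 0 ≤ C' ∧ ∀ (R Λ : ℝ) (b : ℝ × E m → ℂ) (h : ℝ × E m → ℝ), 1 ≤ R → √R ≤ Λ →
      Amp p0 (δ / 2) B Λ b h → R ^ ε * Λ ≤ R →
      ∫⁻ ξ in An (m + 2) R, Sq X p0 (δ / 2) (Λ / R) b ξ ^ 2 ≤
        ENNReal.ofReal (C' * R ^ ε * (Λ / R) ^ m) * (∫⁻ p, ‖b p‖ₑ ^ 2) +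
        ENNReal.ofReal (C' * (1 / R) ^ N) := by
  classical
  have hδ := hG.hδ
  obtain ⟨D1, hD1, hcount⟩ := c2_count hm hG
  obtain ⟨D2, hD2, hmass⟩ := c2_mass m
  obtain ⟨C4, hC4, hst4⟩ := hst (ε / 2) (by positivity)
  obtain ⟨B', hB'0, hB'⟩ := sq_amp m B
  set q : ℝ := ε / (2 * (m + 1)) with hq
  have hq0 : 0 < q := by positivity
  set N1 : ℕ := ⌈((N : ℝ) + 3 * m + 4) / q⌉₊ with hN1
  obtain ⟨C1, hC1, hnsp⟩ := sq_nsp hG B N1
  set v : ℝ := (volume : Measure (E (m + 2))).real (ball 0 1) with hv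
  have hv0 : 0 ≤ v := measureReal_nonneg
  have hB'00 := hB'0 0
  set Ca : ℝ := 2 * D1 * C4 * (D2 * B' 0 ^ 2) with hCa
  set Cb : ℝ := 2 * (4 ^ (m + 1) * C1 ^ 2) ^ 2 * (4 ^ (m + 2) * v) with hCb
  have hCa0 : 0 ≤ Ca := by positivity
  have hCb0 : 0 ≤ Cb := by positivity
  refine ⟨Ca + Cb, by positivity, ?_⟩
  intro R Λ b h hR hRΛ hA hΛR
  have hR0 : 0 < R := by linarith
  have hsR : 1 ≤ √R := Real.one_le_sqrt.2 hR
  have hΛ1 : 1 ≤ Λ := hsR.trans hRΛ
  have hΛ0 : 0 < Λ := by linarith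
  have hRε : 1 ≤ R ^ ε := Real.one_le_rpow hR hε.le
  have hΛR' : Λ ≤ R := (le_mul_of_one_le_left hΛ0.le hRε).trans hΛR
  set r : ℝ := Λ / R with hr
  have hr0 : 0 < r := by positivity
  have hr1 : r ≤ 1 := by rw [hr, div_le_one hR0]; exact hΛR'
  have hrR : r * R = Λ := by rw [hr]; field_simp
  have h1rR : 1 / r ≤ R := by
    rw [hr, one_div_div, div_le_iff₀ hΛ0]
    exact le_mul_of_one_le_right hR0.le hΛ1
  set K : ℝ := R ^ q with hK
  have hK1 : 1 ≤ K := Real.one_le_rpow hR hq0.le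
  have hK0 : 0 < K := by linarith
  have hKm : K ^ (m + 1) = R ^ (ε / 2) := by
    rw [hK, ← Real.rpow_natCast, ← Real.rpow_mul hR0.le]
    congr 1
    rw [hq]
    push_cast
    field_simp
  have hKN : (1 / K) ^ N1 ≤ (1 / R) ^ (N + 3 * m + 4) := by
    have h1 : R ^ (N + 3 * m + 4) ≤ K ^ N1 := by
      rw [hK, ← Real.rpow_natCast (R ^ q), ← Real.rpow_mul hR0.le, ← Real.rpow_natCast R]
      refine Real.rpow_le_rpow_of_exponent_le hR ?_
      have := Nat.le_ceil (((N : ℝ) + 3 * m + 4) / q)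
      rw [← hN1, div_le_iff₀ hq0] at this
      push_cast
      linarith
    rw [one_div_pow, one_div_pow]
    exact one_div_le_one_div_of_le (by positivity) h1
  set M : ℕ := ⌈δ / 2 / r⌉₊ with hM
  have hmax : max Λ √R = Λ := max_eq_left hRΛ
  have hb0 : ∀ p, ‖b p‖ ≤ B' 0 := by
    rintro ⟨t, z⟩
    have := hB' p0 (δ / 2) Λ Λ b h hΛ1 le_rfl hA t 0 z
    rwa [norm_iteratedFDeriv_zero, pow_zero, mul_one] at this
  have hbs : ∀ (a : ℕ × (Fin m → ℕ)) p, b p = 0 → bcs p0 r M b a p = 0 := by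
    intro a p h1
    unfold bcs
    rw [h1, mul_zero]
  have hbi : ∀ a : ℕ × (Fin m → ℕ), Integrable (bcs p0 r M b a) := fun a =>
    (core_int (bcs_meas p0 r M hA.meas a) (B0 := B' 0) (δ := δ / 2) (p0 := p0)
      (fun p => (bcs_norm_le p0 r M b a p).trans (hb0 p))
      fun p hp => hbs a p (hA.supp p hp.le)).1
  set f : ↥(gi M ×ˢ gk m M) → E (m + 2) → ℂ := fun a ξ => Tb X (bcs p0 r M b a.1) ξ with hf
  have hfm : ∀ a, Measurable (f a) := fun a =>
    (c2_Tb_cont hG.hX.continuous (hbi a.1)).measurable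
  set act : E (m + 2) → Set ↥(gi M ×ˢ gk m M) := fun ξ =>
    {a | (∃ p, bcs p0 r M b a.1 p ≠ 0) ∧ ‖Vw X ξ (pcs p0 r M a.1)‖ ≤ K * r * R} with hact
  set e : ℝ := C1 * (1 / K) ^ N1 with he
  have he0 : 0 ≤ e := by positivity
  have hAn : MeasurableSet (An (m + 2) R) := by
    unfold An
    exact (measurableSet_le measurable_const measurable_norm).inter
      (measurableSet_le measurable_norm measurable_const)
  set NN : ℝ := D1 * K ^ (m + 1) / r with hNN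
  have hNN0 : 0 ≤ NN := by positivity
  have main := Pool.Agent.LF.ACT.cs_int (volume.restrict (An (m + 2) R)) f hfm act (N := NN)
    (e := e) hNN0
    ((ae_restrict_iff' hAn).2 (Filter.Eventually.of_forall fun ξ hξ =>
      hcount R r K b ξ hR0 hr0 hr1 hK1 hA.supp hξ))
    ((ae_restrict_iff' hAn).2 (Filter.Eventually.of_forall fun ξ hξ a ha => by
      by_cases h1 : ∃ p, bcs p0 r M b a.1 p ≠ 0
      · have h2 : K * r * R < ‖Vw X ξ (pcs p0 r M a.1)‖ := by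
          by_contra h3
          exact ha ⟨h1, not_lt.1 h3⟩
        have h3 := hnsp (δ / 2) R Λ b h hR hΛ1 hA M a.1 ξ (hξ.2.trans (by linarith))
        rw [hmax, ← hr] at h3
        refine h3.trans ?_
        rw [he]
        have h4 : K ≤ ‖Vw X ξ (pcs p0 r M a.1)‖ / Λ := by
          rw [le_div_iff₀ hΛ0, ← hrR, ← mul_assoc]
          exact h2.le
        have h5 : 1 / (1 + ‖Vw X ξ (pcs p0 r M a.1)‖ / Λ) ≤ 1 / K :=
          one_div_le_one_div_of_le hK0 (by linarith)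
        have h6 : r ^ (m + 1) ≤ 1 := pow_le_one₀ hr0.le hr1
        calc C1 * r ^ (m + 1) * (1 / (1 + ‖Vw X ξ (pcs p0 r M a.1)‖ / Λ)) ^ N1 ≤
              C1 * 1 * (1 / K) ^ N1 := by gcongr
          _ = C1 * (1 / K) ^ N1 := by rw [mul_one]
      · have h2 : ∀ p, bcs p0 r M b a.1 p = 0 := fun p => by
          by_contra h3
          exact h1 ⟨p, h3⟩
        have h3 : f a ξ = 0 := by
          rw [hf]
          simp only [Tb, h2, zero_mul, integral_zero]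
        rw [h3, norm_zero]
        exact he0))
  have e1 : ∫⁻ ξ in An (m + 2) R, Sq X p0 (δ / 2) r b ξ ^ 2 =
      ∫⁻ ξ in An (m + 2) R, (∑ a, ‖f a ξ‖ₑ ^ 2) ^ 2 := rfl
  rw [e1]
  refine main.trans (add_le_add ?_ ?_)
  · -- ST4 on the caps
    have h1 : ∀ a : ↥(gi M ×ˢ gk m M), ∫⁻ ξ in An (m + 2) R, ‖f a ξ‖ₑ ^ 4 ≤
        ENNReal.ofReal (C4 * R ^ (ε / 2)) * (ENNReal.ofReal (D2 * B' 0 ^ 2 * r ^ (m + 1)) *
          ∫⁻ p, ‖bcs p0 r M b a.1 p‖ₑ ^ 2) := by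
      intro a
      have h2 := hst4 R (bcs p0 r M b a.1) hR (bcs_meas p0 r M hA.meas a.1)
        ⟨B' 0, fun p => (bcs_norm_le p0 r M b a.1 p).trans (hb0 p)⟩
        fun p hp => hbs a.1 p (hA.supp p (by linarith))
      refine (lintegral_mono_set fun ξ hξ => hξ.2).trans (h2.trans ?_)
      gcongr
      rw [sq]
      gcongr
      exact hmass p0 r (B' 0) M b a.1 hm hr0 hb0
    calc ENNReal.ofReal (2 * NN) * ∑ a, ∫⁻ ξ in An (m + 2) R, ‖f a ξ‖ₑ ^ 4 ≤
          ENNReal.ofReal (2 * NN) * ∑ a : ↥(gi M ×ˢ gk m M),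
            ENNReal.ofReal (C4 * R ^ (ε / 2)) * (ENNReal.ofReal (D2 * B' 0 ^ 2 * r ^ (m + 1)) *
              ∫⁻ p, ‖bcs p0 r M b a.1 p‖ₑ ^ 2) := by
          gcongr with a _
          exact h1 a
      _ = ENNReal.ofReal (2 * NN) * (ENNReal.ofReal (C4 * R ^ (ε / 2)) *
            (ENNReal.ofReal (D2 * B' 0 ^ 2 * r ^ (m + 1)) *
            ∑ a : ↥(gi M ×ˢ gk m M), ∫⁻ p, ‖bcs p0 r M b a.1 p‖ₑ ^ 2)) := by
          rw [← Finset.mul_sum, ← Finset.mul_sum]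
      _ ≤ ENNReal.ofReal (2 * NN) * (ENNReal.ofReal (C4 * R ^ (ε / 2)) *
            (ENNReal.ofReal (D2 * B' 0 ^ 2 * r ^ (m + 1)) * ∫⁻ p, ‖b p‖ₑ ^ 2)) := by
          gcongr
          exact c2_sum hr0 hA.meas hA.supp
      _ = ENNReal.ofReal (2 * NN * (C4 * R ^ (ε / 2)) * (D2 * B' 0 ^ 2 * r ^ (m + 1))) *
            ∫⁻ p, ‖b p‖ₑ ^ 2 := by
          rw [← mul_assoc, ← mul_assoc, ← ENNReal.ofReal_mul (by positivity),
            ← ENNReal.ofReal_mul (by positivity)]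
      _ ≤ ENNReal.ofReal ((Ca + Cb) * R ^ ε * r ^ m) * ∫⁻ p, ‖b p‖ₑ ^ 2 := by
          refine mul_le_mul_left (ENNReal.ofReal_le_ofReal ?_) _
          calc 2 * NN * (C4 * R ^ (ε / 2)) * (D2 * B' 0 ^ 2 * r ^ (m + 1)) =
                Ca * (R ^ (ε / 2) * R ^ (ε / 2)) * r ^ m := by
                have h9 : r ^ (m + 1) / r = r ^ m := by
                  rw [pow_succ, mul_div_cancel_right₀ _ hr0.ne']
                rw [hNN, hKm, hCa, ← h9]
                ring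
            _ = Ca * R ^ ε * r ^ m := by
                rw [← Real.rpow_add hR0, add_halves]
            _ ≤ (Ca + Cb) * R ^ ε * r ^ m := by
                gcongr
                exact le_add_of_nonneg_right hCb0
  · -- the tail
    have hcd := c2_card m hG.hδ1 hδ hr0 hr1
    rw [← hM] at hcd
    have h4r : 4 / r = 4 * (1 / r) := by ring
    rw [h4r] at hcd
    have hcd2 : ((Fintype.card ↥(gi M ×ˢ gk m M) : ℕ) : ℝ) ≤ (4 * R) ^ (m + 1) :=
      hcd.trans (pow_le_pow_left₀ (by positivity) (by linarith) _)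
    have hvol : (volume.restrict (An (m + 2) R)) univ ≤ ENNReal.ofReal ((4 * R) ^ (m + 2) * v) := by
      rw [Measure.restrict_apply_univ]
      have h1 : An (m + 2) R ⊆ closedBall 0 (4 * R) := fun ξ hξ => by
        rw [mem_closedBall, dist_zero_right]
        exact hξ.2
      refine (measure_mono h1).trans (le_of_eq ?_)
      rw [Measure.addHaar_closedBall _ _ (by positivity), finrank_euclideanSpace_fin,
        ENNReal.ofReal_mul (by positivity), hv, ofReal_measureReal measure_ball_lt_top.ne]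
    set x : ℝ := (1 / K) ^ N1 with hx
    have hx0 : 0 ≤ x := by positivity
    have hx1 : x ≤ 1 := pow_le_one₀ (by positivity) (by rw [div_le_one hK0]; exact hK1)
    have hx4 : x ^ 4 ≤ (1 / R) ^ (N + 3 * m + 4) := by
      refine le_trans ?_ hKN
      calc x ^ 4 ≤ x ^ 1 := pow_le_pow_of_le_one hx0 hx1 (by norm_num)
        _ = x := pow_one x
    calc ENNReal.ofReal (2 * ((Fintype.card ↥(gi M ×ˢ gk m M) : ℝ) * e ^ 2) ^ 2) *
          (volume.restrict (An (m + 2) R)) univ ≤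
          ENNReal.ofReal (2 * ((Fintype.card ↥(gi M ×ˢ gk m M) : ℝ) * e ^ 2) ^ 2) *
            ENNReal.ofReal ((4 * R) ^ (m + 2) * v) := by gcongr
      _ = ENNReal.ofReal (2 * ((Fintype.card ↥(gi M ×ˢ gk m M) : ℝ) * e ^ 2) ^ 2 *
            ((4 * R) ^ (m + 2) * v)) := by rw [← ENNReal.ofReal_mul (by positivity)]
      _ ≤ ENNReal.ofReal ((Ca + Cb) * (1 / R) ^ N) := by
          refine ENNReal.ofReal_le_ofReal ?_
          calc 2 * ((Fintype.card ↥(gi M ×ˢ gk m M) : ℝ) * e ^ 2) ^ 2 * ((4 * R) ^ (m + 2) * v) ≤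
                2 * ((4 * R) ^ (m + 1) * e ^ 2) ^ 2 * ((4 * R) ^ (m + 2) * v) := by gcongr
            _ = Cb * (R ^ (3 * m + 4) * x ^ 4) := by
                rw [he, hCb]
                simp only [mul_pow]
                ring
            _ ≤ Cb * (R ^ (3 * m + 4) * (1 / R) ^ (N + 3 * m + 4)) := by gcongr
            _ = Cb * (1 / R) ^ N := by
                have h6 : (1 / R) ^ (N + 3 * m + 4) = (1 / R) ^ N * (1 / R) ^ (3 * m + 4) := by
                  rw [add_assoc N, pow_add]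
                have h7 : R ^ (3 * m + 4) * (1 / R) ^ (3 * m + 4) = 1 := by
                  rw [← mul_pow, mul_one_div_cancel hR0.ne', one_pow]
                rw [h6]
                calc Cb * (R ^ (3 * m + 4) * ((1 / R) ^ N * (1 / R) ^ (3 * m + 4))) =
                      Cb * (1 / R) ^ N * (R ^ (3 * m + 4) * (1 / R) ^ (3 * m + 4)) := by ring
                  _ = Cb * (1 / R) ^ N := by rw [h7, mul_one]
            _ ≤ (Ca + Cb) * (1 / R) ^ N := by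
                gcongr
                exact le_add_of_nonneg_left hCa0

/-- CASE 2 (`√R ≤ Λ`): active caps, ST4 on the caps. -/
theorem case2 (hm : 1 ≤ m) (hG : Geo X p0 δ c C A) (B : ℕ → ℝ) {ε : ℝ} (hε : 0 < ε) (N : ℕ) :
    ∃ C' : ℝ, 0 ≤ C' ∧ ∀ (R Λ : ℝ) (b : ℝ × E m → ℂ) (h : ℝ × E m → ℝ), 1 ≤ R → √R ≤ Λ →
      Amp p0 (δ / 2) B Λ b h → R ^ ε * Λ ≤ R →
      ∫⁻ ξ in An (m + 2) R, Sq X p0 (δ / 2) (Λ / R) b ξ ^ 2 ≤
        ENNReal.ofReal (C' * R ^ ε * (Λ / R) ^ m) * (∫⁻ p, ‖b p‖ₑ ^ 2) +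
        ENNReal.ofReal (C' * (1 / R) ^ N) :=
  case2_of hm hG (fun _ he => st4 hm hG he) B hε N

end Pool.Agent.LF2
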