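import Pool.Agent.MP_6cbfb8_an.Defs

/-!
Dyadic decomposition of a density which is Hölder continuous along the leaves and only measurable
across.
-/

set_option autoImplicit false

namespace Pool.Agent.LF2

open MeasureTheory Set Metric Filter Topology Pool.Agent.MP_6cbfb8_an
open scoped ENNReal Real ContDiff Convolution

section conv

variable {m : ℕ}

theorem lpz_int {h : E m → ℂ} (hh : LocallyIntegrable h volume) {V : Type} [NormedAddCommGroup V]
    {K : E m → V} (hK : Continuous K) (hc : HasCompactSupport K) (z : E m) :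
    Integrable (fun y => ‖h y‖ * ‖K (z - y)‖) (volume : Measure (E m)) := by
  have h2 : Continuous fun y => ‖K (z - y)‖ := by fun_prop
  have h3 : HasCompactSupport fun y => ‖K (z - y)‖ := by
    have h4 : HasCompactSupport fun y => K (z - y) :=
      hc.comp_homeomorph (Homeomorph.subLeft z)
    exact h4.norm
  have h5 := (hh.integrable_smul_left_of_hasCompactSupport h2 h3).norm
  refine h5.congr (Eventually.of_forall fun y => ?_)
  simp only [norm_smul, norm_norm]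
  ring

/-- The derivatives of a convolution. -/
theorem lpz_conv {h : E m → ℂ} (hh : LocallyIntegrable h volume) (j : ℕ) :
    ∀ (V W : Type) [NormedAddCommGroup V] [NormedSpace ℝ V] [NormedAddCommGroup W] [NormedSpace ℝ W]
      [CompleteSpace W] (L : ℂ →L[ℝ] V →L[ℝ] W) (K : E m → V), ContDiff ℝ ∞ K →
      HasCompactSupport K → ∀ z, ‖iteratedFDeriv ℝ j (h ⋆[L, volume] K) z‖ ≤
        ‖L‖ * ∫ y, ‖h y‖ * ‖iteratedFDeriv ℝ j K (z - y)‖ := by
  induction j with
  | zero =>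
    intro V W _ _ _ _ _ L K hK hc z
    rw [norm_iteratedFDeriv_zero]
    simp only [norm_iteratedFDeriv_zero]
    rw [← integral_const_mul]
    refine norm_integral_le_of_norm_le ((lpz_int hh hK.continuous hc z).const_mul _)
      (Eventually.of_forall fun y => ?_)
    calc ‖L (h y) (K (z - y))‖ ≤ ‖L‖ * ‖h y‖ * ‖K (z - y)‖ := L.le_opNorm₂ _ _
      _ = _ := by ring
  | succ j ih =>
    intro V W _ _ _ _ _ L K hK hc z
    have h1 : fderiv ℝ (h ⋆[L, volume] K) = h ⋆[L.precompR (E m), volume] fderiv ℝ K :=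
      funext fun z => (hc.hasFDerivAt_convolution_right L hh (hK.of_le (by simp)) z).fderiv
    rw [← norm_iteratedFDeriv_fderiv, h1]
    have h2 := ih (E m →L[ℝ] V) (E m →L[ℝ] W) (L.precompR (E m)) (fderiv ℝ K)
      (hK.fderiv_right (by simp)) (hc.fderiv ℝ) z
    refine h2.trans ?_
    simp only [norm_iteratedFDeriv_fderiv]
    refine mul_le_mul_of_nonneg_right (ContinuousLinearMap.norm_precompR_le (E m) L)
      (integral_nonneg fun y => by positivity)

/-- The convolution in `z`. -/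
noncomputable def cz (K : E m → ℝ) (b : ℝ × E m → ℂ) (p : ℝ × E m) : ℂ :=
  ∫ y, (K (p.2 - y) : ℂ) * b (p.1, y)

theorem measurable_cz {K : E m → ℝ} (hK : Continuous K) {b : ℝ × E m → ℂ} (hb : Measurable b) :
    Measurable (cz K b) := by
  have h1 : Measurable fun q : (ℝ × E m) × E m => (K (q.1.2 - q.2) : ℂ) * b (q.1.1, q.2) := by
    refine Measurable.mul ?_ (hb.comp (by fun_prop))
    exact (Complex.continuous_ofReal.comp (hK.comp (by fun_prop))).measurable
  exact (h1.stronglyMeasurable.integral_prod_right').measurable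

theorem lpz_loc {b : ℝ × E m → ℂ} (hb : Measurable b) {B : ℝ} (t : ℝ) (hB : ∀ z, ‖b (t, z)‖ ≤ B) :
    LocallyIntegrable (fun y => b (t, y)) (volume : Measure (E m)) := by
  have h1 : LocallyIntegrable (fun _ : E m => B) (volume : Measure (E m)) :=
    locallyIntegrable_const B
  exact h1.mono (hb.comp (by fun_prop : Measurable fun y : E m => (t, y))).aestronglyMeasurable
    (Eventually.of_forall fun y => by
    rw [Real.norm_eq_abs]
    exact (hB y).trans (le_abs_self B))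

theorem cz_eq {K : E m → ℝ} (b : ℝ × E m → ℂ) (t : ℝ) : (fun z => cz K b (t, z)) =
    ((fun y => b (t, y)) ⋆[(ContinuousLinearMap.lsmul ℝ ℝ : ℝ →L[ℝ] ℂ →L[ℝ] ℂ).flip, volume] K) := by
  funext z
  rw [cz, convolution_def]
  refine integral_congr_ae (Eventually.of_forall fun y => ?_)
  simp

theorem lpz_L : ‖(ContinuousLinearMap.lsmul ℝ ℝ : ℝ →L[ℝ] ℂ →L[ℝ] ℂ).flip‖ ≤ 1 := by
  rw [ContinuousLinearMap.opNorm_flip]
  exact ContinuousLinearMap.opNorm_lsmul_le

theorem cz_smooth {K : E m → ℝ} (hK : ContDiff ℝ ∞ K) (hc : HasCompactSupport K)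
    {b : ℝ × E m → ℂ} (hb : Measurable b) {B : ℝ} {t : ℝ} (hB : ∀ z, ‖b (t, z)‖ ≤ B) :
    ContDiff ℝ ∞ fun z => cz K b (t, z) := by
  rw [cz_eq]
  exact hc.contDiff_convolution_right _ (lpz_loc hb t hB) hK

/-- The derivatives of a convolution with a bounded function. -/
theorem cz_bound {K : E m → ℝ} (hK : ContDiff ℝ ∞ K) (hc : HasCompactSupport K)
    {b : ℝ × E m → ℂ} (hb : Measurable b) {B : ℝ} {t : ℝ} (hB : ∀ z, ‖b (t, z)‖ ≤ B) (j : ℕ)
    (z : E m) : ‖iteratedFDeriv ℝ j (fun z => cz K b (t, z)) z‖ ≤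
      B * ∫ y, ‖iteratedFDeriv ℝ j K y‖ := by
  rw [cz_eq]
  have h1 := lpz_conv (lpz_loc hb t hB) j ℝ ℂ
    (ContinuousLinearMap.lsmul ℝ ℝ : ℝ →L[ℝ] ℂ →L[ℝ] ℂ).flip K hK hc z
  have hKj : Continuous (iteratedFDeriv ℝ j K) :=
    hK.continuous_iteratedFDeriv (by exact_mod_cast le_top)
  have hcj : HasCompactSupport (iteratedFDeriv ℝ j K) := hc.iteratedFDeriv j
  have hint : Integrable (fun y => ‖iteratedFDeriv ℝ j K y‖) (volume : Measure (E m)) :=
    (hKj.integrable_of_hasCompactSupport hcj).norm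
  calc _ ≤ 1 * ∫ y, ‖b (t, y)‖ * ‖iteratedFDeriv ℝ j K (z - y)‖ :=
        h1.trans (mul_le_mul_of_nonneg_right lpz_L (integral_nonneg fun y => by positivity))
    _ ≤ ∫ y, B * ‖iteratedFDeriv ℝ j K (z - y)‖ := by
        rw [one_mul]
        refine integral_mono (lpz_int (lpz_loc hb t hB) hKj hcj z) ((hint.comp_sub_left z).const_mul B)
          fun y => mul_le_mul_of_nonneg_right (hB y) (norm_nonneg _)
    _ = B * ∫ y, ‖iteratedFDeriv ℝ j K y‖ := by
        rw [integral_const_mul, integral_sub_left_eq_self (fun y => ‖iteratedFDeriv ℝ j K y‖)]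

theorem cz_sub {K : E m → ℝ} (b : ℝ × E m → ℂ) (t : ℝ) (z : E m) :
    cz K b (t, z) = ∫ u, (K u : ℂ) * b (t, z - u) := by
  rw [cz, ← integral_sub_left_eq_self (fun y => ((K (z - y) : ℝ) : ℂ) * b (t, y)) _ z]
  refine integral_congr_ae (Eventually.of_forall fun u => ?_)
  simp

theorem lpz_prod {K1 K2 : E m → ℝ} (h1 : Continuous K1) (c1 : HasCompactSupport K1)
    (h2 : Continuous K2) (c2 : HasCompactSupport K2) {b : ℝ × E m → ℂ} (hb : Measurable b) {B : ℝ}
    {t : ℝ} (hB : ∀ z, ‖b (t, z)‖ ≤ B) (z : E m) :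
    Integrable (Function.uncurry fun u v : E m => (K1 u : ℂ) * ((K2 v : ℂ) * b (t, z - u - v)))
      ((volume : Measure (E m)).prod volume) := by
  have i1 : Integrable (fun u => (K1 u : ℂ)) (volume : Measure (E m)) :=
    (h1.integrable_of_hasCompactSupport c1).ofReal
  have i2 : Integrable (fun u => (K2 u : ℂ)) (volume : Measure (E m)) :=
    (h2.integrable_of_hasCompactSupport c2).ofReal
  have h3 := (i1.mul_prod i2).mul_bdd (c := B) (g := fun q : E m × E m => b (t, z - q.1 - q.2))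
    (hb.comp (by fun_prop : Measurable fun q : E m × E m => (t, z - q.1 - q.2))).aestronglyMeasurable
    (Eventually.of_forall fun q => hB _)
  refine h3.congr (Eventually.of_forall fun q => ?_)
  simp only [Function.uncurry]
  ring

theorem cz_comm {K1 K2 : E m → ℝ} (h1 : Continuous K1) (c1 : HasCompactSupport K1)
    (h2 : Continuous K2) (c2 : HasCompactSupport K2) {b : ℝ × E m → ℂ} (hb : Measurable b) {B : ℝ}
    {t : ℝ} (hB : ∀ z, ‖b (t, z)‖ ≤ B) (z : E m) :
    cz K1 (cz K2 b) (t, z) = cz K2 (cz K1 b) (t, z) := by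
  have e1 : ∀ (K1 K2 : E m → ℝ), cz K1 (cz K2 b) (t, z) =
      ∫ u, ∫ v, (K1 u : ℂ) * ((K2 v : ℂ) * b (t, z - u - v)) := by
    intro K1 K2
    rw [cz_sub]
    refine integral_congr_ae (Eventually.of_forall fun u => ?_)
    simp only
    rw [cz_sub, integral_const_mul]
  rw [e1 K1 K2, e1 K2 K1, integral_integral_swap (lpz_prod h1 c1 h2 c2 hb hB z)]
  refine integral_congr_ae (Eventually.of_forall fun v => ?_)
  refine integral_congr_ae (Eventually.of_forall fun u => ?_)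
  simp only
  rw [sub_right_comm z u v]
  ring

theorem cz_int {K : E m → ℝ} (hK : Continuous K) (hc : HasCompactSupport K)
    {b : ℝ × E m → ℂ} (hb : Measurable b) {B : ℝ} {t : ℝ} (hB : ∀ z, ‖b (t, z)‖ ≤ B) (z : E m) :
    Integrable (fun u => (K u : ℂ) * b (t, z - u)) (volume : Measure (E m)) :=
  (hK.integrable_of_hasCompactSupport hc).ofReal.mul_bdd (c := B)
    (hb.comp (by fun_prop : Measurable fun u : E m => (t, z - u))).aestronglyMeasurable
    (Eventually.of_forall fun q => hB _)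

theorem cz_add_left {K1 K2 : E m → ℝ} (h1 : Continuous K1) (c1 : HasCompactSupport K1)
    (h2 : Continuous K2) (c2 : HasCompactSupport K2) {b : ℝ × E m → ℂ} (hb : Measurable b) {B : ℝ}
    {t : ℝ} (hB : ∀ z, ‖b (t, z)‖ ≤ B) (z : E m) :
    cz (fun u => K1 u + K2 u) b (t, z) = cz K1 b (t, z) + cz K2 b (t, z) := by
  rw [cz_sub, cz_sub, cz_sub, ← integral_add (cz_int h1 c1 hb hB z) (cz_int h2 c2 hb hB z)]
  refine integral_congr_ae (Eventually.of_forall fun v => ?_)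
  simp only [Complex.ofReal_add]
  ring

theorem cz_sub_left {K1 K2 : E m → ℝ} (h1 : Continuous K1) (c1 : HasCompactSupport K1)
    (h2 : Continuous K2) (c2 : HasCompactSupport K2) {b : ℝ × E m → ℂ} (hb : Measurable b) {B : ℝ}
    {t : ℝ} (hB : ∀ z, ‖b (t, z)‖ ≤ B) (z : E m) :
    cz (fun u => K1 u - K2 u) b (t, z) = cz K1 b (t, z) - cz K2 b (t, z) := by
  rw [cz_sub, cz_sub, cz_sub, ← integral_sub (cz_int h1 c1 hb hB z) (cz_int h2 c2 hb hB z)]
  refine integral_congr_ae (Eventually.of_forall fun v => ?_)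
  simp only [Complex.ofReal_sub]
  ring

theorem cz_sub_right {K : E m → ℝ} (hK : Continuous K) (hc : HasCompactSupport K)
    {b b' : ℝ × E m → ℂ} (hb : Measurable b) (hb' : Measurable b') {B B' : ℝ}
    {t : ℝ} (hB : ∀ z, ‖b (t, z)‖ ≤ B) (hB' : ∀ z, ‖b' (t, z)‖ ≤ B') (z : E m) :
    cz K (fun p => b p - b' p) (t, z) = cz K b (t, z) - cz K b' (t, z) := by
  rw [cz_sub, cz_sub, cz_sub, ← integral_sub (cz_int hK hc hb hB z) (cz_int hK hc hb' hB' z)]
  refine integral_congr_ae (Eventually.of_forall fun v => ?_)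
  ring

/-- Young's inequality in `L^∞`. -/
theorem cz_norm_le {K : E m → ℝ} (hK : Continuous K) (hc : HasCompactSupport K)
    {b : ℝ × E m → ℂ} {B : ℝ} {t : ℝ} (hB : ∀ z, ‖b (t, z)‖ ≤ B) (z : E m) :
    ‖cz K b (t, z)‖ ≤ B * ∫ y, |K y| := by
  rw [cz_sub, ← integral_const_mul]
  refine norm_integral_le_of_norm_le
    (((hK.integrable_of_hasCompactSupport hc).abs).const_mul B) (Eventually.of_forall fun u => ?_)
  rw [norm_mul, Complex.norm_real, Real.norm_eq_abs, mul_comm]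
  exact mul_le_mul_of_nonneg_right (hB _) (abs_nonneg _)

/-- Young's inequality in `L^1`. -/
theorem cz_lintegral_le {K : E m → ℝ} (hK : Continuous K) {b : ℝ × E m → ℂ} (hb : Measurable b)
    (t : ℝ) : ∫⁻ z, ‖cz K b (t, z)‖ₑ ≤ (∫⁻ y, ‖K y‖ₑ) * ∫⁻ z, ‖b (t, z)‖ₑ := by
  have hm : Measurable fun q : E m × E m => ‖K q.2‖ₑ * ‖b (t, q.1 - q.2)‖ₑ := by
    have h1 : Measurable fun q : E m × E m => ‖K q.2‖ₑ :=
      (hK.measurable.comp measurable_snd).enorm
    have h2 : Measurable fun q : E m × E m => ‖b (t, q.1 - q.2)‖ₑ :=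
      (hb.comp (by fun_prop : Measurable fun q : E m × E m => (t, q.1 - q.2))).enorm
    exact h1.mul h2
  calc ∫⁻ z, ‖cz K b (t, z)‖ₑ ≤ ∫⁻ z, ∫⁻ u, ‖K u‖ₑ * ‖b (t, z - u)‖ₑ := by
        refine lintegral_mono fun z => ?_
        simp only
        rw [cz_sub]
        refine (enorm_integral_le_lintegral_enorm _).trans (lintegral_mono fun u => ?_)
        simp only
        rw [enorm_mul]
        refine mul_le_mul_left (le_of_eq ?_) _
        rw [← ofReal_norm, ← ofReal_norm, Complex.norm_real]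
    _ = ∫⁻ u, ∫⁻ z, ‖K u‖ₑ * ‖b (t, z - u)‖ₑ := lintegral_lintegral_swap hm.aemeasurable
    _ = ∫⁻ u, ‖K u‖ₑ * ∫⁻ z, ‖b (t, z)‖ₑ := by
        refine lintegral_congr fun u => ?_
        have h2 : Measurable fun z : E m => ‖b (t, z - u)‖ₑ :=
          (hb.comp (by fun_prop : Measurable fun z : E m => (t, z - u))).enorm
        rw [lintegral_const_mul _ h2, lintegral_sub_right_eq_self (fun z => ‖b (t, z)‖ₑ) u]
    _ = _ := by
        rw [lintegral_mul_const _ hK.measurable.enorm]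

/-- The kernel at scale `1`: smooth, nonnegative, supported in the unit ball, of integral `1`. -/
noncomputable def k0 : E m → ℝ :=
  (⟨1 / 2, 1, by norm_num, by norm_num⟩ : ContDiffBump (0 : E m)).normed volume

theorem k0_smooth : ContDiff ℝ ∞ (k0 : E m → ℝ) := ContDiffBump.contDiff_normed _

theorem k0_nonneg (z : E m) : 0 ≤ k0 z := ContDiffBump.nonneg_normed _ z

theorem k0_int : ∫ z : E m, k0 z = 1 := ContDiffBump.integral_normed _

theorem k0_supp {z : E m} (hz : 1 ≤ ‖z‖) : k0 z = 0 := by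
  have h1 : Function.support (k0 : E m → ℝ) = ball 0 1 := ContDiffBump.support_normed_eq _
  by_contra h
  have h2 : z ∈ Function.support (k0 : E m → ℝ) := h
  rw [h1, mem_ball_zero_iff] at h2
  linarith

theorem k0_compact : HasCompactSupport (k0 : E m → ℝ) := ContDiffBump.hasCompactSupport_normed _

/-- The kernel at scale `1 / W`. -/
noncomputable def kz (W : ℝ) (z : E m) : ℝ := W ^ m * k0 (W • z)

theorem kz_smooth (W : ℝ) : ContDiff ℝ ∞ (kz W : E m → ℝ) :=
  contDiff_const.mul (k0_smooth.comp (contDiff_id.const_smul W))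

theorem kz_nonneg {W : ℝ} (hW : 0 < W) (z : E m) : 0 ≤ kz W z :=
  mul_nonneg (by positivity) (k0_nonneg _)

theorem kz_supp {W : ℝ} (hW : 0 < W) {z : E m} (hz : 1 / W ≤ ‖z‖) : kz W z = 0 := by
  rw [kz, k0_supp, mul_zero]
  rw [norm_smul, Real.norm_of_nonneg hW.le]
  rw [div_le_iff₀ hW] at hz
  linarith

theorem kz_compact {W : ℝ} (hW : 0 < W) : HasCompactSupport (kz W : E m → ℝ) :=
  HasCompactSupport.intro (isCompact_closedBall (0 : E m) (1 / W)) fun z hz => by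
    rw [mem_closedBall_zero_iff, not_le] at hz
    exact kz_supp hW hz.le

theorem kz_scale {V : Type} [NormedAddCommGroup V] [NormedSpace ℝ V] {W : ℝ} (hW : 0 < W)
    (g : E m → V) : ∫ z : E m, g (W • z) = (W ^ m)⁻¹ • ∫ z, g z := by
  rw [Measure.integral_comp_smul, finrank_euclideanSpace_fin, abs_of_pos (by positivity)]

theorem kz_int {W : ℝ} (hW : 0 < W) : ∫ z : E m, kz W z = 1 := by
  simp only [kz]
  rw [integral_const_mul, kz_scale hW k0, k0_int, smul_eq_mul, mul_one]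
  exact mul_inv_cancel₀ (by positivity)

theorem kz_abs_int {W : ℝ} (hW : 0 < W) : ∫ z : E m, |kz W z| = 1 := by
  rw [← kz_int (m := m) hW]
  refine integral_congr_ae (Eventually.of_forall fun z => abs_of_nonneg (kz_nonneg hW z))

/-- The integrals of the derivatives of the kernel at scale `1`. -/
noncomputable def kc (m j : ℕ) : ℝ := ∫ z : E m, ‖iteratedFDeriv ℝ j (k0 : E m → ℝ) z‖

theorem kc_nonneg (m j : ℕ) : 0 ≤ kc m j := integral_nonneg fun _ => norm_nonneg _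

theorem kz_deriv_int {W : ℝ} (hW : 0 < W) (j : ℕ) :
    ∫ z : E m, ‖iteratedFDeriv ℝ j (kz W : E m → ℝ) z‖ = W ^ j * kc m j := by
  have h1 : ∀ z : E m, ‖iteratedFDeriv ℝ j (kz W : E m → ℝ) z‖ =
      W ^ m * (W ^ j * ‖iteratedFDeriv ℝ j (k0 : E m → ℝ) (W • z)‖) := by
    intro z
    have e1 : (kz W : E m → ℝ) = fun z => W ^ m • k0 (W • z) := by
      funext z
      rw [kz, smul_eq_mul]
    have e2 : ContDiff ℝ j (k0 : E m → ℝ) := k0_smooth.of_le (by exact_mod_cast le_top)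
    have e3 : ContDiffAt ℝ j (fun z : E m => k0 (W • z)) z :=
      (e2.comp (contDiff_id.const_smul W)).contDiffAt
    rw [e1, iteratedFDeriv_const_smul_apply' e3, iteratedFDeriv_comp_const_smul W e2]
    rw [norm_smul, norm_smul, norm_pow, norm_pow, Real.norm_of_nonneg hW.le]
  simp only [h1]
  rw [integral_const_mul, integral_const_mul,
    kz_scale hW (fun z => ‖iteratedFDeriv ℝ j (k0 : E m → ℝ) z‖), smul_eq_mul, kc]
  field_simp

theorem kz_deriv_integrable {W : ℝ} (hW : 0 < W) (j : ℕ) :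
    Integrable (fun z : E m => ‖iteratedFDeriv ℝ j (kz W : E m → ℝ) z‖) volume :=
  (((kz_smooth W).continuous_iteratedFDeriv (by exact_mod_cast le_top)).integrable_of_hasCompactSupport
    ((kz_compact hW).iteratedFDeriv j)).norm

/-- Sum and difference of two kernels. -/
noncomputable def kp (W : ℝ) (z : E m) : ℝ := kz (2 * W) z + kz W z

/-- Difference of two kernels. -/
noncomputable def kd (W : ℝ) (z : E m) : ℝ := kz (2 * W) z - kz W z

theorem kp_smooth (W : ℝ) : ContDiff ℝ ∞ (kp W : E m → ℝ) := (kz_smooth _).add (kz_smooth _)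

theorem kd_smooth (W : ℝ) : ContDiff ℝ ∞ (kd W : E m → ℝ) := (kz_smooth _).sub (kz_smooth _)

theorem kp_supp {W : ℝ} (hW : 0 < W) {z : E m} (hz : 1 / W ≤ ‖z‖) : kp W z = 0 := by
  have h1 : 1 / (2 * W) ≤ ‖z‖ :=
    (one_div_le_one_div_of_le hW (by linarith)).trans hz
  rw [kp, kz_supp hW hz, kz_supp (by linarith) h1, add_zero]

theorem kd_supp {W : ℝ} (hW : 0 < W) {z : E m} (hz : 1 / W ≤ ‖z‖) : kd W z = 0 := by
  have h1 : 1 / (2 * W) ≤ ‖z‖ :=
    (one_div_le_one_div_of_le hW (by linarith)).trans hz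
  rw [kd, kz_supp hW hz, kz_supp (by linarith) h1, sub_zero]

theorem kp_compact {W : ℝ} (hW : 0 < W) : HasCompactSupport (kp W : E m → ℝ) :=
  HasCompactSupport.intro (isCompact_closedBall (0 : E m) (1 / W)) fun z hz => by
    rw [mem_closedBall_zero_iff, not_le] at hz
    exact kp_supp hW hz.le

theorem kd_compact {W : ℝ} (hW : 0 < W) : HasCompactSupport (kd W : E m → ℝ) :=
  HasCompactSupport.intro (isCompact_closedBall (0 : E m) (1 / W)) fun z hz => by
    rw [mem_closedBall_zero_iff, not_le] at hz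
    exact kd_supp hW hz.le

theorem kz_abs_integrable {W : ℝ} (hW : 0 < W) : Integrable (fun z : E m => |kz W z|) volume :=
  ((kz_smooth W).continuous.integrable_of_hasCompactSupport (kz_compact hW)).abs

theorem kp_abs_int {W : ℝ} (hW : 0 < W) : ∫ z : E m, |kp W z| ≤ 2 := by
  have h1 : ∫ z : E m, |kp W z| ≤ ∫ z : E m, (|kz (2 * W) z| + |kz W z|) :=
    integral_mono ((kp_smooth W).continuous.integrable_of_hasCompactSupport (kp_compact hW)).abs
      ((kz_abs_integrable (by linarith)).add (kz_abs_integrable hW)) fun z => abs_add_le _ _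
  rw [integral_add (kz_abs_integrable (by linarith)) (kz_abs_integrable hW),
    kz_abs_int (by linarith), kz_abs_int hW] at h1
  linarith

theorem kd_abs_int {W : ℝ} (hW : 0 < W) : ∫ z : E m, |kd W z| ≤ 2 := by
  have h1 : ∫ z : E m, |kd W z| ≤ ∫ z : E m, (|kz (2 * W) z| + |kz W z|) :=
    integral_mono ((kd_smooth W).continuous.integrable_of_hasCompactSupport (kd_compact hW)).abs
      ((kz_abs_integrable (by linarith)).add (kz_abs_integrable hW)) fun z => abs_sub _ _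
  rw [integral_add (kz_abs_integrable (by linarith)) (kz_abs_integrable hW),
    kz_abs_int (by linarith), kz_abs_int hW] at h1
  linarith

theorem kd_int {W : ℝ} (hW : 0 < W) : ∫ z : E m, kd W z = 0 := by
  simp only [kd]
  rw [integral_sub ((kz_smooth _).continuous.integrable_of_hasCompactSupport
    (kz_compact (by linarith))) ((kz_smooth _).continuous.integrable_of_hasCompactSupport
    (kz_compact hW)), kz_int (by linarith), kz_int hW, sub_self]

theorem kp_deriv_int {W : ℝ} (hW : 0 < W) (j : ℕ) :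
    ∫ z : E m, ‖iteratedFDeriv ℝ j (kp W : E m → ℝ) z‖ ≤ (2 ^ j + 1) * kc m j * W ^ j := by
  have h2W : 0 < 2 * W := by linarith
  have h1 : ∀ z : E m, ‖iteratedFDeriv ℝ j (kp W : E m → ℝ) z‖ ≤
      ‖iteratedFDeriv ℝ j (kz (2 * W) : E m → ℝ) z‖ + ‖iteratedFDeriv ℝ j (kz W : E m → ℝ) z‖ := by
    intro z
    have e1 : (kp W : E m → ℝ) = (kz (2 * W) : E m → ℝ) + kz W := rfl
    rw [e1, iteratedFDeriv_add_apply ((kz_smooth _).of_le (by exact_mod_cast le_top)).contDiffAt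
      ((kz_smooth _).of_le (by exact_mod_cast le_top)).contDiffAt]
    exact norm_add_le _ _
  have h2 : Integrable (fun z : E m => ‖iteratedFDeriv ℝ j (kp W : E m → ℝ) z‖) volume :=
    (((kp_smooth W).continuous_iteratedFDeriv
      (by exact_mod_cast le_top)).integrable_of_hasCompactSupport
      ((kp_compact hW).iteratedFDeriv j)).norm
  refine (integral_mono h2 ((kz_deriv_integrable h2W j).add (kz_deriv_integrable hW j)) h1).trans ?_
  rw [integral_add' (kz_deriv_integrable h2W j) (kz_deriv_integrable hW j), kz_deriv_int h2W,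
    kz_deriv_int hW]
  refine le_of_eq ?_
  rw [mul_pow]
  ring

/-- The double mollification at scale `1 / W`. -/
noncomputable def PW (W : ℝ) (b : ℝ × E m → ℂ) : ℝ × E m → ℂ := cz (kz W) (cz (kz W) b)

/-- The first factor of the piece of frequency `W`. -/
noncomputable def DW (W : ℝ) (b : ℝ × E m → ℂ) : ℝ × E m → ℂ := cz (kd W) b

/-- The piece of frequency `W`. -/
noncomputable def HW (W : ℝ) (b : ℝ × E m → ℂ) : ℝ × E m → ℂ := cz (kp W) (DW W b)

theorem measurable_DW (W : ℝ) {b : ℝ × E m → ℂ} (hb : Measurable b) : Measurable (DW W b) :=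
  measurable_cz (kd_smooth W).continuous hb

theorem measurable_HW (W : ℝ) {b : ℝ × E m → ℂ} (hb : Measurable b) : Measurable (HW W b) :=
  measurable_cz (kp_smooth W).continuous (measurable_DW W hb)

theorem measurable_PW (W : ℝ) {b : ℝ × E m → ℂ} (hb : Measurable b) : Measurable (PW W b) :=
  measurable_cz (kz_smooth W).continuous (measurable_cz (kz_smooth W).continuous hb)

theorem PW_bound {W : ℝ} (hW : 0 < W) {b : ℝ × E m → ℂ} {B : ℝ} {t : ℝ}
    (hB : ∀ z, ‖b (t, z)‖ ≤ B) (z : E m) : ‖PW W b (t, z)‖ ≤ B := by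
  have h1 : ∀ z, ‖cz (kz W) b (t, z)‖ ≤ B := fun z => by
    have := cz_norm_le (kz_smooth W).continuous (kz_compact hW) hB z
    rwa [kz_abs_int hW, mul_one] at this
  have h2 := cz_norm_le (kz_smooth W).continuous (kz_compact hW) h1 z
  rwa [kz_abs_int hW, mul_one] at h2

theorem DW_bound {W : ℝ} (hW : 0 < W) {b : ℝ × E m → ℂ} {B : ℝ} {t : ℝ}
    (hB : ∀ z, ‖b (t, z)‖ ≤ B) (z : E m) : ‖DW W b (t, z)‖ ≤ 2 * B := by
  have h1 := cz_norm_le (kd_smooth W).continuous (kd_compact hW) hB z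
  have hB0 : 0 ≤ B := (norm_nonneg _).trans (hB 0)
  calc _ ≤ B * ∫ y, |kd W y| := h1
    _ ≤ B * 2 := by gcongr; exact kd_abs_int hW
    _ = _ := by ring

/-- The derivatives of a piece from the bound of its first factor. -/
theorem HW_deriv {W : ℝ} (hW : 0 < W) {b : ℝ × E m → ℂ} (hb : Measurable b) {D : ℝ} {t : ℝ}
    (hD : ∀ z, ‖DW W b (t, z)‖ ≤ D) (j : ℕ) (z : E m) :
    ‖iteratedFDeriv ℝ j (fun z => HW W b (t, z)) z‖ ≤ (2 ^ j + 1) * kc m j * W ^ j * D := by
  have hD0 : 0 ≤ D := (norm_nonneg _).trans (hD 0)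
  have h1 := cz_bound (kp_smooth W) (kp_compact hW) (measurable_DW W hb) hD j z
  refine h1.trans ?_
  rw [mul_comm]
  exact mul_le_mul_of_nonneg_right (kp_deriv_int hW j) hD0

theorem HW_bound {W : ℝ} (hW : 0 < W) {b : ℝ × E m → ℂ} {D : ℝ} {t : ℝ}
    (hD : ∀ z, ‖DW W b (t, z)‖ ≤ D) (z : E m) : ‖HW W b (t, z)‖ ≤ 2 * D := by
  have h1 := cz_norm_le (kp_smooth W).continuous (kp_compact hW) hD z
  have hD0 : 0 ≤ D := (norm_nonneg _).trans (hD 0)
  calc _ ≤ D * ∫ y, |kp W y| := h1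
    _ ≤ D * 2 := by gcongr; exact kp_abs_int hW
    _ = _ := by ring

theorem HW_smooth {W : ℝ} (hW : 0 < W) {b : ℝ × E m → ℂ} (hb : Measurable b) {B : ℝ} {t : ℝ}
    (hB : ∀ z, ‖b (t, z)‖ ≤ B) : ContDiff ℝ ∞ fun z => HW W b (t, z) :=
  cz_smooth (kp_smooth W) (kp_compact hW) (measurable_DW W hb) (DW_bound hW hB)

theorem PW_smooth {W : ℝ} (hW : 0 < W) {b : ℝ × E m → ℂ} (hb : Measurable b) {B : ℝ} {t : ℝ}
    (hB : ∀ z, ‖b (t, z)‖ ≤ B) : ContDiff ℝ ∞ fun z => PW W b (t, z) :=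
  cz_smooth (kz_smooth W) (kz_compact hW) (measurable_cz (kz_smooth W).continuous hb) (B := B)
    fun z => by
      have := cz_norm_le (kz_smooth W).continuous (kz_compact hW) hB z
      rwa [kz_abs_int hW, mul_one] at this

/-- The derivatives of the lowest piece. -/
theorem PW_deriv {W : ℝ} (hW : 0 < W) {b : ℝ × E m → ℂ} (hb : Measurable b) {B : ℝ} {t : ℝ}
    (hB : ∀ z, ‖b (t, z)‖ ≤ B) (j : ℕ) (z : E m) :
    ‖iteratedFDeriv ℝ j (fun z => PW W b (t, z)) z‖ ≤ kc m j * W ^ j * B := by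
  have h1 : ∀ z, ‖cz (kz W) b (t, z)‖ ≤ B := fun z => by
    have := cz_norm_le (kz_smooth W).continuous (kz_compact hW) hB z
    rwa [kz_abs_int hW, mul_one] at this
  have h2 := cz_bound (kz_smooth W) (kz_compact hW) (measurable_cz (kz_smooth W).continuous hb)
    h1 j z
  rw [kz_deriv_int hW] at h2
  refine h2.trans (le_of_eq ?_)
  ring

/-- The piece is the difference of two double mollifications. -/
theorem HW_eq {W : ℝ} (hW : 0 < W) {b : ℝ × E m → ℂ} (hb : Measurable b) {B : ℝ} {t : ℝ}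
    (hB : ∀ z, ‖b (t, z)‖ ≤ B) (z : E m) :
    HW W b (t, z) = PW (2 * W) b (t, z) - PW W b (t, z) := by
  have h2W : 0 < 2 * W := by linarith
  have c1 := (kz_smooth (m := m) W).continuous
  have c2 := (kz_smooth (m := m) (2 * W)).continuous
  have hB1 : ∀ z, ‖cz (kz W) b (t, z)‖ ≤ B := fun z => by
    have := cz_norm_le c1 (kz_compact hW) hB z
    rwa [kz_abs_int hW, mul_one] at this
  have hB2 : ∀ z, ‖cz (kz (2 * W)) b (t, z)‖ ≤ B := fun z => by
    have := cz_norm_le c2 (kz_compact h2W) hB z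
    rwa [kz_abs_int h2W, mul_one] at this
  have m1 := measurable_cz c1 hb
  have m2 := measurable_cz c2 hb
  have e0 : ∀ z, DW W b (t, z) = cz (kz (2 * W)) b (t, z) - cz (kz W) b (t, z) := fun z =>
    cz_sub_left c2 (kz_compact h2W) c1 (kz_compact hW) hb hB z
  have e1 : HW W b (t, z) = cz (kp W) (fun p => cz (kz (2 * W)) b p - cz (kz W) b p) (t, z) := by
    rw [HW, cz, cz]
    refine integral_congr_ae (Eventually.of_forall fun y => ?_)
    simp only
    rw [e0]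
  rw [e1, cz_sub_right (kp_smooth W).continuous (kp_compact hW) m2 m1 hB2 hB1]
  have e2 : ∀ (g : ℝ × E m → ℂ), Measurable g → (∀ z, ‖g (t, z)‖ ≤ B) →
      cz (kp W) g (t, z) = cz (kz (2 * W)) g (t, z) + cz (kz W) g (t, z) := fun g hg hgB =>
    cz_add_left c2 (kz_compact h2W) c1 (kz_compact hW) hg hgB z
  rw [e2 _ m2 hB2, e2 _ m1 hB1, cz_comm c2 (kz_compact h2W) c1 (kz_compact hW) hb hB z, PW, PW]
  ring

/-- Telescoping sum. -/
theorem PW_sum {W : ℝ} (hW : 0 < W) {b : ℝ × E m → ℂ} (hb : Measurable b) {B : ℝ} {t : ℝ}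
    (hB : ∀ z, ‖b (t, z)‖ ≤ B) (z : E m) (N : ℕ) :
    PW (2 ^ N * W) b (t, z) = PW W b (t, z) + ∑ j ∈ Finset.range N, HW (2 ^ j * W) b (t, z) := by
  induction N with
  | zero => simp
  | succ N ih =>
    rw [Finset.sum_range_succ, ← add_assoc, ← ih, HW_eq (by positivity) hb hB z]
    rw [show (2:ℝ) ^ (N + 1) * W = 2 * (2 ^ N * W) by ring]
    ring

/-- Supports. -/
theorem cz_zero {K : E m → ℝ} {r : ℝ} (hK : ∀ u, r ≤ ‖u‖ → K u = 0) {b : ℝ × E m → ℂ}
    {p0 : ℝ × E m} {δ : ℝ} (hb : ∀ p, δ ≤ ‖p - p0‖ → b p = 0) (p : ℝ × E m)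
    (hp : δ + r ≤ ‖p - p0‖) : cz K b p = 0 := by
  obtain ⟨t, z⟩ := p
  rw [cz_sub]
  refine integral_eq_zero_of_ae (Eventually.of_forall fun u => ?_)
  simp only [Pi.zero_apply]
  rcases le_or_gt r ‖u‖ with h | h
  · rw [hK u h]
    simp
  · rw [hb (t, z - u), mul_zero]
    have h1 : ((t, z - u) : ℝ × E m) - p0 = ((t, z) - p0) - (0, u) := by
      ext <;> simp [sub_right_comm]
    have h2 : ‖((0, u) : ℝ × E m)‖ = ‖u‖ := by simp [Prod.norm_def]
    rw [h1]
    have h3 := norm_sub_norm_le (((t, z) : ℝ × E m) - p0) (0, u)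
    rw [h2] at h3
    linarith

theorem DW_zero {W : ℝ} (hW : 0 < W) {b : ℝ × E m → ℂ} {p0 : ℝ × E m} {δ : ℝ}
    (hb : ∀ p, δ ≤ ‖p - p0‖ → b p = 0) (p : ℝ × E m) (hp : δ + 1 / W ≤ ‖p - p0‖) :
    DW W b p = 0 := cz_zero (fun _ hu => kd_supp hW hu) hb p hp

theorem HW_zero {W : ℝ} (hW : 0 < W) {b : ℝ × E m → ℂ} {p0 : ℝ × E m} {δ : ℝ}
    (hb : ∀ p, δ ≤ ‖p - p0‖ → b p = 0) (p : ℝ × E m) (hp : δ + 2 / W ≤ ‖p - p0‖) :
    HW W b p = 0 :=
  cz_zero (fun _ hu => kp_supp hW hu) (DW_zero hW hb) p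
    (by rw [add_assoc, ← add_div, one_add_one_eq_two]; exact hp)

theorem PW_zero {W : ℝ} (hW : 0 < W) {b : ℝ × E m → ℂ} {p0 : ℝ × E m} {δ : ℝ}
    (hb : ∀ p, δ ≤ ‖p - p0‖ → b p = 0) (p : ℝ × E m) (hp : δ + 2 / W ≤ ‖p - p0‖) :
    PW W b p = 0 :=
  cz_zero (fun _ hu => kz_supp hW hu) (cz_zero (fun _ hu => kz_supp hW hu) hb) p
    (by rw [add_assoc, ← add_div, one_add_one_eq_two]; exact hp)

/-- A convolution minus the multiple of the function. -/
theorem cz_diff {K : E m → ℝ} (hK : Continuous K) (hc : HasCompactSupport K)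
    {b : ℝ × E m → ℂ} (hb : Measurable b) {B : ℝ} {t : ℝ} (hB : ∀ z, ‖b (t, z)‖ ≤ B) (z : E m) :
    cz K b (t, z) - ((∫ u, K u : ℝ) : ℂ) * b (t, z) =
      ∫ u, (K u : ℂ) * (b (t, z - u) - b (t, z)) := by
  have h1 : Integrable (fun u => (K u : ℂ)) (volume : Measure (E m)) :=
    (hK.integrable_of_hasCompactSupport hc).ofReal
  rw [cz_sub, ← integral_complex_ofReal, ← integral_mul_const,
    ← integral_sub (cz_int hK hc hb hB z) (h1.mul_const _)]
  refine integral_congr_ae (Eventually.of_forall fun v => ?_)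
  ring

theorem cz_diff_le {K : E m → ℝ} (hK : Continuous K) (hc : HasCompactSupport K) {r : ℝ}
    (hK0 : ∀ u, r ≤ ‖u‖ → K u = 0) {b : ℝ × E m → ℂ} {t H s : ℝ} (hs : 0 ≤ s)
    (hH : ∀ z z', ‖b (t, z) - b (t, z')‖ ≤ H * ‖z - z'‖ ^ s) (hH0 : 0 ≤ H) (z : E m) :
    ‖∫ u, (K u : ℂ) * (b (t, z - u) - b (t, z))‖ ≤ (∫ u, |K u|) * (H * r ^ s) := by
  rw [← integral_mul_const]
  refine norm_integral_le_of_norm_le
    ((hK.integrable_of_hasCompactSupport hc).abs.mul_const _) (Eventually.of_forall fun u => ?_)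
  rw [norm_mul, Complex.norm_real, Real.norm_eq_abs]
  rcases le_or_gt r ‖u‖ with h | h
  · rw [hK0 u h]
    simp
  · refine mul_le_mul_of_nonneg_left ?_ (abs_nonneg _)
    have h1 := hH (z - u) z
    rw [show z - u - z = -u by abel, norm_neg] at h1
    refine h1.trans (mul_le_mul_of_nonneg_left ?_ hH0)
    exact Real.rpow_le_rpow (norm_nonneg _) h.le hs

/-! ### Hölder continuity along the leaves -/

theorem DW_hold {W : ℝ} (hW : 0 < W) {b : ℝ × E m → ℂ} (hb : Measurable b) {B : ℝ} {t : ℝ}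
    (hB : ∀ z, ‖b (t, z)‖ ≤ B) {H s : ℝ} (hs : 0 ≤ s)
    (hH : ∀ z z', ‖b (t, z) - b (t, z')‖ ≤ H * ‖z - z'‖ ^ s) (hH0 : 0 ≤ H) (z : E m) :
    ‖DW W b (t, z)‖ ≤ 2 * H * W ^ (-s) := by
  have h1 := cz_diff (kd_smooth W).continuous (kd_compact hW) hb hB z
  rw [kd_int hW, Complex.ofReal_zero, zero_mul, sub_zero] at h1
  have h2 := cz_diff_le (kd_smooth W).continuous (kd_compact hW)
    (fun u hu => kd_supp hW hu) hs hH hH0 z
  rw [DW, h1]
  refine h2.trans ?_
  have h3 : (1 / W) ^ s = W ^ (-s) := by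
    rw [one_div, Real.inv_rpow hW.le, Real.rpow_neg hW.le]
  rw [h3]
  have h4 : 0 ≤ H * W ^ (-s) := by positivity
  calc (∫ u, |kd W u|) * (H * W ^ (-s)) ≤ 2 * (H * W ^ (-s)) :=
        mul_le_mul_of_nonneg_right (kd_abs_int hW) h4
    _ = _ := by ring

theorem cz_kz_hold {W : ℝ} (hW : 0 < W) {b : ℝ × E m → ℂ} (hb : Measurable b) {B : ℝ} {t : ℝ}
    (hB : ∀ z, ‖b (t, z)‖ ≤ B) {H s : ℝ} (hs : 0 ≤ s)
    (hH : ∀ z z', ‖b (t, z) - b (t, z')‖ ≤ H * ‖z - z'‖ ^ s) (hH0 : 0 ≤ H) (z : E m) :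
    ‖b (t, z) - cz (kz W) b (t, z)‖ ≤ H * W ^ (-s) := by
  have h1 := cz_diff (kz_smooth W).continuous (kz_compact hW) hb hB z
  rw [kz_int hW, Complex.ofReal_one, one_mul] at h1
  have h2 := cz_diff_le (kz_smooth W).continuous (kz_compact hW)
    (fun u hu => kz_supp hW hu) hs hH hH0 z
  rw [norm_sub_rev, h1]
  refine h2.trans (le_of_eq ?_)
  rw [kz_abs_int hW, one_mul, one_div, Real.inv_rpow hW.le, Real.rpow_neg hW.le]

theorem PW_hold {W : ℝ} (hW : 0 < W) {b : ℝ × E m → ℂ} (hb : Measurable b) {B : ℝ} {t : ℝ}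
    (hB : ∀ z, ‖b (t, z)‖ ≤ B) {H s : ℝ} (hs : 0 ≤ s)
    (hH : ∀ z z', ‖b (t, z) - b (t, z')‖ ≤ H * ‖z - z'‖ ^ s) (hH0 : 0 ≤ H) (z : E m) :
    ‖b (t, z) - PW W b (t, z)‖ ≤ 2 * H * W ^ (-s) := by
  have h1 := cz_kz_hold hW hb hB hs hH hH0
  have hB1 : ∀ z, ‖cz (kz W) b (t, z)‖ ≤ B := fun z => by
    have := cz_norm_le (kz_smooth W).continuous (kz_compact hW) hB z
    rwa [kz_abs_int hW, mul_one] at this
  have h2 := cz_norm_le (b := fun p => b p - cz (kz W) b p) (kz_smooth W).continuous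
    (kz_compact hW) h1 z
  rw [kz_abs_int hW, mul_one, cz_sub_right (kz_smooth W).continuous (kz_compact hW) hb
    (measurable_cz (kz_smooth W).continuous hb) hB hB1] at h2
  calc ‖b (t, z) - PW W b (t, z)‖ = ‖(b (t, z) - cz (kz W) b (t, z)) +
        (cz (kz W) b (t, z) - cz (kz W) (cz (kz W) b) (t, z))‖ := by
        rw [PW]
        congr 1
        ring
    _ ≤ H * W ^ (-s) + H * W ^ (-s) := (norm_add_le _ _).trans (add_le_add (h1 z) h2)
    _ = _ := by ring

theorem HW_hold {W : ℝ} (hW : 0 < W) {b : ℝ × E m → ℂ} (hb : Measurable b) {B : ℝ} {t : ℝ}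
    (hB : ∀ z, ‖b (t, z)‖ ≤ B) {H s : ℝ} (hs : 0 ≤ s)
    (hH : ∀ z z', ‖b (t, z) - b (t, z')‖ ≤ H * ‖z - z'‖ ^ s) (hH0 : 0 ≤ H) (j : ℕ) (z : E m) :
    ‖iteratedFDeriv ℝ j (fun z => HW W b (t, z)) z‖ ≤
      2 * (2 ^ j + 1) * kc m j * H * W ^ ((j : ℝ) - s) := by
  refine (HW_deriv hW hb (DW_hold hW hb hB hs hH hH0) j z).trans (le_of_eq ?_)
  rw [sub_eq_add_neg, Real.rpow_add hW, Real.rpow_natCast]
  ring

/-! ### Bounded variation along the leaves -/

theorem lpz_enorm {K : E m → ℝ} (hK : Continuous K) (hc : HasCompactSupport K) :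
    ∫⁻ u, ‖K u‖ₑ = ENNReal.ofReal (∫ u, |K u|) :=
  (ofReal_integral_norm_eq_lintegral_enorm (hK.integrable_of_hasCompactSupport hc)).symm

theorem cz_diff_bv {K : E m → ℝ} (hK : Continuous K) (hc : HasCompactSupport K) {r : ℝ}
    (hK0 : ∀ u, r ≤ ‖u‖ → K u = 0) {b : ℝ × E m → ℂ} (hb : Measurable b) {t V : ℝ}
    (hV0 : 0 ≤ V)
    (hV : ∀ h, ∫⁻ z, ‖b (t, z + h) - b (t, z)‖ₑ ≤ ENNReal.ofReal (V * ‖h‖)) :
    ∫⁻ z, ‖∫ u, (K u : ℂ) * (b (t, z - u) - b (t, z))‖ₑ ≤
      ENNReal.ofReal ((∫ u, |K u|) * (V * r)) := by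
  have hm : Measurable fun q : E m × E m => ‖K q.2‖ₑ * ‖b (t, q.1 - q.2) - b (t, q.1)‖ₑ := by
    have h1 : Measurable fun q : E m × E m => ‖K q.2‖ₑ :=
      (hK.measurable.comp measurable_snd).enorm
    have h2 : Measurable fun q : E m × E m => ‖b (t, q.1 - q.2) - b (t, q.1)‖ₑ :=
      ((hb.comp (by fun_prop : Measurable fun q : E m × E m => (t, q.1 - q.2))).sub
        (hb.comp (by fun_prop : Measurable fun q : E m × E m => (t, q.1)))).enorm
    exact h1.mul h2
  calc _ ≤ ∫⁻ z, ∫⁻ u, ‖K u‖ₑ * ‖b (t, z - u) - b (t, z)‖ₑ := by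
        refine lintegral_mono fun z => ?_
        refine (enorm_integral_le_lintegral_enorm _).trans (lintegral_mono fun u => ?_)
        simp only
        rw [enorm_mul]
        refine mul_le_mul_left (le_of_eq ?_) _
        rw [← ofReal_norm, ← ofReal_norm, Complex.norm_real]
    _ = ∫⁻ u, ∫⁻ z, ‖K u‖ₑ * ‖b (t, z - u) - b (t, z)‖ₑ :=
        lintegral_lintegral_swap hm.aemeasurable
    _ ≤ ∫⁻ u, ‖K u‖ₑ * ENNReal.ofReal (V * r) := by
        refine lintegral_mono fun u => ?_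
        simp only
        rcases le_or_gt r ‖u‖ with h | h
        · rw [hK0 u h]
          simp
        · have h2 : Measurable fun z : E m => ‖b (t, z - u) - b (t, z)‖ₑ :=
            ((hb.comp (by fun_prop : Measurable fun z : E m => (t, z - u))).sub
              (hb.comp (by fun_prop : Measurable fun z : E m => (t, z)))).enorm
          rw [lintegral_const_mul _ h2]
          refine mul_le_mul_right ?_ _
          have h3 := hV (-u)
          rw [norm_neg] at h3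
          simp only [← sub_eq_add_neg] at h3
          exact h3.trans (ENNReal.ofReal_le_ofReal (mul_le_mul_of_nonneg_left h.le hV0))
    _ = _ := by
        rw [lintegral_mul_const _ hK.measurable.enorm, lpz_enorm hK hc,
          ← ENNReal.ofReal_mul (integral_nonneg fun _ => abs_nonneg _)]

theorem DW_bv {W : ℝ} (hW : 0 < W) {b : ℝ × E m → ℂ} (hb : Measurable b) {B : ℝ} {t : ℝ}
    (hB : ∀ z, ‖b (t, z)‖ ≤ B) {V : ℝ} (hV0 : 0 ≤ V)
    (hV : ∀ h, ∫⁻ z, ‖b (t, z + h) - b (t, z)‖ₑ ≤ ENNReal.ofReal (V * ‖h‖)) :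
    ∫⁻ z, ‖DW W b (t, z)‖ₑ ≤ ENNReal.ofReal (2 * V / W) := by
  have h1 : ∀ z, DW W b (t, z) = ∫ u, (kd W u : ℂ) * (b (t, z - u) - b (t, z)) := fun z => by
    have h2 := cz_diff (kd_smooth W).continuous (kd_compact hW) hb hB z
    rw [kd_int hW, Complex.ofReal_zero, zero_mul, sub_zero] at h2
    exact h2
  simp only [h1]
  refine (cz_diff_bv (kd_smooth W).continuous (kd_compact hW) (fun u hu => kd_supp hW hu) hb hV0
    hV).trans (ENNReal.ofReal_le_ofReal ?_)
  calc (∫ u, |kd W u|) * (V * (1 / W)) ≤ 2 * (V * (1 / W)) :=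
        mul_le_mul_of_nonneg_right (kd_abs_int hW) (by positivity)
    _ = _ := by ring

theorem HW_bv {W : ℝ} (hW : 0 < W) {b : ℝ × E m → ℂ} (hb : Measurable b) {B : ℝ} {t : ℝ}
    (hB : ∀ z, ‖b (t, z)‖ ≤ B) {V : ℝ} (hV0 : 0 ≤ V)
    (hV : ∀ h, ∫⁻ z, ‖b (t, z + h) - b (t, z)‖ₑ ≤ ENNReal.ofReal (V * ‖h‖)) :
    ∫⁻ z, ‖HW W b (t, z)‖ₑ ≤ ENNReal.ofReal (4 * V / W) := by
  refine (cz_lintegral_le (kp_smooth W).continuous (measurable_DW W hb) t).trans ?_
  rw [lpz_enorm (kp_smooth W).continuous (kp_compact hW)]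
  calc _ ≤ ENNReal.ofReal 2 * ENNReal.ofReal (2 * V / W) :=
        mul_le_mul' (ENNReal.ofReal_le_ofReal (kp_abs_int hW)) (DW_bv hW hb hB hV0 hV)
    _ = _ := by
        rw [← ENNReal.ofReal_mul two_pos.le]
        congr 1
        ring

theorem PW_bv {W : ℝ} (hW : 0 < W) {b : ℝ × E m → ℂ} (hb : Measurable b) {B : ℝ} {t : ℝ}
    (hB : ∀ z, ‖b (t, z)‖ ≤ B) {V : ℝ} (hV0 : 0 ≤ V)
    (hV : ∀ h, ∫⁻ z, ‖b (t, z + h) - b (t, z)‖ₑ ≤ ENNReal.ofReal (V * ‖h‖)) :
    ∫⁻ z, ‖b (t, z) - PW W b (t, z)‖ₑ ≤ ENNReal.ofReal (2 * V / W) := by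
  have c1 := (kz_smooth (m := m) W).continuous
  have hB1 : ∀ z, ‖cz (kz W) b (t, z)‖ ≤ B := fun z => by
    have := cz_norm_le c1 (kz_compact hW) hB z
    rwa [kz_abs_int hW, mul_one] at this
  have m1 := measurable_cz c1 hb
  have h1 : ∫⁻ z, ‖b (t, z) - cz (kz W) b (t, z)‖ₑ ≤ ENNReal.ofReal (V / W) := by
    have e1 : ∀ z, ‖b (t, z) - cz (kz W) b (t, z)‖ₑ =
        ‖∫ u, (kz W u : ℂ) * (b (t, z - u) - b (t, z))‖ₑ := fun z => by
      rw [← cz_diff c1 (kz_compact hW) hb hB z, kz_int hW, Complex.ofReal_one, one_mul,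
        ← enorm_neg, neg_sub]
    simp only [e1]
    refine (cz_diff_bv c1 (kz_compact hW) (fun u hu => kz_supp hW hu) hb hV0 hV).trans
      (ENNReal.ofReal_le_ofReal ?_)
    rw [kz_abs_int hW, one_mul, mul_one_div]
  have h2 : ∫⁻ z, ‖cz (kz W) (fun p => b p - cz (kz W) b p) (t, z)‖ₑ ≤
      ENNReal.ofReal (V / W) := by
    refine (cz_lintegral_le c1 (hb.sub m1) t).trans ?_
    rw [lpz_enorm c1 (kz_compact hW), kz_abs_int hW, ENNReal.ofReal_one, one_mul]
    exact h1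
  have h3 : Measurable fun z => ‖b (t, z) - cz (kz W) b (t, z)‖ₑ :=
    ((hb.comp (by fun_prop : Measurable fun z : E m => (t, z))).sub
      (m1.comp (by fun_prop : Measurable fun z : E m => (t, z)))).enorm
  calc ∫⁻ z, ‖b (t, z) - PW W b (t, z)‖ₑ
      ≤ ∫⁻ z, (‖b (t, z) - cz (kz W) b (t, z)‖ₑ +
          ‖cz (kz W) (fun p => b p - cz (kz W) b p) (t, z)‖ₑ) := by
        refine lintegral_mono fun z => ?_
        simp only
        rw [cz_sub_right c1 (kz_compact hW) hb m1 hB hB1]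
        refine le_trans (le_of_eq ?_) (enorm_add_le _ _)
        rw [PW]
        congr 1
        ring
    _ = (∫⁻ z, ‖b (t, z) - cz (kz W) b (t, z)‖ₑ) +
          ∫⁻ z, ‖cz (kz W) (fun p => b p - cz (kz W) b p) (t, z)‖ₑ := lintegral_add_left h3 _
    _ ≤ ENNReal.ofReal (V / W) + ENNReal.ofReal (V / W) := add_le_add h1 h2
    _ = _ := by
        rw [← ENNReal.ofReal_add (by positivity) (by positivity)]
        congr 1
        ring

end conv

end Pool.Agent.LF2
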