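import Pool.Agent.LF2.Df
import Pool.Agent.LF2.LPZ

/-!
Mollification along the leaves.
-/

set_option autoImplicit false

namespace Pool.Agent.LF2

open MeasureTheory Set Metric Filter Pool.Agent.MP_6cbfb8_an Pool.Agent.LF
open scoped ENNReal Real RealInnerProductSpace ContDiff

variable {m : ℕ}

/-- The constants of the kernel. -/
noncomputable def Bk (m : ℕ) (k : ℕ) : ℝ := ⨆ z : E m, ‖iteratedFDeriv ℝ k (kr m) z‖

theorem mol_eq (Λ : ℝ) (h : ℝ × E m → ℂ) : mol Λ h = cz (kz Λ) h := rfl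

theorem Bk_le (k : ℕ) (z : E m) : ‖iteratedFDeriv ℝ k (k0 : E m → ℝ) z‖ ≤ Bk m k := by
  have h1 : Continuous (iteratedFDeriv ℝ k (k0 : E m → ℝ)) :=
    k0_smooth.continuous_iteratedFDeriv (by exact_mod_cast le_top)
  obtain ⟨C, hC⟩ := h1.bounded_above_of_compact_support (k0_compact.iteratedFDeriv k)
  have h2 : BddAbove (range fun z : E m => ‖iteratedFDeriv ℝ k (kr m) z‖) :=
    ⟨C, by rintro _ ⟨z, rfl⟩; exact hC z⟩
  exact le_ciSup h2 z

theorem kz_deriv_le {Λ : ℝ} (hΛ : 0 < Λ) (k : ℕ) (u : E m) :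
    ‖iteratedFDeriv ℝ k (kz Λ : E m → ℝ) u‖ ≤
      (closedBall (0 : E m) (1 / Λ)).indicator (fun _ => Bk m k * Λ ^ k * Λ ^ m) u := by
  have e1 : (kz Λ : E m → ℝ) = fun z => Λ ^ m • k0 (Λ • z) := by
    funext z
    rw [kz, smul_eq_mul]
  have e2 : ContDiff ℝ k (k0 : E m → ℝ) := k0_smooth.of_le (by exact_mod_cast le_top)
  have e3 : ContDiffAt ℝ k (fun z : E m => k0 (Λ • z)) u :=
    (e2.comp (contDiff_id.const_smul Λ)).contDiffAt
  rw [e1, iteratedFDeriv_const_smul_apply' e3, iteratedFDeriv_comp_const_smul Λ e2,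
    norm_smul, norm_smul, norm_pow, norm_pow, Real.norm_of_nonneg hΛ.le]
  by_cases hu : u ∈ closedBall (0 : E m) (1 / Λ)
  · rw [indicator_of_mem hu]
    have h1 := Bk_le k (Λ • u)
    calc Λ ^ m * (Λ ^ k * ‖iteratedFDeriv ℝ k (k0 : E m → ℝ) (Λ • u)‖)
        ≤ Λ ^ m * (Λ ^ k * Bk m k) := by gcongr
      _ = _ := by ring
  · rw [indicator_of_notMem hu]
    have h1 : iteratedFDeriv ℝ k (k0 : E m → ℝ) (Λ • u) = 0 := by
      by_contra hne
      have h2 : Λ • u ∈ tsupport (k0 : E m → ℝ) := support_iteratedFDeriv_subset k hne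
      have h3 : tsupport (k0 : E m → ℝ) = closedBall 0 1 :=
        ContDiffBump.tsupport_normed_eq _
      rw [h3, mem_closedBall_zero_iff, norm_smul, Real.norm_of_nonneg hΛ.le] at h2
      apply hu
      rw [mem_closedBall_zero_iff, le_div_iff₀ hΛ]
      linarith
    rw [h1]
    simp

/-- L1. -/
theorem mol_amp {p0 : ℝ × E m} {δ δ1 Λ : ℝ} (hΛ : 1 ≤ Λ) (hδ1 : δ1 + 1 / Λ < δ) {h : ℝ × E m → ℂ}
    (hm : Measurable h) (h1 : ∀ p, ‖h p‖ ≤ 1) (hs : ∀ p, δ1 < ‖p - p0‖ → h p = 0) :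
    Amp p0 δ (Bk m) Λ (mol Λ h) fun p => ‖h p‖ := by
  have hΛ0 : 0 < Λ := by linarith
  refine ⟨measurable_cz (kz_smooth Λ).continuous hm, fun t => cz_smooth (kz_smooth Λ)
    (kz_compact hΛ0) hm (B := 1) fun z => h1 _, fun p hp => ?_, hm.norm, fun p => norm_nonneg _, h1,
    fun t k z => ?_⟩
  · refine cz_zero (r := 1 / Λ) (δ := δ - 1 / Λ) (fun _ hu => kz_supp hΛ0 hu) (p0 := p0)
      (fun p hp => hs p (by linarith)) p (by linarith)
  · have e1 : (fun z => mol Λ h (t, z)) = fun z => cz (kz Λ) h (t, z) := rfl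
    rw [e1, cz_eq]
    have hloc := lpz_loc hm t (B := 1) fun z => h1 (t, z)
    have h2 := lpz_conv hloc k ℝ ℂ
      (ContinuousLinearMap.lsmul ℝ ℝ : ℝ →L[ℝ] ℂ →L[ℝ] ℂ).flip (kz Λ) (kz_smooth Λ)
      (kz_compact hΛ0) z
    have hKk : Continuous (iteratedFDeriv ℝ k (kz Λ : E m → ℝ)) :=
      (kz_smooth Λ).continuous_iteratedFDeriv (by exact_mod_cast le_top)
    have hck : HasCompactSupport (iteratedFDeriv ℝ k (kz Λ : E m → ℝ)) :=
      (kz_compact hΛ0).iteratedFDeriv k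
    have h3 : IntegrableOn (fun y => ‖h (t, y)‖) (closedBall z (1 / Λ)) volume :=
      (hloc.integrableOn_isCompact (isCompact_closedBall _ _)).norm
    calc _ ≤ 1 * ∫ y, ‖h (t, y)‖ * ‖iteratedFDeriv ℝ k (kz Λ : E m → ℝ) (z - y)‖ :=
          h2.trans (mul_le_mul_of_nonneg_right lpz_L (integral_nonneg fun y => by positivity))
      _ ≤ ∫ y, (closedBall z (1 / Λ)).indicator
            (fun y => Bk m k * Λ ^ k * Λ ^ m * ‖h (t, y)‖) y := by
          rw [one_mul]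
          refine integral_mono (lpz_int hloc hKk hck z)
            ((integrable_indicator_iff measurableSet_closedBall).2 (h3.const_mul _)) fun y => ?_
          have h4 := kz_deriv_le hΛ0 k (z - y)
          by_cases hy : y ∈ closedBall z (1 / Λ)
          · have hy' : z - y ∈ closedBall (0 : E m) (1 / Λ) := by
              rw [mem_closedBall, dist_comm, dist_eq_norm] at hy
              rwa [mem_closedBall_zero_iff]
            rw [indicator_of_mem hy'] at h4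
            simp only
            rw [indicator_of_mem hy, mul_comm]
            exact mul_le_mul_of_nonneg_right h4 (norm_nonneg _)
          · have hy' : z - y ∉ closedBall (0 : E m) (1 / Λ) := by
              rw [mem_closedBall, dist_comm, dist_eq_norm] at hy
              rwa [mem_closedBall_zero_iff]
            rw [indicator_of_notMem hy'] at h4
            simp only
            rw [indicator_of_notMem hy, le_antisymm h4 (norm_nonneg _), mul_zero]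
      _ = _ := by
          rw [integral_indicator measurableSet_closedBall, integral_const_mul]
          ring

/-- L2: the telescoping identity. -/
theorem mol_tel {p0 : ℝ × E m} {δ1 Λ : ℝ} (hΛ : 1 ≤ Λ) {b : ℝ × E m → ℂ}
    (hm : Measurable b) (h1 : ∃ M, ∀ p, ‖b p‖ ≤ M) (hs : ∀ p, δ1 < ‖p - p0‖ → b p = 0) :
    mol (2 * Λ) (mol (2 * Λ) b) - mol Λ (mol Λ b) =
      mol (2 * Λ) (mol (2 * Λ) b - mol Λ b) + mol Λ (mol (2 * Λ) b - mol Λ b) := by
  obtain ⟨M, hM⟩ := h1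
  have hΛ0 : 0 < Λ := by linarith
  have h2Λ : 0 < 2 * Λ := by linarith
  have c1 := (kz_smooth (m := m) Λ).continuous
  have c2 := (kz_smooth (m := m) (2 * Λ)).continuous
  have m1 := measurable_cz c1 hm
  have m2 := measurable_cz c2 hm
  funext p
  obtain ⟨t, z⟩ := p
  have hB1 : ∀ z, ‖cz (kz Λ) b (t, z)‖ ≤ M := fun z => by
    have := cz_norm_le c1 (kz_compact hΛ0) (t := t) (fun z => hM (t, z)) z
    rwa [kz_abs_int hΛ0, mul_one] at this
  have hB2 : ∀ z, ‖cz (kz (2 * Λ)) b (t, z)‖ ≤ M := fun z => by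
    have := cz_norm_le c2 (kz_compact h2Λ) (t := t) (fun z => hM (t, z)) z
    rwa [kz_abs_int h2Λ, mul_one] at this
  simp only [mol_eq, Pi.sub_apply, Pi.add_apply]
  have e1 : (cz (kz (2 * Λ)) b - cz (kz Λ) b) =
      fun p => cz (kz (2 * Λ)) b p - cz (kz Λ) b p := rfl
  rw [e1, cz_sub_right c2 (kz_compact h2Λ) m2 m1 hB2 hB1,
    cz_sub_right c1 (kz_compact hΛ0) m2 m1 hB2 hB1,
    cz_comm c2 (kz_compact h2Λ) c1 (kz_compact hΛ0) hm (fun z => hM (t, z)) z]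
  ring

/-- Jensen's inequality for powers. -/
theorem mol_jensen {α : Type} [MeasurableSpace α] (μ : Measure α) [IsProbabilityMeasure μ] {q : ℝ}
    (hq : 1 ≤ q) {f : α → ℝ≥0∞} (hf : AEMeasurable f μ) :
    (∫⁻ x, f x ∂μ) ^ q ≤ ∫⁻ x, f x ^ q ∂μ := by
  have h1 := eLpNorm'_le_eLpNorm'_of_exponent_le one_pos hq μ hf.aestronglyMeasurable
  have hq0 : 0 < q := by linarith
  rw [eLpNorm', eLpNorm'] at h1
  simp only [enorm_eq_self, ENNReal.rpow_one, one_div, inv_one] at h1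
  calc (∫⁻ x, f x ∂μ) ^ q ≤ ((∫⁻ x, f x ^ q ∂μ) ^ q⁻¹) ^ q := ENNReal.rpow_le_rpow h1 hq0.le
    _ = _ := by rw [ENNReal.rpow_inv_rpow hq0.ne']

theorem mol_jensen' {Λ : ℝ} (hΛ : 0 < Λ) {q : ℝ} (hq : 1 ≤ q) {f : E m → ℝ≥0∞}
    (hf : Measurable f) :
    (∫⁻ u, ‖kz Λ u‖ₑ * f u) ^ q ≤ ∫⁻ u : E m, ‖kz Λ u‖ₑ * f u ^ q := by
  have hk : Measurable fun u : E m => ‖kz Λ u‖ₑ := (kz_smooth Λ).continuous.measurable.enorm
  have hp : IsProbabilityMeasure ((volume : Measure (E m)).withDensity fun u => ‖kz Λ u‖ₑ) := by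
    refine ⟨?_⟩
    rw [withDensity_apply _ MeasurableSet.univ, Measure.restrict_univ,
      lpz_enorm (kz_smooth Λ).continuous (kz_compact hΛ), kz_abs_int hΛ, ENNReal.ofReal_one]
  have h1 := mol_jensen ((volume : Measure (E m)).withDensity fun u => ‖kz Λ u‖ₑ) hq
    hf.aemeasurable
  rw [lintegral_withDensity_eq_lintegral_mul _ hk hf,
    lintegral_withDensity_eq_lintegral_mul _ hk (hf.pow_const q)] at h1
  exact h1

theorem mol_shift {u : E m} {F : ℝ × E m → ℝ≥0∞} (hF : Measurable F) :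
    ∫⁻ p : ℝ × E m, F (p.1, p.2 - u) = ∫⁻ p, F p := by
  have h1 : Measurable fun p : ℝ × E m => F (p.1, p.2 - u) := hF.comp (by fun_prop)
  rw [Measure.volume_eq_prod, lintegral_prod _ h1.aemeasurable,
    lintegral_prod _ hF.aemeasurable]
  refine lintegral_congr fun t => ?_
  exact lintegral_sub_right_eq_self (fun z => F (t, z)) u

/-- The integral over `p` of an average over `u`. -/
theorem mol_av {Λ : ℝ} (hΛ : 0 < Λ) {q : ℝ} (hq : 1 ≤ q) {F : (ℝ × E m) → E m → ℝ≥0∞}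
    (hF : Measurable (Function.uncurry F)) {K : ℝ≥0∞}
    (hK : ∀ u : E m, ‖u‖ ≤ 1 / Λ → ∫⁻ p, F p u ^ q ≤ K) :
    ∫⁻ p, (∫⁻ u, ‖kz Λ u‖ₑ * F p u) ^ q ≤ K := by
  have hk : Measurable fun x : (ℝ × E m) × E m => ‖kz Λ x.2‖ₑ * F x.1 x.2 ^ q :=
    ((kz_smooth Λ).continuous.measurable.comp measurable_snd).enorm.mul (hF.pow_const q)
  calc ∫⁻ p, (∫⁻ u, ‖kz Λ u‖ₑ * F p u) ^ q ≤ ∫⁻ p, ∫⁻ u, ‖kz Λ u‖ₑ * F p u ^ q :=
        lintegral_mono fun p => mol_jensen' hΛ hq (hF.comp (by fun_prop : Measurable fun u => (p, u)))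
    _ = ∫⁻ u, ∫⁻ p, ‖kz Λ u‖ₑ * F p u ^ q := lintegral_lintegral_swap hk.aemeasurable
    _ ≤ ∫⁻ u, ‖kz Λ u‖ₑ * K := by
        refine lintegral_mono fun u => ?_
        simp only
        rcases le_or_gt ‖u‖ (1 / Λ) with h | h
        · have h2 : Measurable fun p => F p u ^ q :=
            (hF.comp (by fun_prop : Measurable fun p => (p, u))).pow_const q
          rw [lintegral_const_mul _ h2]
          exact mul_le_mul_right (hK u h) _
        · rw [kz_supp hΛ h.le]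
          simp
    _ = K := by
        rw [lintegral_mul_const _ (kz_smooth Λ).continuous.measurable.enorm,
          lpz_enorm (kz_smooth Λ).continuous (kz_compact hΛ), kz_abs_int hΛ, ENNReal.ofReal_one,
          one_mul]

/-- Young's inequality in `L^q`. -/
theorem mol_young {Λ : ℝ} (hΛ : 0 < Λ) {q : ℝ} (hq : 1 ≤ q) {g : ℝ × E m → ℂ}
    (hg : Measurable g) : ∫⁻ p, ‖cz (kz Λ) g p‖ₑ ^ q ≤ ∫⁻ p, ‖g p‖ₑ ^ q := by
  have hq0 : 0 ≤ q := by linarith
  refine le_trans (lintegral_mono fun p => ENNReal.rpow_le_rpow ?_ hq0)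
    (mol_av hΛ hq (F := fun p u => ‖g (p.1, p.2 - u)‖ₑ) ?_ (K := ∫⁻ p, ‖g p‖ₑ ^ q) fun u _ => ?_)
  · obtain ⟨t, z⟩ := p
    rw [cz_sub]
    refine (enorm_integral_le_lintegral_enorm _).trans (lintegral_mono fun u => ?_)
    simp only
    rw [enorm_mul]
    refine mul_le_mul_left (le_of_eq ?_) _
    rw [← ofReal_norm, ← ofReal_norm, Complex.norm_real]
  · exact (hg.comp (by fun_prop : Measurable fun x : (ℝ × E m) × E m =>
      ((x.1.1, x.1.2 - x.2) : ℝ × E m))).enorm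
  · exact le_of_eq (mol_shift (F := fun p => ‖g p‖ₑ ^ q) (hg.enorm.pow_const q))

/-- L3: the modulus. -/
theorem mol_mod {q τ H Λ : ℝ} (hq : 1 ≤ q) (hτ : 0 < τ) (hH : 0 ≤ H) (hΛ : 1 ≤ Λ)
    {b : ℝ × E m → ℂ} (hm : Measurable b) (h1 : ∃ M, ∀ p, ‖b p‖ ≤ M)
    (hb : ∀ v : E m, ‖v‖ ≤ 1 →
      ∫⁻ p : ℝ × E m, ‖b (p.1, p.2 + v) - b p‖ₑ ^ q ≤ ENNReal.ofReal (H * ‖v‖ ^ τ)) :
    ∫⁻ p, ‖b p - mol Λ b p‖ₑ ^ q ≤ ENNReal.ofReal (H * (1 / Λ) ^ τ) ∧
    ∫⁻ p, ‖b p - mol Λ (mol Λ b) p‖ₑ ^ q ≤ ENNReal.ofReal (2 ^ q * H * (1 / Λ) ^ τ) := by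
  obtain ⟨M, hM⟩ := h1
  have hΛ0 : 0 < Λ := by linarith
  have hΛ1 : 1 / Λ ≤ 1 := by
    rw [div_le_one hΛ0]
    exact hΛ
  have hq0 : 0 ≤ q := by linarith
  have c1 := (kz_smooth (m := m) Λ).continuous
  have m1 := measurable_cz c1 hm
  have hM1 : ∀ p, ‖cz (kz Λ) b p‖ ≤ M := fun p => by
    have := cz_norm_le c1 (kz_compact hΛ0) (t := p.1) (fun z => hM (p.1, z)) p.2
    rwa [kz_abs_int hΛ0, mul_one] at this
  have key : ∫⁻ p, ‖b p - mol Λ b p‖ₑ ^ q ≤ ENNReal.ofReal (H * (1 / Λ) ^ τ) := by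
    refine le_trans (lintegral_mono fun p => ENNReal.rpow_le_rpow ?_ hq0)
      (mol_av hΛ0 hq (F := fun p u => ‖b (p.1, p.2 - u) - b p‖ₑ) ?_
        (K := ENNReal.ofReal (H * (1 / Λ) ^ τ)) fun u hu => ?_)
    · obtain ⟨t, z⟩ := p
      have e1 := cz_diff c1 (kz_compact hΛ0) hm (fun z => hM (t, z)) z
      rw [kz_int hΛ0, Complex.ofReal_one, one_mul] at e1
      rw [mol_eq, ← enorm_neg, neg_sub, e1]
      refine (enorm_integral_le_lintegral_enorm _).trans (lintegral_mono fun u => ?_)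
      simp only
      rw [enorm_mul]
      refine mul_le_mul_left (le_of_eq ?_) _
      rw [← ofReal_norm, ← ofReal_norm, Complex.norm_real]
    · exact ((hm.comp (by fun_prop : Measurable fun x : (ℝ × E m) × E m =>
        ((x.1.1, x.1.2 - x.2) : ℝ × E m))).sub (hm.comp measurable_fst)).enorm
    · have h2 := hb (-u) (by rw [norm_neg]; linarith)
      rw [norm_neg] at h2
      simp only [← sub_eq_add_neg] at h2
      refine h2.trans (ENNReal.ofReal_le_ofReal ?_)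
      gcongr
  refine ⟨key, ?_⟩
  have h3 : ∫⁻ p, ‖mol Λ (fun p => b p - mol Λ b p) p‖ₑ ^ q ≤
      ENNReal.ofReal (H * (1 / Λ) ^ τ) :=
    (mol_young hΛ0 hq (hm.sub m1)).trans key
  have h4 : ∀ p, ‖b p - mol Λ (mol Λ b) p‖ₑ ^ q ≤ 2 ^ (q - 1) *
      (‖b p - mol Λ b p‖ₑ ^ q + ‖mol Λ (fun p => b p - mol Λ b p) p‖ₑ ^ q) := by
    intro p
    refine le_trans (ENNReal.rpow_le_rpow ?_ hq0) (ENNReal.rpow_add_le_mul_rpow_add_rpow _ _ hq)
    obtain ⟨t, z⟩ := p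
    have e1 : mol Λ (fun p => b p - mol Λ b p) (t, z) = mol Λ b (t, z) - mol Λ (mol Λ b) (t, z) :=
      cz_sub_right c1 (kz_compact hΛ0) hm m1 (fun z => hM (t, z)) (fun z => hM1 (t, z)) z
    rw [e1]
    refine le_trans (le_of_eq ?_) (enorm_add_le _ _)
    congr 1
    ring
  calc ∫⁻ p, ‖b p - mol Λ (mol Λ b) p‖ₑ ^ q
      ≤ ∫⁻ p, 2 ^ (q - 1) * (‖b p - mol Λ b p‖ₑ ^ q +
          ‖mol Λ (fun p => b p - mol Λ b p) p‖ₑ ^ q) := lintegral_mono h4
    _ = 2 ^ (q - 1) * ((∫⁻ p, ‖b p - mol Λ b p‖ₑ ^ q) +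
          ∫⁻ p, ‖mol Λ (fun p => b p - mol Λ b p) p‖ₑ ^ q) := by
        have hm1 : Measurable fun p => ‖b p - mol Λ b p‖ₑ ^ q := (hm.sub m1).enorm.pow_const q
        have hm2 : Measurable fun p => ‖mol Λ (fun p => b p - mol Λ b p) p‖ₑ ^ q :=
          (measurable_cz c1 (hm.sub m1)).enorm.pow_const q
        have hm3 : Measurable fun p => ‖b p - mol Λ b p‖ₑ ^ q +
            ‖mol Λ (fun p => b p - mol Λ b p) p‖ₑ ^ q := hm1.add hm2
        rw [lintegral_const_mul _ hm3, lintegral_add_left hm1]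
    _ ≤ 2 ^ (q - 1) * (ENNReal.ofReal (H * (1 / Λ) ^ τ) + ENNReal.ofReal (H * (1 / Λ) ^ τ)) := by
        gcongr
    _ = _ := by
        have h5 : (0:ℝ) ≤ H * (1 / Λ) ^ τ := by positivity
        have h6 : (2:ℝ≥0∞) ^ (q - 1) = ENNReal.ofReal (2 ^ (q - 1)) := by
          rw [← ENNReal.ofReal_rpow_of_pos two_pos, ENNReal.ofReal_ofNat]
        rw [← ENNReal.ofReal_add h5 h5, h6, ← ENNReal.ofReal_mul (by positivity)]
        congr 1
        rw [Real.rpow_sub_one two_ne_zero]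
        ring

end Pool.Agent.LF2
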