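import Pool.Agent.LF2.PIECE
import Pool.Agent.LF2.MOL

/-!
[LEAF2] `level`: from level sets to `L^q`.
-/

set_option autoImplicit false

namespace Pool.Agent.LF2

open MeasureTheory Set Metric Pool.Agent.MP_6cbfb8_an Pool.Agent.LF
open scoped ENNReal Real RealInnerProductSpace ContDiff

variable {m : ℕ} {X : ℝ × E m → E (m + 2)} {p0 : ℝ × E m} {δ c C : ℝ} {A : ℕ → ℝ}

/-- The thresholds. -/
noncomputable def lva (j : ℕ) : ℝ := 2 * (1 / 2) ^ j

theorem lva_pos (j : ℕ) : 0 < lva j := by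
  unfold lva
  positivity

theorem lva_succ (j : ℕ) : lva j = 2 * lva (j + 1) := by
  unfold lva
  ring

theorem lva_succ_le (j : ℕ) : lva (j + 1) ≤ 1 := by
  have h1 : ((1:ℝ) / 2) ^ j ≤ 1 := pow_le_one₀ (by norm_num) (by norm_num)
  have h2 : lva (j + 1) = (1 / 2) ^ j := by
    unfold lva
    ring
  rw [h2]
  exact h1

open Classical in
/-- The pieces of `h`. -/
noncomputable def lvf (J : ℕ) (h : ℝ × E m → ℂ) (j : ℕ) (p : ℝ × E m) : ℂ :=
  if ‖h p‖ ≤ lva j ∧ (j ≤ J → lva (j + 1) < ‖h p‖) then h p else 0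

theorem lvf_meas (J : ℕ) {h : ℝ × E m → ℂ} (hh : Measurable h) (j : ℕ) :
    Measurable (lvf J h j) := by
  unfold lvf
  refine Measurable.ite ?_ hh measurable_const
  have e1 : {p | ‖h p‖ ≤ lva j ∧ (j ≤ J → lva (j + 1) < ‖h p‖)} =
      {p | ‖h p‖ ≤ lva j} ∩ {p | j ≤ J → lva (j + 1) < ‖h p‖} := rfl
  rw [e1]
  refine (measurableSet_le hh.norm measurable_const).inter ?_
  by_cases hj : j ≤ J
  · simp only [hj, forall_const]
    exact measurableSet_lt measurable_const hh.norm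
  · simp only [hj, false_imp_iff]
    exact MeasurableSet.univ

theorem lvf_norm (J : ℕ) (h : ℝ × E m → ℂ) (j : ℕ) (p : ℝ × E m) : ‖lvf J h j p‖ ≤ lva j := by
  unfold lvf
  split_ifs with h1
  · exact h1.1
  · rw [norm_zero]
    exact (lva_pos j).le

theorem lvf_zero (J : ℕ) {h : ℝ × E m → ℂ} (j : ℕ) {p : ℝ × E m} (hp : h p = 0) :
    lvf J h j p = 0 := by
  unfold lvf
  split_ifs with h1
  · exact hp
  · rfl

theorem lvf_lt {J j : ℕ} (hj : j ≤ J) {h : ℝ × E m → ℂ} {p : ℝ × E m} (hp : lvf J h j p ≠ 0) :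
    lva (j + 1) < ‖h p‖ := by
  unfold lvf at hp
  split_ifs at hp with h1
  · exact h1.2 hj
  · exact absurd rfl hp

theorem lvf_sum (J : ℕ) {h : ℝ × E m → ℂ} (h2 : ∀ p, ‖h p‖ ≤ 2) (p : ℝ × E m) :
    ∑ j ∈ Finset.range (J + 2), lvf J h j p = h p := by
  classical
  set I : ℕ → ℂ := fun j => if ‖h p‖ ≤ lva j then h p else 0 with hI
  have e1 : ∀ j ∈ Finset.range (J + 1), lvf J h j p = I j - I (j + 1) := by
    intro j hj
    have hj' : j ≤ J := Nat.lt_succ_iff.1 (Finset.mem_range.1 hj)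
    have h3 := lva_succ j
    have h4 := lva_pos (j + 1)
    simp only [hI, lvf, hj', true_imp_iff]
    by_cases a1 : ‖h p‖ ≤ lva j
    · by_cases a2 : ‖h p‖ ≤ lva (j + 1)
      · rw [if_neg (fun h5 => absurd h5.2 (not_lt.2 a2)), if_pos a1, if_pos a2, sub_self]
      · rw [if_pos ⟨a1, not_le.1 a2⟩, if_pos a1, if_neg a2, sub_zero]
    · have a2 : ¬ ‖h p‖ ≤ lva (j + 1) := fun h5 => a1 (by linarith)
      rw [if_neg (fun h5 => a1 h5.1), if_neg a1, if_neg a2, sub_self]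
  have e2 : lvf J h (J + 1) p = I (J + 1) := by
    have h3 : ¬ (J + 1 ≤ J) := by omega
    simp only [hI, lvf, h3, false_imp_iff, and_true]
  rw [Finset.sum_range_succ, Finset.sum_congr rfl e1, Finset.sum_range_sub', e2]
  have h3 : ‖h p‖ ≤ lva 0 := by
    unfold lva
    simpa using h2 p
  simp only [hI]
  rw [if_pos h3]
  ring

/-! ### Linearity -/

theorem lv_mol_sum {ι : Type} (s : Finset ι) {Λ : ℝ} (hΛ : 0 < Λ) {f : ι → ℝ × E m → ℂ}
    (hf : ∀ i ∈ s, Measurable (f i)) {M : ι → ℝ} (hM : ∀ i ∈ s, ∀ p, ‖f i p‖ ≤ M i)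
    (p : ℝ × E m) :
    mol Λ (fun p => ∑ i ∈ s, f i p) p = ∑ i ∈ s, mol Λ (f i) p := by
  obtain ⟨t, z⟩ := p
  simp only [mol_eq, cz_sub]
  rw [← integral_finsetSum s fun i hi =>
    cz_int (kz_smooth Λ).continuous (kz_compact hΛ) (hf i hi) (t := t)
      (fun z => hM i hi (t, z)) z]
  refine integral_congr_ae (Filter.Eventually.of_forall fun u => ?_)
  simp only
  rw [Finset.mul_sum]

theorem lv_mol_smul (Λ : ℝ) (a : ℂ) (f : ℝ × E m → ℂ) (p : ℝ × E m) :
    mol Λ (fun p => a * f p) p = a * mol Λ f p := by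
  unfold mol
  rw [← integral_const_mul]
  refine integral_congr_ae (Filter.Eventually.of_forall fun u => ?_)
  simp only
  ring

theorem lv_tb_smul {n : ℕ} (X : ℝ × E m → E n) (a : ℂ) (f : ℝ × E m → ℂ) (ξ : E n) :
    Tb X (fun p => a * f p) ξ = a * Tb X f ξ := by
  unfold Tb
  rw [← integral_const_mul]
  refine integral_congr_ae (Filter.Eventually.of_forall fun u => ?_)
  simp only
  ring

theorem lv_mol_int {δ1 Λ : ℝ} (hΛ : 1 ≤ Λ) {f : ℝ × E m → ℂ} (hf : Measurable f) {M : ℝ}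
    (hM : ∀ p, ‖f p‖ ≤ M) (hs : ∀ p, δ1 < ‖p - p0‖ → f p = 0) : Integrable (mol Λ f) := by
  have hΛ0 : 0 < Λ := by linarith
  refine (core_int (δ := δ1 + 1 / Λ) (p0 := p0) (B0 := M)
    (measurable_cz (kz_smooth Λ).continuous hf) (fun p => ?_) fun p hp => ?_).1
  · have := cz_norm_le (kz_smooth Λ).continuous (kz_compact hΛ0) (t := p.1)
      (fun z => hM (p.1, z)) p.2
    rwa [kz_abs_int hΛ0, mul_one] at this
  · exact cz_zero (r := 1 / Λ) (δ := ‖p - p0‖ - 1 / Λ) (fun _ hu => kz_supp hΛ0 hu) (p0 := p0)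
      (fun q hq => hs q (by linarith)) p (by linarith)

theorem lv_tb_fsum {n : ℕ} {ι : Type} (s : Finset ι) {X : ℝ × E m → E n} (hX : Continuous X)
    {f : ι → ℝ × E m → ℂ} (hf : ∀ i ∈ s, Integrable (f i)) (ξ : E n) :
    Tb X (fun p => ∑ i ∈ s, f i p) ξ = ∑ i ∈ s, Tb X (f i) ξ := by
  unfold Tb
  rw [← integral_finsetSum s fun i hi => Tb_integrable hX (hf i hi) ξ]
  refine integral_congr_ae (Filter.Eventually.of_forall fun p => ?_)
  simp only
  rw [Finset.sum_mul]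

/-- The number of levels. -/
theorem lv_count {τ ε : ℝ} (hτ : 0 < τ) (hε : 0 < ε) : ∃ D : ℝ, 0 ≤ D ∧ ∀ R : ℝ, 1 ≤ R →
    ∃ J : ℕ, lva (J + 1) ≤ (1 / R) ^ τ ∧ ((J : ℝ) + 2) ≤ D * R ^ ε := by
  refine ⟨τ / Real.log 2 / ε + 3, by positivity, fun R hR => ?_⟩
  have hR0 : 0 < R := by linarith
  have hl2 : 0 < Real.log 2 := Real.log_pos one_lt_two
  have hlR : 0 ≤ Real.log R := Real.log_nonneg hR
  refine ⟨⌈τ * Real.logb 2 R⌉₊, ?_, ?_⟩
  · have h1 : τ * Real.logb 2 R ≤ ⌈τ * Real.logb 2 R⌉₊ := Nat.le_ceil _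
    have h2 : lva (⌈τ * Real.logb 2 R⌉₊ + 1) = ((2:ℝ) ^ ⌈τ * Real.logb 2 R⌉₊)⁻¹ := by
      unfold lva
      rw [pow_succ, one_div, inv_pow]
      ring
    rw [h2, one_div, Real.inv_rpow hR0.le]
    gcongr
    calc R ^ τ = (2:ℝ) ^ (τ * Real.logb 2 R) := by
          rw [mul_comm, Real.rpow_mul two_pos.le, Real.rpow_logb two_pos (by norm_num) hR0]
      _ ≤ (2:ℝ) ^ ((⌈τ * Real.logb 2 R⌉₊ : ℕ) : ℝ) :=
          Real.rpow_le_rpow_of_exponent_le one_le_two h1
      _ = _ := Real.rpow_natCast _ _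
  · have h0 : 0 ≤ τ * Real.logb 2 R := by
      unfold Real.logb
      positivity
    have h1 := (Nat.ceil_lt_add_one h0).le
    have h2 : Real.log R ≤ R ^ ε / ε := Real.log_le_rpow_div hR0.le hε
    have h3 : 1 ≤ R ^ ε := Real.one_le_rpow hR hε.le
    have h4 : τ * Real.logb 2 R ≤ τ / Real.log 2 / ε * R ^ ε := by
      unfold Real.logb
      calc τ * (Real.log R / Real.log 2) = τ / Real.log 2 * Real.log R := by ring
        _ ≤ τ / Real.log 2 * (R ^ ε / ε) := by gcongr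
        _ = _ := by ring
    linarith

/-- LEVEL, with PIECE as a hypothesis. -/
theorem level_of (hG : Geo X p0 δ c C A) {p q τ ε : ℝ} (hq2 : 2 ≤ q)
    (hqp : q ≤ p) (hp2 : 2 < p) (hp4 : p < 4) (hε : 0 < ε) (hτ : 0 < τ) {N : ℕ} (hN : τ ≤ N)
    (hpc : ∃ C' : ℝ, 0 ≤ C' ∧ ∀ (R Λ : ℝ) (b : ℝ × E m → ℂ) (h : ℝ × E m → ℝ) (β : ℝ), 1 ≤ R →
      1 ≤ Λ → Λ ≤ R → Amp p0 (δ / 2) (Bk m) Λ b h →
      (∫⁻ q, ENNReal.ofReal (h q ^ 2)) ≤ ENNReal.ofReal β → (1 / R) ^ N ≤ β →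
      ∫⁻ ξ in Sh (m + 2) R, ‖Tb X b ξ‖ₑ ^ p ≤
        ENNReal.ofReal (C' * (R ^ (ε / 2 + (4 - p) / 2) * (Λ / R) ^ (m * (p - 2) / 2) * β))) :
    ∃ C' : ℝ, 0 ≤ C' ∧ ∀ (R Λ δ1 H : ℝ) (h : ℝ × E m → ℂ), 1 ≤ R → 1 ≤ Λ →
      Λ ≤ R → δ1 + 1 / Λ < δ / 2 → Measurable h → (∀ p, ‖h p‖ ≤ 2) →
      (∀ p, δ1 < ‖p - p0‖ → h p = 0) → 1 ≤ H →
      ∫⁻ p, ‖h p‖ₑ ^ q ≤ ENNReal.ofReal (H * (1 / Λ) ^ τ) →
      ∫⁻ ξ in Sh (m + 2) R, ‖Tb X (mol Λ h) ξ‖ₑ ^ p ≤
        ENNReal.ofReal (C' * (R ^ (ε + (4 - p) / 2) * (Λ / R) ^ (m * (p - 2) / 2) *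
          (H * (1 / Λ) ^ τ))) := by
  obtain ⟨C1, hC1, h1⟩ := hpc
  obtain ⟨D, hD, hcount⟩ := lv_count hτ (ε := ε / 8) (by positivity)
  set v : ℝ := max 1 (volume (closedBall p0 1)).toReal with hv
  have hv1 : 1 ≤ v := le_max_left _ _
  refine ⟨D ^ p * (C1 * (2 ^ p * v)), by positivity, ?_⟩
  intro R Λ δ1 H h hR hΛ hΛR hδ1 hm h2 hs hH hint
  have hR0 : 0 < R := by linarith
  have hΛ0 : 0 < Λ := by linarith
  have hq0 : 0 < q := by linarith
  have hp0 : 0 < p := by linarith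
  obtain ⟨J, hJ1, hJ2⟩ := hcount R hR
  have hLτ : 0 < (1 / Λ) ^ τ := by positivity
  have hRL : (1 / R) ^ τ ≤ (1 / Λ) ^ τ := by gcongr
  have hRN : (1 / R) ^ N ≤ (1 / R) ^ τ := by
    rw [← Real.rpow_natCast]
    refine Real.rpow_le_rpow_of_exponent_ge (by positivity) ?_ hN
    rw [div_le_one hR0]
    exact hR
  have hδs : δ1 < 1 := by
    have h3 := hG.hδ1
    have h4 : 0 < 1 / Λ := by positivity
    linarith
  -- one piece
  have piece1 : ∀ j ∈ Finset.range (J + 2), ∫⁻ ξ in Sh (m + 2) R,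
      ‖Tb X (mol Λ (lvf J h j)) ξ‖ₑ ^ p ≤
      ENNReal.ofReal (C1 * (2 ^ p * v) * (R ^ (ε / 2 + (4 - p) / 2) *
        (Λ / R) ^ (m * (p - 2) / 2) * (H * (1 / Λ) ^ τ))) := by
    intro j hj
    have hj' : j ≤ J + 1 := Nat.lt_succ_iff.1 (Finset.mem_range.1 hj)
    have ha := lva_pos j
    have ha1 := lva_pos (j + 1)
    have hac : (lva j : ℂ) ≠ 0 := by exact_mod_cast ha.ne'
    set g : ℝ × E m → ℂ := fun p => (((lva j)⁻¹ : ℝ) : ℂ) * lvf J h j p with hg
    have hgm : Measurable g := (lvf_meas J hm j).const_mul _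
    have hg1 : ∀ p, ‖g p‖ ≤ 1 := by
      intro p
      rw [hg]
      simp only
      rw [norm_mul, Complex.norm_real, Real.norm_of_nonneg (inv_nonneg.2 ha.le),
        inv_mul_le_iff₀ ha, mul_one]
      exact lvf_norm J h j p
    have hgs : ∀ p, δ1 < ‖p - p0‖ → g p = 0 := by
      intro p hp
      rw [hg]
      simp only
      rw [lvf_zero J j (hs p hp), mul_zero]
    have hA := mol_amp (p0 := p0) hΛ hδ1 hgm hg1 hgs
    have e1 : lvf J h j = fun p => (lva j : ℂ) * g p := by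
      funext p
      rw [hg]
      simp only
      rw [Complex.ofReal_inv, mul_inv_cancel_left₀ hac]
    have e2 : mol Λ (lvf J h j) = fun p => (lva j : ℂ) * mol Λ g p := by
      funext p
      conv_lhs => rw [e1]
      exact lv_mol_smul Λ _ g p
    have e3 : ∀ ξ, ‖Tb X (mol Λ (lvf J h j)) ξ‖ₑ ^ p =
        ENNReal.ofReal (lva j ^ p) * ‖Tb X (mol Λ g) ξ‖ₑ ^ p := by
      intro ξ
      rw [e2, lv_tb_smul, enorm_mul, ENNReal.mul_rpow_of_nonneg _ _ hp0.le,
        ← ENNReal.ofReal_rpow_of_pos ha]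
      congr 2
      rw [← ofReal_norm, Complex.norm_real, Real.norm_of_nonneg ha.le]
    simp only [e3]
    rw [lintegral_const_mul' _ _ ENNReal.ofReal_ne_top]
    -- the mass of the piece
    obtain ⟨β, hβ0, hβ1, hβ2, hβ3⟩ : ∃ β : ℝ, 0 ≤ β ∧
        (∫⁻ q, ENNReal.ofReal (‖g q‖ ^ 2)) ≤ ENNReal.ofReal β ∧ (1 / R) ^ N ≤ β ∧
        lva j ^ p * β ≤ 2 ^ p * v * (H * (1 / Λ) ^ τ) := by
      rcases Nat.lt_or_ge J j with hJj | hJj
      · have hjJ : j = J + 1 := by omega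
        refine ⟨v, by linarith, ?_, ?_, ?_⟩
        · calc (∫⁻ q, ENNReal.ofReal (‖g q‖ ^ 2))
              ≤ ∫⁻ q, (closedBall p0 1).indicator (fun _ => (1 : ℝ≥0∞)) q := by
                refine lintegral_mono fun q => ?_
                simp only
                by_cases hq : q ∈ closedBall p0 1
                · rw [indicator_of_mem hq]
                  have := hg1 q
                  calc ENNReal.ofReal (‖g q‖ ^ 2) ≤ ENNReal.ofReal 1 :=
                        ENNReal.ofReal_le_ofReal (pow_le_one₀ (norm_nonneg _) this)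
                    _ = 1 := ENNReal.ofReal_one
                · rw [mem_closedBall, dist_eq_norm, not_le] at hq
                  rw [hgs q (by linarith)]
                  simp
            _ = volume (closedBall p0 1) := by
                rw [lintegral_indicator measurableSet_closedBall, lintegral_const,
                  Measure.restrict_apply_univ, one_mul]
            _ = ENNReal.ofReal (volume (closedBall p0 1)).toReal := by
                rw [ENNReal.ofReal_toReal (isCompact_closedBall p0 1).measure_lt_top.ne]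
            _ ≤ ENNReal.ofReal v := ENNReal.ofReal_le_ofReal (le_max_right _ _)
        · refine le_trans ?_ hv1
          refine pow_le_one₀ (by positivity) ?_
          rw [div_le_one hR0]
          exact hR
        · have h5 : lva j ≤ (1 / Λ) ^ τ := by
            rw [hjJ]
            exact hJ1.trans hRL
          have h6 : lva j ≤ 1 := by
            rw [hjJ]
            exact lva_succ_le J
          have h7 : lva j ^ p ≤ lva j := by
            calc lva j ^ p ≤ lva j ^ (1:ℝ) :=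
                  Real.rpow_le_rpow_of_exponent_ge ha h6 (by linarith)
              _ = lva j := Real.rpow_one _
          have h8 : (1:ℝ) ≤ 2 ^ p := Real.one_le_rpow one_le_two hp0.le
          calc lva j ^ p * v ≤ (1 / Λ) ^ τ * v := by
                gcongr
                exact h7.trans h5
            _ = 1 * v * (1 * (1 / Λ) ^ τ) := by ring
            _ ≤ 2 ^ p * v * (H * (1 / Λ) ^ τ) := by gcongr
      · refine ⟨lva (j + 1) ^ (-q) * (H * (1 / Λ) ^ τ), by positivity, ?_, ?_, ?_⟩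
        · calc (∫⁻ y, ENNReal.ofReal (‖g y‖ ^ 2))
              ≤ ∫⁻ y, ENNReal.ofReal (lva (j + 1) ^ (-q)) * ‖h y‖ₑ ^ q := by
                refine lintegral_mono fun y => ?_
                simp only
                by_cases hy : g y = 0
                · rw [hy]
                  simp
                · have h5 : lvf J h j y ≠ 0 := by
                    intro h6
                    apply hy
                    rw [hg]
                    simp only
                    rw [h6, mul_zero]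
                  have h6 := lvf_lt hJj h5
                  have h7 : 0 < ‖h y‖ := ha1.trans h6
                  calc ENNReal.ofReal (‖g y‖ ^ 2) ≤ ENNReal.ofReal 1 :=
                        ENNReal.ofReal_le_ofReal (pow_le_one₀ (norm_nonneg _) (hg1 y))
                    _ ≤ ENNReal.ofReal (lva (j + 1) ^ (-q) * ‖h y‖ ^ q) := by
                        refine ENNReal.ofReal_le_ofReal ?_
                        rw [Real.rpow_neg ha1.le, inv_mul_eq_div, one_le_div (by positivity)]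
                        gcongr
                    _ = _ := by
                        rw [ENNReal.ofReal_mul (by positivity),
                          ← ENNReal.ofReal_rpow_of_pos h7, ofReal_norm]
            _ = ENNReal.ofReal (lva (j + 1) ^ (-q)) * ∫⁻ y, ‖h y‖ₑ ^ q :=
                lintegral_const_mul' _ _ ENNReal.ofReal_ne_top
            _ ≤ ENNReal.ofReal (lva (j + 1) ^ (-q)) * ENNReal.ofReal (H * (1 / Λ) ^ τ) := by
                gcongr
            _ = _ := by rw [← ENNReal.ofReal_mul (by positivity)]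
        · have h5 : 1 ≤ lva (j + 1) ^ (-q) := by
            rw [Real.rpow_neg ha1.le]
            exact (one_le_inv₀ (by positivity)).2
              (Real.rpow_le_one ha1.le (lva_succ_le j) hq0.le)
          calc (1 / R) ^ N ≤ (1 / Λ) ^ τ := hRN.trans hRL
            _ = 1 * (1 * (1 / Λ) ^ τ) := by ring
            _ ≤ _ := by gcongr
        · have h5 : lva j ^ p = 2 ^ p * lva (j + 1) ^ p := by
            rw [lva_succ j, Real.mul_rpow two_pos.le ha1.le]
          have h6 : lva (j + 1) ^ p * lva (j + 1) ^ (-q) ≤ 1 := by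
            rw [← Real.rpow_add ha1]
            exact Real.rpow_le_one ha1.le (lva_succ_le j) (by linarith)
          calc lva j ^ p * (lva (j + 1) ^ (-q) * (H * (1 / Λ) ^ τ))
              = 2 ^ p * (lva (j + 1) ^ p * lva (j + 1) ^ (-q)) * (H * (1 / Λ) ^ τ) := by
                rw [h5]
                ring
            _ ≤ 2 ^ p * v * (H * (1 / Λ) ^ τ) := by
                gcongr
                exact h6.trans hv1
    have h5 := h1 R Λ (mol Λ g) (fun p => ‖g p‖) β hR hΛ hΛR hA hβ1 hβ2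
    calc ENNReal.ofReal (lva j ^ p) * ∫⁻ ξ in Sh (m + 2) R, ‖Tb X (mol Λ g) ξ‖ₑ ^ p
        ≤ ENNReal.ofReal (lva j ^ p) * ENNReal.ofReal (C1 * (R ^ (ε / 2 + (4 - p) / 2) *
            (Λ / R) ^ (m * (p - 2) / 2) * β)) := by gcongr
      _ = ENNReal.ofReal (C1 * (R ^ (ε / 2 + (4 - p) / 2) *
            (Λ / R) ^ (m * (p - 2) / 2)) * (lva j ^ p * β)) := by
          rw [← ENNReal.ofReal_mul (by positivity)]
          congr 1
          ring
      _ ≤ ENNReal.ofReal (C1 * (R ^ (ε / 2 + (4 - p) / 2) *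
            (Λ / R) ^ (m * (p - 2) / 2)) * (2 ^ p * v * (H * (1 / Λ) ^ τ))) := by
          gcongr
      _ = _ := by
          congr 1
          ring
  -- the sum
  have hX : Continuous X := hG.hX.continuous
  have s1 : mol Λ h = fun p => ∑ j ∈ Finset.range (J + 2), mol Λ (lvf J h j) p := by
    funext p
    rw [← lv_mol_sum (Finset.range (J + 2)) hΛ0 (f := lvf J h) (M := lva)
      (fun j _ => lvf_meas J hm j) (fun j _ p => lvf_norm J h j p) p]
    congr 1
    funext p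
    exact (lvf_sum J h2 p).symm
  have s2 : ∀ ξ, Tb X (mol Λ h) ξ =
      ∑ j ∈ Finset.range (J + 2), Tb X (mol Λ (lvf J h j)) ξ := by
    intro ξ
    rw [s1]
    exact lv_tb_fsum _ hX (fun j _ => lv_mol_int (p0 := p0) (δ1 := δ1) hΛ (lvf_meas J hm j)
      (M := lva j) (fun p => lvf_norm J h j p) fun p hp => lvf_zero J j (hs p hp)) ξ
  have s3 : ∀ ξ, ‖Tb X (mol Λ h) ξ‖ₑ ^ p ≤ ((J + 2 : ℕ) : ℝ≥0∞) ^ (p - 1) *
      ∑ j ∈ Finset.range (J + 2), ‖Tb X (mol Λ (lvf J h j)) ξ‖ₑ ^ p := by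
    intro ξ
    rw [s2]
    refine (ENNReal.rpow_le_rpow (enorm_sum_le _ _) hp0.le).trans ?_
    have h5 := ENNReal.rpow_sum_le_const_mul_sum_rpow (Finset.range (J + 2))
      (fun j => ‖Tb X (mol Λ (lvf J h j)) ξ‖ₑ) (p := p) (by linarith)
    rwa [Finset.card_range] at h5
  have hms : ∀ j ∈ Finset.range (J + 2),
      Measurable fun ξ => ‖Tb X (mol Λ (lvf J h j)) ξ‖ₑ ^ p := fun j _ =>
    ((pc_meas hX (measurable_cz (kz_smooth Λ).continuous (lvf_meas J hm j))).measurable.enorm).pow_const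
      p
  set K : ℝ := R ^ (ε / 2 + (4 - p) / 2) * (Λ / R) ^ (m * (p - 2) / 2) * (H * (1 / Λ) ^ τ) with hK
  have hK0 : 0 ≤ K := by positivity
  calc ∫⁻ ξ in Sh (m + 2) R, ‖Tb X (mol Λ h) ξ‖ₑ ^ p
      ≤ ∫⁻ ξ in Sh (m + 2) R, ((J + 2 : ℕ) : ℝ≥0∞) ^ (p - 1) *
          ∑ j ∈ Finset.range (J + 2), ‖Tb X (mol Λ (lvf J h j)) ξ‖ₑ ^ p := lintegral_mono s3
    _ = ((J + 2 : ℕ) : ℝ≥0∞) ^ (p - 1) * ∑ j ∈ Finset.range (J + 2),
          ∫⁻ ξ in Sh (m + 2) R, ‖Tb X (mol Λ (lvf J h j)) ξ‖ₑ ^ p := by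
        rw [lintegral_const_mul _ (Finset.measurable_fun_sum _ hms),
          lintegral_finsetSum _ hms]
    _ ≤ ((J + 2 : ℕ) : ℝ≥0∞) ^ (p - 1) * ∑ _j ∈ Finset.range (J + 2),
          ENNReal.ofReal (C1 * (2 ^ p * v) * K) := by
        gcongr with j hj
        exact piece1 j hj
    _ = ENNReal.ofReal (((J : ℝ) + 2) ^ p * (C1 * (2 ^ p * v) * K)) := by
        rw [Finset.sum_const, Finset.card_range, nsmul_eq_mul, ← mul_assoc]
        have h5 : ((J + 2 : ℕ) : ℝ≥0∞) = ENNReal.ofReal ((J : ℝ) + 2) := by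
          rw [← ENNReal.ofReal_natCast]
          push_cast
          rfl
        rw [h5, ENNReal.ofReal_rpow_of_pos (by positivity),
          ← ENNReal.ofReal_mul (by positivity), ← ENNReal.ofReal_mul (by positivity)]
        congr 2
        rw [Real.rpow_sub_one (by positivity)]
        field_simp
    _ ≤ _ := by
        refine ENNReal.ofReal_le_ofReal ?_
        have h5 : ((J : ℝ) + 2) ^ p ≤ D ^ p * R ^ (ε / 2) := by
          calc ((J : ℝ) + 2) ^ p ≤ (D * R ^ (ε / 8)) ^ p := by gcongr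
            _ = D ^ p * R ^ (ε / 8 * p) := by
                rw [Real.mul_rpow hD (by positivity), ← Real.rpow_mul hR0.le]
            _ ≤ D ^ p * R ^ (ε / 2) := by
                gcongr
                nlinarith
        have h6 : R ^ (ε / 2) * R ^ (ε / 2 + (4 - p) / 2) = R ^ (ε + (4 - p) / 2) := by
          rw [← Real.rpow_add hR0]
          congr 1
          ring
        calc ((J : ℝ) + 2) ^ p * (C1 * (2 ^ p * v) * K)
            ≤ D ^ p * R ^ (ε / 2) * (C1 * (2 ^ p * v) * K) := by gcongr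
          _ = D ^ p * (C1 * (2 ^ p * v)) * ((R ^ (ε / 2) * R ^ (ε / 2 + (4 - p) / 2)) *
                (Λ / R) ^ (m * (p - 2) / 2) * (H * (1 / Λ) ^ τ)) := by
              rw [hK]
              ring
          _ = _ := by rw [h6]

/-- LEVEL: from level sets to `L^q`. -/
theorem level (hm : 1 ≤ m) (hG : Geo X p0 δ c C A) {p q τ ε : ℝ} (hq2 : 2 ≤ q) (hqp : q ≤ p)
    (hp2 : 2 < p) (hp4 : p < 4) (hε : 0 < ε) (hτ : 0 < τ) :
    ∃ C' : ℝ, 0 ≤ C' ∧ ∀ (R Λ δ1 H : ℝ) (h : ℝ × E m → ℂ), 1 ≤ R → 1 ≤ Λ →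
      Λ ≤ R → δ1 + 1 / Λ < δ / 2 → Measurable h → (∀ p, ‖h p‖ ≤ 2) →
      (∀ p, δ1 < ‖p - p0‖ → h p = 0) → 1 ≤ H →
      ∫⁻ p, ‖h p‖ₑ ^ q ≤ ENNReal.ofReal (H * (1 / Λ) ^ τ) →
      ∫⁻ ξ in Sh (m + 2) R, ‖Tb X (mol Λ h) ξ‖ₑ ^ p ≤
        ENNReal.ofReal (C' * (R ^ (ε + (4 - p) / 2) * (Λ / R) ^ (m * (p - 2) / 2) *
          (H * (1 / Λ) ^ τ))) :=
  level_of hG hq2 hqp hp2 hp4 hε hτ (N := ⌈τ⌉₊) (Nat.le_ceil τ)
    (piece hm hG (Bk m) hp2 hp4 (ε := ε / 2) (by positivity) ⌈τ⌉₊)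

end Pool.Agent.LF2
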