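import Pool.Agent.LF2.Df
import Pool.Agent.LF.L2M

/-!
[LEAF2] row MASS.
-/

set_option autoImplicit false

namespace Pool.Agent.LF2

open MeasureTheory Set Metric Pool.Agent.MP_6cbfb8_an Pool.Agent.LF
open scoped ENNReal Real RealInnerProductSpace ContDiff

variable {m : ℕ} {X : ℝ × E m → E (m + 2)} {p0 : ℝ × E m} {δ c C : ℝ} {A : ℕ → ℝ}

/-- MASS. -/
theorem mass (hG : Geo X p0 δ c C A) :
    ∃ C' : ℝ, 0 ≤ C' ∧ ∀ (R : ℝ) (b : ℝ × E m → ℂ), 1 ≤ R → Measurable b →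
      (∃ M, ∀ p, ‖b p‖ ≤ M) → (∀ p, δ ≤ ‖p - p0‖ → b p = 0) →
      ∫⁻ ξ in Sh (m + 2) R, ‖Tb X b ξ‖ₑ ^ 2 ≤ ENNReal.ofReal (C' * R) * ∫⁻ p, ‖b p‖ₑ ^ 2 := by
  obtain ⟨C', hC', h⟩ := lf_mass m (m + 2) c hG.hc
  refine ⟨C', hC'.le, ?_⟩
  intro R b hR hb hM hs
  obtain ⟨M, hM⟩ := hM
  have hR0 : 0 < R := by linarith
  have hi : Integrable b := (core_int hb hM fun p hp => hs p hp.le).1
  have h1 := h X hG.hX.continuous.measurable b hb hi (fun p p' hp hp' => ?_) R hR0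
  · have h2 : R ^ (m + 2) / R ^ (m + 1) = R := by
      rw [pow_succ R (m + 1)]
      field_simp
    rw [h2] at h1
    refine le_trans (lintegral_mono_set ?_) h1
    intro ξ hξ
    exact hξ.2
  · have e1 : ‖p - p0‖ ≤ δ := by
      by_contra h3
      exact hp (hs p (not_le.1 h3).le)
    have e2 : ‖p' - p0‖ ≤ δ := by
      by_contra h3
      exact hp' (hs p' (not_le.1 h3).le)
    exact (hG.bl p p' e1 e2).1

end Pool.Agent.LF2
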