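import Pool.Agent.LF2.Df

/-!
[LEAF2] row `amp_l2`: the amplitude in the mean square.
-/

set_option autoImplicit false

namespace Pool.Agent.LF2

open MeasureTheory Set Metric Pool.Agent.MP_6cbfb8_an Pool.Agent.LF
open scoped ENNReal Real RealInnerProductSpace ContDiff

theorem al_cs {α : Type*} [MeasurableSpace α] (μ : Measure α) {f : α → ℝ≥0∞}
    (hf : AEMeasurable f μ) : (∫⁻ x, f x ∂μ) ^ 2 ≤ μ univ * ∫⁻ x, f x ^ 2 ∂μ := by
  have h := ENNReal.lintegral_mul_le_Lp_mul_Lq μ Real.HolderConjugate.two_two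
    (f := fun _ => 1) aemeasurable_const hf
  have h2 : ∀ x : ℝ≥0∞, x ^ (2 : ℝ) = x ^ 2 := fun x => ENNReal.rpow_two x
  simp only [Pi.mul_apply, h2, one_mul, one_pow, lintegral_one] at h
  calc (∫⁻ x, f x ∂μ) ^ 2
      ≤ (μ univ ^ (1 / (2 : ℝ)) * (∫⁻ x, f x ^ 2 ∂μ) ^ (1 / (2 : ℝ))) ^ 2 := by
        gcongr
    _ = μ univ * ∫⁻ x, f x ^ 2 ∂μ := by
        rw [mul_pow, ← ENNReal.rpow_two, ← ENNReal.rpow_two, ← ENNReal.rpow_mul,
          ← ENNReal.rpow_mul]
        norm_num

/-- Averages over balls, in the mean square. -/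
theorem al_young {m : ℕ} (r : ℝ) (f : E m → ℝ≥0∞) (hf : Measurable f) :
    ∫⁻ z, (∫⁻ y in closedBall z r, f y) ^ 2 ≤
      volume (closedBall (0 : E m) r) ^ 2 * ∫⁻ y, f y ^ 2 := by
  have hball : ∀ z : E m, volume (closedBall z r) = volume (closedBall (0 : E m) r) := fun z =>
    (Measure.addHaar_closedBall_center volume z r)
  set P : Set (E m × E m) := {q | dist q.2 q.1 ≤ r} with hP
  have hPm : MeasurableSet P :=
    measurableSet_le (f := fun q : E m × E m => dist q.2 q.1) (by fun_prop) measurable_const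
  have h1 : ∀ z, ∫⁻ y in closedBall z r, f y ^ 2 =
      ∫⁻ y, P.indicator (fun q => f q.2 ^ 2) (z, y) := by
    intro z
    rw [← lintegral_indicator measurableSet_closedBall]
    refine lintegral_congr fun y => ?_
    by_cases hy : y ∈ closedBall z r
    · have hy' : (z, y) ∈ P := hy
      rw [indicator_of_mem hy, indicator_of_mem hy']
    · have hy' : (z, y) ∉ P := hy
      rw [indicator_of_notMem hy, indicator_of_notMem hy']
  have hm : Measurable (P.indicator fun q : E m × E m => f q.2 ^ 2) :=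
    ((hf.comp measurable_snd).pow_const 2).indicator hPm
  calc ∫⁻ z, (∫⁻ y in closedBall z r, f y) ^ 2
      ≤ ∫⁻ z, volume (closedBall (0 : E m) r) * ∫⁻ y in closedBall z r, f y ^ 2 := by
        refine lintegral_mono fun z => ?_
        refine (al_cs (volume.restrict (closedBall z r)) hf.aemeasurable).trans (le_of_eq ?_)
        rw [Measure.restrict_apply_univ, hball]
    _ = volume (closedBall (0 : E m) r) * ∫⁻ z, ∫⁻ y in closedBall z r, f y ^ 2 := by
        rw [lintegral_const_mul' _ _ (measure_closedBall_lt_top).ne]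
    _ = volume (closedBall (0 : E m) r) *
        ∫⁻ y, ∫⁻ z, P.indicator (fun q => f q.2 ^ 2) (z, y) := by
        simp_rw [h1]
        rw [lintegral_lintegral_swap (f := fun z y => P.indicator (fun q => f q.2 ^ 2) (z, y))
          hm.aemeasurable]
    _ = volume (closedBall (0 : E m) r) *
        ∫⁻ y, f y ^ 2 * volume (closedBall (0 : E m) r) := by
        congr 1
        refine lintegral_congr fun y => ?_
        have h2 : ∀ z, P.indicator (fun q => f q.2 ^ 2) (z, y) =
            (closedBall y r).indicator (fun _ => f y ^ 2) z := by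
          intro z
          by_cases hz : z ∈ closedBall y r
          · have hz' : (z, y) ∈ P := by
              simp only [hP, mem_ofPred_eq]
              rw [dist_comm]
              exact hz
            rw [indicator_of_mem hz, indicator_of_mem hz']
          · have hz' : (z, y) ∉ P := by
              simp only [hP, mem_ofPred_eq]
              rw [dist_comm]
              exact hz
            rw [indicator_of_notMem hz, indicator_of_notMem hz']
        simp_rw [h2]
        rw [lintegral_indicator measurableSet_closedBall, setLIntegral_const, hball]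
    _ = _ := by
        rw [lintegral_mul_const _ (hf.pow_const 2)]
        ring

variable {m : ℕ}

/-- YOUNG: the amplitude is controlled by `h` in the mean square. -/
theorem amp_l2 (B : ℕ → ℝ) : ∃ C' : ℝ, 0 ≤ C' ∧ ∀ (p0 : ℝ × E m) (δ Λ : ℝ) (b : ℝ × E m → ℂ)
    (h : ℝ × E m → ℝ), 1 ≤ Λ → Amp p0 δ B Λ b h →
      ∫⁻ p, ‖b p‖ₑ ^ 2 ≤ ENNReal.ofReal C' * ∫⁻ p, ENNReal.ofReal (h p ^ 2) := by
  set v : ℝ := (volume (closedBall (0 : E m) 1)).toReal with hv
  have hv0 : 0 ≤ v := ENNReal.toReal_nonneg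
  refine ⟨(B 0 * v) ^ 2, by positivity, ?_⟩
  intro p0 δ Λ b h hΛ hA
  have hΛ0 : 0 < Λ := by linarith
  have hvol : volume (closedBall (0 : E m) (1 / Λ)) = ENNReal.ofReal (v * (1 / Λ) ^ m) := by
    rw [Measure.addHaar_closedBall' volume (0 : E m) (by positivity : (0 : ℝ) ≤ 1 / Λ),
      finrank_euclideanSpace_fin, ← ENNReal.ofReal_toReal (measure_closedBall_lt_top
        (μ := (volume : Measure (E m))) (x := (0 : E m)) (r := 1)).ne, ← hv,
      ← ENNReal.ofReal_mul (by positivity), mul_comm]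
  have hht : ∀ t, Measurable fun y => ENNReal.ofReal (h (t, y)) := fun t =>
    (hA.hmeas.comp measurable_prodMk_left).ennreal_ofReal
  have h1 : ∀ t z, ‖b (t, z)‖ₑ ≤ ENNReal.ofReal (|B 0| * Λ ^ m) *
      ∫⁻ y in closedBall z (1 / Λ), ENNReal.ofReal (h (t, y)) := by
    intro t z
    have h2 := hA.bound t 0 z
    rw [norm_iteratedFDeriv_zero, pow_zero, mul_one] at h2
    have h3 : 0 ≤ ∫ y in closedBall z (1 / Λ), h (t, y) := integral_nonneg fun y => hA.h0 _
    have h4 : ‖b (t, z)‖ ≤ |B 0| * Λ ^ m * ∫ y in closedBall z (1 / Λ), h (t, y) := by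
      refine h2.trans ?_
      rw [mul_assoc]
      exact mul_le_mul_of_nonneg_right (le_abs_self _) (by positivity)
    rw [← ofReal_norm]
    refine (ENNReal.ofReal_le_ofReal h4).trans ?_
    rw [ENNReal.ofReal_mul (by positivity)]
    gcongr
    rw [integral_eq_lintegral_of_nonneg_ae (Filter.Eventually.of_forall fun y => hA.h0 _)
      (hA.hmeas.comp measurable_prodMk_left).aestronglyMeasurable]
    exact ENNReal.ofReal_toReal_le
  have h5 : ∀ t, ∫⁻ z, ‖b (t, z)‖ₑ ^ 2 ≤ ENNReal.ofReal ((B 0 * v) ^ 2) *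
      ∫⁻ z, ENNReal.ofReal (h (t, z) ^ 2) := by
    intro t
    calc ∫⁻ z, ‖b (t, z)‖ₑ ^ 2
        ≤ ∫⁻ z, ENNReal.ofReal ((|B 0| * Λ ^ m) ^ 2) *
          (∫⁻ y in closedBall z (1 / Λ), ENNReal.ofReal (h (t, y))) ^ 2 := by
          refine lintegral_mono fun z => ?_
          rw [ENNReal.ofReal_pow (by positivity), ← mul_pow]
          gcongr
          exact h1 t z
      _ = ENNReal.ofReal ((|B 0| * Λ ^ m) ^ 2) *
          ∫⁻ z, (∫⁻ y in closedBall z (1 / Λ), ENNReal.ofReal (h (t, y))) ^ 2 :=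
          lintegral_const_mul' _ _ ENNReal.ofReal_ne_top
      _ ≤ ENNReal.ofReal ((|B 0| * Λ ^ m) ^ 2) * (volume (closedBall (0 : E m) (1 / Λ)) ^ 2 *
          ∫⁻ y, ENNReal.ofReal (h (t, y)) ^ 2) := by
          gcongr
          exact al_young (1 / Λ) _ (hht t)
      _ = ENNReal.ofReal ((B 0 * v) ^ 2) * ∫⁻ z, ENNReal.ofReal (h (t, z) ^ 2) := by
          rw [hvol, ← mul_assoc, ← ENNReal.ofReal_pow (by positivity),
            ← ENNReal.ofReal_mul (by positivity)]
          congr 1
          · congr 1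
            have : |B 0| ^ 2 = B 0 ^ 2 := sq_abs _
            calc (|B 0| * Λ ^ m) ^ 2 * (v * (1 / Λ) ^ m) ^ 2
                = |B 0| ^ 2 * v ^ 2 * (Λ ^ m * (1 / Λ) ^ m) ^ 2 := by ring
              _ = (B 0 * v) ^ 2 := by
                  have e : Λ ^ m * (1 / Λ) ^ m = 1 := by
                    rw [← mul_pow, mul_one_div_cancel hΛ0.ne', one_pow]
                  rw [e, this]
                  ring
          · refine lintegral_congr fun z => ?_
            rw [ENNReal.ofReal_pow (hA.h0 _)]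
  have hbm : Measurable fun p : ℝ × E m => ‖b p‖ₑ ^ 2 := hA.meas.enorm.pow_const 2
  have hhm : Measurable fun p : ℝ × E m => ENNReal.ofReal (h p ^ 2) :=
    (hA.hmeas.pow_const 2).ennreal_ofReal
  rw [Measure.volume_eq_prod, lintegral_prod _ hbm.aemeasurable, lintegral_prod _ hhm.aemeasurable,
    ← lintegral_const_mul' _ _ ENNReal.ofReal_ne_top]
  exact lintegral_mono fun t => h5 t

end Pool.Agent.LF2
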