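import Pool.Agent.LF2.CORE
import Pool.Agent.LF2.MASS
import Pool.Agent.LF2.YOUNG

/-!
[LEAF2] `piece`: Hölder between `L^2` and `L^4`.
-/

set_option autoImplicit false

namespace Pool.Agent.LF2

open MeasureTheory Set Metric Pool.Agent.MP_6cbfb8_an Pool.Agent.LF
open scoped ENNReal Real RealInnerProductSpace ContDiff

variable {m : ℕ} {X : ℝ × E m → E (m + 2)} {p0 : ℝ × E m} {δ c C : ℝ} {A : ℕ → ℝ}

/-- `Tb` is measurable. -/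
theorem pc_meas {n : ℕ} {X : ℝ × E m → E n} (hX : Continuous X) {b : ℝ × E m → ℂ}
    (hb : Measurable b) : StronglyMeasurable (Tb X b) := by
  unfold Tb
  have h1 : Measurable fun q : E n × (ℝ × E m) =>
      b q.2 * Complex.exp (((-⟪q.1, X q.2⟫ : ℝ) : ℂ) * Complex.I) := by
    refine (hb.comp measurable_snd).mul ?_
    have hc : Continuous fun q : E n × (ℝ × E m) =>
        Complex.exp (((-⟪q.1, X q.2⟫ : ℝ) : ℂ) * Complex.I) := by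
      fun_prop
    exact hc.measurable
  exact h1.stronglyMeasurable.integral_prod_right

/-- Hölder between `L^2` and `L^4`. -/
theorem pc_hol {α : Type*} [MeasurableSpace α] {μ : Measure α} {f : α → ℝ≥0∞}
    (hf : AEMeasurable f μ) {p : ℝ} (hp2 : 2 < p) (hp4 : p < 4) :
    ∫⁻ x, f x ^ p ∂μ ≤
      (∫⁻ x, f x ^ 2 ∂μ) ^ ((4 - p) / 2) * (∫⁻ x, f x ^ 4 ∂μ) ^ ((p - 2) / 2) := by
  have h := ENNReal.lintegral_mul_norm_pow_le (μ := μ) (f := fun x => f x ^ 2)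
    (g := fun x => f x ^ 4) (hf.pow_const 2) (hf.pow_const 4)
    (p := (4 - p) / 2) (q := (p - 2) / 2) (by linarith) (by linarith) (by ring)
  refine le_trans (le_of_eq ?_) h
  refine lintegral_congr fun x => ?_
  rw [← ENNReal.rpow_natCast, ← ENNReal.rpow_natCast, ← ENNReal.rpow_mul, ← ENNReal.rpow_mul,
    ← ENNReal.rpow_add_of_nonneg _ _ (by push_cast; nlinarith) (by push_cast; nlinarith)]
  congr 1
  push_cast
  ring

/-- Hölder between `L^2` and `L^4`, in numbers. -/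
theorem pc_num {α : Type*} [MeasurableSpace α] {μ : Measure α} {f : α → ℝ≥0∞}
    (hf : AEMeasurable f μ) {p : ℝ} (hp2 : 2 < p) (hp4 : p < 4) {a b d : ℝ} (ha : 0 ≤ a)
    (hb : 0 ≤ b)
    (h2 : ∫⁻ x, f x ^ 2 ∂μ ≤ ENNReal.ofReal a) (h4 : ∫⁻ x, f x ^ 4 ∂μ ≤ ENNReal.ofReal b)
    (hd : a ^ ((4 - p) / 2) * b ^ ((p - 2) / 2) ≤ d) :
    ∫⁻ x, f x ^ p ∂μ ≤ ENNReal.ofReal d := by
  refine le_trans (pc_hol hf hp2 hp4) ?_
  calc (∫⁻ x, f x ^ 2 ∂μ) ^ ((4 - p) / 2) * (∫⁻ x, f x ^ 4 ∂μ) ^ ((p - 2) / 2)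
      ≤ ENNReal.ofReal a ^ ((4 - p) / 2) * ENNReal.ofReal b ^ ((p - 2) / 2) := by
        gcongr
    _ = ENNReal.ofReal (a ^ ((4 - p) / 2) * b ^ ((p - 2) / 2)) := by
        rw [ENNReal.ofReal_rpow_of_nonneg ha (by linarith),
          ENNReal.ofReal_rpow_of_nonneg hb (by linarith),
          ← ENNReal.ofReal_mul (Real.rpow_nonneg ha _)]
    _ ≤ ENNReal.ofReal d := ENNReal.ofReal_le_ofReal hd

/-- The amplitude is bounded. -/
theorem pc_bdd {B : ℕ → ℝ} {Λ : ℝ} (hΛ : 1 ≤ Λ) {b : ℝ × E m → ℂ} {h : ℝ × E m → ℝ}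
    (hA : Amp p0 δ B Λ b h) : ∃ M, ∀ p, ‖b p‖ ≤ M := by
  refine ⟨|B 0| * (Λ ^ m * (volume (closedBall (0 : E m) (1 / Λ))).toReal), fun p => ?_⟩
  obtain ⟨t, z⟩ := p
  have h0 := hA.bound t 0 z
  have e1 : ‖iteratedFDeriv ℝ 0 (fun z => b (t, z)) z‖ = ‖b (t, z)‖ := by simp
  rw [e1, pow_zero, mul_one] at h0
  have hm1 : Measurable fun y : E m => h (t, y) := hA.hmeas.comp measurable_prodMk_left
  have hv : volume (closedBall z (1 / Λ)) ≠ ⊤ := measure_closedBall_lt_top.ne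
  have hi : ∫ y in closedBall z (1 / Λ), h (t, y) ≤
      (volume (closedBall (0 : E m) (1 / Λ))).toReal := by
    have h3 : ∫ y in closedBall z (1 / Λ), h (t, y) ≤ ∫ y in closedBall z (1 / Λ), (1 : ℝ) := by
      refine integral_mono_of_nonneg (Filter.Eventually.of_forall fun y => hA.h0 _) ?_
        (Filter.Eventually.of_forall fun y => hA.h1 _)
      exact integrableOn_const hv
    refine h3.trans (le_of_eq ?_)
    rw [setIntegral_const, smul_eq_mul, mul_one, measureReal_def]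
    rw [Measure.addHaar_closedBall_center]
  have hi0 : 0 ≤ ∫ y in closedBall z (1 / Λ), h (t, y) :=
    integral_nonneg fun y => hA.h0 _
  refine h0.trans ?_
  calc B 0 * (Λ ^ m * ∫ y in closedBall z (1 / Λ), h (t, y))
      ≤ |B 0| * (Λ ^ m * ∫ y in closedBall z (1 / Λ), h (t, y)) := by
        gcongr
        exact le_abs_self _
    _ ≤ _ := by gcongr

/-- PIECE: Hölder between MASS and CORE_LAM, with the rows as hypotheses. -/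
theorem piece_of (hG : Geo X p0 δ c C A) (B : ℕ → ℝ) {p ε : ℝ} (hp2 : 2 < p)
    (hp4 : p < 4) (hε : 0 < ε) (N : ℕ)
    (hmass : ∃ C' : ℝ, 0 ≤ C' ∧ ∀ (R : ℝ) (b : ℝ × E m → ℂ), 1 ≤ R → Measurable b →
      (∃ M, ∀ p, ‖b p‖ ≤ M) → (∀ p, δ ≤ ‖p - p0‖ → b p = 0) →
      ∫⁻ ξ in Sh (m + 2) R, ‖Tb X b ξ‖ₑ ^ 2 ≤ ENNReal.ofReal (C' * R) * ∫⁻ p, ‖b p‖ₑ ^ 2)
    (hamp : ∃ C' : ℝ, 0 ≤ C' ∧ ∀ (p0 : ℝ × E m) (δ Λ : ℝ) (b : ℝ × E m → ℂ)
      (h : ℝ × E m → ℝ), 1 ≤ Λ → Amp p0 δ B Λ b h →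
      ∫⁻ p, ‖b p‖ₑ ^ 2 ≤ ENNReal.ofReal C' * ∫⁻ p, ENNReal.ofReal (h p ^ 2))
    (hcore : ∃ C' : ℝ, 0 ≤ C' ∧ ∀ (R Λ : ℝ) (b : ℝ × E m → ℂ) (h : ℝ × E m → ℝ), 1 ≤ R →
      1 ≤ Λ → Λ ≤ R → Amp p0 (δ / 2) B Λ b h →
      ∫⁻ ξ in Sh (m + 2) R, ‖Tb X b ξ‖ₑ ^ 4 ≤
        ENNReal.ofReal (C' * R ^ ε * (Λ / R) ^ m) * (∫⁻ p, ENNReal.ofReal (h p ^ 2)) +
        ENNReal.ofReal (C' * (1 / R) ^ (N + m))) :
    ∃ C' : ℝ, 0 ≤ C' ∧ ∀ (R Λ : ℝ) (b : ℝ × E m → ℂ) (h : ℝ × E m → ℝ) (β : ℝ), 1 ≤ R → 1 ≤ Λ →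
      Λ ≤ R → Amp p0 (δ / 2) B Λ b h → (∫⁻ q, ENNReal.ofReal (h q ^ 2)) ≤ ENNReal.ofReal β →
      (1 / R) ^ N ≤ β →
      ∫⁻ ξ in Sh (m + 2) R, ‖Tb X b ξ‖ₑ ^ p ≤
        ENNReal.ofReal (C' * (R ^ (ε + (4 - p) / 2) * (Λ / R) ^ (m * (p - 2) / 2) * β)) := by
  obtain ⟨C1, hC1, h1⟩ := hmass
  obtain ⟨C2, hC2, h2⟩ := hamp
  obtain ⟨C3, hC3, h3⟩ := hcore
  refine ⟨(C1 * C2) ^ ((4 - p) / 2) * (2 * C3) ^ ((p - 2) / 2), by positivity, ?_⟩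
  intro R Λ b h β hR hΛ hΛR hA hβ2 hβN
  have hR0 : (0 : ℝ) < R := by linarith
  have hΛ0 : (0 : ℝ) < Λ := by linarith
  have hβ : 0 < β := lt_of_lt_of_le (by positivity) hβN
  have hM := pc_bdd hΛ hA
  have hs : ∀ p, δ ≤ ‖p - p0‖ → b p = 0 := fun p hp => hA.supp p (by linarith [hG.hδ])
  have hmT : AEMeasurable (fun ξ => ‖Tb X b ξ‖ₑ) (volume.restrict (Sh (m + 2) R)) :=
    ((pc_meas hG.hX.continuous hA.meas).measurable.enorm).aemeasurable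
  refine pc_num (a := C1 * R * (C2 * β)) (b := 2 * C3 * R ^ ε * (Λ / R) ^ m * β) hmT hp2 hp4
    (by positivity) (by positivity) ?_ ?_ ?_
  · refine (h1 R b hR hA.meas hM hs).trans ?_
    rw [ENNReal.ofReal_mul (by positivity : 0 ≤ C1 * R), ENNReal.ofReal_mul hC2]
    gcongr
    exact (h2 p0 (δ / 2) Λ b h hΛ hA).trans (by gcongr)
  · refine (h3 R Λ b h hR hΛ hΛR hA).trans ?_
    have e1 : C3 * (1 / R) ^ (N + m) ≤ C3 * R ^ ε * (Λ / R) ^ m * β := by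
      have a1 : (1 / R) ^ (N + m) ≤ β * (Λ / R) ^ m := by
        rw [pow_add]
        gcongr
      have a2 : 1 ≤ R ^ ε := Real.one_le_rpow hR hε.le
      calc C3 * (1 / R) ^ (N + m) ≤ C3 * (β * (Λ / R) ^ m) := by gcongr
        _ = C3 * 1 * (Λ / R) ^ m * β := by ring
        _ ≤ C3 * R ^ ε * (Λ / R) ^ m * β := by gcongr
    calc ENNReal.ofReal (C3 * R ^ ε * (Λ / R) ^ m) * (∫⁻ p, ENNReal.ofReal (h p ^ 2)) +
          ENNReal.ofReal (C3 * (1 / R) ^ (N + m))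
        ≤ ENNReal.ofReal (C3 * R ^ ε * (Λ / R) ^ m) * ENNReal.ofReal β +
          ENNReal.ofReal (C3 * R ^ ε * (Λ / R) ^ m * β) := by
          gcongr
      _ = ENNReal.ofReal (2 * C3 * R ^ ε * (Λ / R) ^ m * β) := by
          rw [← ENNReal.ofReal_mul (by positivity), ← ENNReal.ofReal_add (by positivity)
            (by positivity)]
          congr 1
          ring
  · have e1 : (C1 * R * (C2 * β)) ^ ((4 - p) / 2) =
        (C1 * C2) ^ ((4 - p) / 2) * R ^ ((4 - p) / 2) * β ^ ((4 - p) / 2) := by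
      rw [show C1 * R * (C2 * β) = (C1 * C2) * R * β by ring, Real.mul_rpow (by positivity) hβ.le,
        Real.mul_rpow (by positivity) hR0.le]
    have e2 : (2 * C3 * R ^ ε * (Λ / R) ^ m * β) ^ ((p - 2) / 2) =
        (2 * C3) ^ ((p - 2) / 2) * R ^ (ε * ((p - 2) / 2)) * (Λ / R) ^ (m * (p - 2) / 2) *
          β ^ ((p - 2) / 2) := by
      rw [Real.mul_rpow (by positivity) hβ.le, Real.mul_rpow (by positivity) (by positivity),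
        Real.mul_rpow (by positivity) (by positivity), ← Real.rpow_mul hR0.le,
        ← Real.rpow_natCast, ← Real.rpow_mul (by positivity)]
      congr 3
      ring
    have e3 : β ^ ((4 - p) / 2) * β ^ ((p - 2) / 2) = β := by
      rw [← Real.rpow_add hβ]
      rw [show (4 - p) / 2 + (p - 2) / 2 = 1 by ring, Real.rpow_one]
    have e4 : R ^ ((4 - p) / 2) * R ^ (ε * ((p - 2) / 2)) ≤ R ^ (ε + (4 - p) / 2) := by
      rw [← Real.rpow_add hR0]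
      exact Real.rpow_le_rpow_of_exponent_le hR (by nlinarith)
    rw [e1, e2]
    calc (C1 * C2) ^ ((4 - p) / 2) * R ^ ((4 - p) / 2) * β ^ ((4 - p) / 2) *
          ((2 * C3) ^ ((p - 2) / 2) * R ^ (ε * ((p - 2) / 2)) * (Λ / R) ^ (m * (p - 2) / 2) *
            β ^ ((p - 2) / 2))
        = (C1 * C2) ^ ((4 - p) / 2) * (2 * C3) ^ ((p - 2) / 2) *
          ((R ^ ((4 - p) / 2) * R ^ (ε * ((p - 2) / 2))) * (Λ / R) ^ (m * (p - 2) / 2) *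
            (β ^ ((4 - p) / 2) * β ^ ((p - 2) / 2))) := by ring
      _ ≤ (C1 * C2) ^ ((4 - p) / 2) * (2 * C3) ^ ((p - 2) / 2) *
          (R ^ (ε + (4 - p) / 2) * (Λ / R) ^ (m * (p - 2) / 2) * β) := by
          rw [e3]
          gcongr

/-- PIECE: Hölder between MASS and CORE_LAM. -/
theorem piece (hm : 1 ≤ m) (hG : Geo X p0 δ c C A) (B : ℕ → ℝ) {p ε : ℝ} (hp2 : 2 < p)
    (hp4 : p < 4) (hε : 0 < ε) (N : ℕ) :
    ∃ C' : ℝ, 0 ≤ C' ∧ ∀ (R Λ : ℝ) (b : ℝ × E m → ℂ) (h : ℝ × E m → ℝ) (β : ℝ), 1 ≤ R → 1 ≤ Λ →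
      Λ ≤ R → Amp p0 (δ / 2) B Λ b h → (∫⁻ q, ENNReal.ofReal (h q ^ 2)) ≤ ENNReal.ofReal β →
      (1 / R) ^ N ≤ β →
      ∫⁻ ξ in Sh (m + 2) R, ‖Tb X b ξ‖ₑ ^ p ≤
        ENNReal.ofReal (C' * (R ^ (ε + (4 - p) / 2) * (Λ / R) ^ (m * (p - 2) / 2) * β)) :=
  piece_of hG B hp2 hp4 hε N (mass hG) (amp_l2 B) (core_lam hm hG B hε (N + m))

end Pool.Agent.LF2
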