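import Pool.Agent.LF2.MASS
import Pool.Agent.LF2.ST4

/-!
[LEAF2] row REST: Hölder between MASS and ST4.
-/

set_option autoImplicit false

namespace Pool.Agent.LF2

open MeasureTheory Set Metric Pool.Agent.MP_6cbfb8_an Pool.Agent.LF
open scoped ENNReal Real RealInnerProductSpace ContDiff

variable {m : ℕ} {X : ℝ × E m → E (m + 2)} {p0 : ℝ × E m} {δ c C : ℝ} {A : ℕ → ℝ}

theorem rest_meas {m n : ℕ} {X : ℝ × E m → E n} (hX : Continuous X) {b : ℝ × E m → ℂ}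
    (hb : Measurable b) : Measurable fun ξ : E n => Tb X b ξ := by
  have h1 : Measurable fun q : E n × (ℝ × E m) =>
      b q.2 * Complex.exp (((-⟪q.1, X q.2⟫ : ℝ) : ℂ) * Complex.I) := by
    refine (hb.comp measurable_snd).mul (Continuous.measurable ?_)
    fun_prop
  exact (h1.stronglyMeasurable.integral_prod_right').measurable

/-- The power `p` between the powers `2` and `4`. -/
theorem rest_pow {p : ℝ} (hp2 : 2 < p) (hp4 : p < 4) (x : ℝ≥0∞) :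
    x ^ p = (x ^ 2) ^ ((4 - p) / 2) * (x ^ 4) ^ ((p - 2) / 2) := by
  rw [← ENNReal.rpow_natCast x 2, ← ENNReal.rpow_natCast x 4, ← ENNReal.rpow_mul,
    ← ENNReal.rpow_mul, ← ENNReal.rpow_add_of_nonneg]
  · congr 1
    push_cast
    ring
  · push_cast
    linarith
  · push_cast
    linarith

/-- Hölder between the powers `2` and `4`. -/
theorem rest_holder {α : Type*} [MeasurableSpace α] {μ : Measure α} {f : α → ℝ≥0∞}
    (hf : AEMeasurable f μ) {p : ℝ} (hp2 : 2 < p) (hp4 : p < 4) :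
    ∫⁻ a, f a ^ p ∂μ ≤ (∫⁻ a, f a ^ 2 ∂μ) ^ ((4 - p) / 2) *
      (∫⁻ a, f a ^ 4 ∂μ) ^ ((p - 2) / 2) := by
  simp_rw [rest_pow hp2 hp4]
  exact ENNReal.lintegral_mul_norm_pow_le (hf.pow_const 2) (hf.pow_const 4) (by linarith)
    (by linarith) (by ring)

/-- REST over ST4. -/
theorem rest_of (hG : Geo X p0 δ c C A) {p ε : ℝ} (hp2 : 2 < p) (hp4 : p < 4) (hε : 0 < ε)
    (hst : ∃ C' : ℝ, 0 ≤ C' ∧ ∀ (R : ℝ) (b : ℝ × E m → ℂ), 1 ≤ R →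
      Measurable b → (∃ M, ∀ p, ‖b p‖ ≤ M) → (∀ p, δ ≤ ‖p - p0‖ → b p = 0) →
      ∫⁻ ξ in {ξ : E (m + 2) | ‖ξ‖ ≤ 4 * R}, ‖Tb X b ξ‖ₑ ^ 4 ≤
        ENNReal.ofReal (C' * R ^ ε) * (∫⁻ p, ‖b p‖ₑ ^ 2) ^ 2) :
    ∃ C' : ℝ, 0 ≤ C' ∧ ∀ (R : ℝ) (b : ℝ × E m → ℂ) (β : ℝ), 1 ≤ R → Measurable b →
      (∃ M, ∀ p, ‖b p‖ ≤ M) → (∀ p, δ ≤ ‖p - p0‖ → b p = 0) → 0 ≤ β →
      ∫⁻ q, ‖b q‖ₑ ^ 2 ≤ ENNReal.ofReal β →
      ∫⁻ ξ in Sh (m + 2) R, ‖Tb X b ξ‖ₑ ^ p ≤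
        ENNReal.ofReal (C' * (R ^ (ε + (4 - p) / 2) * β ^ (p / 2))) := by
  obtain ⟨C1, hC1, h1⟩ := mass hG
  obtain ⟨C2, hC2, h2⟩ := hst
  refine ⟨C1 ^ ((4 - p) / 2) * C2 ^ ((p - 2) / 2), by positivity, ?_⟩
  intro R b β hR hb hM hs hβ hbβ
  have hR0 : 0 < R := by linarith
  have ha : 0 ≤ (4 - p) / 2 := by linarith
  have hc : 0 ≤ (p - 2) / 2 := by linarith
  have hme : AEMeasurable (fun ξ => ‖Tb X b ξ‖ₑ) (volume.restrict (Sh (m + 2) R)) :=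
    (rest_meas hG.hX.continuous hb).enorm.aemeasurable
  refine (rest_holder hme hp2 hp4).trans ?_
  have e1 : ∫⁻ ξ in Sh (m + 2) R, ‖Tb X b ξ‖ₑ ^ 2 ≤ ENNReal.ofReal (C1 * R * β) := by
    refine (h1 R b hR hb hM hs).trans ?_
    rw [ENNReal.ofReal_mul (by positivity : 0 ≤ C1 * R)]
    gcongr
  have e2 : ∫⁻ ξ in Sh (m + 2) R, ‖Tb X b ξ‖ₑ ^ 4 ≤ ENNReal.ofReal (C2 * R ^ ε * β ^ 2) := by
    refine (lintegral_mono_set ?_).trans ((h2 R b hR hb hM hs).trans ?_)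
    · intro ξ hξ
      have h3 := hξ.2
      show ‖ξ‖ ≤ 4 * R
      linarith
    · rw [ENNReal.ofReal_mul (by positivity : 0 ≤ C2 * R ^ ε), ENNReal.ofReal_pow hβ]
      gcongr
  calc (∫⁻ ξ in Sh (m + 2) R, ‖Tb X b ξ‖ₑ ^ 2) ^ ((4 - p) / 2) *
        (∫⁻ ξ in Sh (m + 2) R, ‖Tb X b ξ‖ₑ ^ 4) ^ ((p - 2) / 2)
      ≤ ENNReal.ofReal (C1 * R * β) ^ ((4 - p) / 2) *
        ENNReal.ofReal (C2 * R ^ ε * β ^ 2) ^ ((p - 2) / 2) := by gcongr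
    _ = ENNReal.ofReal ((C1 * R * β) ^ ((4 - p) / 2) *
        (C2 * R ^ ε * β ^ 2) ^ ((p - 2) / 2)) := by
        rw [ENNReal.ofReal_rpow_of_nonneg (by positivity) ha,
          ENNReal.ofReal_rpow_of_nonneg (by positivity) hc, ← ENNReal.ofReal_mul (by positivity)]
    _ ≤ _ := by
        refine ENNReal.ofReal_le_ofReal ?_
        rw [Real.mul_rpow (by positivity) hβ, Real.mul_rpow hC1 hR0.le,
          Real.mul_rpow (by positivity) (by positivity), Real.mul_rpow hC2 (by positivity),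
          ← Real.rpow_natCast β 2, ← Real.rpow_mul hβ, ← Real.rpow_mul hR0.le]
        have e3 : β ^ ((4 - p) / 2) * β ^ (((2 : ℕ) : ℝ) * ((p - 2) / 2)) = β ^ (p / 2) := by
          rw [← Real.rpow_add_of_nonneg hβ ha (by positivity)]
          congr 1
          push_cast
          ring
        have e4 : R ^ ((4 - p) / 2) * R ^ (ε * ((p - 2) / 2)) ≤ R ^ (ε + (4 - p) / 2) := by
          rw [← Real.rpow_add hR0]
          refine Real.rpow_le_rpow_of_exponent_le hR ?_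
          nlinarith
        calc C1 ^ ((4 - p) / 2) * R ^ ((4 - p) / 2) * β ^ ((4 - p) / 2) *
              (C2 ^ ((p - 2) / 2) * R ^ (ε * ((p - 2) / 2)) *
                β ^ (((2 : ℕ) : ℝ) * ((p - 2) / 2)))
            = C1 ^ ((4 - p) / 2) * C2 ^ ((p - 2) / 2) *
              ((R ^ ((4 - p) / 2) * R ^ (ε * ((p - 2) / 2))) *
                (β ^ ((4 - p) / 2) * β ^ (((2 : ℕ) : ℝ) * ((p - 2) / 2)))) := by ring
          _ ≤ C1 ^ ((4 - p) / 2) * C2 ^ ((p - 2) / 2) *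
              (R ^ (ε + (4 - p) / 2) * β ^ (p / 2)) := by
              rw [e3]
              gcongr

/-- REST: Hölder between MASS and ST4. -/
theorem rest (hm : 1 ≤ m) (hG : Geo X p0 δ c C A) {p ε : ℝ} (hp2 : 2 < p) (hp4 : p < 4)
    (hε : 0 < ε) :
    ∃ C' : ℝ, 0 ≤ C' ∧ ∀ (R : ℝ) (b : ℝ × E m → ℂ) (β : ℝ), 1 ≤ R → Measurable b →
      (∃ M, ∀ p, ‖b p‖ ≤ M) → (∀ p, δ ≤ ‖p - p0‖ → b p = 0) → 0 ≤ β →
      ∫⁻ q, ‖b q‖ₑ ^ 2 ≤ ENNReal.ofReal β →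
      ∫⁻ ξ in Sh (m + 2) R, ‖Tb X b ξ‖ₑ ^ p ≤
        ENNReal.ofReal (C' * (R ^ (ε + (4 - p) / 2) * β ^ (p / 2))) :=
  rest_of hG hp2 hp4 hε (st4 hm hG hε)

end Pool.Agent.LF2
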