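import Pool.Agent.LF2.MOL
import Pool.Agent.LF2.PIECE
import Pool.Agent.LF2.REST
import Pool.Agent.LF2.LEVEL

/-!
[LEAF2] One shell: the low piece, the dyadic pieces, the rest.
-/

set_option autoImplicit false

namespace Pool.Agent.LF2

open MeasureTheory Set Metric Pool.Agent.MP_6cbfb8_an Pool.Agent.LF
open scoped ENNReal Real RealInnerProductSpace ContDiff

variable {m : ℕ} {X : ℝ × E m → E (m + 2)} {p0 : ℝ × E m} {δ c C : ℝ} {A : ℕ → ℝ}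

/-! ### Triangle inequalities -/

theorem sh_tri {Y : Type*} [MeasurableSpace Y] (μ : Measure Y) {p : ℝ} (hp : 1 ≤ p) (N : ℕ)
    (H : ℕ → Y → ℂ) (hH : ∀ k, Measurable (H k)) (M : ℝ≥0∞)
    (hM : ∀ k < N, ∫⁻ x, ‖H k x‖ₑ ^ p ∂μ ≤ M) :
    ∫⁻ x, ‖∑ k ∈ Finset.range N, H k x‖ₑ ^ p ∂μ ≤ (N : ℝ≥0∞) ^ p * M := by
  have h : ∀ x, ‖∑ k ∈ Finset.range N, H k x‖ₑ ^ p ≤
      (N : ℝ≥0∞) ^ (p - 1) * ∑ k ∈ Finset.range N, ‖H k x‖ₑ ^ p := by
    intro x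
    refine (ENNReal.rpow_le_rpow (enorm_sum_le _ _) (by linarith)).trans ?_
    have := ENNReal.rpow_sum_le_const_mul_sum_rpow (Finset.range N) (fun k => ‖H k x‖ₑ) hp
    rwa [Finset.card_range] at this
  refine (lintegral_mono h).trans ?_
  rw [lintegral_const_mul _ (Finset.measurable_sum _ fun k _ => (hH k).enorm.pow_const p),
    lintegral_finsetSum _ fun k _ => (hH k).enorm.pow_const p]
  have h3 : ∑ k ∈ Finset.range N, ∫⁻ x, ‖H k x‖ₑ ^ p ∂μ ≤ N * M := by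
    refine (Finset.sum_le_sum fun k hk => hM k (Finset.mem_range.1 hk)).trans ?_
    rw [Finset.sum_const, Finset.card_range, nsmul_eq_mul]
  refine (mul_le_mul_right h3 _).trans (le_of_eq ?_)
  rw [← mul_assoc]
  congr 1
  rcases Nat.eq_zero_or_pos N with hN | hN
  · subst hN
    rw [Nat.cast_zero, mul_zero, ENNReal.zero_rpow_of_pos (by linarith)]
  · nth_rewrite 2 [← ENNReal.rpow_one (N : ℝ≥0∞)]
    rw [← ENNReal.rpow_add _ _ (by exact_mod_cast hN.ne') (ENNReal.natCast_ne_top N)]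
    congr 1
    ring

theorem sh_add {Y : Type*} [MeasurableSpace Y] (μ : Measure Y) {p : ℝ} (hp : 1 ≤ p)
    (f g : Y → ℂ) (hf : Measurable f) (hg : Measurable g) (M : ℝ≥0∞)
    (h1 : ∫⁻ x, ‖f x‖ₑ ^ p ∂μ ≤ M) (h2 : ∫⁻ x, ‖g x‖ₑ ^ p ∂μ ≤ M) :
    ∫⁻ x, ‖f x + g x‖ₑ ^ p ∂μ ≤ 2 ^ p * M := by
  have h := sh_tri μ hp 2 (fun k => if k = 0 then f else g)
    (by intro k; split_ifs <;> assumption) M (by
      intro k _
      split_ifs <;> assumption)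
  simpa [Finset.sum_range_succ] using h

theorem sh_sub {Y : Type*} [MeasurableSpace Y] (μ : Measure Y) {p : ℝ} (hp : 1 ≤ p)
    (f g : Y → ℂ) (hf : Measurable f) (hg : Measurable g) (M : ℝ≥0∞)
    (h1 : ∫⁻ x, ‖f x‖ₑ ^ p ∂μ ≤ M) (h2 : ∫⁻ x, ‖g x‖ₑ ^ p ∂μ ≤ M) :
    ∫⁻ x, ‖f x - g x‖ₑ ^ p ∂μ ≤ 2 ^ p * M := by
  have h := sh_add μ hp f (fun x => -g x) hf hg.neg M h1 (by simpa only [enorm_neg] using h2)
  simpa only [← sub_eq_add_neg] using h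

/-! ### Exponents -/

theorem sh_exp {a μ τ η R Λ : ℝ} (hR : 1 ≤ R) (hΛ : 1 ≤ Λ) (hΛR : Λ ≤ R) (h1 : a - μ ≤ -η)
    (h2 : a - τ ≤ -η) : R ^ a * (Λ / R) ^ μ * (1 / Λ) ^ τ ≤ R ^ (-η) := by
  have hR0 : 0 < R := by linarith
  have hΛ0 : 0 < Λ := by linarith
  have hx : 0 ≤ Real.log Λ := Real.log_nonneg hΛ
  have hy : Real.log Λ ≤ Real.log R := Real.log_le_log hΛ0 hΛR
  rw [Real.rpow_def_of_pos hR0, Real.rpow_def_of_pos (div_pos hΛ0 hR0),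
    Real.rpow_def_of_pos (by positivity : (0 : ℝ) < 1 / Λ), Real.rpow_def_of_pos hR0,
    Real.log_div hΛ0.ne' hR0.ne', one_div, Real.log_inv, ← Real.exp_add, ← Real.exp_add,
    Real.exp_le_exp]
  nlinarith

theorem sh_log {p η : ℝ} (hp : 0 < p) (hη : 0 < η) : ∃ K : ℝ, 0 ≤ K ∧ ∀ (k : ℕ) (R : ℝ),
    (2 : ℝ) ^ k ≤ R → ((k : ℝ) + 1) ^ p ≤ K * R ^ η := by
  set a : ℝ := η * Real.log 2 / p with ha
  have hl : 0 < Real.log 2 := Real.log_pos (by norm_num)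
  have ha0 : 0 < a := by positivity
  refine ⟨(1 + 1 / a) ^ p, by positivity, fun k R hk => ?_⟩
  have h2k : (0 : ℝ) < 2 ^ k := by positivity
  have hR0 : 0 < R := h2k.trans_le hk
  have h1 : (k : ℝ) + 1 ≤ (1 + 1 / a) * Real.exp (a * k) := by
    have h2 := Real.add_one_le_exp (a * k)
    have h3 : (k : ℝ) + 1 ≤ (1 + 1 / a) * (a * k + 1) := by
      have h4 : (1 + 1 / a) * (a * k + 1) = a * k + 1 + k + 1 / a := by
        field_simp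
        ring
      rw [h4]
      have : (0 : ℝ) ≤ a * k := by positivity
      have : 0 < 1 / a := by positivity
      linarith
    refine h3.trans (mul_le_mul_of_nonneg_left h2 (by positivity))
  have h5 : (Real.exp (a * k)) ^ p = ((2 : ℝ) ^ k) ^ η := by
    rw [Real.rpow_def_of_pos h2k, Real.log_pow, ← Real.exp_mul]
    congr 1
    rw [ha]
    field_simp
  calc ((k : ℝ) + 1) ^ p ≤ ((1 + 1 / a) * Real.exp (a * k)) ^ p :=
        Real.rpow_le_rpow (by positivity) h1 hp.le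
    _ = (1 + 1 / a) ^ p * ((2 : ℝ) ^ k) ^ η := by
        rw [Real.mul_rpow (by positivity) (Real.exp_pos _).le, h5]
    _ ≤ _ := mul_le_mul_of_nonneg_left (Real.rpow_le_rpow h2k.le hk hη.le) (by positivity)

/-! ### Bounded functions with support in a ball -/

/-- Bounded measurable functions with support in the ball. -/
structure Nice (p0 : ℝ × E m) (δ : ℝ) (f : ℝ × E m → ℂ) : Prop where
  meas : Measurable f
  bd : ∃ M, ∀ p, ‖f p‖ ≤ M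
  supp : ∀ p, δ ≤ ‖p - p0‖ → f p = 0

theorem Nice.integrable {f : ℝ × E m → ℂ} (h : Nice p0 δ f) : Integrable f := by
  obtain ⟨M, hM⟩ := h.bd
  have h1 : IntegrableOn f (closedBall p0 δ) :=
    Measure.integrableOn_of_bounded measure_closedBall_lt_top.ne h.meas.aestronglyMeasurable
      (Filter.Eventually.of_forall hM)
  refine (integrableOn_iff_integrable_of_support_subset ?_).1 h1
  intro p hp
  rw [mem_closedBall, dist_eq_norm]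
  by_contra h2
  exact hp (h.supp p (not_le.1 h2).le)

theorem Nice.integrable_mul {f : ℝ × E m → ℂ} (h : Nice p0 δ f) (hX : Continuous X)
    (ξ : E (m + 2)) :
    Integrable fun p => f p * Complex.exp (((-⟪ξ, X p⟫ : ℝ) : ℂ) * Complex.I) := by
  refine h.integrable.mul_bdd (c := 1) ?_ (Filter.Eventually.of_forall fun p => ?_)
  · exact (Continuous.measurable (by fun_prop)).aestronglyMeasurable
  · rw [Complex.norm_exp_ofReal_mul_I]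

theorem Nice.add {f g : ℝ × E m → ℂ} (hf : Nice p0 δ f) (hg : Nice p0 δ g) :
    Nice p0 δ fun p => f p + g p := by
  obtain ⟨M, hM⟩ := hf.bd
  obtain ⟨M', hM'⟩ := hg.bd
  refine ⟨hf.meas.add hg.meas, ⟨M + M', fun p => (norm_add_le _ _).trans (add_le_add (hM p)
    (hM' p))⟩, fun p hp => ?_⟩
  rw [hf.supp p hp, hg.supp p hp, add_zero]

theorem Nice.sub {f g : ℝ × E m → ℂ} (hf : Nice p0 δ f) (hg : Nice p0 δ g) :
    Nice p0 δ fun p => f p - g p := by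
  obtain ⟨M, hM⟩ := hf.bd
  obtain ⟨M', hM'⟩ := hg.bd
  refine ⟨hf.meas.sub hg.meas, ⟨M + M', fun p => (norm_sub_le _ _).trans (add_le_add (hM p)
    (hM' p))⟩, fun p hp => ?_⟩
  rw [hf.supp p hp, hg.supp p hp, sub_zero]

theorem Nice.mono {f : ℝ × E m → ℂ} {δ' : ℝ} (hf : Nice p0 δ f) (h : δ ≤ δ') : Nice p0 δ' f :=
  ⟨hf.meas, hf.bd, fun p hp => hf.supp p (h.trans hp)⟩

theorem Nice.sum {f : ℕ → ℝ × E m → ℂ} (N : ℕ) (hf : ∀ k < N, Nice p0 δ (f k)) :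
    Nice p0 δ fun p => ∑ k ∈ Finset.range N, f k p := by
  induction N with
  | zero =>
    simp only [Finset.range_zero, Finset.sum_empty]
    exact ⟨measurable_const, ⟨0, fun p => by simp⟩, fun p _ => rfl⟩
  | succ N ih =>
    simp only [Finset.sum_range_succ]
    exact (ih fun k hk => hf k (by omega)).add (hf N (by omega))

theorem tb_add (hX : Continuous X) {f g : ℝ × E m → ℂ} (hf : Nice p0 δ f) (hg : Nice p0 δ g)
    (ξ : E (m + 2)) : Tb X (fun p => f p + g p) ξ = Tb X f ξ + Tb X g ξ := by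
  rw [Tb, Tb, Tb, ← integral_add (hf.integrable_mul hX ξ) (hg.integrable_mul hX ξ)]
  congr 1
  funext p
  ring

theorem tb_sum (hX : Continuous X) {f : ℕ → ℝ × E m → ℂ} (N : ℕ)
    (hf : ∀ k < N, Nice p0 δ (f k)) (ξ : E (m + 2)) :
    Tb X (fun p => ∑ k ∈ Finset.range N, f k p) ξ = ∑ k ∈ Finset.range N, Tb X (f k) ξ := by
  induction N with
  | zero => simp [Tb]
  | succ N ih =>
    simp only [Finset.sum_range_succ]
    rw [tb_add hX (Nice.sum N fun k hk => hf k (by omega)) (hf N (by omega)),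
      ih fun k hk => hf k (by omega)]

theorem tb_meas (hX : Continuous X) {b : ℝ × E m → ℂ} (hb : Measurable b) :
    Measurable fun ξ : E (m + 2) => Tb X b ξ := by
  have h1 : Measurable fun q : E (m + 2) × (ℝ × E m) =>
      b q.2 * Complex.exp (((-⟪q.1, X q.2⟫ : ℝ) : ℂ) * Complex.I) := by
    refine (hb.comp measurable_snd).mul (Continuous.measurable ?_)
    fun_prop
  exact (h1.stronglyMeasurable.integral_prod_right').measurable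

theorem tb_bound {b : ℝ × E m → ℂ} (hb : ∀ p, ‖b p‖ ≤ 1)
    (hs : ∀ p, δ ≤ ‖p - p0‖ → b p = 0) (ξ : E (m + 2)) :
    ‖Tb X b ξ‖ ≤ (volume : Measure (ℝ × E m)).real (closedBall p0 δ) := by
  have h1 : ∫ p, b p * Complex.exp (((-⟪ξ, X p⟫ : ℝ) : ℂ) * Complex.I) =
      ∫ p in closedBall p0 δ,
        b p * Complex.exp (((-⟪ξ, X p⟫ : ℝ) : ℂ) * Complex.I) := by
    rw [setIntegral_eq_integral_of_forall_compl_eq_zero]
    intro p hp
    rw [mem_closedBall, not_le, dist_eq_norm] at hp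
    rw [hs p hp.le, zero_mul]
  rw [Tb, h1]
  refine (norm_setIntegral_le_of_norm_le_const measure_closedBall_lt_top fun p _ => ?_).trans
    (le_of_eq (one_mul _))
  rw [norm_mul, Complex.norm_exp_ofReal_mul_I, mul_one]
  exact hb p

/-! ### Mollification -/

theorem mol_meas (Λ : ℝ) {h : ℝ × E m → ℂ} (hh : Measurable h) : Measurable (mol Λ h) :=
  measurable_cz (kz_smooth Λ).continuous hh

theorem mol_bd {Λ B : ℝ} (hΛ : 0 < Λ) {h : ℝ × E m → ℂ} (hh : ∀ p, ‖h p‖ ≤ B)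
    (p : ℝ × E m) : ‖mol Λ h p‖ ≤ B := by
  obtain ⟨t, z⟩ := p
  have h1 := cz_norm_le (K := kz Λ) (kz_smooth Λ).continuous (kz_compact hΛ)
    (fun z => hh (t, z)) z
  rwa [kz_abs_int hΛ, mul_one] at h1

theorem mol_supp {Λ δ1 : ℝ} (hΛ : 0 < Λ) {h : ℝ × E m → ℂ}
    (hs : ∀ p, δ1 < ‖p - p0‖ → h p = 0) (p : ℝ × E m) (hp : δ1 + 1 / Λ < ‖p - p0‖) :
    mol Λ h p = 0 := by
  refine cz_zero (δ := ‖p - p0‖ - 1 / Λ) (fun _ hu => kz_supp hΛ hu)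
    (fun p' hp' => hs p' (by linarith)) p (by linarith)

/-! ### Hoelder on a ball -/

theorem sh_l2 {q : ℝ} (hq : 2 ≤ q) {f : ℝ × E m → ℂ} (hf : Measurable f)
    (hs : ∀ p, δ ≤ ‖p - p0‖ → f p = 0) :
    ∫⁻ p, ‖f p‖ₑ ^ 2 ≤ (∫⁻ p, ‖f p‖ₑ ^ q) ^ (2 / q) *
      (volume (closedBall p0 δ)) ^ (1 - 2 / q) := by
  have hq0 : 0 < q := by linarith
  have h2q : 2 / q ≤ 1 := by rw [div_le_one hq0]; exact hq
  have h := ENNReal.lintegral_mul_norm_pow_le (μ := volume.restrict (closedBall p0 δ))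
    (f := fun p => ‖f p‖ₑ ^ q) (g := fun _ => 1) (hf.enorm.pow_const _).aemeasurable
    measurable_const.aemeasurable (p := 2 / q) (q := 1 - 2 / q) (by positivity) (by linarith)
    (by ring)
  simp only [ENNReal.one_rpow, mul_one, lintegral_const, Measure.restrict_apply MeasurableSet.univ,
    univ_inter, one_mul] at h
  have h1 : ∫⁻ p, ‖f p‖ₑ ^ 2 = ∫⁻ p in closedBall p0 δ, (‖f p‖ₑ ^ q) ^ (2 / q) := by
    rw [← lintegral_indicator measurableSet_closedBall]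
    refine lintegral_congr fun p => ?_
    by_cases hp : p ∈ closedBall p0 δ
    · rw [indicator_of_mem hp, ← ENNReal.rpow_mul, show q * (2 / q) = (2 : ℕ) by
        push_cast; field_simp, ENNReal.rpow_natCast]
    · rw [indicator_of_notMem hp, hs p (by
        rw [mem_closedBall, dist_eq_norm, not_le] at hp
        exact hp.le)]
      simp
  rw [h1]
  refine h.trans (mul_le_mul_left (ENNReal.rpow_le_rpow ?_ (by positivity)) _)
  exact setLIntegral_le_lintegral _ _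

/-! ### The three bounds -/

theorem sh_two (q : ℝ) : ENNReal.ofReal ((2 : ℝ) ^ q) = 2 ^ q := by
  rw [← ENNReal.ofReal_rpow_of_pos (by norm_num), ENNReal.ofReal_ofNat]

/-- The low piece. -/
theorem sh_low {p τ ε η : ℝ} (hm : 1 ≤ m) (hG : Geo X p0 δ c C A) (hp2 : 2 < p) (hp4 : p < 4)
    (hε : 0 < ε) (h1 : ε + (4 - p) / 2 - m * (p - 2) / 2 ≤ -η)
    (h2 : ε + (4 - p) / 2 - τ ≤ -η) {Λ : ℝ} (hΛ : 1 ≤ Λ) (hΛδ : δ / 4 + 2 / Λ < δ / 2) :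
    ∃ C' : ℝ, 0 ≤ C' ∧ ∀ (b : ℝ × E m → ℂ), Measurable b → (∀ p, ‖b p‖ ≤ 1) →
      (∀ p, δ / 4 < ‖p - p0‖ → b p = 0) → ∀ R : ℝ, Λ ≤ R →
      ∫⁻ ξ in Sh (m + 2) R, ‖Tb X (mol Λ (mol Λ b)) ξ‖ₑ ^ p ≤
        ENNReal.ofReal (C' * R ^ (-η)) := by
  obtain ⟨C1, hC1, P1⟩ := piece hm hG (Bk m) hp2 hp4 hε 1
  set V : ℝ := (volume : Measure (ℝ × E m)).real (closedBall p0 δ) with hV
  have hV0 : 0 ≤ V := measureReal_nonneg
  have hΛ0 : 0 < Λ := by linarith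
  have h2Λ : 2 / Λ = 1 / Λ + 1 / Λ := by ring
  have h1Λ : 0 < 1 / Λ := by positivity
  refine ⟨C1 * (Λ ^ τ * (1 + V)), by positivity, fun b hb hb1 hbs R hR => ?_⟩
  have hR1 : 1 ≤ R := hΛ.trans hR
  have hA : Amp p0 (δ / 2) (Bk m) Λ (mol Λ (mol Λ b)) fun p => ‖mol Λ b p‖ :=
    mol_amp (δ1 := δ / 4 + 1 / Λ) hΛ (by linarith) (mol_meas Λ hb) (mol_bd hΛ0 hb1)
      (mol_supp hΛ0 hbs)
  have hβ : (∫⁻ p, ENNReal.ofReal (‖mol Λ b p‖ ^ 2)) ≤ ENNReal.ofReal (1 + V) := by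
    calc (∫⁻ p, ENNReal.ofReal (‖mol Λ b p‖ ^ 2)) ≤
          ∫⁻ p, (closedBall p0 δ).indicator 1 p := by
          refine lintegral_mono fun p => ?_
          by_cases hp : p ∈ closedBall p0 δ
          · rw [indicator_of_mem hp, Pi.one_apply, ENNReal.ofReal_le_one]
            have h5 := mol_bd hΛ0 hb1 p
            have h6 := norm_nonneg (mol Λ b p)
            nlinarith
          · have h5 : δ / 4 + 1 / Λ < ‖p - p0‖ := by
              rw [mem_closedBall, dist_eq_norm, not_le] at hp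
              have := hG.hδ
              linarith
            rw [mol_supp hΛ0 hbs p h5]
            simp
      _ = volume (closedBall p0 δ) := by
          rw [lintegral_indicator_one measurableSet_closedBall]
      _ = ENNReal.ofReal V := by
          rw [hV, measureReal_def, ENNReal.ofReal_toReal measure_closedBall_lt_top.ne]
      _ ≤ ENNReal.ofReal (1 + V) := ENNReal.ofReal_le_ofReal (by linarith)
  refine (P1 R Λ _ _ (1 + V) hR1 hΛ hR hA hβ ?_).trans (ENNReal.ofReal_le_ofReal ?_)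
  · rw [pow_one]
    have : 1 / R ≤ 1 := by
      rw [div_le_one (by linarith)]
      exact hR1
    linarith
  · have h5 := sh_exp (a := ε + (4 - p) / 2) (μ := m * (p - 2) / 2) (τ := τ) hR1 hΛ hR h1 h2
    have h6 : (1 / Λ) ^ τ * Λ ^ τ = 1 := by
      rw [← Real.mul_rpow (by positivity) (by positivity), one_div_mul_cancel hΛ0.ne',
        Real.one_rpow]
    have h7 : R ^ (ε + (4 - p) / 2) * (Λ / R) ^ (m * (p - 2) / 2) ≤ Λ ^ τ * R ^ (-η) := by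
      calc R ^ (ε + (4 - p) / 2) * (Λ / R) ^ (m * (p - 2) / 2)
          = (R ^ (ε + (4 - p) / 2) * (Λ / R) ^ (m * (p - 2) / 2) * (1 / Λ) ^ τ) * Λ ^ τ := by
            rw [mul_assoc (R ^ (ε + (4 - p) / 2) * (Λ / R) ^ (m * (p - 2) / 2)), h6, mul_one]
        _ ≤ R ^ (-η) * Λ ^ τ := mul_le_mul_of_nonneg_right h5 (by positivity)
        _ = _ := mul_comm _ _
    calc C1 * (R ^ (ε + (4 - p) / 2) * (Λ / R) ^ (m * (p - 2) / 2) * (1 + V))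
        ≤ C1 * ((Λ ^ τ * R ^ (-η)) * (1 + V)) := by gcongr
      _ = _ := by ring

/-- The difference of two mollifications. -/
theorem sh_diff {q τ H Λ : ℝ} (hq : 1 ≤ q) (hτ : 0 < τ) (hH : 0 ≤ H) (hΛ : 1 ≤ Λ)
    {b : ℝ × E m → ℂ} (hm : Measurable b) (h1 : ∀ p, ‖b p‖ ≤ 1)
    (hb : ∀ v : E m, ‖v‖ ≤ 1 →
      ∫⁻ p : ℝ × E m, ‖b (p.1, p.2 + v) - b p‖ₑ ^ q ≤ ENNReal.ofReal (H * ‖v‖ ^ τ)) :
    ∫⁻ p, ‖(mol (2 * Λ) b - mol Λ b) p‖ₑ ^ q ≤ ENNReal.ofReal (2 ^ q * H * (1 / Λ) ^ τ) := by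
  have hΛ0 : 0 < Λ := by linarith
  have h2 := (mol_mod hq hτ hH hΛ hm ⟨1, h1⟩ hb).1
  have h3 := (mol_mod hq hτ hH (by linarith : 1 ≤ 2 * Λ) hm ⟨1, h1⟩ hb).1
  have h4 : ENNReal.ofReal (H * (1 / (2 * Λ)) ^ τ) ≤ ENNReal.ofReal (H * (1 / Λ) ^ τ) := by
    refine ENNReal.ofReal_le_ofReal (mul_le_mul_of_nonneg_left ?_ hH)
    refine Real.rpow_le_rpow (by positivity) ?_ hτ.le
    exact one_div_le_one_div_of_le hΛ0 (by linarith)
  have h5 := sh_sub volume hq (fun p => b p - mol Λ b p) (fun p => b p - mol (2 * Λ) b p)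
    (hm.sub (mol_meas Λ hm)) (hm.sub (mol_meas (2 * Λ) hm)) _ h2 (h3.trans h4)
  have h6 : ∀ p, b p - mol Λ b p - (b p - mol (2 * Λ) b p) = (mol (2 * Λ) b - mol Λ b) p := by
    intro p
    rw [Pi.sub_apply]
    ring
  simp only [h6] at h5
  refine h5.trans (le_of_eq ?_)
  rw [← sh_two q, ← ENNReal.ofReal_mul (by positivity), mul_assoc]

/-- The dyadic pieces. -/
theorem sh_mid {p q τ ε η : ℝ} (hm : 1 ≤ m) (hG : Geo X p0 δ c C A) (hq2 : 2 ≤ q) (hqp : q ≤ p)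
    (hp2 : 2 < p) (hp4 : p < 4) (hτ : 0 < τ) (hε : 0 < ε)
    (h1 : ε + (4 - p) / 2 - m * (p - 2) / 2 ≤ -η)
    (h2 : ε + (4 - p) / 2 - τ ≤ -η) {H : ℝ} (hH : 1 ≤ H) :
    ∃ C' : ℝ, 0 ≤ C' ∧ ∀ (b : ℝ × E m → ℂ), Measurable b → (∀ p, ‖b p‖ ≤ 1) →
      (∀ p, δ / 4 < ‖p - p0‖ → b p = 0) →
      (∀ v : E m, ‖v‖ ≤ 1 →
        ∫⁻ p : ℝ × E m, ‖b (p.1, p.2 + v) - b p‖ₑ ^ q ≤ ENNReal.ofReal (H * ‖v‖ ^ τ)) →
      ∀ R Λ : ℝ, 1 ≤ Λ → δ / 4 + 2 / Λ < δ / 2 → 2 * Λ ≤ R →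
      ∫⁻ ξ in Sh (m + 2) R, ‖Tb X (mol (2 * Λ) (mol (2 * Λ) b - mol Λ b)) ξ‖ₑ ^ p ≤
        ENNReal.ofReal (C' * R ^ (-η)) ∧
      ∫⁻ ξ in Sh (m + 2) R, ‖Tb X (mol Λ (mol (2 * Λ) b - mol Λ b)) ξ‖ₑ ^ p ≤
        ENNReal.ofReal (C' * R ^ (-η)) := by
  obtain ⟨C3, hC3, P3⟩ := level hm hG hq2 hqp hp2 hp4 hε hτ
  refine ⟨C3 * (2 ^ τ * (2 ^ q * H)), by positivity, fun b hb hb1 hbs hbm R Λ hΛ hΛδ hR => ?_⟩
  have hΛ0 : 0 < Λ := by linarith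
  have hR1 : 1 ≤ R := by linarith
  have hH2 : 1 ≤ 2 ^ τ * (2 ^ q * H) := by
    have h3 : (1 : ℝ) ≤ 2 ^ τ := Real.one_le_rpow (by norm_num) hτ.le
    have h4 : (1 : ℝ) ≤ 2 ^ q := Real.one_le_rpow (by norm_num) (by linarith)
    exact one_le_mul_of_one_le_of_one_le h3 (one_le_mul_of_one_le_of_one_le h4 hH)
  have h2Λ : 2 / Λ = 1 / Λ + 1 / Λ := by ring
  have h1Λ : 0 < 1 / Λ := by positivity
  have h12 : 1 / (2 * Λ) ≤ 1 / Λ := one_div_le_one_div_of_le hΛ0 (by linarith)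
  set D : ℝ × E m → ℂ := mol (2 * Λ) b - mol Λ b with hD
  have hDm : Measurable D := (mol_meas _ hb).sub (mol_meas _ hb)
  have hD2 : ∀ p, ‖D p‖ ≤ 2 := by
    intro p
    calc ‖D p‖ ≤ ‖mol (2 * Λ) b p‖ + ‖mol Λ b p‖ := norm_sub_le _ _
      _ ≤ 1 + 1 := add_le_add (mol_bd (by linarith) hb1 p) (mol_bd hΛ0 hb1 p)
      _ = 2 := by norm_num
  have hDs : ∀ p, δ / 4 + 1 / Λ < ‖p - p0‖ → D p = 0 := by
    intro p hp
    rw [hD, Pi.sub_apply, mol_supp hΛ0 hbs p hp, mol_supp (by linarith) hbs p (by linarith),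
      sub_zero]
  have hDq := sh_diff (by linarith : 1 ≤ q) hτ (by linarith : 0 ≤ H) hΛ hb hb1 hbm
  have key : ∀ Λ' : ℝ, 1 ≤ Λ' → Λ' ≤ R → 1 / Λ' ≤ 1 / Λ → 1 / Λ ≤ 2 * (1 / Λ') →
      ∫⁻ ξ in Sh (m + 2) R, ‖Tb X (mol Λ' D) ξ‖ₑ ^ p ≤
        ENNReal.ofReal (C3 * (2 ^ τ * (2 ^ q * H)) * R ^ (-η)) := by
    intro Λ' hΛ' hΛ'R h5 h6
    have hΛ'0 : 0 < Λ' := by linarith
    refine (P3 R Λ' (δ / 4 + 1 / Λ) (2 ^ τ * (2 ^ q * H)) D hR1 hΛ' hΛ'R (by linarith) hDm hD2 hDs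
      hH2 (hDq.trans (ENNReal.ofReal_le_ofReal ?_))).trans (ENNReal.ofReal_le_ofReal ?_)
    · have h7 : (1 / Λ) ^ τ ≤ 2 ^ τ * (1 / Λ') ^ τ := by
        rw [← Real.mul_rpow (by norm_num) (by positivity)]
        exact Real.rpow_le_rpow (by positivity) h6 hτ.le
      calc 2 ^ q * H * (1 / Λ) ^ τ ≤ 2 ^ q * H * (2 ^ τ * (1 / Λ') ^ τ) := by gcongr
        _ = _ := by ring
    · have h5 := sh_exp (a := ε + (4 - p) / 2) (μ := m * (p - 2) / 2) (τ := τ) hR1 hΛ' hΛ'R h1 h2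
      calc C3 * (R ^ (ε + (4 - p) / 2) * (Λ' / R) ^ (m * (p - 2) / 2) *
            (2 ^ τ * (2 ^ q * H) * (1 / Λ') ^ τ))
          = C3 * (2 ^ τ * (2 ^ q * H)) * (R ^ (ε + (4 - p) / 2) * (Λ' / R) ^ (m * (p - 2) / 2) *
            (1 / Λ') ^ τ) := by ring
        _ ≤ _ := by gcongr
  refine ⟨key (2 * Λ) (by linarith) hR h12 ?_, key Λ hΛ (by linarith) le_rfl (by linarith)⟩
  rw [one_div, one_div, mul_inv]
  linarith

/-- The rest. -/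
theorem sh_rest {p q τ ε η : ℝ} (hm : 1 ≤ m) (hG : Geo X p0 δ c C A) (hq2 : 2 ≤ q) (hqp : q ≤ p)
    (hp2 : 2 < p) (hp4 : p < 4) (hτ : 0 < τ) (hε : 0 < ε)
    (h1 : ε + (4 - p) / 2 - m * (p - 2) / 2 ≤ -η)
    (h2 : ε + (4 - p) / 2 - τ ≤ -η) {H : ℝ} (hH : 1 ≤ H) :
    ∃ C' : ℝ, 0 ≤ C' ∧ ∀ (b : ℝ × E m → ℂ), Measurable b → (∀ p, ‖b p‖ ≤ 1) →
      (∀ p, δ / 4 < ‖p - p0‖ → b p = 0) →
      (∀ v : E m, ‖v‖ ≤ 1 →
        ∫⁻ p : ℝ × E m, ‖b (p.1, p.2 + v) - b p‖ₑ ^ q ≤ ENNReal.ofReal (H * ‖v‖ ^ τ)) →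
      ∀ R Λ : ℝ, 1 ≤ Λ → δ / 4 + 2 / Λ < δ / 2 → Λ ≤ R → R ≤ 2 * Λ →
      ∫⁻ ξ in Sh (m + 2) R, ‖Tb X (fun p => b p - mol Λ (mol Λ b) p) ξ‖ₑ ^ p ≤
        ENNReal.ofReal (C' * R ^ (-η)) := by
  obtain ⟨C2, hC2, P2⟩ := rest hm hG hp2 hp4 hε
  set V : ℝ := (volume : Measure (ℝ × E m)).real (closedBall p0 δ) with hV
  have hV0 : 0 ≤ V := measureReal_nonneg
  refine ⟨C2 * ((V ^ (1 - 2 / q)) ^ (p / 2) * (2 ^ q * H) ^ (p / q) * 2 ^ τ), by positivity,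
    fun b hb hb1 hbs hbm R Λ hΛ hΛδ hΛR hRΛ => ?_⟩
  have hΛ0 : 0 < Λ := by linarith
  have hR1 : 1 ≤ R := by linarith
  have hR0 : 0 < R := by linarith
  have hq0 : 0 < q := by linarith
  have hp0 : 0 < p := by linarith
  have h2Λ : 2 / Λ = 1 / Λ + 1 / Λ := by ring
  have h1Λ : 0 < 1 / Λ := by positivity
  have hH0 : 0 < H := by linarith
  have hrm : Measurable fun p => b p - mol Λ (mol Λ b) p := hb.sub (mol_meas _ (mol_meas _ hb))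
  have hrs : ∀ p, δ ≤ ‖p - p0‖ → b p - mol Λ (mol Λ b) p = 0 := by
    intro p hp
    have hδ := hG.hδ
    rw [hbs p (by linarith), mol_supp (δ1 := δ / 4 + 1 / Λ) hΛ0 (mol_supp hΛ0 hbs) p
      (by linarith), sub_zero]
  have hrb : ∀ p, ‖b p - mol Λ (mol Λ b) p‖ ≤ 2 := by
    intro p
    calc ‖b p - mol Λ (mol Λ b) p‖ ≤ ‖b p‖ + ‖mol Λ (mol Λ b) p‖ := norm_sub_le _ _
      _ ≤ 1 + 1 := add_le_add (hb1 p) (mol_bd hΛ0 (mol_bd hΛ0 hb1) p)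
      _ = 2 := by norm_num
  have hrq := (mol_mod (by linarith : 1 ≤ q) hτ hH0.le hΛ hb ⟨1, hb1⟩ hbm).2
  set W : ℝ := 2 ^ q * H * (1 / Λ) ^ τ with hW
  have hW0 : 0 ≤ W := by positivity
  have h2q : 2 / q ≤ 1 := by rw [div_le_one hq0]; exact hq2
  have hβ : ∫⁻ p, ‖b p - mol Λ (mol Λ b) p‖ₑ ^ 2 ≤
      ENNReal.ofReal (W ^ (2 / q) * V ^ (1 - 2 / q)) := by
    refine (sh_l2 hq2 hrm hrs).trans ?_
    have h5 : volume (closedBall p0 δ) = ENNReal.ofReal V := by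
      rw [hV, measureReal_def, ENNReal.ofReal_toReal measure_closedBall_lt_top.ne]
    rw [h5, ENNReal.ofReal_rpow_of_nonneg hV0 (by linarith), ENNReal.ofReal_mul (by positivity),
      ← ENNReal.ofReal_rpow_of_nonneg hW0 (by positivity)]
    exact mul_le_mul_left (ENNReal.rpow_le_rpow hrq (by positivity)) _
  refine (P2 R _ _ hR1 hrm ⟨2, hrb⟩ hrs (by positivity) hβ).trans (ENNReal.ofReal_le_ofReal ?_)
  have e1 : (W ^ (2 / q) * V ^ (1 - 2 / q)) ^ (p / 2) =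
      W ^ (p / q) * (V ^ (1 - 2 / q)) ^ (p / 2) := by
    rw [Real.mul_rpow (by positivity) (by positivity), ← Real.rpow_mul hW0]
    congr 2
    field_simp
  have e2 : W ^ (p / q) ≤ (2 ^ q * H) ^ (p / q) * (1 / Λ) ^ τ := by
    rw [hW, Real.mul_rpow (by positivity) (by positivity)]
    refine mul_le_mul_of_nonneg_left ?_ (by positivity)
    have h6 : ((1 / Λ) ^ τ) ≤ 1 := Real.rpow_le_one (by positivity) (by
      rw [div_le_one hΛ0]; exact hΛ) hτ.le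
    have h7 : (1 : ℝ) ≤ p / q := by rw [one_le_div hq0]; exact hqp
    calc ((1 / Λ) ^ τ) ^ (p / q) ≤ ((1 / Λ) ^ τ) ^ (1 : ℝ) :=
          Real.rpow_le_rpow_of_exponent_ge' (by positivity) h6 (by norm_num) h7
      _ = _ := Real.rpow_one _
  have e3 : (1 / Λ) ^ τ ≤ 2 ^ τ * (1 / R) ^ τ := by
    rw [← Real.mul_rpow (by norm_num) (by positivity)]
    refine Real.rpow_le_rpow (by positivity) ?_ hτ.le
    rw [mul_one_div, div_le_div_iff₀ hΛ0 hR0]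
    linarith
  have e4 : R ^ (ε + (4 - p) / 2) * (1 / R) ^ τ ≤ R ^ (-η) := by
    have h5 := sh_exp (a := ε + (4 - p) / 2) (μ := m * (p - 2) / 2) (τ := τ) hR1 hR1 le_rfl h1 h2
    rwa [div_self hR0.ne', Real.one_rpow, mul_one] at h5
  rw [e1]
  calc C2 * (R ^ (ε + (4 - p) / 2) * (W ^ (p / q) * (V ^ (1 - 2 / q)) ^ (p / 2)))
      ≤ C2 * (R ^ (ε + (4 - p) / 2) * (((2 ^ q * H) ^ (p / q) * (2 ^ τ * (1 / R) ^ τ)) *
        (V ^ (1 - 2 / q)) ^ (p / 2))) := by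
        gcongr
        exact e2.trans (mul_le_mul_of_nonneg_left e3 (by positivity))
    _ = C2 * ((V ^ (1 - 2 / q)) ^ (p / 2) * (2 ^ q * H) ^ (p / q) * 2 ^ τ) *
        (R ^ (ε + (4 - p) / 2) * (1 / R) ^ τ) := by ring
    _ ≤ _ := by gcongr

/-! ### One shell -/

/-- **SUM: one shell.** -/
theorem shell (hm : 1 ≤ m) (hG : Geo X p0 δ c C A) {p q τ : ℝ} (hq2 : 2 ≤ q) (hqp : q ≤ p)
    (hp : 2 * ((m : ℝ) + 2) / (m + 1) < p) (hp4 : p < 4) (hτ : (4 - p) / 2 < τ) (H : ℝ) :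
    ∃ C' η : ℝ, 0 ≤ C' ∧ 0 < η ∧ ∀ (b : ℝ × E m → ℂ), Measurable b → (∀ p, ‖b p‖ ≤ 1) →
      (∀ p, δ / 4 < ‖p - p0‖ → b p = 0) →
      (∀ v : E m, ‖v‖ ≤ 1 →
        ∫⁻ p : ℝ × E m, ‖b (p.1, p.2 + v) - b p‖ₑ ^ q ≤ ENNReal.ofReal (H * ‖v‖ ^ τ)) →
      ∀ R : ℝ, 1 ≤ R → ∫⁻ ξ in Sh (m + 2) R, ‖Tb X b ξ‖ₑ ^ p ≤ ENNReal.ofReal (C' * R ^ (-η)) := by
  have hm1 : (1 : ℝ) ≤ m := by exact_mod_cast hm
  have hp2 : 2 < p := by
    refine lt_of_le_of_lt ?_ hp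
    rw [le_div_iff₀ (by linarith)]
    linarith
  have hp0 : 0 < p := by linarith
  have hp1 : 1 ≤ p := by linarith
  have hτ0 : 0 < τ := by linarith
  have hδ := hG.hδ
  have hXc : Continuous X := hG.hX.continuous
  -- the exponents
  have hg1 : 0 < m * (p - 2) / 2 - (4 - p) / 2 := by
    rw [div_lt_iff₀ (by linarith)] at hp
    nlinarith
  obtain ⟨g, hg, hgm⟩ : ∃ g : ℝ, 0 < g ∧ g < min (m * (p - 2) / 2 - (4 - p) / 2)
      (τ - (4 - p) / 2) := exists_between (lt_min hg1 (by linarith))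
  obtain ⟨hg2, hg3⟩ := lt_min_iff.1 hgm
  have h1 : g / 3 + (4 - p) / 2 - m * (p - 2) / 2 ≤ -(g / 3 + g / 3) := by linarith
  have h2 : g / 3 + (4 - p) / 2 - τ ≤ -(g / 3 + g / 3) := by linarith
  have hε : 0 < g / 3 := by positivity
  -- the first scale
  obtain ⟨k0, hk0⟩ : ∃ k0 : ℕ, 8 / δ < 2 ^ k0 := pow_unbounded_of_one_lt _ one_lt_two
  have hH1 : 1 ≤ max H 1 := le_max_right _ _
  have hsc : ∀ Λ : ℝ, 2 ^ k0 ≤ Λ → 1 ≤ Λ ∧ δ / 4 + 2 / Λ < δ / 2 := by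
    intro Λ hΛ
    have h3 : (1 : ℝ) ≤ 2 ^ k0 := one_le_pow₀ (by norm_num)
    have h4 : 0 < Λ := by linarith
    refine ⟨by linarith, ?_⟩
    have h5 : 8 / δ < Λ := hk0.trans_le hΛ
    rw [div_lt_iff₀ hδ] at h5
    have h6 : 2 / Λ < δ / 4 := by
      rw [div_lt_div_iff₀ h4 (by norm_num)]
      linarith
    linarith
  obtain ⟨hΛ1, hΛδ⟩ := hsc (2 ^ k0) le_rfl
  obtain ⟨C1, hC1, P1⟩ := sh_low hm hG hp2 hp4 hε h1 h2 hΛ1 hΛδ
  obtain ⟨C2, hC2, P2⟩ := sh_mid hm hG hq2 hqp hp2 hp4 hτ0 hε h1 h2 hH1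
  obtain ⟨C3, hC3, P3⟩ := sh_rest hm hG hq2 hqp hp2 hp4 hτ0 hε h1 h2 hH1
  obtain ⟨K, hK, HK⟩ := sh_log hp0 hε
  set V : ℝ := (volume : Measure (ℝ × E m)).real (closedBall p0 δ) with hV
  have hV0 : 0 ≤ V := measureReal_nonneg
  set U : ℝ := (volume : Measure (E (m + 2))).real (closedBall 0 (2 * 2 ^ k0)) with hU
  have hU0 : 0 ≤ U := measureReal_nonneg
  refine ⟨8 ^ p * K * (C1 + C2 + C3) + V ^ p * U * (2 ^ k0) ^ (g / 3), g / 3, by positivity, hε,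
    fun b hb hb1 hbs hbm R hR => ?_⟩
  have hR0 : 0 < R := by linarith
  have hbs' : ∀ p, δ ≤ ‖p - p0‖ → b p = 0 := fun p hp => hbs p (by linarith)
  replace hbm : ∀ v : E m, ‖v‖ ≤ 1 → ∫⁻ p : ℝ × E m, ‖b (p.1, p.2 + v) - b p‖ₑ ^ q ≤
      ENNReal.ofReal (max H 1 * ‖v‖ ^ τ) := fun v hv => (hbm v hv).trans
    (ENNReal.ofReal_le_ofReal (mul_le_mul_of_nonneg_right (le_max_left _ _) (by positivity)))
  rcases lt_or_ge R (2 ^ k0) with hRk | hRk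
  · -- small frequencies
    have h3 : ∫⁻ ξ in Sh (m + 2) R, ‖Tb X b ξ‖ₑ ^ p ≤
        ∫⁻ ξ in closedBall (0 : E (m + 2)) (2 * 2 ^ k0), ENNReal.ofReal (V ^ p) := by
      refine (lintegral_mono_set ?_).trans (lintegral_mono fun ξ => ?_)
      · intro ξ hξ
        rw [mem_closedBall_zero_iff]
        have := hξ.2
        linarith
      · rw [← ENNReal.ofReal_rpow_of_nonneg hV0 hp0.le]
        refine ENNReal.rpow_le_rpow ?_ hp0.le
        rw [← ofReal_norm]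
        exact ENNReal.ofReal_le_ofReal (tb_bound hb1 hbs' ξ)
    refine h3.trans ?_
    rw [setLIntegral_const]
    have h4 : volume (closedBall (0 : E (m + 2)) (2 * 2 ^ k0)) = ENNReal.ofReal U := by
      rw [hU, measureReal_def, ENNReal.ofReal_toReal measure_closedBall_lt_top.ne]
    rw [h4, ← ENNReal.ofReal_mul (by positivity)]
    refine ENNReal.ofReal_le_ofReal ?_
    have h5 : 1 ≤ (2 ^ k0) ^ (g / 3) * R ^ (-(g / 3)) := by
      rw [Real.rpow_neg hR0.le, ← div_eq_mul_inv, le_div_iff₀ (by positivity), one_mul]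
      exact Real.rpow_le_rpow hR0.le hRk.le hε.le
    calc V ^ p * U = V ^ p * U * 1 := (mul_one _).symm
      _ ≤ V ^ p * U * ((2 ^ k0) ^ (g / 3) * R ^ (-(g / 3))) := by gcongr
      _ = V ^ p * U * (2 ^ k0) ^ (g / 3) * R ^ (-(g / 3)) := by ring
      _ ≤ _ := by
          refine mul_le_mul_of_nonneg_right ?_ (by positivity)
          have : 0 ≤ 8 ^ p * K * (C1 + C2 + C3) := by positivity
          linarith
  -- the decomposition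
  obtain ⟨k1, hk1, hk2⟩ := exists_nat_pow_near (x := R) (y := 2) hR (by norm_num)
  have hk01 : k0 ≤ k1 := by
    by_contra h
    have h3 : k1 + 1 ≤ k0 := by omega
    have h4 : (2 : ℝ) ^ (k1 + 1) ≤ 2 ^ k0 := pow_le_pow_right₀ (by norm_num) h3
    linarith
  obtain ⟨N, rfl⟩ := Nat.exists_eq_add_of_le hk01
  have hpow : ∀ i : ℕ, (2 : ℝ) ^ k0 ≤ 2 ^ (k0 + i) := fun i =>
    pow_le_pow_right₀ (by norm_num) (by omega)
  set L : ℝ × E m → ℂ := mol (2 ^ k0) (mol (2 ^ k0) b) with hL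
  set D : ℕ → ℝ × E m → ℂ := fun i => mol (2 * 2 ^ (k0 + i)) b - mol (2 ^ (k0 + i)) b with hD
  set F : ℕ → ℝ × E m → ℂ := fun i p =>
    mol (2 * 2 ^ (k0 + i)) (D i) p + mol (2 ^ (k0 + i)) (D i) p with hF
  set Q : ℝ × E m → ℂ := fun p => b p - mol (2 ^ (k0 + N)) (mol (2 ^ (k0 + N)) b) p with hQ
  have hmn : ∀ Λ : ℝ, 2 ^ k0 ≤ Λ → Nice p0 (δ / 4 + 1 / Λ + δ / 8) (mol Λ b) := by
    intro Λ hΛ
    obtain ⟨h3, h4⟩ := hsc Λ hΛ
    exact ⟨mol_meas _ hb, ⟨1, mol_bd (by linarith) hb1⟩, fun p hp =>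
      mol_supp (by linarith) hbs p (by linarith)⟩
  have hbn : Nice p0 δ b := ⟨hb, ⟨1, hb1⟩, hbs'⟩
  have hnice : ∀ (Λ Λ' : ℝ) (f : ℝ × E m → ℂ), 2 ^ k0 ≤ Λ → 2 ^ k0 ≤ Λ' → Measurable f →
      (∃ M, ∀ p, ‖f p‖ ≤ M) → (∀ p, δ / 4 + 1 / Λ < ‖p - p0‖ → f p = 0) →
      Nice p0 δ (mol Λ' f) := by
    intro Λ Λ' f hΛ hΛ' hf ⟨M, hM⟩ hs
    obtain ⟨h3, h4⟩ := hsc Λ hΛ
    obtain ⟨h5, h6⟩ := hsc Λ' hΛ'
    refine ⟨mol_meas _ hf, ⟨M, mol_bd (by linarith) hM⟩, fun p hp =>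
      mol_supp (δ1 := δ / 4 + 1 / Λ) (by linarith) hs p ?_⟩
    have h7 : 2 / Λ = 1 / Λ + 1 / Λ := by ring
    have h8 : 2 / Λ' = 1 / Λ' + 1 / Λ' := by ring
    have h9 : 0 < 1 / Λ := by positivity
    have h10 : 0 < 1 / Λ' := by positivity
    linarith
  have hDm : ∀ i, Measurable (D i) := fun i => (mol_meas _ hb).sub (mol_meas _ hb)
  have hDb : ∀ i, ∃ M, ∀ p, ‖D i p‖ ≤ M := fun i => ⟨2, fun p => by
    have h3 : (0 : ℝ) < 2 ^ (k0 + i) := by positivity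
    calc ‖D i p‖ ≤ ‖mol (2 * 2 ^ (k0 + i)) b p‖ + ‖mol (2 ^ (k0 + i)) b p‖ := norm_sub_le _ _
      _ ≤ 1 + 1 := add_le_add (mol_bd (by linarith) hb1 p) (mol_bd h3 hb1 p)
      _ = 2 := by norm_num⟩
  have hDs : ∀ i p, δ / 4 + 1 / 2 ^ (k0 + i) < ‖p - p0‖ → D i p = 0 := by
    intro i p hp
    have h3 : (0 : ℝ) < 2 ^ (k0 + i) := by positivity
    have h4 : 1 / (2 * 2 ^ (k0 + i)) ≤ 1 / (2 : ℝ) ^ (k0 + i) :=
      one_div_le_one_div_of_le h3 (by linarith)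
    simp only [hD, Pi.sub_apply]
    rw [mol_supp h3 hbs p hp, mol_supp (by linarith) hbs p (by linarith), sub_zero]
  have hLn : Nice p0 δ L := hnice (2 ^ k0) (2 ^ k0) _ le_rfl le_rfl (mol_meas _ hb)
    ⟨1, mol_bd (by linarith) hb1⟩ (mol_supp (by linarith) hbs)
  have hA1 : ∀ i, Nice p0 δ (mol (2 * 2 ^ (k0 + i)) (D i)) := fun i =>
    hnice (2 ^ (k0 + i)) _ _ (hpow i) (by have := hpow i; linarith) (hDm i) (hDb i) (hDs i)
  have hA2 : ∀ i, Nice p0 δ (mol (2 ^ (k0 + i)) (D i)) := fun i =>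
    hnice (2 ^ (k0 + i)) _ _ (hpow i) (hpow i) (hDm i) (hDb i) (hDs i)
  have hFn : ∀ i, Nice p0 δ (F i) := fun i => (hA1 i).add (hA2 i)
  have hPn : Nice p0 δ (mol (2 ^ (k0 + N)) (mol (2 ^ (k0 + N)) b)) :=
    hnice (2 ^ (k0 + N)) _ _ (hpow N) (hpow N) (mol_meas _ hb)
      ⟨1, mol_bd (by positivity) hb1⟩ (mol_supp (by positivity) hbs)
  have hQn : Nice p0 δ Q := hbn.sub hPn
  have hsumn : Nice p0 δ fun p => ∑ i ∈ Finset.range N, F i p := Nice.sum N fun i _ => hFn i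
  have hdec : b = fun p => (L p + ∑ i ∈ Finset.range N, F i p) + Q p := by
    have h3 : ∀ i p, F i p = mol (2 ^ (k0 + (i + 1))) (mol (2 ^ (k0 + (i + 1))) b) p -
        mol (2 ^ (k0 + i)) (mol (2 ^ (k0 + i)) b) p := by
      intro i p
      have h4 := mol_tel (p0 := p0) (δ1 := δ / 4) (Λ := 2 ^ (k0 + i)) (hsc _ (hpow i)).1 hb
        ⟨1, hb1⟩ hbs
      have h5 := congrFun h4 p
      simp only [Pi.sub_apply, Pi.add_apply] at h5
      rw [show (2 : ℝ) ^ (k0 + (i + 1)) = 2 * 2 ^ (k0 + i) by rw [← add_assoc, pow_succ]; ring]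
      exact h5.symm
    funext p
    have h6 : ∑ i ∈ Finset.range N, F i p =
        mol (2 ^ (k0 + N)) (mol (2 ^ (k0 + N)) b) p - L p := by
      rw [Finset.sum_congr rfl fun i _ => h3 i p,
        Finset.sum_range_sub (fun i => mol (2 ^ (k0 + i)) (mol (2 ^ (k0 + i)) b) p)]
      rfl
    rw [h6, hQ]
    ring
  have hT : ∀ ξ, Tb X b ξ = (Tb X L ξ + ∑ i ∈ Finset.range N, (Tb X (F i) ξ)) + Tb X Q ξ := by
    intro ξ
    conv_lhs => rw [hdec]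
    rw [tb_add hXc (hLn.add hsumn) hQn, tb_add hXc hLn hsumn, tb_sum hXc N fun i _ => hFn i]
  -- the bound of the pieces
  set M : ℝ≥0∞ := ENNReal.ofReal ((C1 + C2 + C3) * R ^ (-(g / 3 + g / 3))) with hM
  have hMle : ∀ C' : ℝ, C' ≤ C1 + C2 + C3 →
      ENNReal.ofReal (C' * R ^ (-(g / 3 + g / 3))) ≤ M := fun C' hC' =>
    ENNReal.ofReal_le_ofReal (mul_le_mul_of_nonneg_right hC' (by positivity))
  have h2p : (1 : ℝ≥0∞) ≤ 2 ^ p := ENNReal.one_le_rpow (by norm_num) hp0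
  have hNp : (1 : ℝ≥0∞) ≤ ((N + 1 : ℕ) : ℝ≥0∞) ^ p :=
    ENNReal.one_le_rpow (by exact_mod_cast Nat.succ_pos N) hp0
  have hb1' : ∫⁻ ξ in Sh (m + 2) R, ‖Tb X L ξ‖ₑ ^ p ≤ M :=
    (P1 b hb hb1 hbs R hRk).trans (hMle C1 (by linarith))
  have hb2' : ∀ i < N, ∫⁻ ξ in Sh (m + 2) R, ‖Tb X (F i) ξ‖ₑ ^ p ≤ 2 ^ p * M := by
    intro i hi
    have h3 : 2 * (2 : ℝ) ^ (k0 + i) ≤ R := by
      have h4 : (2 : ℝ) ^ (k0 + i + 1) ≤ 2 ^ (k0 + N) :=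
        pow_le_pow_right₀ (by norm_num) (by omega)
      rw [pow_succ] at h4
      linarith
    obtain ⟨h4, h5⟩ := P2 b hb hb1 hbs hbm R (2 ^ (k0 + i)) (hsc _ (hpow i)).1
      (hsc _ (hpow i)).2 h3
    have h6 : ∀ ξ, Tb X (F i) ξ = Tb X (mol (2 * 2 ^ (k0 + i)) (D i)) ξ +
        Tb X (mol (2 ^ (k0 + i)) (D i)) ξ := fun ξ => tb_add hXc (hA1 i) (hA2 i) ξ
    simp only [h6]
    exact sh_add _ hp1 _ _ (tb_meas hXc (hA1 i).meas) (tb_meas hXc (hA2 i).meas) M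
      (h4.trans (hMle C2 (by linarith))) (h5.trans (hMle C2 (by linarith)))
  have hb3' : ∫⁻ ξ in Sh (m + 2) R, ‖Tb X Q ξ‖ₑ ^ p ≤ M := by
    refine (P3 b hb hb1 hbs hbm R (2 ^ (k0 + N)) (hsc _ (hpow N)).1 (hsc _ (hpow N)).2 hk1 ?_).trans
      (hMle C3 (by linarith))
    rw [pow_succ] at hk2
    linarith
  have hb4 : ∫⁻ ξ in Sh (m + 2) R, ‖∑ i ∈ Finset.range N, Tb X (F i) ξ‖ₑ ^ p ≤
      ((N + 1 : ℕ) : ℝ≥0∞) ^ p * (2 ^ p * M) := by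
    refine (sh_tri _ hp1 N (fun i => Tb X (F i)) (fun i => tb_meas hXc (hFn i).meas) _ hb2').trans ?_
    refine mul_le_mul_left (ENNReal.rpow_le_rpow ?_ hp0.le) _
    exact_mod_cast Nat.le_succ N
  have hML : M ≤ ((N + 1 : ℕ) : ℝ≥0∞) ^ p * (2 ^ p * M) := by
    calc M = 1 * (1 * M) := by rw [one_mul, one_mul]
      _ ≤ _ := by gcongr
  have hb5 := sh_add (volume.restrict (Sh (m + 2) R)) hp1 (fun ξ => Tb X L ξ)
    (fun ξ => ∑ i ∈ Finset.range N, Tb X (F i) ξ) (tb_meas hXc hLn.meas)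
    (Finset.measurable_sum _ fun i _ => tb_meas hXc (hFn i).meas) _ (hb1'.trans hML) hb4
  have hb6 := sh_add (volume.restrict (Sh (m + 2) R)) hp1
    (fun ξ => Tb X L ξ + ∑ i ∈ Finset.range N, Tb X (F i) ξ) (fun ξ => Tb X Q ξ)
    ((tb_meas hXc hLn.meas).add (Finset.measurable_sum _ fun i _ => tb_meas hXc (hFn i).meas))
    (tb_meas hXc hQn.meas) _ hb5 (by
      refine hb3'.trans (hML.trans ?_)
      calc ((N + 1 : ℕ) : ℝ≥0∞) ^ p * (2 ^ p * M) = 1 * (((N + 1 : ℕ) : ℝ≥0∞) ^ p * (2 ^ p * M)) :=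
            (one_mul _).symm
        _ ≤ _ := by gcongr)
  simp_rw [hT]
  refine hb6.trans ?_
  have e8 : (2 : ℝ≥0∞) ^ p * (2 ^ p * (((N + 1 : ℕ) : ℝ≥0∞) ^ p * (2 ^ p * M))) =
      ENNReal.ofReal (8 ^ p * (((N : ℝ) + 1) ^ p) *
        ((C1 + C2 + C3) * R ^ (-(g / 3 + g / 3)))) := by
    have e1 : ((N + 1 : ℕ) : ℝ≥0∞) ^ p = ENNReal.ofReal (((N : ℝ) + 1) ^ p) := by
      rw [← ENNReal.ofReal_rpow_of_nonneg (by positivity) hp0.le]
      congr 1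
      rw [← Nat.cast_succ, ENNReal.ofReal_natCast]
    have e2 : (8 : ℝ) ^ p = 2 ^ p * (2 ^ p * 2 ^ p) := by
      rw [← Real.mul_rpow (by norm_num) (by norm_num), ← Real.mul_rpow (by norm_num) (by norm_num)]
      norm_num
    rw [e1, hM, ← sh_two p, ← ENNReal.ofReal_mul (by positivity), ← ENNReal.ofReal_mul (by positivity),
      ← ENNReal.ofReal_mul (by positivity), ← ENNReal.ofReal_mul (by positivity), e2]
    congr 1
    ring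
  rw [e8]
  refine ENNReal.ofReal_le_ofReal ?_
  have hk3 : ((N : ℝ) + 1) ^ p ≤ K * R ^ (g / 3) := by
    refine HK N R ((pow_le_pow_right₀ (by norm_num) (by omega)).trans hk1)
  have hRR : R ^ (g / 3) * R ^ (-(g / 3 + g / 3)) = R ^ (-(g / 3)) := by
    rw [← Real.rpow_add hR0]
    congr 1
    ring
  calc 8 ^ p * (((N : ℝ) + 1) ^ p) * ((C1 + C2 + C3) * R ^ (-(g / 3 + g / 3)))
      ≤ 8 ^ p * (K * R ^ (g / 3)) * ((C1 + C2 + C3) * R ^ (-(g / 3 + g / 3))) := by gcongr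
    _ = 8 ^ p * K * (C1 + C2 + C3) * (R ^ (g / 3) * R ^ (-(g / 3 + g / 3))) := by ring
    _ = 8 ^ p * K * (C1 + C2 + C3) * R ^ (-(g / 3)) := by rw [hRR]
    _ ≤ _ := by
        refine mul_le_mul_of_nonneg_right ?_ (by positivity)
        have : 0 ≤ V ^ p * U * (2 ^ k0) ^ (g / 3) := by positivity
        linarith

end Pool.Agent.LF2
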