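import Pool.Agent.LF.LP
import Pool.Agent.LF2.SHELL

/-!
[LEAF2] from the shells of frequencies to the whole space.
-/

set_option autoImplicit false

namespace Pool.Agent.LF2

open MeasureTheory Set Metric Pool.Agent.MP_6cbfb8_an Pool.Agent.LF
open scoped ENNReal Real RealInnerProductSpace ContDiff

variable {m : ℕ} {X : ℝ × E m → E (m + 2)} {p0 : ℝ × E m} {δ c C : ℝ} {A : ℕ → ℝ}

theorem Tb_le {b : ℝ × E m → ℂ} (hb : Measurable b) {B0 δ : ℝ} {p0 : ℝ × E m}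
    (hB : ∀ p, ‖b p‖ ≤ B0) (hs : ∀ p, δ < ‖p - p0‖ → b p = 0) (ξ : E (m + 2)) :
    ‖Tb X b ξ‖ ≤ B0 * volume.real (closedBall p0 δ) := by
  refine (norm_integral_le_integral_norm _).trans (le_trans (le_of_eq ?_) (core_int hb hB hs).2)
  refine integral_congr_ae (Filter.Eventually.of_forall fun p => ?_)
  simp only
  rw [norm_mul, Complex.norm_exp_ofReal_mul_I, mul_one]

/-- The sum over the dyadic shells, for a bounded function with decay on the shells. -/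
theorem chart_dyadic (n : ℕ) {p p' M C1 η : ℝ} (hp' : 0 ≤ p') (hpp : p' ≤ p) (hη : 0 < η) :
    ∃ C' : ℝ, 0 ≤ C' ∧ ∀ F : E n → ℂ, Measurable F → (∀ ξ, ‖F ξ‖ ≤ M) →
      (∀ R : ℝ, 1 ≤ R → ∫⁻ ξ in Sh n R, ‖F ξ‖ₑ ^ p' ≤ ENNReal.ofReal (C1 * R ^ (-η))) →
      ∫⁻ ξ, ‖F ξ‖ₑ ^ p ≤ ENNReal.ofReal C' := by
  set b : ℝ≥0∞ := ENNReal.ofReal M with hb
  set r : ℝ≥0∞ := ENNReal.ofReal ((2 : ℝ) ^ (-η)) with hr
  have hr1 : r < 1 := by
    rw [hr, ENNReal.ofReal_lt_one]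
    exact Real.rpow_lt_one_of_one_lt_of_neg (by norm_num) (by linarith)
  set K : ℝ≥0∞ := b ^ (p - p') * ENNReal.ofReal |C1| with hK
  have hK' : K ≠ ⊤ := ENNReal.mul_ne_top
    (ENNReal.rpow_ne_top_of_nonneg (by linarith) ENNReal.ofReal_ne_top) ENNReal.ofReal_ne_top
  set D : ℝ≥0∞ := b ^ p * volume (closedBall (0 : E n) 1) + K * (1 - r)⁻¹ with hD
  have hDt : D ≠ ⊤ := by
    refine ENNReal.add_ne_top.2 ⟨ENNReal.mul_ne_top
      (ENNReal.rpow_ne_top_of_nonneg (by linarith) ENNReal.ofReal_ne_top)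
      measure_closedBall_lt_top.ne, ENNReal.mul_ne_top hK' ?_⟩
    exact ENNReal.inv_ne_top.2 (tsub_pos_of_lt hr1).ne'
  refine ⟨D.toReal, ENNReal.toReal_nonneg, fun F hF hFM hR => ?_⟩
  rw [ENNReal.ofReal_toReal hDt]
  have hFb : ∀ ξ, ‖F ξ‖ₑ ≤ b := by
    intro ξ
    rw [hb, ← ofReal_norm]
    exact ENNReal.ofReal_le_ofReal (hFM ξ)
  have hcover : (univ : Set (E n)) ⊆ closedBall 0 1 ∪ ⋃ k : ℕ, Sh n (2 ^ k) := by
    intro ξ _
    by_cases h : ‖ξ‖ ≤ 1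
    · left
      simpa using h
    · right
      obtain ⟨k, hk1, hk2⟩ := exists_nat_pow_near (x := ‖ξ‖) (y := 2) (not_le.1 h).le (by norm_num)
      rw [mem_iUnion]
      refine ⟨k, hk1, ?_⟩
      rw [pow_succ] at hk2
      linarith
  have hA4 : ∀ k : ℕ, ∫⁻ ξ in Sh n (2 ^ k), ‖F ξ‖ₑ ^ p ≤ K * r ^ k := by
    intro k
    have h2k : (0 : ℝ) < 2 ^ k := by positivity
    have h1 : ∫⁻ ξ in Sh n (2 ^ k), ‖F ξ‖ₑ ^ p ≤
        b ^ (p - p') * ∫⁻ ξ in Sh n (2 ^ k), ‖F ξ‖ₑ ^ p' := by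
      rw [← lintegral_const_mul _ (hF.enorm.pow_const p')]
      exact lintegral_mono fun ξ => lp_pow (hFb ξ) hp' hpp
    refine h1.trans ?_
    rw [hK, mul_assoc]
    refine mul_le_mul_right ((hR (2 ^ k) (one_le_pow₀ (by norm_num))).trans ?_) _
    rw [hr, ← ENNReal.ofReal_pow (by positivity), ← ENNReal.ofReal_mul (abs_nonneg _)]
    refine ENNReal.ofReal_le_ofReal ?_
    have h3 : ((2 : ℝ) ^ k) ^ (-η) = ((2 : ℝ) ^ (-η)) ^ k := by
      rw [← Real.rpow_natCast 2 k, ← Real.rpow_natCast ((2 : ℝ) ^ (-η)) k,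
        ← Real.rpow_mul (by norm_num), ← Real.rpow_mul (by norm_num)]
      congr 1
      ring
    rw [h3]
    exact mul_le_mul_of_nonneg_right (le_abs_self C1) (by positivity)
  calc ∫⁻ ξ, ‖F ξ‖ₑ ^ p = ∫⁻ ξ in univ, ‖F ξ‖ₑ ^ p := by rw [setLIntegral_univ]
    _ ≤ ∫⁻ ξ in closedBall 0 1 ∪ ⋃ k : ℕ, Sh n (2 ^ k), ‖F ξ‖ₑ ^ p := lintegral_mono_set hcover
    _ ≤ (∫⁻ ξ in closedBall 0 1, ‖F ξ‖ₑ ^ p) + ∫⁻ ξ in ⋃ k : ℕ, Sh n (2 ^ k), ‖F ξ‖ₑ ^ p :=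
        lintegral_union_le _ _ _
    _ ≤ D := by
        rw [hD]
        refine add_le_add ?_ ?_
        · refine (lintegral_mono fun ξ => ENNReal.rpow_le_rpow (hFb ξ) (by linarith)).trans ?_
          rw [setLIntegral_const]
        · refine (lintegral_iUnion_le _ _).trans ?_
          refine (ENNReal.tsum_le_tsum hA4).trans ?_
          rw [ENNReal.tsum_mul_left, ENNReal.tsum_geometric]

theorem Tb_meas (hX : Continuous X) {b : ℝ × E m → ℂ} (hb : Measurable b) :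
    Measurable fun ξ : E (m + 2) => Tb X b ξ := by
  have h1 : Measurable fun q : E (m + 2) × (ℝ × E m) =>
      b q.2 * Complex.exp (((-⟪q.1, X q.2⟫ : ℝ) : ℂ) * Complex.I) := by
    refine (hb.comp measurable_snd).mul (Continuous.measurable ?_)
    fun_prop
  exact (h1.stronglyMeasurable.integral_prod_right').measurable

/-- The whole space, for a modulus of continuity in the mean with the exponents `q`, `τ`. -/
theorem chart_gen (hm : 1 ≤ m) (hG : Geo X p0 δ c C A) {p p' q τ : ℝ} (hq2 : 2 ≤ q)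
    (hqp : q ≤ p') (hp' : 2 * ((m : ℝ) + 2) / (m + 1) < p') (hp4 : p' < 4)
    (hτ : (4 - p') / 2 < τ) (hpp : p' ≤ p) (H : ℝ) :
    ∃ C' : ℝ, 0 ≤ C' ∧ ∀ (b : ℝ × E m → ℂ), Measurable b → (∀ p, ‖b p‖ ≤ 1) →
      (∀ p, δ / 4 < ‖p - p0‖ → b p = 0) →
      (∀ v : E m, ‖v‖ ≤ 1 →
        ∫⁻ p : ℝ × E m, ‖b (p.1, p.2 + v) - b p‖ₑ ^ q ≤ ENNReal.ofReal (H * ‖v‖ ^ τ)) →
      ∫⁻ ξ, ‖Tb X b ξ‖ₑ ^ p ≤ ENNReal.ofReal C' := by
  obtain ⟨C1, η, -, hη, h1⟩ := shell hm hG hq2 hqp hp' hp4 hτ H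
  obtain ⟨C', hC', h2⟩ := chart_dyadic (m + 2) (p := p) (p' := p')
    (M := 1 * volume.real (closedBall p0 (δ / 4))) (C1 := C1) (by linarith) hpp hη
  exact ⟨C', hC', fun b hb hb1 hb2 hb3 => h2 (fun ξ => Tb X b ξ) (Tb_meas hG.hX.continuous hb)
    (fun ξ => Tb_le hb hb1 hb2 ξ) (h1 b hb hb1 hb2 hb3)⟩

/-- The exponents of the critical modulus. -/
theorem chart_exp (hm : 1 ≤ m) : 2 ≤ 2 * ((m : ℝ) + 2) / (m + 1) ∧
    2 * ((m : ℝ) + 2) / (m + 1) < 4 ∧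
    (4 - 2 * ((m : ℝ) + 2) / (m + 1)) / 2 = (m : ℝ) / (m + 1) := by
  have hm0 : (1 : ℝ) ≤ m := by exact_mod_cast hm
  have h1 : (0 : ℝ) < m + 1 := by linarith
  refine ⟨?_, ?_, ?_⟩
  · rw [le_div_iff₀ h1]
    linarith
  · rw [div_lt_iff₀ h1]
    linarith
  · field_simp
    ring

/-- CHART: the whole space. -/
theorem chart (hm : 1 ≤ m) (hG : Geo X p0 δ c C A) {p : ℝ}
    (hp : 2 * ((m : ℝ) + 2) / (m + 1) < p) (H : ℝ) :
    ∃ C' : ℝ, 0 ≤ C' ∧ ∀ (b : ℝ × E m → ℂ), Measurable b → (∀ p, ‖b p‖ ≤ 1) →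
      (∀ p, δ / 4 < ‖p - p0‖ → b p = 0) →
      (∀ v : E m, ‖v‖ ≤ 1 →
        ∫⁻ p : ℝ × E m, ‖b (p.1, p.2 + v) - b p‖ₑ ^ (2 * ((m : ℝ) + 2) / (m + 1)) ≤
          ENNReal.ofReal (H * ‖v‖ ^ ((m : ℝ) / (m + 1)))) →
      ∫⁻ ξ, ‖Tb X b ξ‖ₑ ^ p ≤ ENNReal.ofReal C' := by
  obtain ⟨h1, h2, h3⟩ := chart_exp hm
  obtain ⟨p', hp1, hp2⟩ := exists_between (lt_min hp h2)
  have hp3 : p' < 4 := (lt_min_iff.1 hp2).2
  exact chart_gen hm hG h1 hp1.le hp1 hp3 (by rw [← h3]; linarith) (lt_min_iff.1 hp2).1.le H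

/-- The whole space, Hoelder continuity along the leaves. -/
theorem chart_hoelder (hm : 1 ≤ m) (hG : Geo X p0 δ c C A) {p s : ℝ}
    (hp : 2 * ((m : ℝ) + 2) / (m + 1) < p) (hps : 4 / (1 + 2 * s) < p) (hs : 0 < s) (H : ℝ)
    (hH : 0 ≤ H) :
    ∃ C' : ℝ, 0 ≤ C' ∧ ∀ (b : ℝ × E m → ℂ), Measurable b → (∀ p, ‖b p‖ ≤ 1) →
      (∀ p, δ / 4 < ‖p - p0‖ → b p = 0) →
      (∀ t z z', ‖b (t, z) - b (t, z')‖ ≤ H * ‖z - z'‖ ^ s) →
      ∫⁻ ξ, ‖Tb X b ξ‖ₑ ^ p ≤ ENNReal.ofReal C' := by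
  obtain ⟨h1, h2, h3⟩ := chart_exp hm
  have hs1 : 4 / (1 + 2 * s) < 4 := by
    rw [div_lt_iff₀ (by linarith)]
    linarith
  obtain ⟨p', hp1, hp2⟩ := exists_between (max_lt (lt_min hp h2) (lt_min hps hs1))
  have hp3 : p' < 4 := (lt_min_iff.1 hp2).2
  have hp4 : 2 * ((m : ℝ) + 2) / (m + 1) < p' := (max_lt_iff.1 hp1).1
  have hp5 : 4 / (1 + 2 * s) < p' := (max_lt_iff.1 hp1).2
  have hp6 : 2 ≤ p' := h1.trans hp4.le
  have hp7 : (4 - p') / 2 < p' * s := by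
    rw [div_lt_iff₀ (by linarith)] at hp5
    linarith
  set W : ℝ := volume.real (closedBall p0 (δ / 4 + 1)) with hW
  obtain ⟨C', hC', h4⟩ := chart_gen hm hG (p := p) hp6 le_rfl hp4 hp3 hp7
    (lt_min_iff.1 hp2).1.le (H ^ p' * W)
  refine ⟨C', hC', fun b hb hb1 hb2 hb3 => h4 b hb hb1 hb2 fun v hv => ?_⟩
  have hz : ∀ q : ℝ × E m, q ∉ closedBall p0 (δ / 4 + 1) →
      ‖b (q.1, q.2 + v) - b q‖ₑ ^ p' = 0 := by
    intro q hq
    rw [mem_closedBall, not_le, dist_eq_norm] at hq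
    have h5 : b q = 0 := hb2 q (by linarith)
    have h6 : b (q.1, q.2 + v) = 0 := by
      refine hb2 _ ?_
      have h7 : ((q.1, q.2 + v) : ℝ × E m) - p0 = (q - p0) + (0, v) := by
        ext <;> simp [add_sub_right_comm]
      have h8 : ‖((0 : ℝ), v)‖ = ‖v‖ := by simp [Prod.norm_def]
      have h9 := norm_sub_norm_le (q - p0) (-((0 : ℝ), v))
      rw [norm_neg, sub_neg_eq_add, ← h7, h8] at h9
      linarith
    rw [h5, h6, sub_zero, enorm_zero, ENNReal.zero_rpow_of_pos (by linarith)]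
  calc ∫⁻ q : ℝ × E m, ‖b (q.1, q.2 + v) - b q‖ₑ ^ p'
      = ∫⁻ q in closedBall p0 (δ / 4 + 1), ‖b (q.1, q.2 + v) - b q‖ₑ ^ p' := by
        rw [setLIntegral_eq_of_support_subset fun q hq => ?_]
        by_contra hcon
        exact hq (hz q hcon)
    _ ≤ ∫⁻ _ in closedBall p0 (δ / 4 + 1), ENNReal.ofReal (H ^ p' * ‖v‖ ^ (p' * s)) := by
        refine lintegral_mono fun q => ?_
        have h5 := hb3 q.1 (q.2 + v) q.2
        rw [add_sub_cancel_left] at h5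
        calc ‖b (q.1, q.2 + v) - b q‖ₑ ^ p' ≤ ENNReal.ofReal (H * ‖v‖ ^ s) ^ p' := by
              refine ENNReal.rpow_le_rpow ?_ (by linarith)
              rw [← ofReal_norm]
              exact ENNReal.ofReal_le_ofReal h5
          _ = ENNReal.ofReal (H ^ p' * ‖v‖ ^ (p' * s)) := by
              rw [ENNReal.ofReal_rpow_of_nonneg (by positivity) (by linarith),
                Real.mul_rpow hH (by positivity), ← Real.rpow_mul (norm_nonneg _), mul_comm s p']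
    _ = ENNReal.ofReal (H ^ p' * W * ‖v‖ ^ (p' * s)) := by
        rw [setLIntegral_const, hW, ← ENNReal.ofReal_toReal (measure_closedBall_lt_top
          (x := p0) (r := δ / 4 + 1) (μ := (volume : Measure (ℝ × E m)))).ne,
          ← ENNReal.ofReal_mul (by positivity)]
        congr 1
        rw [Measure.real]
        ring

end Pool.Agent.LF2
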