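import Pool.Agent.LF.CH1

/-!
[LEAF2] The chart of the sphere in which two given functions are the coordinates (helper11,
after the chart of LF.CH1).
-/

set_option autoImplicit false

namespace Pool.Agent.LF2

open Set Filter Topology Pool.Agent.MP_6cbfb8_an Pool.Agent.LF
open scoped RealInnerProductSpace ContDiff

/-- The chart by the inverse function theorem. -/
theorem chpsi_loc {n m : ℕ} (hnm : m + 2 = n) {φ : E n → ℝ} {ψ : E n → E m} {x0 : E n}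
    (hx0 : ‖x0‖ = 1) (hφ : ∀ᶠ x in 𝓝 x0, ContDiffAt ℝ ∞ φ x)
    (hψ : ∀ᶠ x in 𝓝 x0, ContDiffAt ℝ ∞ ψ x)
    (hinj0 : ∀ v, ⟪x0, v⟫ = 0 → fderiv ℝ φ x0 v = 0 → fderiv ℝ ψ x0 v = 0 → v = 0) :
    ∃ X : ℝ × E m → E n,
      X (φ x0, ψ x0) = x0 ∧
      (∀ᶠ p in 𝓝 ((φ x0, ψ x0) : ℝ × E m), ContDiffAt ℝ ∞ X p ∧ ‖X p‖ = 1 ∧ φ (X p) = p.1 ∧
        ψ (X p) = p.2) ∧
      ∀ᶠ x in 𝓝 x0, ‖x‖ = 1 → X (φ x, ψ x) = x := by
  have hxx : ⟪x0, x0⟫ = 1 := by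
    rw [real_inner_self_eq_norm_sq, hx0, one_pow]
  have hφ0 : ContDiffAt ℝ ∞ φ x0 := hφ.self_of_nhds
  have hψ0 : ContDiffAt ℝ ∞ ψ x0 := hψ.self_of_nhds
  -- the map
  set F : E n → ℝ × (ℝ × E m) := fun x => (⟪x, x⟫, (φ x, ψ x)) with hF
  have hFs : ∀ᶠ x in 𝓝 x0, ContDiffAt ℝ ∞ F x := by
    filter_upwards [hφ, hψ] with x hx hx'
    exact (contDiffAt_id.inner ℝ contDiffAt_id).prodMk (hx.prodMk hx')
  have hFd : ∀ v, fderiv ℝ F x0 v = (2 * ⟪x0, v⟫, (fderiv ℝ φ x0 v, fderiv ℝ ψ x0 v)) := by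
    intro v
    have h1 : HasFDerivAt F (((fderivInnerCLM ℝ (x0, x0)).comp ((ContinuousLinearMap.id ℝ (E n)).prod
        (ContinuousLinearMap.id ℝ (E n)))).prod
        ((fderiv ℝ φ x0).prod (fderiv ℝ ψ x0))) x0 := by
      refine HasFDerivAt.prodMk ?_ (HasFDerivAt.prodMk ?_ ?_)
      · exact (hasFDerivAt_id x0).inner ℝ (hasFDerivAt_id x0)
      · exact (hφ0.differentiableAt (by simp)).hasFDerivAt
      · exact (hψ0.differentiableAt (by simp)).hasFDerivAt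
    rw [h1.fderiv]
    simp only [ContinuousLinearMap.prod_apply, ContinuousLinearMap.comp_apply,
      ContinuousLinearMap.id_apply, fderivInnerCLM_apply]
    rw [real_inner_comm v x0]
    ring_nf
  have hinj : Function.Injective (fderiv ℝ F x0 : E n →ₗ[ℝ] ℝ × (ℝ × E m)) := by
    rw [← LinearMap.ker_eq_bot, LinearMap.ker_eq_bot']
    intro v hv
    have h1 : fderiv ℝ F x0 v = 0 := hv
    rw [hFd] at h1
    simp only [Prod.mk_eq_zero, mul_eq_zero, OfNat.ofNat_ne_zero, false_or] at h1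
    obtain ⟨h2, h3, h4⟩ := h1
    exact hinj0 v h2 h3 h4
  let e1 : E n ≃ₗ[ℝ] ℝ × (ℝ × E m) := LinearEquiv.ofInjectiveOfFinrankEq _ hinj (by
    rw [Module.finrank_prod, Module.finrank_prod, Module.finrank_self, finrank_euclideanSpace,
      finrank_euclideanSpace, Fintype.card_fin, Fintype.card_fin]
    omega)
  let e2 : E n ≃L[ℝ] ℝ × (ℝ × E m) := e1.toContinuousLinearEquiv
  have he2 : (e2 : E n →L[ℝ] ℝ × (ℝ × E m)) = fderiv ℝ F x0 := by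
    ext v : 1
    rfl
  have hF0 : ContDiffAt ℝ ∞ F x0 := hFs.self_of_nhds
  have hFx0 : F x0 = (1, (φ x0, ψ x0)) := by
    simp only [hF, hxx]
  have hFd0 : HasFDerivAt F (e2 : E n →L[ℝ] ℝ × (ℝ × E m)) x0 := by
    rw [he2]
    exact (hF0.differentiableAt (by simp)).hasFDerivAt
  have hne : (∞ : WithTop ℕ∞) ≠ 0 := by simp
  let Φ : OpenPartialHomeomorph (E n) (ℝ × (ℝ × E m)) :=
    hF0.toOpenPartialHomeomorph F hFd0 hne
  have hΦ : (Φ : E n → ℝ × (ℝ × E m)) = F := hF0.toOpenPartialHomeomorph_coe hFd0 hne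
  have hsrc : x0 ∈ Φ.source := hF0.mem_toOpenPartialHomeomorph_source hFd0 hne
  have htgt : ((1, (φ x0, ψ x0)) : ℝ × (ℝ × E m)) ∈ Φ.target := by
    rw [← hFx0, ← hΦ]
    exact Φ.map_source hsrc
  have hsym : Φ.symm (1, (φ x0, ψ x0)) = x0 := by
    rw [← hFx0, ← hΦ]
    exact Φ.left_inv hsrc
  -- the derivative is invertible near `x0`
  have hder : ∀ᶠ x in 𝓝 x0, ContDiffAt ℝ ∞ F x ∧
      ∃ e3 : E n ≃L[ℝ] ℝ × (ℝ × E m), (e3 : E n →L[ℝ] ℝ × (ℝ × E m)) = fderiv ℝ F x := by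
    have h1 : ContinuousAt (fderiv ℝ F) x0 :=
      (hF0.fderiv_right (m := 0) (by simp)).continuousAt
    have h2 : range ((↑) : (E n ≃L[ℝ] ℝ × (ℝ × E m)) → (E n →L[ℝ] ℝ × (ℝ × E m))) ∈
        𝓝 (fderiv ℝ F x0) := by
      rw [← he2]
      exact ContinuousLinearEquiv.nhds e2
    filter_upwards [hFs, h1 h2] with x hx hx2
    exact ⟨hx, hx2⟩
  -- the chart
  refine ⟨fun p => Φ.symm (1, p), hsym, ?_, ?_⟩
  · have hcont : Tendsto (fun p : ℝ × E m => Φ.symm (1, p)) (𝓝 (φ x0, ψ x0)) (𝓝 x0) := by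
      have h1 : ContinuousAt (fun p : ℝ × E m => Φ.symm (1, p)) (φ x0, ψ x0) := by
        refine ContinuousAt.comp (f := fun p : ℝ × E m => ((1 : ℝ), p)) ?_ (by fun_prop)
        exact Φ.continuousAt_symm htgt
      have h2 := h1.tendsto
      rwa [hsym] at h2
    have htg : ∀ᶠ p : ℝ × E m in 𝓝 (φ x0, ψ x0), ((1 : ℝ), p) ∈ Φ.target := by
      have h1 : Tendsto (fun p : ℝ × E m => ((1 : ℝ), p)) (𝓝 (φ x0, ψ x0)) (𝓝 (1, (φ x0, ψ x0))) := by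
        have : Continuous fun p : ℝ × E m => ((1 : ℝ), p) := by fun_prop
        exact this.tendsto _
      exact h1 (Φ.open_target.mem_nhds htgt)
    filter_upwards [htg, hcont.eventually hder] with p hp1 hp2
    obtain ⟨hp3, e3, he3⟩ := hp2
    have h1 : F (Φ.symm (1, p)) = (1, p) := by
      rw [← hΦ]
      exact Φ.right_inv hp1
    have h2 : ContDiffAt ℝ ∞ Φ.symm (1, p) := by
      refine Φ.contDiffAt_symm hp1 (f₀' := e3) ?_ ?_
      · rw [hΦ, he3]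
        exact (hp3.differentiableAt (by simp)).hasFDerivAt
      · rw [hΦ]
        exact hp3
    simp only [hF, Prod.ext_iff] at h1
    obtain ⟨h3, h4, h5⟩ := h1
    refine ⟨h2.comp p (contDiffAt_const.prodMk contDiffAt_id), ?_, h4, h5⟩
    rw [real_inner_self_eq_norm_sq] at h3
    have h6 := norm_nonneg (Φ.symm (1, p))
    nlinarith
  · have h1 : ∀ᶠ x in 𝓝 x0, x ∈ Φ.source := Φ.open_source.mem_nhds hsrc
    filter_upwards [h1] with x hx hx1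
    have h2 : F x = (1, (φ x, ψ x)) := by
      simp only [hF, real_inner_self_eq_norm_sq, hx1, one_pow]
    rw [← h2, ← hΦ]
    exact Φ.left_inv hx


/-- The chart `X(t, z)` of the sphere of `E n`, `n = m + 2`, with `φ(X(t, z)) = t` and
`ψ(X(t, z)) = z`, smooth with bounded derivatives on the whole space. -/
theorem chpsi {n m : ℕ} (hnm : m + 2 = n) {φ : E n → ℝ} {ψ : E n → E m} {x0 : E n}
    (hx0 : ‖x0‖ = 1) (hφ : ∀ᶠ x in 𝓝 x0, ContDiffAt ℝ ∞ φ x)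
    (hψ : ∀ᶠ x in 𝓝 x0, ContDiffAt ℝ ∞ ψ x)
    (hinj0 : ∀ v, ⟪x0, v⟫ = 0 → fderiv ℝ φ x0 v = 0 → fderiv ℝ ψ x0 v = 0 → v = 0) :
    ∃ (X : ℝ × E m → E n) (A : ℕ → ℝ) (δ : ℝ), 0 < δ ∧ ContDiff ℝ ∞ X ∧
      (∀ j p, ‖iteratedFDeriv ℝ j X p‖ ≤ A j) ∧ X (φ x0, ψ x0) = x0 ∧
      (∀ p, ‖p - (φ x0, ψ x0)‖ ≤ δ → ‖X p‖ = 1) ∧
      (∀ p, ‖p - (φ x0, ψ x0)‖ ≤ δ → φ (X p) = p.1) ∧
      (∀ p, ‖p - (φ x0, ψ x0)‖ ≤ δ → ψ (X p) = p.2) ∧
      (∀ p q, ‖p - (φ x0, ψ x0)‖ ≤ δ → ‖q - (φ x0, ψ x0)‖ ≤ δ → X p = X q → p = q) ∧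
      (∀ p, ‖p - (φ x0, ψ x0)‖ ≤ δ → ∀ v, fderiv ℝ X p v = 0 → v = 0) ∧
      ∀ᶠ x in 𝓝 x0, ‖x‖ = 1 → ∃ p, ‖p - (φ x0, ψ x0)‖ < δ ∧ X p = x := by
  have hφ0 : ContDiffAt ℝ ∞ φ x0 := hφ.self_of_nhds
  have hψ0 : ContDiffAt ℝ ∞ ψ x0 := hψ.self_of_nhds
  obtain ⟨X, hX0, hX1, hX2⟩ := chpsi_loc hnm hx0 hφ hψ hinj0
  have hXc : ContinuousAt X (φ x0, ψ x0) := hX1.self_of_nhds.1.continuousAt
  have hφX : ∀ᶠ p in 𝓝 ((φ x0, ψ x0) : ℝ × E m), ContDiffAt ℝ ∞ φ (X p) := by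
    have h1 := hXc.tendsto
    rw [hX0] at h1
    exact h1.eventually hφ
  have hψX : ∀ᶠ p in 𝓝 ((φ x0, ψ x0) : ℝ × E m), ContDiffAt ℝ ∞ ψ (X p) := by
    have h1 := hXc.tendsto
    rw [hX0] at h1
    exact h1.eventually hψ
  obtain ⟨r, hr, hball⟩ := Metric.eventually_nhds_iff_ball.1 (hX1.and (hφX.and hψX))
  have hball' : ∀ p, ‖p - (φ x0, ψ x0)‖ < r → (ContDiffAt ℝ ∞ X p ∧ ‖X p‖ = 1 ∧ φ (X p) = p.1 ∧
      ψ (X p) = p.2) ∧ ContDiffAt ℝ ∞ φ (X p) ∧ ContDiffAt ℝ ∞ ψ (X p) := fun p hp => hball p (by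
    rw [Metric.mem_ball, dist_eq_norm]
    exact hp)
  have hopen : ∀ p : ℝ × E m, ‖p - (φ x0, ψ x0)‖ < r →
      ∀ᶠ q in 𝓝 p, ‖q - ((φ x0, ψ x0) : ℝ × E m)‖ < r := fun p hp =>
    (isOpen_lt (by fun_prop) continuous_const).mem_nhds hp
  have himm : ∀ p, ‖p - (φ x0, ψ x0)‖ < r → Function.Injective (fderiv ℝ X p) := by
    intro p hp
    obtain ⟨⟨h1, -, -, -⟩, h2, h2'⟩ := hball' p hp
    have hXd : DifferentiableAt ℝ X p := h1.differentiableAt (by simp)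
    have hφd : DifferentiableAt ℝ φ (X p) := h2.differentiableAt (by simp)
    have hψd : DifferentiableAt ℝ ψ (X p) := h2'.differentiableAt (by simp)
    have h3 : ∀ u, fderiv ℝ φ (X p) (fderiv ℝ X p u) = u.1 := by
      intro u
      have e1 : (fun q => φ (X q)) =ᶠ[𝓝 p] fun q => q.1 := by
        filter_upwards [hopen p hp] with q hq using (hball' q hq).1.2.2.1
      have e2 : HasFDerivAt (fun q => φ (X q)) ((fderiv ℝ φ (X p)).comp (fderiv ℝ X p)) p :=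
        hφd.hasFDerivAt.comp p hXd.hasFDerivAt
      have e3 : HasFDerivAt (fun q : ℝ × E m => q.1) ((fderiv ℝ φ (X p)).comp (fderiv ℝ X p)) p :=
        e2.congr_of_eventuallyEq e1.symm
      have e4 := e3.unique hasFDerivAt_fst
      exact congrArg (fun l : ℝ × E m →L[ℝ] ℝ => l u) e4
    have h4 : ∀ u, fderiv ℝ ψ (X p) (fderiv ℝ X p u) = u.2 := by
      intro u
      have e1 : (fun q => ψ (X q)) =ᶠ[𝓝 p] fun q => q.2 := by
        filter_upwards [hopen p hp] with q hq using (hball' q hq).1.2.2.2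
      have e2 : HasFDerivAt (fun q => ψ (X q)) ((fderiv ℝ ψ (X p)).comp (fderiv ℝ X p)) p :=
        hψd.hasFDerivAt.comp p hXd.hasFDerivAt
      have e3 : HasFDerivAt (fun q : ℝ × E m => q.2) ((fderiv ℝ ψ (X p)).comp (fderiv ℝ X p)) p :=
        e2.congr_of_eventuallyEq e1.symm
      have e4 := e3.unique hasFDerivAt_snd
      exact congrArg (fun l : ℝ × E m →L[ℝ] E m => l u) e4
    intro a b hab
    refine Prod.ext ?_ ?_
    · rw [← h3 a, ← h3 b, hab]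
    · rw [← h4 a, ← h4 b, hab]
  obtain ⟨Y, A, hY1, hA, hY2, hY3, hY4, -⟩ := cut_off X ((φ x0, ψ x0) : ℝ × E m) (δ := r / 2) (r := r)
    (by positivity) (by linarith) fun p hp => (hball' p hp).1.1
  have hlt : ∀ p : ℝ × E m, ‖p - (φ x0, ψ x0)‖ ≤ r / 4 → ‖p - (φ x0, ψ x0)‖ < r / 2 := fun p hp => by
    linarith
  have hp0 : ‖((φ x0, ψ x0) : ℝ × E m) - (φ x0, ψ x0)‖ < r / 2 := by
    rw [sub_self, norm_zero]
    positivity
  have hd : ∀ p : ℝ × E m, ‖p - (φ x0, ψ x0)‖ < r / 2 → fderiv ℝ Y p = fderiv ℝ X p := fun p hp =>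
    (hY4 p hp).fderiv_eq
  refine ⟨Y, A, r / 4, by positivity, hY1, hY2, ?_, ?_, ?_, ?_, ?_, ?_, ?_⟩
  · rw [hY3 _ hp0.le, hX0]
  · intro p hp
    have h1 := hlt p hp
    obtain ⟨⟨-, h2, h3, h4⟩, -⟩ := hball' p (by linarith)
    rw [hY3 p h1.le]
    exact h2
  · intro p hp
    have h1 := hlt p hp
    obtain ⟨⟨-, h2, h3, h4⟩, -⟩ := hball' p (by linarith)
    rw [hY3 p h1.le]
    exact h3
  · intro p hp
    have h1 := hlt p hp
    obtain ⟨⟨-, h2, h3, h4⟩, -⟩ := hball' p (by linarith)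
    rw [hY3 p h1.le]
    exact h4
  · intro p q hp hq hpq
    have hp1 := hlt p hp
    have hq1 := hlt q hq
    rw [hY3 p hp1.le, hY3 q hq1.le] at hpq
    obtain ⟨⟨-, -, h3, h4⟩, -⟩ := hball' p (by linarith)
    obtain ⟨⟨-, -, h5, h6⟩, -⟩ := hball' q (by linarith)
    refine Prod.ext ?_ ?_
    · rw [← h3, ← h5, hpq]
    · rw [← h4, ← h6, hpq]
  · intro p hp v hv
    have h1 := hlt p hp
    rw [hd p h1] at hv
    exact himm p (by linarith) (by rw [hv, map_zero])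
  · have h1 : Tendsto (fun x => ((φ x, ψ x) : ℝ × E m)) (𝓝 x0) (𝓝 (φ x0, ψ x0)) :=
      (hφ0.continuousAt.prodMk hψ0.continuousAt).tendsto
    have hop : ∀ᶠ q in 𝓝 ((φ x0, ψ x0) : ℝ × E m), ‖q - ((φ x0, ψ x0) : ℝ × E m)‖ < r / 4 :=
      (isOpen_lt (by fun_prop) continuous_const).mem_nhds (by
        rw [mem_setOf_eq, sub_self, norm_zero]
        positivity)
    filter_upwards [hX2, h1.eventually hop] with x hx hx2 hx3
    refine ⟨_, hx2, ?_⟩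
    rw [hY3 _ (by linarith), hx hx3]

end Pool.Agent.LF2
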