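import Pool.Agent.LF2.Df

/-!
[LEAF2] CORE_LAM from SQ, ST4, YOUNG, CASE 1, CASE 2.
-/

set_option autoImplicit false

namespace Pool.Agent.LF2

open MeasureTheory Set Metric Pool.Agent.MP_6cbfb8_an Pool.Agent.LF
open scoped ENNReal Real RealInnerProductSpace ContDiff

variable {m : ℕ} {X : ℝ × E m → E (m + 2)} {p0 : ℝ × E m} {δ c C : ℝ} {A : ℕ → ℝ}

/-- The amplitude is bounded. -/
theorem Amp.norm_le {p0 : ℝ × E m} {δ : ℝ} {B : ℕ → ℝ} {Λ : ℝ} {b : ℝ × E m → ℂ}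
    {h : ℝ × E m → ℝ} (ha : Amp p0 δ B Λ b h) (hΛ : 1 ≤ Λ) (p : ℝ × E m) :
    ‖b p‖ ≤ |B 0| * volume.real (closedBall (0 : E m) 1) := by
  have h1 := ha.bound p.1 0 p.2
  rw [norm_iteratedFDeriv_zero, pow_zero, mul_one] at h1
  have h2 : Λ ^ m * ∫ y in closedBall p.2 (1 / Λ), h (p.1, y) ≤
      volume.real (closedBall (0 : E m) 1) := by
    have hΛ0 : 0 < Λ := by linarith
    have h3 : ∫ y in closedBall p.2 (1 / Λ), h (p.1, y) ≤
        ∫ _ in closedBall p.2 (1 / Λ), (1 : ℝ) := by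
      refine integral_mono_of_nonneg (Filter.Eventually.of_forall fun _ => ha.h0 _) ?_
        (Filter.Eventually.of_forall fun _ => ha.h1 _)
      exact integrableOn_const (isCompact_closedBall _ _).measure_lt_top.ne
    rw [setIntegral_const, smul_eq_mul, mul_one] at h3
    have h4 : volume.real (closedBall p.2 (1 / Λ)) =
        (1 / Λ) ^ m * volume.real (closedBall (0 : E m) 1) := by
      have h5 := Measure.addHaar_closedBall_mul (volume : Measure (E m)) p.2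
        (r := 1 / Λ) (by positivity) (s := 1) (by norm_num)
      rw [mul_one, finrank_euclideanSpace, Fintype.card_fin] at h5
      rw [Measure.real, h5, ENNReal.toReal_mul, ENNReal.toReal_ofReal (by positivity), Measure.real]
    rw [h4] at h3
    calc Λ ^ m * ∫ y in closedBall p.2 (1 / Λ), h (p.1, y) ≤
          Λ ^ m * ((1 / Λ) ^ m * volume.real (closedBall (0 : E m) 1)) := by gcongr
      _ = _ := by
        rw [← mul_assoc, ← mul_pow, mul_one_div_cancel hΛ0.ne', one_pow, one_mul]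
  have h0 : 0 ≤ Λ ^ m * ∫ y in closedBall p.2 (1 / Λ), h (p.1, y) := by
    refine mul_nonneg (by positivity) (integral_nonneg fun _ => ha.h0 _)
  calc ‖b p‖ ≤ B 0 * (Λ ^ m * ∫ y in closedBall p.2 (1 / Λ), h (p.1, y)) := h1
    _ ≤ |B 0| * (Λ ^ m * ∫ y in closedBall p.2 (1 / Λ), h (p.1, y)) := by
        gcongr
        exact le_abs_self _
    _ ≤ _ := by gcongr

/-- CORE_LAM. -/
theorem core_lam_of (B : ℕ → ℝ)
    (hsq : ∀ ε : ℝ, 0 < ε → ∀ N : ℕ, ∃ C' : ℝ, 0 ≤ C' ∧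
      ∀ (R Λ : ℝ) (b : ℝ × E m → ℂ) (h : ℝ × E m → ℝ), 1 ≤ R → 1 ≤ Λ →
      Amp p0 δ B Λ b h → R ^ ε * max Λ √R ≤ R →
      ∫⁻ ξ in Sh (m + 2) R, ‖Tb X b ξ‖ₑ ^ 4 ≤
        ENNReal.ofReal (C' * R ^ ε) *
          (∫⁻ ξ in An (m + 2) R, Sq X p0 δ (max Λ √R / R) b ξ ^ 2) +
        ENNReal.ofReal (C' * (1 / R) ^ N))
    (hst : ∀ ε : ℝ, 0 < ε → ∃ C' : ℝ, 0 ≤ C' ∧ ∀ (R : ℝ) (b : ℝ × E m → ℂ), 1 ≤ R →
      Measurable b → (∃ M, ∀ p, ‖b p‖ ≤ M) → (∀ p, δ ≤ ‖p - p0‖ → b p = 0) →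
      ∫⁻ ξ in {ξ : E (m + 2) | ‖ξ‖ ≤ 4 * R}, ‖Tb X b ξ‖ₑ ^ 4 ≤
        ENNReal.ofReal (C' * R ^ ε) * (∫⁻ p, ‖b p‖ₑ ^ 2) ^ 2)
    (hyo : ∃ C' : ℝ, 0 ≤ C' ∧ ∀ (p0 : ℝ × E m) (δ Λ : ℝ) (b : ℝ × E m → ℂ)
      (h : ℝ × E m → ℝ), 1 ≤ Λ → Amp p0 δ B Λ b h →
      ∫⁻ p, ‖b p‖ₑ ^ 2 ≤ ENNReal.ofReal C' * ∫⁻ p, ENNReal.ofReal (h p ^ 2))
    (hc2 : ∀ ε : ℝ, 0 < ε → ∀ N : ℕ, ∃ C' : ℝ, 0 ≤ C' ∧
      ∀ (R Λ : ℝ) (b : ℝ × E m → ℂ) (h : ℝ × E m → ℝ), 1 ≤ R → √R ≤ Λ →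
      Amp p0 δ B Λ b h → R ^ ε * Λ ≤ R →
      ∫⁻ ξ in An (m + 2) R, Sq X p0 δ (Λ / R) b ξ ^ 2 ≤
        ENNReal.ofReal (C' * R ^ ε * (Λ / R) ^ m) * (∫⁻ p, ‖b p‖ₑ ^ 2) +
        ENNReal.ofReal (C' * (1 / R) ^ N))
    (hc1 : ∀ ε : ℝ, 0 < ε → ∀ N : ℕ, ∃ C' : ℝ, 0 ≤ C' ∧
      ∀ (R Λ : ℝ) (b : ℝ × E m → ℂ) (h : ℝ × E m → ℝ), 1 ≤ R → 1 ≤ Λ →
      Λ ≤ √R → Amp p0 δ B Λ b h →
      ∫⁻ ξ in An (m + 2) R, Sq X p0 δ (1 / √R) b ξ ^ 2 ≤
        ENNReal.ofReal (C' * R ^ ε * (Λ / R) ^ m) * (∫⁻ p, ENNReal.ofReal (h p ^ 2)) +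
        ENNReal.ofReal (C' * (1 / R) ^ N))
    {ε : ℝ} (hε : 0 < ε) (N : ℕ) :
    ∃ C' : ℝ, 0 ≤ C' ∧ ∀ (R Λ : ℝ) (b : ℝ × E m → ℂ) (h : ℝ × E m → ℝ), 1 ≤ R → 1 ≤ Λ →
      Λ ≤ R → Amp p0 δ B Λ b h →
      ∫⁻ ξ in Sh (m + 2) R, ‖Tb X b ξ‖ₑ ^ 4 ≤
        ENNReal.ofReal (C' * R ^ ε * (Λ / R) ^ m) * (∫⁻ p, ENNReal.ofReal (h p ^ 2)) +
        ENNReal.ofReal (C' * (1 / R) ^ N) := by
  -- the small exponent
  obtain ⟨e, he⟩ : ∃ e : ℝ, e = min (1 / 4) (ε / (m + 2)) := ⟨_, rfl⟩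
  have hm0 : (0 : ℝ) < m + 2 := by positivity
  have he0 : 0 < e := by rw [he]; exact lt_min (by norm_num) (by positivity)
  have he4 : e ≤ 1 / 4 := he ▸ min_le_left _ _
  have heε : (m + 2) * e ≤ ε := by
    have : e ≤ ε / (m + 2) := he ▸ min_le_right _ _
    rw [le_div_iff₀ hm0] at this
    linarith
  have he2 : 2 * e ≤ ε := by
    have : (2 : ℝ) * e ≤ (m + 2) * e := by
      have : (0 : ℝ) ≤ m := Nat.cast_nonneg m
      nlinarith
    linarith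
  obtain ⟨K1, hK1, H1⟩ := hsq e he0 N
  obtain ⟨K2, hK2, H2⟩ := hst e he0
  obtain ⟨K3, hK3, H3⟩ := hyo
  obtain ⟨K4, hK4, H4⟩ := hc2 e he0 (N + 1)
  obtain ⟨K5, hK5, H5⟩ := hc1 e he0 (N + 1)
  set V0 : ℝ := |B 0| * volume.real (closedBall (0 : E m) 1) with hV0
  have hV00 : 0 ≤ V0 := by positivity
  have hvol : (volume (closedBall p0 δ) : ℝ≥0∞) ≠ ⊤ := (isCompact_closedBall p0 δ).measure_lt_top.ne
  set v0 : ℝ := volume.real (closedBall p0 δ) with hv0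
  have hv00 : 0 ≤ v0 := measureReal_nonneg
  obtain ⟨D, hD⟩ : ∃ D : ℝ, D = K1 * K4 * K3 + K1 * K5 + K1 * (K4 + K5 + 1) +
    K2 * (V0 ^ 2 * v0) * K3 := ⟨_, rfl⟩
  have n1 : 0 ≤ K1 * K4 * K3 := by positivity
  have n2 : 0 ≤ K1 * K5 := by positivity
  have n3 : 0 ≤ K1 * (K4 + K5 + 1) := by positivity
  have n4 : 0 ≤ K2 * (V0 ^ 2 * v0) * K3 := by positivity
  have d1 : K1 * (K4 * K3) ≤ D := by rw [hD, ← mul_assoc]; linarith
  have d2 : K1 * K5 ≤ D := by rw [hD]; linarith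
  have d3 : K1 * (K4 + 1) ≤ D := by
    have : K1 * (K4 + 1) ≤ K1 * (K4 + K5 + 1) := by gcongr; linarith
    rw [hD]; linarith
  have d4 : K1 * (K5 + 1) ≤ D := by
    have : K1 * (K5 + 1) ≤ K1 * (K4 + K5 + 1) := by gcongr; linarith
    rw [hD]; linarith
  have d5 : K2 * (V0 ^ 2 * v0) * K3 ≤ D := by rw [hD]; linarith
  have hD0 : 0 ≤ D := n2.trans d2
  refine ⟨D, hD0, ?_⟩
  clear_value V0 v0
  clear hD
  intro R Λ b h hR hΛ hΛR ha
  have hR0 : 0 < R := by linarith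
  have hΛ0 : 0 < Λ := by linarith
  have hsR : 0 < √R := Real.sqrt_pos.2 hR0
  have hRe1 : 1 ≤ R ^ e := Real.one_le_rpow hR he0.le
  have hReR : R ^ e ≤ R := by
    calc R ^ e ≤ R ^ (1 : ℝ) := Real.rpow_le_rpow_of_exponent_le hR (by linarith)
      _ = R := Real.rpow_one R
  have hq0 : 0 < Λ / R := by positivity
  have hq1 : Λ / R ≤ 1 := by rwa [div_le_one hR0]
  have hpow : R ^ e * (1 / R) ^ (N + 1) ≤ (1 / R) ^ N := by
    rw [pow_succ]
    calc R ^ e * ((1 / R) ^ N * (1 / R)) ≤ R * ((1 / R) ^ N * (1 / R)) := by gcongr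
      _ = (1 / R) ^ N := by field_simp
  have hR2e : R ^ e * R ^ e ≤ R ^ ε := by
    rw [← Real.rpow_add hR0]
    exact Real.rpow_le_rpow_of_exponent_le hR (by linarith)
  set I : ℝ≥0∞ := ∫⁻ p, ENNReal.ofReal (h p ^ 2) with hI
  have hcomb : ∀ (K K' : ℝ) (J : ℝ≥0∞), 0 ≤ K → 0 ≤ K' →
      J ≤ ENNReal.ofReal (K * R ^ e * (Λ / R) ^ m) * I + ENNReal.ofReal (K' * (1 / R) ^ (N + 1)) →
      ENNReal.ofReal (K1 * R ^ e) * J + ENNReal.ofReal (K1 * (1 / R) ^ N) ≤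
      ENNReal.ofReal (K1 * K * R ^ ε * (Λ / R) ^ m) * I +
        ENNReal.ofReal (K1 * (K' + 1) * (1 / R) ^ N) := by
    intro K K' J hK hK' hJ
    calc ENNReal.ofReal (K1 * R ^ e) * J + ENNReal.ofReal (K1 * (1 / R) ^ N) ≤
        ENNReal.ofReal (K1 * R ^ e) * (ENNReal.ofReal (K * R ^ e * (Λ / R) ^ m) * I +
          ENNReal.ofReal (K' * (1 / R) ^ (N + 1))) + ENNReal.ofReal (K1 * (1 / R) ^ N) := by gcongr
      _ = ENNReal.ofReal (K1 * R ^ e * (K * R ^ e * (Λ / R) ^ m)) * I +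
          (ENNReal.ofReal (K1 * R ^ e * (K' * (1 / R) ^ (N + 1))) +
            ENNReal.ofReal (K1 * (1 / R) ^ N)) := by
          rw [mul_add, ← mul_assoc, ← ENNReal.ofReal_mul (by positivity),
            ← ENNReal.ofReal_mul (by positivity), add_assoc]
      _ ≤ _ := by
          rw [← ENNReal.ofReal_add (by positivity) (by positivity)]
          refine add_le_add (mul_le_mul' (ENNReal.ofReal_le_ofReal ?_) le_rfl)
            (ENNReal.ofReal_le_ofReal ?_)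
          · calc K1 * R ^ e * (K * R ^ e * (Λ / R) ^ m) =
                K1 * K * (R ^ e * R ^ e) * (Λ / R) ^ m := by ring
              _ ≤ K1 * K * R ^ ε * (Λ / R) ^ m := by gcongr
          · calc K1 * R ^ e * (K' * (1 / R) ^ (N + 1)) + K1 * (1 / R) ^ N =
                K1 * K' * (R ^ e * (1 / R) ^ (N + 1)) + K1 * (1 / R) ^ N := by ring
              _ ≤ K1 * K' * (1 / R) ^ N + K1 * (1 / R) ^ N := by gcongr
              _ = K1 * (K' + 1) * (1 / R) ^ N := by ring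
  have hRε : 1 ≤ R ^ ε := Real.one_le_rpow hR hε.le
  have hfin : ∀ a a' : ℝ, a ≤ D → a' ≤ D →
      ENNReal.ofReal (a * R ^ ε * (Λ / R) ^ m) * I + ENNReal.ofReal (a' * (1 / R) ^ N) ≤
      ENNReal.ofReal (D * R ^ ε * (Λ / R) ^ m) * I + ENNReal.ofReal (D * (1 / R) ^ N) := by
    intro a a' h1 h2
    refine add_le_add (mul_le_mul' (ENNReal.ofReal_le_ofReal ?_) le_rfl)
      (ENNReal.ofReal_le_ofReal ?_)
    · exact mul_le_mul_of_nonneg_right (mul_le_mul_of_nonneg_right h1 (by positivity))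
        (by positivity)
    · exact mul_le_mul_of_nonneg_right h2 (by positivity)
  by_cases hcase : R ^ e * max Λ √R ≤ R
  · have h1 := H1 R Λ b h hR hΛ ha hcase
    refine h1.trans ?_
    rcases le_total √R Λ with hl | hl
    · rw [max_eq_left hl] at hcase ⊢
      have h2 := H4 R Λ b h hR hl ha hcase
      have h3 := H3 p0 δ Λ b h hΛ ha
      have h4 : ∫⁻ ξ in An (m + 2) R, Sq X p0 δ (Λ / R) b ξ ^ 2 ≤
          ENNReal.ofReal (K4 * K3 * R ^ e * (Λ / R) ^ m) * I +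
            ENNReal.ofReal (K4 * (1 / R) ^ (N + 1)) := by
        refine h2.trans (add_le_add ?_ le_rfl)
        calc ENNReal.ofReal (K4 * R ^ e * (Λ / R) ^ m) * ∫⁻ p, ‖b p‖ₑ ^ 2 ≤
            ENNReal.ofReal (K4 * R ^ e * (Λ / R) ^ m) * (ENNReal.ofReal K3 * I) := by gcongr
          _ = ENNReal.ofReal (K4 * K3 * R ^ e * (Λ / R) ^ m) * I := by
              rw [← mul_assoc, ← ENNReal.ofReal_mul (by positivity)]
              congr 2
              ring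
      exact (hcomb (K4 * K3) K4 _ (by positivity) hK4 h4).trans (hfin _ _ d1 d3)
    · rw [max_eq_right hl] at hcase ⊢
      have e1 : √R / R = 1 / √R := by
        rw [div_eq_div_iff hR0.ne' hsR.ne', one_mul, Real.mul_self_sqrt hR0.le]
      rw [e1]
      have h2 := H5 R Λ b h hR hΛ hl ha
      exact (hcomb K5 K5 _ hK5 hK5 h2).trans (hfin _ _ d2 d4)
  · rw [not_le] at hcase
    have hl : √R ≤ Λ := by
      by_contra hl
      rw [not_le] at hl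
      rw [max_eq_right hl.le] at hcase
      have h1 : R ^ e * √R ≤ R := by
        rw [Real.sqrt_eq_rpow, ← Real.rpow_add hR0]
        calc R ^ (e + 1 / 2) ≤ R ^ (1 : ℝ) := Real.rpow_le_rpow_of_exponent_le hR (by linarith)
          _ = R := Real.rpow_one R
      linarith
    rw [max_eq_left hl] at hcase
    have h1 : 1 ≤ R ^ e * (Λ / R) := by
      rw [← mul_div_assoc, le_div_iff₀ hR0, one_mul]
      exact hcase.le
    have h2 : 1 ≤ R ^ (m * e) * (Λ / R) ^ m := by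
      have := one_le_pow₀ h1 (n := m)
      rw [mul_pow] at this
      have e2 : (R ^ e) ^ m = R ^ ((m : ℝ) * e) := by
        rw [← Real.rpow_natCast, ← Real.rpow_mul hR0.le, mul_comm]
      rwa [e2] at this
    have hb0 : ∀ p, ‖b p‖ ≤ V0 := fun p => (ha.norm_le hΛ p).trans_eq hV0.symm
    have h3 := H2 R b hR ha.meas ⟨V0, hb0⟩ ha.supp
    have h4 : ∫⁻ p, ‖b p‖ₑ ^ 2 ≤ ENNReal.ofReal (V0 ^ 2 * v0) := by
      have h5 : (fun p => ‖b p‖ₑ ^ 2) ≤ (closedBall p0 δ).indicator fun _ => ENNReal.ofReal (V0 ^ 2) := by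
        intro p
        by_cases hp : p ∈ closedBall p0 δ
        · rw [indicator_of_mem hp, ENNReal.ofReal_pow hV00]
          simp only
          rw [← ofReal_norm]
          gcongr
          exact hb0 p
        · rw [indicator_of_notMem hp]
          have : b p = 0 := ha.supp p (by
            rw [mem_closedBall, dist_eq_norm, not_le] at hp
            exact hp.le)
          simp [this]
      refine (lintegral_mono h5).trans ?_
      rw [lintegral_indicator measurableSet_closedBall, setLIntegral_const,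
        ENNReal.ofReal_mul (by positivity)]
      gcongr
      rw [hv0, Measure.real, ENNReal.ofReal_toReal hvol]
    have h5 := H3 p0 δ Λ b h hΛ ha
    have hsub : Sh (m + 2) R ⊆ {ξ : E (m + 2) | ‖ξ‖ ≤ 4 * R} := fun ξ hξ => by
      have := hξ.2
      simp only [mem_ofPred_eq]
      linarith
    calc ∫⁻ ξ in Sh (m + 2) R, ‖Tb X b ξ‖ₑ ^ 4 ≤
          ∫⁻ ξ in {ξ : E (m + 2) | ‖ξ‖ ≤ 4 * R}, ‖Tb X b ξ‖ₑ ^ 4 := lintegral_mono_set hsub
      _ ≤ ENNReal.ofReal (K2 * R ^ e) * (∫⁻ p, ‖b p‖ₑ ^ 2) ^ 2 := h3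
      _ ≤ ENNReal.ofReal (K2 * R ^ e) * (ENNReal.ofReal (V0 ^ 2 * v0) * (ENNReal.ofReal K3 * I)) := by
          rw [sq]
          exact mul_le_mul' le_rfl (mul_le_mul' h4 h5)
      _ = ENNReal.ofReal (K2 * R ^ e * ((V0 ^ 2 * v0) * K3)) * I := by
          rw [← mul_assoc, ← mul_assoc, ← ENNReal.ofReal_mul (by positivity),
            ← ENNReal.ofReal_mul (by positivity)]
          congr 2
          ring
      _ ≤ ENNReal.ofReal (D * R ^ ε * (Λ / R) ^ m) * I := by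
          refine mul_le_mul' (ENNReal.ofReal_le_ofReal ?_) le_rfl
          have h6 : R ^ e * (R ^ (m * e) * (Λ / R) ^ m) ≤ R ^ ε * (Λ / R) ^ m := by
            rw [← mul_assoc, ← Real.rpow_add hR0]
            refine mul_le_mul_of_nonneg_right ?_ (by positivity)
            exact Real.rpow_le_rpow_of_exponent_le hR (by nlinarith)
          calc K2 * R ^ e * (V0 ^ 2 * v0 * K3) = K2 * (V0 ^ 2 * v0) * K3 * (R ^ e * 1) := by ring
            _ ≤ K2 * (V0 ^ 2 * v0) * K3 * (R ^ e * (R ^ (m * e) * (Λ / R) ^ m)) := by gcongr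
            _ ≤ K2 * (V0 ^ 2 * v0) * K3 * (R ^ ε * (Λ / R) ^ m) := by gcongr
            _ ≤ D * (R ^ ε * (Λ / R) ^ m) := mul_le_mul_of_nonneg_right d5 (by positivity)
            _ = _ := by ring
      _ ≤ _ := le_self_add

end Pool.Agent.LF2
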