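import Pool.Agent.LF2.SQ
import Pool.Agent.LF2.ST4
import Pool.Agent.LF2.YOUNG
import Pool.Agent.LF2.CASE1
import Pool.Agent.LF2.CASE2
import Pool.Agent.LF2.CL

/-!
[LEAF2] CORE_LAM.
-/

set_option autoImplicit false

namespace Pool.Agent.LF2

open MeasureTheory Set Metric Pool.Agent.MP_6cbfb8_an Pool.Agent.LF
open scoped ENNReal Real RealInnerProductSpace ContDiff

variable {m : ℕ} {X : ℝ × E m → E (m + 2)} {p0 : ℝ × E m} {δ c C : ℝ} {A : ℕ → ℝ}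

/-- CORE_LAM. -/
theorem core_lam (hm : 1 ≤ m) (hG : Geo X p0 δ c C A) (B : ℕ → ℝ) {ε : ℝ} (hε : 0 < ε) (N : ℕ) :
    ∃ C' : ℝ, 0 ≤ C' ∧ ∀ (R Λ : ℝ) (b : ℝ × E m → ℂ) (h : ℝ × E m → ℝ), 1 ≤ R → 1 ≤ Λ →
      Λ ≤ R → Amp p0 (δ / 2) B Λ b h →
      ∫⁻ ξ in Sh (m + 2) R, ‖Tb X b ξ‖ₑ ^ 4 ≤
        ENNReal.ofReal (C' * R ^ ε * (Λ / R) ^ m) * (∫⁻ p, ENNReal.ofReal (h p ^ 2)) +
        ENNReal.ofReal (C' * (1 / R) ^ N) := by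
  have hδ := hG.hδ
  refine core_lam_of (X := X) (p0 := p0) (δ := δ / 2) B (fun ε hε N => core_sq hm hG B hε N)
    (fun ε hε => ?_) (amp_l2 B) (fun ε hε N => case2 hm hG B hε N)
    (fun ε hε N => case1 hm hG B hε N) hε N
  obtain ⟨C', hC', h⟩ := st4 hm hG hε
  refine ⟨C', hC', fun R b hR hb hM hs => h R b hR hb hM fun p hp => hs p ?_⟩
  linarith

end Pool.Agent.LF2
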