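import Pool.Agent.MP_6cbfb8_an.Defs

/-!
Functions on the unit sphere which have, in the mean, some regularity along the level sets of `φ`
and none across them.
-/

namespace Pool.Agent.LF

open MeasureTheory Set Pool.Agent.MP_6cbfb8_an
open scoped ENNReal NNReal

/-- Measurable functions `g`, bounded by `V`, such that for every `0 < r ≤ 1` there is a measurable
`h ≥ 0` with `∫ h ^ q ≤ V r ^ τ` over the unit sphere and `|g x - g y| ≤ h x + h y` whenever `x` and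
`y` are points of the unit sphere with `φ x = φ y` and `|x - y| ≤ r`. -/
def ClM {n : ℕ} (φ : E n → ℝ) (q τ V : ℝ) (g : E n → ℂ) : Prop :=
  Measurable g ∧ (∀ x, ‖g x‖ ≤ V) ∧
    ∀ r : ℝ, 0 < r → r ≤ 1 → ∃ h : E n → ℝ≥0∞, Measurable h ∧
      ∫⁻ x : S n, h x ^ q ∂(sm n) ≤ ENNReal.ofReal (V * r ^ τ) ∧
      ∀ x y, ‖x‖ = 1 → ‖y‖ = 1 → φ x = φ y → ‖x - y‖ ≤ r → ‖g x - g y‖ₑ ≤ h x + h y

end Pool.Agent.LF
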