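import Pool.Agent.LF2.ClM

/-!
The classes `ClM` for different exponents.
-/

set_option autoImplicit false

namespace Pool.Agent.LF2

open MeasureTheory Set Pool.Agent.MP_6cbfb8_an Pool.Agent.LF
open scoped ENNReal

theorem clM_nonneg {n : ℕ} {φ : E n → ℝ} {q τ V : ℝ} {g : E n → ℂ} (hg : ClM φ q τ V g) :
    0 ≤ V := (norm_nonneg _).trans (hg.2.1 0)

/-- A larger exponent `q`, a smaller exponent `τ`. -/
theorem clM_up {n : ℕ} {φ : E n → ℝ} {q q' τ τ' V : ℝ} (hq : 0 ≤ q) (hqq : q ≤ q')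
    (hττ : τ' ≤ τ) {g : E n → ℂ} (hg : ClM φ q τ V g) :
    ClM φ q' τ' (V + (2 * V) ^ (q' - q) * V) g := by
  have hV := clM_nonneg hg
  have hc : 0 ≤ (2 * V) ^ (q' - q) := Real.rpow_nonneg (by positivity) _
  refine ⟨hg.1, fun x => (hg.2.1 x).trans ?_, fun r hr hr1 => ?_⟩
  · have := mul_nonneg hc hV
    linarith
  obtain ⟨h, hm, hi, hh⟩ := hg.2.2 r hr hr1
  refine ⟨fun x => min (h x) (ENNReal.ofReal (2 * V)), hm.min measurable_const, ?_,
    fun x y hx hy hxy hr' => ?_⟩
  · calc ∫⁻ x : S n, min (h x) (ENNReal.ofReal (2 * V)) ^ q' ∂(sm n)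
        ≤ ∫⁻ x : S n, ENNReal.ofReal ((2 * V) ^ (q' - q)) * h x ^ q ∂(sm n) := by
          refine lintegral_mono fun x => ?_
          have e : q' = (q' - q) + q := by ring
          have h1 : min (h x) (ENNReal.ofReal (2 * V)) ^ q' =
              min (h x) (ENNReal.ofReal (2 * V)) ^ (q' - q) *
                min (h x) (ENNReal.ofReal (2 * V)) ^ q := by
            rw [← ENNReal.rpow_add_of_nonneg _ _ (by linarith) hq, ← e]
          simp only
          rw [h1, ← ENNReal.ofReal_rpow_of_nonneg (by positivity) (by linarith)]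
          exact mul_le_mul' (ENNReal.rpow_le_rpow (min_le_right _ _) (by linarith))
            (ENNReal.rpow_le_rpow (min_le_left _ _) hq)
      _ = ENNReal.ofReal ((2 * V) ^ (q' - q)) * ∫⁻ x : S n, h x ^ q ∂(sm n) :=
          lintegral_const_mul' _ _ ENNReal.ofReal_ne_top
      _ ≤ ENNReal.ofReal ((2 * V) ^ (q' - q)) * ENNReal.ofReal (V * r ^ τ) :=
          mul_le_mul_right hi _
      _ = ENNReal.ofReal ((2 * V) ^ (q' - q) * V * r ^ τ) := by
          rw [← ENNReal.ofReal_mul hc, mul_assoc]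
      _ ≤ _ := by
          refine ENNReal.ofReal_le_ofReal ?_
          have h2 : r ^ τ ≤ r ^ τ' := Real.rpow_le_rpow_of_exponent_ge hr hr1 hττ
          have h3 : 0 ≤ r ^ τ' := Real.rpow_nonneg hr.le _
          have h4 : (2 * V) ^ (q' - q) * V * r ^ τ ≤ (2 * V) ^ (q' - q) * V * r ^ τ' :=
            mul_le_mul_of_nonneg_left h2 (mul_nonneg hc hV)
          have h5 := mul_nonneg hV h3
          linarith
  · have h1 := hh x y hx hy hxy hr'
    have h2 : ‖g x - g y‖ₑ ≤ ENNReal.ofReal (2 * V) := by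
      rw [← ofReal_norm]
      refine ENNReal.ofReal_le_ofReal ((norm_sub_le _ _).trans ?_)
      linarith [hg.2.1 x, hg.2.1 y]
    simp only
    rcases le_total (h x) (ENNReal.ofReal (2 * V)) with h3 | h3
    · rcases le_total (h y) (ENNReal.ofReal (2 * V)) with h4 | h4
      · rwa [min_eq_left h3, min_eq_left h4]
      · rw [min_eq_right h4]
        exact h2.trans le_add_self
    · rw [min_eq_right h3]
      exact h2.trans le_self_add

/-- A smaller exponent `q`. -/
theorem clM_down {n : ℕ} {φ : E n → ℝ} {q q' τ V : ℝ} (hq : 0 < q') (hqq : q' ≤ q)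
    {g : E n → ℂ} (hg : ClM φ q τ V g) :
    ClM φ q' (τ * q' / q) (V + (sm n).real univ) g := by
  have hV := clM_nonneg hg
  have hσ : 0 ≤ (sm n).real univ := measureReal_nonneg
  have hq0 : 0 < q := hq.trans_le hqq
  refine ⟨hg.1, fun x => (hg.2.1 x).trans (by linarith), fun r hr hr1 => ?_⟩
  obtain ⟨h, hm, hi, hh⟩ := hg.2.2 r hr hr1
  refine ⟨h, hm, ?_, hh⟩
  obtain ⟨t, ht⟩ : ∃ t, t = r ^ (τ / q) := ⟨_, rfl⟩
  have ht0 : 0 < t := by
    rw [ht]
    exact Real.rpow_pos_of_pos hr _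
  have e1 : t ^ q' = r ^ (τ * q' / q) := by
    rw [ht, ← Real.rpow_mul hr.le]
    congr 1
    ring
  have e2 : t ^ (q' - q) * r ^ τ = r ^ (τ * q' / q) := by
    rw [ht, ← Real.rpow_mul hr.le, ← Real.rpow_add hr]
    congr 1
    field_simp
    ring
  have hpt : ∀ x : E n, h x ^ q' ≤ ENNReal.ofReal (t ^ (q' - q)) * h x ^ q +
      ENNReal.ofReal (t ^ q') := by
    intro x
    rcases le_total (h x) (ENNReal.ofReal t) with h1 | h1
    · refine le_trans ?_ le_add_self
      rw [← ENNReal.ofReal_rpow_of_pos ht0]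
      exact ENNReal.rpow_le_rpow h1 hq.le
    · refine le_trans ?_ le_self_add
      have h2 : ENNReal.ofReal (t ^ (q' - q)) * ENNReal.ofReal (t ^ (q - q')) = 1 := by
        rw [← ENNReal.ofReal_mul (Real.rpow_nonneg ht0.le _), ← Real.rpow_add ht0]
        simp
      calc h x ^ q' = ENNReal.ofReal (t ^ (q' - q)) *
            (ENNReal.ofReal (t ^ (q - q')) * h x ^ q') := by
            rw [← mul_assoc, h2, one_mul]
        _ ≤ ENNReal.ofReal (t ^ (q' - q)) * (h x ^ (q - q') * h x ^ q') := by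
            refine mul_le_mul_right (mul_le_mul_left ?_ _) _
            rw [← ENNReal.ofReal_rpow_of_pos ht0]
            exact ENNReal.rpow_le_rpow h1 (by linarith)
        _ = _ := by
            rw [← ENNReal.rpow_add_of_nonneg _ _ (by linarith) hq.le, sub_add_cancel]
  calc ∫⁻ x : S n, h x ^ q' ∂(sm n)
      ≤ ∫⁻ x : S n, (ENNReal.ofReal (t ^ (q' - q)) * h x ^ q + ENNReal.ofReal (t ^ q'))
          ∂(sm n) := lintegral_mono fun x => hpt x
    _ = ENNReal.ofReal (t ^ (q' - q)) * (∫⁻ x : S n, h x ^ q ∂(sm n)) +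
          ENNReal.ofReal (t ^ q') * (sm n) univ := by
        rw [lintegral_add_right _ measurable_const, lintegral_const_mul' _ _
          ENNReal.ofReal_ne_top, lintegral_const]
    _ ≤ ENNReal.ofReal (t ^ (q' - q)) * ENNReal.ofReal (V * r ^ τ) +
          ENNReal.ofReal (t ^ q') * ENNReal.ofReal ((sm n).real univ) := by
        have h8 : (sm n) univ = ENNReal.ofReal ((sm n).real univ) :=
          (ENNReal.ofReal_toReal (measure_ne_top (sm n) univ)).symm
        rw [h8]
        gcongr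
    _ = ENNReal.ofReal (t ^ (q' - q) * (V * r ^ τ) + t ^ q' * (sm n).real univ) := by
        have h1 := Real.rpow_nonneg ht0.le (q' - q)
        have h2 := Real.rpow_nonneg ht0.le q'
        have h3 := Real.rpow_nonneg hr.le τ
        rw [← ENNReal.ofReal_mul h1, ← ENNReal.ofReal_mul h2,
          ← ENNReal.ofReal_add (by positivity) (by positivity)]
    _ = _ := by
        congr 1
        rw [e1]
        linear_combination V * e2

/-- Every exponent `q ≤ p` may be replaced by one in `[2, 4)`. -/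
theorem clM_red {n : ℕ} (φ : E n → ℝ) {q τ p : ℝ} (hq : 0 < q) (hqp : q ≤ p) (hp2 : 2 ≤ p)
    (hτ : 0 < τ) (hτp : 4 - 2 * τ < p) (V : ℝ) :
    ∃ q1 τ1 V1 : ℝ, 2 ≤ q1 ∧ q1 ≤ p ∧ q1 < 4 ∧ 0 < τ1 ∧ τ1 ≤ q1 ∧ 4 - 2 * τ1 < p ∧
      ∀ g, ClM φ q τ V g → ClM φ q1 τ1 V1 g := by
  rcases lt_or_ge q 4 with h4 | h4
  · refine ⟨max q 2, min τ (max q 2), _, le_max_right _ _, max_le hqp hp2, max_lt h4 (by norm_num),
      lt_min hτ (lt_max_of_lt_left hq), min_le_right _ _, ?_, fun g hg =>
        clM_up hq.le (le_max_left _ _) (min_le_left _ _) hg⟩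
    rcases le_total τ (max q 2) with h1 | h1
    · rwa [min_eq_left h1]
    · rw [min_eq_right h1]
      have := le_max_right q 2
      linarith
  · have h3 : 0 < τ * 3 / q := by positivity
    refine ⟨3, min (τ * 3 / q) 3, _, by norm_num, by linarith, by norm_num,
      lt_min h3 (by norm_num), min_le_right _ _, ?_, fun g hg =>
        clM_up (by norm_num) le_rfl (min_le_left _ _) (clM_down (by norm_num) (by linarith) hg)⟩
    have : 0 < min (τ * 3 / q) 3 := lt_min h3 (by norm_num)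
    linarith

end Pool.Agent.LF2
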