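import Pool.Agent.LF2.ClM
import Pool.Agent.LF2.ClH

/-!
Examples of densities in the classes `ClM`: Hölder continuous functions and indicator functions.
-/

set_option autoImplicit false

namespace Pool.Agent.LF2

open MeasureTheory Set Pool.Agent.MP_6cbfb8_an Pool.Agent.LF
open scoped ENNReal

/-- Hölder continuity of order `s ≥ τ / q` along the level sets of `φ`. -/
theorem clM_of_clH {n : ℕ} (φ : E n → ℝ) {s M q τ : ℝ} (hs : 0 ≤ s) (hq : 0 ≤ q)
    (hτ : τ ≤ s * q) : ∃ V : ℝ, ∀ g : E n → ℂ, ClH φ s M g → ClM φ q τ V g := by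
  have hσ : 0 ≤ (sm n).real univ := measureReal_nonneg
  have hM0 := abs_nonneg M
  have hMq : 0 ≤ |M| ^ q := Real.rpow_nonneg hM0 q
  refine ⟨|M| + |M| ^ q * (sm n).real univ, fun g hg => ⟨hg.1, fun x => ?_,
    fun r hr hr1 => ⟨fun _ => ENNReal.ofReal (|M| * r ^ s), measurable_const, ?_,
      fun x y hx hy hxy hr' => ?_⟩⟩⟩
  · have h1 := (hg.2.1 x).trans (le_abs_self M)
    have h2 := mul_nonneg hMq hσ
    linarith
  · have h1 : (0 : ℝ) ≤ |M| * r ^ s := mul_nonneg hM0 (Real.rpow_nonneg hr.le s)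
    have h8 : (sm n) univ = ENNReal.ofReal ((sm n).real univ) :=
      (ENNReal.ofReal_toReal (measure_ne_top (sm n) univ)).symm
    rw [lintegral_const, h8, ENNReal.ofReal_rpow_of_nonneg h1 hq,
      ← ENNReal.ofReal_mul (Real.rpow_nonneg h1 q)]
    refine ENNReal.ofReal_le_ofReal ?_
    rw [Real.mul_rpow hM0 (Real.rpow_nonneg hr.le s), ← Real.rpow_mul hr.le]
    have h2 : r ^ (s * q) ≤ r ^ τ := Real.rpow_le_rpow_of_exponent_ge hr hr1 hτ
    have h3 : 0 ≤ r ^ τ := Real.rpow_nonneg hr.le τ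
    calc |M| ^ q * r ^ (s * q) * (sm n).real univ ≤ |M| ^ q * r ^ τ * (sm n).real univ := by
          gcongr
      _ ≤ _ := by
          have := mul_nonneg hM0 h3
          linarith
  · refine le_trans ?_ le_self_add
    rw [← ofReal_norm]
    refine ENNReal.ofReal_le_ofReal ((hg.2.2 x y hx hy hxy).trans ?_)
    exact mul_le_mul (le_abs_self M) (Real.rpow_le_rpow (norm_nonneg _) hr' hs)
      (Real.rpow_nonneg (norm_nonneg _) s) hM0

/-- Indicator functions of sets whose boundaries in the level sets of `φ` are small in the mean. -/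
theorem clM_indicator {n : ℕ} (φ : E n → ℝ) {q τ V : ℝ} (hq : 0 < q) {A : Set (E n)}
    (hA : MeasurableSet A) (h : ∀ r : ℝ, 0 < r → r ≤ 1 → ∃ N : Set (E n), MeasurableSet N ∧
      (sm n) ((fun x : S n => (x : E n)) ⁻¹' N) ≤ ENNReal.ofReal (V * r ^ τ) ∧
      ∀ x y, ‖x‖ = 1 → ‖y‖ = 1 → φ x = φ y → ‖x - y‖ ≤ r → x ∈ A → y ∉ A → x ∈ N ∨ y ∈ N) :
    ClM φ q τ (max V 1) (A.indicator fun _ => 1) := by
  refine ⟨measurable_const.indicator hA, fun x => ?_, fun r hr hr1 => ?_⟩
  · refine le_trans ?_ (le_max_right V 1)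
    by_cases hx : x ∈ A
    · rw [indicator_of_mem hx]
      simp
    · rw [indicator_of_notMem hx]
      simp
  obtain ⟨N, hN, hi, hh⟩ := h r hr hr1
  have key : ∀ x y, ‖x‖ = 1 → ‖y‖ = 1 → φ x = φ y → ‖x - y‖ ≤ r → x ∈ A → y ∉ A →
      (1 : ℝ≥0∞) ≤ N.indicator (fun _ => (1 : ℝ≥0∞)) x + N.indicator (fun _ => (1 : ℝ≥0∞)) y := by
    intro x y hx hy hxy hr' hxA hyA
    rcases hh x y hx hy hxy hr' hxA hyA with h1 | h1
    · rw [indicator_of_mem h1]
      exact le_self_add
    · rw [indicator_of_mem h1]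
      exact le_add_self
  refine ⟨N.indicator fun _ => 1, measurable_const.indicator hN, ?_,
    fun x y hx hy hxy hr' => ?_⟩
  · have e : (fun x : S n => N.indicator (fun _ => (1 : ℝ≥0∞)) (x : E n) ^ q) =
        ((fun x : S n => (x : E n)) ⁻¹' N).indicator fun _ => 1 := by
      funext x
      by_cases hx : (x : E n) ∈ N
      · rw [indicator_of_mem hx, indicator_of_mem (by exact hx), ENNReal.one_rpow]
      · rw [indicator_of_notMem hx, indicator_of_notMem (by exact hx),
          ENNReal.zero_rpow_of_pos hq]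
    rw [e, lintegral_indicator (measurable_subtype_coe hN), setLIntegral_const, one_mul]
    refine hi.trans (ENNReal.ofReal_le_ofReal ?_)
    exact mul_le_mul_of_nonneg_right (le_max_left V 1) (Real.rpow_nonneg hr.le τ)
  · by_cases hxA : x ∈ A
    · by_cases hyA : y ∈ A
      · rw [indicator_of_mem hxA, indicator_of_mem hyA, sub_self, enorm_zero]
        exact zero_le
      · rw [indicator_of_mem hxA, indicator_of_notMem hyA, sub_zero]
        refine le_trans (by simp) (key x y hx hy hxy hr' hxA hyA)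
    · by_cases hyA : y ∈ A
      · rw [indicator_of_notMem hxA, indicator_of_mem hyA, zero_sub, enorm_neg, add_comm]
        refine le_trans (by simp) (key y x hy hx hxy.symm (by rwa [norm_sub_rev]) hyA hxA)
      · rw [indicator_of_notMem hxA, indicator_of_notMem hyA, sub_self, enorm_zero]
        exact zero_le

end Pool.Agent.LF2
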