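import Pool.Agent.LF.GLUE
import Pool.Agent.LF2.ClH

/-!
Gluing, for classes of functions which are stable under multiplication by smooth functions.
-/

namespace Pool.Agent.LF2

open MeasureTheory Set Pool.Agent.MP_6cbfb8_an Pool.Agent.LF
open scoped ENNReal Real RealInnerProductSpace ContDiff Topology

/-- Bound for the functions of all the classes `𝒞 M` which are zero on the sphere outside `U`. -/
def GB {n : ℕ} {ι : Type*} (𝒞 : ι → (E n → ℂ) → Prop) (p : ℝ) (U : Set (E n)) : Prop :=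
  ∀ M : ι, ∃ C : ℝ≥0∞, C ≠ ⊤ ∧ ∀ g, 𝒞 M g → (∀ x, ‖x‖ = 1 → x ∉ U → g x = 0) →
    ∫⁻ ξ, ‖extn g ξ‖ₑ ^ p ≤ C

theorem GB.mono {n : ℕ} {ι : Type*} {𝒞 : ι → (E n → ℂ) → Prop} {p : ℝ} {U V : Set (E n)}
    (h : GB 𝒞 p U) (hVU : V ⊆ U) : GB 𝒞 p V := by
  intro M
  obtain ⟨C, hC, h'⟩ := h M
  exact ⟨C, hC, fun g hg h0 => h' g hg fun x hx hxU => h0 x hx fun hxV => hxU (hVU hxV)⟩

theorem gb_empty {n : ℕ} {ι : Type*} (𝒞 : ι → (E n → ℂ) → Prop) {p : ℝ} (hp : 0 < p) :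
    GB 𝒞 p ∅ := by
  intro M
  refine ⟨0, ENNReal.zero_ne_top, fun g _ hg => ?_⟩
  have h : ∀ ξ, extn g ξ = 0 := by
    intro ξ
    rw [lf_extn_congr (g := fun _ => 0) (fun x hx => hg x hx (notMem_empty x))]
    unfold extn
    simp
  simp [h, ENNReal.zero_rpow_of_pos hp]

/-- Stable under multiplication by smooth functions. -/
def Stab {n : ℕ} {ι : Type*} (𝒞 : ι → (E n → ℂ) → Prop) : Prop :=
  ∀ χ : E n → ℝ, ContDiff ℝ ∞ χ → HasCompactSupport χ → (∀ x, 0 ≤ χ x ∧ χ x ≤ 1) →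
    ∀ M, ∃ M' M'', ∀ g, 𝒞 M g → 𝒞 M' (fun x => χ x • g x) ∧ 𝒞 M'' (fun x => g x - χ x • g x)

theorem gb_union {n : ℕ} {ι : Type*} {𝒞 : ι → (E n → ℂ) → Prop}
    (hm : ∀ M g, 𝒞 M g → Measurable g) (hb : ∀ M g, 𝒞 M g → ∃ b : ℝ, ∀ x, ‖g x‖ ≤ b)
    (hst : Stab 𝒞) {p : ℝ} (hp : 1 ≤ p) {L₁ V₁ W₂ : Set (E n)} (hL₁ : IsCompact L₁)
    (hV₁ : IsOpen V₁) (hLV₁ : L₁ ⊆ V₁) (h₁ : GB 𝒞 p V₁) (h₂ : GB 𝒞 p W₂) :
    GB 𝒞 p (L₁ ∪ W₂) := by
  obtain ⟨L, hL, hL₁L, hLV⟩ := exists_compact_between hL₁ hV₁ hLV₁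
  obtain ⟨χ', hχ0, hχ1, hχ⟩ := exists_contMDiffMap_zero_one_of_isClosed (n := (⊤ : ℕ∞))
    (modelWithCornersSelf ℝ (E n))
    (s := (interior L)ᶜ) (t := L₁) isOpen_interior.isClosed_compl hL₁.isClosed
    (disjoint_left.2 fun x hx hx' => hx (hL₁L hx'))
  set χ : E n → ℝ := fun x => χ' x with hχd
  have hχs : ContDiff ℝ ∞ χ := χ'.contMDiff.contDiff
  have hχsupp : ∀ x, x ∉ L → χ x = 0 := fun x hx => hχ0 fun h => hx (interior_subset h)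
  have hcomp : HasCompactSupport χ := HasCompactSupport.intro hL hχsupp
  intro M
  obtain ⟨M₁, M₂, hM⟩ := hst χ hχs hcomp (fun x => hχ x) M
  obtain ⟨C₁, hC₁, hb₁⟩ := h₁ M₁
  obtain ⟨C₂, hC₂, hb₂⟩ := h₂ M₂
  refine ⟨2 ^ (p - 1) * (C₁ + C₂), ?_, fun g hg hg0 => ?_⟩
  · exact ENNReal.mul_ne_top (ENNReal.rpow_ne_top_of_nonneg (by linarith) (by simp))
      (ENNReal.add_ne_top.2 ⟨hC₁, hC₂⟩)
  obtain ⟨hr₁, hr₂⟩ := hM g hg
  have hm₁ := hm _ _ hr₁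
  have hm₂ := hm _ _ hr₂
  obtain ⟨b₁, hbb₁⟩ := hb _ _ hr₁
  obtain ⟨b₂, hbb₂⟩ := hb _ _ hr₂
  have h0₁ : ∀ x, ‖x‖ = 1 → x ∉ V₁ → χ x • g x = 0 := by
    intro x _ hx
    rw [hχsupp x fun h => hx (hLV h), zero_smul]
  have h0₂ : ∀ x, ‖x‖ = 1 → x ∉ W₂ → g x - χ x • g x = 0 := by
    intro x hx1 hx
    by_cases hx₁ : x ∈ L₁
    · have h1 : χ x = 1 := hχ1 hx₁
      rw [h1, one_smul, sub_self]
    · rw [hg0 x hx1 fun h => h.elim hx₁ hx, smul_zero, sub_self]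
  have hsum : ∀ ξ, extn g ξ =
      extn (fun x => χ x • g x) ξ + extn (fun x => g x - χ x • g x) ξ := by
    intro ξ
    unfold extn
    rw [← integral_add (lf_integrable_extn hm₁ hbb₁ ξ) (lf_integrable_extn hm₂ hbb₂ ξ)]
    refine integral_congr_ae (Filter.Eventually.of_forall fun x => ?_)
    simp only
    ring
  calc ∫⁻ ξ, ‖extn g ξ‖ₑ ^ p
      ≤ ∫⁻ ξ, 2 ^ (p - 1) * (‖extn (fun x => χ x • g x) ξ‖ₑ ^ p +
          ‖extn (fun x => g x - χ x • g x) ξ‖ₑ ^ p) := by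
        refine lintegral_mono fun ξ => ?_
        rw [hsum]
        refine (ENNReal.rpow_le_rpow (enorm_add_le _ _) (by linarith)).trans ?_
        exact ENNReal.rpow_add_le_mul_rpow_add_rpow _ _ hp
    _ = 2 ^ (p - 1) * ((∫⁻ ξ, ‖extn (fun x => χ x • g x) ξ‖ₑ ^ p) +
          ∫⁻ ξ, ‖extn (fun x => g x - χ x • g x) ξ‖ₑ ^ p) := by
        rw [lintegral_const_mul', lintegral_add_left]
        · exact (STAux.measurable_extn _ hm₁).enorm.pow_const p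
        · exact ENNReal.rpow_ne_top_of_nonneg (by linarith) (by simp)
    _ ≤ _ := mul_le_mul_right (add_le_add (hb₁ _ hr₁ h0₁) (hb₂ _ hr₂ h0₂)) _

/-- From the neighbourhoods of the points of a compact set to a neighbourhood of the compact
set, for a family of classes and exponents at a time. -/
theorem gb_compact {n : ℕ} {ι J : Type*} {𝒞 : J → ι → (E n → ℂ) → Prop} {p : J → ℝ}
    (hp : ∀ j, 1 ≤ p j) (hm : ∀ j M g, 𝒞 j M g → Measurable g)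
    (hb : ∀ j M g, 𝒞 j M g → ∃ b : ℝ, ∀ x, ‖g x‖ ≤ b) (hst : ∀ j, Stab (𝒞 j))
    {K : Set (E n)} (hK : IsCompact K)
    (hloc : ∀ x ∈ K, ∃ U, IsOpen U ∧ x ∈ U ∧ ∀ j, GB (𝒞 j) (p j) U) :
    ∃ U, IsOpen U ∧ K ⊆ U ∧ ∀ j, GB (𝒞 j) (p j) U := by
  have key : ∃ L, IsCompact L ∧ K ⊆ L ∧ ∃ U, IsOpen U ∧ L ⊆ U ∧ ∀ j, GB (𝒞 j) (p j) U := by
    refine hK.induction_on (p := fun s => ∃ L, IsCompact L ∧ s ⊆ L ∧ ∃ U, IsOpen U ∧ L ⊆ U ∧
      ∀ j, GB (𝒞 j) (p j) U) ?_ ?_ ?_ ?_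
    · exact ⟨∅, isCompact_empty, subset_rfl, ∅, isOpen_empty, subset_rfl,
        fun j => gb_empty _ (by linarith [hp j])⟩
    · rintro s t hst ⟨L, hL, htL, h⟩
      exact ⟨L, hL, hst.trans htL, h⟩
    · rintro s t ⟨L₁, hL₁, hs, V₁, hV₁, hLV₁, h₁⟩ ⟨L₂, hL₂, ht, V₂, hV₂, hLV₂, h₂⟩
      obtain ⟨L, hL, hL₁L, hLV⟩ := exists_compact_between hL₁ hV₁ hLV₁
      refine ⟨L₁ ∪ L₂, hL₁.union hL₂, union_subset_union hs ht, interior L ∪ V₂,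
        isOpen_interior.union hV₂, union_subset_union hL₁L hLV₂, fun j => ?_⟩
      exact (gb_union (hm j) (hb j) (hst j) (hp j) hL hV₁ hLV (h₁ j) (h₂ j)).mono
        (union_subset_union_left _ interior_subset)
    · intro x hx
      obtain ⟨U, hU, hxU, h⟩ := hloc x hx
      obtain ⟨L, hL, hxL, hLU⟩ := exists_compact_subset hU hxU
      exact ⟨L, mem_nhdsWithin_of_mem_nhds (mem_interior_iff_mem_nhds.1 hxL), L, hL, subset_rfl,
        U, hU, hLU, h⟩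
  obtain ⟨L, -, hKL, U, hU, hLU, h⟩ := key
  exact ⟨U, hU, hKL.trans hLU, h⟩

/-! ## Functions which are Hölder continuous along the leaves -/

/-- A smooth function with compact support is a Lipschitz function. -/
theorem exists_lip {n : ℕ} {χ : E n → ℝ} (hχ : ContDiff ℝ ∞ χ) (hc : HasCompactSupport χ) :
    ∃ A : ℝ, 0 ≤ A ∧ ∀ x y, |χ x - χ y| ≤ A * ‖x - y‖ := by
  obtain ⟨K, hK⟩ := hχ.lipschitzWith_of_hasCompactSupport hc (by simp)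
  exact ⟨K, K.2, fun x y => by simpa [dist_eq_norm, Real.norm_eq_abs] using hK.dist_le_mul x y⟩

theorem sphere_pow {n : ℕ} {x y : E n} (hx : ‖x‖ = 1) (hy : ‖y‖ = 1) {s : ℝ} (hs : 0 ≤ s)
    (hs1 : s ≤ 1) : ‖x - y‖ ≤ 2 * ‖x - y‖ ^ s := by
  have h2 : ‖x - y‖ ≤ 2 := by
    calc ‖x - y‖ ≤ ‖x‖ + ‖y‖ := norm_sub_le _ _
      _ = 2 := by rw [hx, hy]; norm_num
  rcases (norm_nonneg (x - y)).eq_or_lt with h0 | h0
  · rw [← h0]
    positivity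
  rcases le_total ‖x - y‖ 1 with h1 | h1
  · have h3 : ‖x - y‖ ^ (1 : ℝ) ≤ ‖x - y‖ ^ s := Real.rpow_le_rpow_of_exponent_ge h0 h1 hs1
    rw [Real.rpow_one] at h3
    linarith [Real.rpow_nonneg (norm_nonneg (x - y)) s]
  · have h3 : (1 : ℝ) ≤ ‖x - y‖ ^ s := Real.one_le_rpow h1 hs
    linarith

theorem clH_smul {n : ℕ} {φ : E n → ℝ} {s M : ℝ} (hs : 0 ≤ s) (hs1 : s ≤ 1) {g : E n → ℂ}
    (hg : ClH φ s M g) {χ : E n → ℝ} (hχm : Measurable χ) (hχ : ∀ x, 0 ≤ χ x ∧ χ x ≤ 1) {A : ℝ}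
    (hA : 0 ≤ A) (hL : ∀ x y, |χ x - χ y| ≤ A * ‖x - y‖) :
    ClH φ s (M + 2 * (A * M)) fun x => χ x • g x := by
  obtain ⟨hgm, hgb, hgh⟩ := hg
  have hM : 0 ≤ M := (norm_nonneg _).trans (hgb 0)
  refine ⟨hχm.smul hgm, fun x => ?_, fun x y hx hy hxy => ?_⟩
  · rw [norm_smul, Real.norm_eq_abs, abs_of_nonneg (hχ x).1]
    have h1 : χ x * ‖g x‖ ≤ 1 * M := mul_le_mul (hχ x).2 (hgb x) (norm_nonneg _) zero_le_one
    have h2 : 0 ≤ A * M := by positivity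
    linarith
  · have h1 : χ x • g x - χ y • g y = χ x • (g x - g y) + (χ x - χ y) • g y := by
      rw [smul_sub, sub_smul]
      abel
    have h2 := sphere_pow hx hy hs hs1
    have h3 := hgh x y hx hy hxy
    have h4 := hL x y
    have h5 := hgb y
    have h6 : 0 ≤ ‖x - y‖ ^ s := Real.rpow_nonneg (norm_nonneg _) _
    rw [h1]
    calc ‖χ x • (g x - g y) + (χ x - χ y) • g y‖
        ≤ ‖χ x • (g x - g y)‖ + ‖(χ x - χ y) • g y‖ := norm_add_le _ _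
      _ = χ x * ‖g x - g y‖ + |χ x - χ y| * ‖g y‖ := by
          rw [norm_smul, norm_smul, Real.norm_eq_abs, Real.norm_eq_abs, abs_of_nonneg (hχ x).1]
      _ ≤ 1 * (M * ‖x - y‖ ^ s) + A * (2 * ‖x - y‖ ^ s) * M := by
          gcongr
          · exact (hχ x).2
          · exact h4.trans (by gcongr)
      _ = (M + 2 * (A * M)) * ‖x - y‖ ^ s := by ring

theorem clH_sub {n : ℕ} {φ : E n → ℝ} {s M M' : ℝ} {g h : E n → ℂ} (hg : ClH φ s M g)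
    (hh : ClH φ s M' h) : ClH φ s (M + M') fun x => g x - h x := by
  refine ⟨hg.1.sub hh.1, fun x => ?_, fun x y hx hy hxy => ?_⟩
  · exact (norm_sub_le _ _).trans (add_le_add (hg.2.1 x) (hh.2.1 x))
  · have h1 := hg.2.2 x y hx hy hxy
    have h2 := hh.2.2 x y hx hy hxy
    calc ‖g x - h x - (g y - h y)‖ = ‖(g x - g y) - (h x - h y)‖ := by congr 1; ring
      _ ≤ ‖g x - g y‖ + ‖h x - h y‖ := norm_sub_le _ _
      _ ≤ M * ‖x - y‖ ^ s + M' * ‖x - y‖ ^ s := add_le_add h1 h2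
      _ = (M + M') * ‖x - y‖ ^ s := by ring

theorem stab_clH {n : ℕ} (φ : E n → ℝ) {s : ℝ} (hs : 0 ≤ s) (hs1 : s ≤ 1) :
    Stab fun M => ClH φ s M := by
  intro χ hχ hc hχ1 M
  obtain ⟨A, hA, hL⟩ := exists_lip hχ hc
  refine ⟨M + 2 * (A * M), M + (M + 2 * (A * M)), fun g hg => ?_⟩
  have h1 := clH_smul hs hs1 hg hχ.continuous.measurable hχ1 hA hL
  exact ⟨h1, clH_sub hg h1⟩

/-- The statement at a point: Hölder continuity along the leaves. -/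
def LeafH (n : ℕ) : Prop :=
  ∀ (φ : E n → ℝ) (x0 : E n), ‖x0‖ = 1 → (∀ᶠ x in 𝓝 x0, ContDiffAt ℝ ∞ φ x) → Cyc φ x0 →
    ∃ U, IsOpen U ∧ x0 ∈ U ∧ ∀ s p : ℝ, 0 < s → 2 * (n : ℝ) / (n - 1) < p →
      4 / (1 + 2 * s) < p → ∀ M : ℝ, ∃ C : ℝ≥0∞, C ≠ ⊤ ∧ ∀ g, ClH φ s M g →
        (∀ x, ‖x‖ = 1 → x ∉ U → g x = 0) → ∫⁻ ξ, ‖extn g ξ‖ₑ ^ p ≤ C

theorem clH_ge_one {n : ℕ} {φ : E n → ℝ} {s M : ℝ} (hs : 1 ≤ s) {g : E n → ℂ}
    (h : ClH φ s M g) : ClH φ 1 (M * 2 ^ s) g := by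
  obtain ⟨h1, h2, h3⟩ := h
  have hM : 0 ≤ M := (norm_nonneg _).trans (h2 0)
  have h2s : (1 : ℝ) ≤ 2 ^ s := Real.one_le_rpow (by norm_num) (by linarith)
  refine ⟨h1, fun x => (h2 x).trans (le_mul_of_one_le_right hM h2s), fun x y hx hy hxy => ?_⟩
  have h4 : ‖x - y‖ ≤ 2 := by
    calc ‖x - y‖ ≤ ‖x‖ + ‖y‖ := norm_sub_le x y
      _ = 2 := by rw [hx, hy]; norm_num
  have h5 : ‖x - y‖ ^ s ≤ 2 ^ s * ‖x - y‖ ^ (1 : ℝ) := by
    have h6 : ‖x - y‖ ^ s = 2 ^ s * (‖x - y‖ / 2) ^ s := by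
      rw [← Real.mul_rpow (by norm_num) (by positivity)]
      congr 1
      ring
    rw [h6]
    refine mul_le_mul_of_nonneg_left ?_ (by positivity)
    calc (‖x - y‖ / 2) ^ s ≤ (‖x - y‖ / 2) ^ (1 : ℝ) :=
          Real.rpow_le_rpow_of_exponent_ge' (by positivity) (by linarith) (by norm_num) hs
      _ ≤ ‖x - y‖ ^ (1 : ℝ) := by
          rw [Real.rpow_one, Real.rpow_one]
          linarith [norm_nonneg (x - y)]
  calc ‖g x - g y‖ ≤ M * ‖x - y‖ ^ s := h3 x y hx hy hxy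
    _ ≤ M * (2 ^ s * ‖x - y‖ ^ (1 : ℝ)) := by gcongr
    _ = _ := by ring

/-- Compact sets of points where the condition holds: one neighbourhood of the compact set and one
constant for all functions of the class. -/
theorem glueH {n : ℕ} (hn : 3 ≤ n) (H : LeafH n) (φ : E n → ℝ) {K : Set (E n)} (hK : IsCompact K)
    (hc : ∀ x ∈ K, ‖x‖ = 1 ∧ (∀ᶠ y in 𝓝 x, ContDiffAt ℝ ∞ φ y) ∧ Cyc φ x) :
    ∃ U, IsOpen U ∧ K ⊆ U ∧ ∀ s p : ℝ, 0 < s → 2 * (n : ℝ) / (n - 1) < p →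
      4 / (1 + 2 * s) < p → ∀ M : ℝ, ∃ C : ℝ≥0∞, C ≠ ⊤ ∧ ∀ g, ClH φ s M g →
        (∀ x, ‖x‖ = 1 → x ∉ U → g x = 0) → ∫⁻ ξ, ‖extn g ξ‖ₑ ^ p ≤ C := by
  have hn3 : (3 : ℝ) ≤ n := by exact_mod_cast hn
  have h2 : (2 : ℝ) ≤ 2 * (n : ℝ) / (n - 1) := by
    rw [le_div_iff₀ (by linarith)]
    linarith
  obtain ⟨U, hU, hKU, h⟩ := gb_compact (n := n) (ι := ℝ)
    (J := {q : ℝ × ℝ // 0 < q.1 ∧ q.1 ≤ 1 ∧ 2 * (n : ℝ) / (n - 1) < q.2 ∧
      4 / (1 + 2 * q.1) < q.2})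
    (𝒞 := fun j M => ClH φ j.1.1 M) (p := fun j => j.1.2)
    (fun j => by linarith [j.2.2.2.1]) (fun j M g hg => hg.1) (fun j M g hg => ⟨M, hg.2.1⟩)
    (fun j => stab_clH φ j.2.1.le j.2.2.1) hK fun x hx => by
      obtain ⟨U, hU, hxU, h⟩ := H φ x (hc x hx).1 (hc x hx).2.1 (hc x hx).2.2
      exact ⟨U, hU, hxU, fun j => h j.1.1 j.1.2 j.2.1 j.2.2.2.1 j.2.2.2.2⟩
  refine ⟨U, hU, hKU, fun s p hs hp hp' M => ?_⟩
  rcases le_total s 1 with hs1 | hs1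
  · exact h ⟨(s, p), hs, hs1, hp, hp'⟩ M
  · obtain ⟨C, hC, h'⟩ := h ⟨(1, p), by norm_num, le_rfl, hp, by
      have h3 : (4 : ℝ) / (1 + 2 * 1) < 2 := by norm_num
      linarith⟩ (M * 2 ^ s)
    exact ⟨C, hC, fun g hg h0 => h' g (clH_ge_one hs1 hg) h0⟩

/-! ## Functions of bounded variation along the leaves -/

theorem var_le {h k : ℝ → ℂ} {a V L : ℝ} (ha : 0 ≤ a) (hV : 0 ≤ V) (hL : 0 ≤ L)
    (hk : eVariationOn k (Icc 0 1) ≤ ENNReal.ofReal V)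
    (hh : ∀ u v, u ∈ Icc (0 : ℝ) 1 → v ∈ Icc (0 : ℝ) 1 → u ≤ v →
      ‖h v - h u‖ ≤ a * ‖k v - k u‖ + L * (v - u)) :
    eVariationOn h (Icc 0 1) ≤ ENNReal.ofReal (a * V + L) := by
  refine iSup_le fun ⟨N, ⟨u, hu, ust⟩⟩ => ?_
  have h1 : ∀ i, edist (h (u (i + 1))) (h (u i)) ≤
      ENNReal.ofReal a * edist (k (u (i + 1))) (k (u i)) +
        ENNReal.ofReal (L * (u (i + 1) - u i)) := by
    intro i
    rw [edist_dist, edist_dist, dist_eq_norm, dist_eq_norm, ← ENNReal.ofReal_mul ha,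
      ← ENNReal.ofReal_add (by positivity)
        (mul_nonneg hL (sub_nonneg.2 (hu (Nat.le_succ i))))]
    exact ENNReal.ofReal_le_ofReal (hh _ _ (ust i) (ust (i + 1)) (hu (Nat.le_succ i)))
  have h2 : ∑ i ∈ Finset.range N, ENNReal.ofReal (L * (u (i + 1) - u i)) ≤ ENNReal.ofReal L := by
    rw [← ENNReal.ofReal_sum_of_nonneg
      (fun i _ => mul_nonneg hL (sub_nonneg.2 (hu (Nat.le_succ i)))), ← Finset.mul_sum,
      Finset.sum_range_sub]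
    refine ENNReal.ofReal_le_ofReal ?_
    have h3 := (ust N).2
    have h4 := (ust 0).1
    nlinarith
  calc ∑ i ∈ Finset.range N, edist (h (u (i + 1))) (h (u i))
      ≤ ∑ i ∈ Finset.range N, (ENNReal.ofReal a * edist (k (u (i + 1))) (k (u i)) +
        ENNReal.ofReal (L * (u (i + 1) - u i))) := Finset.sum_le_sum fun i _ => h1 i
    _ = ENNReal.ofReal a * ∑ i ∈ Finset.range N, edist (k (u (i + 1))) (k (u i)) +
        ∑ i ∈ Finset.range N, ENNReal.ofReal (L * (u (i + 1) - u i)) := by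
        rw [Finset.sum_add_distrib, Finset.mul_sum]
    _ ≤ ENNReal.ofReal a * ENNReal.ofReal V + ENNReal.ofReal L := by
        refine add_le_add (mul_le_mul_right ?_ _) h2
        exact (eVariationOn.sum_le hu ust).trans hk
    _ = ENNReal.ofReal (a * V + L) := by
        rw [← ENNReal.ofReal_mul ha, ← ENNReal.ofReal_add (mul_nonneg ha hV) hL]

theorem clV_smul {n : ℕ} {φ : E n → ℝ} {V : ℝ} {g : E n → ℂ} (hg : ClV φ V g) {χ : E n → ℝ}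
    (hχm : Measurable χ) (hχ : ∀ x, 0 ≤ χ x ∧ χ x ≤ 1) {A : ℝ} (hA : 0 ≤ A)
    (hL : ∀ x y, |χ x - χ y| ≤ A * ‖x - y‖) : ClV φ (V + A * V) fun x => χ x • g x := by
  obtain ⟨hgm, hgb, hgv⟩ := hg
  have hV : 0 ≤ V := (norm_nonneg _).trans (hgb 0)
  refine ⟨hχm.smul hgm, fun x => ?_, fun γ hγ hinj hS => ?_⟩
  · rw [norm_smul, Real.norm_eq_abs, abs_of_nonneg (hχ x).1]
    have h1 : χ x * ‖g x‖ ≤ 1 * V := mul_le_mul (hχ x).2 (hgb x) (norm_nonneg _) zero_le_one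
    have h2 : 0 ≤ A * V := by positivity
    linarith
  · have h1 := var_le (h := fun u => χ (γ u) • g (γ u)) (k := fun u => g (γ u)) zero_le_one hV
      (mul_nonneg hA hV) (hgv γ hγ hinj hS) (fun u v _ _ huv => ?_)
    · rwa [one_mul] at h1
    · have h2 : χ (γ v) • g (γ v) - χ (γ u) • g (γ u) =
          χ (γ v) • (g (γ v) - g (γ u)) + (χ (γ v) - χ (γ u)) • g (γ u) := by
        rw [smul_sub, sub_smul]
        abel
      have h3 : ‖γ v - γ u‖ ≤ v - u := by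
        have h4 := hγ.dist_le_mul v u
        rw [dist_eq_norm, dist_eq_norm, Real.norm_eq_abs, abs_of_nonneg (sub_nonneg.2 huv)] at h4
        simpa using h4
      have h5 := hL (γ v) (γ u)
      have h6 := hgb (γ u)
      rw [h2]
      calc ‖χ (γ v) • (g (γ v) - g (γ u)) + (χ (γ v) - χ (γ u)) • g (γ u)‖
          ≤ ‖χ (γ v) • (g (γ v) - g (γ u))‖ + ‖(χ (γ v) - χ (γ u)) • g (γ u)‖ := norm_add_le _ _
        _ = χ (γ v) * ‖g (γ v) - g (γ u)‖ + |χ (γ v) - χ (γ u)| * ‖g (γ u)‖ := by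
            rw [norm_smul, norm_smul, Real.norm_eq_abs, Real.norm_eq_abs, abs_of_nonneg (hχ _).1]
        _ ≤ 1 * ‖g (γ v) - g (γ u)‖ + A * (v - u) * V := by
            gcongr
            · exact (hχ _).2
            · exact h5.trans (by gcongr)
        _ = 1 * ‖g (γ v) - g (γ u)‖ + A * V * (v - u) := by ring

theorem clV_sub {n : ℕ} {φ : E n → ℝ} {V V' : ℝ} {g h : E n → ℂ} (hg : ClV φ V g)
    (hh : ClV φ V' h) : ClV φ (V + V') fun x => g x - h x := by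
  have hV : 0 ≤ V := (norm_nonneg _).trans (hg.2.1 0)
  have hV' : 0 ≤ V' := (norm_nonneg _).trans (hh.2.1 0)
  refine ⟨hg.1.sub hh.1, fun x => ?_, fun γ hγ hinj hS => ?_⟩
  · exact (norm_sub_le _ _).trans (add_le_add (hg.2.1 x) (hh.2.1 x))
  · refine iSup_le fun ⟨N, ⟨u, hu, ust⟩⟩ => ?_
    have h1 := (eVariationOn.sum_le (n := N) hu ust).trans (hg.2.2 γ hγ hinj hS)
    have h2 := (eVariationOn.sum_le (n := N) hu ust).trans (hh.2.2 γ hγ hinj hS)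
    calc ∑ i ∈ Finset.range N, edist (g (γ (u (i + 1))) - h (γ (u (i + 1))))
          (g (γ (u i)) - h (γ (u i)))
        ≤ ∑ i ∈ Finset.range N, (edist (g (γ (u (i + 1)))) (g (γ (u i))) +
          edist (h (γ (u (i + 1)))) (h (γ (u i)))) := by
          refine Finset.sum_le_sum fun i _ => ?_
          rw [edist_dist, edist_dist, edist_dist, dist_eq_norm, dist_eq_norm, dist_eq_norm,
            ← ENNReal.ofReal_add (norm_nonneg _) (norm_nonneg _)]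
          refine ENNReal.ofReal_le_ofReal ?_
          calc _ = ‖(g (γ (u (i + 1))) - g (γ (u i))) - (h (γ (u (i + 1))) - h (γ (u i)))‖ := by
                congr 1
                ring
            _ ≤ _ := norm_sub_le _ _
      _ ≤ ENNReal.ofReal V + ENNReal.ofReal V' := by
          rw [Finset.sum_add_distrib]
          exact add_le_add h1 h2
      _ = ENNReal.ofReal (V + V') := (ENNReal.ofReal_add hV hV').symm

theorem stab_clV {n : ℕ} (φ : E n → ℝ) : Stab fun V => ClV φ V := by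
  intro χ hχ hc hχ1 V
  obtain ⟨A, hA, hL⟩ := exists_lip hχ hc
  refine ⟨V + A * V, V + (V + A * V), fun g hg => ?_⟩
  have h1 := clV_smul hg hχ.continuous.measurable hχ1 hA hL
  exact ⟨h1, clV_sub hg h1⟩

/-- The statement at a point of the unit sphere of `R^3`: variation along the leaves. -/
def LeafV : Prop :=
  ∀ (φ : E 3 → ℝ) (x0 : E 3), ‖x0‖ = 1 → (∀ᶠ x in 𝓝 x0, ContDiffAt ℝ ∞ φ x) → Cyc φ x0 →
    ∃ U, IsOpen U ∧ x0 ∈ U ∧ ∀ p : ℝ, 3 < p → ∀ V : ℝ, ∃ C : ℝ≥0∞, C ≠ ⊤ ∧ ∀ g, ClV φ V g →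
      (∀ x, ‖x‖ = 1 → x ∉ U → g x = 0) → ∫⁻ ξ, ‖extn g ξ‖ₑ ^ p ≤ C

/-- Compact sets of points where the condition holds, variation along the leaves. -/
theorem glueV (H : LeafV) (φ : E 3 → ℝ) {K : Set (E 3)} (hK : IsCompact K)
    (hc : ∀ x ∈ K, ‖x‖ = 1 ∧ (∀ᶠ y in 𝓝 x, ContDiffAt ℝ ∞ φ y) ∧ Cyc φ x) :
    ∃ U, IsOpen U ∧ K ⊆ U ∧ ∀ p : ℝ, 3 < p → ∀ V : ℝ, ∃ C : ℝ≥0∞, C ≠ ⊤ ∧ ∀ g, ClV φ V g →
      (∀ x, ‖x‖ = 1 → x ∉ U → g x = 0) → ∫⁻ ξ, ‖extn g ξ‖ₑ ^ p ≤ C := by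
  obtain ⟨U, hU, hKU, h⟩ := gb_compact (n := 3) (ι := ℝ) (J := {p : ℝ // 3 < p})
    (𝒞 := fun _ V => ClV φ V) (p := fun j => j.1)
    (fun j => by linarith [j.2]) (fun j M g hg => hg.1) (fun j M g hg => ⟨M, hg.2.1⟩)
    (fun j => stab_clV φ) hK fun x hx => by
      obtain ⟨U, hU, hxU, h⟩ := H φ x (hc x hx).1 (hc x hx).2.1 (hc x hx).2.2
      exact ⟨U, hU, hxU, fun j => h j.1 j.2⟩
  exact ⟨U, hU, hKU, fun p hp => h ⟨p, hp⟩⟩

end Pool.Agent.LF2
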