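import Pool.Agent.LF.GLUE
import Pool.Agent.MP_6cbfb8_an.Super

/-!
Superpositions of densities of a class, with a bound different from one.
-/

set_option autoImplicit false

namespace Pool.Agent.LF

open MeasureTheory Set Pool.Agent.MP_6cbfb8_an
open scoped ENNReal Real RealInnerProductSpace

/-- Superpositions: an estimate for the measurable functions of a class which are bounded by `M`
holds for their superpositions. -/
theorem mix_le {n : ℕ} {p : ℝ} (hp : 1 ≤ p) {C : ℝ≥0∞} {M : ℝ} (hM : 0 < M)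
    (cls : (E n → ℂ) → Prop)
    (H : ∀ g : E n → ℂ, Measurable g → (∀ x, ‖g x‖ ≤ M) → cls g → ∫⁻ ξ, ‖extn g ξ‖ₑ ^ p ≤ C)
    {W : Type*} [MeasurableSpace W] (ν : Measure W) [IsFiniteMeasure ν]
    (R : W → (E n ≃ₗᵢ[ℝ] E n)) (η : W → E n) (h : W → E n → ℂ)
    (hR : Measurable fun q : W × E n => R q.1 q.2) (hη : Measurable η)
    (hh : Measurable (Function.uncurry h)) (hb : ∀ w x, ‖h w x‖ ≤ M) (hc : ∀ w, cls (h w)) :
    ∫⁻ ξ, ‖extn (mix ν R η h) ξ‖ₑ ^ p ≤ C * ν univ ^ p := by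
  have hp0 : 0 ≤ p := by linarith
  set c : ℂ := ((M⁻¹ : ℝ) : ℂ) with hc'
  have hMc : ‖c‖ = M⁻¹ := by
    rw [hc', Complex.norm_real, Real.norm_eq_abs, abs_of_pos (inv_pos.2 hM)]
  have hMcc : ((M : ℝ) : ℂ) * c = 1 := by
    rw [hc', ← Complex.ofReal_mul, mul_inv_cancel₀ hM.ne', Complex.ofReal_one]
  have hcM : ‖c‖ₑ ^ p * ‖((M : ℝ) : ℂ)‖ₑ ^ p = 1 := by
    rw [← ENNReal.mul_rpow_of_nonneg _ _ hp0, ← enorm_mul, mul_comm, hMcc, enorm_one,
      ENNReal.one_rpow]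
  have hscale : ∀ (d : ℂ) (g : E n → ℂ), ∫⁻ ξ, ‖extn (fun x => d * g x) ξ‖ₑ ^ p =
      ‖d‖ₑ ^ p * ∫⁻ ξ, ‖extn g ξ‖ₑ ^ p := by
    intro d g
    rw [← lintegral_const_mul' _ _ (ENNReal.rpow_ne_top_of_nonneg hp0 enorm_ne_top)]
    refine lintegral_congr fun ξ => ?_
    have e : extn (fun x => d * g x) ξ = d * extn g ξ := by
      unfold extn
      rw [← integral_const_mul]
      refine integral_congr_ae (Filter.Eventually.of_forall fun x => ?_)
      simp only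
      ring
    rw [e, enorm_mul, ENNReal.mul_rpow_of_nonneg _ _ hp0]
  have h3 := lintegral_mix_le hp (C := ‖c‖ₑ ^ p * C)
    (fun g => ∃ f : E n → ℂ, Measurable f ∧ (∀ x, ‖f x‖ ≤ M) ∧ cls f ∧ g = fun x => c * f x)
    (fun g _ _ ⟨f, hf, hfb, hfc, hg⟩ => by
      rw [hg, hscale]
      exact mul_le_mul' le_rfl (H f hf hfb hfc))
    ν R η (fun w x => c * h w x) hR hη (measurable_const.mul hh)
    (fun w x => by
      rw [norm_mul, hMc]
      calc M⁻¹ * ‖h w x‖ ≤ M⁻¹ * M := mul_le_mul_of_nonneg_left (hb w x) (inv_nonneg.2 hM.le)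
        _ = 1 := inv_mul_cancel₀ hM.ne')
    (fun w => ⟨h w, hh.comp (f := fun x : E n => (w, x)) (by fun_prop), hb w, hc w, rfl⟩)
  have h5 : mix ν R η h = fun x => ((M : ℝ) : ℂ) * mix ν R η (fun w x => c * h w x) x := by
    funext x
    unfold mix
    rw [← integral_const_mul]
    refine integral_congr_ae (Filter.Eventually.of_forall fun w => ?_)
    simp only
    calc _ = 1 * (Complex.exp (((2 * π * inner ℝ x (η w) : ℝ) : ℂ) * Complex.I) *
          h w (R w x)) := by rw [one_mul]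
      _ = _ := by rw [← hMcc]; ring
  rw [h5, hscale]
  calc ‖((M : ℝ) : ℂ)‖ₑ ^ p * ∫⁻ ξ, ‖extn (mix ν R η (fun w x => c * h w x)) ξ‖ₑ ^ p
      ≤ ‖((M : ℝ) : ℂ)‖ₑ ^ p * (‖c‖ₑ ^ p * C * ν univ ^ p) := mul_le_mul' le_rfl h3
    _ = (‖c‖ₑ ^ p * ‖((M : ℝ) : ℂ)‖ₑ ^ p) * (C * ν univ ^ p) := by ring
    _ = _ := by rw [hcM, one_mul]

end Pool.Agent.LF
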