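import Pool.Agent.LF2.GLUE2
import Pool.Agent.MP_6cbfb8_an.Super

/-!
Superpositions of densities which have some regularity along the level sets of `φ`.
-/

set_option autoImplicit false

namespace Pool.Agent.LF2

open MeasureTheory Set Pool.Agent.MP_6cbfb8_an Pool.Agent.LF
open scoped ENNReal Real RealInnerProductSpace ContDiff Topology

/-- Superpositions of densities of a class. -/
theorem mix_gen {n : ℕ} {p : ℝ} (hp : 1 ≤ p) {cls : (E n → ℂ) → Prop}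
    (hb : ∀ g, cls g → ∀ x, ‖g x‖ ≤ 1)
    (H : ∃ C : ℝ≥0∞, C ≠ ⊤ ∧ ∀ g, cls g → ∫⁻ ξ, ‖extn g ξ‖ₑ ^ p ≤ C) :
    ∃ C : ℝ≥0∞, C ≠ ⊤ ∧ ∀ (W : Type) [MeasurableSpace W] (ν : Measure W) [IsFiniteMeasure ν]
      (R : W → (E n ≃ₗᵢ[ℝ] E n)) (η : W → E n) (h : W → E n → ℂ),
      (Measurable fun q : W × E n => R q.1 q.2) → Measurable η →
      (Measurable fun q : W × E n => h q.1 q.2) → (∀ w, cls (h w)) →
      ∫⁻ ξ, ‖extn (mix ν R η h) ξ‖ₑ ^ p ≤ C * ν univ ^ p := by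
  obtain ⟨C, hC, H⟩ := H
  exact ⟨C, hC, fun W _ ν _ R η h hR hη hh hc =>
    lintegral_mix_le hp cls (fun g _ _ hg => H g hg) ν R η h hR hη hh
      (fun w => hb (h w) (hc w)) hc⟩

theorem one_le_exp {n : ℕ} (hn : 3 ≤ n) {p : ℝ} (hp : 2 * (n : ℝ) / (n - 1) < p) : 1 ≤ p := by
  have hn3 : (3 : ℝ) ≤ n := by exact_mod_cast hn
  refine le_of_lt (lt_of_le_of_lt ?_ hp)
  rw [le_div_iff₀ (by linarith)]
  linarith

/-- Superpositions of densities which are Hölder continuous along the level sets of `φ` and vanish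
outside a compact set of points of the sphere where the condition holds. -/
theorem leafH_mix {n : ℕ} (hn : 3 ≤ n) (H : LeafH n) (φ : E n → ℝ) {K : Set (E n)}
    (hK : IsCompact K)
    (hc : ∀ x ∈ K, ‖x‖ = 1 ∧ (∀ᶠ y in 𝓝 x, ContDiffAt ℝ ∞ φ y) ∧ Cyc φ x) (s p : ℝ) (hs : 0 < s)
    (hp : 2 * (n : ℝ) / (n - 1) < p) (hsp : 4 / (1 + 2 * s) < p) :
    ∃ C : ℝ≥0∞, C ≠ ⊤ ∧ ∀ (W : Type) [MeasurableSpace W] (ν : Measure W) [IsFiniteMeasure ν]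
      (R : W → (E n ≃ₗᵢ[ℝ] E n)) (η : W → E n) (h : W → E n → ℂ),
      (Measurable fun q : W × E n => R q.1 q.2) → Measurable η →
      (Measurable fun q : W × E n => h q.1 q.2) →
      (∀ w, ClH φ s 1 (h w) ∧ ∀ x, ‖x‖ = 1 → x ∉ K → h w x = 0) →
      ∫⁻ ξ, ‖extn (mix ν R η h) ξ‖ₑ ^ p ≤ C * ν univ ^ p := by
  obtain ⟨U, _, hKU, hU⟩ := glueH hn H φ hK hc
  obtain ⟨C, hC, h⟩ := hU s p hs hp hsp 1
  exact mix_gen (one_le_exp hn hp)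
    (cls := fun g => ClH φ s 1 g ∧ ∀ x, ‖x‖ = 1 → x ∉ K → g x = 0) (fun g hg => hg.1.2.1)
    ⟨C, hC, fun g hg => h g hg.1 fun x hx hxU => hg.2 x hx fun hxK => hxU (hKU hxK)⟩

/-- Superpositions of densities of the unit sphere of `R^3` which are of bounded variation along
the level sets of `φ` and vanish outside a compact set of points where the condition holds. -/
theorem leafV_mix (H : LeafV) (φ : E 3 → ℝ) {K : Set (E 3)} (hK : IsCompact K)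
    (hc : ∀ x ∈ K, ‖x‖ = 1 ∧ (∀ᶠ y in 𝓝 x, ContDiffAt ℝ ∞ φ y) ∧ Cyc φ x) (p : ℝ)
    (hp : 3 < p) (V : ℝ) :
    ∃ C : ℝ≥0∞, C ≠ ⊤ ∧ ∀ (W : Type) [MeasurableSpace W] (ν : Measure W) [IsFiniteMeasure ν]
      (R : W → (E 3 ≃ₗᵢ[ℝ] E 3)) (η : W → E 3) (h : W → E 3 → ℂ),
      (Measurable fun q : W × E 3 => R q.1 q.2) → Measurable η →
      (Measurable fun q : W × E 3 => h q.1 q.2) →
      (∀ w, ((∀ x, ‖h w x‖ ≤ 1) ∧ ClV φ V (h w)) ∧ ∀ x, ‖x‖ = 1 → x ∉ K → h w x = 0) →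
      ∫⁻ ξ, ‖extn (mix ν R η h) ξ‖ₑ ^ p ≤ C * ν univ ^ p := by
  obtain ⟨U, _, hKU, hU⟩ := glueV H φ hK hc
  obtain ⟨C, hC, h⟩ := hU p hp V
  exact mix_gen (by linarith)
    (cls := fun g => ((∀ x, ‖g x‖ ≤ 1) ∧ ClV φ V g) ∧ ∀ x, ‖x‖ = 1 → x ∉ K → g x = 0)
    (fun g hg => hg.1.1)
    ⟨C, hC, fun g hg => h g hg.1.2 fun x hx hxU => hg.2 x hx fun hxK => hxU (hKU hxK)⟩

end Pool.Agent.LF2
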