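import Pool.Agent.LF2.GLUE2
import Pool.Agent.LF2.MIX2

/-!
Superpositions of densities with some regularity along the level sets of `φ`, any bounds.
-/

set_option autoImplicit false

namespace Pool.Agent.LF2

open MeasureTheory Set Filter Topology Pool.Agent.MP_6cbfb8_an Pool.Agent.LF
open scoped ENNReal Real ContDiff

theorem leafH_mixM {n : ℕ} (hn : 3 ≤ n) (H : LeafH n) (φ : E n → ℝ) {K : Set (E n)}
    (hK : IsCompact K)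
    (hc : ∀ x ∈ K, ‖x‖ = 1 ∧ (∀ᶠ y in 𝓝 x, ContDiffAt ℝ ∞ φ y) ∧ Cyc φ x) (s p M : ℝ)
    (hs : 0 < s) (hp : 2 * (n : ℝ) / (n - 1) < p) (hsp : 4 / (1 + 2 * s) < p) :
    ∃ C : ℝ≥0∞, C ≠ ⊤ ∧ ∀ (W : Type) [MeasurableSpace W] (ν : Measure W) [IsFiniteMeasure ν]
      (R : W → (E n ≃ₗᵢ[ℝ] E n)) (η : W → E n) (h : W → E n → ℂ),
      (Measurable fun q : W × E n => R q.1 q.2) → Measurable η →
      (Measurable fun q : W × E n => h q.1 q.2) →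
      (∀ w, ClH φ s M (h w) ∧ ∀ x, ‖x‖ = 1 → x ∉ K → h w x = 0) →
      ∫⁻ ξ, ‖extn (mix ν R η h) ξ‖ₑ ^ p ≤ C * ν univ ^ p := by
  obtain ⟨U, _, hKU, hU⟩ := glueH hn H φ hK hc
  obtain ⟨C, hC, h'⟩ := hU s p hs hp hsp M
  refine ⟨C, hC, fun W _ ν _ R η h hR hη hh hcl => ?_⟩
  have hp1 : 1 ≤ p := by
    have hn3 : (3 : ℝ) ≤ n := by exact_mod_cast hn
    refine le_of_lt (lt_of_le_of_lt ?_ hp)
    rw [le_div_iff₀ (by linarith)]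
    linarith
  exact mix_le hp1 (M := max 1 M) (lt_max_of_lt_left one_pos)
    (fun g => ClH φ s M g ∧ ∀ x, ‖x‖ = 1 → x ∉ K → g x = 0)
    (fun g _ _ hg => h' g hg.1 fun x hx hxU => hg.2 x hx fun hxK => hxU (hKU hxK)) ν R η h hR hη
    hh (fun w x => ((hcl w).1.2.1 x).trans (le_max_right _ _)) hcl

theorem leafV_mixV (H : LeafV) (φ : E 3 → ℝ) {K : Set (E 3)} (hK : IsCompact K)
    (hc : ∀ x ∈ K, ‖x‖ = 1 ∧ (∀ᶠ y in 𝓝 x, ContDiffAt ℝ ∞ φ y) ∧ Cyc φ x) (p V : ℝ)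
    (hp : 3 < p) :
    ∃ C : ℝ≥0∞, C ≠ ⊤ ∧ ∀ (W : Type) [MeasurableSpace W] (ν : Measure W) [IsFiniteMeasure ν]
      (R : W → (E 3 ≃ₗᵢ[ℝ] E 3)) (η : W → E 3) (h : W → E 3 → ℂ),
      (Measurable fun q : W × E 3 => R q.1 q.2) → Measurable η →
      (Measurable fun q : W × E 3 => h q.1 q.2) →
      (∀ w, ClV φ V (h w) ∧ ∀ x, ‖x‖ = 1 → x ∉ K → h w x = 0) →
      ∫⁻ ξ, ‖extn (mix ν R η h) ξ‖ₑ ^ p ≤ C * ν univ ^ p := by
  obtain ⟨U, _, hKU, hU⟩ := glueV H φ hK hc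
  obtain ⟨C, hC, h'⟩ := hU p hp V
  refine ⟨C, hC, fun W _ ν _ R η h hR hη hh hcl => ?_⟩
  exact mix_le (by linarith) (M := max 1 V) (lt_max_of_lt_left one_pos)
    (fun g => ClV φ V g ∧ ∀ x, ‖x‖ = 1 → x ∉ K → g x = 0)
    (fun g _ _ hg => h' g hg.1 fun x hx hxU => hg.2 x hx fun hxK => hxU (hKU hxK)) ν R η h hR hη
    hh (fun w x => ((hcl w).1.2.1 x).trans (le_max_right _ _)) hcl

end Pool.Agent.LF2
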