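import Pool.Agent.LF2.CHART
import Pool.Agent.LF2.GEO

/-!
[LEAF2] The theorem in the chart for a general modulus along the leaves (helper11).
-/

set_option autoImplicit false

namespace Pool.Agent.LF2

open MeasureTheory Set Metric Pool.Agent.MP_6cbfb8_an Pool.Agent.LF
open scoped ENNReal Real RealInnerProductSpace ContDiff

theorem r0_smul {m n : ℕ} (X : ℝ × E m → E n) (b : ℝ × E m → ℂ) (c : ℂ) (ξ : E n) :
    Tb X (fun p => c * b p) ξ = c * Tb X b ξ := by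
  unfold Tb
  rw [← integral_const_mul]
  congr 1
  funext p
  ring

/-- The theorem in the chart, general modulus along the leaves. -/
theorem core_modl {m : ℕ} (hm : 1 ≤ m) (X : ℝ × E m → E (m + 2)) (A : ℕ → ℝ) (p0 : ℝ × E m)
    {δ : ℝ} (hδ : 0 < δ) (hX : ContDiff ℝ ∞ X) (hA : ∀ j p, ‖iteratedFDeriv ℝ j X p‖ ≤ A j)
    (h1 : ∀ p, ‖p - p0‖ ≤ δ → ‖X p‖ = 1)
    (him : ∀ v, fderiv ℝ X p0 v = 0 → v = 0)
    (hN : ∀ w : E (m + 2), w ≠ 0 → (∀ v : E m, ⟪w, fderiv ℝ X p0 (0, v)⟫ = 0) →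
      ∀ v : E m, v ≠ 0 → ∃ u : ℝ × E m, ⟪w, fderiv ℝ (fderiv ℝ X) p0 (0, v) u⟫ ≠ 0) :
    ∃ δ1 : ℝ, 0 < δ1 ∧ δ1 ≤ δ ∧ ∀ p p1 q τ B H : ℝ, 2 ≤ q → q ≤ p1 →
      2 * ((m : ℝ) + 2) / (m + 1) < p1 → p1 < 4 → p1 ≤ p → (4 - p1) / 2 < τ →
      ∃ C : ℝ≥0∞, C ≠ ⊤ ∧ ∀ b : ℝ × E m → ℂ, Measurable b → (∀ q, ‖b q‖ ≤ B) →
        (∀ v : E m, ‖v‖ ≤ 1 →
          ∫⁻ p : ℝ × E m, ‖b (p.1, p.2 + v) - b p‖ₑ ^ q ≤ ENNReal.ofReal (H * ‖v‖ ^ τ)) →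
        (∀ q, δ1 ≤ ‖q - p0‖ → b q = 0) → ∫⁻ ξ, ‖Tb X b ξ‖ₑ ^ p ≤ C := by
  obtain ⟨c, C, δ2, hδ2, hG⟩ := geo hδ hX hA h1 him hN
  have hδ2' := hG.hδ
  refine ⟨δ2 / 4, by linarith, by linarith, ?_⟩
  intro p p1 q τ B H hq hqp hp hp4 hpp hτ
  have hm1 : (1 : ℝ) ≤ m := by exact_mod_cast hm
  have hp1 : 0 < p1 := by linarith
  obtain ⟨C', hC', h⟩ := chart_gen hm hG hq hqp hp hp4 hτ hpp H
  set K : ℝ := max B 1 with hK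
  have hK1 : 1 ≤ K := le_max_right _ _
  have hK0 : 0 < K := by linarith
  refine ⟨ENNReal.ofReal K ^ p * ENNReal.ofReal C', ENNReal.mul_ne_top
    (ENNReal.rpow_ne_top_of_nonneg (by linarith) ENNReal.ofReal_ne_top) ENNReal.ofReal_ne_top, ?_⟩
  intro b hb hB hmod hs
  set b' : ℝ × E m → ℂ := fun p => ((K⁻¹ : ℝ) : ℂ) * b p with hb'
  have e1 : ∀ ξ, Tb X b ξ = (K : ℂ) * Tb X b' ξ := by
    intro ξ
    rw [hb', r0_smul, ← mul_assoc, ← Complex.ofReal_mul, mul_inv_cancel₀ hK0.ne',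
      Complex.ofReal_one, one_mul]
  have hKi : ‖((K⁻¹ : ℝ) : ℂ)‖ = K⁻¹ := by
    rw [Complex.norm_real, Real.norm_eq_abs, abs_of_pos (by positivity)]
  have h2 : ∫⁻ ξ, ‖Tb X b' ξ‖ₑ ^ p ≤ ENNReal.ofReal C' := by
    apply h b' (measurable_const.mul hb)
    · intro q
      rw [hb']
      simp only [norm_mul, hKi]
      rw [inv_mul_le_iff₀ hK0, mul_one]
      exact (hB q).trans (le_max_left _ _)
    · intro q hq
      rw [hb']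
      simp only
      rw [hs q hq.le, mul_zero]
    · intro v hv
      refine le_trans (lintegral_mono fun x => ?_) (hmod v hv)
      apply ENNReal.rpow_le_rpow _ (by linarith)
      rw [hb']
      simp only
      rw [← mul_sub, enorm_mul]
      calc ‖((K⁻¹ : ℝ) : ℂ)‖ₑ * ‖b (x.1, x.2 + v) - b x‖ₑ ≤ 1 * ‖b (x.1, x.2 + v) - b x‖ₑ := by
            gcongr
            rw [← ofReal_norm, hKi, ENNReal.ofReal_le_one]
            exact inv_le_one_of_one_le₀ hK1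
        _ = _ := one_mul _
  calc ∫⁻ ξ, ‖Tb X b ξ‖ₑ ^ p = ∫⁻ ξ, ENNReal.ofReal K ^ p * ‖Tb X b' ξ‖ₑ ^ p := by
        apply lintegral_congr
        intro ξ
        rw [e1, enorm_mul, ENNReal.mul_rpow_of_nonneg _ _ (by linarith), ← ofReal_norm,
          Complex.norm_real, Real.norm_eq_abs, abs_of_pos hK0]
    _ = ENNReal.ofReal K ^ p * ∫⁻ ξ, ‖Tb X b' ξ‖ₑ ^ p :=
        lintegral_const_mul' _ _ (ENNReal.rpow_ne_top_of_nonneg (by linarith)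
          ENNReal.ofReal_ne_top)
    _ ≤ _ := by gcongr

/-- The theorem in the chart at the critical modulus: order `m / (m + 1)` in the mean of order
`2 (m + 2) / (m + 1)` along the leaves. -/
theorem core_roof {m : ℕ} (hm : 1 ≤ m) (X : ℝ × E m → E (m + 2)) (A : ℕ → ℝ) (p0 : ℝ × E m)
    {δ : ℝ} (hδ : 0 < δ) (hX : ContDiff ℝ ∞ X) (hA : ∀ j p, ‖iteratedFDeriv ℝ j X p‖ ≤ A j)
    (h1 : ∀ p, ‖p - p0‖ ≤ δ → ‖X p‖ = 1)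
    (him : ∀ v, fderiv ℝ X p0 v = 0 → v = 0)
    (hN : ∀ w : E (m + 2), w ≠ 0 → (∀ v : E m, ⟪w, fderiv ℝ X p0 (0, v)⟫ = 0) →
      ∀ v : E m, v ≠ 0 → ∃ u : ℝ × E m, ⟪w, fderiv ℝ (fderiv ℝ X) p0 (0, v) u⟫ ≠ 0) :
    ∃ δ1 : ℝ, 0 < δ1 ∧ δ1 ≤ δ ∧ ∀ p B H : ℝ, 2 * ((m : ℝ) + 2) / (m + 1) < p →
      ∃ C : ℝ≥0∞, C ≠ ⊤ ∧ ∀ b : ℝ × E m → ℂ, Measurable b → (∀ q, ‖b q‖ ≤ B) →
        (∀ v : E m, ‖v‖ ≤ 1 →
          ∫⁻ p : ℝ × E m, ‖b (p.1, p.2 + v) - b p‖ₑ ^ (2 * ((m : ℝ) + 2) / (m + 1)) ≤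
            ENNReal.ofReal (H * ‖v‖ ^ ((m : ℝ) / (m + 1)))) →
        (∀ q, δ1 ≤ ‖q - p0‖ → b q = 0) → ∫⁻ ξ, ‖Tb X b ξ‖ₑ ^ p ≤ C := by
  obtain ⟨δ1, h0, h2, h⟩ := core_modl hm X A p0 hδ hX hA h1 him hN
  refine ⟨δ1, h0, h2, fun p B H hp => ?_⟩
  have hm1 : (1 : ℝ) ≤ m := by exact_mod_cast hm
  have hlt4 : 2 * ((m : ℝ) + 2) / (m + 1) < 4 := by
    rw [div_lt_iff₀ (by linarith)]; linarith
  obtain ⟨p1, h3, h4⟩ := exists_between (lt_min hp hlt4)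
  have h5 : p1 < p := (lt_min_iff.1 h4).1
  have h6 : p1 < 4 := (lt_min_iff.1 h4).2
  refine h p p1 (2 * ((m : ℝ) + 2) / (m + 1)) ((m : ℝ) / (m + 1)) B H ?_ h3.le h3 h6 h5.le ?_
  · rw [le_div_iff₀ (by linarith)]; linarith
  · have e : 2 * ((m : ℝ) + 2) / (m + 1) = 4 - 2 * ((m : ℝ) / (m + 1)) := by
      field_simp; ring
    rw [e] at h3
    linarith

end Pool.Agent.LF2
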