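import Pool.Agent.LF.ASM
import Pool.Agent.LF2.ROOF0
import Pool.Agent.LF2.CH3h
import Pool.Agent.LF2.CVd
import Pool.Agent.LF2.GLUE2
import Pool.Agent.LF2.ClMm
import Pool.Agent.LQ.UNI

/-!
[LEAF-M] Densities which are only measurable across the leaves of a foliation in general position
and have, in the mean, a modulus of continuity along the leaves.
-/

set_option autoImplicit false

namespace Pool.Agent.LF2

open MeasureTheory Set Filter Topology Pool.Agent.MP_6cbfb8_an Pool.Agent.LF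
open scoped ENNReal Real RealInnerProductSpace ContDiff

theorem modh_lip {m : ℕ} {κ : ℝ × E m → ℂ} (hκ : ContDiff ℝ ∞ κ) (hc : HasCompactSupport κ) :
    ∃ K : ℝ, 0 ≤ K ∧ (∀ p, ‖κ p‖ ≤ K) ∧ ∀ p p', ‖κ p - κ p'‖ ≤ K * ‖p - p'‖ := by
  obtain ⟨K1, hK1⟩ := hc.exists_bound_of_continuous hκ.continuous
  have hd : Continuous (fderiv ℝ κ) := hκ.continuous_fderiv (by simp)
  obtain ⟨K2, hK2⟩ := (hc.fderiv (𝕜 := ℝ)).exists_bound_of_continuous hd
  have hK1' : 0 ≤ K1 := (norm_nonneg _).trans (hK1 0)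
  have hK2' : 0 ≤ K2 := (norm_nonneg _).trans (hK2 0)
  refine ⟨K1 + K2, by positivity, fun p => (hK1 p).trans (by linarith), fun p p' => ?_⟩
  have h := Convex.norm_image_sub_le_of_norm_fderiv_le (𝕜 := ℝ) (f := κ) (C := K2)
    (fun x _ => (hκ.differentiable (by simp)).differentiableAt) (fun x _ => hK2 x)
    convex_univ (mem_univ p') (mem_univ p)
  refine h.trans ?_
  gcongr
  linarith

/-- A function on the sphere, seen in the chart: its integral. -/
theorem cv_lint {m : ℕ} (X : ℝ × E m → E (m + 2)) (p0 : ℝ × E m) {δ : ℝ} (hδ : 0 < δ)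
    (hX : ContDiff ℝ ∞ X) (h1 : ∀ p, ‖p - p0‖ ≤ δ → ‖X p‖ = 1)
    (hinj : ∀ p q, ‖p - p0‖ ≤ δ → ‖q - p0‖ ≤ δ → X p = X q → p = q)
    (him : ∀ p, ‖p - p0‖ ≤ δ → ∀ v, fderiv ℝ X p v = 0 → v = 0) :
    ∃ D : ℝ, 0 < D ∧ ∀ H : E (m + 2) → ℝ≥0∞, Measurable H →
      ∫⁻ p in Metric.closedBall p0 (δ / 2), H (X p) ≤
        ENNReal.ofReal D * ∫⁻ x : S (m + 2), H x ∂(sm (m + 2)) := by
  obtain ⟨κ, hκ, hcv⟩ := cv_dt X p0 hX h1 hinj
  obtain ⟨J, hJ⟩ : ∃ J : ℝ × E m → ℝ, J = fun p => κ * |CV.dt X p| := ⟨_, rfl⟩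
  have hJc : Continuous J := by
    rw [hJ]
    have := (CV.dt_contDiff X hX).continuous
    fun_prop
  set B : Set (ℝ × E m) := Metric.closedBall p0 (δ / 2) with hB
  have hBc : IsCompact B := isCompact_closedBall p0 (δ / 2)
  have hBδ : ∀ p ∈ B, ‖p - p0‖ < δ := by
    intro p hp
    rw [hB, Metric.mem_closedBall, dist_eq_norm] at hp
    linarith
  obtain ⟨j0, hj0, hj1⟩ : ∃ j0, 0 < j0 ∧ ∀ p ∈ B, j0 ≤ J p := by
    obtain ⟨q, hq, hq'⟩ := hBc.exists_isMinOn
      ⟨p0, Metric.mem_closedBall_self (by linarith)⟩ hJc.continuousOn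
    refine ⟨J q, ?_, fun p hp => hq' hp⟩
    rw [hJ]
    have := abs_pos.2 (CV.dt_ne X hX p0 h1 him q (hBδ q hq))
    positivity
  refine ⟨j0⁻¹, by positivity, ?_⟩
  have hmeas : Measure.map X ((volume : Measure (ℝ × E m)).restrict B) ≤
      ENNReal.ofReal j0⁻¹ • Measure.map (fun x : S (m + 2) => (x : E (m + 2))) (sm (m + 2)) := by
    refine Measure.le_iff.2 fun A hA => ?_
    rw [Measure.map_apply hX.continuous.measurable hA, Measure.smul_apply,
      Measure.map_apply measurable_subtype_coe hA, smul_eq_mul,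
      Measure.restrict_apply (hX.continuous.measurable hA)]
    set T : Set (E (m + 2)) := A ∩ X '' B with hT
    have hTm : MeasurableSet T := hA.inter (hBc.image hX.continuous).isClosed.measurableSet
    have h2 := hcv (T.indicator fun _ => (1 : ℂ)) (fun x _ hx => by
      have hxT : x ∈ T := by
        by_contra h
        exact hx (indicator_of_notMem h _)
      obtain ⟨p, hp, rfl⟩ := hxT.2
      exact ⟨p, hBδ p hp, rfl⟩)
    set T' : Set (ℝ × E m) := X ⁻¹' A ∩ B with hT'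
    have hT'm : MeasurableSet T' :=
      (hX.continuous.measurable hA).inter Metric.isClosed_closedBall.measurableSet
    have hT'B : T' ⊆ Metric.ball p0 δ := fun p hp => by
      rw [Metric.mem_ball, dist_eq_norm]
      exact hBδ p hp.2
    -- the left side
    have e1 : ∫ x : S (m + 2), T.indicator (fun _ => (1 : ℂ)) x ∂(sm (m + 2)) =
        (((sm (m + 2)).real ((fun x : S (m + 2) => (x : E (m + 2))) ⁻¹' T) : ℝ) : ℂ) := by
      have e2 : (fun x : S (m + 2) => T.indicator (fun _ => (1 : ℂ)) (x : E (m + 2))) =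
          ((fun x : S (m + 2) => (x : E (m + 2))) ⁻¹' T).indicator fun _ => (1 : ℂ) := by
        funext x
        by_cases hx : (x : E (m + 2)) ∈ T
        · rw [indicator_of_mem hx, indicator_of_mem (by exact hx)]
        · rw [indicator_of_notMem hx, indicator_of_notMem (by exact hx)]
      rw [e2, integral_indicator (measurable_subtype_coe hTm), setIntegral_const]
      simp
    -- the right side
    have e3 : ∫ p in Metric.ball p0 δ, T.indicator (fun _ => (1 : ℂ)) (X p) *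
        ((κ * |CV.dt X p| : ℝ) : ℂ) = ((∫ p in T', J p : ℝ) : ℂ) := by
      have e4 : ∀ p ∈ Metric.ball p0 δ, T.indicator (fun _ => (1 : ℂ)) (X p) *
          ((κ * |CV.dt X p| : ℝ) : ℂ) = T'.indicator (fun p => ((J p : ℝ) : ℂ)) p := by
        intro p hp
        rw [Metric.mem_ball, dist_eq_norm] at hp
        have h3 : X p ∈ T ↔ p ∈ T' := by
          constructor
          · rintro ⟨h4, q, hq, h5⟩
            have h6 := hinj q p (hBδ q hq).le hp.le h5
            rw [← h6]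
            refine ⟨?_, hq⟩
            rw [h6]
            exact h4
          · rintro ⟨h4, h5⟩
            exact ⟨h4, p, h5, rfl⟩
        by_cases h : p ∈ T'
        · rw [indicator_of_mem (h3.2 h), indicator_of_mem h, hJ, one_mul]
        · rw [indicator_of_notMem (fun h' => h (h3.1 h')), indicator_of_notMem h, zero_mul]
      rw [setIntegral_congr_fun measurableSet_ball e4, setIntegral_indicator hT'm,
        inter_eq_self_of_subset_right hT'B]
      exact integral_ofReal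
    have h3 : (sm (m + 2)).real ((fun x : S (m + 2) => (x : E (m + 2))) ⁻¹' T) =
        ∫ p in T', J p := by
      have h4 := e1.symm.trans (h2.trans e3)
      exact_mod_cast h4
    have hT'f : volume T' ≠ ⊤ :=
      ne_of_lt (lt_of_le_of_lt (measure_mono inter_subset_right) hBc.measure_lt_top)
    have h4 : j0 * volume.real T' ≤ ∫ p in T', J p := by
      have h5 : ∫ _p in T', j0 = j0 * volume.real T' := by
        rw [setIntegral_const, smul_eq_mul, mul_comm]
      rw [← h5]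
      refine setIntegral_mono_on (integrableOn_const hT'f) ?_ hT'm fun p hp => hj1 p hp.2
      exact (hJc.continuousOn.integrableOn_compact hBc).mono_set inter_subset_right
    have h6 : volume.real T' ≤ j0⁻¹ *
        (sm (m + 2)).real ((fun x : S (m + 2) => (x : E (m + 2))) ⁻¹' T) := by
      rw [le_inv_mul_iff₀ hj0, h3]
      exact h4
    have h7 : volume T' ≤ ENNReal.ofReal j0⁻¹ *
        (sm (m + 2)) ((fun x : S (m + 2) => (x : E (m + 2))) ⁻¹' T) := by
      rw [← ENNReal.ofReal_toReal hT'f,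
        ← ENNReal.ofReal_toReal (measure_ne_top (sm (m + 2)) _),
        ← ENNReal.ofReal_mul (by positivity)]
      exact ENNReal.ofReal_le_ofReal h6
    refine h7.trans (mul_le_mul_right (measure_mono ?_) _)
    exact preimage_mono inter_subset_left
  intro H hH
  calc ∫⁻ p in B, H (X p)
      = ∫⁻ x, H x ∂(Measure.map X ((volume : Measure (ℝ × E m)).restrict B)) :=
        (lintegral_map hH hX.continuous.measurable).symm
    _ ≤ ∫⁻ x, H x ∂(ENNReal.ofReal j0⁻¹ •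
          Measure.map (fun x : S (m + 2) => (x : E (m + 2))) (sm (m + 2))) :=
        lintegral_mono' hmeas le_rfl
    _ = _ := by
        rw [lintegral_smul_measure, lintegral_map hH measurable_subtype_coe, smul_eq_mul]

/-- A majorant for the steps of length `L a`. -/
theorem clM_step {n : ℕ} {φ : E n → ℝ} {q τ V L : ℝ} (hq : 0 ≤ q) (hτ : 0 ≤ τ) (hL : 1 ≤ L)
    {g : E n → ℂ} (hg : ClM φ q τ V g) {a : ℝ} (ha : 0 < a) :
    ∃ h : E n → ℝ≥0∞, Measurable h ∧ ∫⁻ x : S n, h x ^ q ∂(sm n) ≤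
      ENNReal.ofReal ((|V| + |V| ^ q * (sm n).real univ) * L ^ τ * a ^ τ) ∧
      ∀ x y, ‖x‖ = 1 → ‖y‖ = 1 → φ x = φ y → ‖x - y‖ ≤ L * a → ‖g x - g y‖ₑ ≤ h x + h y := by
  have hV : ∀ x, ‖g x‖ ≤ |V| := fun x => (hg.2.1 x).trans (le_abs_self V)
  have hV0 : 0 ≤ |V| := abs_nonneg V
  have hσ : 0 ≤ (sm n).real univ := measureReal_nonneg
  have hVq : 0 ≤ |V| ^ q := Real.rpow_nonneg hV0 q
  have hLa : 0 < L * a := by positivity
  have hLaτ : 0 ≤ (L * a) ^ τ := Real.rpow_nonneg hLa.le τ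
  have e : (|V| + |V| ^ q * (sm n).real univ) * L ^ τ * a ^ τ =
      |V| * (L * a) ^ τ + |V| ^ q * (sm n).real univ * (L * a) ^ τ := by
    rw [Real.mul_rpow (by linarith) ha.le]
    ring
  rw [e]
  rcases le_or_gt (L * a) 1 with h1 | h1
  · obtain ⟨h, hm, hi, hh⟩ := hg.2.2 (L * a) hLa h1
    refine ⟨h, hm, hi.trans (ENNReal.ofReal_le_ofReal ?_), hh⟩
    have h2 : V * (L * a) ^ τ ≤ |V| * (L * a) ^ τ :=
      mul_le_mul_of_nonneg_right (le_abs_self V) hLaτ
    have h3 : 0 ≤ |V| ^ q * (sm n).real univ * (L * a) ^ τ := by positivity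
    linarith
  · refine ⟨fun _ => ENNReal.ofReal |V|, measurable_const, ?_, fun x y _ _ _ _ => ?_⟩
    · rw [lintegral_const, ENNReal.ofReal_rpow_of_nonneg hV0 hq,
        ← ENNReal.ofReal_toReal (measure_ne_top (sm n) univ), ← ENNReal.ofReal_mul hVq]
      refine ENNReal.ofReal_le_ofReal ?_
      have h2 : 1 ≤ (L * a) ^ τ := Real.one_le_rpow h1.le hτ
      have h3 : |V| ^ q * (sm n).real univ * 1 ≤
          |V| ^ q * (sm n).real univ * (L * a) ^ τ :=
        mul_le_mul_of_nonneg_left h2 (by positivity)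
      have h4 : 0 ≤ |V| * (L * a) ^ τ := by positivity
      have h5 : ((sm n) univ).toReal = (sm n).real univ := rfl
      rw [h5]
      linarith
    · refine (enorm_sub_le).trans (add_le_add ?_ ?_)
      · rw [← ofReal_norm]
        exact ENNReal.ofReal_le_ofReal (hV x)
      · rw [← ofReal_norm]
        exact ENNReal.ofReal_le_ofReal (hV y)

/-- The modulus in the chart. -/
theorem mod_chart {m : ℕ} (φ : E (m + 2) → ℝ) (X : ℝ × E m → E (m + 2)) (p0 : ℝ × E m) {δ : ℝ}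
    (hδ : 0 < δ) (hX : ContDiff ℝ ∞ X) (A : ℕ → ℝ) (hA : ∀ j p, ‖iteratedFDeriv ℝ j X p‖ ≤ A j)
    (h1 : ∀ p, ‖p - p0‖ ≤ δ → ‖X p‖ = 1) (hφ : ∀ p, ‖p - p0‖ ≤ δ → φ (X p) = p.1)
    (hinj : ∀ p q, ‖p - p0‖ ≤ δ → ‖q - p0‖ ≤ δ → X p = X q → p = q)
    (him : ∀ p, ‖p - p0‖ ≤ δ → ∀ v, fderiv ℝ X p v = 0 → v = 0) {K : ℝ × E m → ℂ}
    (hK : ContDiff ℝ ∞ K) (hKc : HasCompactSupport K) (hK0 : ∀ p, K p ≠ 0 → ‖p - p0‖ ≤ δ / 2)
    {q τ : ℝ} (hq : 1 ≤ q) (hτ : 0 ≤ τ) (hτq : τ ≤ q) (V : ℝ) :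
    ∃ B H : ℝ, ∀ g, ClM φ q τ V g → (∀ p, ‖g (X p) * K p‖ ≤ B) ∧
      ∀ v : E m, ‖v‖ ≤ 1 → ∫⁻ p : ℝ × E m,
        ‖g (X (p.1, p.2 + v)) * K (p.1, p.2 + v) - g (X p) * K p‖ₑ ^ q ≤
          ENNReal.ofReal (H * ‖v‖ ^ τ) := by
  obtain ⟨D, hD, hcv⟩ := cv_lint X p0 hδ hX h1 hinj him
  obtain ⟨KB, hKB0, hKB, hKL⟩ := modh_lip hK hKc
  obtain ⟨L, hL1, hXl⟩ : ∃ L : ℝ, 1 ≤ L ∧ ∀ p p', ‖X p - X p'‖ ≤ L * ‖p - p'‖ := by
    refine ⟨1 + |A 1|, by linarith [abs_nonneg (A 1)], fun p p' => ?_⟩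
    have h2 : ‖X p - X p'‖ ≤ |A 1| * ‖p - p'‖ := by
      refine (convex_univ).norm_image_sub_le_of_norm_fderiv_le (𝕜 := ℝ) (f := X)
        (fun x _ => (hX.differentiable (by simp)) x) (fun x _ => ?_) (mem_univ p') (mem_univ p)
      rw [← norm_iteratedFDeriv_one]
      exact (hA 1 x).trans (le_abs_self _)
    have h3 := norm_nonneg (p - p')
    linarith
  set B : Set (ℝ × E m) := Metric.closedBall p0 (δ / 2) with hB
  have hBm : MeasurableSet B := Metric.isClosed_closedBall.measurableSet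
  have hBf : volume B ≠ ⊤ := (isCompact_closedBall p0 (δ / 2)).measure_lt_top.ne
  have hKB' : ∀ p, K p ≠ 0 → p ∈ B := fun p hp => by
    rw [hB, Metric.mem_closedBall, dist_eq_norm]
    exact hK0 p hp
  have hBδ : ∀ p ∈ B, ‖p - p0‖ ≤ δ := by
    intro p hp
    rw [hB, Metric.mem_closedBall, dist_eq_norm] at hp
    linarith
  set VB : ℝ := volume.real B with hVB
  have hVB0 : 0 ≤ VB := measureReal_nonneg
  set V1 : ℝ := (|V| + |V| ^ q * (sm (m + 2)).real univ) * L ^ τ with hV1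
  have hσ : 0 ≤ (sm (m + 2)).real univ := measureReal_nonneg
  have hV10 : 0 ≤ V1 := by
    have := Real.rpow_nonneg (abs_nonneg V) q
    have := Real.rpow_nonneg (zero_le_one.trans hL1) τ
    positivity
  have hq0 : 0 ≤ q := by linarith
  refine ⟨|V| * KB, 2 ^ q * (2 ^ (q - 1) * (KB ^ q * (D * V1) + (|V| * KB) ^ q * VB)),
    fun g hg => ⟨fun p => ?_, fun v hv => ?_⟩⟩
  · rw [norm_mul]
    exact mul_le_mul ((hg.2.1 _).trans (le_abs_self V)) (hKB p) (norm_nonneg _) (abs_nonneg V)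
  have hgV : ∀ x, ‖g x‖ ≤ |V| := fun x => (hg.2.1 x).trans (le_abs_self V)
  rcases (norm_nonneg v).eq_or_lt with h0 | h0
  · have hv0 : v = 0 := norm_eq_zero.1 h0.symm
    subst hv0
    have e : ∀ p : ℝ × E m,
        ‖g (X (p.1, p.2 + 0)) * K (p.1, p.2 + 0) - g (X p) * K p‖ₑ ^ q = 0 := by
      intro p
      rw [add_zero, sub_self, enorm_zero, ENNReal.zero_rpow_of_pos (by linarith)]
    simp_rw [e]
    simp
  obtain ⟨h, hhm, hhi, hh⟩ := clM_step hq0 hτ hL1 hg h0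
  set c1 : ℝ≥0∞ := ENNReal.ofReal KB with hc1
  set c2 : ℝ≥0∞ := ENNReal.ofReal (|V| * KB * ‖v‖) with hc2
  set om : ℝ × E m → ℝ≥0∞ := B.indicator fun p => c1 * h (X p) + c2 with hom
  have homm : Measurable om :=
    ((measurable_const.mul (hhm.comp hX.continuous.measurable)).add measurable_const).indicator
      hBm
  have e2 : ∀ p : ℝ × E m, ((p.1, p.2 + v) : ℝ × E m) = p + (0, v) := by
    intro p
    ext <;> simp
  have e3 : ‖((0, v) : ℝ × E m)‖ = ‖v‖ := by
    rw [Prod.norm_mk, norm_zero]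
    exact max_eq_right (norm_nonneg _)
  have hpt : ∀ p : ℝ × E m,
      ‖g (X (p.1, p.2 + v)) * K (p.1, p.2 + v) - g (X p) * K p‖ₑ ≤ om (p + (0, v)) + om p := by
    intro p
    rw [e2 p]
    set p' : ℝ × E m := p + (0, v) with hp'
    have hd : ‖p' - p‖ = ‖v‖ := by
      rw [hp', add_sub_cancel_left, e3]
    have hKd : ‖K p' - K p‖ ≤ KB * ‖v‖ := by
      have := hKL p' p
      rwa [hd] at this
    have hone : ∀ x : E (m + 2), ‖g x * (K p' - K p)‖ₑ ≤ c2 := by
      intro x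
      rw [← ofReal_norm, hc2]
      refine ENNReal.ofReal_le_ofReal ?_
      rw [norm_mul, mul_assoc]
      exact mul_le_mul (hgV x) hKd (norm_nonneg _) (abs_nonneg V)
    by_cases hp : K p = 0
    · by_cases hT : K p' = 0
      · rw [hp, hT, mul_zero, mul_zero, sub_zero, enorm_zero]
        exact zero_le
      · have hm' : p' ∈ B := hKB' _ hT
        have e4 : g (X p') * K p' - g (X p) * K p = g (X p') * (K p' - K p) := by
          rw [hp]
          ring
        rw [e4, hom, indicator_of_mem hm']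
        exact (hone _).trans (le_add_self.trans le_self_add)
    · have hm : p ∈ B := hKB' _ hp
      by_cases hT : K p' = 0
      · have e4 : g (X p') * K p' - g (X p) * K p = g (X p) * (K p' - K p) := by
          rw [hT]
          ring
        rw [e4, hom, indicator_of_mem hm]
        exact (hone _).trans (le_add_self.trans le_add_self)
      · have hm' : p' ∈ B := hKB' _ hT
        have e4 : g (X p') * K p' - g (X p) * K p =
            (g (X p') - g (X p)) * K p' + g (X p) * (K p' - K p) := by ring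
        rw [e4, hom, indicator_of_mem hm, indicator_of_mem hm']
        have h5 : ‖g (X p') - g (X p)‖ₑ ≤ h (X p') + h (X p) := by
          refine hh _ _ (h1 _ (hBδ _ hm')) (h1 _ (hBδ _ hm)) ?_ ?_
          · rw [hφ _ (hBδ _ hm'), hφ _ (hBδ _ hm), hp']
            simp
          · rw [← hd]
            exact hXl _ _
        have h6 : ‖K p'‖ₑ ≤ c1 := by
          rw [← ofReal_norm, hc1]
          exact ENNReal.ofReal_le_ofReal (hKB _)
        calc ‖(g (X p') - g (X p)) * K p' + g (X p) * (K p' - K p)‖ₑ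
            ≤ ‖(g (X p') - g (X p)) * K p'‖ₑ + ‖g (X p) * (K p' - K p)‖ₑ := enorm_add_le _ _
          _ ≤ (h (X p') + h (X p)) * c1 + c2 := by
              rw [enorm_mul]
              exact add_le_add (mul_le_mul' h5 h6) (hone _)
          _ ≤ (c1 * h (X p') + c2) + (c1 * h (X p) + c2) := by
              have e5 : (h (X p') + h (X p)) * c1 + c2 =
                  c1 * h (X p') + (c1 * h (X p) + c2) := by ring
              rw [e5]
              gcongr
              exact le_self_add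
  have hvq : ‖v‖ ^ q ≤ ‖v‖ ^ τ := Real.rpow_le_rpow_of_exponent_ge h0 hv hτq
  have h2q : (2 : ℝ≥0∞) ^ (q - 1) ≠ ⊤ :=
    ENNReal.rpow_ne_top_of_nonneg (by linarith) ENNReal.ofNat_ne_top
  -- the integral of `om ^ q`
  have homi : ∫⁻ p, om p ^ q ≤ ENNReal.ofReal (2 ^ (q - 1) *
      (KB ^ q * (D * V1) + (|V| * KB) ^ q * VB) * ‖v‖ ^ τ) := by
    have e6 : (fun p => om p ^ q) = B.indicator fun p => (c1 * h (X p) + c2) ^ q := by
      funext p
      rw [hom]
      by_cases hp : p ∈ B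
      · rw [indicator_of_mem hp, indicator_of_mem hp]
      · rw [indicator_of_notMem hp, indicator_of_notMem hp,
          ENNReal.zero_rpow_of_pos (by linarith)]
    rw [e6, lintegral_indicator hBm]
    calc ∫⁻ p in B, (c1 * h (X p) + c2) ^ q
        ≤ ∫⁻ p in B, 2 ^ (q - 1) * (c1 ^ q * h (X p) ^ q + c2 ^ q) := by
          refine lintegral_mono fun p => ?_
          refine (ENNReal.rpow_add_le_mul_rpow_add_rpow _ _ hq).trans ?_
          rw [ENNReal.mul_rpow_of_nonneg _ _ hq0]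
      _ = 2 ^ (q - 1) * (c1 ^ q * (∫⁻ p in B, h (X p) ^ q) + c2 ^ q * volume B) := by
          rw [lintegral_const_mul' _ _ h2q, lintegral_add_right _ measurable_const,
            lintegral_const_mul' _ _ (ENNReal.rpow_ne_top_of_nonneg hq0 ENNReal.ofReal_ne_top),
            setLIntegral_const]
      _ ≤ 2 ^ (q - 1) * (c1 ^ q * (ENNReal.ofReal D * ENNReal.ofReal (V1 * ‖v‖ ^ τ)) +
            c2 ^ q * ENNReal.ofReal VB) := by
          have h7 := (hcv (fun x => h x ^ q) (hhm.pow_const q)).trans (mul_le_mul_right hhi _)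
          have h8 : volume B = ENNReal.ofReal VB := (ENNReal.ofReal_toReal hBf).symm
          rw [h8]
          gcongr
      _ = ENNReal.ofReal (2 ^ (q - 1) * (KB ^ q * (D * (V1 * ‖v‖ ^ τ)) +
            (|V| * KB * ‖v‖) ^ q * VB)) := by
          have h9 : (2 : ℝ≥0∞) ^ (q - 1) = ENNReal.ofReal (2 ^ (q - 1)) := by
            rw [← ENNReal.ofReal_rpow_of_pos (by norm_num)]
            norm_num
          have hvτ : 0 ≤ ‖v‖ ^ τ := Real.rpow_nonneg (norm_nonneg v) τ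
          have hVn : 0 ≤ |V| * KB * ‖v‖ := by positivity
          rw [hc1, hc2, ENNReal.ofReal_rpow_of_nonneg hKB0 hq0,
            ENNReal.ofReal_rpow_of_nonneg hVn hq0, h9, ← ENNReal.ofReal_mul hD.le,
            ← ENNReal.ofReal_mul (Real.rpow_nonneg hKB0 q),
            ← ENNReal.ofReal_mul (Real.rpow_nonneg hVn q),
            ← ENNReal.ofReal_add (by positivity) (by positivity),
            ← ENNReal.ofReal_mul (by positivity)]
      _ ≤ _ := by
          refine ENNReal.ofReal_le_ofReal ?_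
          have h9 : (|V| * KB * ‖v‖) ^ q ≤ (|V| * KB) ^ q * ‖v‖ ^ τ := by
            rw [Real.mul_rpow (by positivity) (norm_nonneg v)]
            gcongr
          have h10 : (|V| * KB * ‖v‖) ^ q * VB ≤ (|V| * KB) ^ q * ‖v‖ ^ τ * VB :=
            mul_le_mul_of_nonneg_right h9 hVB0
          calc 2 ^ (q - 1) * (KB ^ q * (D * (V1 * ‖v‖ ^ τ)) + (|V| * KB * ‖v‖) ^ q * VB)
              ≤ 2 ^ (q - 1) * (KB ^ q * (D * (V1 * ‖v‖ ^ τ)) +
                  (|V| * KB) ^ q * ‖v‖ ^ τ * VB) := by gcongr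
            _ = _ := by ring
  calc ∫⁻ p : ℝ × E m, ‖g (X (p.1, p.2 + v)) * K (p.1, p.2 + v) - g (X p) * K p‖ₑ ^ q
      ≤ ∫⁻ p, 2 ^ (q - 1) * (om (p + (0, v)) ^ q + om p ^ q) := by
        refine lintegral_mono fun p => ?_
        refine (ENNReal.rpow_le_rpow (hpt p) hq0).trans ?_
        exact ENNReal.rpow_add_le_mul_rpow_add_rpow _ _ hq
    _ = 2 ^ (q - 1) * ((∫⁻ p, om p ^ q) + ∫⁻ p, om p ^ q) := by
        rw [lintegral_const_mul' _ _ h2q, lintegral_add_right _ (homm.pow_const q)]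
        congr 2
        have : (volume : Measure (ℝ × E m)).IsAddRightInvariant := by
          rw [Measure.volume_eq_prod]
          infer_instance
        exact lintegral_add_right_eq_self (fun p => om p ^ q) (0, v)
    _ = 2 ^ q * ∫⁻ p, om p ^ q := by
        rw [← two_mul, ← mul_assoc]
        congr 1
        have h9 : (2 : ℝ≥0∞) ^ (q - 1) * 2 = 2 ^ (q - 1) * 2 ^ (1 : ℝ) := by
          rw [ENNReal.rpow_one]
        rw [h9, ← ENNReal.rpow_add_of_nonneg _ _ (by linarith) zero_le_one, sub_add_cancel]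
    _ ≤ 2 ^ q * ENNReal.ofReal (2 ^ (q - 1) *
          (KB ^ q * (D * V1) + (|V| * KB) ^ q * VB) * ‖v‖ ^ τ) := mul_le_mul_right homi _
    _ = _ := by
        have h9 : (2 : ℝ≥0∞) ^ q = ENNReal.ofReal (2 ^ q) := by
          rw [← ENNReal.ofReal_rpow_of_pos (by norm_num)]
          norm_num
        rw [h9, ← ENNReal.ofReal_mul (by positivity)]
        congr 1
        ring

/-- The auxiliary exponent. -/
theorem exp_mid {m : ℕ} (hm : 1 ≤ m) {q τ p : ℝ} (hqp : q ≤ p) (hq4 : q < 4) (hτ : 0 < τ)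
    (hp : 2 * ((m : ℝ) + 2) / (m + 1) < p) (hτp : 4 - 2 * τ < p) :
    ∃ p1, q ≤ p1 ∧ 2 * ((m : ℝ) + 2) / (m + 1) < p1 ∧ p1 < 4 ∧ p1 ≤ p ∧ (4 - p1) / 2 < τ := by
  have hm1 : (1 : ℝ) ≤ m := by exact_mod_cast hm
  have h3 : 2 * ((m : ℝ) + 2) / (m + 1) < 4 := by
    rw [div_lt_iff₀ (by linarith)]
    linarith
  rcases lt_or_ge p 4 with h | h
  · exact ⟨p, hqp, hp, h, le_rfl, by linarith⟩
  · obtain ⟨p1, h1, h2⟩ := exists_between
      (max_lt (max_lt hq4 h3) (by linarith : 4 - 2 * τ < 4))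
    have h4 := (max_lt_iff.1 h1).1
    have h5 := (max_lt_iff.1 h1).2
    have h6 := (max_lt_iff.1 h4).1
    have h7 := (max_lt_iff.1 h4).2
    exact ⟨p1, h6.le, h7, h2, by linarith, by linarith⟩

theorem modh_exp (m : ℕ) : 2 * ((m + 2 : ℕ) : ℝ) / (((m + 2 : ℕ) : ℝ) - 1) =
    2 * ((m : ℝ) + 2) / (m + 1) := by
  push_cast
  congr 1
  ring

/-- **The sphere, a modulus of continuity in the mean along the leaves.** -/
theorem leafM_at (n : ℕ) (hn : 3 ≤ n) (φ : E n → ℝ) (x0 : E n) (hx0 : ‖x0‖ = 1)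
    (hφ : ∀ᶠ x in 𝓝 x0, ContDiffAt ℝ ∞ φ x) (hcyc : Cyc φ x0) :
    ∃ U : Set (E n), IsOpen U ∧ x0 ∈ U ∧ ∀ q τ p : ℝ, 2 ≤ q → q ≤ p → q < 4 → 0 < τ → τ ≤ q →
      2 * (n : ℝ) / (n - 1) < p → 4 - 2 * τ < p → ∀ V : ℝ, ∃ C : ℝ≥0∞, C ≠ ⊤ ∧
        ∀ g : E n → ℂ, ClM φ q τ V g →
          (∀ x, ‖x‖ = 1 → x ∉ U → g x = 0) → ∫⁻ ξ, ‖extn g ξ‖ₑ ^ p ≤ C := by
  obtain ⟨m, rfl⟩ : ∃ m, n = m + 2 := ⟨n - 2, by omega⟩
  have hm : 1 ≤ m := by omega
  obtain ⟨X, A, p0, δ, hδ, hX, hA, hp0, h1, h2, hinj, him, hnb⟩ := ch1 hm φ x0 hx0 hφ hcyc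
  have him0 : ∀ v, fderiv ℝ X p0 v = 0 → v = 0 := him p0 (by simpa using hδ.le)
  have hnear : ∀ᶠ q in 𝓝 p0, ‖q - p0‖ ≤ δ := by
    filter_upwards [Metric.closedBall_mem_nhds p0 hδ] with q hq
    rwa [Metric.mem_closedBall, dist_eq_norm] at hq
  have hN : ∀ w : E (m + 2), w ≠ 0 → (∀ v : E m, ⟪w, fderiv ℝ X p0 (0, v)⟫ = 0) →
      ∀ v : E m, v ≠ 0 → ∃ u : ℝ × E m, ⟪w, fderiv ℝ (fderiv ℝ X) p0 (0, v) u⟫ ≠ 0 := by
    intro w hw hwV v hv
    refine cyc_N (Y := E m) (by rw [finrank_euclideanSpace_fin]) (X := X) (φ := φ) (p := p0)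
      (hX.of_le (by norm_cast)).contDiffAt ?_ ?_ ?_ ?_ ?_ hw hwV hv
    · rw [hp0]
      exact hφ.self_of_nhds.of_le (by norm_cast)
    · exact hnear.mono h1
    · exact hnear.mono h2
    · intro a c hac
      have h3 : fderiv ℝ X p0 (a - c) = 0 := by rw [map_sub, hac, sub_self]
      exact sub_eq_zero.1 (him0 _ h3)
    · rwa [hp0]
  obtain ⟨δ1, hδ1, -, hcore⟩ := core_modl hm X A p0 hδ hX hA h1 him0 hN
  obtain ⟨r, hr, K, hK1, hK2, hK3, hK4⟩ := ch3g x0 X p0 hδ hX hp0 h1 hinj him hnb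
    (min δ1 (δ / 2)) (lt_min hδ1 (by linarith))
  refine ⟨Metric.ball x0 r, Metric.isOpen_ball, Metric.mem_ball_self hr, ?_⟩
  intro q τ p hq hqp hq4 hτ hτq hp hτp V
  rw [modh_exp] at hp
  obtain ⟨p1, hqp1, hp1, hp14, hp1p, hτ1⟩ := exp_mid hm hqp hq4 hτ hp hτp
  obtain ⟨B, H, hBH⟩ := mod_chart φ X p0 hδ hX A hA h1 h2 hinj him hK1 hK2
    (fun p hp => ((hK3 p hp).2.trans_le (min_le_right _ _)).le) (q := q) (τ := τ)
    (by linarith) hτ.le hτq V
  obtain ⟨C, hC, hcore'⟩ := hcore p p1 q τ B H hq hqp1 hp1 hp14 hp1p hτ1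
  refine ⟨ENNReal.ofReal (((2 * π) ^ (m + 2))⁻¹) * C,
    ENNReal.mul_ne_top ENNReal.ofReal_ne_top hC, fun g hg hgU => ?_⟩
  obtain ⟨hb1, hb2⟩ := hBH g hg
  have hg0 : ∀ x, ‖x‖ = 1 → r ≤ ‖x - x0‖ → g x = 0 := by
    intro x hx hxr
    refine hgU x hx ?_
    rw [Metric.mem_ball, dist_eq_norm, not_lt]
    exact hxr
  have h3 := asm_scale (2 * π) (by positivity)
    (fun η : E (m + 2) => ‖Tb X (fun p => g (X p) * K p) η‖ₑ ^ p) univ
  rw [preimage_univ, Measure.restrict_univ] at h3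
  simp_rw [hK4 g hg0]
  rw [h3]
  refine mul_le_mul_right (hcore' _ ?_ hb1 hb2 ?_) _
  · exact (hg.1.comp hX.continuous.measurable).mul hK1.continuous.measurable
  · intro y hy
    have h5 : K y = 0 := by
      by_contra h
      exact absurd ((hK3 y h).2.trans_le (min_le_left _ _)) (not_lt.2 hy)
    rw [h5, mul_zero]

/-- Multiplication by a Lipschitz function. -/
theorem clM_smul {n : ℕ} {φ : E n → ℝ} {q τ V : ℝ} (hq : 1 ≤ q) (hτq : τ ≤ q) {A : ℝ}
    (hA : 0 ≤ A) : ∃ V' : ℝ, ∀ g : E n → ℂ, ClM φ q τ V g → ∀ χ : E n → ℝ, Measurable χ →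
      (∀ x, 0 ≤ χ x ∧ χ x ≤ 1) → (∀ x y, |χ x - χ y| ≤ A * ‖x - y‖) →
      ClM φ q τ V' fun x => χ x • g x := by
  have hσ : 0 ≤ (sm n).real univ := measureReal_nonneg
  have hAV : 0 ≤ (A * |V|) ^ q := Real.rpow_nonneg (by positivity) q
  refine ⟨|V| + 2 ^ (q - 1) * (|V| + (A * |V|) ^ q * (sm n).real univ),
    fun g hg χ hχm hχ hL => ?_⟩
  have hV0 := abs_nonneg V
  have hgV : ∀ x, ‖g x‖ ≤ |V| := fun x => (hg.2.1 x).trans (le_abs_self V)
  have hq0 : 0 ≤ q := by linarith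
  have hbig : 0 ≤ 2 ^ (q - 1) * (|V| + (A * |V|) ^ q * (sm n).real univ) := by positivity
  refine ⟨hχm.smul hg.1, fun x => ?_, fun r hr hr1 => ?_⟩
  · rw [norm_smul, Real.norm_eq_abs, abs_of_nonneg (hχ x).1]
    have h1 : χ x * ‖g x‖ ≤ 1 * |V| := mul_le_mul (hχ x).2 (hgV x) (norm_nonneg _) zero_le_one
    linarith
  · obtain ⟨h, hm, hi, hh⟩ := hg.2.2 r hr hr1
    have hrτ : 0 ≤ r ^ τ := Real.rpow_nonneg hr.le τ
    have hrq : r ^ q ≤ r ^ τ := Real.rpow_le_rpow_of_exponent_ge hr hr1 hτq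
    refine ⟨fun x => h x + ENNReal.ofReal (A * |V| * r), hm.add measurable_const, ?_,
      fun x y hx hy hxy hr' => ?_⟩
    · have h2q : (2 : ℝ≥0∞) ^ (q - 1) ≠ ⊤ :=
        ENNReal.rpow_ne_top_of_nonneg (by linarith) ENNReal.ofNat_ne_top
      have hAr : 0 ≤ A * |V| * r := by positivity
      calc ∫⁻ x : S n, (h x + ENNReal.ofReal (A * |V| * r)) ^ q ∂(sm n)
          ≤ ∫⁻ x : S n, 2 ^ (q - 1) * (h x ^ q + ENNReal.ofReal (A * |V| * r) ^ q) ∂(sm n) :=
            lintegral_mono fun x => ENNReal.rpow_add_le_mul_rpow_add_rpow _ _ hq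
        _ = 2 ^ (q - 1) * ((∫⁻ x : S n, h x ^ q ∂(sm n)) +
              ENNReal.ofReal (A * |V| * r) ^ q * (sm n) univ) := by
            rw [lintegral_const_mul' _ _ h2q, lintegral_add_right _ measurable_const,
              lintegral_const]
        _ ≤ 2 ^ (q - 1) * (ENNReal.ofReal (V * r ^ τ) +
              ENNReal.ofReal ((A * |V| * r) ^ q) * ENNReal.ofReal ((sm n).real univ)) := by
            have h8 : (sm n) univ = ENNReal.ofReal ((sm n).real univ) :=
              (ENNReal.ofReal_toReal (measure_ne_top (sm n) univ)).symm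
            rw [h8, ENNReal.ofReal_rpow_of_nonneg hAr hq0]
            gcongr
        _ ≤ 2 ^ (q - 1) * ENNReal.ofReal ((|V| + (A * |V|) ^ q * (sm n).real univ) * r ^ τ) := by
            refine mul_le_mul_right ?_ _
            rw [← ENNReal.ofReal_mul (Real.rpow_nonneg hAr q)]
            refine (add_le_add_left (ENNReal.ofReal_le_ofReal
              (mul_le_mul_of_nonneg_right (le_abs_self V) hrτ)) _).trans ?_
            rw [← ENNReal.ofReal_add (by positivity)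
              (mul_nonneg (Real.rpow_nonneg hAr q) hσ)]
            refine ENNReal.ofReal_le_ofReal ?_
            rw [Real.mul_rpow (by positivity) hr.le, add_mul]
            have h9 : (A * |V|) ^ q * r ^ q * (sm n).real univ ≤
                (A * |V|) ^ q * r ^ τ * (sm n).real univ := by gcongr
            linarith
        _ = ENNReal.ofReal (2 ^ (q - 1) *
              (|V| + (A * |V|) ^ q * (sm n).real univ) * r ^ τ) := by
            have h9 : (2 : ℝ≥0∞) ^ (q - 1) = ENNReal.ofReal (2 ^ (q - 1)) := by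
              rw [← ENNReal.ofReal_rpow_of_pos (by norm_num)]
              norm_num
            rw [h9, ← ENNReal.ofReal_mul (by positivity)]
            congr 1
            ring
        _ ≤ _ := by
            refine ENNReal.ofReal_le_ofReal (mul_le_mul_of_nonneg_right ?_ hrτ)
            linarith
    · have h1 : χ x • g x - χ y • g y = χ x • (g x - g y) + (χ x - χ y) • g y := by
        rw [smul_sub, sub_smul]
        abel
      simp only
      rw [h1]
      have h2 : ‖χ x • (g x - g y)‖ₑ ≤ h x + h y := by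
        refine le_trans ?_ (hh x y hx hy hxy hr')
        rw [← ofReal_norm, ← ofReal_norm]
        refine ENNReal.ofReal_le_ofReal ?_
        rw [norm_smul, Real.norm_eq_abs, abs_of_nonneg (hχ x).1]
        exact mul_le_of_le_one_left (norm_nonneg _) (hχ x).2
      have h3 : ‖(χ x - χ y) • g y‖ₑ ≤ ENNReal.ofReal (A * |V| * r) := by
        rw [← ofReal_norm]
        refine ENNReal.ofReal_le_ofReal ?_
        rw [norm_smul, Real.norm_eq_abs]
        calc |χ x - χ y| * ‖g y‖ ≤ A * r * |V| :=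
              mul_le_mul ((hL x y).trans (mul_le_mul_of_nonneg_left hr' hA)) (hgV y)
                (norm_nonneg _) (by positivity)
          _ = _ := by ring
      calc ‖χ x • (g x - g y) + (χ x - χ y) • g y‖ₑ
          ≤ (h x + h y) + ENNReal.ofReal (A * |V| * r) :=
            (enorm_add_le _ _).trans (add_le_add h2 h3)
        _ ≤ (h x + ENNReal.ofReal (A * |V| * r)) + (h y + ENNReal.ofReal (A * |V| * r)) := by
            rw [add_assoc]
            exact add_le_add le_self_add le_rfl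

theorem stab_clM {n : ℕ} (φ : E n → ℝ) {q τ : ℝ} (hq : 1 ≤ q) (hτq : τ ≤ q) :
    Stab fun V => ClM φ q τ V := by
  intro χ hχ hc hχ1 V
  obtain ⟨A, hA, hL⟩ := exists_lip hχ hc
  obtain ⟨V', hV'⟩ := clM_smul (φ := φ) (V := V) hq hτq hA
  refine ⟨V', V', fun g hg => ⟨hV' g hg χ hχ.continuous.measurable hχ1 hL, ?_⟩⟩
  have h2 := hV' g hg (fun x => 1 - χ x) (measurable_const.sub hχ.continuous.measurable)
    (fun x => ⟨by linarith [(hχ1 x).2], by linarith [(hχ1 x).1]⟩) (fun x y => by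
      have e : 1 - χ x - (1 - χ y) = -(χ x - χ y) := by ring
      rw [e, abs_neg]
      exact hL x y)
  have e : (fun x => g x - χ x • g x) = fun x => (1 - χ x) • g x := by
    funext x
    rw [sub_smul, one_smul]
  rw [e]
  exact h2

/-- **Densities with a modulus of continuity in the mean along the level sets of `φ`** and nothing
across them. -/
theorem leafM {n : ℕ} (hn : 3 ≤ n) (φ : E n → ℝ) {K : Set (E n)} (hK : IsCompact K)
    (hc : ∀ x ∈ K, ‖x‖ = 1 ∧ (∀ᶠ y in 𝓝 x, ContDiffAt ℝ ∞ φ y) ∧ Cyc φ x) {q τ p : ℝ}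
    (hq : 2 ≤ q) (hqp : q ≤ p) (hq4 : q < 4) (hτ : 0 < τ) (hτq : τ ≤ q)
    (hp : 2 * (n : ℝ) / (n - 1) < p) (hτp : 4 - 2 * τ < p) (V : ℝ) :
    ∃ C : ℝ≥0∞, C ≠ ⊤ ∧ ∀ g : E n → ℂ, ClM φ q τ V g →
      (∀ x, ‖x‖ = 1 → x ∉ K → g x = 0) → ∫⁻ ξ, ‖extn g ξ‖ₑ ^ p ≤ C := by
  obtain ⟨U, -, hKU, h⟩ := gb_compact (n := n) (ι := ℝ) (J := Unit)
    (𝒞 := fun _ V => ClM φ q τ V) (p := fun _ => p)
    (fun _ => by linarith) (fun _ M g hg => hg.1) (fun _ M g hg => ⟨M, hg.2.1⟩)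
    (fun _ => stab_clM φ (by linarith) hτq) hK fun x hx => by
      obtain ⟨U, hU, hxU, h⟩ := leafM_at n hn φ x (hc x hx).1 (hc x hx).2.1 (hc x hx).2.2
      exact ⟨U, hU, hxU, fun _ => h q τ p hq hqp hq4 hτ hτq hp hτp⟩
  obtain ⟨C, hC, h'⟩ := h () V
  exact ⟨C, hC, fun g hg h0 => h' g hg fun x hx hxU => h0 x hx fun hxK => hxU (hKU hxK)⟩

/-- The same for every `q ≤ p`, with superpositions: one constant for the class. -/
theorem leafM_bd {n : ℕ} (hn : 3 ≤ n) (φ : E n → ℝ) {K : Set (E n)} (hK : IsCompact K)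
    (hc : ∀ x ∈ K, ‖x‖ = 1 ∧ (∀ᶠ y in 𝓝 x, ContDiffAt ℝ ∞ φ y) ∧ Cyc φ x) {q τ p : ℝ}
    (hq : 0 < q) (hqp : q ≤ p) (hτ : 0 < τ) (hp : 2 * (n : ℝ) / (n - 1) < p)
    (hτp : 4 - 2 * τ < p) (V : ℝ) :
    LFD.Bd n p fun g => ClM φ q τ V g ∧ ∀ x, ‖x‖ = 1 → x ∉ K → g x = 0 := by
  have hn' : (3 : ℝ) ≤ n := by exact_mod_cast hn
  have hp2 : 2 ≤ p := by
    refine le_trans ?_ hp.le
    rw [le_div_iff₀ (by linarith)]
    linarith
  obtain ⟨q1, τ1, V1, h1, h2, h3, h4, h5, h6, h7⟩ := clM_red φ hq hqp hp2 hτ hτp V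
  obtain ⟨C, hC, h8⟩ := leafM hn φ hK hc h1 h2 h3 h4 h5 hp h6 V1
  exact LFD.bd_of (M := V) (by linarith) _ (fun g hg x => hg.1.2.1 x)
    ⟨C, hC, fun g _ hg => h8 g (h7 g hg.1) hg.2⟩

/-- The critical exponents: one class for all `p > 2n/(n-1)`. -/
theorem leafM_crit {n : ℕ} (hn : 3 ≤ n) (φ : E n → ℝ) {K : Set (E n)} (hK : IsCompact K)
    (hc : ∀ x ∈ K, ‖x‖ = 1 ∧ (∀ᶠ y in 𝓝 x, ContDiffAt ℝ ∞ φ y) ∧ Cyc φ x) {p : ℝ}
    (hp : 2 * (n : ℝ) / (n - 1) < p) (V : ℝ) :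
    LFD.Bd n p fun g => ClM φ (2 * n / (n - 1)) ((n - 2) / (n - 1)) V g ∧
      ∀ x, ‖x‖ = 1 → x ∉ K → g x = 0 := by
  have hn' : (3 : ℝ) ≤ n := by exact_mod_cast hn
  have h1 : (0 : ℝ) < n - 1 := by linarith
  refine leafM_bd hn φ hK hc (by positivity) hp.le (div_pos (by linarith) h1) hp ?_ V
  have e : 4 - 2 * (((n : ℝ) - 2) / (n - 1)) = 2 * (n : ℝ) / (n - 1) := by
    field_simp
    ring
  rwa [e]

end Pool.Agent.LF2
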