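import Pool.Agent.LF.CORE0

/-!
[LEAF2] Moduli of continuity along the leaves and multiplication by smooth functions (helper11).
-/

set_option autoImplicit false

namespace Pool.Agent.LF2

open MeasureTheory Set Metric Pool.Agent.MP_6cbfb8_an Pool.Agent.LF
open scoped ENNReal Real RealInnerProductSpace ContDiff

/-- A smooth function with compact support is bounded and Lipschitz. -/
theorem smooth_lip {m : ℕ} {κ : ℝ × E m → ℂ} (hκ : ContDiff ℝ ∞ κ) (hc : HasCompactSupport κ) :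
    ∃ K : ℝ, 0 ≤ K ∧ (∀ p, ‖κ p‖ ≤ K) ∧ ∀ p p', ‖κ p - κ p'‖ ≤ K * ‖p - p'‖ := by
  obtain ⟨K1, hK1⟩ := hc.exists_bound_of_continuous hκ.continuous
  have hd : Continuous (fderiv ℝ κ) := hκ.continuous_fderiv (by simp)
  obtain ⟨K2, hK2⟩ := (hc.fderiv (𝕜 := ℝ)).exists_bound_of_continuous hd
  have hK1' : 0 ≤ K1 := (norm_nonneg _).trans (hK1 0)
  have hK2' : 0 ≤ K2 := (norm_nonneg _).trans (hK2 0)
  refine ⟨K1 + K2, by positivity, fun p => (hK1 p).trans (by linarith), fun p p' => ?_⟩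
  have h := Convex.norm_image_sub_le_of_norm_fderiv_le (𝕜 := ℝ) (f := κ) (C := K2)
    (fun x _ => (hκ.differentiable (by simp)).differentiableAt) (fun x _ => hK2 x)
    convex_univ (mem_univ p') (mem_univ p)
  refine h.trans ?_
  gcongr
  linarith

/-- The modulus of a product with a smooth function supported in a ball: only the modulus near the
ball counts. -/
theorem mod_mul {m : ℕ} {κ : ℝ × E m → ℂ} (hκ : ContDiff ℝ ∞ κ) (hc : HasCompactSupport κ)
    (y0 : ℝ × E m) {ρ : ℝ} (hs : ∀ p, κ p ≠ 0 → ‖p - y0‖ ≤ ρ)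
    {q τ H : ℝ} (hq : 1 ≤ q) (hτq : τ ≤ q) (hH : 0 ≤ H) :
    ∃ H' : ℝ, 0 ≤ H' ∧ ∀ G : ℝ × E m → ℂ, Measurable G → (∀ x, ‖G x‖ ≤ 1) →
      (∀ v : E m, ‖v‖ ≤ 1 → ∫⁻ p : ℝ × E m in closedBall y0 (ρ + 1),
        ‖G (p.1, p.2 + v) - G p‖ₑ ^ q ≤ ENNReal.ofReal (H * ‖v‖ ^ τ)) →
      ∀ v : E m, ‖v‖ ≤ 1 →
        ∫⁻ p : ℝ × E m, ‖κ (p.1, p.2 + v) * G (p.1, p.2 + v) - κ p * G p‖ₑ ^ q ≤
          ENNReal.ofReal (H' * ‖v‖ ^ τ) := by
  obtain ⟨K, hK0, hK1, hK2⟩ := smooth_lip hκ hc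
  have hρ' : ∀ p, ρ < ‖p - y0‖ → κ p = 0 := by
    intro p hp
    by_contra h
    exact absurd (hs p h) (not_le.2 hp)
  set W : ℝ := volume.real (closedBall y0 (ρ + 1)) with hW
  have hWt : volume (closedBall y0 (ρ + 1)) ≠ ⊤ :=
    (isCompact_closedBall _ _).measure_lt_top.ne
  have hq0 : 0 ≤ q := by linarith
  refine ⟨2 ^ (q - 1) * (K ^ q * H + K ^ q * W), by positivity, ?_⟩
  intro G hG hG1 hmod v hv
  have hvq : ‖v‖ ^ q ≤ ‖v‖ ^ τ := by
    rcases (norm_nonneg v).eq_or_lt with h0 | h0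
    · rw [← h0, Real.zero_rpow (by linarith)]
      exact Real.rpow_nonneg le_rfl _
    · exact Real.rpow_le_rpow_of_exponent_ge h0 hv hτq
  have e3 : ‖((0, v) : ℝ × E m)‖ = ‖v‖ := by
    rw [Prod.norm_mk, norm_zero]
    exact max_eq_right (norm_nonneg _)
  have e2 : ∀ p : ℝ × E m, ((p.1, p.2 + v) : ℝ × E m) = p + (0, v) := by
    intro p
    ext <;> simp
  have hpt : ∀ p : ℝ × E m, ‖κ (p.1, p.2 + v) * G (p.1, p.2 + v) - κ p * G p‖ₑ ^ q ≤
      (closedBall y0 (ρ + 1)).indicator (fun p =>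
        2 ^ (q - 1) * (ENNReal.ofReal K ^ q * ‖G (p.1, p.2 + v) - G p‖ₑ ^ q +
          ENNReal.ofReal (K * ‖v‖) ^ q)) p := by
    intro p
    by_cases hp : p ∈ closedBall y0 (ρ + 1)
    · rw [indicator_of_mem hp]
      have e1 : κ (p.1, p.2 + v) * G (p.1, p.2 + v) - κ p * G p =
          κ (p.1, p.2 + v) * (G (p.1, p.2 + v) - G p) + (κ (p.1, p.2 + v) - κ p) * G p := by ring
      have h1 : ‖κ (p.1, p.2 + v) * (G (p.1, p.2 + v) - G p)‖ₑ ≤
          ENNReal.ofReal K * ‖G (p.1, p.2 + v) - G p‖ₑ := by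
        rw [enorm_mul]
        gcongr
        rw [← ofReal_norm]
        exact ENNReal.ofReal_le_ofReal (hK1 _)
      have h2 : ‖(κ (p.1, p.2 + v) - κ p) * G p‖ₑ ≤ ENNReal.ofReal (K * ‖v‖) := by
        rw [← ofReal_norm]
        apply ENNReal.ofReal_le_ofReal
        rw [norm_mul]
        calc ‖κ (p.1, p.2 + v) - κ p‖ * ‖G p‖ ≤ (K * ‖v‖) * 1 := by
              gcongr
              · refine (hK2 _ _).trans (le_of_eq ?_)
                rw [e2, add_sub_cancel_left, e3]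
              · exact hG1 p
          _ = K * ‖v‖ := mul_one _
      calc ‖κ (p.1, p.2 + v) * G (p.1, p.2 + v) - κ p * G p‖ₑ ^ q
          ≤ (ENNReal.ofReal K * ‖G (p.1, p.2 + v) - G p‖ₑ + ENNReal.ofReal (K * ‖v‖)) ^ q := by
            rw [e1]
            gcongr
            exact (enorm_add_le _ _).trans (add_le_add h1 h2)
        _ ≤ 2 ^ (q - 1) * ((ENNReal.ofReal K * ‖G (p.1, p.2 + v) - G p‖ₑ) ^ q +
            ENNReal.ofReal (K * ‖v‖) ^ q) := ENNReal.rpow_add_le_mul_rpow_add_rpow _ _ hq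
        _ = _ := by rw [ENNReal.mul_rpow_of_nonneg _ _ hq0]
    · rw [indicator_of_notMem hp]
      rw [mem_closedBall, dist_eq_norm, not_le] at hp
      have h3 : κ p = 0 := hρ' p (by linarith)
      have h4 : κ (p.1, p.2 + v) = 0 := by
        apply hρ'
        have e5 : ((p.1, p.2 + v) : ℝ × E m) - y0 = (p - y0) + (0, v) := by
          rw [e2]
          abel
        rw [e5]
        have := norm_sub_le_norm_add (p - y0) ((0, v) : ℝ × E m)
        rw [e3] at this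
        linarith
      rw [h3, h4]
      simp [show 0 < q by linarith]
  have h2t : (2 : ℝ≥0∞) ^ (q - 1) ≠ ⊤ := ENNReal.rpow_ne_top_of_nonneg (by linarith) (by norm_num)
  calc ∫⁻ p : ℝ × E m, ‖κ (p.1, p.2 + v) * G (p.1, p.2 + v) - κ p * G p‖ₑ ^ q
      ≤ ∫⁻ p : ℝ × E m in closedBall y0 (ρ + 1),
        2 ^ (q - 1) * (ENNReal.ofReal K ^ q * ‖G (p.1, p.2 + v) - G p‖ₑ ^ q +
          ENNReal.ofReal (K * ‖v‖) ^ q) := by
        rw [← lintegral_indicator measurableSet_closedBall]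
        exact lintegral_mono hpt
    _ = 2 ^ (q - 1) * (ENNReal.ofReal K ^ q *
          (∫⁻ p : ℝ × E m in closedBall y0 (ρ + 1), ‖G (p.1, p.2 + v) - G p‖ₑ ^ q) +
        ENNReal.ofReal (K * ‖v‖) ^ q * volume (closedBall y0 (ρ + 1))) := by
        rw [lintegral_const_mul' _ _ h2t, lintegral_add_right _ measurable_const,
          lintegral_const_mul' _ _
          (ENNReal.rpow_ne_top_of_nonneg hq0 ENNReal.ofReal_ne_top), setLIntegral_const]
    _ ≤ 2 ^ (q - 1) * (ENNReal.ofReal K ^ q * ENNReal.ofReal (H * ‖v‖ ^ τ) +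
        ENNReal.ofReal (K * ‖v‖) ^ q * ENNReal.ofReal W) := by
        rw [← ofReal_measureReal hWt]
        gcongr
        exact hmod v hv
    _ ≤ ENNReal.ofReal (2 ^ (q - 1) * (K ^ q * H + K ^ q * W) * ‖v‖ ^ τ) := by
        have e4 : (2 : ℝ≥0∞) ^ (q - 1) = ENNReal.ofReal (2 ^ (q - 1)) := by
          rw [← ENNReal.ofReal_rpow_of_nonneg (by norm_num) (by linarith)]
          norm_num
        rw [e4, ENNReal.ofReal_rpow_of_nonneg hK0 hq0,
          ENNReal.ofReal_rpow_of_nonneg (by positivity) hq0,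
          ← ENNReal.ofReal_mul (by positivity), ← ENNReal.ofReal_mul (by positivity),
          ← ENNReal.ofReal_add (by positivity) (by positivity),
          ← ENNReal.ofReal_mul (by positivity)]
        apply ENNReal.ofReal_le_ofReal
        rw [Real.mul_rpow hK0 (norm_nonneg _)]
        have h5 : K ^ q * ‖v‖ ^ q * W ≤ K ^ q * ‖v‖ ^ τ * W := by gcongr
        have h6 : K ^ q * (H * ‖v‖ ^ τ) + K ^ q * ‖v‖ ^ q * W ≤
            (K ^ q * H + K ^ q * W) * ‖v‖ ^ τ := by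
          calc K ^ q * (H * ‖v‖ ^ τ) + K ^ q * ‖v‖ ^ q * W
              ≤ K ^ q * (H * ‖v‖ ^ τ) + K ^ q * ‖v‖ ^ τ * W := by linarith
            _ = (K ^ q * H + K ^ q * W) * ‖v‖ ^ τ := by ring
        calc 2 ^ (q - 1) * (K ^ q * (H * ‖v‖ ^ τ) + K ^ q * ‖v‖ ^ q * W)
            ≤ 2 ^ (q - 1) * ((K ^ q * H + K ^ q * W) * ‖v‖ ^ τ) :=
              mul_le_mul_of_nonneg_left h6 (by positivity)
          _ = 2 ^ (q - 1) * (K ^ q * H + K ^ q * W) * ‖v‖ ^ τ := by ring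

end Pool.Agent.LF2
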