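import Pool.Agent.LF.NSP

/-!
LEAF2 row NSP_a: non-stationary phase on a cap of radius `a / R` for amplitudes of frequency at most
`a` along the leaf, `a ≥ √R`.
-/

set_option autoImplicit false

namespace Pool.Agent.LF2

open MeasureTheory Set Metric Pool.Agent.MP_6cbfb8_an Pool.Agent.LF
open scoped Real ContDiff RealInnerProductSpace

/-- Non-stationary phase at the scale `l` for amplitudes with a larger support. -/
theorem nspw_z (m N : ℕ) : ∃ C : ℝ, 0 ≤ C ∧ ∀ (Bd M l ρ Y : ℝ) (A : E m → ℂ) (Φ : E m → ℝ)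
    (zc : E m), 0 ≤ Bd → 1 ≤ M → 0 < l → l ≤ 1 → l ≤ ρ → 0 < Y → ContDiff ℝ N A →
    ContDiff ℝ ∞ Φ → (∀ z, ρ < ‖z - zc‖ → A z = 0) →
    (∀ j ≤ N, ∀ z, ‖iteratedFDeriv ℝ j A z‖ ≤ Bd * (l ^ j)⁻¹) →
    (∀ j, 2 ≤ j → j ≤ N + 2 → ∀ z, ‖iteratedFDeriv ℝ j Φ z‖ ≤ M * (l ^ 2)⁻¹) →
    (∀ y, ‖y - zc‖ ≤ 2 * ρ → Y ≤ 1 + l * ‖fderiv ℝ Φ y‖) →
    ‖∫ z : E m, A z * Complex.exp ((Φ z : ℂ) * Complex.I)‖ ≤
      C * Bd * M ^ N * ρ ^ m * (1 / Y) ^ N := by
  obtain ⟨C, hC, hcore⟩ := nsp_core m N 1 le_rfl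
  obtain ⟨f, hf⟩ : ∃ f : ContDiffBump (0 : E m), f.rOut = 1 :=
    ⟨⟨1 / 2, 1, by norm_num, by norm_num⟩, rfl⟩
  set χ : E m → ℝ := f.normed volume with hχ
  have hχN : ContDiff ℝ (N : ℕ) χ := by
    have := f.contDiff_normed (μ := (volume : Measure (E m))) (n := (N : ℕ∞))
    exact_mod_cast this
  have hχs : ∀ u, 1 < ‖u‖ → χ u = 0 := by
    intro u hu
    have h1 : u ∉ Function.support χ := by
      rw [hχ, f.support_normed_eq, hf, mem_ball, dist_zero_right]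
      exact not_lt.2 hu.le
    exact Function.notMem_support.1 h1
  have hχi : ∫ u, χ u = 1 := f.integral_normed
  have hχb : ∃ Cχ : ℝ, 0 ≤ Cχ ∧ ∀ j ≤ N, ∀ u, ‖iteratedFDeriv ℝ j χ u‖ ≤ Cχ := by
    have h1 : ∀ j : ℕ, ∃ c : ℝ, 0 ≤ c ∧ (j ≤ N → ∀ u, ‖iteratedFDeriv ℝ j χ u‖ ≤ c) := by
      intro j
      by_cases hj : j ≤ N
      · obtain ⟨c, hc⟩ := ((f.hasCompactSupport_normed (μ := volume)).iteratedFDeriv
          (𝕜 := ℝ) j).exists_bound_of_continuous
          (hχN.continuous_iteratedFDeriv (by exact_mod_cast hj))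
        exact ⟨max c 0, le_max_right _ _, fun _ u => (hc u).trans (le_max_left _ _)⟩
      · exact ⟨0, le_rfl, fun h => absurd h hj⟩
    choose c hc0 hc using h1
    refine ⟨∑ j ∈ Finset.range (N + 1), c j, Finset.sum_nonneg fun j _ => hc0 j,
      fun j hj u => (hc j hj u).trans ?_⟩
    exact Finset.single_le_sum (fun i _ => hc0 i) (Finset.mem_range.2 (by omega))
  obtain ⟨Cχ, hCχ, hχb⟩ := hχb
  set vB : ℝ := (volume : Measure (E m)).real (ball 0 1) with hvB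
  have hvB0 : 0 ≤ vB := measureReal_nonneg
  refine ⟨C * (2 ^ N * Cχ) * (2 ^ m * vB), by positivity, ?_⟩
  intro Bd M l ρ Y A Φ zc hBd hM hl hl1 hlρ hY hA hΦ hAs hAb hΦb hYb
  have hρ : 0 < ρ := hl.trans_le hlρ
  set g : E m → ℂ := fun z => A z * Complex.exp ((Φ z : ℂ) * Complex.I) with hg
  have hgc : Continuous g := by
    have h1 : Continuous A := hA.continuous
    have h2 : Continuous Φ := hΦ.continuous
    fun_prop
  have hgs : ∀ z, ρ < ‖z - zc‖ → g z = 0 := by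
    intro z hz
    simp only [hg]
    rw [hAs z hz, zero_mul]
  have hχc : Continuous χ := hχN.continuous
  -- the cut-off at `y`
  have hcut : ∀ y z : E m, χ (l⁻¹ • z - l⁻¹ • y) ≠ 0 → ‖z - y‖ ≤ l := by
    intro y z h
    by_contra hcon
    rw [not_le] at hcon
    refine h (hχs _ ?_)
    rw [← smul_sub, norm_smul, norm_inv, Real.norm_of_nonneg hl.le, ← div_eq_inv_mul, lt_div_iff₀ hl,
      one_mul]
    exact hcon
  -- the partition
  have hpart : ∀ z : E m, ∫ y : E m, χ (l⁻¹ • z - l⁻¹ • y) = l ^ m := by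
    intro z
    have h1 := Measure.integral_comp_inv_smul_of_nonneg (volume : Measure (E m))
      (fun u => χ (l⁻¹ • z - u)) hl.le
    rw [h1, integral_sub_left_eq_self χ volume (l⁻¹ • z), hχi, finrank_euclideanSpace_fin,
      smul_eq_mul, mul_one]
  have hint : Integrable (Function.uncurry fun z y : E m => χ (l⁻¹ • z - l⁻¹ • y) • g z)
      (volume.prod volume) := by
    rw [← Measure.volume_eq_prod]
    refine Continuous.integrable_of_hasCompactSupport ?_ ?_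
    · unfold Function.uncurry
      fun_prop
    · refine HasCompactSupport.intro ((isCompact_closedBall zc ρ).prod
        (isCompact_closedBall zc (2 * ρ))) ?_
      rintro ⟨z, y⟩ h
      simp only [Function.uncurry]
      by_contra hcon
      rw [smul_eq_zero, not_or] at hcon
      refine h ⟨?_, ?_⟩
      · rw [mem_closedBall_iff_norm]
        by_contra hz
        exact hcon.2 (hgs z (not_le.1 hz))
      · have h1 := hcut y z hcon.1
        have h2 : ‖z - zc‖ ≤ ρ := by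
          by_contra hz
          exact hcon.2 (hgs z (not_le.1 hz))
        rw [mem_closedBall_iff_norm]
        calc ‖y - zc‖ = ‖(z - zc) - (z - y)‖ := by congr 1; abel
          _ ≤ ‖z - zc‖ + ‖z - y‖ := norm_sub_le _ _
          _ ≤ 2 * ρ := by linarith
  have hI : (l ^ m : ℝ) • ∫ z, g z = ∫ y : E m, ∫ z : E m, χ (l⁻¹ • z - l⁻¹ • y) • g z := by
    rw [← integral_integral_swap hint, ← integral_smul]
    refine integral_congr_ae (Filter.Eventually.of_forall fun z => ?_)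
    simp only
    rw [integral_smul_const, hpart]
  -- the bound for one `y`
  have hone : ∀ y, ‖y - zc‖ ≤ 2 * ρ → ‖∫ z : E m, χ (l⁻¹ • z - l⁻¹ • y) • g z‖ ≤
      C * (2 ^ N * Cχ * Bd) * M ^ N * l ^ m * (1 / Y) ^ N := by
    intro y hy
    have hχy : ContDiff ℝ N fun z : E m => χ (-(l⁻¹ • y) + l⁻¹ • z) :=
      hχN.comp (contDiff_const.add (contDiff_id.const_smul l⁻¹))
    have e1 : ∀ z : E m, χ (l⁻¹ • z - l⁻¹ • y) = χ (-(l⁻¹ • y) + l⁻¹ • z) := by
      intro z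
      congr 1
      abel
    have e2 : ∫ z : E m, χ (l⁻¹ • z - l⁻¹ • y) • g z =
        ∫ z : E m, (χ (-(l⁻¹ • y) + l⁻¹ • z) • A z) * Complex.exp ((Φ z : ℂ) * Complex.I) := by
      refine integral_congr_ae (Filter.Eventually.of_forall fun z => ?_)
      simp only [hg]
      rw [e1, smul_mul_assoc]
    rw [e2]
    have h1 := hcore (2 ^ N * Cχ * Bd) M l (fun z => χ (-(l⁻¹ • y) + l⁻¹ • z) • A z) Φ y
      (by positivity) hM hl hl1 (hχy.smul hA) hΦ (fun z hz => by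
        have : χ (l⁻¹ • z - l⁻¹ • y) = 0 := by
          by_contra hne
          exact absurd (hcut y z hne) (not_le.2 (by rwa [one_mul] at hz))
        rw [← e1, this, zero_smul]) (fun j hj z => by
        refine (norm_iteratedFDeriv_smul_le hχy hA z (by exact_mod_cast hj)).trans ?_
        have h3 : ∀ i ∈ Finset.range (j + 1), (j.choose i : ℝ) *
            ‖iteratedFDeriv ℝ i (fun z : E m => χ (-(l⁻¹ • y) + l⁻¹ • z)) z‖ *
              ‖iteratedFDeriv ℝ (j - i) A z‖ ≤ (j.choose i : ℝ) * (Cχ * Bd * (l ^ j)⁻¹) := by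
          intro i hi
          have hij : i ≤ j := Nat.lt_succ_iff.1 (Finset.mem_range.1 hi)
          have h4 : ‖iteratedFDeriv ℝ i (fun z : E m => χ (-(l⁻¹ • y) + l⁻¹ • z)) z‖ ≤
              Cχ * (l⁻¹) ^ i := by
            refine (nsp_comp (hχN.of_le (by exact_mod_cast hij.trans hj)) _
              (inv_nonneg.2 hl.le) z).trans ?_
            exact mul_le_mul_of_nonneg_right (hχb i (hij.trans hj) _) (by positivity)
          have h5 := hAb (j - i) ((Nat.sub_le j i).trans hj) z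
          have h6 : (l⁻¹) ^ i * (l ^ (j - i))⁻¹ = (l ^ j)⁻¹ := by
            rw [inv_pow, ← mul_inv, ← pow_add, Nat.add_sub_cancel' hij]
          calc (j.choose i : ℝ) *
              ‖iteratedFDeriv ℝ i (fun z : E m => χ (-(l⁻¹ • y) + l⁻¹ • z)) z‖ *
                ‖iteratedFDeriv ℝ (j - i) A z‖ ≤
              (j.choose i : ℝ) * (Cχ * (l⁻¹) ^ i) * (Bd * (l ^ (j - i))⁻¹) := by gcongr
            _ = (j.choose i : ℝ) * (Cχ * Bd * ((l⁻¹) ^ i * (l ^ (j - i))⁻¹)) := by ring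
            _ = _ := by rw [h6]
        refine (Finset.sum_le_sum h3).trans ?_
        rw [← Finset.sum_mul]
        have h7 : (∑ i ∈ Finset.range (j + 1), (j.choose i : ℝ)) = 2 ^ j := by
          rw [← Nat.cast_sum, Nat.sum_range_choose]
          norm_num
        rw [h7]
        calc (2 : ℝ) ^ j * (Cχ * Bd * (l ^ j)⁻¹) ≤ 2 ^ N * (Cχ * Bd * (l ^ j)⁻¹) := by
              refine mul_le_mul_of_nonneg_right (pow_le_pow_right₀ (by norm_num) hj) (by positivity)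
          _ = 2 ^ N * Cχ * Bd * (l ^ j)⁻¹ := by ring)
      (fun j hj1 hj2 z _ => hΦb j hj1 hj2 z)
    refine h1.trans ?_
    have h8 : 1 / (1 + l * ‖fderiv ℝ Φ y‖) ≤ 1 / Y := one_div_le_one_div_of_le hY (hYb y hy)
    have h9 : (1 / (1 + l * ‖fderiv ℝ Φ y‖)) ^ N ≤ (1 / Y) ^ N :=
      pow_le_pow_left₀ (by positivity) h8 N
    exact mul_le_mul_of_nonneg_left h9 (by positivity)
  -- the integral over `y`
  have hout : ∀ y, y ∉ closedBall zc (2 * ρ) → ∫ z : E m, χ (l⁻¹ • z - l⁻¹ • y) • g z = 0 := by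
    intro y hy
    rw [mem_closedBall_iff_norm, not_le] at hy
    have : ∀ z : E m, χ (l⁻¹ • z - l⁻¹ • y) • g z = 0 := by
      intro z
      by_contra hcon
      rw [smul_eq_zero, not_or] at hcon
      have h1 := hcut y z hcon.1
      have h2 : ‖z - zc‖ ≤ ρ := by
        by_contra hz
        exact hcon.2 (hgs z (not_le.1 hz))
      have h3 : ‖y - zc‖ ≤ ‖z - zc‖ + ‖z - y‖ := by
        calc ‖y - zc‖ = ‖(z - zc) - (z - y)‖ := by congr 1; abel
          _ ≤ ‖z - zc‖ + ‖z - y‖ := norm_sub_le _ _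
      linarith
    simp [this]
  have hlm : 0 < l ^ m := by positivity
  have h1 : l ^ m * ‖∫ z, g z‖ ≤
      C * (2 ^ N * Cχ * Bd) * M ^ N * l ^ m * (1 / Y) ^ N * ((2 * ρ) ^ m * vB) := by
    have h2 : l ^ m * ‖∫ z, g z‖ = ‖(l ^ m : ℝ) • ∫ z, g z‖ := by
      rw [norm_smul, Real.norm_of_nonneg hlm.le]
    rw [h2, hI, ← setIntegral_eq_integral_of_forall_compl_eq_zero hout]
    refine (norm_setIntegral_le_of_norm_le_const measure_closedBall_lt_top
      fun y hy => hone y (by rwa [mem_closedBall_iff_norm] at hy)).trans (le_of_eq ?_)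
    rw [Measure.addHaar_real_closedBall _ _ (by positivity), finrank_euclideanSpace_fin]
  have h3 : l ^ m * ‖∫ z, g z‖ ≤
      l ^ m * (C * (2 ^ N * Cχ) * (2 ^ m * vB) * Bd * M ^ N * ρ ^ m * (1 / Y) ^ N) := by
    refine h1.trans (le_of_eq ?_)
    rw [mul_pow]
    ring
  exact le_of_mul_le_mul_left h3 hlm

/-- Non-stationary phase in `z`, uniformly in the parameter `t`, amplitudes of frequency at most
`W`. -/
theorem nspw_abs (m N : ℕ) (c1 : ℝ) (hc1 : 1 ≤ c1) : ∃ C : ℝ, 0 ≤ C ∧ ∀ (M Bd R W ρ : ℝ)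
    (b : ℝ × E m → ℂ) (Φ : ℝ × E m → ℝ) (tc : ℝ) (zc : E m), 1 ≤ M → 0 ≤ Bd → 1 ≤ R →
    √R ≤ W → 1 / W ≤ ρ → ρ ≤ c1 * W / R →
    ContDiff ℝ ∞ Φ → (∀ j, 2 ≤ j → j ≤ N + 2 → ∀ p, ‖iteratedFDeriv ℝ j Φ p‖ ≤ M * R) →
    (∀ t, ContDiff ℝ N fun z => b (t, z)) → (∀ t z, ρ < |t - tc| → b (t, z) = 0) →
    (∀ t z, ρ < ‖z - zc‖ → b (t, z) = 0) →
    (∀ j ≤ N, ∀ t z, ‖iteratedFDeriv ℝ j (fun z => b (t, z)) z‖ ≤ Bd * W ^ j) →
    ‖∫ p, b p * Complex.exp ((Φ p : ℂ) * Complex.I)‖ ≤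
      C * Bd * M ^ (2 * N) * ρ ^ (m + 1) *
        (1 / (1 + ‖(fderiv ℝ Φ (tc, zc)).comp (ContinuousLinearMap.inr ℝ ℝ (E m))‖ / W)) ^ N := by
  obtain ⟨C, hC, hcore⟩ := nspw_z m N
  refine ⟨C * (3 * c1) ^ N * 2, by positivity, ?_⟩
  intro M Bd R W ρ b Φ tc zc hM hBd hR hRW hWρ hρW hΦ hΦb hbN hbt hbz hbd
  have hR0 : (0 : ℝ) < √R := Real.sqrt_pos.2 (by linarith)
  have hR1 : (1 : ℝ) ≤ √R := Real.one_le_sqrt.2 hR
  have hW1 : 1 ≤ W := hR1.trans hRW
  have hW0 : 0 < W := by linarith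
  set l : ℝ := 1 / W with hl
  have hl0 : 0 < l := by positivity
  have hl1 : l ≤ 1 := by rw [hl, div_le_one hW0]; exact hW1
  have hRW2 : R ≤ W ^ 2 := by
    calc R = √R ^ 2 := (Real.sq_sqrt (by linarith)).symm
      _ ≤ W ^ 2 := pow_le_pow_left₀ hR0.le hRW 2
  have hl2 : (l ^ 2)⁻¹ = W ^ 2 := by
    rw [hl, one_div, inv_pow, inv_inv]
  have hlj : ∀ j : ℕ, (l ^ j)⁻¹ = W ^ j := by
    intro j
    rw [hl, one_div, inv_pow, inv_inv]
  have hρ0 : 0 < ρ := hl0.trans_le hWρ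
  set x : ℝ := ‖(fderiv ℝ Φ (tc, zc)).comp (ContinuousLinearMap.inr ℝ ℝ (E m))‖ with hx
  have hx0 : 0 ≤ x := norm_nonneg _
  have hxl : x / W = l * x := by rw [hl]; ring
  rw [hxl]
  have hcM : 1 ≤ c1 * M := one_le_mul_of_one_le_of_one_le hc1 hM
  by_cases hint : Integrable (fun p : ℝ × E m => b p * Complex.exp ((Φ p : ℂ) * Complex.I))
  swap
  · rw [integral_undef hint, norm_zero]
    positivity
  rw [Measure.volume_eq_prod] at hint ⊢
  rw [integral_prod _ hint]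
  have hlRρ : l * (M * R * (2 * ρ)) ≤ 2 * (c1 * M) := by
    have h1 : ρ * R ≤ c1 * W := by
      rwa [le_div_iff₀ (by linarith)] at hρW
    calc l * (M * R * (2 * ρ)) = 2 * M * l * (ρ * R) := by ring
      _ ≤ 2 * M * l * (c1 * W) := by gcongr
      _ = 2 * (c1 * M) * (l * W) := by ring
      _ = 2 * (c1 * M) := by
        rw [hl, one_div, inv_mul_cancel₀ hW0.ne', mul_one]
  have hone : ∀ t, |t - tc| ≤ ρ → ‖∫ z, b (t, z) * Complex.exp ((Φ (t, z) : ℂ) * Complex.I)‖ ≤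
      C * Bd * M ^ N * ρ ^ m * ((3 * c1 * M) ^ N * (1 / (1 + l * x)) ^ N) := by
    intro t ht
    have hΦt : ContDiff ℝ ∞ fun z : E m => Φ (t, z) :=
      hΦ.comp (contDiff_const.prodMk contDiff_id)
    have hY0 : 0 < (1 + l * x) / (3 * c1 * M) := by positivity
    have h1 := hcore Bd M l ρ ((1 + l * x) / (3 * c1 * M)) (fun z => b (t, z))
      (fun z => Φ (t, z)) zc hBd hM hl0 hl1 hWρ hY0 (hbN t) hΦt
      (fun z hz => hbz t z hz) (fun j hj z => by rw [hlj]; exact hbd j hj t z)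
      (fun j hj1 hj2 z => by
        rw [hl2]
        refine (nsp_slice (hΦ.of_le (by exact_mod_cast le_top)) t z).trans
          ((hΦb j hj1 hj2 (t, z)).trans ?_)
        gcongr)
      (fun y hy => by
        have h3 : ‖fderiv ℝ Φ (tc, zc) - fderiv ℝ Φ (t, y)‖ ≤
            M * R * ‖((tc, zc) : ℝ × E m) - (t, y)‖ := by
          refine (convex_univ (𝕜 := ℝ)).norm_image_sub_le_of_norm_fderiv_le (𝕜 := ℝ)
            (fun z _ => (hΦ.fderiv_right (m := 1) (by norm_cast)).differentiable (by simp) z)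
            (fun z _ => ?_) (mem_univ _) (mem_univ _)
          have h7 : ‖fderiv ℝ (fderiv ℝ Φ) z‖ = ‖iteratedFDeriv ℝ 2 Φ z‖ := by
            rw [← norm_iteratedFDeriv_fderiv, ← norm_iteratedFDeriv_fderiv,
              norm_iteratedFDeriv_zero]
          rw [h7]
          exact hΦb 2 le_rfl (by omega) z
        have h4 : ‖((tc, zc) : ℝ × E m) - (t, y)‖ ≤ 2 * ρ := by
          rw [Prod.mk_sub_mk, Prod.norm_mk]
          refine max_le ?_ ?_
          · rw [Real.norm_eq_abs, abs_sub_comm]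
            linarith
          · rw [norm_sub_rev]
            exact hy
        have h5 : (fderiv ℝ Φ (tc, zc)).comp (ContinuousLinearMap.inr ℝ ℝ (E m)) =
            fderiv ℝ (fun z => Φ (t, z)) y +
              (fderiv ℝ Φ (tc, zc) - fderiv ℝ Φ (t, y)).comp
                (ContinuousLinearMap.inr ℝ ℝ (E m)) := by
          rw [nsp_slice_fderiv hΦ, ← ContinuousLinearMap.add_comp, add_sub_cancel]
        have h6 : ‖ContinuousLinearMap.inr ℝ ℝ (E m)‖ ≤ 1 :=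
          ContinuousLinearMap.opNorm_le_bound _ zero_le_one fun y => by
            rw [ContinuousLinearMap.inr_apply, Prod.norm_mk, norm_zero, one_mul]
            exact max_le (norm_nonneg _) le_rfl
        have h2 : x ≤ ‖fderiv ℝ (fun z => Φ (t, z)) y‖ + M * R * (2 * ρ) := by
          rw [hx, h5]
          refine (norm_add_le _ _).trans (add_le_add le_rfl ?_)
          refine (ContinuousLinearMap.opNorm_comp_le _ _).trans ?_
          refine (mul_le_of_le_one_right (norm_nonneg _) h6).trans (h3.trans ?_)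
          have : 0 ≤ M * R := by positivity
          exact mul_le_mul_of_nonneg_left h4 this
        rw [div_le_iff₀ (by positivity)]
        have h10 : l * x ≤ l * ‖fderiv ℝ (fun z => Φ (t, z)) y‖ + 2 * (c1 * M) := by
          refine (mul_le_mul_of_nonneg_left h2 hl0.le).trans ?_
          rw [mul_add]
          linarith
        have h11 : 0 ≤ l * ‖fderiv ℝ (fun z => Φ (t, z)) y‖ := by positivity
        nlinarith)
    refine h1.trans ?_
    have h12 : (1 / ((1 + l * x) / (3 * c1 * M))) ^ N = (3 * c1 * M) ^ N * (1 / (1 + l * x)) ^ N := by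
      rw [← mul_pow]
      congr 1
      rw [one_div_div]
      ring
    rw [h12]
  have hout : ∀ t, t ∉ closedBall tc ρ →
      ∫ z, b (t, z) * Complex.exp ((Φ (t, z) : ℂ) * Complex.I) = 0 := by
    intro t ht
    rw [mem_closedBall, Real.dist_eq, not_le] at ht
    have : ∀ z : E m, b (t, z) * Complex.exp ((Φ (t, z) : ℂ) * Complex.I) = 0 := by
      intro z
      rw [hbt t z ht, zero_mul]
    simp [this]
  rw [← setIntegral_eq_integral_of_forall_compl_eq_zero hout]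
  refine (norm_setIntegral_le_of_norm_le_const measure_closedBall_lt_top
    fun t ht => hone t (by rwa [mem_closedBall, Real.dist_eq] at ht)).trans (le_of_eq ?_)
  rw [measureReal_def, Real.volume_closedBall, ENNReal.toReal_ofReal (by positivity), pow_succ,
    mul_pow (3 * c1) M, two_mul N, pow_add]
  ring

/-- Non-stationary phase for a cap of radius `ρ` and amplitudes of frequency at most `W`,
`√R ≤ W`, `1 / W ≤ ρ ≤ c1 W / R`. -/
theorem nsp_wide (m n N : ℕ) (c1 A L : ℝ) (hc1 : 1 ≤ c1) : ∃ C : ℝ, 0 ≤ C ∧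
    ∀ (X : ℝ × E m → E n), ContDiff ℝ ∞ X → (∀ j ≤ N + 2, ∀ p, ‖iteratedFDeriv ℝ j X p‖ ≤ A) →
    ∀ (b : ℝ × E m → ℂ) (tc : ℝ) (zc : E m) (R W ρ Bd : ℝ), 1 ≤ R → √R ≤ W → 1 / W ≤ ρ →
    ρ ≤ c1 * W / R → 0 ≤ Bd → (∀ t, ContDiff ℝ N fun z => b (t, z)) →
    (∀ t z, ρ < |t - tc| → b (t, z) = 0) → (∀ t z, ρ < ‖z - zc‖ → b (t, z) = 0) →
    (∀ j ≤ N, ∀ t z, ‖iteratedFDeriv ℝ j (fun z => b (t, z)) z‖ ≤ Bd * W ^ j) →
    ∀ (κ : ℝ) (ξ : E n), |κ| * ‖ξ‖ ≤ L * R →
      ‖∫ p, b p * Complex.exp (((κ * ⟪ξ, X p⟫ : ℝ) : ℂ) * Complex.I)‖ ≤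
        C * Bd * ρ ^ (m + 1) * (1 / (1 + |κ| * ‖Vw X ξ (tc, zc)‖ / W)) ^ N := by
  obtain ⟨C, hC, habs⟩ := nspw_abs m N c1 hc1
  refine ⟨C * (1 + |L| * |A|) ^ (2 * N), by positivity, ?_⟩
  intro X hX hXb b tc zc R W ρ Bd hR hRW hWρ hρW hBd hbN hbt hbz hbd κ ξ hξ
  have hM : 1 ≤ 1 + |L| * |A| := by
    have : 0 ≤ |L| * |A| := by positivity
    linarith
  have hΦ : ContDiff ℝ ∞ fun p => κ * ⟪ξ, X p⟫ := contDiff_const.mul (contDiff_const.inner ℝ hX)
  have hcomp : (fun p => κ * ⟪ξ, X p⟫) = (κ • innerSL ℝ ξ) ∘ X := by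
    funext p
    simp
  have hnorm : ‖κ • innerSL ℝ ξ‖ ≤ |L| * R := by
    rw [norm_smul, innerSL_apply_norm, Real.norm_eq_abs]
    exact hξ.trans (mul_le_mul_of_nonneg_right (le_abs_self L) (by linarith))
  have h1 := habs (1 + |L| * |A|) Bd R W ρ b (fun p => κ * ⟪ξ, X p⟫) tc zc hM hBd hR hRW hWρ hρW
    hΦ (fun j _ hj p => by
      rw [hcomp]
      refine (ContinuousLinearMap.norm_iteratedFDeriv_comp_left _
        (hX.contDiffAt.of_le (by exact_mod_cast le_top)) le_rfl).trans ?_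
      calc ‖κ • innerSL ℝ ξ‖ * ‖iteratedFDeriv ℝ j X p‖ ≤ |L| * R * |A| :=
            mul_le_mul hnorm ((hXb j hj p).trans (le_abs_self A)) (norm_nonneg _) (by positivity)
        _ ≤ (1 + |L| * |A|) * R := by nlinarith)
    hbN hbt hbz hbd
  have h2 : ‖(fderiv ℝ (fun p => κ * ⟪ξ, X p⟫) (tc, zc)).comp
      (ContinuousLinearMap.inr ℝ ℝ (E m))‖ = |κ| * ‖Vw X ξ (tc, zc)‖ := by
    have h3 : (fderiv ℝ (fun p => κ * ⟪ξ, X p⟫) (tc, zc)).comp
        (ContinuousLinearMap.inr ℝ ℝ (E m)) = κ • innerSL ℝ (Vw X ξ (tc, zc)) := by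
      rw [hcomp]
      have h4 : fderiv ℝ ((κ • innerSL ℝ ξ) ∘ X) (tc, zc) =
          (κ • innerSL ℝ ξ).comp (fderiv ℝ X (tc, zc)) :=
        (((κ • innerSL ℝ ξ).hasFDerivAt).comp _
          ((hX.differentiable (by simp)) (tc, zc)).hasFDerivAt).fderiv
      rw [h4]
      ext y
      simp only [ContinuousLinearMap.comp_apply, smul_apply, smul_eq_mul,
        innerSL_apply_apply, Vw, ContinuousLinearMap.adjoint_inner_left, Xz]
    rw [h3, norm_smul, innerSL_apply_norm, Real.norm_eq_abs]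
  rw [h2] at h1
  refine h1.trans (le_of_eq ?_)
  ring

end Pool.Agent.LF2
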