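import Pool.Agent.LF2.ROOF0
import Pool.Agent.LF2.CH3h
import Pool.Agent.LF2.CHPSI
import Pool.Agent.LF2.MULM

/-!
[LEAF2] The roof on the sphere: densities `a(x) G(φ(x), ψ(x))`, where `G(t, z)` is measurable in
`t` and has, near `(φ(x0), ψ(x0))`, a modulus of continuity in the mean in `z` (helper11).
-/

set_option autoImplicit false

namespace Pool.Agent.LF2

open MeasureTheory Set Filter Topology Pool.Agent.MP_6cbfb8_an Pool.Agent.LF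
open scoped ENNReal Real RealInnerProductSpace ContDiff

theorem scale_lint {n : ℕ} (c : ℝ) (hc : 0 < c) (f : E n → ℝ≥0∞) :
    ∫⁻ ξ, f (c • ξ) = ENNReal.ofReal ((c ^ n)⁻¹) * ∫⁻ ξ, f ξ := by
  have h1 : Measure.map (fun ξ : E n => c • ξ) volume =
      ENNReal.ofReal ((c ^ n)⁻¹) • (volume : Measure (E n)) := by
    have h := Measure.map_addHaar_smul (volume : Measure (E n)) hc.ne'
    rw [finrank_euclideanSpace_fin, abs_of_pos (by positivity)] at h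
    exact h
  have he : MeasurableEmbedding (fun ξ : E n => c • ξ) :=
    (Homeomorph.smulOfNeZero c hc.ne').measurableEmbedding
  rw [← he.lintegral_map, h1, lintegral_smul_measure, smul_eq_mul]

/-- General modulus on the sphere. -/
theorem modl_at {m : ℕ} (hm : 1 ≤ m) (φ : E (m + 2) → ℝ) (ψ : E (m + 2) → E m) (x0 : E (m + 2))
    (hx0 : ‖x0‖ = 1) (hφ : ∀ᶠ x in 𝓝 x0, ContDiffAt ℝ ∞ φ x)
    (hψ : ∀ᶠ x in 𝓝 x0, ContDiffAt ℝ ∞ ψ x) (hcyc : Cyc φ x0)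
    (hinj0 : ∀ v, ⟪x0, v⟫ = 0 → fderiv ℝ φ x0 v = 0 → fderiv ℝ ψ x0 v = 0 → v = 0) :
    ∃ U : Set (E (m + 2)), IsOpen U ∧ x0 ∈ U ∧ ∀ a : E (m + 2) → ℂ, ContDiff ℝ ∞ a →
      (∀ x, x ∉ U → a x = 0) → ∀ p p1 q τ H : ℝ, 2 ≤ q → q ≤ p1 →
      2 * ((m : ℝ) + 2) / (m + 1) < p1 → p1 < 4 → p1 ≤ p → (4 - p1) / 2 < τ → τ ≤ q →
      ∃ C : ℝ≥0∞, C ≠ ⊤ ∧ ∀ G : ℝ × E m → ℂ, Measurable G → (∀ y, ‖G y‖ ≤ 1) →
        (∀ v : E m, ‖v‖ ≤ 1 →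
          ∫⁻ y : ℝ × E m in Metric.closedBall (φ x0, ψ x0) 2,
            ‖G (y.1, y.2 + v) - G y‖ₑ ^ q ≤ ENNReal.ofReal (H * ‖v‖ ^ τ)) →
        ∫⁻ ξ, ‖extn (fun x => a x * G (φ x, ψ x)) ξ‖ₑ ^ p ≤ C := by
  obtain ⟨X, A, δ, hδ, hX, hA, hp0, h1, h2, h2', hinj, him, hnb⟩ :=
    chpsi (n := m + 2) rfl hx0 hφ hψ hinj0
  set p0 : ℝ × E m := (φ x0, ψ x0) with hp0def
  have him0 : ∀ v, fderiv ℝ X p0 v = 0 → v = 0 := him p0 (by simpa using hδ.le)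
  have hnear : ∀ᶠ q in 𝓝 p0, ‖q - p0‖ ≤ δ := by
    filter_upwards [Metric.closedBall_mem_nhds p0 hδ] with q hq
    rwa [Metric.mem_closedBall, dist_eq_norm] at hq
  have hN : ∀ w : E (m + 2), w ≠ 0 → (∀ v : E m, ⟪w, fderiv ℝ X p0 (0, v)⟫ = 0) →
      ∀ v : E m, v ≠ 0 → ∃ u : ℝ × E m, ⟪w, fderiv ℝ (fderiv ℝ X) p0 (0, v) u⟫ ≠ 0 := by
    intro w hw hwV v hv
    refine cyc_N (Y := E m) (by rw [finrank_euclideanSpace_fin]) (X := X) (φ := φ) (p := p0)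
      (hX.of_le (by norm_cast)).contDiffAt ?_ ?_ ?_ ?_ ?_ hw hwV hv
    · rw [hp0]
      exact hφ.self_of_nhds.of_le (by norm_cast)
    · exact hnear.mono h1
    · exact hnear.mono h2
    · intro a c hac
      have h3 : fderiv ℝ X p0 (a - c) = 0 := by rw [map_sub, hac, sub_self]
      exact sub_eq_zero.1 (him0 _ h3)
    · rwa [hp0]
  obtain ⟨δ1, hδ1, -, hcore⟩ := core_modl hm X A p0 hδ hX hA h1 him0 hN
  obtain ⟨r, hr, K, hK1, hK2, hK3', hK4⟩ := ch3g x0 X p0 hδ hX hp0 h1 hinj him hnb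
    (min δ1 1) (lt_min hδ1 one_pos)
  have hK3 : ∀ p, K p ≠ 0 → ‖p - p0‖ < δ ∧ ‖p - p0‖ < δ1 := fun p hp =>
    ⟨(hK3' p hp).1, (lt_min_iff.1 (hK3' p hp).2).1⟩
  refine ⟨Metric.ball x0 r, Metric.isOpen_ball, Metric.mem_ball_self hr, ?_⟩
  intro a ha haU p p1 q τ H hq hqp hp1 hp14 hp1p hτ hτq
  set κ : ℝ × E m → ℂ := fun y => a (X y) * K y with hκ
  have hκ1 : ContDiff ℝ ∞ κ := (ha.comp hX).mul hK1
  have hκ2 : HasCompactSupport κ := hK2.mul_left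
  obtain ⟨B, hB0, hB1, -⟩ := smooth_lip hκ1 hκ2
  have hκ3 : ∀ y, κ y ≠ 0 → ‖y - p0‖ ≤ 1 := by
    intro y hy
    have h3 : K y ≠ 0 := by
      intro h
      apply hy
      rw [hκ]
      simp only
      rw [h, mul_zero]
    exact (lt_min_iff.1 (hK3' y h3).2).2.le
  obtain ⟨H', hH', hmul⟩ := mod_mul hκ1 hκ2 p0 hκ3 (q := q) (τ := τ) (H := max H 0)
    (by linarith) hτq (le_max_right _ _)
  obtain ⟨C, hC, hcore'⟩ := hcore p p1 q τ B H' hq hqp hp1 hp14 hp1p hτ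
  refine ⟨ENNReal.ofReal (((2 * π) ^ (m + 2))⁻¹) * C,
    ENNReal.mul_ne_top ENNReal.ofReal_ne_top hC, fun G hG hG1 hmod => ?_⟩
  set g : E (m + 2) → ℂ := fun x => a x * G (φ x, ψ x) with hg
  have hg0 : ∀ x, ‖x‖ = 1 → r ≤ ‖x - x0‖ → g x = 0 := by
    intro x _ hxr
    rw [hg]
    simp only
    rw [haU x, zero_mul]
    rw [Metric.mem_ball, dist_eq_norm, not_lt]
    exact hxr
  have hb : (fun y => g (X y) * K y) = fun y => κ y * G y := by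
    funext y
    by_cases hy : K y = 0
    · rw [hκ]
      simp only
      rw [hy, mul_zero, mul_zero, zero_mul]
    · have h3 := (hK3 y hy).1.le
      rw [hg, hκ]
      simp only
      rw [h2 y h3, h2' y h3]
      ring
  have hmod' : ∀ v : E m, ‖v‖ ≤ 1 → ∫⁻ y : ℝ × E m,
      ‖κ (y.1, y.2 + v) * G (y.1, y.2 + v) - κ y * G y‖ₑ ^ q ≤
        ENNReal.ofReal (H' * ‖v‖ ^ τ) := by
    apply hmul G hG hG1
    intro v hv
    have e : (1 : ℝ) + 1 = 2 := by norm_num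
    rw [e]
    refine (hmod v hv).trans (ENNReal.ofReal_le_ofReal ?_)
    gcongr
    exact le_max_left _ _
  have hfin := hcore' (fun y => κ y * G y) (hκ1.continuous.measurable.mul hG) ?_ hmod' ?_
  · calc ∫⁻ ξ, ‖extn g ξ‖ₑ ^ p
        = ∫⁻ ξ, ‖Tb X (fun y => κ y * G y) ((2 * π) • ξ)‖ₑ ^ p := by
          apply lintegral_congr
          intro ξ
          rw [hK4 g hg0 ξ, hb]
      _ = ENNReal.ofReal (((2 * π) ^ (m + 2))⁻¹) *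
          ∫⁻ ξ, ‖Tb X (fun y => κ y * G y) ξ‖ₑ ^ p :=
          scale_lint (2 * π) (by positivity)
            (fun ξ : E (m + 2) => ‖Tb X (fun y => κ y * G y) ξ‖ₑ ^ p)
      _ ≤ _ := by gcongr
  · intro y
    rw [norm_mul]
    calc ‖κ y‖ * ‖G y‖ ≤ B * 1 := by
          gcongr
          · exact hB1 y
          · exact hG1 y
      _ = B := mul_one B
  · intro y hy
    have h3 : K y = 0 := by
      by_contra h
      exact absurd (hK3 y h).2 (not_lt.2 hy)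
    rw [hκ]
    simp only
    rw [h3, mul_zero, zero_mul]

/-- **The roof on the sphere**: order `(n - 2) / (2 n)` in the mean of order `2 n / (n - 1)` along
the leaves, `n = m + 2`. -/
theorem roof_at {m : ℕ} (hm : 1 ≤ m) (φ : E (m + 2) → ℝ) (ψ : E (m + 2) → E m) (x0 : E (m + 2))
    (hx0 : ‖x0‖ = 1) (hφ : ∀ᶠ x in 𝓝 x0, ContDiffAt ℝ ∞ φ x)
    (hψ : ∀ᶠ x in 𝓝 x0, ContDiffAt ℝ ∞ ψ x) (hcyc : Cyc φ x0)
    (hinj0 : ∀ v, ⟪x0, v⟫ = 0 → fderiv ℝ φ x0 v = 0 → fderiv ℝ ψ x0 v = 0 → v = 0) :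
    ∃ U : Set (E (m + 2)), IsOpen U ∧ x0 ∈ U ∧ ∀ a : E (m + 2) → ℂ, ContDiff ℝ ∞ a →
      (∀ x, x ∉ U → a x = 0) → ∀ p H : ℝ, 2 * ((m : ℝ) + 2) / (m + 1) < p →
      ∃ C : ℝ≥0∞, C ≠ ⊤ ∧ ∀ G : ℝ × E m → ℂ, Measurable G → (∀ y, ‖G y‖ ≤ 1) →
        (∀ v : E m, ‖v‖ ≤ 1 →
          ∫⁻ y : ℝ × E m in Metric.closedBall (φ x0, ψ x0) 2,
            ‖G (y.1, y.2 + v) - G y‖ₑ ^ (2 * ((m : ℝ) + 2) / (m + 1)) ≤
            ENNReal.ofReal (H * ‖v‖ ^ ((m : ℝ) / (m + 1)))) →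
        ∫⁻ ξ, ‖extn (fun x => a x * G (φ x, ψ x)) ξ‖ₑ ^ p ≤ C := by
  obtain ⟨U, hU, hxU, h⟩ := modl_at hm φ ψ x0 hx0 hφ hψ hcyc hinj0
  refine ⟨U, hU, hxU, fun a ha haU p H hp => ?_⟩
  have hm1 : (1 : ℝ) ≤ m := by exact_mod_cast hm
  have hlt4 : 2 * ((m : ℝ) + 2) / (m + 1) < 4 := by
    rw [div_lt_iff₀ (by linarith)]; linarith
  have hge2 : 2 ≤ 2 * ((m : ℝ) + 2) / (m + 1) := by
    rw [le_div_iff₀ (by linarith)]; linarith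
  obtain ⟨p1, h3, h4⟩ := exists_between (lt_min hp hlt4)
  have h5 : p1 < p := (lt_min_iff.1 h4).1
  have h6 : p1 < 4 := (lt_min_iff.1 h4).2
  refine h a ha haU p p1 (2 * ((m : ℝ) + 2) / (m + 1)) ((m : ℝ) / (m + 1)) H hge2 h3.le h3 h6
    h5.le ?_ ?_
  · have e : 2 * ((m : ℝ) + 2) / (m + 1) = 4 - 2 * ((m : ℝ) / (m + 1)) := by
      field_simp; ring
    rw [e] at h3
    linarith
  · refine le_trans ?_ hge2
    rw [div_le_iff₀ (by linarith)]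
    linarith

/-- **Bounded variation along the leaves**, all dimensions. -/
theorem roofBV_at {m : ℕ} (hm : 1 ≤ m) (φ : E (m + 2) → ℝ) (ψ : E (m + 2) → E m)
    (x0 : E (m + 2)) (hx0 : ‖x0‖ = 1) (hφ : ∀ᶠ x in 𝓝 x0, ContDiffAt ℝ ∞ φ x)
    (hψ : ∀ᶠ x in 𝓝 x0, ContDiffAt ℝ ∞ ψ x) (hcyc : Cyc φ x0)
    (hinj0 : ∀ v, ⟪x0, v⟫ = 0 → fderiv ℝ φ x0 v = 0 → fderiv ℝ ψ x0 v = 0 → v = 0) :
    ∃ U : Set (E (m + 2)), IsOpen U ∧ x0 ∈ U ∧ ∀ a : E (m + 2) → ℂ, ContDiff ℝ ∞ a →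
      (∀ x, x ∉ U → a x = 0) → ∀ p V : ℝ, 2 * ((m : ℝ) + 2) / (m + 1) < p →
      ∃ C : ℝ≥0∞, C ≠ ⊤ ∧ ∀ G : ℝ × E m → ℂ, Measurable G → (∀ y, ‖G y‖ ≤ 1) →
        (∀ v : E m, ‖v‖ ≤ 1 →
          ∫⁻ y : ℝ × E m in Metric.closedBall (φ x0, ψ x0) 2,
            ‖G (y.1, y.2 + v) - G y‖ₑ ≤ ENNReal.ofReal (V * ‖v‖)) →
        ∫⁻ ξ, ‖extn (fun x => a x * G (φ x, ψ x)) ξ‖ₑ ^ p ≤ C := by
  obtain ⟨U, hU, hxU, h⟩ := roof_at hm φ ψ x0 hx0 hφ hψ hcyc hinj0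
  refine ⟨U, hU, hxU, fun a ha haU p V hp => ?_⟩
  have hm1 : (1 : ℝ) ≤ m := by exact_mod_cast hm
  set q : ℝ := 2 * ((m : ℝ) + 2) / (m + 1) with hq
  have hge2 : 2 ≤ q := by
    rw [hq, le_div_iff₀ (by linarith)]; linarith
  obtain ⟨C, hC, h'⟩ := h a ha haU p (2 ^ (q - 1) * max V 0) hp
  refine ⟨C, hC, fun G hG hG1 hmod => h' G hG hG1 fun v hv => ?_⟩
  have hpt : ∀ y : ℝ × E m, ‖G (y.1, y.2 + v) - G y‖ₑ ^ q ≤
      2 ^ (q - 1) * ‖G (y.1, y.2 + v) - G y‖ₑ := by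
    intro y
    have h2 : ‖G (y.1, y.2 + v) - G y‖ₑ ≤ 2 := by
      have h3 : ‖G (y.1, y.2 + v) - G y‖ ≤ 2 := by
        calc ‖G (y.1, y.2 + v) - G y‖ ≤ ‖G (y.1, y.2 + v)‖ + ‖G y‖ := norm_sub_le _ _
          _ ≤ 2 := by linarith [hG1 (y.1, y.2 + v), hG1 y]
      rw [← ofReal_norm]
      calc ENNReal.ofReal ‖G (y.1, y.2 + v) - G y‖ ≤ ENNReal.ofReal 2 :=
            ENNReal.ofReal_le_ofReal h3
        _ = 2 := by norm_num
    have h3 : ‖G (y.1, y.2 + v) - G y‖ₑ ^ q =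
        ‖G (y.1, y.2 + v) - G y‖ₑ ^ (q - 1) * ‖G (y.1, y.2 + v) - G y‖ₑ ^ (1 : ℝ) := by
      rw [← ENNReal.rpow_add_of_nonneg _ _ (by linarith) (by norm_num)]
      congr 1
      ring
    rw [h3, ENNReal.rpow_one]
    gcongr
    linarith
  have h2t : (2 : ℝ≥0∞) ^ (q - 1) ≠ ⊤ := ENNReal.rpow_ne_top_of_nonneg (by linarith) (by norm_num)
  calc ∫⁻ y : ℝ × E m in Metric.closedBall (φ x0, ψ x0) 2, ‖G (y.1, y.2 + v) - G y‖ₑ ^ q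
      ≤ ∫⁻ y : ℝ × E m in Metric.closedBall (φ x0, ψ x0) 2,
          2 ^ (q - 1) * ‖G (y.1, y.2 + v) - G y‖ₑ := lintegral_mono hpt
    _ = 2 ^ (q - 1) * ∫⁻ y : ℝ × E m in Metric.closedBall (φ x0, ψ x0) 2,
          ‖G (y.1, y.2 + v) - G y‖ₑ := lintegral_const_mul' _ _ h2t
    _ ≤ 2 ^ (q - 1) * ENNReal.ofReal (max V 0 * ‖v‖) := by
        gcongr
        refine (hmod v hv).trans (ENNReal.ofReal_le_ofReal ?_)
        gcongr
        exact le_max_left _ _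
    _ ≤ ENNReal.ofReal (2 ^ (q - 1) * max V 0 * ‖v‖ ^ ((m : ℝ) / (m + 1))) := by
        have e4 : (2 : ℝ≥0∞) ^ (q - 1) = ENNReal.ofReal (2 ^ (q - 1)) := by
          rw [← ENNReal.ofReal_rpow_of_nonneg (by norm_num) (by linarith)]
          norm_num
        rw [e4, ← ENNReal.ofReal_mul (by positivity)]
        apply ENNReal.ofReal_le_ofReal
        have h5 : ‖v‖ ≤ ‖v‖ ^ ((m : ℝ) / (m + 1)) := by
          rcases (norm_nonneg v).eq_or_lt with h0 | h0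
          · rw [← h0]
            exact Real.rpow_nonneg le_rfl _
          · calc ‖v‖ = ‖v‖ ^ (1 : ℝ) := (Real.rpow_one _).symm
              _ ≤ ‖v‖ ^ ((m : ℝ) / (m + 1)) := by
                  apply Real.rpow_le_rpow_of_exponent_ge h0 hv
                  rw [div_le_iff₀ (by linarith)]
                  linarith
        calc 2 ^ (q - 1) * (max V 0 * ‖v‖) ≤
              2 ^ (q - 1) * (max V 0 * ‖v‖ ^ ((m : ℝ) / (m + 1))) := by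
              apply mul_le_mul_of_nonneg_left _ (by positivity)
              exact mul_le_mul_of_nonneg_left h5 (le_max_right _ _)
          _ = _ := by ring

end Pool.Agent.LF2
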