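import Pool.Agent.LF2.Df
import Pool.Agent.LF2.NSPW
import Pool.Agent.LF.COREAR
import Pool.Agent.LF.CORE2

/-!
[LEAF2] row SQ: orthogonality at the scale `r = max Λ √R / R`.
-/

set_option autoImplicit false

namespace Pool.Agent.LF2

open MeasureTheory Set Metric Pool.Agent.MP_6cbfb8_an Pool.Agent.LF Pool.Agent.GNP
open scoped ENNReal Real RealInnerProductSpace ContDiff ComplexConjugate

/-- Bounds of the derivatives of the pieces along the leaves, amplitudes of frequency `W`. -/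
theorem sqx_bound {m : ℕ} (N : ℕ) (B : ℕ → ℝ) : ∃ Bd : ℝ, 0 ≤ Bd ∧
    ∀ (p0 : ℝ × E m) (r W : ℝ) (M : ℕ) (b : ℝ × E m → ℂ) (c : ℕ × (Fin m → ℕ)), 0 < r →
      1 / r ≤ W → (∀ t, ContDiff ℝ ∞ fun z => b (t, z)) →
      (∀ t k z, ‖iteratedFDeriv ℝ k (fun z => b (t, z)) z‖ ≤ B k * W ^ k) →
      ∀ j ≤ N, ∀ t z, ‖iteratedFDeriv ℝ j (fun z => bcs p0 r M b c (t, z)) z‖ ≤ Bd * W ^ j := by
  obtain ⟨Bc, hBc0, -, hBc⟩ := caps_bounds m
  refine ⟨∑ j ∈ Finset.range (N + 1), ∑ i ∈ Finset.range (j + 1),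
    (j.choose i : ℝ) * Bc i * |B (j - i)|, ?_, ?_⟩
  · exact Finset.sum_nonneg fun j _ => Finset.sum_nonneg fun i _ =>
      mul_nonneg (mul_nonneg (Nat.cast_nonneg _) (hBc0 i)) (abs_nonneg _)
  intro p0 r W M b c hr hrW hb hB j hj t z
  have h0r : 0 < 1 / r := by positivity
  have hW0 : 0 < W := lt_of_lt_of_le h0r hrW
  set u : E m → ℝ := fun z => chi1 p0.1 r M c.1 t * chi2 p0.2 r M c.2 z with hu
  have huc : ContDiff ℝ ∞ u := contDiff_const.mul (contDiff_chi2 p0.2 r M c.2)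
  have e1 : (fun z => bcs p0 r M b c (t, z)) = fun z => u z • b (t, z) := by
    funext z
    simp only [bcs, hu, Complex.real_smul]
  have hub : ∀ i x, ‖iteratedFDeriv ℝ i u x‖ ≤ Bc i * W ^ i := by
    intro i x
    have h2 : u = fun z => chi1 p0.1 r M c.1 t • chi2 p0.2 r M c.2 z := by
      funext z; simp [hu]
    rw [h2]
    have h3 := iteratedFDeriv_const_smul_apply (𝕜 := ℝ) (i := i) (a := chi1 p0.1 r M c.1 t)
      (f := chi2 p0.2 r M c.2) (x := x)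
      ((contDiff_chi2 p0.2 r M c.2).contDiffAt.of_le (by exact_mod_cast le_top))
    have h4 : (fun z => chi1 p0.1 r M c.1 t • chi2 p0.2 r M c.2 z) =
        chi1 p0.1 r M c.1 t • chi2 p0.2 r M c.2 := rfl
    rw [h4, h3, norm_smul, Real.norm_eq_abs, abs_of_nonneg (chi1_nonneg _ _ _ _ _)]
    calc chi1 p0.1 r M c.1 t * ‖iteratedFDeriv ℝ i (chi2 p0.2 r M c.2) x‖ ≤
          1 * (Bc i / r ^ i) := by
          gcongr
          · exact chi1_le_one _ _ _ _ _
          · exact hBc p0.2 r M c.2 hr i x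
      _ = Bc i * (1 / r) ^ i := by rw [one_mul, one_div, inv_pow]; ring
      _ ≤ Bc i * W ^ i := by
          gcongr
          exact hBc0 i
  rw [e1]
  refine (norm_iteratedFDeriv_smul_le huc (hb t) z (n := j) (by exact_mod_cast le_top)).trans ?_
  calc ∑ i ∈ Finset.range (j + 1), (j.choose i : ℝ) * ‖iteratedFDeriv ℝ i u z‖ *
        ‖iteratedFDeriv ℝ (j - i) (fun z => b (t, z)) z‖ ≤
        ∑ i ∈ Finset.range (j + 1), (j.choose i : ℝ) * Bc i * |B (j - i)| * W ^ j := by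
        refine Finset.sum_le_sum fun i hi => ?_
        have hij : i ≤ j := Nat.lt_succ_iff.1 (Finset.mem_range.1 hi)
        calc (j.choose i : ℝ) * ‖iteratedFDeriv ℝ i u z‖ *
              ‖iteratedFDeriv ℝ (j - i) (fun z => b (t, z)) z‖ ≤
              (j.choose i : ℝ) * (Bc i * W ^ i) * (|B (j - i)| * W ^ (j - i)) := by
              gcongr
              · exact mul_nonneg (Nat.cast_nonneg _) (mul_nonneg (hBc0 i) (by positivity))
              · exact hub i z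
              · refine (hB t (j - i) z).trans ?_
                gcongr
                exact le_abs_self _
          _ = (j.choose i : ℝ) * Bc i * |B (j - i)| * (W ^ i * W ^ (j - i)) := by ring
          _ = (j.choose i : ℝ) * Bc i * |B (j - i)| * W ^ j := by
              rw [← pow_add, Nat.add_sub_cancel' hij]
    _ = (∑ i ∈ Finset.range (j + 1), (j.choose i : ℝ) * Bc i * |B (j - i)|) * W ^ j := by
        rw [Finset.sum_mul]
    _ ≤ _ := by
        gcongr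
        refine Finset.single_le_sum (f := fun j => ∑ i ∈ Finset.range (j + 1),
          (j.choose i : ℝ) * Bc i * |B (j - i)|) (fun j _ => Finset.sum_nonneg fun i _ =>
          mul_nonneg (mul_nonneg (Nat.cast_nonneg _) (hBc0 i)) (abs_nonneg _)) ?_
        exact Finset.mem_range.2 (by omega)

/-- The average of a function between `0` and `1`. -/
theorem sqx_avg {m : ℕ} {Λ : ℝ} (hΛ : 0 < Λ) {g : E m → ℝ} (h0 : ∀ y, 0 ≤ g y) (h1 : ∀ y, g y ≤ 1)
    (z : E m) : Λ ^ m * ∫ y in closedBall z (1 / Λ), g y ≤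
      (volume : Measure (E m)).real (closedBall 0 1) := by
  have hv : (volume : Measure (E m)) (closedBall z (1 / Λ)) ≠ ⊤ :=
    measure_closedBall_lt_top.ne
  have h2 : ∫ y in closedBall z (1 / Λ), g y ≤
      (volume : Measure (E m)).real (closedBall z (1 / Λ)) := by
    calc ∫ y in closedBall z (1 / Λ), g y ≤ ∫ _ in closedBall z (1 / Λ), (1 : ℝ) := by
          refine integral_mono_of_nonneg (Filter.Eventually.of_forall h0) ?_
            (Filter.Eventually.of_forall h1)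
          exact integrableOn_const hv
      _ = _ := by rw [setIntegral_const, smul_eq_mul, mul_one]
  have h3 : (volume : Measure (E m)).real (closedBall z (1 / Λ)) =
      (1 / Λ) ^ m * (volume : Measure (E m)).real (closedBall 0 1) := by
    rw [Measure.addHaar_real_closedBall _ _ (by positivity : (0:ℝ) ≤ 1 / Λ),
      Measure.addHaar_real_closedBall _ _ (zero_le_one : (0:ℝ) ≤ 1), finrank_euclideanSpace_fin,
      one_pow, one_mul]
  calc Λ ^ m * ∫ y in closedBall z (1 / Λ), g y ≤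
        Λ ^ m * ((1 / Λ) ^ m * (volume : Measure (E m)).real (closedBall 0 1)) := by
        rw [← h3]
        gcongr
    _ = _ := by
        rw [← mul_assoc, ← mul_pow, mul_one_div_cancel hΛ.ne', one_pow, one_mul]

/-- The derivatives of an amplitude. -/
theorem sqx_amp {m : ℕ} {p0 : ℝ × E m} {δ : ℝ} {B : ℕ → ℝ} {Λ : ℝ} {b : ℝ × E m → ℂ}
    {h : ℝ × E m → ℝ} (hΛ : 1 ≤ Λ) (ha : Amp p0 δ B Λ b h) (t : ℝ) (k : ℕ) (z : E m) :
    ‖iteratedFDeriv ℝ k (fun z => b (t, z)) z‖ ≤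
      |B k| * (volume : Measure (E m)).real (closedBall 0 1) * Λ ^ k := by
  have hΛ0 : 0 < Λ := by linarith
  have h1 := sqx_avg hΛ0 (g := fun y => h (t, y)) (fun y => ha.h0 _) (fun y => ha.h1 _) z
  have h0 : 0 ≤ Λ ^ m * ∫ y in closedBall z (1 / Λ), h (t, y) :=
    mul_nonneg (by positivity) (integral_nonneg fun y => ha.h0 _)
  refine (ha.bound t k z).trans ?_
  calc B k * Λ ^ k * (Λ ^ m * ∫ y in closedBall z (1 / Λ), h (t, y)) ≤
        |B k| * Λ ^ k * (Λ ^ m * ∫ y in closedBall z (1 / Λ), h (t, y)) := by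
        gcongr
        exact le_abs_self _
    _ ≤ |B k| * Λ ^ k * (volume : Measure (E m)).real (closedBall 0 1) := by gcongr
    _ = _ := by ring

/-- SQ: orthogonality (NSP at the scale `r = max Λ √R / R`, COREA_r, caps). -/
theorem core_sq {m : ℕ} {X : ℝ × E m → E (m + 2)} {p0 : ℝ × E m} {δ c C : ℝ} {A : ℕ → ℝ}
    (hm : 1 ≤ m) (hG : Geo X p0 δ c C A) (B : ℕ → ℝ) {ε : ℝ} (hε : 0 < ε) (N : ℕ) :
    ∃ C' : ℝ, 0 ≤ C' ∧ ∀ (R Λ : ℝ) (b : ℝ × E m → ℂ) (h : ℝ × E m → ℝ), 1 ≤ R → 1 ≤ Λ →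
      Amp p0 (δ / 2) B Λ b h → R ^ ε * max Λ √R ≤ R →
      ∫⁻ ξ in Sh (m + 2) R, ‖Tb X b ξ‖ₑ ^ 4 ≤
        ENNReal.ofReal (C' * R ^ ε) *
          (∫⁻ ξ in An (m + 2) R, Sq X p0 (δ / 2) (max Λ √R / R) b ξ ^ 2) +
        ENNReal.ofReal (C' * (1 / R) ^ N) := by
  classical
  -- constants of the chart
  have hX := hG.hX
  have hA := hG.hA
  have hδ := hG.hδ
  set δ1 : ℝ := δ / 2 with hδ1
  have hδ10 : 0 < δ1 := by positivity
  have hA0 : ∀ j, 0 ≤ A j := fun j => (norm_nonneg _).trans (hA j p0)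
  have hXc : Continuous X := hX.continuous
  set ρ : ℝ := √m with hρ
  have hρ1 : 1 ≤ ρ := by
    rw [hρ, Real.one_le_sqrt]
    exact_mod_cast hm
  have hV1 : ∀ (s : ℝ) (w : E (m + 2)) (p : ℝ × E m), Vw X (s • w) p = s • Vw X w p :=
    fun s w p => lf_Vw_smul X s w p
  have hV2 : ∀ (ξ : E (m + 2)) (p p' : ℝ × E m), ‖Vw X ξ p - Vw X ξ p'‖ ≤ A 2 * ‖ξ‖ * ‖p - p'‖ :=
    fun ξ p p' => lf_Vw_lip (hX.of_le (WithTop.coe_le_coe.2 (le_top : (2 : ℕ∞) ≤ ⊤))) (hA 2) ξ p p'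
  -- constants of the rows
  obtain ⟨D0, hD0, hcoreA⟩ := coreAr m (m + 2) (A 2) ρ c C (hA0 2) (by positivity) hG.hc
    (by linarith [hG.hC])
  set σ : ℝ := ε / (2 * m + 2) with hσd
  have hσ : 0 < σ := by positivity
  have hσε : σ ≤ ε := by
    rw [hσd, div_le_iff₀ (by positivity)]
    have : (0 : ℝ) ≤ m := Nat.cast_nonneg m
    nlinarith
  have hσε2 : σ * (2 * m + 2) = ε := by
    rw [hσd]
    field_simp
  set N' : ℕ := ⌈((N : ℝ) + 5 * m + 6) / σ⌉₊ with hNd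
  have hN : (N : ℝ) + 5 * m + 6 ≤ σ * N' := by
    have h2 : ((N : ℝ) + 5 * m + 6) / σ ≤ N' := Nat.le_ceil _
    rw [div_le_iff₀ hσ] at h2
    linarith
  set om : ℝ := (volume : Measure (E m)).real (closedBall 0 1) with hom
  have hom0 : 0 ≤ om := measureReal_nonneg
  obtain ⟨Bd, hBd, hbcs⟩ := sqx_bound (m := m) N' (fun k => |B k| * om)
  set AN : ℝ := ∑ j ∈ Finset.range (N' + 3), A j with hAN
  have hAN1 : ∀ j ≤ N' + 2, ∀ p, ‖iteratedFDeriv ℝ j X p‖ ≤ AN := fun j hj p =>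
    (hA j p).trans (Finset.single_le_sum (fun j _ => hA0 j) (Finset.mem_range.2 (by omega)))
  obtain ⟨Cn, hCn, hnsp⟩ := nsp_wide m (m + 2) N' ρ AN 4 hρ1
  obtain ⟨η, hη1, hη2, hη3, hη4, hη5, hη6⟩ := lff_eta (m + 2)
  obtain ⟨Co, hCo, horth⟩ := orthF_R m (m + 2) N' η hη1 hη2 hη3
  obtain ⟨Cv, hCv, hvol⟩ := core_vol (m + 2)
  set S : ℝ := |B 0| * om * volume.real (closedBall p0 δ1) with hS
  have hS0 : 0 ≤ S := by positivity
  set D1 : ℝ := 7 * (D0 + 1) with hD1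
  have hD10 : 0 ≤ D1 := by positivity
  set Cκ : ℝ := (5 * (δ1 + 1)) ^ (m + 1) with hCκ
  have hCκ0 : 0 ≤ Cκ := by positivity
  set Ce : ℝ := Cn * Bd * ρ ^ (m + 1) with hCe
  have hCe0 : 0 ≤ Ce := by positivity
  refine ⟨2 * D1 ^ (2 * m + 2) + Cκ ^ 4 * (Ce * S ^ 3 * Cv + Co * S ^ 4), by positivity, ?_⟩
  intro R Λ0 b h hR hΛ0 hamp hRa
  have hR0 : 0 < R := by linarith
  have hs : 0 < √R := Real.sqrt_pos.2 hR0
  have hs1 : 1 ≤ √R := Real.one_le_sqrt.2 hR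
  have hsR : √R * √R = R := Real.mul_self_sqrt hR0.le
  set a : ℝ := max Λ0 √R with ha
  have haR : √R ≤ a := le_max_right _ _
  have haΛ : Λ0 ≤ a := le_max_left _ _
  have ha0 : 0 < a := lt_of_lt_of_le hs haR
  have ha1 : 1 ≤ a := hs1.trans haR
  set K : ℝ := R ^ σ with hK
  have hK1 : 1 ≤ K := Real.one_le_rpow hR hσ.le
  have hK0 : 0 < K := by linarith
  have hKε : K ≤ R ^ ε := Real.rpow_le_rpow_of_exponent_le hR hσε
  have hKa : K * a ≤ R := (mul_le_mul_of_nonneg_right hKε ha0.le).trans hRa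
  have haR1 : a ≤ R := (le_mul_of_one_le_left ha0.le hK1).trans hKa
  set r : ℝ := a / R with hr
  have hr0 : 0 < r := by positivity
  have hr1 : r ≤ 1 := by
    rw [hr, div_le_one hR0]
    exact haR1
  have hRr : R * r = a := by
    rw [hr]
    field_simp
  have hra : 1 / r ≤ a := by
    rw [hr, one_div_div, div_le_iff₀ ha0]
    calc R = √R * √R := hsR.symm
      _ ≤ a * a := by gcongr
  have hrR : 1 / r ≤ R := hra.trans haR1
  set M : ℕ := ⌈δ1 / r⌉₊ with hM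
  set Λ : ℝ := K * a with hΛ
  have hΛ1 : R * r ≤ Λ := by
    rw [hRr]
    exact le_mul_of_one_le_left ha0.le hK1
  -- the density
  have hbm : Measurable b := hamp.meas
  have hbs := hamp.smooth
  have hbB : ∀ t k z, ‖iteratedFDeriv ℝ k (fun z => b (t, z)) z‖ ≤ |B k| * om * a ^ k := by
    intro t k z
    refine (sqx_amp hΛ0 hamp t k z).trans ?_
    gcongr
  have hb0 : ∀ p, δ1 < ‖p - p0‖ → b p = 0 := fun p hp => hamp.supp p hp.le
  have hbB0 : ∀ p, ‖b p‖ ≤ |B 0| * om := by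
    intro p
    have h2 := hbB p.1 0 p.2
    rw [norm_iteratedFDeriv_zero, pow_zero, mul_one] at h2
    exact h2
  -- the pieces
  set κ := ↥(gi M ×ˢ gk m M) with hκ
  set pc : κ → ℝ × E m := fun a => pcs p0 r M a.1 with hpc
  set bc : κ → ℝ × E m → ℂ := fun a => bcs p0 r M b a.1 with hbc
  set f : κ → E (m + 2) → ℂ := fun a => Tb X (bc a) with hf
  set T : κ → Set (ℝ × E m) := fun a => {p | bc a p ≠ 0} with hT
  have hbcm : ∀ a, Measurable (bc a) := fun a => bcs_meas p0 r M hbm a.1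
  have hbcB : ∀ a p, ‖bc a p‖ ≤ |B 0| * om := fun a p =>
    (bcs_norm_le p0 r M b a.1 p).trans (hbB0 p)
  have hbc0 : ∀ a p, δ1 < ‖p - p0‖ → bc a p = 0 := by
    intro a p hp
    simp only [hbc, bcs]
    rw [hb0 p hp, mul_zero]
  have hbci : ∀ a, Integrable (bc a) ∧ ∫ p, ‖bc a p‖ ≤ S := fun a =>
    core_int (hbcm a) (hbcB a) (hbc0 a)
  have hfS : ∀ a ξ, ‖f a ξ‖ ≤ S := fun a ξ => (Tb_norm_le X (bc a) ξ).trans (hbci a).2
  have hfm : ∀ a, Measurable (f a) := by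
    intro a
    have h3 := lff_continuous 1 volume X hXc.measurable (bc a) (hbci a).1
    have h4 : f a = lfT 1 volume X (bc a) := by
      funext ξ
      simp only [hf, Tb, lfT, one_mul]
      refine integral_congr_ae (Filter.Eventually.of_forall fun p => ?_)
      simp only
      rw [real_inner_comm]
    rw [h4]
    exact h3.measurable
  have hsum : ∀ ξ, Tb X b ξ = ∑ a : κ, f a ξ := fun ξ =>
    Tb_sum hXc hbm hbB0 hb0 hr0 ξ
  have hsupp : ∀ a, ∀ p, bc a p ≠ 0 → ‖p - pc a‖ ≤ ρ * r ∧ b p ≠ 0 := fun a p hp =>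
    bcs_supp hm hr0 hp
  have hbδ : ∀ p, b p ≠ 0 → ‖p - p0‖ ≤ δ := by
    intro p hp
    by_contra h2
    exact hp (hb0 p (by linarith [not_le.1 h2]))
  set e : ℝ := Ce * (K ^ N')⁻¹ with he
  have he0 : 0 ≤ e := by positivity
  have hNSP : ∀ a ξ, R / 2 ≤ ‖ξ‖ → ‖ξ‖ ≤ 4 * R → Λ ≤ ‖Vw X ξ (pc a)‖ → ‖f a ξ‖ ≤ e := by
    intro a' ξ _ hξ hV
    have h2 := hnsp X hX hAN1 (bc a') (pc a').1 (pc a').2 R a (ρ * r) Bd hR haR ?_ ?_ hBd
      (fun t => (bcs_smooth p0 r M hbs a'.1 t).of_le (by exact_mod_cast le_top)) ?_ ?_ ?_ (-1) ξ ?_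
    · have e1 : f a' ξ = ∫ p, bc a' p *
          Complex.exp ((((-1) * ⟪ξ, X p⟫ : ℝ) : ℂ) * Complex.I) := by
        simp only [hf, Tb, neg_one_mul]
      rw [e1]
      refine h2.trans ?_
      have h3 : K ≤ |(-1 : ℝ)| * ‖Vw X ξ ((pc a').1, (pc a').2)‖ / a := by
        rw [abs_neg, abs_one, one_mul, le_div_iff₀ ha0]
        exact hV
      have h4 : 1 / (1 + |(-1 : ℝ)| * ‖Vw X ξ ((pc a').1, (pc a').2)‖ / a) ≤ 1 / K := by
        refine one_div_le_one_div_of_le hK0 ?_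
        linarith
      have h5 : 0 ≤ 1 / (1 + |(-1 : ℝ)| * ‖Vw X ξ ((pc a').1, (pc a').2)‖ / a) := by positivity
      calc Cn * Bd * (ρ * r) ^ (m + 1) *
            (1 / (1 + |(-1 : ℝ)| * ‖Vw X ξ ((pc a').1, (pc a').2)‖ / a)) ^ N' ≤
            Cn * Bd * (ρ * 1) ^ (m + 1) * (1 / K) ^ N' := by
            gcongr
        _ = e := by rw [he, hCe, one_div, inv_pow, mul_one]
    · -- `1 / a ≤ ρ r`
      rw [div_le_iff₀ ha0]
      have h3 : 1 ≤ r * a := by
        rw [div_le_iff₀ hr0] at hra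
        linarith
      calc (1 : ℝ) ≤ 1 * (r * a) := by linarith
        _ ≤ ρ * (r * a) := by gcongr
        _ = ρ * r * a := by ring
    · rw [hr]
      refine le_of_eq ?_
      ring
    · intro t z ht
      by_contra h3
      obtain ⟨h4, -⟩ := hsupp a' (t, z) h3
      rw [Prod.norm_def] at h4
      exact absurd ((le_max_left _ _).trans h4) (not_le.2 ht)
    · intro t z hz
      by_contra h3
      obtain ⟨h4, -⟩ := hsupp a' (t, z) h3
      rw [Prod.norm_def] at h4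
      exact absurd ((le_max_right _ _).trans h4) (not_le.2 hz)
    · intro j hj t z
      exact hbcs p0 r a M b a'.1 hr0 hra hbs hbB j hj t z
    · rw [abs_neg, abs_one, one_mul]
      exact hξ
  have hΛr : Λ / R = K * r := by
    rw [hΛ, hr]
    ring
  -- CORE-A
  have hstepA := hcoreA X (Vw X) p0 δ R r Λ e (Co * R ^ (m + 2) * (K ^ N')⁻¹ * S ^ 4) S
    ((D1 * K) ^ (m + 1)) η hR hr0 hΛ1 hKa he0 (by positivity) hV1 hV2 ?_ ?_ ?_ hη1.continuous hη3
    hη4 hη5 hη6 κ pc T f ?_ ?_ hfm hfS hNSP ?_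
  rotate_left
  · intro p hp
    rw [mem_closedBall, dist_eq_norm] at hp
    exact hG.unit p hp
  · intro p hp p' hp'
    rw [mem_closedBall, dist_eq_norm] at hp hp'
    exact hG.bl p p' hp hp'
  · intro w hw1 hw2 th p hp p' hp' p'' hp''
    rw [mem_closedBall, dist_eq_norm] at hp hp' hp''
    exact hG.rect w th p p' p'' hw1 hw2 hp hp' hp''
  · intro a' p hp
    obtain ⟨h2, h3⟩ := hsupp a' p hp
    refine ⟨?_, h2⟩
    rw [mem_closedBall, dist_eq_norm]
    exact hbδ p h3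
  · intro a'
    set D : ℝ := (D0 + 1) * K * r with hD
    have hDr : r ≤ D := by
      have h2 : 1 ≤ (D0 + 1) * K := by nlinarith
      calc r = 1 * r := (one_mul r).symm
        _ ≤ (D0 + 1) * K * r := by gcongr
    have hsub : ∀ a'' : κ, ‖pc a' - pc a''‖ ≤ D0 * (Λ / R) →
        |(pc a').1 - tc p0.1 r M a''.1.1| ≤ D ∧ ‖(pc a').2 - zc p0.2 r M a''.1.2‖ ≤ D := by
      intro a'' h2
      rw [hΛr, Prod.norm_def] at h2
      have h3 : D0 * (K * r) ≤ D := by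
        rw [hD]
        have : 0 ≤ K * r := by positivity
        nlinarith
      exact ⟨((le_max_left _ _).trans h2).trans h3, ((le_max_right _ _).trans h2).trans h3⟩
    set Z : Finset (ℕ × (Fin m → ℕ)) :=
      (Set.toFinset {a'' : κ | ‖pc a' - pc a''‖ ≤ D0 * (Λ / R)}).image Subtype.val with hZ
    have h2 : ({a'' : κ | ‖pc a' - pc a''‖ ≤ D0 * (Λ / R)} : Set κ).ncard = Z.card := by
      rw [Set.ncard_eq_toFinset_card', hZ, Finset.card_image_of_injective _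
        Subtype.val_injective]
    rw [h2]
    have h3 := card_caps hr0 p0.1 p0.2 M (pc a').1 (pc a').2 D Z ?_
    · calc (Z.card : ℝ) ≤ (((2 * ⌈2 * (D / r)⌉₊ + 1) ^ (m + 1) : ℕ) : ℝ) := by exact_mod_cast h3
        _ ≤ (7 * (D / r)) ^ (m + 1) := caps_near_le hr0 hDr (m + 1)
        _ = (D1 * K) ^ (m + 1) := by
            congr 1
            rw [hD, hD1]
            field_simp
    · intro c' hc'
      rw [hZ, Finset.mem_image] at hc'
      obtain ⟨a'', ha'', rfl⟩ := hc'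
      rw [Set.mem_toFinset] at ha''
      exact hsub a'' ha''
  · intro a1 a2 a3 a4 hfar
    have h2 := horth X hXc.measurable R ((Λ / R) ^ 2) hR0 (by positivity) (bc a1) (bc a2) (bc a3)
      (bc a4) (hbci a1).1 (hbci a2).1 (hbci a3).1 (hbci a4).1
      (fun p1 p2 p3 p4 g1 g2 g3 g4 => hfar p1 g1 p2 g2 p3 g3 p4 g4)
    refine h2.trans ?_
    have h3 : K ^ N' ≤ (1 + R * (Λ / R) ^ 2) ^ N' := by
      refine pow_le_pow_left₀ hK0.le ?_ N'
      have h4 : R * (Λ / R) ^ 2 = K ^ 2 * (a * r) := by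
        rw [hΛr, hr]
        field_simp
      have h5 : 1 ≤ a * r := by
        rw [div_le_iff₀ hr0] at hra
        exact hra
      rw [h4]
      have h6 : K ^ 2 * 1 ≤ K ^ 2 * (a * r) := by gcongr
      nlinarith
    have h5 : ((1 + R * (Λ / R) ^ 2) ^ N')⁻¹ ≤ (K ^ N')⁻¹ := inv_anti₀ (by positivity) h3
    have h6 : ∀ a, 0 ≤ ∫ p, ‖bc a p‖ := fun a => integral_nonneg fun _ => norm_nonneg _
    calc Co * R ^ (m + 2) * ((1 + R * (Λ / R) ^ 2) ^ N')⁻¹ *
          ((∫ p, ‖bc a1 p‖) * (∫ p, ‖bc a2 p‖) * (∫ p, ‖bc a3 p‖) * (∫ p, ‖bc a4 p‖)) ≤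
          Co * R ^ (m + 2) * (K ^ N')⁻¹ * (S * S * S * S) := by
          gcongr
          · exact (hbci a1).2
          · exact (hbci a2).2
          · exact (hbci a3).2
          · exact (hbci a4).2
      _ = _ := by ring
  -- assembly
  have hvf : volume (An (m + 2) R) ≠ ⊤ := ne_top_of_le_ne_top ENNReal.ofReal_ne_top (hvol R hR)
  set v : ℝ := volume.real (An (m + 2) R) with hv
  have hv1 : v ≤ Cv * R ^ (m + 2) := by
    rw [hv, measureReal_def]
    exact ENNReal.toReal_le_of_le_ofReal (by positivity) (hvol R hR)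
  have hv0 : 0 ≤ v := measureReal_nonneg
  set n0 : ℝ := ((Fintype.card κ : ℕ) : ℝ) with hn0
  have hn00 : 0 ≤ n0 := Nat.cast_nonneg _
  have hn01 : n0 ≤ Cκ * R ^ (m + 1) := by
    have h2 : (M : ℝ) < δ1 / r + 1 := Nat.ceil_lt_add_one (by positivity)
    have h3 : δ1 / r ≤ δ1 * R := by
      rw [div_eq_mul_one_div]
      gcongr
    have h4 : n0 = (2 * (M : ℝ) + 1) ^ (m + 1) := by
      rw [hn0, Fintype.card_coe, Finset.card_product, card_gi, card_gk, ← pow_succ']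
      push_cast
      ring
    rw [h4, hCκ, ← mul_pow]
    refine pow_le_pow_left₀ (by positivity) ?_ _
    nlinarith
  have hKN : (K ^ N')⁻¹ ≤ (R ^ (N + 5 * m + 6))⁻¹ := by
    refine inv_anti₀ (by positivity) ?_
    rw [hK, ← Real.rpow_natCast (R ^ σ), ← Real.rpow_mul hR0.le, ← Real.rpow_natCast R]
    refine Real.rpow_le_rpow_of_exponent_le hR ?_
    push_cast
    exact hN
  have hKN0 : 0 ≤ (K ^ N')⁻¹ := by positivity
  have hpow : R ^ (5 * m + 6) * (R ^ (N + 5 * m + 6))⁻¹ = (1 / R) ^ N := by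
    rw [one_div, inv_pow, add_assoc, pow_add R N]
    field_simp
  have hK2 : ((D1 * K) ^ (m + 1)) ^ 2 = D1 ^ (2 * m + 2) * R ^ ε := by
    rw [← pow_mul, mul_pow]
    have e1 : (m + 1) * 2 = 2 * m + 2 := by ring
    rw [e1, hK, ← Real.rpow_natCast (R ^ σ), ← Real.rpow_mul hR0.le]
    congr 2
    push_cast
    exact hσε2
  have herr : n0 ^ 4 * (e * S ^ 3 * v + Co * R ^ (m + 2) * (K ^ N')⁻¹ * S ^ 4) ≤
      Cκ ^ 4 * (Ce * S ^ 3 * Cv + Co * S ^ 4) * (1 / R) ^ N := by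
    calc n0 ^ 4 * (e * S ^ 3 * v + Co * R ^ (m + 2) * (K ^ N')⁻¹ * S ^ 4) ≤
          (Cκ * R ^ (m + 1)) ^ 4 * (Ce * (R ^ (N + 5 * m + 6))⁻¹ * S ^ 3 * (Cv * R ^ (m + 2)) +
            Co * R ^ (m + 2) * (R ^ (N + 5 * m + 6))⁻¹ * S ^ 4) := by
          rw [he]
          gcongr
      _ = Cκ ^ 4 * (Ce * S ^ 3 * Cv + Co * S ^ 4) *
          (R ^ (5 * m + 6) * (R ^ (N + 5 * m + 6))⁻¹) := by ring
      _ = _ := by rw [hpow]
  have hRε : 0 ≤ R ^ ε := by positivity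
  calc ∫⁻ ξ in Sh (m + 2) R, ‖Tb X b ξ‖ₑ ^ 4 =
      ∫⁻ ξ in {ξ : E (m + 2) | R ≤ ‖ξ‖ ∧ ‖ξ‖ ≤ 2 * R}, ‖∑ a, f a ξ‖ₑ ^ 4 := by
        unfold Sh
        simp_rw [hsum]
    _ ≤ ENNReal.ofReal (2 * ((D1 * K) ^ (m + 1)) ^ 2) *
          (∫⁻ ξ in {ξ : E (m + 2) | R / 2 ≤ ‖ξ‖ ∧ ‖ξ‖ ≤ 4 * R}, (∑ a, ‖f a ξ‖ₑ ^ 2) ^ 2) +
          ENNReal.ofReal (n0 ^ 4 * (e * S ^ 3 * v + Co * R ^ (m + 2) * (K ^ N')⁻¹ * S ^ 4)) :=
        hstepA
    _ ≤ _ := by
        refine add_le_add (mul_le_mul' (ENNReal.ofReal_le_ofReal ?_) le_rfl)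
          (ENNReal.ofReal_le_ofReal ?_)
        · rw [hK2]
          have h2 : 0 ≤ Cκ ^ 4 * (Ce * S ^ 3 * Cv + Co * S ^ 4) * R ^ ε := by positivity
          nlinarith
        · refine herr.trans ?_
          gcongr
          have : 0 ≤ 2 * D1 ^ (2 * m + 2) := by positivity
          linarith

end Pool.Agent.LF2
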