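import Pool.Agent.LF2.Df
import Pool.Agent.LF2.NSPW

/-!
LEAF2, for the row SQ: the pieces of an amplitude away from their critical frequencies.
-/

set_option autoImplicit false

namespace Pool.Agent.LF2

open MeasureTheory Set Metric Pool.Agent.MP_6cbfb8_an Pool.Agent.LF
open scoped ENNReal Real RealInnerProductSpace ContDiff

/-- Bounds of the derivatives of the pieces along the leaves, at the scale `1 / W ≤ r`. -/
theorem sq_bound {m : ℕ} (N : ℕ) (B : ℕ → ℝ) : ∃ Bd : ℝ, 0 ≤ Bd ∧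
    ∀ (p0 : ℝ × E m) (r W : ℝ) (M : ℕ) (b : ℝ × E m → ℂ) (c : ℕ × (Fin m → ℕ)), 0 < r →
      1 / r ≤ W → (∀ t, ContDiff ℝ ∞ fun z => b (t, z)) →
      (∀ t k z, ‖iteratedFDeriv ℝ k (fun z => b (t, z)) z‖ ≤ B k * W ^ k) →
      ∀ j ≤ N, ∀ t z, ‖iteratedFDeriv ℝ j (fun z => bcs p0 r M b c (t, z)) z‖ ≤ Bd * W ^ j := by
  obtain ⟨Bc, hBc0, -, hBc⟩ := caps_bounds m
  refine ⟨∑ j ∈ Finset.range (N + 1), ∑ i ∈ Finset.range (j + 1),
    (j.choose i : ℝ) * Bc i * |B (j - i)|, ?_, ?_⟩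
  · exact Finset.sum_nonneg fun j _ => Finset.sum_nonneg fun i _ =>
      mul_nonneg (mul_nonneg (Nat.cast_nonneg _) (hBc0 i)) (abs_nonneg _)
  intro p0 r W M b c hr hrW hb hB j hj t z
  have hr0 : 0 < 1 / r := by positivity
  have hW0 : 0 < W := hr0.trans_le hrW
  set u : E m → ℝ := fun z => chi1 p0.1 r M c.1 t * chi2 p0.2 r M c.2 z with hu
  have huc : ContDiff ℝ ∞ u := contDiff_const.mul (contDiff_chi2 p0.2 r M c.2)
  have e1 : (fun z => bcs p0 r M b c (t, z)) = fun z => u z • b (t, z) := by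
    funext z
    simp only [bcs, hu, Complex.real_smul]
  have hub : ∀ i x, ‖iteratedFDeriv ℝ i u x‖ ≤ Bc i * W ^ i := by
    intro i x
    have h2 : u = fun z => chi1 p0.1 r M c.1 t • chi2 p0.2 r M c.2 z := by
      funext z; simp [hu]
    rw [h2]
    have h3 := iteratedFDeriv_const_smul_apply (𝕜 := ℝ) (i := i) (a := chi1 p0.1 r M c.1 t)
      (f := chi2 p0.2 r M c.2) (x := x)
      ((contDiff_chi2 p0.2 r M c.2).contDiffAt.of_le (by exact_mod_cast le_top))
    have h4 : (fun z => chi1 p0.1 r M c.1 t • chi2 p0.2 r M c.2 z) =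
        chi1 p0.1 r M c.1 t • chi2 p0.2 r M c.2 := rfl
    rw [h4, h3, norm_smul, Real.norm_eq_abs, abs_of_nonneg (chi1_nonneg _ _ _ _ _)]
    calc chi1 p0.1 r M c.1 t * ‖iteratedFDeriv ℝ i (chi2 p0.2 r M c.2) x‖ ≤
          1 * (Bc i / r ^ i) := by
          gcongr
          · exact chi1_le_one _ _ _ _ _
          · exact hBc p0.2 r M c.2 hr i x
      _ = Bc i * (1 / r) ^ i := by rw [one_mul, one_div, inv_pow]; ring
      _ ≤ Bc i * W ^ i :=
          mul_le_mul_of_nonneg_left (pow_le_pow_left₀ hr0.le hrW i) (hBc0 i)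
  rw [e1]
  refine (norm_iteratedFDeriv_smul_le huc (hb t) z (n := j) (by exact_mod_cast le_top)).trans ?_
  calc ∑ i ∈ Finset.range (j + 1), (j.choose i : ℝ) * ‖iteratedFDeriv ℝ i u z‖ *
        ‖iteratedFDeriv ℝ (j - i) (fun z => b (t, z)) z‖ ≤
        ∑ i ∈ Finset.range (j + 1), (j.choose i : ℝ) * Bc i * |B (j - i)| * W ^ j := by
        refine Finset.sum_le_sum fun i hi => ?_
        have hij : i ≤ j := Nat.lt_succ_iff.1 (Finset.mem_range.1 hi)
        calc (j.choose i : ℝ) * ‖iteratedFDeriv ℝ i u z‖ *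
              ‖iteratedFDeriv ℝ (j - i) (fun z => b (t, z)) z‖ ≤
              (j.choose i : ℝ) * (Bc i * W ^ i) * (|B (j - i)| * W ^ (j - i)) := by
              gcongr
              · exact mul_nonneg (Nat.cast_nonneg _) (mul_nonneg (hBc0 i) (by positivity))
              · exact hub i z
              · refine (hB t (j - i) z).trans ?_
                gcongr
                exact le_abs_self _
          _ = (j.choose i : ℝ) * Bc i * |B (j - i)| * (W ^ i * W ^ (j - i)) := by ring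
          _ = (j.choose i : ℝ) * Bc i * |B (j - i)| * W ^ j := by
              rw [← pow_add, Nat.add_sub_cancel' hij]
    _ = (∑ i ∈ Finset.range (j + 1), (j.choose i : ℝ) * Bc i * |B (j - i)|) * W ^ j := by
        rw [Finset.sum_mul]
    _ ≤ _ := by
        gcongr
        refine Finset.single_le_sum (f := fun j => ∑ i ∈ Finset.range (j + 1),
          (j.choose i : ℝ) * Bc i * |B (j - i)|) (fun j _ => Finset.sum_nonneg fun i _ =>
          mul_nonneg (mul_nonneg (Nat.cast_nonneg _) (hBc0 i)) (abs_nonneg _)) ?_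
        exact Finset.mem_range.2 (by omega)

/-- The derivatives of an amplitude. -/
theorem sq_amp (m : ℕ) (B : ℕ → ℝ) : ∃ B' : ℕ → ℝ, (∀ k, 0 ≤ B' k) ∧
    ∀ (p0 : ℝ × E m) (δ Λ W : ℝ) (b : ℝ × E m → ℂ) (h : ℝ × E m → ℝ), 1 ≤ Λ → Λ ≤ W →
      Amp p0 δ B Λ b h →
      ∀ t k z, ‖iteratedFDeriv ℝ k (fun z => b (t, z)) z‖ ≤ B' k * W ^ k := by
  set vB : ℝ := (volume : Measure (E m)).real (ball 0 1) with hvB
  have hvB0 : 0 ≤ vB := measureReal_nonneg
  refine ⟨fun k => |B k| * vB, fun k => by positivity, ?_⟩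
  intro p0 δ Λ W b h hΛ hΛW hA t k z
  have hΛ0 : 0 < Λ := by linarith
  have h1 : 0 ≤ ∫ y in closedBall z (1 / Λ), h (t, y) := integral_nonneg fun y => hA.h0 _
  have h2 : ∫ y in closedBall z (1 / Λ), h (t, y) ≤ (1 / Λ) ^ m * vB := by
    have h3 : ‖∫ y in closedBall z (1 / Λ), h (t, y)‖ ≤
        1 * (volume : Measure (E m)).real (closedBall z (1 / Λ)) :=
      norm_setIntegral_le_of_norm_le_const measure_closedBall_lt_top fun y _ => by
        rw [Real.norm_of_nonneg (hA.h0 _)]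
        exact hA.h1 _
    rw [Measure.addHaar_real_closedBall _ _ (by positivity), finrank_euclideanSpace_fin,
      one_mul] at h3
    exact (le_abs_self _).trans h3
  have h4 : Λ ^ m * ∫ y in closedBall z (1 / Λ), h (t, y) ≤ vB := by
    calc Λ ^ m * ∫ y in closedBall z (1 / Λ), h (t, y) ≤ Λ ^ m * ((1 / Λ) ^ m * vB) :=
          mul_le_mul_of_nonneg_left h2 (by positivity)
      _ = (Λ * (1 / Λ)) ^ m * vB := by rw [mul_pow]; ring
      _ = vB := by rw [mul_one_div_cancel hΛ0.ne', one_pow, one_mul]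
  calc ‖iteratedFDeriv ℝ k (fun z => b (t, z)) z‖ ≤
        B k * Λ ^ k * (Λ ^ m * ∫ y in closedBall z (1 / Λ), h (t, y)) := hA.bound t k z
    _ ≤ |B k| * Λ ^ k * (Λ ^ m * ∫ y in closedBall z (1 / Λ), h (t, y)) := by
        gcongr
        exact le_abs_self _
    _ ≤ |B k| * Λ ^ k * vB := by gcongr
    _ ≤ |B k| * W ^ k * vB := by gcongr
    _ = |B k| * vB * W ^ k := by ring

variable {m : ℕ} {X : ℝ × E m → E (m + 2)} {p0 : ℝ × E m} {δ c C : ℝ} {A : ℕ → ℝ}

/-- Non-stationary phase for the pieces of an amplitude. -/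
theorem sq_nsp (hG : Geo X p0 δ c C A) (B : ℕ → ℝ) (N : ℕ) :
    ∃ C' : ℝ, 0 ≤ C' ∧ ∀ (δ' R Λ : ℝ) (b : ℝ × E m → ℂ) (h : ℝ × E m → ℝ), 1 ≤ R → 1 ≤ Λ →
      Amp p0 δ' B Λ b h → ∀ (M : ℕ) (a : ℕ × (Fin m → ℕ)) (ξ : E (m + 2)), ‖ξ‖ ≤ 8 * R →
      ‖Tb X (bcs p0 (max Λ √R / R) M b a) ξ‖ ≤ C' * (max Λ √R / R) ^ (m + 1) *
        (1 / (1 + ‖Vw X ξ (pcs p0 (max Λ √R / R) M a)‖ / max Λ √R)) ^ N := by
  obtain ⟨B', hB'0, hB'⟩ := sq_amp m B
  obtain ⟨Bd, hBd0, hBd⟩ := sq_bound (m := m) N B'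
  set c1 : ℝ := max 1 √m with hc1
  have hc11 : 1 ≤ c1 := le_max_left _ _
  obtain ⟨C1, hC1, hnsp⟩ := nsp_wide m (m + 2) N c1 (∑ j ∈ Finset.range (N + 3), |A j|) 8 hc11
  refine ⟨C1 * Bd * c1 ^ (m + 1), by positivity, ?_⟩
  intro δ' R Λ b h hR hΛ hA M a ξ hξ
  have hR0 : 0 < R := by linarith
  set W : ℝ := max Λ √R with hW
  have hW1 : 1 ≤ W := hΛ.trans (le_max_left _ _)
  have hW0 : 0 < W := by linarith
  have hRW : √R ≤ W := le_max_right _ _
  have hRW2 : R ≤ W ^ 2 := by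
    calc R = √R ^ 2 := (Real.sq_sqrt hR0.le).symm
      _ ≤ W ^ 2 := pow_le_pow_left₀ (Real.sqrt_nonneg R) hRW 2
  have hr0 : 0 < W / R := by positivity
  have hrW : 1 / (W / R) ≤ W := by
    rw [one_div_div, div_le_iff₀ hW0, ← sq]
    exact hRW2
  have hWr : 1 / W ≤ W / R := by
    rw [div_le_div_iff₀ hW0 hR0, one_mul, ← sq]
    exact hRW2
  have hρr : W / R ≤ c1 * W / R := by
    rw [mul_div_assoc]
    exact le_mul_of_one_le_left hr0.le hc11
  have hXA : ∀ j ≤ N + 2, ∀ p, ‖iteratedFDeriv ℝ j X p‖ ≤ ∑ j ∈ Finset.range (N + 3), |A j| := by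
    intro j hj p
    refine (hG.hA j p).trans ((le_abs_self _).trans ?_)
    exact Finset.single_le_sum (f := fun j => |A j|) (fun i _ => abs_nonneg _)
      (Finset.mem_range.2 (by omega))
  have h1 := hnsp X hG.hX hXA (bcs p0 (W / R) M b a) (pcs p0 (W / R) M a).1
    (pcs p0 (W / R) M a).2 R W (c1 * W / R) Bd hR hRW (hWr.trans hρr) le_rfl hBd0
    (fun t => (bcs_smooth p0 (W / R) M hA.smooth a t).of_le (by exact_mod_cast le_top))
    (fun t z ht => by
      have h2 : chi1 p0.1 (W / R) M a.1 t = 0 := chi1_zero hr0 (hρr.trans ht.le)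
      simp only [bcs]
      rw [h2, zero_mul, Complex.ofReal_zero, zero_mul])
    (fun t z hz => by
      have h2 : chi2 p0.2 (W / R) M a.2 z = 0 := by
        refine chi2_zero hr0 (lt_of_le_of_lt ?_ hz)
        rw [mul_div_assoc]
        exact mul_le_mul_of_nonneg_right (le_max_right _ _) hr0.le
      simp only [bcs]
      rw [h2, mul_zero, Complex.ofReal_zero, zero_mul])
    (fun j hj t z => hBd p0 (W / R) W M b a hr0 hrW hA.smooth
      (hB' p0 δ' Λ W b h hΛ (le_max_left _ _) hA) j hj t z) (-1) ξ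
    (by rw [abs_neg, abs_one, one_mul]; exact hξ)
  have e1 : Tb X (bcs p0 (W / R) M b a) ξ =
      ∫ p, bcs p0 (W / R) M b a p * Complex.exp (((-1 * ⟪ξ, X p⟫ : ℝ) : ℂ) * Complex.I) := by
    unfold Tb
    simp only [neg_one_mul]
  rw [e1]
  refine h1.trans (le_of_eq ?_)
  rw [abs_neg, abs_one, one_mul, mul_div_assoc c1, mul_pow]
  ring

end Pool.Agent.LF2
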